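import Mathlib

/-!
Limits of locally bounded families of holomorphic functions along an arbitrary filter.
-/

open Topology Filter Set

namespace Pool.Agent.Lib.MP_1f4a82_an

/-- Cauchy estimate: a holomorphic function bounded by `M` on `ball z₀ (2 r)` is `M/r`-Lipschitz
on `ball z₀ r`. -/
theorem lipschitz_of_bounded {F : ℂ → ℂ} {z₀ : ℂ} {r M : ℝ} (hr : 0 < r)
    (hF : DifferentiableOn ℂ F (Metric.ball z₀ (2 * r)))
    (hb : ∀ z ∈ Metric.ball z₀ (2 * r), ‖F z‖ ≤ M) {z w : ℂ} (hz : z ∈ Metric.ball z₀ r)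
    (hw : w ∈ Metric.ball z₀ r) : ‖F z - F w‖ ≤ M / r * ‖z - w‖ := by
  have hder : ∀ x ∈ Metric.ball z₀ r, ‖deriv F x‖ ≤ M / r := by
    intro x hx
    have hsub : Metric.closedBall x r ⊆ Metric.ball z₀ (2 * r) := by
      intro y hy
      rw [Metric.mem_ball] at hx ⊢
      rw [Metric.mem_closedBall] at hy
      calc dist y z₀ ≤ dist y x + dist x z₀ := dist_triangle _ _ _
        _ < r + r := add_lt_add_of_le_of_lt hy hx
        _ = 2 * r := by ring
    refine Complex.norm_deriv_le_of_forall_mem_sphere_norm_le hr ?_ ?_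
    · exact (hF.mono hsub).diffContOnCl_ball le_rfl
    · intro y hy
      exact hb y (hsub (Metric.sphere_subset_closedBall hy))
  refine Convex.norm_image_sub_le_of_norm_deriv_le ?_ hder (convex_ball z₀ r) hw hz
  intro x hx
  refine hF.differentiableAt (Metric.isOpen_ball.mem_nhds ?_)
  exact Metric.ball_subset_ball (by linarith) hx

theorem tendstoLocallyUniformlyOn_of_bounded {ι : Type*} {l : Filter ι} [l.NeBot] {F : ι → ℂ → ℂ}
    {g : ℂ → ℂ} {Ω : Set ℂ} (hΩ : IsOpen Ω)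
    (hF : ∀ᶠ n in l, DifferentiableOn ℂ (F n) Ω) {M : ℝ} (hb : ∀ᶠ n in l, ∀ z ∈ Ω, ‖F n z‖ ≤ M)
    (hlim : ∀ z ∈ Ω, Tendsto (fun n => F n z) l (𝓝 (g z))) :
    TendstoLocallyUniformlyOn F g l Ω ∧ DifferentiableOn ℂ g Ω := by
  have h1 : TendstoLocallyUniformlyOn F g l Ω := by
    rw [Metric.tendstoLocallyUniformlyOn_iff]
    intro ε hε x hx
    obtain ⟨R, hR, hball⟩ := Metric.isOpen_iff.mp hΩ x hx
    obtain ⟨n₀, hn₀⟩ := (hb.exists)
    have hM : 0 ≤ M := (norm_nonneg _).trans (hn₀ x hx)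
    set r : ℝ := R / 2 with hr
    have hr0 : 0 < r := by positivity
    have hball' : Metric.ball x (2 * r) ⊆ Ω := by
      have : 2 * r = R := by rw [hr]; ring
      rw [this]; exact hball
    have hlipn : ∀ᶠ n in l, ∀ y ∈ Metric.ball x r, ‖F n y - F n x‖ ≤ M / r * ‖y - x‖ := by
      filter_upwards [hF, hb] with n hn1 hn2 y hy
      exact lipschitz_of_bounded hr0 (hn1.mono hball') (fun z hz => hn2 z (hball' hz)) hy
        (Metric.mem_ball_self hr0)
    have hlipg : ∀ y ∈ Metric.ball x r, ‖g y - g x‖ ≤ M / r * ‖y - x‖ := by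
      intro y hy
      have hy' : y ∈ Ω := hball' (Metric.ball_subset_ball (by linarith) hy)
      have ht : Tendsto (fun n => ‖F n y - F n x‖) l (𝓝 ‖g y - g x‖) :=
        ((hlim y hy').sub (hlim x hx)).norm
      refine le_of_tendsto ht ?_
      filter_upwards [hlipn] with n hn using hn y hy
    set δ : ℝ := min r (ε / (3 * (M / r + 1))) with hδ
    have hMr : 0 < M / r + 1 := by positivity
    have hδ0 : 0 < δ := by
      rw [hδ]; exact lt_min hr0 (by positivity)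
    have hsmall : ∀ y ∈ Metric.ball x δ, M / r * ‖y - x‖ ≤ ε / 3 := by
      intro y hy
      rw [Metric.mem_ball, dist_eq_norm] at hy
      have h2 : ‖y - x‖ ≤ ε / (3 * (M / r + 1)) := (hy.le).trans (min_le_right _ _)
      calc M / r * ‖y - x‖ ≤ (M / r + 1) * ‖y - x‖ :=
            mul_le_mul_of_nonneg_right (by linarith) (norm_nonneg _)
        _ ≤ (M / r + 1) * (ε / (3 * (M / r + 1))) := mul_le_mul_of_nonneg_left h2 hMr.le
        _ = ε / 3 := by field_simp
    refine ⟨Metric.ball x δ, mem_nhdsWithin_of_mem_nhds (Metric.ball_mem_nhds x hδ0), ?_⟩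
    have hx' : ∀ᶠ n in l, ‖F n x - g x‖ < ε / 3 := by
      have := (hlim x hx).eventually (Metric.ball_mem_nhds (g x) (by positivity : 0 < ε / 3))
      filter_upwards [this] with n hn
      rw [← dist_eq_norm]; exact hn
    filter_upwards [hlipn, hx'] with n hn1 hn2 y hy
    have hyr : y ∈ Metric.ball x r := Metric.ball_subset_ball (min_le_left _ _) hy
    have e1 := hn1 y hyr
    have e2 := hlipg y hyr
    have e3 := hsmall y hy
    rw [dist_eq_norm]
    have e4 : g y - F n y = (g y - g x) - (F n x - g x) - (F n y - F n x) := by ring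
    rw [e4]
    calc ‖(g y - g x) - (F n x - g x) - (F n y - F n x)‖
        ≤ ‖(g y - g x) - (F n x - g x)‖ + ‖F n y - F n x‖ := norm_sub_le _ _
      _ ≤ ‖g y - g x‖ + ‖F n x - g x‖ + ‖F n y - F n x‖ := by
          gcongr; exact norm_sub_le _ _
      _ < ε / 3 + ε / 3 + ε / 3 := by
          have := e2.trans e3
          have := e1.trans e3
          linarith
      _ = ε := by ring
  exact ⟨h1, h1.differentiableOn hF hΩ⟩

theorem hurwitz_of_bounded {ι : Type*} {l : Filter ι} [l.NeBot] {F : ι → ℂ → ℂ} {g : ℂ → ℂ}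
    {Ω : Set ℂ} (hΩ : IsOpen Ω) (hΩc : IsPreconnected Ω)
    (hF : ∀ᶠ n in l, DifferentiableOn ℂ (F n) Ω) {M : ℝ} (hb : ∀ᶠ n in l, ∀ z ∈ Ω, ‖F n z‖ ≤ M)
    (hlim : ∀ z ∈ Ω, Tendsto (fun n => F n z) l (𝓝 (g z))) (hne : ∀ᶠ n in l, ∀ z ∈ Ω, F n z ≠ 0)
    {z₀ : ℂ} (hz₀ : z₀ ∈ Ω) (hg : g z₀ = 0) :
    ∀ z ∈ Ω, g z = 0 := by
  obtain ⟨hu, hd⟩ := tendstoLocallyUniformlyOn_of_bounded hΩ hF hb hlim
  by_contra hcon
  push Not at hcon
  obtain ⟨z₁, hz₁, hgz₁⟩ := hcon
  have hga : AnalyticOnNhd ℂ g Ω := hd.analyticOnNhd hΩ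
  have hiso : ∀ᶠ z in 𝓝[≠] z₀, g z ≠ 0 := by
    rcases (hga z₀ hz₀).eventually_eq_zero_or_eventually_ne_zero with h | h
    · exfalso
      exact hgz₁ (hga.eqOn_zero_of_preconnected_of_eventuallyEq_zero hΩc hz₀ h hz₁)
    · exact h
  rw [eventually_nhdsWithin_iff] at hiso
  obtain ⟨r₁, hr₁, h1⟩ := Metric.eventually_nhds_iff_ball.mp hiso
  obtain ⟨r₂, hr₂, h2⟩ := Metric.isOpen_iff.mp hΩ z₀ hz₀
  set r : ℝ := min r₁ r₂ / 2 with hr
  have hr0 : 0 < r := by rw [hr]; have := lt_min hr₁ hr₂; positivity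
  have hrlt1 : r < r₁ := by
    have := lt_min hr₁ hr₂
    have h3 : min r₁ r₂ ≤ r₁ := min_le_left _ _
    rw [hr]; linarith
  have hrlt2 : r < r₂ := by
    have := lt_min hr₁ hr₂
    have h3 : min r₁ r₂ ≤ r₂ := min_le_right _ _
    rw [hr]; linarith
  have hcb : Metric.closedBall z₀ r ⊆ Ω := (Metric.closedBall_subset_ball hrlt2).trans h2
  have hsph : IsCompact (Metric.sphere z₀ r) := isCompact_sphere z₀ r
  have hsphne : (Metric.sphere z₀ r).Nonempty := NormedSpace.sphere_nonempty.mpr hr0.le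
  have hgc : ContinuousOn (fun z => ‖g z‖) (Metric.sphere z₀ r) :=
    (hd.continuousOn.mono (Metric.sphere_subset_closedBall.trans hcb)).norm
  obtain ⟨s, hs, hmin⟩ := hsph.exists_isMinOn hsphne hgc
  have hs0 : 0 < ‖g s‖ := by
    rw [norm_pos_iff]
    refine h1 s ?_ ?_
    · rw [Metric.mem_ball]
      rw [Metric.mem_sphere] at hs
      rw [hs]; exact hrlt1
    · intro h
      rw [Set.mem_singleton_iff] at h
      rw [h, Metric.mem_sphere, dist_self] at hs
      exact hr0.ne hs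
  set μ : ℝ := ‖g s‖ / 2 with hμ
  have hμ0 : 0 < μ := by positivity
  have hunif : ∀ᶠ n in l, ∀ z ∈ Metric.sphere z₀ r, ‖F n z - g z‖ < μ := by
    have hK := (tendstoLocallyUniformlyOn_iff_forall_isCompact hΩ).mp hu (Metric.sphere z₀ r)
      (Metric.sphere_subset_closedBall.trans hcb) hsph
    rw [Metric.tendstoUniformlyOn_iff] at hK
    filter_upwards [hK μ hμ0] with n hn z hz
    have := hn z hz
    rw [dist_comm, dist_eq_norm] at this
    exact this
  have hlow : ∀ᶠ n in l, ∀ z ∈ Metric.sphere z₀ r, μ ≤ ‖F n z‖ := by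
    filter_upwards [hunif] with n hn z hz
    have h3 : ‖g s‖ ≤ ‖g z‖ := hmin hz
    have h4 := hn z hz
    have h5 : ‖g z‖ ≤ ‖F n z‖ + ‖F n z - g z‖ := by
      have : g z = F n z - (F n z - g z) := by ring
      calc ‖g z‖ = ‖F n z - (F n z - g z)‖ := by rw [← this]
        _ ≤ _ := norm_sub_le _ _
    have h6 : ‖g s‖ = 2 * μ := by rw [hμ]; ring
    linarith
  have hz₀low : ∀ᶠ n in l, μ ≤ ‖F n z₀‖ := by
    filter_upwards [hlow, hF, hne] with n hn1 hn2 hn3
    have hd1 : DiffContOnCl ℂ (fun z => (F n z)⁻¹) (Metric.ball z₀ r) := by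
      have hdn : DifferentiableOn ℂ (fun z => (F n z)⁻¹) Ω :=
        hn2.inv hn3
      exact (hdn.mono hcb).diffContOnCl_ball le_rfl
    have h3 : ‖(F n z₀)⁻¹‖ ≤ μ⁻¹ := by
      refine Complex.norm_le_of_forall_mem_frontier_norm_le Metric.isBounded_ball hd1 ?_
        (subset_closure (Metric.mem_ball_self hr0))
      intro z hz
      rw [frontier_ball z₀ hr0.ne'] at hz
      rw [norm_inv]
      exact inv_anti₀ hμ0 (hn1 z hz)
    rw [norm_inv] at h3
    have h4 : 0 < ‖F n z₀‖ := norm_pos_iff.mpr (hn3 z₀ hz₀)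
    exact (inv_le_inv₀ h4 hμ0).mp h3
  have hcontr : μ ≤ ‖g z₀‖ := ge_of_tendsto ((hlim z₀ hz₀).norm) hz₀low
  rw [hg, norm_zero] at hcontr
  linarith

end Pool.Agent.Lib.MP_1f4a82_an
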