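import Mathlib

/-!
One complex variable: local normal form of analytic functions.
-/

open Topology Filter Set

namespace Pool.Agent.Lib.MP_1f4a82_an

/-- An analytic function which does not vanish at a point has an analytic `n`-th root there. -/
theorem exists_analytic_root {u : ℂ → ℂ} {z₀ : ℂ} (hu : AnalyticAt ℂ u z₀) (h0 : u z₀ ≠ 0)
    {n : ℕ} (hn : n ≠ 0) :
    ∃ v : ℂ → ℂ, AnalyticAt ℂ v z₀ ∧ v z₀ ≠ 0 ∧ ∀ᶠ z in 𝓝 z₀, v z ^ n = u z := by
  obtain ⟨c, hc⟩ : ∃ c : ℂ, c ^ n = u z₀ := IsAlgClosed.exists_pow_nat_eq _ (Nat.pos_of_ne_zero hn)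
  have hc0 : c ≠ 0 := by
    rintro rfl
    rw [zero_pow hn] at hc
    exact h0 hc.symm
  have hdiv : AnalyticAt ℂ (fun z => u z / u z₀) z₀ := hu.div analyticAt_const h0
  have hslit : (fun z => u z / u z₀) z₀ ∈ Complex.slitPlane := by
    simp [div_self h0]
  have hlog : AnalyticAt ℂ (fun z => Complex.log (u z / u z₀)) z₀ := hdiv.clog hslit
  refine ⟨fun z => c * Complex.exp (Complex.log (u z / u z₀) / n), ?_, ?_, ?_⟩
  · exact analyticAt_const.mul (hlog.div_const).cexp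
  · simp [hc0]
  · have hne : ∀ᶠ z in 𝓝 z₀, u z ≠ 0 := hu.continuousAt.eventually_ne h0
    filter_upwards [hne] with z hz
    rw [mul_pow, hc, ← Complex.exp_nat_mul, mul_div_cancel₀ _ (Nat.cast_ne_zero.mpr hn),
      Complex.exp_log (div_ne_zero hz h0), mul_div_cancel₀ _ h0]

/-- Local normal form: a nonconstant analytic function is a power of a local coordinate. -/
theorem exists_normal_form {g : ℂ → ℂ} {z₀ : ℂ} (hg : AnalyticAt ℂ g z₀)
    (hc : ¬ ∀ᶠ z in 𝓝 z₀, g z = g z₀) :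
    ∃ (n : ℕ) (r : ℂ → ℂ), n ≠ 0 ∧ AnalyticAt ℂ r z₀ ∧ r z₀ = 0 ∧ deriv r z₀ ≠ 0 ∧
      ∀ᶠ z in 𝓝 z₀, g z = g z₀ + r z ^ n := by
  have hh : AnalyticAt ℂ (fun z => g z - g z₀) z₀ := hg.sub analyticAt_const
  have hne : ¬ ∀ᶠ z in 𝓝 z₀, g z - g z₀ = 0 := by
    simpa only [sub_eq_zero] using hc
  obtain ⟨n, u, hu, hu0, hun⟩ := hh.exists_eventuallyEq_pow_smul_nonzero_iff.mpr hne
  have hn : n ≠ 0 := by
    rintro rfl
    have := hun.self_of_nhds
    simp at this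
    exact hu0 this.symm
  obtain ⟨v, hv, hv0, hvn⟩ := exists_analytic_root hu hu0 hn
  refine ⟨n, fun z => (z - z₀) * v z, hn, ?_, by simp, ?_, ?_⟩
  · exact (analyticAt_id.sub analyticAt_const).mul hv
  · have h1 : HasDerivAt (fun z => (z - z₀) * v z) (1 * v z₀ + (z₀ - z₀) * deriv v z₀) z₀ :=
      ((hasDerivAt_id z₀).sub_const z₀).mul hv.differentiableAt.hasDerivAt
    rw [h1.deriv]
    simpa using hv0
  · filter_upwards [hun, hvn] with z hz1 hz2
    rw [mul_pow, hz2, ← smul_eq_mul, ← hz1]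
    ring

/-- An analytic function with nonzero derivative maps neighbourhoods onto neighbourhoods. -/
theorem map_nhds_of_deriv_ne {r : ℂ → ℂ} {z₀ : ℂ} (hr : AnalyticAt ℂ r z₀)
    (h : deriv r z₀ ≠ 0) : map r (𝓝 z₀) = 𝓝 (r z₀) :=
  (hr.hasStrictDerivAt).map_nhds_eq h

/-- An analytic function which is injective near a point has nonzero derivative. -/
theorem deriv_ne_zero_of_injOn {g : ℂ → ℂ} {z₀ : ℂ} (hg : AnalyticAt ℂ g z₀) {U : Set ℂ}
    (hU : U ∈ 𝓝 z₀) (hinj : InjOn g U) : deriv g z₀ ≠ 0 := by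
  have hc : ¬ ∀ᶠ z in 𝓝 z₀, g z = g z₀ := by
    intro h
    have h1 : ∀ᶠ z in 𝓝 z₀, z = z₀ := by
      filter_upwards [h, hU] with z hz hzU
      exact hinj hzU (mem_of_mem_nhds hU) hz
    have h2 : ∀ᶠ z in 𝓝[≠] z₀, z = z₀ := h1.filter_mono nhdsWithin_le_nhds
    have h3 : ∀ᶠ z in 𝓝[≠] z₀, z ≠ z₀ := self_mem_nhdsWithin
    obtain ⟨z, hz, hz'⟩ := (h2.and h3).exists
    exact hz' hz
  obtain ⟨n, r, hn, hr, hr0, hr1, hgn⟩ := exists_normal_form hg hc
  have hmap := map_nhds_of_deriv_ne hr hr1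
  rw [hr0] at hmap
  by_cases h1 : n = 1
  · subst h1
    have h2 : g =ᶠ[𝓝 z₀] fun z => g z₀ + r z := by
      filter_upwards [hgn] with z hz
      rw [hz, pow_one]
    rw [h2.deriv_eq]
    rw [deriv_const_add]
    exact hr1
  · exfalso
    have hn2 : 2 ≤ n := by omega
    -- a primitive root of unity
    have hprim := Complex.isPrimitiveRoot_exp n hn
    set ζ := Complex.exp (2 * Real.pi * Complex.I / n) with hζ
    have hζ1 : ζ ≠ 1 := hprim.ne_one (by omega)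
    -- the image of the good neighbourhood
    have hV : {z | z ∈ U ∧ g z = g z₀ + r z ^ n} ∈ 𝓝 z₀ := by
      filter_upwards [hU, hgn] with z h1 h2 using ⟨h1, h2⟩
    have hW : r '' {z | z ∈ U ∧ g z = g z₀ + r z ^ n} ∈ 𝓝 (0 : ℂ) := by
      rw [← hmap]; exact image_mem_map hV
    have h5 : ∀ᶠ w in 𝓝 (0 : ℂ), w ∈ r '' {z | z ∈ U ∧ g z = g z₀ + r z ^ n} ∧
        w * ζ ∈ r '' {z | z ∈ U ∧ g z = g z₀ + r z ^ n} := by
      refine Filter.Eventually.and hW ?_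
      have hcont : Tendsto (fun w : ℂ => w * ζ) (𝓝 0) (𝓝 0) := by
        have : Continuous fun w : ℂ => w * ζ := by fun_prop
        simpa using this.tendsto 0
      exact hcont.eventually hW
    have h6 : ∀ᶠ w in 𝓝[≠] (0 : ℂ), w ≠ 0 := self_mem_nhdsWithin
    obtain ⟨w, ⟨⟨z1, ⟨hz1U, hz1⟩, rfl⟩, ⟨z2, ⟨hz2U, hz2⟩, h7⟩⟩, hw0⟩ :=
      ((h5.filter_mono nhdsWithin_le_nhds).and h6).exists
    have h8 : g z1 = g z2 := by
      rw [hz1, hz2, h7, mul_pow, hprim.pow_eq_one, mul_one]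
    have h9 := hinj hz1U hz2U h8
    subst h9
    have h10 : r z1 * 1 = r z1 * ζ := by rw [mul_one]; exact h7
    exact hζ1 (mul_left_cancel₀ hw0 h10).symm

/-- A continuous local right inverse of an analytic function with nonzero derivative is analytic.
-/
theorem analyticAt_of_right_inverse {g k : ℂ → ℂ} {w₀ : ℂ}
    (hk : ∀ᶠ w in 𝓝 w₀, ContinuousAt k w) (hg : AnalyticAt ℂ g (k w₀))
    (h : deriv g (k w₀) ≠ 0) (hgk : ∀ᶠ w in 𝓝 w₀, g (k w) = w) : AnalyticAt ℂ k w₀ := by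
  rw [Complex.analyticAt_iff_eventually_differentiableAt]
  have hkc : ContinuousAt k w₀ := hk.self_of_nhds
  have h1 : ∀ᶠ w in 𝓝 w₀, AnalyticAt ℂ g (k w) := hkc.eventually hg.eventually_analyticAt
  have h2 : ∀ᶠ w in 𝓝 w₀, deriv g (k w) ≠ 0 := by
    have : ContinuousAt (fun w => deriv g (k w)) w₀ :=
      ContinuousAt.comp' (g := deriv g) hg.deriv.continuousAt hkc
    exact this.eventually_ne h
  filter_upwards [hk, h1, h2, hgk.eventually_nhds] with w hw1 hw2 hw3 hw4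
  have h5 : HasStrictDerivAt k (deriv g (k w))⁻¹ w :=
    HasStrictDerivAt.of_local_left_inverse hw1 hw2.hasStrictDerivAt hw3 hw4
  exact h5.hasDerivAt.differentiableAt

end Pool.Agent.Lib.MP_1f4a82_an
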