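import Mathlib

/-!
# Locally constant cocycles on a simply connected space are trivial
-/

namespace Pool.Agent.Lib.MP_1f4a82_an

open Topology Filter

theorem exists_coboundary {X : Type} [TopologicalSpace X] [SimplyConnectedSpace X]
    [LocallyPathConnectedSpace X] {ι : Type} {G : Type} [Group G] (U : ι → Set X)
    (hU : ∀ i, IsOpen (U i)) (hcov : ∀ x, ∃ i, x ∈ U i) (g : ι → ι → X → G)
    (hg : ∀ i j, ∀ x ∈ U i ∩ U j, ∀ᶠ y in 𝓝 x, g i j y = g i j x)
    (hcoc : ∀ i j k, ∀ x ∈ U i ∩ U j ∩ U k, g i j x * g j k x = g i k x) :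
    ∃ c : ι → X → G, (∀ i, ∀ x ∈ U i, ∀ᶠ y in 𝓝 x, c i y = c i x) ∧
      ∀ i j, ∀ x ∈ U i ∩ U j, c i x = g i j x * c j x := by
  classical
  let _ : TopologicalSpace G := ⊥
  have : DiscreteTopology G := ⟨rfl⟩
  choose idx hidx using hcov
  let Z : FiberBundleCore ι X G :=
    { baseSet := U
      isOpen_baseSet := hU
      indexAt := idx
      mem_baseSet_at := hidx
      coordChange := fun i j x v => g j i x * v
      coordChange_self := by
        intro i x hx v
        have h := hcoc i i i x ⟨⟨hx, hx⟩, hx⟩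
        have h1 : g i i x = 1 := mul_eq_left.1 h
        rw [h1, one_mul]
      continuousOn_coordChange := by
        rintro i j ⟨x, v⟩ ⟨⟨h1, h2⟩, -⟩
        refine ContinuousAt.continuousWithinAt ?_
        have e1 : ∀ᶠ p : X × G in 𝓝 (x, v), g j i p.1 = g j i x :=
          (continuousAt_fst (p := (x, v))).eventually (p := fun y => g j i y = g j i x)
            (hg j i x ⟨h2, h1⟩)
        have e2 : ∀ᶠ p : X × G in 𝓝 (x, v), p.2 = v :=
          (continuousAt_snd (p := (x, v))).eventually (p := fun y => y = v)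
            ((isOpen_discrete {v}).mem_nhds rfl)
        refine ContinuousAt.congr (f := fun _ => g j i x * v) continuousAt_const ?_
        filter_upwards [e1, e2] with p h3 h4
        rw [h3, h4]
      coordChange_comp := by
        rintro i j k x ⟨⟨h1, h2⟩, h3⟩ v
        rw [← mul_assoc, hcoc k j i x ⟨⟨h3, h2⟩, h1⟩] }
  have hcovmap : IsCoveringMap (Z.proj) := FiberBundle.isCoveringMap (F := G) (E := Z.Fiber)
  obtain ⟨x₀⟩ : Nonempty X := inferInstance
  obtain ⟨σ, ⟨-, hσ⟩, -⟩ := hcovmap.existsUnique_continuousMap_lifts (ContinuousMap.id X) x₀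
    (⟨x₀, (1 : G)⟩ : Z.TotalSpace) rfl
  have hσ1 : ∀ x, (σ x).1 = x := fun x => congrFun hσ x
  refine ⟨fun i x => (Z.localTriv i (σ x)).2, ?_, ?_⟩
  · intro i x hx
    have h1 : σ x ∈ (Z.localTriv i).source := by
      rw [Z.mem_localTriv_source]
      rw [hσ1]
      exact hx
    have h2 : ContinuousAt (fun y => (Z.localTriv i (σ y)).2) x :=
      continuousAt_snd.comp (((Z.localTriv i).continuousAt h1).comp σ.continuous.continuousAt)
    exact h2.eventually ((isOpen_discrete {(Z.localTriv i (σ x)).2}).mem_nhds rfl)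
  · rintro i j x ⟨h1, h2⟩
    have h3 : ∀ k, (Z.localTriv k (σ x)).2 = g k (idx x) x * (id (σ x).2 : G) := by
      intro k
      rw [Z.localTriv_apply]
      show g k (idx (σ x).1) (σ x).1 * (id (σ x).2 : G) = _
      rw [hσ1]
    show (Z.localTriv i (σ x)).2 = g i j x * (Z.localTriv j (σ x)).2
    rw [h3, h3, ← mul_assoc, hcoc i j (idx x) x ⟨⟨h1, h2⟩, hidx x⟩]

end Pool.Agent.Lib.MP_1f4a82_an
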