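import Mathlib

/-!
# Harmonic functions in the plane

Dirichlet problem on a disc, monotone limits, reflection, removable singularities.
-/

set_option autoImplicit false

namespace Pool.Agent.Lib.MP_1f4a82_an

open Topology Filter Set Metric InnerProductSpace MeasureTheory

/-- The Poisson integral. -/
noncomputable def pint (g : ℂ → ℝ) (c : ℂ) (r : ℝ) (w : ℂ) : ℝ :=
  Real.circleAverage (poissonKernel c w • g) c r

theorem continuousOn_poissonKernel {c w : ℂ} {r : ℝ} (hw : w ∈ ball c r) :
    ContinuousOn (poissonKernel c w) (sphere c r) := by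
  have h : ∀ x ∈ sphere c r, ‖(x - c) - (w - c)‖ ^ 2 ≠ 0 := by
    intro x hx
    have hne : x ≠ w := by
      rintro rfl
      rw [mem_sphere] at hx
      rw [mem_ball] at hw
      linarith
    have : (x - c) - (w - c) ≠ 0 := by
      rw [sub_sub_sub_cancel_right]; exact sub_ne_zero.mpr hne
    positivity
  have e : poissonKernel c w = fun z => (‖z - c‖ ^ 2 - ‖w - c‖ ^ 2) / ‖(z - c) - (w - c)‖ ^ 2 := by
    funext z; exact poissonKernel_def c w z
  rw [e]
  exact ContinuousOn.div (by fun_prop) (by fun_prop) h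

theorem poissonKernel_nonneg_of {c w x : ℂ} {r : ℝ} (hw : w ∈ ball c r) (hx : x ∈ sphere c r) :
    0 ≤ poissonKernel c w x := by
  rw [poissonKernel_def]
  rw [mem_ball, dist_eq_norm] at hw
  rw [mem_sphere, dist_eq_norm] at hx
  have : ‖w - c‖ ^ 2 ≤ ‖x - c‖ ^ 2 := by rw [hx]; gcongr
  apply div_nonneg (by linarith) (by positivity)

theorem circleIntegrable_poissonKernel_smul {g : ℂ → ℝ} {c w : ℂ} {r : ℝ} (hw : w ∈ ball c r)
    (hg : CircleIntegrable g c r) : CircleIntegrable (poissonKernel c w • g) c r := by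
  have hr : 0 < r := pos_of_mem_ball hw
  have h := continuousOn_poissonKernel hw
  apply hg.continuousOn_smul
  rwa [abs_of_pos hr]

theorem pint_harmonicOnNhd {g : ℂ → ℝ} {c : ℂ} {r : ℝ} (hg : CircleIntegrable g c r) :
    HarmonicOnNhd (pint g c r) (ball c r) := by
  intro w hw
  have hg' : CircleIntegrable (fun z => g (z + c)) 0 r := by
    have e : ∀ θ, g (circleMap 0 r θ + c) = g (circleMap c r θ) := by
      intro θ; congr 1; simp [circleMap, add_comm]
    simp only [CircleIntegrable, e] at hg ⊢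
    exact hg
  have hgC : CircleIntegrable (fun z => ((g (z + c) : ℝ) : ℂ)) 0 r := by
    simp only [CircleIntegrable, intervalIntegrable_iff] at hg' ⊢
    exact Complex.ofRealCLM.integrable_comp hg'
  set G : ℂ → ℂ := fun w => Real.circleAverage
    (fun ζ => herglotzRieszKernel 0 w ζ • ((g (ζ + c) : ℝ) : ℂ)) 0 r with hG
  have hGa := analyticOnNhd_circleAverage_herglotzRieszKernel_smul hgC
  have hpt : ∀ w ∈ ball c r, pint g c r w = (G (w - c)).re := by
    intro w hw
    have hw' : w - c ∈ ball (0 : ℂ) r := by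
      rw [mem_ball, dist_zero_right, ← dist_eq_norm]; exact hw
    rw [hG]
    simp only
    rw [re_circleAverage_herglotzRieszKernel_smul hg' hw', pint, ← Real.circleAverage_map_add_const]
    congr 1
    funext z
    simp only [Pi.smul_apply', Function.comp_apply]
    congr 1
    rw [poissonKernel_eq_re_herglotzRieszKernel, Function.comp_apply,
      herglotzRieszKernel_add_const]
  have hev : pint g c r =ᶠ[𝓝 w] fun w => (G (w - c)).re :=
    Filter.eventuallyEq_of_mem (isOpen_ball.mem_nhds hw) hpt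
  rw [harmonicAt_congr_nhds hev]
  have hw' : w - c ∈ ball (0 : ℂ) r := by
    rw [mem_ball, dist_zero_right, ← dist_eq_norm]; exact hw
  have h1 : AnalyticAt ℂ (fun w => G (w - c)) w :=
    (hGa (w - c) hw').comp_of_eq (f := fun w => w - c) (by fun_prop) rfl
  exact h1.harmonicAt_re

theorem pint_const {c w : ℂ} {r : ℝ} (hw : w ∈ ball c r) (a : ℝ) :
    pint (fun _ => a) c r w = a :=
  HarmonicOnNhd.circleAverage_poissonKernel_smul (harmonicOnNhd_const a) hw

theorem pint_neg {g : ℂ → ℝ} {c w : ℂ} {r : ℝ} : pint (-g) c r w = - pint g c r w := by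
  simp only [pint, Real.circleAverage_def]
  rw [← smul_neg, ← intervalIntegral.integral_neg]
  simp

theorem pint_upper {g : ℂ → ℝ} {c : ℂ} {r : ℝ} (hg : ContinuousOn g (sphere c r)) {z₀ : ℂ}
    {δ a B : ℝ} (hδ : 0 < δ) (hB : 0 ≤ B) (h1 : ∀ ζ ∈ sphere c r, dist ζ z₀ < δ → g ζ ≤ a)
    (h2 : ∀ ζ ∈ sphere c r, g ζ ≤ a + B) {w : ℂ} (hw : w ∈ ball c r) (hwz : dist w z₀ < δ / 2) :
    pint g c r w ≤ a + B * (4 / δ ^ 2) * (r ^ 2 - ‖w - c‖ ^ 2) := by
  have hr : 0 < r := pos_of_mem_ball hw
  have hwn : ‖w - c‖ < r := by rw [← dist_eq_norm]; exact hw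
  have hgap : 0 ≤ r ^ 2 - ‖w - c‖ ^ 2 := by
    have : ‖w - c‖ ^ 2 ≤ r ^ 2 := by gcongr
    linarith
  set D : ℝ := B * (4 / δ ^ 2) * (r ^ 2 - ‖w - c‖ ^ 2) with hD
  have hD0 : 0 ≤ D := by positivity
  have hgI : CircleIntegrable g c r := hg.circleIntegrable hr.le
  have haI : CircleIntegrable (fun _ : ℂ => a) c r := circleIntegrable_const a c r
  have hDI : CircleIntegrable (fun _ : ℂ => D) c r := circleIntegrable_const D c r
  have key : ∀ ζ ∈ sphere c |r|, (poissonKernel c w • g) ζ ≤
      ((poissonKernel c w • (fun _ : ℂ => a) : ℂ → ℝ) + (fun _ : ℂ => D)) ζ := by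
    intro ζ hζ
    rw [abs_of_pos hr] at hζ
    have hP := poissonKernel_nonneg_of hw hζ
    simp only [Pi.smul_apply', Pi.add_apply, smul_eq_mul, Pi.mul_apply]
    by_cases hd : dist ζ z₀ < δ
    · have := mul_le_mul_of_nonneg_left (h1 ζ hζ hd) hP
      linarith
    · push Not at hd
      have h3 := h2 ζ hζ
      have h4 : δ / 2 ≤ ‖(ζ - c) - (w - c)‖ := by
        rw [sub_sub_sub_cancel_right, ← dist_eq_norm]
        have := dist_triangle ζ w z₀
        linarith
      have h5 : poissonKernel c w ζ ≤ (4 / δ ^ 2) * (r ^ 2 - ‖w - c‖ ^ 2) := by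
        rw [poissonKernel_def]
        rw [mem_sphere, dist_eq_norm] at hζ
        rw [hζ]
        calc (r ^ 2 - ‖w - c‖ ^ 2) / ‖(ζ - c) - (w - c)‖ ^ 2
            ≤ (r ^ 2 - ‖w - c‖ ^ 2) / (δ / 2) ^ 2 := by gcongr
          _ = (4 / δ ^ 2) * (r ^ 2 - ‖w - c‖ ^ 2) := by field_simp; norm_num
      calc poissonKernel c w ζ * g ζ ≤ poissonKernel c w ζ * (a + B) := by gcongr
        _ = poissonKernel c w ζ * a + B * poissonKernel c w ζ := by ring
        _ ≤ poissonKernel c w ζ * a + B * ((4 / δ ^ 2) * (r ^ 2 - ‖w - c‖ ^ 2)) := by gcongr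
        _ = poissonKernel c w ζ * a + D := by rw [hD]; ring
  have hmono := Real.circleAverage_mono (circleIntegrable_poissonKernel_smul hw hgI)
    ((circleIntegrable_poissonKernel_smul hw haI).add hDI) key
  rw [Real.circleAverage_add (circleIntegrable_poissonKernel_smul hw haI) hDI,
    Real.circleAverage_const] at hmono
  have h6 : Real.circleAverage (poissonKernel c w • (fun _ : ℂ => a)) c r = a := pint_const hw a
  rw [h6] at hmono
  exact hmono

open Classical in
/-- The solution of the Dirichlet problem. -/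
noncomputable def dir (g : ℂ → ℝ) (c : ℂ) (r : ℝ) (w : ℂ) : ℝ :=
  if w ∈ ball c r then pint g c r w else g w

theorem dir_of_mem_ball {g : ℂ → ℝ} {c w : ℂ} {r : ℝ} (hw : w ∈ ball c r) :
    dir g c r w = pint g c r w := if_pos hw

theorem dir_of_mem_sphere {g : ℂ → ℝ} {c w : ℂ} {r : ℝ} (hw : w ∈ sphere c r) :
    dir g c r w = g w := by
  apply if_neg
  rw [mem_sphere] at hw
  rw [mem_ball]
  linarith

theorem dir_harmonicOnNhd {g : ℂ → ℝ} {c : ℂ} {r : ℝ} (hg : CircleIntegrable g c r) :
    HarmonicOnNhd (dir g c r) (ball c r) := by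
  intro w hw
  have hev : dir g c r =ᶠ[𝓝 w] pint g c r :=
    Filter.eventuallyEq_of_mem (isOpen_ball.mem_nhds hw) fun x hx => dir_of_mem_ball hx
  rw [harmonicAt_congr_nhds hev]
  exact pint_harmonicOnNhd hg w hw

theorem dir_continuousOn {g : ℂ → ℝ} {c : ℂ} {r : ℝ} (hr : 0 < r)
    (hg : ContinuousOn g (sphere c r)) : ContinuousOn (dir g c r) (closedBall c r) := by
  have hgI : CircleIntegrable g c r := hg.circleIntegrable hr.le
  intro z₀ hz₀
  rcases (mem_closedBall.mp hz₀).lt_or_eq with hlt | heq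
  · exact (dir_harmonicOnNhd hgI z₀ (mem_ball.mpr hlt)).1.continuousAt.continuousWithinAt
  · have hz₀s : z₀ ∈ sphere c r := mem_sphere.mpr heq
    obtain ⟨M, hM⟩ := (isCompact_sphere c r).exists_bound_of_continuousOn hg
    have hM0 : 0 ≤ M := (norm_nonneg _).trans (hM z₀ hz₀s)
    rw [ContinuousWithinAt, dir_of_mem_sphere hz₀s, Metric.tendsto_nhds]
    intro ε hε
    obtain ⟨δ, hδ, hδg⟩ := Metric.continuousWithinAt_iff.mp (hg z₀ hz₀s) (ε / 2) (by positivity)
    have hδg' : ∀ ζ ∈ sphere c r, dist ζ z₀ < δ → |g ζ - g z₀| < ε / 2 := by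
      intro ζ hζ hd
      have := hδg hζ hd
      rwa [Real.dist_eq] at this
    have hcont : Tendsto (fun x : ℂ => (2 * M) * (4 / δ ^ 2) * (r ^ 2 - ‖x - c‖ ^ 2)) (𝓝 z₀)
        (𝓝 0) := by
      have h0 : (2 * M) * (4 / δ ^ 2) * (r ^ 2 - ‖z₀ - c‖ ^ 2) = 0 := by
        rw [← dist_eq_norm, heq]; ring
      rw [← h0]
      exact Continuous.tendsto (by fun_prop) z₀
    have hev : ∀ᶠ x in 𝓝 z₀, (2 * M) * (4 / δ ^ 2) * (r ^ 2 - ‖x - c‖ ^ 2) < ε / 2 :=
      hcont.eventually (gt_mem_nhds (by positivity))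
    have hev2 : ∀ᶠ x in 𝓝 z₀, dist x z₀ < δ / 2 := ball_mem_nhds z₀ (by positivity)
    filter_upwards [self_mem_nhdsWithin, nhdsWithin_le_nhds hev, nhdsWithin_le_nhds hev2]
      with x hx hx1 hx2
    rw [Real.dist_eq]
    rcases (mem_closedBall.mp hx).lt_or_eq with hxlt | hxeq
    · have hxb : x ∈ ball c r := mem_ball.mpr hxlt
      rw [dir_of_mem_ball hxb, abs_lt]
      have hgM : ∀ ζ ∈ sphere c r, |g ζ - g z₀| ≤ 2 * M := by
        intro ζ hζ
        have h1 := hM ζ hζ
        have h2 := hM z₀ hz₀s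
        rw [Real.norm_eq_abs] at h1 h2
        calc |g ζ - g z₀| ≤ |g ζ| + |g z₀| := abs_sub _ _
          _ ≤ 2 * M := by linarith
      have hup := pint_upper hg hδ (a := g z₀ + ε / 2) (B := 2 * M) (by positivity)
        (fun ζ hζ hd => by
          have := (abs_lt.mp (hδg' ζ hζ hd)).2
          linarith)
        (fun ζ hζ => by
          have := (abs_le.mp (hgM ζ hζ)).2
          linarith) hxb hx2
      have hlo := pint_upper hg.neg hδ (a := - g z₀ + ε / 2) (B := 2 * M) (by positivity)
        (fun ζ hζ hd => by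
          have := (abs_lt.mp (hδg' ζ hζ hd)).1
          simp only [Pi.neg_apply]
          linarith)
        (fun ζ hζ => by
          have := (abs_le.mp (hgM ζ hζ)).1
          simp only [Pi.neg_apply]
          linarith) hxb hx2
      rw [pint_neg] at hlo
      constructor <;> linarith
    · have hxs : x ∈ sphere c r := mem_sphere.mpr hxeq
      rw [dir_of_mem_sphere hxs]
      have := hδg' x hxs (by linarith)
      linarith

/-- The Dirichlet problem on a disc. -/
theorem exists_dirichlet {g : ℂ → ℝ} {c : ℂ} {r : ℝ} (hr : 0 < r)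
    (hg : ContinuousOn g (Metric.sphere c r)) :
    ∃ u : ℂ → ℝ, ContinuousOn u (Metric.closedBall c r) ∧
      InnerProductSpace.HarmonicOnNhd u (Metric.ball c r) ∧
      ∀ z ∈ Metric.sphere c r, u z = g z :=
  ⟨dir g c r, dir_continuousOn hr hg, dir_harmonicOnNhd (hg.circleIntegrable hr.le),
    fun _ hz => dir_of_mem_sphere hz⟩

/-- Maximum principle. -/
theorem plane_max {K W : Set ℂ} (hK : IsCompact K) (hW : IsOpen W) (hWK : W ⊆ K) {w : ℂ → ℝ}
    (hc : ContinuousOn w K) (hh : ∀ z ∈ W, HarmonicAt w z) {C : ℝ}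
    (hC : ∀ z ∈ K, z ∉ W → w z ≤ C) : ∀ z ∈ K, w z ≤ C := by
  intro z hz
  by_contra hcon
  push Not at hcon
  obtain ⟨z₁, hz₁, hmax⟩ := hK.exists_isMaxOn ⟨z, hz⟩ hc
  have hmax' : ∀ x ∈ K, w x ≤ w z₁ := fun x hx => hmax hx
  have hCm : C < w z₁ := lt_of_lt_of_le hcon (hmax' z hz)
  set E : Set ℂ := K ∩ w ⁻¹' {w z₁} with hE
  have hEc : IsCompact E :=
    hK.of_isClosed_subset (hc.preimage_isClosed_of_isClosed hK.isClosed isClosed_singleton)
      inter_subset_left
  obtain ⟨z₂, hz₂, hre⟩ := hEc.exists_isMaxOn ⟨z₁, hz₁, rfl⟩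
    (f := fun x : ℂ => x.re) Complex.continuous_re.continuousOn
  have hre' : ∀ x ∈ E, x.re ≤ z₂.re := fun x hx => hre hx
  have hwz₂ : w z₂ = w z₁ := hz₂.2
  have hz₂W : z₂ ∈ W := by
    by_contra hno
    have := hC z₂ hz₂.1 hno
    linarith
  obtain ⟨ρ, hρ, hball⟩ := Metric.nhds_basis_closedBall.mem_iff.mp (hW.mem_nhds hz₂W)
  have hav : Real.circleAverage w z₂ ρ = w z₂ := by
    apply InnerProductSpace.HarmonicOnNhd.circleAverage_eq
    rw [abs_of_pos hρ]
    exact fun x hx => hh x (hball hx)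
  have hmem : ∀ θ : ℝ, circleMap z₂ ρ θ ∈ closedBall z₂ ρ :=
    fun θ => circleMap_mem_closedBall z₂ hρ.le θ
  have hcont : Continuous fun θ : ℝ => w (circleMap z₂ ρ θ) := by
    rw [← continuousOn_univ]
    exact (hc.mono (hball.trans hWK)).comp (continuous_circleMap z₂ ρ).continuousOn
      (fun θ _ => hmem θ)
  have hlt : ∫ θ in (0 : ℝ)..2 * Real.pi, w (circleMap z₂ ρ θ) <
      ∫ _ in (0 : ℝ)..2 * Real.pi, w z₁ := by
    apply intervalIntegral.integral_lt_integral_of_continuousOn_of_le_of_exists_lt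
      Real.two_pi_pos hcont.continuousOn continuousOn_const
    · intro θ _
      exact hmax' _ (hWK (hball (hmem θ)))
    · refine ⟨0, ⟨le_rfl, Real.two_pi_pos.le⟩, ?_⟩
      have hK0 := hWK (hball (hmem 0))
      refine lt_of_le_of_ne (hmax' _ hK0) ?_
      intro he
      have := hre' _ ⟨hK0, he⟩
      simp [circleMap] at this
      linarith
  rw [intervalIntegral.integral_const, sub_zero, smul_eq_mul] at hlt
  rw [Real.circleAverage_def, smul_eq_mul, hwz₂] at hav
  have hpi := Real.two_pi_pos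
  rw [inv_mul_eq_iff_eq_mul₀ hpi.ne'] at hav
  linarith

/-- Monotone limits of harmonic functions. -/
theorem harmonicOnNhd_of_monotone {u : ℕ → ℂ → ℝ} {v : ℂ → ℝ} {U : Set ℂ} (hU : IsOpen U)
    (hu : ∀ n, InnerProductSpace.HarmonicOnNhd (u n) U)
    (hmono : ∀ z ∈ U, Monotone fun n => u n z)
    (hlim : ∀ z ∈ U, Tendsto (fun n => u n z) atTop (𝓝 (v z)))
    (hb : ∀ z ∈ U, ∃ V ∈ 𝓝 z, ∃ M : ℝ, ∀ n, ∀ x ∈ V, u n x ≤ M) :
    InnerProductSpace.HarmonicOnNhd v U := by
  intro z hz
  obtain ⟨V, hV, M, hM⟩ := hb z hz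
  obtain ⟨ρ, hρ, hball⟩ := Metric.nhds_basis_closedBall.mem_iff.mp
    (Filter.inter_mem hV (hU.mem_nhds hz))
  have hsU : sphere z ρ ⊆ U := fun x hx => (hball (sphere_subset_closedBall hx)).2
  have hsV : sphere z ρ ⊆ V := fun x hx => (hball (sphere_subset_closedBall hx)).1
  have hucont : ∀ n, ContinuousOn (u n) (sphere z ρ) := fun n => (hu n).continuousOn.mono hsU
  obtain ⟨M₀, hM₀⟩ := (isCompact_sphere z ρ).exists_bound_of_continuousOn (hucont 0)
  have hbd : ∀ n, ∀ x ∈ sphere z ρ, |u n x| ≤ |M| + M₀ := by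
    intro n x hx
    have h1 := hM n x (hsV hx)
    have h2 := hM₀ x hx
    have h3 : u 0 x ≤ u n x := hmono x (hsU hx) (Nat.zero_le n)
    rw [Real.norm_eq_abs] at h2
    have h4 := abs_le.mp h2
    have h5 : 0 ≤ M₀ := (abs_nonneg _).trans h2
    rw [abs_le]
    constructor
    · have := abs_nonneg M
      linarith
    · have := le_abs_self M
      linarith
  have hmemc : ∀ θ : ℝ, circleMap z ρ θ ∈ sphere z ρ := fun θ =>
    circleMap_mem_sphere z hρ.le θ
  have hvI : CircleIntegrable v z ρ := by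
    have hlim' : Tendsto (fun n => fun θ : ℝ => u n (circleMap z ρ θ)) atTop
        (𝓝 fun θ : ℝ => v (circleMap z ρ θ)) := by
      rw [tendsto_pi_nhds]
      intro θ
      exact hlim _ (hsU (hmemc θ))
    have hmeas : Measurable fun θ : ℝ => v (circleMap z ρ θ) := by
      apply measurable_of_tendsto_metrizable _ hlim'
      intro n
      apply Continuous.measurable
      rw [← continuousOn_univ]
      exact (hucont n).comp (continuous_circleMap z ρ).continuousOn (fun θ _ => hmemc θ)
    rw [CircleIntegrable]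
    apply IntervalIntegrable.mono_fun' (g := fun _ => |M| + M₀) intervalIntegrable_const
      hmeas.aestronglyMeasurable
    filter_upwards with θ
    rw [Real.norm_eq_abs]
    have h6 := (hlim _ (hsU (hmemc θ))).abs
    exact le_of_tendsto h6 (Eventually.of_forall fun n => hbd n _ (hmemc θ))
  have hrep : ∀ w ∈ ball z ρ, v w = pint v z ρ w := by
    intro w hw
    have hwU : w ∈ U := (hball (ball_subset_closedBall hw)).2
    have h1 : ∀ n, pint (u n) z ρ w = u n w := by
      intro n
      apply HarmonicOnNhd.circleAverage_poissonKernel_smul _ hw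
      exact (hu n).mono fun x hx => (hball hx).2
    have h2 : Tendsto (fun n => pint (u n) z ρ w) atTop (𝓝 (pint v z ρ w)) := by
      simp only [pint, Real.circleAverage_def]
      apply Tendsto.const_smul
      have hPc := continuousOn_poissonKernel hw
      obtain ⟨MP, hMP⟩ := (isCompact_sphere z ρ).exists_bound_of_continuousOn hPc
      apply intervalIntegral.tendsto_integral_filter_of_dominated_convergence
        (fun _ => MP * (|M| + M₀))
      · filter_upwards with n
        apply Continuous.aestronglyMeasurable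
        rw [← continuousOn_univ]
        exact (hPc.smul (hucont n)).comp (continuous_circleMap z ρ).continuousOn
          (fun θ _ => hmemc θ)
      · filter_upwards with n
        filter_upwards with θ _
        rw [Pi.smul_apply', norm_smul]
        apply mul_le_mul (hMP _ (hmemc θ)) (hbd n _ (hmemc θ)) (abs_nonneg _)
          ((norm_nonneg _).trans (hMP _ (hmemc θ)))
      · exact intervalIntegrable_const
      · filter_upwards with θ _
        simp only [Pi.smul_apply']
        exact (hlim _ (hsU (hmemc θ))).const_smul _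
    simp only [h1] at h2
    exact tendsto_nhds_unique (hlim w hwU) h2
  have hev : v =ᶠ[𝓝 z] pint v z ρ :=
    Filter.eventuallyEq_of_mem (ball_mem_nhds z hρ) hrep
  rw [harmonicAt_congr_nhds hev]
  exact pint_harmonicOnNhd hvI z (mem_ball_self hρ)

/-- Composition with complex conjugation. -/
theorem harmonicAt_comp_conj {u : ℂ → ℝ} {z : ℂ} (h : HarmonicAt u ((starRingEnd ℂ) z)) :
    HarmonicAt (fun w => u ((starRingEnd ℂ) w)) z := by
  obtain ⟨ε, hε, hball⟩ := Metric.isOpen_iff.mp (isOpen_setOfPred_harmonicAt u) _ h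
  obtain ⟨F, hF, hFu⟩ := HarmonicOnNhd.exists_analyticOnNhd_ball_re_eq (f := u)
    (fun x hx => hball hx)
  have hmem : ∀ w ∈ ball z ε, (starRingEnd ℂ) w ∈ ball ((starRingEnd ℂ) z) ε := by
    intro w hw
    rw [mem_ball, Complex.dist_conj_conj]; exact hw
  have hG : AnalyticAt ℂ (fun w => (starRingEnd ℂ) (F ((starRingEnd ℂ) w))) z := by
    apply DifferentiableOn.analyticAt (s := ball z ε) _ (ball_mem_nhds z hε)
    intro w hw
    apply DifferentiableAt.differentiableWithinAt
    have h1 : DifferentiableAt ℂ F ((starRingEnd ℂ) w) := (hF _ (hmem w hw)).differentiableAt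
    have h2 := h1.conj_conj
    rw [Complex.conj_conj] at h2
    exact h2
  have hev : (fun w => u ((starRingEnd ℂ) w)) =ᶠ[𝓝 z]
      fun w => ((starRingEnd ℂ) (F ((starRingEnd ℂ) w))).re := by
    apply Filter.eventuallyEq_of_mem (ball_mem_nhds z hε)
    intro w hw
    have := hFu (hmem w hw)
    simp only [Complex.conj_re]
    exact this.symm
  rw [harmonicAt_congr_nhds hev]
  exact hG.harmonicAt_re

/-- Schwarz reflection. -/
theorem harmonic_reflection {u : ℂ → ℝ} {x₀ : ℝ} {r : ℝ}
    (hc : ContinuousOn u (Metric.ball (x₀ : ℂ) r))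
    (hodd : ∀ z ∈ Metric.ball (x₀ : ℂ) r, u ((starRingEnd ℂ) z) = - u z)
    (hh : ∀ z ∈ Metric.ball (x₀ : ℂ) r, 0 < z.im → InnerProductSpace.HarmonicAt u z) :
    InnerProductSpace.HarmonicOnNhd u (Metric.ball (x₀ : ℂ) r) := by
  have hconjb : ∀ (x ρ : ℝ) (z : ℂ), dist ((starRingEnd ℂ) z) (x : ℂ) = dist z (x : ℂ) := by
    intro x ρ z
    have := Complex.dist_conj_conj z (x : ℂ)
    rwa [Complex.conj_ofReal] at this
  -- points off the real axis
  have hoff : ∀ z ∈ Metric.ball (x₀ : ℂ) r, z.im ≠ 0 → HarmonicAt u z := by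
    intro z hz him
    rcases lt_or_gt_of_ne him with hneg | hpos
    · have hcz : (starRingEnd ℂ) z ∈ ball (x₀ : ℂ) r := by
        rw [mem_ball, hconjb x₀ r]; exact hz
      have h1 : HarmonicAt u ((starRingEnd ℂ) z) := hh _ hcz (by simp; exact hneg)
      have h2 := (harmonicAt_comp_conj h1).neg
      have hev : u =ᶠ[𝓝 z] -(fun w => u ((starRingEnd ℂ) w)) := by
        apply Filter.eventuallyEq_of_mem (isOpen_ball.mem_nhds hz)
        intro w hw
        simp [hodd w hw]
      rw [harmonicAt_congr_nhds hev]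
      exact h2
    · exact hh z hz hpos
  intro z hz
  by_cases him : z.im = 0
  swap
  · exact hoff z hz him
  -- real points
  obtain ⟨x, rfl⟩ : ∃ x : ℝ, z = (x : ℂ) := ⟨z.re, by apply Complex.ext <;> simp [him]⟩
  obtain ⟨ρ, hρ, hball⟩ := Metric.nhds_basis_closedBall.mem_iff.mp (isOpen_ball.mem_nhds hz)
  have hcb : ContinuousOn u (closedBall (x : ℂ) ρ) := hc.mono hball
  obtain ⟨U, hUc, hUh, hUs⟩ := exists_dirichlet hρ (hcb.mono sphere_subset_closedBall)
  have hmemcb : ∀ w ∈ closedBall (x : ℂ) ρ, (starRingEnd ℂ) w ∈ closedBall (x : ℂ) ρ := by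
    intro w hw
    rw [mem_closedBall, hconjb x ρ]; exact hw
  have hmemb : ∀ w ∈ ball (x : ℂ) ρ, (starRingEnd ℂ) w ∈ ball (x : ℂ) ρ := by
    intro w hw
    rw [mem_ball, hconjb x ρ]; exact hw
  set D : ℂ → ℝ := (2 : ℝ)⁻¹ • (U - fun w => U ((starRingEnd ℂ) w)) with hD
  have hDc : ContinuousOn D (closedBall (x : ℂ) ρ) := by
    have h1 : ContinuousOn (fun w => U ((starRingEnd ℂ) w)) (closedBall (x : ℂ) ρ) :=
      hUc.comp Complex.continuous_conj.continuousOn hmemcb
    exact (hUc.sub h1).const_smul _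
  have hDh : HarmonicOnNhd D (ball (x : ℂ) ρ) := by
    intro w hw
    exact ((hUh w hw).sub (harmonicAt_comp_conj (hUh _ (hmemb w hw)))).const_smul
  have hDs : ∀ w ∈ sphere (x : ℂ) ρ, D w = u w := by
    intro w hw
    have hw' : (starRingEnd ℂ) w ∈ sphere (x : ℂ) ρ := by
      rw [mem_sphere, hconjb x ρ]; exact hw
    simp only [hD, Pi.smul_apply, Pi.sub_apply, smul_eq_mul]
    rw [hUs w hw, hUs _ hw', hodd w (hball (sphere_subset_closedBall hw))]
    ring
  have hDr : ∀ w : ℂ, w.im = 0 → D w = 0 := by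
    intro w hw
    have : (starRingEnd ℂ) w = w := Complex.conj_eq_iff_im.mpr hw
    simp only [hD, Pi.smul_apply, Pi.sub_apply, smul_eq_mul, this]
    ring
  have hur : ∀ w ∈ closedBall (x : ℂ) ρ, w.im = 0 → u w = 0 := by
    intro w hw him
    have h1 : (starRingEnd ℂ) w = w := Complex.conj_eq_iff_im.mpr him
    have h2 := hodd w (hball hw)
    rw [h1] at h2
    linarith
  set W : Set ℂ := ball (x : ℂ) ρ ∩ {w : ℂ | w.im ≠ 0} with hW
  have hWo : IsOpen W := isOpen_ball.inter (isOpen_ne.preimage Complex.continuous_im)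
  have hWK : W ⊆ closedBall (x : ℂ) ρ := inter_subset_left.trans ball_subset_closedBall
  have hzero : ∀ w ∈ closedBall (x : ℂ) ρ, w ∉ W → u w = D w := by
    intro w hw hwW
    rcases (mem_closedBall.mp hw).lt_or_eq with hlt | heq
    · have him : w.im = 0 := by
        by_contra hne
        exact hwW ⟨mem_ball.mpr hlt, hne⟩
      rw [hDr w him, hur w hw him]
    · exact (hDs w (mem_sphere.mpr heq)).symm
  have hWh : ∀ w ∈ W, HarmonicAt u w := fun w hw =>
    hoff w (hball (hWK hw)) hw.2
  have hle1 := plane_max (isCompact_closedBall (x : ℂ) ρ) hWo hWK (w := u - D) (hcb.sub hDc)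
    (fun w hw => (hWh w hw).sub (hDh w hw.1)) (C := 0)
    (fun w hw hwW => by simp [hzero w hw hwW])
  have hle2 := plane_max (isCompact_closedBall (x : ℂ) ρ) hWo hWK (w := D - u) (hDc.sub hcb)
    (fun w hw => (hDh w hw.1).sub (hWh w hw)) (C := 0)
    (fun w hw hwW => by simp [hzero w hw hwW])
  have hev : u =ᶠ[𝓝 (x : ℂ)] D := by
    apply Filter.eventuallyEq_of_mem (closedBall_mem_nhds (x : ℂ) hρ)
    intro w hw
    have h1 := hle1 w hw
    have h2 := hle2 w hw
    simp only [Pi.sub_apply] at h1 h2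
    linarith
  rw [harmonicAt_congr_nhds hev]
  exact hDh _ (mem_ball_self hρ)

/-- Comparison used for removable singularities. -/
theorem removable_aux {D : ℂ → ℝ} {c : ℂ} {ρ B : ℝ} (hρ : 0 < ρ)
    (hc : ∀ z ∈ closedBall c ρ, z ≠ c → ContinuousWithinAt D (closedBall c ρ) z)
    (hh : ∀ z ∈ ball c ρ, z ≠ c → HarmonicAt D z)
    (hs : ∀ z ∈ sphere c ρ, D z ≤ 0) (hB : ∀ z ∈ closedBall c ρ, z ≠ c → D z ≤ B) :
    ∀ z ∈ closedBall c ρ, z ≠ c → D z ≤ 0 := by
  intro z hz hzc
  have hz0 : 0 < ‖z - c‖ := norm_pos_iff.mpr (sub_ne_zero.mpr hzc)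
  have hzρ : ‖z - c‖ ≤ ρ := by rw [← dist_eq_norm]; exact hz
  -- it is enough to show `D z ≤ ε log (ρ / |z - c|)`
  have key : ∀ ε : ℝ, 0 < ε → D z ≤ ε * (Real.log ρ - Real.log ‖z - c‖) := by
    intro ε hε
    -- choose the inner radius
    obtain ⟨δ, hδ0, hδz, hδρ, hδB⟩ : ∃ δ : ℝ, 0 < δ ∧ δ ≤ ‖z - c‖ ∧ δ ≤ ρ ∧
        B ≤ ε * (Real.log ρ - Real.log δ) := by
      refine ⟨min ‖z - c‖ (ρ * Real.exp (-(|B| / ε))), by positivity, min_le_left _ _,
        (min_le_left _ _).trans hzρ, ?_⟩
      have h1 : Real.log (min ‖z - c‖ (ρ * Real.exp (-(|B| / ε)))) ≤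
          Real.log ρ - |B| / ε := by
        calc Real.log (min ‖z - c‖ (ρ * Real.exp (-(|B| / ε))))
            ≤ Real.log (ρ * Real.exp (-(|B| / ε))) :=
              Real.log_le_log (by positivity) (min_le_right _ _)
          _ = Real.log ρ - |B| / ε := by
              rw [Real.log_mul hρ.ne' (Real.exp_pos _).ne', Real.log_exp]; ring
      calc B ≤ |B| := le_abs_self B
        _ = ε * (|B| / ε) := by field_simp
        _ ≤ ε * (Real.log ρ - Real.log (min ‖z - c‖ (ρ * Real.exp (-(|B| / ε))))) := by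
            gcongr
            linarith
    set K : Set ℂ := closedBall c ρ \ ball c δ with hK
    have hKc : IsCompact K := (isCompact_closedBall c ρ).diff isOpen_ball
    set W : Set ℂ := ball c ρ \ closedBall c δ with hW
    have hWo : IsOpen W := isOpen_ball.sdiff isClosed_closedBall
    have hWK : W ⊆ K := sdiff_subset_sdiff ball_subset_closedBall ball_subset_closedBall
    have hKne : ∀ x ∈ K, x ≠ c := by
      rintro x hx rfl
      exact hx.2 (mem_ball_self hδ0)
    have hlogc : ContinuousOn (fun x : ℂ => Real.log ‖x - c‖) K := by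
      intro x hx
      apply ContinuousAt.continuousWithinAt
      apply ContinuousAt.log (by fun_prop)
      exact norm_ne_zero_iff.mpr (sub_ne_zero.mpr (hKne x hx))
    have hlogh : ∀ x, x ≠ c → HarmonicAt (fun x : ℂ => Real.log ‖x - c‖) x := by
      intro x hx
      exact AnalyticAt.harmonicAt_log_norm (f := fun x => x - c) (by fun_prop)
        (sub_ne_zero.mpr hx)
    have hmax := plane_max hKc hWo hWK
      (w := D + (ε • (fun x : ℂ => Real.log ‖x - c‖) - fun _ => ε * Real.log ρ))
      (by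
        apply ContinuousOn.add
        · intro x hx
          exact (hc x hx.1 (hKne x hx)).mono sdiff_subset
        · exact (hlogc.const_smul ε).sub continuousOn_const)
      (fun x hx => by
        have hxc := hKne x (hWK hx)
        exact (hh x hx.1 hxc).add (((hlogh x hxc).const_smul).sub (harmonicAt_const _)))
      (C := 0)
      (fun x hx hxW => by
        have hxc := hKne x hx
        simp only [Pi.add_apply, Pi.sub_apply, Pi.smul_apply, smul_eq_mul]
        have hx1 : dist x c ≤ ρ := hx.1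
        have hx2 : δ ≤ dist x c := by
          have := hx.2
          rw [mem_ball] at this
          linarith
        by_cases hxρ : dist x c = ρ
        · have h1 := hs x (mem_sphere.mpr hxρ)
          rw [← dist_eq_norm, hxρ]
          linarith
        · have hlt : dist x c < ρ := lt_of_le_of_ne hx1 hxρ
          have hxδ : dist x c = δ := by
            by_contra hne
            apply hxW
            refine ⟨mem_ball.mpr hlt, ?_⟩
            rw [mem_closedBall]
            intro hle
            exact hne (le_antisymm hle hx2)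
          have h1 := hB x hx.1 hxc
          rw [← dist_eq_norm, hxδ]
          linarith)
    have hzK : z ∈ K := ⟨hz, by rw [mem_ball, dist_eq_norm]; linarith⟩
    have h2 := hmax z hzK
    simp only [Pi.add_apply, Pi.sub_apply, Pi.smul_apply, smul_eq_mul] at h2
    linarith
  set T : ℝ := Real.log ρ - Real.log ‖z - c‖ with hT
  by_contra hcon
  push Not at hcon
  have hT0 : 0 ≤ T := by
    have := Real.log_le_log hz0 hzρ
    rw [hT]; linarith
  have h3 := key (D z / (2 * (T + 1))) (by positivity)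
  have h4 : D z / (2 * (T + 1)) * T ≤ D z / 2 := by
    rw [div_mul_eq_mul_div, div_le_div_iff₀ (by positivity) (by norm_num)]
    nlinarith
  linarith

/-- Isolated singularities of bounded harmonic functions are removable. -/
theorem harmonic_removable {u : ℂ → ℝ} {c : ℂ} {r : ℝ} (hr : 0 < r)
    (hh : ∀ z ∈ Metric.ball c r, z ≠ c → InnerProductSpace.HarmonicAt u z)
    (hb : ∃ M : ℝ, ∀ z ∈ Metric.ball c r, z ≠ c → |u z| ≤ M) :
    ∃ v : ℂ → ℝ, InnerProductSpace.HarmonicOnNhd v (Metric.ball c r) ∧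
      ∀ z ∈ Metric.ball c r, z ≠ c → v z = u z := by
  obtain ⟨M, hM⟩ := hb
  set ρ : ℝ := r / 2 with hρ
  have hρ0 : 0 < ρ := by positivity
  have hcb : closedBall c ρ ⊆ ball c r := closedBall_subset_ball (by linarith)
  have hsc : ∀ z ∈ sphere c ρ, z ≠ c := by
    rintro z hz rfl
    rw [mem_sphere, dist_self] at hz
    linarith
  have huc : ∀ z ∈ closedBall c ρ, z ≠ c → ContinuousAt u z := fun z hz hzc =>
    (hh z (hcb hz) hzc).1.continuousAt
  obtain ⟨V, hVc, hVh, hVs⟩ := exists_dirichlet (g := u) hρ0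
    (fun z hz => (huc z (sphere_subset_closedBall hz) (hsc z hz)).continuousWithinAt)
  obtain ⟨B, hB⟩ := (isCompact_closedBall c ρ).exists_bound_of_continuousOn hVc
  have h1 := removable_aux (D := u - V) (B := M + B) hρ0
    (fun z hz hzc => (huc z hz hzc).continuousWithinAt.sub (hVc z hz))
    (fun z hz hzc => (hh z (hcb (ball_subset_closedBall hz)) hzc).sub (hVh z hz))
    (fun z hz => by simp [hVs z hz])
    (fun z hz hzc => by
      have h2 := hM z (hcb hz) hzc
      have h3 := hB z hz
      rw [Real.norm_eq_abs] at h3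
      have := (abs_le.mp h2).2
      have := (abs_le.mp h3).1
      simp only [Pi.sub_apply]
      linarith)
  have h2 := removable_aux (D := V - u) (B := M + B) hρ0
    (fun z hz hzc => (hVc z hz).sub (huc z hz hzc).continuousWithinAt)
    (fun z hz hzc => (hVh z hz).sub (hh z (hcb (ball_subset_closedBall hz)) hzc))
    (fun z hz => by simp [hVs z hz])
    (fun z hz hzc => by
      have h2 := hM z (hcb hz) hzc
      have h3 := hB z hz
      rw [Real.norm_eq_abs] at h3
      have := (abs_le.mp h2).1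
      have := (abs_le.mp h3).2
      simp only [Pi.sub_apply]
      linarith)
  have heq : ∀ z ∈ closedBall c ρ, z ≠ c → u z = V z := by
    intro z hz hzc
    have h3 := h1 z hz hzc
    have h4 := h2 z hz hzc
    simp only [Pi.sub_apply] at h3 h4
    linarith
  classical
  refine ⟨fun z => if z = c then V c else u z, ?_, ?_⟩
  · intro z hz
    by_cases hzc : z = c
    · rw [hzc]
      have hev : (fun z => if z = c then V c else u z) =ᶠ[𝓝 c] V := by
        apply Filter.eventuallyEq_of_mem (closedBall_mem_nhds c hρ0)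
        intro w hw
        by_cases hwc : w = c
        · simp [hwc]
        · simp only [hwc, if_false]
          exact heq w hw hwc
      rw [harmonicAt_congr_nhds hev]
      exact hVh c (mem_ball_self hρ0)
    · have hev : (fun z => if z = c then V c else u z) =ᶠ[𝓝 z] u := by
        apply Filter.eventuallyEq_of_mem (isOpen_ne.mem_nhds hzc)
        intro w hw
        simp only [show w ≠ c from hw, if_false]
      rw [harmonicAt_congr_nhds hev]
      exact hh z hz hzc
  · intro z _ hzc
    simp [hzc]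

end Pool.Agent.Lib.MP_1f4a82_an
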