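import Pool.Agent.Lib.MP_1f4a82_an.Basic
import Pool.Agent.Lib.MP_1f4a82_an.Plane

/-!
Harmonic and subharmonic functions on Riemann surfaces: maximum principle, Poisson modification,
Perron's theorem.
-/

open Topology Filter Set

namespace Pool.Agent.Lib.MP_1f4a82_an

variable {X : Type} [TopologicalSpace X] [RS X]

/-- `v` is continuous on `W` and satisfies the local sub-mean value inequality at every point of
`W`, in every chart. -/
structure SubOn (v : X → ℝ) (W : Set X) : Prop where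
  cont : ContinuousOn v W
  submean : ∀ p ∈ W, ∀ e ∈ RS.atlas (X := X), p ∈ e.source →
    ∀ᶠ r in 𝓝[>] (0 : ℝ), v p ≤ Real.circleAverage (fun z => v (e.symm z)) (e p) r

theorem harmAt_iff_chart {u : X → ℝ} {p : X} {e : OpenPartialHomeomorph X ℂ}
    (he : e ∈ RS.atlas (X := X)) (hp : p ∈ e.source) :
    HarmAt u p ↔ InnerProductSpace.HarmonicAt (fun z => u (e.symm z)) (e p) := by
  constructor
  · rintro ⟨F, hF, hu⟩
    rw [holAt_iff_of_chart he hp] at hF
    have h1 := hF.harmonicAt_re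
    refine (InnerProductSpace.harmonicAt_congr_nhds ?_).1 h1
    filter_upwards [(tendsto_symm hp).eventually hu] with z hz
    exact hz.symm
  · intro h
    obtain ⟨R, hR, hball⟩ := Metric.eventually_nhds_iff_ball.1 h.eventually
    obtain ⟨F, hF1, hF2⟩ := InnerProductSpace.HarmonicOnNhd.exists_analyticOnNhd_ball_re_eq
      (f := fun z => u (e.symm z)) (z := e p) (R := R) hball
    refine ⟨fun x => F (e x), HolAt.comp_analyticAt (hF1 _ (Metric.mem_ball_self hR))
      (holAt_chart he hp), ?_⟩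
    have h2 : ∀ᶠ x in 𝓝 p, e x ∈ Metric.ball (e p) R :=
      (e.continuousAt hp).eventually_mem (Metric.ball_mem_nhds _ hR)
    filter_upwards [h2, e.open_source.mem_nhds hp] with x hx hx'
    have h3 := hF2 hx
    simp only at h3
    rw [h3, e.left_inv hx']

theorem HarmAt.continuousAt {u : X → ℝ} {p : X} (h : HarmAt u p) : ContinuousAt u p := by
  obtain ⟨F, hF, hu⟩ := h
  have h1 : ContinuousAt (fun x => (F x).re) p :=
    Complex.continuous_re.continuousAt.comp hF.continuousAt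
  refine h1.congr ?_
  filter_upwards [hu] with x hx using hx.symm

theorem HarmAt.eventually {u : X → ℝ} {p : X} (h : HarmAt u p) : ∀ᶠ x in 𝓝 p, HarmAt u x := by
  obtain ⟨F, hF, hu⟩ := h
  filter_upwards [hF.eventually, hu.eventually_nhds] with x hx hx' using ⟨F, hx, hx'⟩

theorem HarmAt.congr {u v : X → ℝ} {p : X} (h : HarmAt u p) (huv : u =ᶠ[𝓝 p] v) :
    HarmAt v p := by
  obtain ⟨F, hF, hu⟩ := h
  refine ⟨F, hF, ?_⟩
  filter_upwards [hu, huv] with x hx hx'
  rw [← hx', hx]

theorem HarmAt.add {u v : X → ℝ} {p : X} (hu : HarmAt u p) (hv : HarmAt v p) :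
    HarmAt (fun x => u x + v x) p := by
  obtain ⟨F, hF, hu⟩ := hu
  obtain ⟨G, hG, hv⟩ := hv
  refine ⟨fun x => F x + G x, hF.add hG, ?_⟩
  filter_upwards [hu, hv] with x hx hx'
  rw [hx, hx', Complex.add_re]

theorem HarmAt.neg {u : X → ℝ} {p : X} (hu : HarmAt u p) : HarmAt (fun x => - u x) p := by
  obtain ⟨F, hF, hu⟩ := hu
  refine ⟨fun x => - F x, hF.neg, ?_⟩
  filter_upwards [hu] with x hx
  rw [hx, Complex.neg_re]

theorem HarmAt.const_mul {u : X → ℝ} {p : X} (hu : HarmAt u p) (c : ℝ) :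
    HarmAt (fun x => c * u x) p := by
  obtain ⟨F, hF, hu⟩ := hu
  refine ⟨fun x => (c : ℂ) * F x, (holAt_const (c : ℂ) p).mul hF, ?_⟩
  filter_upwards [hu] with x hx
  rw [hx, Complex.re_ofReal_mul]

theorem HarmAt.comp {Y : Type} [TopologicalSpace Y] [RS Y] {u : Y → ℝ} {f : X → Y} {p : X}
    (hu : HarmAt u (f p)) (hf : HolAt f p) : HarmAt (fun x => u (f x)) p := by
  obtain ⟨F, hF, hu⟩ := hu
  exact ⟨fun x => F (f x), hF.comp hf, hf.continuousAt.eventually hu⟩

theorem HarmAt.comp_anti {Y : Type} [TopologicalSpace Y] [RS Y] {u : Y → ℝ} {f : X → Y} {p : X}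
    (hu : HarmAt u (f p)) (hf : AntiHolAt f p) : HarmAt (fun x => u (f x)) p := by
  obtain ⟨F, hF, hu⟩ := hu
  refine ⟨fun x => (starRingEnd ℂ) (F (f x)),
    AntiHolAt.comp_anti (f := fun x => F (f x)) (antiHolAt_conj (F (f p))) (hF.comp_anti hf), ?_⟩
  filter_upwards [hf.continuousAt.eventually hu] with x hx
  rw [hx, Complex.conj_re]

theorem harmAt_log_norm {f : X → ℂ} {p : X} (hf : HolAt f p) (h : f p ≠ 0) :
    HarmAt (fun x => Real.log ‖f x‖) p := by
  obtain ⟨e, he, hp⟩ := RS.exists_chart p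
  rw [harmAt_iff_chart he hp]
  rw [holAt_iff_of_chart he hp] at hf
  exact hf.harmonicAt_log_norm (by rwa [e.left_inv hp])

theorem harmAt_const (c : ℝ) (p : X) : HarmAt (fun _ => c) p :=
  ⟨fun _ => (c : ℂ), holAt_const _ p, Eventually.of_forall fun _ => by simp⟩

/-- A holomorphic function whose real part has a local maximum is locally constant. -/
theorem HolAt.eventually_eq_of_re_max {F : X → ℂ} {p : X} (hF : HolAt F p)
    (hmax : ∀ᶠ x in 𝓝 p, (F x).re ≤ (F p).re) : ∀ᶠ x in 𝓝 p, F x = F p := by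
  by_contra hc
  have h1 := hF.map_nhds hc
  have h2 : {w : ℂ | w.re ≤ (F p).re} ∈ 𝓝 (F p) := by
    rw [← h1]
    exact hmax
  obtain ⟨ε, hε, hball⟩ := Metric.mem_nhds_iff.mp h2
  have h3 : F p + ((ε / 2 : ℝ) : ℂ) ∈ Metric.ball (F p) ε := by
    rw [Metric.mem_ball, dist_eq_norm, add_sub_cancel_left, Complex.norm_real, Real.norm_eq_abs,
      abs_of_pos (by positivity)]
    linarith
  have h4 := hball h3
  simp only [mem_ofPred_eq, Complex.add_re, Complex.ofReal_re] at h4
  linarith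

/-- Local form of the maximum principle for harmonic functions. -/
theorem HarmAt.eventually_eq_of_max {u : X → ℝ} {p : X} (hu : HarmAt u p)
    (hmax : ∀ᶠ x in 𝓝 p, u x ≤ u p) : ∀ᶠ x in 𝓝 p, u x = u p := by
  obtain ⟨F, hF, hu⟩ := hu
  have hup : u p = (F p).re := hu.self_of_nhds
  have h1 : ∀ᶠ x in 𝓝 p, (F x).re ≤ (F p).re := by
    filter_upwards [hmax, hu] with x hx hx'
    rw [← hx', ← hup]
    exact hx
  filter_upwards [hF.eventually_eq_of_re_max h1, hu] with x hx hx'
  rw [hx', hx, hup]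

/-- maximum principle / uniqueness for harmonic functions -/
theorem HarmAt.eqOn_of_max {u : X → ℝ} {W : Set X} (hWc : IsPreconnected W) (hWo : IsOpen W)
    (hu : ∀ x ∈ W, HarmAt u x) {p : X} (hp : p ∈ W) (hmax : ∀ x ∈ W, u x ≤ u p) :
    ∀ x ∈ W, u x = u p := by
  have key : ∀ x ∈ W, u x = u p → ∀ᶠ y in 𝓝 x, u y = u p := by
    intro x hx hxp
    have h1 : ∀ᶠ y in 𝓝 x, u y ≤ u x := by
      filter_upwards [hWo.mem_nhds hx] with y hy
      rw [hxp]
      exact hmax y hy
    filter_upwards [(hu x hx).eventually_eq_of_max h1] with y hy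
    rw [hy, hxp]
  have hA : IsOpen {x | ∀ᶠ y in 𝓝 x, u y = u p} := isOpen_setOfPred_eventually_nhds
  have hsub := hWc.subset_of_closure_inter_subset hA ⟨p, hp, key p hp rfl⟩ (by
    rintro x ⟨hx1, hx2⟩
    refine key x hx2 ?_
    by_contra hne
    have h2 : ∀ᶠ y in 𝓝 x, u y ≠ u p := (hu x hx2).continuousAt.eventually_ne hne
    rw [mem_closure_iff_frequently] at hx1
    obtain ⟨y, hy1, hy2⟩ := (hx1.and_eventually h2).exists
    have h5 : ∀ᶠ z in 𝓝 y, u z = u p := hy1
    exact hy2 h5.self_of_nhds)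
  intro x hx
  have h5 : ∀ᶠ z in 𝓝 x, u z = u p := hsub hx
  exact h5.self_of_nhds

/-- identity theorem -/
theorem HarmAt.eqOn_of_eventuallyEq {u v : X → ℝ} {W : Set X} (hWc : IsPreconnected W)
    (hWo : IsOpen W) (hu : ∀ x ∈ W, HarmAt u x) (hv : ∀ x ∈ W, HarmAt v x) {p : X} (hp : p ∈ W)
    (h : u =ᶠ[𝓝 p] v) : EqOn u v W := by
  have hA : IsOpen {x | ∀ᶠ y in 𝓝 x, u y = v y} := isOpen_setOfPred_eventually_nhds
  have hsub := hWc.subset_of_closure_inter_subset hA ⟨p, hp, h⟩ (by
    rintro x ⟨hx1, hx2⟩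
    obtain ⟨F, hF, hd⟩ := (hu x hx2).add (hv x hx2).neg
    obtain ⟨V, hVo, hxV, hVU, hVc⟩ := exists_preconnected_nhd x
      (inter_mem hF.eventually hd.eventually_nhds)
    rw [mem_closure_iff_nhds] at hx1
    obtain ⟨y, hyV, hy⟩ := hx1 V (hVo.mem_nhds hxV)
    have hFy : HolAt F y := (hVU hyV).1
    have hdy : ∀ᶠ z in 𝓝 y, u z + - v z = (F z).re := (hVU hyV).2
    have hre : ∀ᶠ z in 𝓝 y, (F z).re = 0 := by
      filter_upwards [hdy, (hy : {z | u z = v z} ∈ 𝓝 y)] with z hz hz'
      have : u z = v z := hz'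
      rw [← hz, this, add_neg_cancel]
    have h0 : (F y).re = 0 := hre.self_of_nhds
    have hc : ∀ᶠ z in 𝓝 y, F z = F y := hFy.eventually_eq_of_re_max (by
      filter_upwards [hre] with z hz
      rw [hz, h0])
    have hconst := HolAt.eqOn_of_preconnected hVc (fun z hz => (hVU hz).1)
      (fun z _ => holAt_const (F y) z) hyV (hc.filter_mono nhdsWithin_le_nhds).frequently
    change ∀ᶠ z in 𝓝 x, u z = v z
    filter_upwards [hVo.mem_nhds hxV] with z hz
    have h3 : u z + - v z = (F z).re := ((hVU hz).2 : ∀ᶠ z' in 𝓝 z, _).self_of_nhds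
    rw [hconst hz, h0] at h3
    linarith)
  intro x hx
  have h5 : ∀ᶠ z in 𝓝 x, u z = v z := hsub hx
  exact h5.self_of_nhds

/-! ### Subharmonic functions -/

/-- A small closed disc around `e p` in the chart `e` is mapped into a given neighbourhood. -/
theorem eventually_disc {e : OpenPartialHomeomorph X ℂ} {p : X} (hp : p ∈ e.source) {U : Set X}
    (hU : U ∈ 𝓝 p) : ∀ᶠ r in 𝓝[>] (0 : ℝ), 0 < r ∧ Metric.closedBall (e p) r ⊆ e.target ∧
      ∀ z ∈ Metric.closedBall (e p) r, e.symm z ∈ U := by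
  obtain ⟨R, hR, h1, h2, -, -⟩ := exists_disc hU hp
  filter_upwards [Ioc_mem_nhdsGT hR] with r hr
  have h3 := Metric.closedBall_subset_closedBall hr.2 (x := e p)
  exact ⟨hr.1, h3.trans h1, fun z hz => h2 ⟨z, h3 hz, rfl⟩⟩

/-- Continuity on the circle. -/
theorem circleIntegrable_of_cont {v : X → ℝ} {W : Set X} (hv : ContinuousOn v W)
    {e : OpenPartialHomeomorph X ℂ} {c : ℂ} {r : ℝ} (hr : 0 < r)
    (h1 : Metric.closedBall c r ⊆ e.target) (h2 : ∀ z ∈ Metric.closedBall c r, e.symm z ∈ W) :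
    CircleIntegrable (fun z => v (e.symm z)) c r := by
  apply ContinuousOn.circleIntegrable hr.le
  have h3 : ContinuousOn (fun z => v (e.symm z)) (Metric.closedBall c r) :=
    hv.comp (e.continuousOn_symm.mono h1) h2
  exact h3.mono Metric.sphere_subset_closedBall

theorem SubOn.of_harm {u : X → ℝ} {W : Set X} (hu : ∀ x ∈ W, HarmAt u x) : SubOn u W := by
  refine ⟨fun x hx => (hu x hx).continuousAt.continuousWithinAt, fun p hp e he hpe => ?_⟩
  have h1 : {x | HarmAt u x} ∈ 𝓝 p := (hu p hp).eventually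
  filter_upwards [eventually_disc hpe h1] with r hr
  obtain ⟨hr0, hr1, hr2⟩ := hr
  have h3 : InnerProductSpace.HarmonicOnNhd (fun z => u (e.symm z))
      (Metric.closedBall (e p) |r|) := by
    rw [abs_of_pos hr0]
    intro z hz
    have h4 : HarmAt u (e.symm z) := hr2 z hz
    rw [harmAt_iff_chart he (e.map_target (hr1 hz)), e.right_inv (hr1 hz)] at h4
    exact h4
  rw [h3.circleAverage_eq, e.left_inv hpe]

theorem SubOn.mono {u : X → ℝ} {W W' : Set X} (hu : SubOn u W) (h : W' ⊆ W) : SubOn u W' :=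
  ⟨hu.cont.mono h, fun p hp => hu.submean p (h hp)⟩

theorem SubOn.max {u v : X → ℝ} {W : Set X} (hW : IsOpen W) (hu : SubOn u W) (hv : SubOn v W) :
    SubOn (fun x => max (u x) (v x)) W := by
  refine ⟨hu.cont.sup hv.cont, fun p hp e he hpe => ?_⟩
  filter_upwards [eventually_disc hpe (hW.mem_nhds hp), hu.submean p hp e he hpe,
    hv.submean p hp e he hpe] with r hr h1 h2
  obtain ⟨hr0, hr1, hr2⟩ := hr
  have i1 := circleIntegrable_of_cont hu.cont hr0 hr1 hr2
  have i2 := circleIntegrable_of_cont hv.cont hr0 hr1 hr2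
  have i3 : CircleIntegrable (fun z => (fun x => Max.max (u x) (v x)) (e.symm z)) (e p) r :=
    circleIntegrable_of_cont (hu.cont.sup hv.cont) hr0 hr1 hr2
  exact max_le (h1.trans (Real.circleAverage_mono i1 i3 fun z _ => le_max_left _ _))
    (h2.trans (Real.circleAverage_mono i2 i3 fun z _ => le_max_right _ _))

theorem SubOn.add {u v : X → ℝ} {W : Set X} (hW : IsOpen W) (hu : SubOn u W) (hv : SubOn v W) :
    SubOn (fun x => u x + v x) W := by
  refine ⟨hu.cont.add hv.cont, fun p hp e he hpe => ?_⟩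
  filter_upwards [eventually_disc hpe (hW.mem_nhds hp), hu.submean p hp e he hpe,
    hv.submean p hp e he hpe] with r hr h1 h2
  obtain ⟨hr0, hr1, hr2⟩ := hr
  have i1 := circleIntegrable_of_cont hu.cont hr0 hr1 hr2
  have i2 := circleIntegrable_of_cont hv.cont hr0 hr1 hr2
  rw [Real.circleAverage_fun_add i1 i2]
  exact add_le_add h1 h2

/-- being subharmonic is local -/
theorem SubOn.of_local {u : X → ℝ} {W : Set X}
    (h : ∀ p ∈ W, ∃ W' ∈ 𝓝 p, ∃ v : X → ℝ, SubOn v W' ∧ EqOn u v W') : SubOn u W := by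
  refine ⟨fun p hp => ?_, fun p hp e he hpe => ?_⟩
  · obtain ⟨W', hW', v, hv, huv⟩ := h p hp
    have h1 : ContinuousAt v p := hv.cont.continuousAt hW'
    have h2 : ContinuousAt u p := h1.congr (by
      filter_upwards [hW'] with x hx using (huv hx).symm)
    exact h2.continuousWithinAt
  · obtain ⟨W', hW', v, hv, huv⟩ := h p hp
    have hpW' := mem_of_mem_nhds hW'
    filter_upwards [eventually_disc hpe hW', hv.submean p hpW' e he hpe] with r hr h1
    obtain ⟨hr0, hr1, hr2⟩ := hr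
    rw [huv hpW']
    refine h1.trans (le_of_eq ?_)
    apply Real.circleAverage_congr_sphere
    intro z hz
    rw [abs_of_pos hr0] at hz
    exact (huv (hr2 z (Metric.sphere_subset_closedBall hz))).symm

/-- If the average over a circle of a continuous function is at least an upper bound of the
function, then the function equals this bound on the circle. -/
theorem eq_of_le_circleAverage {g : ℂ → ℝ} {c : ℂ} {r M : ℝ}
    (hg : ContinuousOn g (Metric.sphere c r)) (hr : 0 < r) (hle : ∀ z ∈ Metric.sphere c r, g z ≤ M)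
    (hM : M ≤ Real.circleAverage g c r) : ∀ z ∈ Metric.sphere c r, g z = M := by
  intro z hz
  by_contra hne
  have hlt : g z < M := lt_of_le_of_ne (hle z hz) hne
  have hmem : ∀ θ : ℝ, circleMap c r θ ∈ Metric.sphere c r := fun θ =>
    circleMap_mem_sphere c hr.le θ
  have hcont : ContinuousOn (fun θ : ℝ => g (circleMap c r θ)) (Icc 0 (2 * Real.pi)) :=
    hg.comp (continuous_circleMap c r).continuousOn (fun θ _ => hmem θ)
  obtain ⟨θ, hθ, hθz⟩ : ∃ θ ∈ Icc (0 : ℝ) (2 * Real.pi), circleMap c r θ = z := by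
    have h1 : z ∈ circleMap c r '' Ioc 0 (2 * Real.pi) := by
      rw [image_circleMap_Ioc, abs_of_pos hr]
      exact hz
    obtain ⟨θ, hθ, rfl⟩ := h1
    exact ⟨θ, Ioc_subset_Icc_self hθ, rfl⟩
  have h2 := intervalIntegral.integral_lt_integral_of_continuousOn_of_le_of_exists_lt
    (a := 0) (b := 2 * Real.pi) (f := fun θ : ℝ => g (circleMap c r θ)) (g := fun _ => M)
    Real.two_pi_pos hcont continuousOn_const (fun θ _ => hle _ (hmem θ))
    ⟨θ, hθ, by simp only [hθz]; exact hlt⟩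
  rw [Real.circleAverage_def, smul_eq_mul] at hM
  rw [intervalIntegral.integral_const, smul_eq_mul, sub_zero] at h2
  have h3 : (2 * Real.pi)⁻¹ * ∫ θ in (0 : ℝ)..2 * Real.pi, g (circleMap c r θ) < M := by
    rw [inv_mul_lt_iff₀ Real.two_pi_pos]
    exact h2
  linarith

/-- maximum principle -/
theorem SubOn.le_of_compact [T2Space X] [PreconnectedSpace X] {w : X → ℝ} {W K : Set X}
    (hWo : IsOpen W) (hw : SubOn w W) (hK : IsCompact K) (hKX : K ≠ univ)
    (hc : ContinuousOn w K)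
    {C : ℝ} (hb : ∀ x ∈ K, x ∉ W ∨ x ∈ frontier K → w x ≤ C) : ∀ x ∈ K, w x ≤ C := by
  intro x0 hx0
  by_contra hlt
  push Not at hlt
  obtain ⟨x1, hx1, hmax⟩ := hK.exists_isMaxOn ⟨x0, hx0⟩ hc
  have hMC : C < w x1 := lt_of_lt_of_le hlt (hmax hx0)
  set A : Set X := {x | x ∈ K ∧ w x = w x1} with hA
  have hAclosed : IsClosed A := by
    have h1 : A = K ∩ w ⁻¹' {w x1} := rfl
    rw [h1]
    exact hc.preimage_isClosed_of_isClosed hK.isClosed isClosed_singleton
  have hAopen : IsOpen A := by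
    rw [isOpen_iff_mem_nhds]
    rintro x ⟨hxK, hx⟩
    have hxW : x ∈ W := by
      by_contra h
      have := hb x hxK (Or.inl h)
      linarith
    have hxi : x ∈ interior K := by
      by_contra h
      have h2 : x ∈ frontier K := ⟨subset_closure hxK, h⟩
      have := hb x hxK (Or.inr h2)
      linarith
    obtain ⟨e, he, hxe⟩ := RS.exists_chart x
    have hev := (hw.submean x hxW e he hxe).and
      (eventually_disc hxe (inter_mem (hWo.mem_nhds hxW) (isOpen_interior.mem_nhds hxi)))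
    rw [eventually_nhdsWithin_iff] at hev
    obtain ⟨R, hR, hball⟩ := Metric.eventually_nhds_iff_ball.1 hev
    have h3 : ∀ z ∈ Metric.ball (e x) R, z ∈ e.target → w (e.symm z) = w x1 ∧ e.symm z ∈ K := by
      intro z hz hzt
      by_cases hzx : z = e x
      · rw [hzx, e.left_inv hxe]
        exact ⟨hx, hxK⟩
      · have hpos : 0 < dist z (e x) := dist_pos.2 hzx
        obtain ⟨h4, h5, h6, h7⟩ := hball (dist z (e x)) (by
          rw [Metric.mem_ball] at hz ⊢
          rw [Real.dist_eq, sub_zero, abs_of_pos hpos]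
          exact hz) hpos
        have h8 : ContinuousOn (fun z => w (e.symm z)) (Metric.closedBall (e x) (dist z (e x))) :=
          hw.cont.comp (e.continuousOn_symm.mono h6) (fun z hz => (h7 z hz).1)
        have h9 := eq_of_le_circleAverage (g := fun z => w (e.symm z))
          (h8.mono Metric.sphere_subset_closedBall) h5
          (M := w x1) (fun z hz => hmax (interior_subset
            (h7 z (Metric.sphere_subset_closedBall hz)).2)) (by rw [← hx]; exact h4)
          z (Metric.mem_sphere.2 rfl)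
        exact ⟨h9, interior_subset (h7 z (Metric.mem_closedBall.2 le_rfl)).2⟩
    have h10 : ∀ᶠ y in 𝓝 x, e y ∈ Metric.ball (e x) R :=
      (e.continuousAt hxe).eventually_mem (Metric.ball_mem_nhds _ hR)
    filter_upwards [h10, e.open_source.mem_nhds hxe] with y hy hy'
    have h11 := h3 (e y) hy (e.map_source hy')
    rw [e.left_inv hy'] at h11
    exact ⟨h11.2, h11.1⟩
  have huniv : A = univ := IsClopen.eq_univ ⟨hAclosed, hAopen⟩ ⟨x1, hx1, rfl⟩
  apply hKX
  rw [eq_univ_iff_forall]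
  intro y
  have : y ∈ A := by rw [huniv]; trivial
  exact this.1

/-- Poisson modification on a chart disc -/
theorem SubOn.exists_poisson [T2Space X] {v : X → ℝ} {W : Set X} (hW : IsOpen W) (hv : SubOn v W)
    {e : OpenPartialHomeomorph X ℂ} (he : e ∈ RS.atlas (X := X)) {c : ℂ} {r : ℝ} (hr : 0 < r)
    (h1 : Metric.closedBall c r ⊆ e.target) (h2 : e.symm '' Metric.closedBall c r ⊆ W) :
    ∃ v' : X → ℝ, SubOn v' W ∧ (∀ x ∈ W, v x ≤ v' x) ∧ (∀ x, x ∉ e.symm '' Metric.ball c r →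
      v' x = v x) ∧ (∀ x ∈ e.symm '' Metric.ball c r, HarmAt v' x) := by
  classical
  have hgc : ContinuousOn (fun z => v (e.symm z)) (Metric.closedBall c r) :=
    hv.cont.comp (e.continuousOn_symm.mono h1) (fun z hz => h2 ⟨z, hz, rfl⟩)
  obtain ⟨U, hUc, hUh, hUb⟩ := exists_dirichlet hr (hgc.mono Metric.sphere_subset_closedBall)
  set D : Set X := e.symm '' Metric.closedBall c r with hD
  set O : Set X := e.symm '' Metric.ball c r with hO
  have hb1 : Metric.ball c r ⊆ e.target := Metric.ball_subset_closedBall.trans h1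
  have hOopen : IsOpen O := e.symm.isOpen_image_of_subset_source Metric.isOpen_ball hb1
  have hDcomp : IsCompact D :=
    (isCompact_closedBall c r).image_of_continuousOn (e.continuousOn_symm.mono h1)
  have hDclosed : IsClosed D := hDcomp.isClosed
  have hOD : O ⊆ D := image_mono Metric.ball_subset_closedBall
  have hOs : ∀ x ∈ O, x ∈ e.source ∧ e x ∈ Metric.ball c r := by
    rintro _ ⟨z, hz, rfl⟩
    exact ⟨e.map_target (hb1 hz), by rw [e.right_inv (hb1 hz)]; exact hz⟩
  have hDs : ∀ x ∈ D, x ∈ e.source ∧ e x ∈ Metric.closedBall c r := by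
    rintro _ ⟨z, hz, rfl⟩
    exact ⟨e.map_target (h1 hz), by rw [e.right_inv (h1 hz)]; exact hz⟩
  set v' : X → ℝ := fun x => if x ∈ O then U (e x) else v x with hv'
  have F2 : ∀ x, x ∉ O → v' x = v x := fun x hx => by simp only [hv', if_neg hx]
  have F0 : ∀ x ∈ O, v' x = U (e x) := fun x hx => by simp only [hv', if_pos hx]
  have F1 : ∀ x ∈ D, v' x = U (e x) := by
    intro x hx
    by_cases hxO : x ∈ O
    · exact F0 x hxO
    · rw [F2 x hxO]
      obtain ⟨hxs, hxb⟩ := hDs x hx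
      have hsph : e x ∈ Metric.sphere c r := by
        rw [Metric.mem_closedBall] at hxb
        rw [Metric.mem_sphere]
        refine le_antisymm hxb (not_lt.1 fun hlt => hxO ⟨e x, hlt, e.left_inv hxs⟩)
      rw [hUb _ hsph, e.left_inv hxs]
  have Fh : ∀ x ∈ O, HarmAt v' x := by
    intro x hx
    obtain ⟨hxs, hxb⟩ := hOs x hx
    rw [harmAt_iff_chart he hxs]
    refine (InnerProductSpace.harmonicAt_congr_nhds ?_).1 (hUh _ hxb)
    filter_upwards [Metric.isOpen_ball.mem_nhds hxb] with z hz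
    rw [F0 _ ⟨z, hz, rfl⟩, e.right_inv (hb1 hz)]
  have Fc : ContinuousOn v' W := by
    intro p hp
    apply ContinuousAt.continuousWithinAt
    have hvp : ContinuousAt v p := hv.cont.continuousAt (hW.mem_nhds hp)
    by_cases hpO : p ∈ O
    · exact (Fh p hpO).continuousAt
    · by_cases hpD : p ∈ D
      · rw [← continuousWithinAt_univ, ← union_compl_self D]
        apply ContinuousWithinAt.union
        · obtain ⟨hps, hpb⟩ := hDs p hpD
          have h3 : ContinuousWithinAt (fun x => U (e x)) D p :=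
            (hUc (e p) hpb).comp (e.continuousAt hps).continuousWithinAt (fun x hx => (hDs x hx).2)
          exact h3.congr (fun x hx => F1 x hx) (F1 p hpD)
        · exact hvp.continuousWithinAt.congr (fun x hx => F2 x (fun h => hx (hOD h))) (F2 p hpO)
      · refine hvp.congr ?_
        filter_upwards [hDclosed.isOpen_compl.mem_nhds hpD] with x hx
        exact (F2 x (fun h => hx (hOD h))).symm
  have hgU : ∀ z ∈ Metric.closedBall c r, v (e.symm z) + - U z ≤ 0 := by
    have hsubg : SubOn (fun z : ℂ => v (e.symm z)) (Metric.ball c r) := by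
      refine ⟨hgc.mono Metric.ball_subset_closedBall, fun z hz e' he' _ => ?_⟩
      rw [mem_atlas_complex] at he'
      subst he'
      have h3 := hv.submean (e.symm z) (h2 ⟨z, Metric.ball_subset_closedBall hz, rfl⟩) e he
        (e.map_target (hb1 hz))
      rw [e.right_inv (hb1 hz)] at h3
      exact h3
    have hsubU : SubOn (fun z : ℂ => - U z) (Metric.ball c r) := by
      apply SubOn.of_harm
      intro z hz
      apply HarmAt.neg
      rw [harmAt_iff_chart (e := OpenPartialHomeomorph.refl ℂ) rfl (by simp)]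
      exact hUh z hz
    have hK : Metric.closedBall c r ≠ univ := by
      intro h
      have h3 : c + ((r + 1 : ℝ) : ℂ) ∈ Metric.closedBall c r := by rw [h]; trivial
      rw [Metric.mem_closedBall, dist_eq_norm, add_sub_cancel_left, Complex.norm_real,
        Real.norm_eq_abs, abs_of_pos (by linarith)] at h3
      linarith
    apply SubOn.le_of_compact Metric.isOpen_ball (hsubg.add Metric.isOpen_ball hsubU)
      (isCompact_closedBall c r) hK (hgc.add hUc.neg)
    intro z hz hz2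
    have hsph : z ∈ Metric.sphere c r := by
      rcases hz2 with h | h
      · rw [Metric.mem_closedBall] at hz
        rw [Metric.mem_sphere]
        exact le_antisymm hz (not_lt.1 fun hlt => h hlt)
      · rwa [frontier_closedBall c hr.ne'] at h
    rw [hUb z hsph]
    linarith
  have Fle : ∀ x ∈ W, v x ≤ v' x := by
    intro x _
    by_cases hxO : x ∈ O
    · rw [F0 x hxO]
      obtain ⟨hxs, hxb⟩ := hOs x hxO
      have h3 := hgU (e x) (Metric.ball_subset_closedBall hxb)
      rw [e.left_inv hxs] at h3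
      linarith
    · rw [F2 x hxO]
  refine ⟨v', ⟨Fc, fun p hp e' he' hpe' => ?_⟩, Fle, F2, Fh⟩
  by_cases hpO : p ∈ O
  · exact (SubOn.of_harm Fh).submean p hpO e' he' hpe'
  · rw [F2 p hpO]
    filter_upwards [eventually_disc hpe' (hW.mem_nhds hp), hv.submean p hp e' he' hpe'] with s hs h3
    obtain ⟨hs0, hs1, hs2⟩ := hs
    refine h3.trans (Real.circleAverage_mono (circleIntegrable_of_cont hv.cont hs0 hs1 hs2)
      (circleIntegrable_of_cont Fc hs0 hs1 hs2) fun z hz => Fle _ (hs2 z ?_))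
    rw [abs_of_pos hs0] at hz
    exact Metric.sphere_subset_closedBall hz

/-- Perron's theorem -/
theorem perron [T2Space X] {W : Set X} (hW : IsOpen W) (𝓥 : Set (X → ℝ)) (hne : 𝓥.Nonempty)
    (hsub : ∀ v ∈ 𝓥, SubOn v W)
    (hmax : ∀ u ∈ 𝓥, ∀ v ∈ 𝓥, (fun x => max (u x) (v x)) ∈ 𝓥)
    (hpoisson : ∀ v ∈ 𝓥, ∀ e ∈ RS.atlas (X := X), ∀ c : ℂ, ∀ r > 0,
      Metric.closedBall c r ⊆ e.target → e.symm '' Metric.closedBall c r ⊆ W →
      ∀ v' : X → ℝ, SubOn v' W → (∀ x ∈ W, v x ≤ v' x) →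
        (∀ x, x ∉ e.symm '' Metric.ball c r → v' x = v x) →
        (∀ x ∈ e.symm '' Metric.ball c r, HarmAt v' x) → v' ∈ 𝓥)
    (hbd : ∀ p ∈ W, ∃ U ∈ 𝓝 p, ∃ M : ℝ, ∀ v ∈ 𝓥, ∀ x ∈ U, v x ≤ M) :
    ∀ p ∈ W, HarmAt (fun x => sSup ((fun v : X → ℝ => v x) '' 𝓥)) p := by
  intro p hp
  set u : X → ℝ := fun x => sSup ((fun v : X → ℝ => v x) '' 𝓥) with hu
  have hbdd : ∀ x ∈ W, BddAbove ((fun v : X → ℝ => v x) '' 𝓥) := by
    intro x hx
    obtain ⟨U, hU, M, hM⟩ := hbd x hx
    refine ⟨M, ?_⟩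
    rintro _ ⟨v, hv, rfl⟩
    exact hM v hv x (mem_of_mem_nhds hU)
  have hle : ∀ v ∈ 𝓥, ∀ x ∈ W, v x ≤ u x := fun v hv x hx => le_csSup (hbdd x hx) ⟨v, hv, rfl⟩
  obtain ⟨e, he, hpe⟩ := RS.exists_chart p
  obtain ⟨r, hr, h1, h2, hOopen, hpO⟩ := exists_disc (hW.mem_nhds hp) hpe
  set c := e p with hc
  set O : Set X := e.symm '' Metric.ball c r with hO
  have hb1 : Metric.ball c r ⊆ e.target := Metric.ball_subset_closedBall.trans h1
  have hOW : O ⊆ W := (image_mono Metric.ball_subset_closedBall).trans h2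
  have hOconn : IsPreconnected O :=
    ((convex_ball c r).isPreconnected).image _ (e.continuousOn_symm.mono hb1)
  -- Poisson modification inside the family
  have hP : ∀ v ∈ 𝓥, ∃ v' ∈ 𝓥, (∀ x ∈ W, v x ≤ v' x) ∧ ∀ x ∈ O, HarmAt v' x := by
    intro v hv
    obtain ⟨v', h3, h4, h5, h6⟩ := (hsub v hv).exists_poisson hW he hr h1 h2
    exact ⟨v', hpoisson v hv e he c r hr h1 h2 v' h3 h4 h5 h6, h4, h6⟩
  choose! Pm hPm1 hPm2 hPm3 using hP
  -- increasing sequences
  have hseq : ∀ v : ℕ → X → ℝ, (∀ n, v n ∈ 𝓥) → ∃ w : ℕ → X → ℝ, (∀ n, w n ∈ 𝓥) ∧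
      (∀ n, ∀ x ∈ W, v n x ≤ w n x) ∧ (∀ x ∈ W, Monotone fun n => w n x) ∧
      ∀ n, ∀ x ∈ O, HarmAt (w n) x := by
    intro v hv
    let w : ℕ → X → ℝ := fun n => Nat.rec (Pm (v 0))
      (fun n wn => Pm (fun x => max (wn x) (v (n + 1) x))) n
    have hw0 : w 0 = Pm (v 0) := rfl
    have hws : ∀ n, w (n + 1) = Pm (fun x => max (w n x) (v (n + 1) x)) := fun n => rfl
    have hw : ∀ n, w n ∈ 𝓥 := by
      intro n
      induction n with
      | zero => exact hPm1 _ (hv 0)
      | succ n ih =>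
        rw [hws]
        exact hPm1 _ (hmax _ ih _ (hv _))
    refine ⟨w, hw, ?_, ?_, ?_⟩
    · intro n x hx
      cases n with
      | zero => exact hPm2 _ (hv 0) x hx
      | succ n =>
        rw [hws]
        exact (le_max_right _ _).trans (hPm2 _ (hmax _ (hw n) _ (hv (n + 1))) x hx)
    · intro x hx
      apply monotone_nat_of_le_succ
      intro n
      rw [hws]
      exact (le_max_left _ _).trans (hPm2 _ (hmax _ (hw n) _ (hv (n + 1))) x hx)
    · intro n x hx
      cases n with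
      | zero => exact hPm3 _ (hv 0) x hx
      | succ n =>
        rw [hws]
        exact hPm3 _ (hmax _ (hw n) _ (hv (n + 1))) x hx
  -- limits of increasing sequences are harmonic in the disc
  have hlim : ∀ w : ℕ → X → ℝ, (∀ n, w n ∈ 𝓥) → (∀ x ∈ W, Monotone fun n => w n x) →
      (∀ n, ∀ x ∈ O, HarmAt (w n) x) → ∃ V : X → ℝ, (∀ x ∈ O, HarmAt V x) ∧
      (∀ n, ∀ x ∈ W, w n x ≤ V x) ∧ (∀ x ∈ W, V x ≤ u x) ∧
      ∀ x ∈ W, Tendsto (fun n => w n x) atTop (𝓝 (V x)) := by
    intro w hw hmono hh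
    have hbw : ∀ x ∈ W, BddAbove (range fun n => w n x) := by
      intro x hx
      refine ⟨u x, ?_⟩
      rintro _ ⟨n, rfl⟩
      exact hle _ (hw n) x hx
    have htend : ∀ x ∈ W, Tendsto (fun n => w n x) atTop (𝓝 (⨆ n, w n x)) := fun x hx =>
      tendsto_atTop_ciSup (hmono x hx) (hbw x hx)
    refine ⟨fun x => ⨆ n, w n x, ?_, fun n x hx => le_ciSup (hbw x hx) n,
      fun x hx => ciSup_le fun n => hle _ (hw n) x hx, htend⟩
    have hharm : InnerProductSpace.HarmonicOnNhd (fun z => ⨆ n, w n (e.symm z))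
        (Metric.ball c r) := by
      apply harmonicOnNhd_of_monotone (u := fun n z => w n (e.symm z)) Metric.isOpen_ball
      · intro n z hz
        have h3 := hh n (e.symm z) ⟨z, hz, rfl⟩
        rw [harmAt_iff_chart he (e.map_target (hb1 hz)), e.right_inv (hb1 hz)] at h3
        exact h3
      · intro z hz
        exact hmono _ (hOW ⟨z, hz, rfl⟩)
      · intro z hz
        exact htend _ (hOW ⟨z, hz, rfl⟩)
      · intro z hz
        obtain ⟨U, hU, M, hM⟩ := hbd (e.symm z) (hOW ⟨z, hz, rfl⟩)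
        exact ⟨e.symm ⁻¹' U, (e.continuousAt_symm (hb1 hz)).preimage_mem_nhds hU, M,
          fun n x hx => hM _ (hw n) _ hx⟩
    rintro _ ⟨z, hz, rfl⟩
    rw [harmAt_iff_chart he (e.map_target (hb1 hz)), e.right_inv (hb1 hz)]
    exact hharm z hz
  -- approximating sequences
  have happ : ∀ q ∈ W, ∃ v : ℕ → X → ℝ, (∀ n, v n ∈ 𝓥) ∧
      Tendsto (fun n => v n q) atTop (𝓝 (u q)) := by
    intro q hq
    have h3 : ∀ n : ℕ, ∃ v ∈ 𝓥, u q - 1 / ((n : ℝ) + 1) < v q := by
      intro n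
      have h4 : u q - 1 / ((n : ℝ) + 1) < sSup ((fun v : X → ℝ => v q) '' 𝓥) :=
        sub_lt_self _ (by positivity)
      obtain ⟨_, ⟨v, hv, rfl⟩, hlt⟩ := exists_lt_of_lt_csSup (hne.image _) h4
      exact ⟨v, hv, hlt⟩
    choose v hv hvq using h3
    refine ⟨v, hv, ?_⟩
    refine tendsto_of_tendsto_of_tendsto_of_le_of_le (g := fun n : ℕ => u q - 1 / ((n : ℝ) + 1))
      (h := fun _ => u q) ?_ tendsto_const_nhds (fun n => (hvq n).le) (fun n => hle _ (hv n) q hq)
    have h5 : Tendsto (fun n : ℕ => u q - 1 / ((n : ℝ) + 1)) atTop (𝓝 (u q - 0)) :=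
      tendsto_const_nhds.sub tendsto_one_div_add_atTop_nhds_zero_nat
    rwa [sub_zero] at h5
  -- the limit at `p`
  obtain ⟨v, hv, hvp⟩ := happ p hp
  obtain ⟨w, hw, hwv, hwm, hwh⟩ := hseq v hv
  obtain ⟨V, hVh, hVw, hVu, hVt⟩ := hlim w hw hwm hwh
  have hVp : V p = u p := by
    refine le_antisymm (hVu p hp) ?_
    exact le_of_tendsto_of_tendsto' hvp (hVt p hp) (fun n => hwv n p hp)
  have hVO : ∀ q ∈ O, u q = V q := by
    intro q hq
    obtain ⟨v₂, hv₂, hv₂q⟩ := happ q (hOW hq)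
    obtain ⟨w₂, hw₂, hwv₂, hwm₂, hwh₂⟩ := hseq (fun n x => max (w n x) (v₂ n x))
      (fun n => hmax _ (hw n) _ (hv₂ n))
    obtain ⟨V₂, hV₂h, hV₂w, hV₂u, hV₂t⟩ := hlim w₂ hw₂ hwm₂ hwh₂
    have hVV₂ : ∀ x ∈ W, V x ≤ V₂ x := fun x hx =>
      le_of_tendsto_of_tendsto' (hVt x hx) (hV₂t x hx)
        (fun n => (le_max_left _ _).trans (hwv₂ n x hx))
    have hV₂q : V₂ q = u q := by
      refine le_antisymm (hV₂u q (hOW hq)) ?_
      exact le_of_tendsto_of_tendsto' hv₂q (hV₂t q (hOW hq))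
        (fun n => (le_max_right _ _).trans (hwv₂ n q (hOW hq)))
    have hV₂p : V₂ p = u p := by
      refine le_antisymm (hV₂u p hp) ?_
      rw [← hVp]
      exact hVV₂ p hp
    have h6 := HarmAt.eqOn_of_max (u := fun x => V x + - V₂ x) hOconn hOopen
      (fun x hx => (hVh x hx).add (hV₂h x hx).neg) hpO (fun x hx => by
        have := hVV₂ x (hOW hx)
        simp only [hVp, hV₂p]
        linarith) q hq
    simp only [hVp, hV₂p] at h6
    linarith
  refine (hVh p hpO).congr ?_
  filter_upwards [hOopen.mem_nhds hpO] with x hx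
  exact (hVO x hx).symm

end Pool.Agent.Lib.MP_1f4a82_an
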