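import Pool.Agent.Lib.MP_1f4a82_an.Basic
import Pool.Agent.Lib.MP_1f4a82_an.Plane
import Pool.Agent.Lib.MP_1f4a82_an.Perron

/-!
The Green function of a connected open subset with analytic boundary.
-/

open Topology Filter Set

namespace Pool.Agent.Lib.MP_1f4a82_an

section Aux

variable {X : Type} [TopologicalSpace X] [RS X]

theorem subOn_constMul {u : X → ℝ} {W : Set X} (hu : SubOn u W) {c : ℝ} (hc : 0 ≤ c) :
    SubOn (fun x => c * u x) W := by
  refine ⟨continuousOn_const.mul hu.cont, fun p hp e he hpe => ?_⟩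
  filter_upwards [hu.submean p hp e he hpe] with r hr
  have h1 : Real.circleAverage (fun z => c * u (e.symm z)) (e p) r =
      c * Real.circleAverage (fun z => u (e.symm z)) (e p) r := by
    simp only [Real.circleAverage, intervalIntegral.integral_const_mul, smul_eq_mul]
    ring
  rw [h1]
  exact mul_le_mul_of_nonneg_left hr hc

theorem subOn_const (c : ℝ) (W : Set X) : SubOn (fun _ : X => c) W :=
  SubOn.of_harm fun x _ => harmAt_const c x

/-- The maximum of a subharmonic function with poles and a constant. -/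
theorem subOn_max_ext {W Z : Set X} (hWZ : IsOpen (W \ Z)) {w : X → ℝ} {a : ℝ}
    (hw : SubOn w (W \ Z))
    (hZ : ∀ z ∈ W, z ∈ Z → ∀ᶠ x in 𝓝[≠] z, x ∉ Z → w x ≤ a) :
    ∃ F : X → ℝ, SubOn F W ∧ (∀ x, x ∉ Z → F x = max (w x) a) ∧ ∀ x ∈ Z, F x = a := by
  classical
  refine ⟨fun x => if x ∈ Z then a else max (w x) a, ?_, fun x hx => if_neg hx,
    fun x hx => if_pos hx⟩
  refine SubOn.of_local fun p hp => ?_
  by_cases hpZ : p ∈ Z
  · have h1 : ∀ᶠ x in 𝓝 p, x ≠ p → x ∉ Z → w x ≤ a :=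
      eventually_nhdsWithin_iff.mp (hZ p hp hpZ)
    refine ⟨_, h1, fun _ => a, subOn_const a _, ?_⟩
    intro x hx
    by_cases hxZ : x ∈ Z
    · exact if_pos hxZ
    · have hxp : x ≠ p := by rintro rfl; exact hxZ hpZ
      show (if x ∈ Z then a else max (w x) a) = a
      rw [if_neg hxZ]
      exact max_eq_right (hx hxp hxZ)
  · refine ⟨W \ Z, hWZ.mem_nhds ⟨hp, hpZ⟩, fun x => max (w x) a, hw.max hWZ (subOn_const a _), ?_⟩
    intro x hx
    exact if_neg hx.2

omit [RS X] in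
theorem le_of_frontier {u : X → ℝ} {x : X} (hc : ContinuousAt u x) {K : Set X}
    (hx : x ∈ frontier K) {a : ℝ} (h : ∀ᶠ y in 𝓝 x, y ∉ K → u y ≤ a) : u x ≤ a := by
  by_contra hlt
  push Not at hlt
  have h1 : ∀ᶠ y in 𝓝 x, a < u y := hc.eventually_const_lt hlt
  have h2 : ∃ᶠ y in 𝓝 x, y ∈ Kᶜ := by
    rw [← mem_closure_iff_frequently]
    rw [frontier_eq_closure_inter_closure] at hx
    exact hx.2
  obtain ⟨y, hy, hy1, hy2⟩ := (h2.and_eventually (h1.and h)).exists
  exact absurd (hy2 hy) (not_le.mpr hy1)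

/-- A function on the closed half disc which dominates harmonically. -/
theorem harmAt_barrier (ρ : ℝ) (s : ℂ) :
    HarmAt (fun s : ℂ => (s.re / ρ) ^ 2 - (s.im / ρ) ^ 2 + 2 * (s.im / ρ)) s := by
  refine ⟨fun s => (s / ρ) ^ 2 - 2 * Complex.I * (s / ρ), ?_, Eventually.of_forall fun s => ?_⟩
  · rw [holAt_iff_analyticAt]
    fun_prop
  · have h1 : (s / (ρ : ℂ)).re = s.re / ρ := by
      rw [Complex.div_ofReal_re]
    have h2 : (s / (ρ : ℂ)).im = s.im / ρ := by
      rw [Complex.div_ofReal_im]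
    simp only [pow_two, Complex.sub_re, Complex.mul_re, h1, h2, Complex.mul_im, Complex.I_re,
      Complex.I_im]
    simp

theorem barrier_ge_one {ρ : ℝ} (hρ : 0 < ρ) {s : ℂ} (hs : ‖s‖ = ρ) (him : 0 ≤ s.im) :
    1 ≤ (s.re / ρ) ^ 2 - (s.im / ρ) ^ 2 + 2 * (s.im / ρ) := by
  have h1 : s.re ^ 2 + s.im ^ 2 = ρ ^ 2 := by
    rw [← hs, ← Complex.normSq_eq_norm_sq, Complex.normSq_apply]; ring
  have h2 : (s.re / ρ) ^ 2 + (s.im / ρ) ^ 2 = 1 := by
    rw [div_pow, div_pow, ← add_div, h1, div_self (by positivity)]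
  have h3 : 0 ≤ s.im / ρ := by positivity
  have h4 : s.im / ρ ≤ 1 := by
    rw [div_le_one hρ, ← hs]
    exact Complex.im_le_norm s
  nlinarith

theorem barrier_nonneg {ρ : ℝ} (hρ : 0 < ρ) {s : ℂ} (hs : ‖s‖ ≤ ρ) (him : 0 ≤ s.im) :
    0 ≤ (s.re / ρ) ^ 2 - (s.im / ρ) ^ 2 + 2 * (s.im / ρ) := by
  have h3 : 0 ≤ s.im / ρ := by positivity
  have h4 : s.im / ρ ≤ 1 := by
    rw [div_le_one hρ]
    exact (Complex.im_le_norm s).trans hs
  nlinarith [sq_nonneg (s.re / ρ)]

/-- Barrier at an analytic boundary point. -/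
theorem exists_barrier [T2Space X] [PreconnectedSpace X] {Y : Set X} (hYo : IsOpen Y)
    {x₀ : X} {β : ℂ → X} {r : ℝ} (hr : 0 < r) (hβ : ∀ s ∈ Metric.ball (0 : ℂ) r, HolAt β s)
    (hinj : InjOn β (Metric.ball 0 r)) (h0 : β 0 = x₀)
    (hside : ∀ s ∈ Metric.ball (0 : ℂ) r, (β s ∈ Y ↔ 0 < s.im)) {F : Set X} (hF : IsClosed F)
    (hxF : x₀ ∉ F) :
    ∃ b : X → ℝ, Tendsto b (𝓝 x₀) (𝓝 0) ∧ ∀ᶠ y in 𝓝 x₀, ∀ (w : X → ℝ) (M : ℝ), 0 ≤ M →
      SubOn w (Y \ F) → (∀ y ∈ Y \ F, w y ≤ M) → (∃ K, IsCompact K ∧ K ⊆ Y ∧ ∀ y ∉ K, w y = 0) →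
      y ∈ Y → w y ≤ M * b y := by
  -- shrink the radius
  have hc0 : ContinuousAt β 0 := (hβ 0 (Metric.mem_ball_self hr)).1
  have h1 : ∀ᶠ s in 𝓝 (0 : ℂ), β s ∉ F ∧ s ∈ Metric.ball (0 : ℂ) r := by
    refine Eventually.and ?_ (Metric.isOpen_ball.mem_nhds (Metric.mem_ball_self hr))
    exact hc0.eventually_mem (hF.isOpen_compl.mem_nhds (by rw [h0]; exact hxF))
  obtain ⟨ρ, hρ, hball⟩ := Metric.nhds_basis_closedBall.mem_iff.mp h1
  have hsub : Metric.closedBall (0 : ℂ) ρ ⊆ Metric.ball 0 r := fun s hs => (hball hs).2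
  set g : X → ℂ := Function.invFunOn β (Metric.ball 0 r) with hg
  have hgβ : ∀ s ∈ Metric.ball (0 : ℂ) r, g (β s) = s := fun s hs => hinj.leftInvOn_invFunOn hs
  have hgh : ∀ s ∈ Metric.ball (0 : ℂ) r, HolAt g (β s) := fun s hs =>
    holAt_leftInverse Metric.isOpen_ball hβ hgβ hs
  set B : ℂ → ℝ := fun s => (s.re / ρ) ^ 2 - (s.im / ρ) ^ 2 + 2 * (s.im / ρ) with hB
  refine ⟨fun x => B (g x), ?_, ?_⟩
  · have hg0 : ContinuousAt g x₀ := by
      rw [← h0]; exact (hgh 0 (Metric.mem_ball_self hr)).1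
    have hBc : Continuous B := by
      rw [hB]
      fun_prop
    have h2 : ContinuousAt (fun x => B (g x)) x₀ := hBc.continuousAt.comp hg0
    have h3 : B (g x₀) = 0 := by
      rw [← h0, hgβ 0 (Metric.mem_ball_self hr), hB]; simp
    have h4 := h2.tendsto
    rw [h3] at h4
    exact h4
  · have hO : IsOpen (β '' Metric.ball (0 : ℂ) ρ) :=
      isOpen_image_of_injOn Metric.isOpen_ball hβ hinj Metric.isOpen_ball
        (Metric.ball_subset_closedBall.trans hsub)
    have hO' : IsOpen (β '' Metric.ball (0 : ℂ) r) :=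
      isOpen_image_of_injOn Metric.isOpen_ball hβ hinj Metric.isOpen_ball subset_rfl
    filter_upwards [hO.mem_nhds ⟨0, Metric.mem_ball_self hρ, h0⟩] with y hy w M hM hw hwM hK hyY
    obtain ⟨s, hs, rfl⟩ := hy
    obtain ⟨Kw, hKc, hKY, hKw⟩ := hK
    have hsim : 0 < s.im := (hside s (hsub (Metric.ball_subset_closedBall hs))).mp hyY
    set H : Set ℂ := Metric.closedBall (0 : ℂ) ρ ∩ {s | 0 ≤ s.im} with hH
    have hHc : IsCompact H :=
      (isCompact_closedBall 0 ρ).inter_right (isClosed_le continuous_const Complex.continuous_im)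
    have hHsub : H ⊆ Metric.ball 0 r := fun s hs => hsub hs.1
    have hβc : ContinuousOn β H := fun s hs => (hβ s (hHsub hs)).1.continuousWithinAt
    have hKcomp : IsCompact (β '' H) := hHc.image_of_continuousOn hβc
    set W : Set X := (Y \ F) ∩ β '' Metric.ball (0 : ℂ) r with hW
    have hWo : IsOpen W := (hYo.sdiff hF).inter hO'
    have hharm : ∀ x ∈ β '' Metric.ball (0 : ℂ) r, HarmAt (fun x => -M * B (g x)) x := by
      rintro _ ⟨t, ht, rfl⟩
      exact (HarmAt.comp (harmAt_barrier ρ _) (hgh t ht)).const_mul (-M)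
    have hsubW : SubOn (fun x => w x + -M * B (g x)) W :=
      (hw.mono inter_subset_left).add hWo (SubOn.of_harm fun x hx => hharm x hx.2)
    -- continuity of w off F
    have hwc : ∀ x, x ∉ F → ContinuousAt w x := by
      intro x hx
      by_cases hxY : x ∈ Y
      · exact hw.cont.continuousAt ((hYo.sdiff hF).mem_nhds ⟨hxY, hx⟩)
      · have : w =ᶠ[𝓝 x] fun _ => 0 := by
          filter_upwards [hKc.isClosed.isOpen_compl.mem_nhds (fun h => hxY (hKY h))] with y hy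
            using hKw y hy
        exact continuousAt_const.congr this.symm
    have hcK : ContinuousOn (fun x => w x + -M * B (g x)) (β '' H) := by
      rintro _ ⟨t, ht, rfl⟩
      refine ContinuousAt.continuousWithinAt ((hwc _ (hball ht.1).1).add ?_)
      exact (hharm _ ⟨t, hHsub ht, rfl⟩).continuousAt
    have hneuniv : β '' H ≠ univ := by
      intro h
      have h5 : β (-(ρ / 2 : ℝ) * Complex.I) ∈ β '' H := by rw [h]; trivial
      obtain ⟨t, ht, hte⟩ := h5
      have h6 : (-(ρ / 2 : ℝ) * Complex.I) ∈ Metric.ball (0 : ℂ) r := by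
        apply hsub
        rw [mem_closedBall_zero_iff, norm_mul, norm_neg, Complex.norm_I, mul_one,
          Complex.norm_real, Real.norm_eq_abs, abs_of_pos (by positivity)]
        linarith
      have h7 := hinj (hHsub ht) h6 hte
      have h8 := ht.2
      rw [h7] at h8
      simp at h8
      linarith
    have hle := SubOn.le_of_compact hWo hsubW hKcomp hneuniv hcK (C := 0) (by
      rintro _ ⟨t, ht, rfl⟩ hor
      have htr := hHsub ht
      have htim : 0 ≤ t.im := ht.2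
      have htn : ‖t‖ ≤ ρ := by simpa using ht.1
      have hBn := barrier_nonneg hρ htn htim
      rw [hgβ t htr]
      by_cases hcase : 0 < t.im
      · have hY' : β t ∈ Y := (hside t htr).mpr hcase
        have hF' : β t ∉ F := (hball ht.1).1
        rcases hor with h | h
        · exact absurd ⟨⟨hY', hF'⟩, ⟨t, htr, rfl⟩⟩ h
        · have htn' : ‖t‖ = ρ := by
            by_contra hne
            have hlt : ‖t‖ < ρ := lt_of_le_of_ne htn hne
            have hopen : IsOpen (β '' (Metric.ball (0 : ℂ) ρ ∩ {s | 0 < s.im})) := by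
              refine isOpen_image_of_injOn Metric.isOpen_ball hβ hinj
                (Metric.isOpen_ball.inter (isOpen_lt continuous_const Complex.continuous_im)) ?_
              exact inter_subset_left.trans (Metric.ball_subset_closedBall.trans hsub)
            have hin : β t ∈ interior (β '' H) := by
              refine mem_interior.mpr ⟨_, ?_, hopen, ⟨t, ⟨by simpa using hlt, hcase⟩, rfl⟩⟩
              refine image_mono fun s hs => ⟨Metric.ball_subset_closedBall hs.1, ?_⟩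
              have h9 : 0 < s.im := hs.2
              exact h9.le
            exact h.2 hin
          have hB1 := barrier_ge_one hρ htn' htim
          have := hwM (β t) ⟨hY', hF'⟩
          have h9 : M * 1 ≤ M * B t := mul_le_mul_of_nonneg_left hB1 hM
          linarith
      · have hY' : β t ∉ Y := fun h => hcase ((hside t htr).mp h)
        rw [hKw _ (fun h => hY' (hKY h))]
        have := mul_nonneg hM hBn
        rw [hB]
        linarith) (β s) ⟨s, ⟨Metric.ball_subset_closedBall hs, hsim.le⟩, rfl⟩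
    beta_reduce at hle
    linarith

theorem isPreconnected_ring (c : ℂ) {r₁ : ℝ} (h : 0 < r₁) (r₂ : ℝ) :
    IsPreconnected (Metric.ball c r₂ \ Metric.closedBall c r₁) := by
  have h : Metric.ball c r₂ \ Metric.closedBall c r₁ =
      (fun x : ℝ × ℝ => c + (x.1 : ℂ) * Complex.exp (x.2 * Complex.I)) '' (Ioo r₁ r₂ ×ˢ univ) := by
    ext z
    constructor
    · rintro ⟨hz, hzc⟩
      rw [Metric.mem_ball, dist_eq_norm] at hz
      rw [Metric.mem_closedBall, dist_eq_norm, not_le] at hzc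
      refine ⟨(‖z - c‖, Complex.arg (z - c)), ⟨⟨hzc, hz⟩, trivial⟩, ?_⟩
      simp only [Complex.norm_mul_exp_arg_mul_I]; ring
    · rintro ⟨⟨ρ, θ⟩, ⟨⟨h1, h2⟩, -⟩, rfl⟩
      simp only at h1 h2 ⊢
      have h3 : ‖(ρ : ℂ) * Complex.exp (θ * Complex.I)‖ = ρ := by
        rw [norm_mul, Complex.norm_exp_ofReal_mul_I, mul_one, Complex.norm_real, Real.norm_eq_abs,
          abs_of_pos (h.trans h1)]
      constructor
      · rw [Metric.mem_ball, dist_eq_norm, add_sub_cancel_left, h3]; exact h2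
      · rw [Metric.mem_closedBall, dist_eq_norm, add_sub_cancel_left, h3, not_le]; exact h1
  rw [h]
  refine ((isPreconnected_Ioo.prod isPreconnected_univ).image _ ?_)
  fun_prop

omit [RS X] in
/-- Removing a closed disc from a connected open set. -/
theorem isPreconnected_diff_disc {Y V D : Set X} (hYc : IsPreconnected Y) (hD : IsClosed D)
    (hVo : IsOpen V) (hDV : D ⊆ V) (hVY : V ⊆ Y) (hVc : IsPreconnected (V \ D))
    (hDn : D.Nonempty) : IsPreconnected (Y \ D) := by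
  have key : ∀ u v : Set X, IsOpen u → IsOpen v → Y \ D ⊆ u ∪ v →
      ((Y \ D) ∩ v).Nonempty → V \ D ⊆ u → ((Y \ D) ∩ (u ∩ v)).Nonempty := by
    rintro u v hu hv huv ⟨y, ⟨hyU, hyp⟩, hyv⟩ hVu
    obtain ⟨d, hd⟩ := hDn
    have h1 := hYc (u ∪ V) (v \ D) (hu.union hVo) (hv.sdiff hD) (by
      intro x hx
      by_cases hxp : x ∈ D
      · exact Or.inl (Or.inr (hDV hxp))
      · rcases huv ⟨hx, hxp⟩ with h | h
        · exact Or.inl (Or.inl h)
        · exact Or.inr ⟨h, hxp⟩) ⟨d, hVY (hDV hd), Or.inr (hDV hd)⟩ ⟨y, hyU, hyv, hyp⟩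
    obtain ⟨x, hxU, hx1, hxv, hxp⟩ := h1
    refine ⟨x, ⟨hxU, hxp⟩, ?_, hxv⟩
    rcases hx1 with h | h
    · exact h
    · exact hVu ⟨h, hxp⟩
  intro u v hu hv huv hu' hv'
  by_cases h1 : ((V \ D) ∩ v).Nonempty
  · by_cases h2 : ((V \ D) ∩ u).Nonempty
    · obtain ⟨x, ⟨hxV, hxp⟩, hx2⟩ := hVc u v hu hv
        ((sdiff_subset_sdiff_left hVY).trans huv) h2 h1
      exact ⟨x, ⟨hVY hxV, hxp⟩, hx2⟩
    · have h3 : V \ D ⊆ v := by
        intro x hx
        rcases huv ⟨hVY hx.1, hx.2⟩ with h | h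
        · exact absurd ⟨x, hx, h⟩ h2
        · exact h
      have := key v u hv hu (by rwa [union_comm]) hu' h3
      rwa [inter_comm v u] at this
  · have h3 : V \ D ⊆ u := by
      intro x hx
      rcases huv ⟨hVY hx.1, hx.2⟩ with h | h
      · exact h
      · exact absurd ⟨x, hx, h⟩ h1
    exact key u v hu hv huv hv' h3

end Aux

section Theta

variable {X : Type} [TopologicalSpace X] [RS X]

/-- A Poisson modification is bounded by a bound of the function. -/
theorem poisson_le [T2Space X] [PreconnectedSpace X] {W : Set X} (hWo : IsOpen W)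
    (hWn : W ≠ univ) {v v' : X → ℝ} {M : ℝ} {e : OpenPartialHomeomorph X ℂ} {c : ℂ} {r : ℝ}
    (h1 : Metric.closedBall c r ⊆ e.target) (h2 : e.symm '' Metric.closedBall c r ⊆ W)
    (hv' : SubOn v' W) (hoff : ∀ x, x ∉ e.symm '' Metric.ball c r → v' x = v x)
    (hM : ∀ x ∈ e.symm '' Metric.closedBall c r, v x ≤ M) :
    ∀ x ∈ e.symm '' Metric.closedBall c r, v' x ≤ M := by
  have hcomp : IsCompact (e.symm '' Metric.closedBall c r) :=
    (isCompact_closedBall c r).image_of_continuousOn (e.continuousOn_symm.mono h1)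
  have hopen : IsOpen (e.symm '' Metric.ball c r) :=
    e.symm.isOpen_image_of_subset_source Metric.isOpen_ball
      (Metric.ball_subset_closedBall.trans h1)
  refine SubOn.le_of_compact hWo hv' hcomp ?_ (hv'.cont.mono h2) ?_
  · intro h
    apply hWn
    rw [h] at h2
    exact univ_subset_iff.mp h2
  · rintro x hx (h | h)
    · exact absurd (h2 hx) h
    · rw [hoff x ?_]
      · exact hM x hx
      · intro h3
        exact h.2 (mem_interior.mpr ⟨_, image_mono Metric.ball_subset_closedBall, hopen, h3⟩)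

theorem exists_theta [T2Space X] [PreconnectedSpace X] {Y F S : Set X} (hYo : IsOpen Y)
    (hF : IsClosed F) (hFn : F.Nonempty) (hc : IsPreconnected (Y \ F)) (hS : IsCompact S)
    (hSY : S ⊆ Y \ F) {x₀ : X} (hx₀ : x₀ ∈ closure Y) (hx₀F : x₀ ∉ F) {b : X → ℝ}
    (hb : Tendsto b (𝓝 x₀) (𝓝 0))
    (hbar : ∀ᶠ y in 𝓝 x₀, ∀ (w : X → ℝ) (M : ℝ), 0 ≤ M →
      SubOn w (Y \ F) → (∀ y ∈ Y \ F, w y ≤ M) → (∃ K, IsCompact K ∧ K ⊆ Y ∧ ∀ y ∉ K, w y = 0) →
      y ∈ Y → w y ≤ M * b y) :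
    ∃ θ : ℝ, 0 ≤ θ ∧ θ < 1 ∧ ∀ w : X → ℝ, SubOn w (Y \ F) → (∀ x ∈ Y \ F, 0 ≤ w x) →
      (∀ x ∈ Y \ F, w x ≤ 1) → (∃ K, IsCompact K ∧ K ⊆ Y ∧ ∀ y ∉ K, w y = 0) →
      ∀ x ∈ S, w x ≤ θ := by
  have hWo : IsOpen (Y \ F) := hYo.sdiff hF
  have hWn : Y \ F ≠ univ := by
    obtain ⟨d, hd⟩ := hFn
    intro h
    have : d ∈ Y \ F := by rw [h]; trivial
    exact this.2 hd
  set 𝓦 : Set (X → ℝ) := {w | SubOn w (Y \ F) ∧ (∀ x ∈ Y \ F, 0 ≤ w x) ∧
      (∀ x ∈ Y \ F, w x ≤ 1) ∧ ∃ K, IsCompact K ∧ K ⊆ Y ∧ ∀ y ∉ K, w y = 0} with h𝓦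
  have hzero : (fun _ : X => (0 : ℝ)) ∈ 𝓦 :=
    ⟨subOn_const 0 _, fun _ _ => le_rfl, fun _ _ => zero_le_one, ∅, isCompact_empty,
      empty_subset _, fun _ _ => rfl⟩
  set ω : X → ℝ := fun x => sSup ((fun v : X → ℝ => v x) '' 𝓦) with hω
  have hbdd : ∀ x ∈ Y \ F, BddAbove ((fun v : X → ℝ => v x) '' 𝓦) := by
    intro x hx
    refine ⟨1, ?_⟩
    rintro _ ⟨w, hw, rfl⟩
    exact hw.2.2.1 x hx
  have hωh : ∀ p ∈ Y \ F, HarmAt ω p := by
    refine perron hWo 𝓦 ⟨_, hzero⟩ (fun v hv => hv.1) ?_ ?_ ?_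
    · rintro u ⟨hu1, hu2, hu3, Ku, hu4, hu5, hu6⟩ v ⟨hv1, hv2, hv3, Kv, hv4, hv5, hv6⟩
      refine ⟨hu1.max hWo hv1, fun x hx => le_max_of_le_left (hu2 x hx),
        fun x hx => max_le (hu3 x hx) (hv3 x hx), Ku ∪ Kv, hu4.union hv4, union_subset hu5 hv5, ?_⟩
      intro y hy
      rw [mem_union, not_or] at hy
      show max (u y) (v y) = 0
      rw [hu6 y hy.1, hv6 y hy.2, max_self]
    · rintro v ⟨hv1, hv2, hv3, Kv, hv4, hv5, hv6⟩ e he c r hr h1 h2 v' hv' hge hoff hharm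
      refine ⟨hv', fun x hx => (hv2 x hx).trans (hge x hx), ?_, ?_⟩
      · intro x hx
        by_cases hxd : x ∈ e.symm '' Metric.closedBall c r
        · exact poisson_le hWo hWn h1 h2 hv' hoff (fun y hy => hv3 y (h2 hy)) x hxd
        · rw [hoff x (fun h => hxd (image_mono Metric.ball_subset_closedBall h))]
          exact hv3 x hx
      · refine ⟨Kv ∪ e.symm '' Metric.closedBall c r, hv4.union
          ((isCompact_closedBall c r).image_of_continuousOn (e.continuousOn_symm.mono h1)),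
          union_subset hv5 (h2.trans sdiff_subset), ?_⟩
        intro y hy
        rw [mem_union, not_or] at hy
        rw [hoff y (fun h => hy.2 (image_mono Metric.ball_subset_closedBall h))]
        exact hv6 y hy.1
    · intro p hp
      exact ⟨Y \ F, hWo.mem_nhds hp, 1, fun v hv x hx => hv.2.2.1 x hx⟩
  have hωle : ∀ x ∈ Y \ F, ω x ≤ 1 := by
    intro x hx
    refine csSup_le ⟨_, _, hzero, rfl⟩ ?_
    rintro _ ⟨w, hw, rfl⟩
    exact hw.2.2.1 x hx
  have hωlt : ∀ x ∈ Y \ F, ω x < 1 := by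
    intro p hp
    by_contra hge
    have h1 : ω p = 1 := le_antisymm (hωle p hp) (not_lt.mp hge)
    have h2 := HarmAt.eqOn_of_max hc hWo hωh hp (fun x hx => by rw [h1]; exact hωle x hx)
    have h3 : ∀ᶠ y in 𝓝 x₀, b y < 1 := hb.eventually_lt_const one_pos
    have h4 : ∃ᶠ y in 𝓝 x₀, y ∈ Y := mem_closure_iff_frequently.mp hx₀
    have h5 : ∀ᶠ y in 𝓝 x₀, y ∉ F := hF.isOpen_compl.mem_nhds hx₀F
    obtain ⟨y, hy, hy1, hy2, hy3⟩ := (h4.and_eventually (h3.and (h5.and hbar))).exists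
    have h6 : ω y ≤ b y := by
      refine csSup_le ⟨_, _, hzero, rfl⟩ ?_
      rintro _ ⟨w, hw, rfl⟩
      have := hy3 w 1 zero_le_one hw.1 hw.2.2.1 hw.2.2.2 hy
      simpa using this
    have h7 := h2 y ⟨hy, hy2⟩
    rw [h1] at h7
    linarith
  rcases S.eq_empty_or_nonempty with hSe | hSne
  · exact ⟨0, le_rfl, one_pos, fun w _ _ _ _ x hx => by rw [hSe] at hx; exact absurd hx (by simp)⟩
  · have hcont : ContinuousOn ω S := fun x hx => (hωh x (hSY hx)).continuousAt.continuousWithinAt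
    obtain ⟨m, hm, hmax⟩ := hS.exists_isMaxOn hSne hcont
    refine ⟨ω m, ?_, hωlt m (hSY hm), ?_⟩
    · exact le_csSup (hbdd m (hSY hm)) ⟨_, hzero, rfl⟩
    · intro w hw1 hw2 hw3 hw4 x hx
      have : w x ≤ ω x := le_csSup (hbdd x (hSY hx)) ⟨w, ⟨hw1, hw2, hw3, hw4⟩, rfl⟩
      exact this.trans (hmax hx)

end Theta

section Green

variable {X : Type} [TopologicalSpace X] [RS X]

omit [RS X] in
theorem mem_closedDisc {e : OpenPartialHomeomorph X ℂ} {c : ℂ} {a : ℝ}
    (hT : Metric.closedBall c a ⊆ e.target) {x : X} :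
    x ∈ e.symm '' Metric.closedBall c a ↔ x ∈ e.source ∧ ‖e x - c‖ ≤ a := by
  constructor
  · rintro ⟨z, hz, rfl⟩
    refine ⟨e.map_target (hT hz), ?_⟩
    rw [e.right_inv (hT hz), ← dist_eq_norm]
    exact hz
  · rintro ⟨hx, h⟩
    refine ⟨e x, ?_, e.left_inv hx⟩
    rw [Metric.mem_closedBall, dist_eq_norm]
    exact h

omit [RS X] in
theorem mem_openDisc {e : OpenPartialHomeomorph X ℂ} {c : ℂ} {a : ℝ}
    (hT : Metric.ball c a ⊆ e.target) {x : X} :
    x ∈ e.symm '' Metric.ball c a ↔ x ∈ e.source ∧ ‖e x - c‖ < a := by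
  constructor
  · rintro ⟨z, hz, rfl⟩
    refine ⟨e.map_target (hT hz), ?_⟩
    rw [e.right_inv (hT hz), ← dist_eq_norm]
    exact hz
  · rintro ⟨hx, h⟩
    refine ⟨e x, ?_, e.left_inv hx⟩
    rw [Metric.mem_ball, dist_eq_norm]
    exact h

omit [RS X] in
theorem tendsto_log_chart {e : OpenPartialHomeomorph X ℂ} {q : X} (hq : q ∈ e.source) :
    Tendsto (fun x => Real.log ‖e x - e q‖) (𝓝[≠] q) atBot := by
  have h1 : Tendsto (fun x => ‖e x - e q‖) (𝓝[≠] q) (𝓝[≠] 0) := by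
    refine tendsto_nhdsWithin_iff.mpr ⟨?_, ?_⟩
    · have h2 : ContinuousAt (fun x => ‖e x - e q‖) q :=
        ((e.continuousAt hq).sub continuousAt_const).norm
      have h3 := h2.tendsto
      simp only [sub_self, norm_zero] at h3
      exact h3.mono_left nhdsWithin_le_nhds
    · filter_upwards [(tendsto_chart_ne hq).eventually self_mem_nhdsWithin] with x hx
      exact norm_ne_zero_iff.mpr (sub_ne_zero.mpr hx)
  exact Real.tendsto_log_nhdsNE_zero.comp h1

theorem harmAt_log_chart {e : OpenPartialHomeomorph X ℂ} (he : e ∈ RS.atlas (X := X)) {q x : X}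
    (hq : q ∈ e.source) (hx : x ∈ e.source) (hne : x ≠ q) :
    HarmAt (fun x => Real.log ‖e x - e q‖) x :=
  harmAt_log_norm ((holAt_chart he hx).sub (holAt_const (e q) x))
    (sub_ne_zero.mpr fun h => hne (e.injOn hx hq h))

/-- Members of the family defining the Green function. -/
structure GFam (Y : Set X) (q : X) (e : OpenPartialHomeomorph X ℂ) (v : X → ℝ) : Prop where
  sub : SubOn v (Y \ {q})
  nonneg : ∀ x ∈ Y \ {q}, 0 ≤ v x
  supp : ∃ K, IsCompact K ∧ K ⊆ Y ∧ ∀ y ∉ K, v y = 0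
  pole : ∃ C : ℝ, ∀ᶠ x in 𝓝[≠] q, v x ≤ C - Real.log ‖e x - e q‖

theorem le_of_eps {a b L : ℝ} (hL : 0 ≤ L) (h : ∀ ε > 0, a ≤ b + (1 + ε) * L) : a ≤ b + L := by
  refine le_of_forall_pos_le_add fun δ hδ => ?_
  have h1 := h (δ / (L + 1)) (by positivity)
  have h2 : δ / (L + 1) * L ≤ δ := by
    rw [div_mul_eq_mul_div, div_le_iff₀ (by positivity)]
    nlinarith
  nlinarith

/-- comparison with the logarithmic pole in a disc -/
theorem GFam.le_disc [T2Space X] [PreconnectedSpace X] {Y : Set X} (hYo : IsOpen Y)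
    (hYn : Y ≠ univ) {q : X} {e : OpenPartialHomeomorph X ℂ} (he : e ∈ RS.atlas (X := X))
    (hq : q ∈ e.source) {r₀ : ℝ} (hr₀ : 0 < r₀)
    (hT : Metric.closedBall (e q) r₀ ⊆ e.target)
    (hDY : e.symm '' Metric.closedBall (e q) r₀ ⊆ Y) {v : X → ℝ} (hv : GFam Y q e v) {a : ℝ}
    (ha : ∀ x ∈ e.source, ‖e x - e q‖ = r₀ → v x ≤ a) :
    ∀ x ∈ e.source, ‖e x - e q‖ ≤ r₀ → x ≠ q →
      v x ≤ a + (Real.log r₀ - Real.log ‖e x - e q‖) := by
  intro p hp hpr hpq
  have hppos : 0 < ‖e p - e q‖ := norm_pos_iff.mpr (sub_ne_zero.mpr fun h => hpq (e.injOn hp hq h))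
  refine le_of_eps (sub_nonneg.mpr (Real.log_le_log hppos hpr)) fun ε hε => ?_
  set W : Set X := Y ∩ e.source with hW
  have hWo : IsOpen W := hYo.inter e.open_source
  have hWq : IsOpen (W \ {q}) := hWo.sdiff isClosed_singleton
  set w : X → ℝ := fun x => v x + ((1 + ε) * Real.log ‖e x - e q‖ + -((1 + ε) * Real.log r₀))
    with hw
  have hwsub : SubOn w (W \ {q}) := by
    refine (hv.sub.mono (sdiff_subset_sdiff_left inter_subset_left)).add hWq (SubOn.of_harm ?_)
    intro x hx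
    exact ((harmAt_log_chart he hq hx.1.2 hx.2).const_mul _).add (harmAt_const _ _)
  obtain ⟨C, hC⟩ := hv.pole
  have hpole : ∀ᶠ x in 𝓝[≠] q, w x ≤ a := by
    have h1 := (tendsto_log_chart hq).eventually_le_atBot ((a - C + (1 + ε) * Real.log r₀) / ε)
    filter_upwards [h1, hC] with x hx1 hx2
    rw [le_div_iff₀ hε] at hx1
    show v x + ((1 + ε) * Real.log ‖e x - e q‖ + -((1 + ε) * Real.log r₀)) ≤ a
    nlinarith
  obtain ⟨F, hF1, hF2, hF3⟩ := subOn_max_ext hWq hwsub (a := a) (by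
    intro z hz hzq
    rw [mem_singleton_iff] at hzq
    subst hzq
    filter_upwards [hpole] with x hx _ using hx)
  have hKc : IsCompact (e.symm '' Metric.closedBall (e q) r₀) :=
    (isCompact_closedBall _ r₀).image_of_continuousOn (e.continuousOn_symm.mono hT)
  have hKW : e.symm '' Metric.closedBall (e q) r₀ ⊆ W := fun x hx =>
    ⟨hDY hx, ((mem_closedDisc hT).mp hx).1⟩
  have hopen : IsOpen (e.symm '' Metric.ball (e q) r₀) :=
    e.symm.isOpen_image_of_subset_source Metric.isOpen_ball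
      (Metric.ball_subset_closedBall.trans hT)
  have hle := SubOn.le_of_compact hWo hF1 hKc (fun h => hYn (univ_subset_iff.mp (h ▸ hDY)))
    (hF1.cont.mono hKW) (C := a) (by
    rintro x hx (h | h)
    · exact absurd (hKW hx) h
    · obtain ⟨hxs, hxr⟩ := (mem_closedDisc hT).mp hx
      have hxr' : ‖e x - e q‖ = r₀ := by
        by_contra hne
        refine h.2 (mem_interior.mpr ⟨_, image_mono Metric.ball_subset_closedBall, hopen, ?_⟩)
        exact (mem_openDisc (Metric.ball_subset_closedBall.trans hT)).mpr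
          ⟨hxs, lt_of_le_of_ne hxr hne⟩
      have hxq : x ∉ ({q} : Set X) := by
        rintro rfl
        simp at hxr'
        exact hr₀.ne hxr'
      rw [hF2 x hxq]
      refine max_le ?_ le_rfl
      show v x + ((1 + ε) * Real.log ‖e x - e q‖ + -((1 + ε) * Real.log r₀)) ≤ a
      rw [hxr', add_neg_cancel, add_zero]
      exact ha x hxs hxr') p ((mem_closedDisc hT).mpr ⟨hp, hpr⟩)
  rw [hF2 p hpq] at hle
  have h5 : v p + ((1 + ε) * Real.log ‖e p - e q‖ + -((1 + ε) * Real.log r₀)) ≤ a :=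
    (le_max_left _ _).trans hle
  linarith

/-- maximum principle outside a disc -/
theorem GFam.le_out [T2Space X] [PreconnectedSpace X] {Y : Set X} (hYo : IsOpen Y) {q : X}
    {e : OpenPartialHomeomorph X ℂ} (hq : q ∈ e.source)
    {r₁ : ℝ} (hr₁ : 0 < r₁)
    (hT : Metric.closedBall (e q) r₁ ⊆ e.target)
    {v : X → ℝ} (hv : GFam Y q e v) {M : ℝ}
    (hM : 0 ≤ M) (ha : ∀ x ∈ e.source, ‖e x - e q‖ = r₁ → v x ≤ M) :
    ∀ x ∈ Y \ e.symm '' Metric.closedBall (e q) r₁, v x ≤ M := by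
  obtain ⟨Kv, hKc, hKY, hK⟩ := hv.supp
  have hopen : IsOpen (e.symm '' Metric.ball (e q) r₁) :=
    e.symm.isOpen_image_of_subset_source Metric.isOpen_ball
      (Metric.ball_subset_closedBall.trans hT)
  have hDc : IsCompact (e.symm '' Metric.closedBall (e q) r₁) :=
    (isCompact_closedBall _ r₁).image_of_continuousOn (e.continuousOn_symm.mono hT)
  have hWo : IsOpen (Y \ e.symm '' Metric.closedBall (e q) r₁) := hYo.sdiff hDc.isClosed
  have hqB : q ∈ e.symm '' Metric.ball (e q) r₁ := ⟨e q, Metric.mem_ball_self hr₁, e.left_inv hq⟩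
  have hqD : q ∈ e.symm '' Metric.closedBall (e q) r₁ :=
    image_mono Metric.ball_subset_closedBall hqB
  have hsubq : Y \ e.symm '' Metric.closedBall (e q) r₁ ⊆ Y \ {q} := by
    rintro x ⟨hx, hx'⟩
    refine ⟨hx, ?_⟩
    rintro rfl
    exact hx' hqD
  have hcontAt : ∀ x ∈ Y, x ≠ q → ContinuousAt v x := fun x hx hxq =>
    hv.sub.cont.continuousAt ((hYo.sdiff isClosed_singleton).mem_nhds ⟨hx, hxq⟩)
  intro x hx
  by_cases hxK : x ∈ Kv
  · refine SubOn.le_of_compact hWo (hv.sub.mono hsubq) (K := Kv \ e.symm '' Metric.ball (e q) r₁)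
      (hKc.diff hopen) ?_ ?_ (C := M) ?_ x ⟨hxK, fun h =>
        hx.2 (image_mono Metric.ball_subset_closedBall h)⟩
    · intro h
      have h1 : q ∈ Kv \ e.symm '' Metric.ball (e q) r₁ := by rw [h]; trivial
      exact h1.2 hqB
    · intro y hy
      refine (hcontAt y (hKY hy.1) ?_).continuousWithinAt
      rintro rfl
      exact hy.2 hqB
    · rintro y ⟨hyK, hyB⟩ hor
      by_cases hyD : y ∈ e.symm '' Metric.closedBall (e q) r₁
      · obtain ⟨h1, h2⟩ := (mem_closedDisc hT).mp hyD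
        refine ha y h1 (le_antisymm h2 ?_)
        by_contra h3
        exact hyB ((mem_openDisc (Metric.ball_subset_closedBall.trans hT)).mpr
          ⟨h1, not_le.mp h3⟩)
      · have hyY := hKY hyK
        rcases hor with h | h
        · exact absurd ⟨hyY, hyD⟩ h
        · have hyq : y ≠ q := by rintro rfl; exact hyD hqD
          refine le_of_frontier (hcontAt y hyY hyq) h ?_
          filter_upwards [hWo.mem_nhds ⟨hyY, hyD⟩] with z hz hzK
          rw [hK z]
          · exact hM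
          · intro hz2
            exact hzK ⟨hz2, fun h3 => hz.2 (image_mono Metric.ball_subset_closedBall h3)⟩
  · rw [hK x hxK]; exact hM


theorem GFam.sup [T2Space X] {Y : Set X} (hYo : IsOpen Y) {q : X}
    {e : OpenPartialHomeomorph X ℂ} {u v : X → ℝ} (hu : GFam Y q e u) (hv : GFam Y q e v) :
    GFam Y q e (fun x => max (u x) (v x)) := by
  obtain ⟨Ku, hu4, hu5, hu6⟩ := hu.supp
  obtain ⟨Kv, hv4, hv5, hv6⟩ := hv.supp
  obtain ⟨C, hC⟩ := hu.pole
  obtain ⟨C', hC'⟩ := hv.pole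
  refine ⟨hu.sub.max (hYo.sdiff isClosed_singleton) hv.sub,
    fun x hx => le_max_of_le_left (hu.nonneg x hx),
    ⟨Ku ∪ Kv, hu4.union hv4, union_subset hu5 hv5, ?_⟩, max C C', ?_⟩
  · intro y hy
    rw [mem_union, not_or] at hy
    show max (u y) (v y) = 0
    rw [hu6 y hy.1, hv6 y hy.2, max_self]
  · filter_upwards [hC, hC'] with x hx hx'
    refine max_le (hx.trans ?_) (hx'.trans ?_)
    · linarith [le_max_left C C']
    · linarith [le_max_right C C']

theorem GFam.poisson [T2Space X] {Y : Set X} {q : X}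
    {e : OpenPartialHomeomorph X ℂ} {v v' : X → ℝ} (hv : GFam Y q e v)
    {e' : OpenPartialHomeomorph X ℂ} {c : ℂ} {r : ℝ}
    (h1 : Metric.closedBall c r ⊆ e'.target)
    (h2 : e'.symm '' Metric.closedBall c r ⊆ Y \ {q}) (hv' : SubOn v' (Y \ {q}))
    (hge : ∀ x ∈ Y \ {q}, v x ≤ v' x)
    (hoff : ∀ x, x ∉ e'.symm '' Metric.ball c r → v' x = v x) : GFam Y q e v' := by
  obtain ⟨Kv, hv4, hv5, hv6⟩ := hv.supp
  obtain ⟨C, hC⟩ := hv.pole
  have hcomp : IsCompact (e'.symm '' Metric.closedBall c r) :=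
    (isCompact_closedBall c r).image_of_continuousOn (e'.continuousOn_symm.mono h1)
  have hoff' : ∀ x, x ∉ e'.symm '' Metric.closedBall c r → v' x = v x := fun x hx =>
    hoff x fun h => hx (image_mono Metric.ball_subset_closedBall h)
  refine ⟨hv', fun x hx => (hv.nonneg x hx).trans (hge x hx),
    ⟨Kv ∪ e'.symm '' Metric.closedBall c r, hv4.union hcomp,
      union_subset hv5 (h2.trans sdiff_subset), ?_⟩, C, ?_⟩
  · intro y hy
    rw [mem_union, not_or] at hy
    rw [hoff' y hy.2]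
    exact hv6 y hy.1
  · have h3 : ∀ᶠ x in 𝓝[≠] q, x ∉ e'.symm '' Metric.closedBall c r :=
      nhdsWithin_le_nhds (hcomp.isClosed.isOpen_compl.mem_nhds fun h => (h2 h).2 rfl)
    filter_upwards [hC, h3] with x hx hx'
    rw [hoff' x hx']
    exact hx

/-- comparison with `-log ‖b‖` -/
theorem GFam.le_log [T2Space X] [PreconnectedSpace X] {Y : Set X} (hYo : IsOpen Y)
    (hYn : Y ≠ univ) {q : X} {e : OpenPartialHomeomorph X ℂ} (he : e ∈ RS.atlas (X := X))
    (hq : q ∈ e.source) {v : X → ℝ} (hv : GFam Y q e v) {b : X → ℂ}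
    (hb : ∀ p ∈ Y, HolAt b p) (hb1 : ∀ p ∈ Y, ‖b p‖ < 1) (hbq : b q = 0) (hqY : q ∈ Y)
    {p : X} (hp : p ∈ Y) (hpq : p ≠ q) (hbp : b p ≠ 0) : v p ≤ - Real.log ‖b p‖ := by
  have hlog : ∀ x ∈ Y, Real.log ‖b x‖ ≤ 0 := fun x hx =>
    Real.log_nonpos (norm_nonneg _) (hb1 x hx).le
  have hL : 0 ≤ - Real.log ‖b p‖ := by linarith [hlog p hp]
  have h0 := le_of_eps (a := v p) (b := 0) hL ?_
  · simpa using h0
  intro ε hε
  by_contra hcon
  push Not at hcon
  obtain ⟨Kv, hKc, hKY, hK⟩ := hv.supp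
  obtain ⟨C, hC⟩ := hv.pole
  set Z : Set X := {q} ∪ {x | b x = 0} with hZ
  have hYZ : IsOpen (Y \ Z) := by
    rw [isOpen_iff_mem_nhds]
    rintro x ⟨hx, hxZ⟩
    rw [hZ, mem_union, not_or] at hxZ
    have h1 : ∀ᶠ y in 𝓝 x, b y ≠ 0 := (hb x hx).1.eventually_ne hxZ.2
    have h2 : ∀ᶠ y in 𝓝 x, y ≠ q := isOpen_ne.mem_nhds hxZ.1
    filter_upwards [h1, h2, hYo.mem_nhds hx] with y hy1 hy2 hy3
    refine ⟨hy3, ?_⟩
    rintro (h | h)
    · exact hy2 h
    · exact hy1 h
  have hZsub : Y \ Z ⊆ Y \ {q} := fun x hx => ⟨hx.1, fun h => hx.2 (Or.inl h)⟩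
  set w : X → ℝ := fun x => v x + (1 + ε) * Real.log ‖b x‖ with hw
  have hwsub : SubOn w (Y \ Z) :=
    (hv.sub.mono hZsub).add hYZ (SubOn.of_harm fun x hx =>
      (harmAt_log_norm (hb x hx.1) fun h => hx.2 (Or.inr h)).const_mul _)
  have hwp : 0 < w p := by
    show 0 < v p + (1 + ε) * Real.log ‖b p‖
    nlinarith
  set a : ℝ := w p / 2 with ha
  have hapos : 0 < a := by positivity
  obtain ⟨F, hF1, hF2, hF3⟩ := subOn_max_ext hYZ hwsub (a := a) (by
    intro z hz hzZ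
    by_cases hzq : z = q
    · subst hzq
      -- b vanishes at q
      have h1 := (holAt_iff_of_chart he hq).mp (hb z hz)
      have h2 := h1.differentiableAt.isBigO_sub
      obtain ⟨C', hC'⟩ := h2.bound
      have h3 : ∀ᶠ x in 𝓝 z, ‖b (e.symm (e x)) - b (e.symm (e z))‖ ≤ C' * ‖e x - e z‖ :=
        (e.continuousAt hq).eventually hC'
      have h4 : ∀ᶠ x in 𝓝 z, ‖b x‖ ≤ C' * ‖e x - e z‖ := by
        filter_upwards [h3, e.open_source.mem_nhds hq] with x hx hxs
        rw [e.left_inv hxs, e.left_inv hq, hbq, sub_zero] at hx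
        exact hx
      have h5 := (tendsto_log_chart hq).eventually_le_atBot
        ((a - C - (1 + ε) * Real.log (max C' 1)) / ε)
      have h6 : ∀ᶠ x in 𝓝[≠] z, x ∈ e.source :=
        nhdsWithin_le_nhds (e.open_source.mem_nhds hq)
      filter_upwards [h5, nhdsWithin_le_nhds h4, hC, h6, self_mem_nhdsWithin] with x hx1 hx2 hx3
        hx4 hx5 hxZ
      have hbx : b x ≠ 0 := fun h => hxZ (Or.inr h)
      have hzx : 0 < ‖e x - e z‖ :=
        norm_pos_iff.mpr (sub_ne_zero.mpr fun h => hx5 (e.injOn hx4 hq h))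
      have hm : 0 < max C' 1 := lt_max_of_lt_right one_pos
      have h7 : Real.log ‖b x‖ ≤ Real.log (max C' 1) + Real.log ‖e x - e z‖ := by
        rw [← Real.log_mul hm.ne' hzx.ne']
        refine Real.log_le_log (norm_pos_iff.mpr hbx) (hx2.trans ?_)
        exact mul_le_mul_of_nonneg_right (le_max_left _ _) hzx.le
      rw [le_div_iff₀ hε] at hx1
      show v x + (1 + ε) * Real.log ‖b x‖ ≤ a
      have h8 : (1 + ε) * Real.log ‖b x‖ ≤
          (1 + ε) * (Real.log (max C' 1) + Real.log ‖e x - e z‖) :=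
        mul_le_mul_of_nonneg_left h7 (by linarith)
      nlinarith
    · have hbz : b z = 0 := by
        rcases hzZ with h | h
        · exact absurd h hzq
        · exact h
      have h1 : ∀ᶠ x in 𝓝 z, v x < v z + 1 :=
        (hv.sub.cont.continuousAt ((hYo.sdiff isClosed_singleton).mem_nhds
          ⟨hz, hzq⟩)).eventually_lt_const (by linarith)
      have h2 : ∀ᶠ x in 𝓝 z, ‖b x‖ < Real.exp ((a - v z - 1) / (1 + ε)) := by
        have hc := (hb z hz).1.norm
        refine hc.eventually_lt_const ?_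
        beta_reduce
        rw [hbz, norm_zero]
        exact Real.exp_pos _
      refine nhdsWithin_le_nhds ?_
      filter_upwards [h1, h2] with x hx1 hx2 hxZ
      have hbx : b x ≠ 0 := fun h => hxZ (Or.inr h)
      have h3 : Real.log ‖b x‖ < (a - v z - 1) / (1 + ε) := by
        rw [← Real.log_exp ((a - v z - 1) / (1 + ε))]
        exact Real.log_lt_log (norm_pos_iff.mpr hbx) hx2
      rw [lt_div_iff₀ (by linarith)] at h3
      show v x + (1 + ε) * Real.log ‖b x‖ ≤ a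
      nlinarith)
  have hFc : ∀ x ∈ Y, ContinuousAt F x := fun x hx => hF1.cont.continuousAt (hYo.mem_nhds hx)
  have hpZ : p ∉ Z := by
    rintro (h | h)
    · exact hpq h
    · exact hbp h
  by_cases hpK : p ∈ Kv
  · have hle := SubOn.le_of_compact hYo hF1 hKc (fun h => hYn (univ_subset_iff.mp (h ▸ hKY)))
      (hF1.cont.mono hKY) (C := a) (by
      rintro x hx (h | h)
      · exact absurd (hKY hx) h
      · refine le_of_frontier (hFc x (hKY hx)) h ?_
        filter_upwards [hYo.mem_nhds (hKY hx)] with y hy hyK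
        by_cases hyZ : y ∈ Z
        · rw [hF3 y hyZ]
        · rw [hF2 y hyZ]
          refine max_le ?_ le_rfl
          show v y + (1 + ε) * Real.log ‖b y‖ ≤ a
          rw [hK y hyK]
          nlinarith [hlog y hy]) p hpK
    rw [hF2 p hpZ] at hle
    have := (le_max_left _ _).trans hle
    linarith
  · have h1 : w p ≤ 0 := by
      show v p + (1 + ε) * Real.log ‖b p‖ ≤ 0
      rw [hK p hpK]
      nlinarith [hlog p hp]
    linarith

/-- the basic member of the family -/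
theorem GFam.exists_base [T2Space X] {Y : Set X} {q : X}
    {e : OpenPartialHomeomorph X ℂ} (he : e ∈ RS.atlas (X := X))
    (hq : q ∈ e.source) {r₀ : ℝ} (hr₀ : 0 < r₀)
    (hT : Metric.closedBall (e q) r₀ ⊆ e.target)
    (hDY : e.symm '' Metric.closedBall (e q) r₀ ⊆ Y) :
    ∃ v : X → ℝ, GFam Y q e v ∧ ∀ x ∈ e.source, ‖e x - e q‖ ≤ r₀ →
      v x = Real.log r₀ - Real.log ‖e x - e q‖ := by
  classical
  have hDc : IsCompact (e.symm '' Metric.closedBall (e q) r₀) :=
    (isCompact_closedBall _ r₀).image_of_continuousOn (e.continuousOn_symm.mono hT)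
  set v : X → ℝ := fun x => if x ∈ e.symm '' Metric.closedBall (e q) r₀ then
    Real.log r₀ - Real.log ‖e x - e q‖ else 0 with hv
  have hvin : ∀ x ∈ e.source, ‖e x - e q‖ ≤ r₀ → v x = Real.log r₀ - Real.log ‖e x - e q‖ :=
    fun x hx hxr => if_pos ((mem_closedDisc hT).mpr ⟨hx, hxr⟩)
  have hvout : ∀ x ∉ e.symm '' Metric.closedBall (e q) r₀, v x = 0 := fun x hx => if_neg hx
  refine ⟨v, ⟨?_, ?_, ⟨_, hDc, hDY, hvout⟩, Real.log r₀, ?_⟩, hvin⟩
  · refine SubOn.of_local fun p hp => ?_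
    by_cases hps : p ∈ e.source
    · have hO : IsOpen (e.source \ {q}) := e.open_source.sdiff isClosed_singleton
      refine ⟨e.source \ {q}, hO.mem_nhds ⟨hps, hp.2⟩,
        fun x => max (Real.log r₀ + -1 * Real.log ‖e x - e q‖) 0, ?_, ?_⟩
      · refine SubOn.max hO (SubOn.of_harm fun x hx => ?_) (subOn_const 0 _)
        exact (harmAt_const _ _).add ((harmAt_log_chart he hq hx.1 hx.2).const_mul _)
      · intro x hx
        have hzx : 0 < ‖e x - e q‖ :=
          norm_pos_iff.mpr (sub_ne_zero.mpr fun h => hx.2 (e.injOn hx.1 hq h))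
        show v x = max (Real.log r₀ + -1 * Real.log ‖e x - e q‖) 0
        by_cases hxr : ‖e x - e q‖ ≤ r₀
        · rw [hvin x hx.1 hxr, max_eq_left]
          · ring
          · have := Real.log_le_log hzx hxr
            linarith
        · rw [hvout x (fun h => hxr ((mem_closedDisc hT).mp h).2), max_eq_right]
          have := Real.log_le_log hr₀ (not_le.mp hxr).le
          linarith
    · refine ⟨(e.symm '' Metric.closedBall (e q) r₀)ᶜ, hDc.isClosed.isOpen_compl.mem_nhds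
        (fun h => hps ((mem_closedDisc hT).mp h).1), fun _ => 0, subOn_const 0 _, ?_⟩
      intro x hx
      exact hvout x hx
  · intro x hx
    by_cases hxD : x ∈ e.symm '' Metric.closedBall (e q) r₀
    · obtain ⟨h1, h2⟩ := (mem_closedDisc hT).mp hxD
      rw [hvin x h1 h2]
      have hzx : 0 < ‖e x - e q‖ :=
        norm_pos_iff.mpr (sub_ne_zero.mpr fun h => hx.2 (e.injOn h1 hq h))
      have := Real.log_le_log hzx h2
      linarith
    · rw [hvout x hxD]
  · have hopen : IsOpen (e.symm '' Metric.ball (e q) r₀) :=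
      e.symm.isOpen_image_of_subset_source Metric.isOpen_ball
        (Metric.ball_subset_closedBall.trans hT)
    refine nhdsWithin_le_nhds ?_
    filter_upwards [hopen.mem_nhds ⟨e q, Metric.mem_ball_self hr₀, e.left_inv hq⟩] with x hx
    obtain ⟨h1, h2⟩ := (mem_closedDisc hT).mp (image_mono Metric.ball_subset_closedBall hx)
    rw [hvin x h1 h2]

/-- Two charts at `q`: the quotient of the coordinates has no zero. -/
theorem exists_chart_quotient {e e' : OpenPartialHomeomorph X ℂ} (he : e ∈ RS.atlas (X := X))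
    (he' : e' ∈ RS.atlas (X := X)) {q : X} (hq : q ∈ e.source) (hq' : q ∈ e'.source) :
    ∃ h : X → ℂ, HolAt h q ∧ h q ≠ 0 ∧ ∀ᶠ x in 𝓝 q, e' x - e' q = (e x - e q) * h x := by
  have hT := RS.compat' he he' hq hq'
  set T : ℂ → ℂ := fun w => e' (e.symm w) with hTdef
  have hTq : T (e q) = e' q := by simp only [hTdef, e.left_inv hq]
  obtain ⟨s, hs, hsd⟩ : ∃ s ∈ 𝓝 (e q), DifferentiableOn ℂ T s := by
    have h1 := Complex.analyticAt_iff_eventually_differentiableAt.mp hT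
    exact ⟨_, h1, fun z hz => hz.differentiableWithinAt⟩
  have hds : DifferentiableOn ℂ (dslope T (e q)) s := (Complex.differentiableOn_dslope hs).mpr hsd
  have hda : AnalyticAt ℂ (dslope T (e q)) (e q) := hds.analyticAt hs
  have hd0 : dslope T (e q) (e q) ≠ 0 := by
    rw [dslope_same]
    refine deriv_ne_zero_of_injOn hT (U := e.target ∩ e.symm ⁻¹' e'.source) ?_ ?_
    · exact inter_mem (e.open_target.mem_nhds (e.map_source hq))
        ((tendsto_symm hq) (e'.open_source.mem_nhds hq'))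
    · rintro z ⟨hz, hz'⟩ w ⟨hw, hw'⟩ hzw
      have h2 := e'.injOn hz' hw' hzw
      rw [← e.right_inv hz, ← e.right_inv hw, h2]
  refine ⟨fun x => dslope T (e q) (e x), ?_, hd0, ?_⟩
  · exact HolAt.comp_analyticAt (g := dslope T (e q)) hda (holAt_chart he hq)
  · filter_upwards [e.open_source.mem_nhds hq] with x hx
    have h3 := sub_smul_dslope T (e q) (e x)
    rw [smul_eq_mul, hTq] at h3
    rw [h3]
    simp only [hTdef, e.left_inv hx]

theorem exists_green {X : Type} [TopologicalSpace X] [T2Space X] [PreconnectedSpace X] [RS X] (Y : Set X)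
    (hYo : IsOpen Y) (hYc : IsConnected Y) (hne : (frontier Y).Nonempty)
    (hbd : ∀ x ∈ frontier Y, ∃ β : ℂ → X, ∃ r > 0, (∀ s ∈ Metric.ball (0 : ℂ) r, HolAt β s) ∧
      InjOn β (Metric.ball 0 r) ∧ β 0 = x ∧ ∀ s ∈ Metric.ball (0 : ℂ) r, (β s ∈ Y ↔ 0 < s.im))
    (q : X) (hq : q ∈ Y) :
    ∃ G : X → ℝ, (∀ p ∈ Y, p ≠ q → HarmAt G p) ∧ (∀ p ∈ Y, p ≠ q → 0 < G p) ∧
      (∀ e ∈ RS.atlas (X := X), q ∈ e.source → ∃ H : X → ℝ, HarmAt H q ∧
        ∀ᶠ p in 𝓝[≠] q, G p = H p - Real.log ‖e p - e q‖) ∧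
      (∀ x ∈ frontier Y, Tendsto G (𝓝[Y] x) (𝓝 0)) ∧
      (∀ b : X → ℂ, (∀ p ∈ Y, HolAt b p) → (∀ p ∈ Y, ‖b p‖ < 1) → b q = 0 →
        ∀ p ∈ Y, p ≠ q → ‖b p‖ ≤ Real.exp (- G p)) := by
  obtain ⟨e, he, hqs⟩ := RS.exists_chart q
  obtain ⟨r₀, hr₀, hT, hDY, -, -⟩ := exists_disc (hYo.mem_nhds hq) hqs
  have hYn : Y ≠ univ := by
    rintro rfl
    simp at hne
  set c := e q with hc
  set r₁ := r₀ / 2 with hr₁def
  have hr₁ : 0 < r₁ := by positivity
  have hr₁₀ : r₁ < r₀ := by linarith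
  have hT1 : Metric.closedBall c r₁ ⊆ e.target :=
    (Metric.closedBall_subset_closedBall hr₁₀.le).trans hT
  set D : Set X := e.symm '' Metric.closedBall c r₁ with hD
  have hDc : IsCompact D :=
    (isCompact_closedBall _ r₁).image_of_continuousOn (e.continuousOn_symm.mono hT1)
  have hqD : q ∈ D := ⟨c, Metric.mem_closedBall_self hr₁.le, e.left_inv hqs⟩
  have hTb : Metric.ball c r₀ ⊆ e.target := Metric.ball_subset_closedBall.trans hT
  have hopen0 : IsOpen (e.symm '' Metric.ball c r₀) :=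
    e.symm.isOpen_image_of_subset_source Metric.isOpen_ball hTb
  have hqB : q ∈ e.symm '' Metric.ball c r₀ := ⟨c, Metric.mem_ball_self hr₀, e.left_inv hqs⟩
  have hDY1 : D ⊆ Y := (image_mono (Metric.closedBall_subset_closedBall hr₁₀.le)).trans hDY
  have hconn : IsPreconnected (Y \ D) := by
    refine isPreconnected_diff_disc hYc.isPreconnected hDc.isClosed hopen0
      (image_mono (Metric.closedBall_subset_ball hr₁₀))
      ((image_mono Metric.ball_subset_closedBall).trans hDY) ?_ ⟨q, hqD⟩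
    have hinj : InjOn e.symm (Metric.closedBall c r₀) := e.symm.injOn.mono hT
    have heq : e.symm '' Metric.ball c r₀ \ D =
        e.symm '' (Metric.ball c r₀ \ Metric.closedBall c r₁) := by
      ext x
      constructor
      · rintro ⟨⟨z, hz, rfl⟩, hx⟩
        exact ⟨z, ⟨hz, fun h => hx ⟨z, h, rfl⟩⟩, rfl⟩
      · rintro ⟨z, ⟨hz, hz'⟩, rfl⟩
        refine ⟨⟨z, hz, rfl⟩, ?_⟩
        rintro ⟨z', hz'', hzz⟩
        have := hinj (Metric.closedBall_subset_closedBall hr₁₀.le hz'')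
          (Metric.ball_subset_closedBall hz) hzz
        exact hz' (this ▸ hz'')
    rw [heq]
    exact (isPreconnected_ring c hr₁ r₀).image _
      ((e.continuousOn_symm.mono hTb).mono sdiff_subset)
  -- the sphere of radius r₀
  set S : Set X := e.symm '' Metric.sphere c r₀ with hS
  have hSc : IsCompact S := (isCompact_sphere c r₀).image_of_continuousOn
    (e.continuousOn_symm.mono (Metric.sphere_subset_closedBall.trans hT))
  have hSY : S ⊆ Y \ D := by
    rintro _ ⟨z, hz, rfl⟩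
    refine ⟨hDY ⟨z, Metric.sphere_subset_closedBall hz, rfl⟩, ?_⟩
    intro h
    have h1 := ((mem_closedDisc hT1).mp h).2
    rw [e.right_inv (hT (Metric.sphere_subset_closedBall hz)), ← dist_eq_norm,
      Metric.mem_sphere.mp hz] at h1
    linarith
  have hfr : ∀ x ∈ frontier Y, x ∉ Y ∧ x ∉ D ∧ x ∈ closure Y := by
    intro x hx
    have h1 : x ∉ Y := by
      intro h
      exact hx.2 (by rwa [hYo.interior_eq])
    exact ⟨h1, fun h => h1 (hDY1 h), hx.1⟩
  -- theta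
  obtain ⟨θ, hθ0, hθ1, hθ⟩ : ∃ θ : ℝ, 0 ≤ θ ∧ θ < 1 ∧ ∀ w : X → ℝ, SubOn w (Y \ D) →
      (∀ x ∈ Y \ D, 0 ≤ w x) → (∀ x ∈ Y \ D, w x ≤ 1) →
      (∃ K, IsCompact K ∧ K ⊆ Y ∧ ∀ y ∉ K, w y = 0) → ∀ x ∈ S, w x ≤ θ := by
    obtain ⟨x₀, hx₀⟩ := hne
    obtain ⟨β, r, hr, hβ1, hβ2, hβ3, hβ4⟩ := hbd x₀ hx₀
    obtain ⟨b, hb1, hb2⟩ := exists_barrier hYo hr hβ1 hβ2 hβ3 hβ4 hDc.isClosed (hfr x₀ hx₀).2.1
    exact exists_theta hYo hDc.isClosed ⟨q, hqD⟩ hconn hSc hSY (hfr x₀ hx₀).2.2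
      (hfr x₀ hx₀).2.1 hb1 hb2
  set L : ℝ := Real.log r₀ - Real.log r₁ with hL
  have hLpos : 0 < L := sub_pos.mpr (Real.log_lt_log hr₁ hr₁₀)
  set M₀ : ℝ := L / (1 - θ) with hM₀
  have hM₀pos : 0 ≤ M₀ := div_nonneg hLpos.le (by linarith)
  have hDqsub : Y \ D ⊆ Y \ {q} := by
    rintro x ⟨hx, hx'⟩
    refine ⟨hx, ?_⟩
    rintro rfl
    exact hx' hqD
  -- bounds
  have hkey : ∀ v : X → ℝ, GFam Y q e v → (∀ x ∈ Y \ D, v x ≤ M₀) ∧
      ∀ x ∈ e.source, ‖e x - e q‖ ≤ r₀ → x ≠ q →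
        v x ≤ θ * M₀ + (Real.log r₀ - Real.log ‖e x - e q‖) := by
    intro v hv
    have hS1c : IsCompact (e.symm '' Metric.sphere c r₁) :=
      (isCompact_sphere c r₁).image_of_continuousOn
        (e.continuousOn_symm.mono (Metric.sphere_subset_closedBall.trans hT1))
    have hS1n : (e.symm '' Metric.sphere c r₁).Nonempty :=
      (NormedSpace.sphere_nonempty.mpr hr₁.le).image _
    have hS1Y : e.symm '' Metric.sphere c r₁ ⊆ Y \ {q} := by
      rintro _ ⟨z, hz, rfl⟩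
      refine ⟨hDY1 ⟨z, Metric.sphere_subset_closedBall hz, rfl⟩, ?_⟩
      intro h
      rw [mem_singleton_iff] at h
      have h2 : z = c := by
        rw [← e.right_inv (hT1 (Metric.sphere_subset_closedBall hz)), h]
      rw [h2, Metric.mem_sphere, dist_self] at hz
      exact hr₁.ne hz
    obtain ⟨m, hm, hmax⟩ := hS1c.exists_isMaxOn hS1n (hv.sub.cont.mono hS1Y)
    have hM0 : 0 ≤ v m := hv.nonneg m (hS1Y hm)
    have hMs : ∀ x ∈ e.source, ‖e x - e q‖ = r₁ → v x ≤ v m := by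
      intro x hx hxr
      refine hmax ⟨e x, ?_, e.left_inv hx⟩
      rw [Metric.mem_sphere, dist_eq_norm]
      exact hxr
    have hout := hv.le_out hYo hqs hr₁ hT1 hM0 hMs
    have hSle : ∀ x ∈ e.source, ‖e x - e q‖ = r₀ → v x ≤ θ * v m := by
      intro x hx hxr
      have hxS : x ∈ S := by
        refine ⟨e x, ?_, e.left_inv hx⟩
        rw [Metric.mem_sphere, dist_eq_norm]
        exact hxr
      rcases hM0.eq_or_lt with h0 | h0
      · rw [← h0, mul_zero]
        have := hout x (hSY hxS)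
        rwa [← h0] at this
      · have h1 := hθ (fun x => (v m)⁻¹ * v x)
          (subOn_constMul (hv.sub.mono hDqsub) (inv_nonneg.mpr hM0))
          (fun y hy => mul_nonneg (inv_nonneg.mpr hM0) (hv.nonneg y (hDqsub hy)))
          (fun y hy => by
            rw [inv_mul_le_iff₀ h0, mul_one]
            exact hout y hy)
          (by
            obtain ⟨K, h1, h2, h3⟩ := hv.supp
            exact ⟨K, h1, h2, fun y hy => by rw [h3 y hy, mul_zero]⟩) x hxS
        rw [inv_mul_le_iff₀ h0] at h1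
        linarith
    have hdisc := hv.le_disc hYo hYn he hqs hr₀ hT hDY hSle
    obtain ⟨hms, hmr⟩ : m ∈ e.source ∧ ‖e m - e q‖ = r₁ := by
      obtain ⟨z, hz, rfl⟩ := hm
      refine ⟨e.map_target (hT1 (Metric.sphere_subset_closedBall hz)), ?_⟩
      rw [e.right_inv (hT1 (Metric.sphere_subset_closedBall hz)), ← dist_eq_norm]
      exact hz
    have h2 := hdisc m hms (by rw [hmr]; exact hr₁₀.le) (hS1Y hm).2
    rw [hmr] at h2
    have hmM : v m ≤ M₀ := by
      rw [hM₀, le_div_iff₀ (by linarith)]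
      have : L = Real.log r₀ - Real.log r₁ := rfl
      nlinarith
    refine ⟨fun x hx => (hout x hx).trans hmM, fun x hx hxr hxq => ?_⟩
    have h3 := hdisc x hx hxr hxq
    have h4 : θ * v m ≤ θ * M₀ := mul_le_mul_of_nonneg_left hmM hθ0
    linarith
  obtain ⟨v₀, hv₀, hv₀e⟩ := GFam.exists_base he hqs hr₀ hT hDY
  set 𝓥 : Set (X → ℝ) := {v | GFam Y q e v} with h𝓥
  have hne𝓥 : 𝓥.Nonempty := ⟨v₀, hv₀⟩
  set G : X → ℝ := fun x => sSup ((fun v : X → ℝ => v x) '' 𝓥) with hG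
  have hWo : IsOpen (Y \ {q}) := hYo.sdiff isClosed_singleton
  have hzpos : ∀ x ∈ e.source, x ≠ q → 0 < ‖e x - e q‖ := fun x hx hxq =>
    norm_pos_iff.mpr (sub_ne_zero.mpr fun h => hxq (e.injOn hx hqs h))
  have hlocbd : ∀ p ∈ Y \ {q}, ∃ U ∈ 𝓝 p, ∃ M : ℝ, ∀ v ∈ 𝓥, ∀ x ∈ U, v x ≤ M := by
    intro p hp
    by_cases hpD : p ∈ D
    · obtain ⟨hps, hpr⟩ := (mem_closedDisc hT1).mp hpD
      have hzp := hzpos p hps hp.2
      have h1 : ∀ᶠ x in 𝓝 p, ‖e p - e q‖ / 2 < ‖e x - e q‖ := by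
        have h2 : ContinuousAt (fun x => ‖e x - e q‖) p :=
          ((e.continuousAt hps).sub continuousAt_const).norm
        exact h2.eventually_const_lt (by linarith)
      have h2 : ∀ᶠ x in 𝓝 p, x ∈ e.symm '' Metric.ball c r₀ := by
        refine hopen0.mem_nhds ?_
        exact (mem_openDisc hTb).mpr ⟨hps, lt_of_le_of_lt hpr hr₁₀⟩
      refine ⟨_, h1.and h2, θ * M₀ + (Real.log r₀ - Real.log (‖e p - e q‖ / 2)), ?_⟩
      rintro v hv x ⟨hx1, hx2⟩
      obtain ⟨hxs, hxr⟩ := (mem_openDisc hTb).mp hx2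
      have hxq : x ≠ q := by
        rintro rfl
        rw [sub_self, norm_zero] at hx1
        linarith
      have h3 := (hkey v hv).2 x hxs hxr.le hxq
      have h4 : Real.log (‖e p - e q‖ / 2) ≤ Real.log ‖e x - e q‖ :=
        Real.log_le_log (by positivity) hx1.le
      linarith
    · exact ⟨Y \ D, (hYo.sdiff hDc.isClosed).mem_nhds ⟨hp.1, hpD⟩, M₀,
        fun v hv x hx => (hkey v hv).1 x hx⟩
  have hbdd : ∀ x ∈ Y \ {q}, BddAbove ((fun v : X → ℝ => v x) '' 𝓥) := by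
    intro x hx
    obtain ⟨U, hU, M, hM⟩ := hlocbd x hx
    refine ⟨M, ?_⟩
    rintro _ ⟨v, hv, rfl⟩
    exact hM v hv x (mem_of_mem_nhds hU)
  have hleG : ∀ v ∈ 𝓥, ∀ x ∈ Y \ {q}, v x ≤ G x := fun v hv x hx =>
    le_csSup (hbdd x hx) ⟨v, hv, rfl⟩
  have hGle : ∀ x : X, ∀ M : ℝ, (∀ v ∈ 𝓥, v x ≤ M) → G x ≤ M := by
    intro x M h
    refine csSup_le ⟨_, v₀, hv₀, rfl⟩ ?_
    rintro _ ⟨v, hv, rfl⟩
    exact h v hv
  have hGh : ∀ p ∈ Y \ {q}, HarmAt G p := by
    refine perron hWo 𝓥 hne𝓥 (fun v hv => hv.sub) (fun u hu v hv => hu.sup hYo hv) ?_ hlocbd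
    intro v hv e' he' c' r' hr' h1 h2 v' hv' hge hoff hharm
    exact GFam.poisson hv h1 h2 hv' hge hoff
  have hG0 : ∀ x ∈ Y \ {q}, 0 ≤ G x := fun x hx => (hv₀.nonneg x hx).trans (hleG v₀ hv₀ x hx)
  have hpreY : IsPreconnected (Y \ {q}) := isPreconnected_diff_singleton hYo hYc.isPreconnected q
  have hGpos : ∀ p ∈ Y \ {q}, 0 < G p := by
    intro p hp
    by_contra hcon
    have h0 : G p = 0 := le_antisymm (not_lt.mp hcon) (hG0 p hp)
    have h1 := HarmAt.eqOn_of_max hpreY hWo (fun x hx => (hGh x hx).neg) hp (fun x hx => by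
      rw [h0, neg_zero]; exact neg_nonpos.mpr (hG0 x hx))
    have h2 : ∀ᶠ x in 𝓝[≠] q, x ∈ e.symm '' Metric.ball c r₀ :=
      nhdsWithin_le_nhds (hopen0.mem_nhds hqB)
    have h3 : ∀ᶠ x in 𝓝[≠] q, x ∈ Y := nhdsWithin_le_nhds (hYo.mem_nhds hq)
    have h4 : ∀ᶠ x in 𝓝[≠] q, x ≠ q := self_mem_nhdsWithin
    obtain ⟨x, hx2, hx3, hx4⟩ := (h2.and (h3.and h4)).exists
    obtain ⟨hxs, hxr⟩ := (mem_openDisc hTb).mp hx2
    have h5 := hleG v₀ hv₀ x ⟨hx3, hx4⟩
    rw [hv₀e x hxs hxr.le] at h5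
    have h6 := Real.log_lt_log (hzpos x hxs hx4) hxr
    have h7 := h1 x ⟨hx3, hx4⟩
    rw [h0] at h7
    simp only [neg_zero, neg_eq_zero] at h7
    rw [h7] at h5
    linarith
  -- the singularity in the chart e
  obtain ⟨H, hH, hHe⟩ : ∃ H : X → ℝ, HarmAt H q ∧
      ∀ᶠ p in 𝓝[≠] q, G p = H p - Real.log ‖e p - e q‖ := by
    set u : ℂ → ℝ := fun z => G (e.symm z) + Real.log ‖e (e.symm z) - e q‖ with hu
    have hzY : ∀ z ∈ Metric.ball c r₀, z ≠ c → e.symm z ∈ Y \ {q} ∧ e.symm z ∈ e.source ∧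
        e (e.symm z) = z := by
      intro z hz hzc
      have h1 := e.right_inv (hTb hz)
      refine ⟨⟨hDY ⟨z, Metric.ball_subset_closedBall hz, rfl⟩, ?_⟩, e.map_target (hTb hz), h1⟩
      intro h
      rw [mem_singleton_iff] at h
      apply hzc
      rw [← h1, h]
    obtain ⟨vv, hvv1, hvv2⟩ := harmonic_removable (u := u) (c := c) hr₀ (by
      intro z hz hzc
      obtain ⟨h1, h2, h3⟩ := hzY z hz hzc
      have h4 : HarmAt (fun x => G x + Real.log ‖e x - e q‖) (e.symm z) :=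
        (hGh _ h1).add (harmAt_log_chart he hqs h2 h1.2)
      have h5 := (harmAt_iff_chart he h2).mp h4
      rwa [h3] at h5) (by
      refine ⟨|Real.log r₀| + θ * M₀, fun z hz hzc => ?_⟩
      obtain ⟨h1, h2, h3⟩ := hzY z hz hzc
      have hn : ‖e (e.symm z) - e q‖ ≤ r₀ := by
        rw [h3, ← dist_eq_norm]
        exact (Metric.mem_ball.mp hz).le
      have h4 := hleG v₀ hv₀ _ h1
      rw [hv₀e _ h2 hn] at h4
      have h5 : G (e.symm z) ≤ θ * M₀ + (Real.log r₀ - Real.log ‖e (e.symm z) - e q‖) :=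
        hGle _ _ fun v hv => (hkey v hv).2 _ h2 hn h1.2
      have h6 : 0 ≤ θ * M₀ := mul_nonneg hθ0 hM₀pos
      show |G (e.symm z) + Real.log ‖e (e.symm z) - e q‖| ≤ |Real.log r₀| + θ * M₀
      rw [abs_le]
      constructor
      · have := neg_abs_le (Real.log r₀)
        linarith
      · have := le_abs_self (Real.log r₀)
        linarith)
    refine ⟨fun x => vv (e x), ?_, ?_⟩
    · have h1 : HarmAt vv (e q) := by
        rw [harmAt_iff_chart (X := ℂ) (e := OpenPartialHomeomorph.refl ℂ) rfl (by simp)]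
        exact hvv1 c (Metric.mem_ball_self hr₀)
      exact h1.comp (holAt_chart he hqs)
    · have h2 : ∀ᶠ x in 𝓝[≠] q, x ∈ e.symm '' Metric.ball c r₀ :=
        nhdsWithin_le_nhds (hopen0.mem_nhds hqB)
      filter_upwards [h2, self_mem_nhdsWithin] with x hx2 hxq
      obtain ⟨hxs, hxr⟩ := (mem_openDisc hTb).mp hx2
      have h3 := hvv2 (e x) (by rw [Metric.mem_ball, dist_eq_norm]; exact hxr)
        (fun h => hxq (e.injOn hxs hqs h))
      show G x = vv (e x) - Real.log ‖e x - e q‖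
      rw [h3, hu]
      simp only [e.left_inv hxs]
      ring
  refine ⟨G, fun p hp hpq => hGh p ⟨hp, hpq⟩, fun p hp hpq => hGpos p ⟨hp, hpq⟩, ?_, ?_, ?_⟩
  · intro e' he' hq'
    obtain ⟨h, hh1, hh2, hh3⟩ := exists_chart_quotient he he' hqs hq'
    refine ⟨fun x => H x + Real.log ‖h x‖, hH.add (harmAt_log_norm hh1 hh2), ?_⟩
    have h4 : ∀ᶠ x in 𝓝 q, h x ≠ 0 := hh1.1.eventually_ne hh2
    filter_upwards [hHe, nhdsWithin_le_nhds hh3, nhdsWithin_le_nhds h4,
      nhdsWithin_le_nhds (e.open_source.mem_nhds hqs), self_mem_nhdsWithin] with x hx1 hx2 hx3 hx4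
      hx5
    rw [hx1, hx2, norm_mul, Real.log_mul (hzpos x hx4 hx5).ne' (norm_ne_zero_iff.mpr hx3)]
    ring
  · intro x hx
    obtain ⟨β, r, hr, hβ1, hβ2, hβ3, hβ4⟩ := hbd x hx
    obtain ⟨b, hb1, hb2⟩ := exists_barrier hYo hr hβ1 hβ2 hβ3 hβ4 hDc.isClosed (hfr x hx).2.1
    have h1 : ∀ᶠ y in 𝓝[Y] x, y ∈ Y := self_mem_nhdsWithin
    have h2 : ∀ᶠ y in 𝓝[Y] x, y ∉ D :=
      nhdsWithin_le_nhds (hDc.isClosed.isOpen_compl.mem_nhds (hfr x hx).2.1)
    have h3 : Tendsto (fun y => M₀ * b y) (𝓝[Y] x) (𝓝 0) := by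
      have := (hb1.mono_left (nhdsWithin_le_nhds (s := Y))).const_mul M₀
      rwa [mul_zero] at this
    refine squeeze_zero' ?_ ?_ h3
    · filter_upwards [h1, h2] with y hy1 hy2
      exact hG0 y (hDqsub ⟨hy1, hy2⟩)
    · filter_upwards [h1, nhdsWithin_le_nhds hb2] with y hy1 hy2
      refine hGle y _ fun v hv => ?_
      exact hy2 v M₀ hM₀pos (hv.sub.mono hDqsub) (hkey v hv).1 hv.supp hy1
  · intro b hb hb1 hbq p hp hpq
    by_cases hbp : b p = 0
    · rw [hbp, norm_zero]; exact (Real.exp_pos _).le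
    · have h1 : G p ≤ - Real.log ‖b p‖ :=
        hGle p _ fun v hv => GFam.le_log hYo hYn he hqs hv hb hb1 hbq hq hp hpq hbp
      rw [← Real.exp_log (norm_pos_iff.mpr hbp)]
      exact Real.exp_le_exp.mpr (by linarith)

end Green

end Pool.Agent.Lib.MP_1f4a82_an
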