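import Pool.Agent.Lib.MP_1f4a82_an.LineLemmas
import Pool.Agent.Lib.MP_1f4a82_an.Green
import Pool.Agent.Lib.MP_1f4a82_an.Coboundary

/-!
The sphere valued map `φ` with `|φ| = exp (- G)` attached to a Green function of one side of a
line in a simply connected Riemann surface.
-/

open Topology Filter Set

namespace Pool.Agent.Lib.MP_1f4a82_an

variable {X : Type} [TopologicalSpace X] [RS X]

/-- A holomorphic function of modulus one is locally constant. -/
theorem HolAt.eventually_const_of_norm {f : X → ℂ} {p : X} {c : ℝ} (hf : HolAt f p)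
    (h : ∀ᶠ x in 𝓝 p, ‖f x‖ = c) : ∀ᶠ x in 𝓝 p, f x = f p := by
  by_contra hc
  have h1 := hf.map_nhds hc
  have h2 : ∀ᶠ w in 𝓝 (f p), ‖w‖ = c := by
    rw [← h1]; exact h
  have h3 : ∀ᶠ t : ℝ in 𝓝 1, ‖(t : ℂ) * f p‖ = c := by
    have hcont : Tendsto (fun t : ℝ => (t : ℂ) * f p) (𝓝 1) (𝓝 (f p)) := by
      have : Continuous fun t : ℝ => (t : ℂ) * f p := by fun_prop
      simpa using this.tendsto 1
    exact hcont.eventually h2
  have h0 : ‖f p‖ = c := h.self_of_nhds
  by_cases hp : f p = 0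
  · -- then c = 0 and f vanishes near p
    apply hc
    filter_upwards [h] with x hx
    rw [← h0, hp, norm_zero, norm_eq_zero] at hx
    rw [hx, hp]
  · have h4 : ∀ᶠ t : ℝ in 𝓝[≠] 1, ‖(t : ℂ) * f p‖ = c := h3.filter_mono nhdsWithin_le_nhds
    have h5 : ∀ᶠ t : ℝ in 𝓝[≠] 1, t ≠ 1 := self_mem_nhdsWithin
    have h6 : ∀ᶠ t : ℝ in 𝓝[≠] 1, 0 < t :=
      nhdsWithin_le_nhds (isOpen_Ioi.mem_nhds (by simp))
    obtain ⟨t, ht1, ht2, ht3⟩ := (h4.and (h5.and h6)).exists
    rw [norm_mul, Complex.norm_real, Real.norm_eq_abs, abs_of_pos ht3, h0] at ht1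
    have hcpos : 0 < c := by rw [← h0]; exact norm_pos_iff.mpr hp
    apply ht2
    have : t * c = 1 * c := by linarith
    exact mul_right_cancel₀ hcpos.ne' this

theorem valP_invP (x : P) : valP (invP x) = (valP x)⁻¹ := by
  induction x using OnePoint.rec with
  | infty => simp
  | coe z =>
    by_cases hz : z = 0
    · subst hz; simp
    · rw [invP_coe hz, valP_coe, valP_coe]

theorem valP_cjP (x : P) : valP (cjP x) = (starRingEnd ℂ) (valP x) := by
  induction x using OnePoint.rec with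
  | infty => simp
  | coe z => simp

theorem cjP_eq_infty {x : P} : cjP x = OnePoint.infty ↔ x = OnePoint.infty := by
  constructor
  · intro h; rw [← cjP_cjP x, h, cjP_infty]
  · rintro rfl; rfl

theorem coe_valP {x : P} (hx : x ≠ OnePoint.infty) : ((valP x : ℂ) : P) = x := by
  induction x using OnePoint.rec with
  | infty => exact absurd rfl hx
  | coe z => rfl

theorem affP_eq_infty {a b : ℂ} {x : P} : affP a b x = OnePoint.infty ↔ x = OnePoint.infty := by
  induction x using OnePoint.rec with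
  | infty => simp
  | coe z => simp

theorem valP_affP {a b : ℂ} {x : P} (hx : x ≠ OnePoint.infty) :
    valP (affP a b x) = a * valP x + b := by
  induction x using OnePoint.rec with
  | infty => exact absurd rfl hx
  | coe z => simp

/-- Gluing sphere valued holomorphic functions with prescribed modulus on a simply connected
surface. `D` is the logarithm of the modulus (up to sign), `q₀` the only zero, `q₁` the only
pole. -/
theorem exists_glue [T2Space X] [SimplyConnectedSpace X] (D : X → ℝ) (q₀ q₁ : X)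
    (U : X → Set X) (s : X → X → P) (hU : ∀ p, IsOpen (U p)) (hpU : ∀ p, p ∈ U p)
    (hs : ∀ p, ∀ x ∈ U p, HolAt (s p) x)
    (hval : ∀ p, ∀ x ∈ U p, x ≠ q₀ → x ≠ q₁ → s p x ≠ OnePoint.infty ∧
      ‖valP (s p x)‖ = Real.exp (- D x))
    (hq₀ : ∀ p, q₀ ∈ U p → p = q₀) (hq₁ : ∀ p, q₁ ∈ U p → p = q₁) :
    ∃ φ : X → P, (∀ x, HolAt φ x) ∧ (∀ x, ∃ u : ℂ, ‖u‖ = 1 ∧ φ x = affP u 0 (s x x)) := by
  classical
  have hval0 : ∀ p, ∀ x ∈ U p, x ≠ q₀ → x ≠ q₁ → valP (s p x) ≠ 0 := by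
    intro p x hx h0 h1 h
    have := (hval p x hx h0 h1).2
    rw [h, norm_zero] at this
    exact (Real.exp_pos _).ne this
  -- points in two different sets are ordinary
  have hord : ∀ p p', p ≠ p' → ∀ x ∈ U p ∩ U p', x ≠ q₀ ∧ x ≠ q₁ := by
    rintro p p' hpp x ⟨hx, hx'⟩
    constructor
    · rintro rfl
      exact hpp ((hq₀ p hx).trans (hq₀ p' hx').symm)
    · rintro rfl
      exact hpp ((hq₁ p hx).trans (hq₁ p' hx').symm)
  have hnorm : ∀ p p' x, p ≠ p' ∧ x ∈ U p ∩ U p' → valP (s p x) / valP (s p' x) ∈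
      Submonoid.unitSphere ℂ := by
    rintro p p' x ⟨hpp, hx⟩
    obtain ⟨h0, h1⟩ := hord p p' hpp x hx
    rw [Submonoid.unitSphere]
    simp only [Submonoid.mem_mk, Subsemigroup.mem_mk, mem_sphere_zero_iff_norm]
    rw [norm_div, (hval p x hx.1 h0 h1).2, (hval p' x hx.2 h0 h1).2, div_self (Real.exp_pos _).ne']
  let g : X → X → X → Circle := fun p p' x =>
    if h : p ≠ p' ∧ x ∈ U p ∩ U p' then ⟨valP (s p x) / valP (s p' x), hnorm p p' x h⟩ else 1
  have hg1 : ∀ p p' x, p ≠ p' → x ∈ U p ∩ U p' →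
      (g p p' x : ℂ) = valP (s p x) / valP (s p' x) := by
    intro p p' x h1 h2
    have : g p p' x = ⟨valP (s p x) / valP (s p' x), hnorm p p' x ⟨h1, h2⟩⟩ := dif_pos ⟨h1, h2⟩
    rw [this]
  have hg0 : ∀ p x, g p p x = 1 := fun p x => dif_neg (fun h => h.1 rfl)
  obtain ⟨c, hc1, hc2⟩ := exists_coboundary (G := Circle) U hU (fun x => ⟨x, hpU x⟩) g
    (by
      rintro p p' x hx
      by_cases hpp : p = p'
      · subst hpp
        exact Eventually.of_forall fun y => by rw [hg0, hg0]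
      · have hopen : U p ∩ U p' ∈ 𝓝 x := ((hU p).inter (hU p')).mem_nhds hx
        have hhol : HolAt (fun y => valP (s p y) / valP (s p' y)) x := by
          obtain ⟨h0, h1⟩ := hord p p' hpp x hx
          exact HolAt.div ((hs p x hx.1).valP (hval p x hx.1 h0 h1).1)
            ((hs p' x hx.2).valP (hval p' x hx.2 h0 h1).1) (hval0 p' x hx.2 h0 h1)
        have hev := hhol.eventually_const_of_norm (c := 1) (by
          filter_upwards [hopen] with y hy
          have := hnorm p p' y ⟨hpp, hy⟩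
          simpa [Submonoid.unitSphere] using this)
        filter_upwards [hev, hopen] with y hy hy'
        apply Circle.ext
        rw [hg1 p p' y hpp hy', hg1 p p' x hpp hx]
        exact hy)
    (by
      rintro p p' p'' x ⟨⟨hx, hx'⟩, hx''⟩
      by_cases h1 : p = p'
      · subst h1; rw [hg0, one_mul]
      by_cases h2 : p' = p''
      · subst h2; rw [hg0, mul_one]
      obtain ⟨h0, h1'⟩ := hord p p' h1 x ⟨hx, hx'⟩
      by_cases h3 : p = p''
      · subst h3
        apply Circle.ext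
        rw [hg0, Circle.coe_mul, hg1 p p' x h1 ⟨hx, hx'⟩, hg1 p' p x h2 ⟨hx', hx⟩]
        have := hval0 p x hx h0 h1'
        have := hval0 p' x hx' h0 h1'
        simp only [Circle.coe_one]
        field_simp
      · apply Circle.ext
        rw [Circle.coe_mul, hg1 p p' x h1 ⟨hx, hx'⟩, hg1 p' p'' x h2 ⟨hx', hx''⟩,
          hg1 p p'' x h3 ⟨hx, hx''⟩]
        have := hval0 p x hx h0 h1'
        have := hval0 p' x hx' h0 h1'
        have := hval0 p'' x hx'' h0 h1'
        field_simp)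
  -- the glued function
  refine ⟨fun x => affP ((c x x)⁻¹ : Circle) 0 (s x x), ?_, fun x => ⟨((c x x)⁻¹ : Circle),
    Circle.norm_coe _, rfl⟩⟩
  intro p
  have hcne : ((c p p)⁻¹ : Circle) ≠ (0 : ℂ) := Circle.coe_ne_zero _
  have h1 : HolAt (fun x => affP ((c p p)⁻¹ : Circle) 0 (s p x)) p :=
    (holAt_affP hcne 0 _).comp (hs p p (hpU p))
  refine h1.congr ?_
  filter_upwards [hc1 p p (hpU p), (hU p).mem_nhds (hpU p)] with x hx hxU
  by_cases hxp : x = p
  · subst hxp; rfl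
  -- x and p are different, x ∈ U x ∩ U p
  have hxx : x ∈ U x ∩ U p := ⟨hpU x, hxU⟩
  obtain ⟨h0, h1'⟩ := hord x p hxp x hxx
  have e1 := hc2 x p x hxx
  have e2 : (c x x : ℂ) = valP (s x x) / valP (s p x) * (c p p : ℂ) := by
    rw [e1, Circle.coe_mul, hg1 x p x hxp hxx, hx]
  have n1 := hval0 x x (hpU x) h0 h1'
  have n2 := hval0 p x hxU h0 h1'
  have n3 : (c p p : ℂ) ≠ 0 := Circle.coe_ne_zero _
  have f1 := (hval x x (hpU x) h0 h1').1
  have f2 := (hval p x hxU h0 h1').1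
  rw [← coe_valP f1, ← coe_valP f2, affP_coe, affP_coe]
  congr 1
  rw [Circle.coe_inv, Circle.coe_inv, e2]
  field_simp

/-- The map attached to the Green function with pole `q` of the side `Xp`. -/
structure PhiMap (L : Line X) (Xp : Set X) (τ : X → X) (q : X) (φ : X → P) : Prop where
  hol : ∀ x, HolAt φ x
  zero : φ q = ((0 : ℂ) : P)
  fin : ∀ x ∈ Xp, φ x ≠ OnePoint.infty
  lt : ∀ x ∈ Xp, ‖valP (φ x)‖ < 1
  ne : ∀ x ∈ Xp, x ≠ q → valP (φ x) ≠ 0
  one : ∀ x ∈ L.ell, φ x ≠ OnePoint.infty ∧ ‖valP (φ x)‖ = 1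
  sym : ∀ x, φ (τ x) = invP (cjP (φ x))
  min : ∀ b : X → ℂ, (∀ p ∈ Xp, HolAt b p) → (∀ p ∈ Xp, ‖b p‖ < 1) → b q = 0 →
    ∀ p ∈ Xp, ‖b p‖ ≤ ‖valP (φ p)‖

theorem harmAt_iff_plane {u : ℂ → ℝ} {z : ℂ} :
    HarmAt u z ↔ InnerProductSpace.HarmonicAt u z :=
  harmAt_iff_chart (e := OpenPartialHomeomorph.refl ℂ) rfl (by simp)

theorem exists_phi [T2Space X] [SimplyConnectedSpace X] (L : Line X) {τ : X → X}
    (hτ : ∀ p, AntiHolAt τ p) (hττ : ∀ p, τ (τ p) = p)
    (hτγ : ∀ s ∈ strip L.η, τ (L.γ s) = L.γ ((starRingEnd ℂ) s)) {Xp Xm : Set X}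
    (hS : L.Sides Xp Xm) (q : X) (hq : q ∈ Xp) : ∃ φ : X → P, PhiMap L Xp τ q φ := by
  classical
  have hτc : Continuous τ := continuous_iff_continuousAt.mpr fun x => (hτ x).1
  obtain ⟨hpm, hmp, hfix⟩ := hS.swap hτc hττ hτγ
  obtain ⟨G, hG1, hG2, hG3, hG4, hG5⟩ := exists_green Xp hS.open_p hS.conn_p
    (by rw [hS.front_p]; exact ⟨_, 0, rfl⟩)
    (fun x hx => hS.exists_param (by rwa [hS.front_p] at hx)) q hq
  -- the odd extension
  set D : X → ℝ := fun x => if x ∈ Xp then G x else if x ∈ Xm then - G (τ x) else 0 with hD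
  have hDp : ∀ x ∈ Xp, D x = G x := fun x hx => by simp [hD, hx]
  have hDm : ∀ x ∈ Xm, D x = - G (τ x) := fun x hx => by simp [hD, hx, hS.not_mem_p hx]
  have hDl : ∀ x ∈ L.ell, D x = 0 := fun x hx => by
    simp [hD, hS.ell_not_p hx, hS.ell_not_m hx]
  have hDodd : ∀ x, D (τ x) = - D x := by
    intro x
    rcases hS.cases x with hx | hx | hx
    · rw [hDp x hx, hDm _ (hpm x hx), hττ]
    · rw [hDm x hx, hDp _ (hmp x hx), neg_neg]
    · rw [hfix x hx, hDl x hx, neg_zero]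
  have hqm : τ q ∈ Xm := hpm q hq
  have hqq : q ≠ τ q := fun h => hS.not_mem_m hq (by rw [h]; exact hqm)
  have hharm_p : ∀ x ∈ Xp, x ≠ q → HarmAt D x := by
    intro x hx hxq
    refine (hG1 x hx hxq).congr ?_
    filter_upwards [hS.open_p.mem_nhds hx] with y hy
    exact (hDp y hy).symm
  have hharm_m : ∀ x ∈ Xm, x ≠ τ q → HarmAt D x := by
    intro x hx hxq
    have h1 : HarmAt G (τ x) := hG1 _ (hmp x hx) (fun h => hxq (by rw [← h, hττ]))
    refine (h1.comp_anti (hτ x)).neg.congr ?_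
    filter_upwards [hS.open_m.mem_nhds hx] with y hy
    exact (hDm y hy).symm
  have hcont_l : ∀ x ∈ L.ell, ContinuousAt D x := by
    intro x hx
    rw [ContinuousAt, hDl x hx]
    have h1 : Tendsto D (𝓝[Xp] x) (𝓝 0) := by
      refine (hG4 x (by rwa [hS.front_p])).congr' ?_
      filter_upwards [self_mem_nhdsWithin] with y hy
      exact (hDp y hy).symm
    have h2 : Tendsto D (𝓝[Xm] x) (𝓝 0) := by
      have h3 : Tendsto τ (𝓝[Xm] x) (𝓝[Xp] x) := by
        refine tendsto_nhdsWithin_iff.mpr ⟨?_, ?_⟩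
        · have := (hτc.tendsto x).mono_left (nhdsWithin_le_nhds (s := Xm))
          rwa [hfix x hx] at this
        · filter_upwards [self_mem_nhdsWithin] with y hy using hmp y hy
      have h4 := (h1.comp h3).neg
      rw [neg_zero] at h4
      refine h4.congr fun y => ?_
      simp only [Function.comp]
      rw [hDodd, neg_neg]
    have h3 : Tendsto D (𝓝[L.ell] x) (𝓝 0) := by
      refine tendsto_const_nhds.congr' ?_
      filter_upwards [self_mem_nhdsWithin] with y hy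
      exact (hDl y hy).symm
    have h4 : (Xp ∪ Xm) ∪ L.ell = univ := by
      rw [hS.union]; exact compl_union_self _
    rw [← nhdsWithin_univ x, ← h4, nhdsWithin_union, nhdsWithin_union]
    exact (h1.sup h2).sup h3
  have hharm_l : ∀ x ∈ L.ell, HarmAt D x := by
    rintro x ⟨x0, rfl⟩
    have hxell : L.γ (x0 : ℂ) ∈ L.ell := ⟨x0, rfl⟩
    have hxq : L.γ (x0 : ℂ) ≠ q := fun h => hS.ell_not_p hxell (by rw [h]; exact hq)
    have hxq' : L.γ (x0 : ℂ) ≠ τ q := fun h => hS.ell_not_m hxell (by rw [h]; exact hqm)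
    have hx0 : (x0 : ℂ) ∈ Metric.ball (x0 : ℂ) L.rad := Metric.mem_ball_self L.rad_pos
    have hc0 : ContinuousAt L.γ (x0 : ℂ) := (L.holAt hx0).1
    obtain ⟨r, hr, hball⟩ : ∃ r > 0, ∀ s ∈ Metric.ball (x0 : ℂ) r,
        s ∈ Metric.ball (x0 : ℂ) L.rad ∧ L.γ s ≠ q ∧ L.γ s ≠ τ q := by
      have : ∀ᶠ s in 𝓝 (x0 : ℂ), s ∈ Metric.ball (x0 : ℂ) L.rad ∧ L.γ s ≠ q ∧ L.γ s ≠ τ q :=
        Filter.Eventually.and (Metric.isOpen_ball.mem_nhds hx0) ((hc0.eventually_ne hxq).and (hc0.eventually_ne hxq'))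
      obtain ⟨r, hr, h⟩ := Metric.eventually_nhds_iff_ball.mp this
      exact ⟨r, hr, h⟩
    have hst : ∀ s ∈ Metric.ball (x0 : ℂ) r, s ∈ strip L.η := fun s hs =>
      ball_subset_strip L.rad_le (hball s hs).1
    have hcont : ContinuousOn (fun s => D (L.γ s)) (Metric.ball (x0 : ℂ) r) := by
      intro s hs
      have hg : ContinuousAt L.γ s := (L.hol s (hst s hs)).1
      have hDc : ContinuousAt D (L.γ s) := by
        rcases hS.cases (L.γ s) with h | h | h
        · exact (hharm_p _ h (hball s hs).2.1).continuousAt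
        · exact (hharm_m _ h (hball s hs).2.2).continuousAt
        · exact hcont_l _ h
      exact (ContinuousAt.comp' (g := D) hDc hg).continuousWithinAt
    have hharm := harmonic_reflection (u := fun s => D (L.γ s)) hcont
      (fun s hs => by
        rw [← hτγ s (hst s hs), hDodd])
      (fun s hs hs0 => by
        rw [← harmAt_iff_plane]
        exact (hharm_p _ (hS.up s (hst s hs) hs0) (hball s hs).2.1).comp (L.hol s (hst s hs)))
    obtain ⟨g, hg1, hg2⟩ := L.exists_inverse x0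
    have h1 : HarmAt (fun s => D (L.γ s)) (x0 : ℂ) := by
      rw [harmAt_iff_plane]
      exact hharm _ (Metric.mem_ball_self hr)
    have h2 : HarmAt (fun x => D (L.γ (g x))) (L.γ (x0 : ℂ)) := by
      refine HarmAt.comp (u := fun s => D (L.γ s)) (f := g) ?_ (hg2 _ hx0)
      rw [hg1 _ hx0]; exact h1
    refine h2.congr ?_
    have h3 : L.γ '' Metric.ball (x0 : ℂ) L.rad ∈ 𝓝 (L.γ (x0 : ℂ)) :=
      (L.isOpen_image x0 Metric.isOpen_ball subset_rfl).mem_nhds ⟨_, hx0, rfl⟩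
    filter_upwards [h3] with y hy
    obtain ⟨s, hs, rfl⟩ := hy
    rw [hg1 s hs]
  have hharm : ∀ x, x ≠ q → x ≠ τ q → HarmAt D x := by
    intro x h1 h2
    rcases hS.cases x with h | h | h
    · exact hharm_p x h h1
    · exact hharm_m x h h2
    · exact hharm_l x h
  -- local solutions
  obtain ⟨e, he, hqe⟩ := RS.exists_chart q
  obtain ⟨H, hH1, hH2⟩ := hG3 e he hqe
  obtain ⟨Fq, hFq1, hFq2⟩ := hH1
  -- neighbourhood of q
  obtain ⟨W, hWo, hqW, hW⟩ : ∃ W : Set X, IsOpen W ∧ q ∈ W ∧ ∀ x ∈ W, x ∈ Xp ∧ x ∈ e.source ∧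
      HolAt Fq x ∧ H x = (Fq x).re ∧ (x ≠ q → G x = H x - Real.log ‖e x - e q‖) := by
    have h1 : ∀ᶠ x in 𝓝 q, x ∈ Xp ∧ x ∈ e.source ∧ HolAt Fq x ∧ H x = (Fq x).re ∧
        (x ≠ q → G x = H x - Real.log ‖e x - e q‖) := by
      filter_upwards [hS.open_p.mem_nhds hq, e.open_source.mem_nhds hqe, hFq1.eventually, hFq2,
        eventually_nhdsWithin_iff.mp hH2] with x h1 h2 h3 h4 h5
      exact ⟨h1, h2, h3, h4, h5⟩
    obtain ⟨W, hW1, hW2, hW3⟩ := eventually_nhds_iff.mp h1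
    exact ⟨W, hW2, hW3, hW1⟩
  set sq : X → P := fun x => (((e x - e q) * Complex.exp (- Fq x) : ℂ) : P) with hsq
  have hsq_hol : ∀ x ∈ W, HolAt sq x := by
    intro x hx
    obtain ⟨h1, h2, h3, h4, h5⟩ := hW x hx
    exact HolAt.coe (((holAt_chart he h2).sub (holAt_const _ _)).mul (h3.neg.cexp))
  have hsq_val : ∀ x ∈ W, x ≠ q → ‖valP (sq x)‖ = Real.exp (- D x) := by
    intro x hx hxq
    obtain ⟨h1, h2, h3, h4, h5⟩ := hW x hx
    have hne : e x - e q ≠ 0 := sub_ne_zero.mpr fun h => hxq (e.injOn h2 hqe h)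
    rw [hsq, valP_coe, norm_mul, Complex.norm_exp, Complex.neg_re, ← h4, hDp x h1, h5 hxq,
      neg_sub, Real.exp_sub, Real.exp_log (norm_pos_iff.mpr hne), Real.exp_neg, div_eq_mul_inv]
  have key : ∀ p, ∃ (Up : Set X) (sp : X → P), IsOpen Up ∧ p ∈ Up ∧ (∀ x ∈ Up, HolAt sp x) ∧
      (∀ x ∈ Up, x ≠ q → x ≠ τ q → sp x ≠ OnePoint.infty ∧ ‖valP (sp x)‖ = Real.exp (- D x)) ∧
      (q ∈ Up → p = q) ∧ (τ q ∈ Up → p = τ q) ∧ (p = q → sp = sq) ∧
      (p = τ q → sp = fun x => invP (cjP (sq (τ x)))) := by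
    intro p
    by_cases hp1 : p = q
    · subst hp1
      refine ⟨W, sq, hWo, hqW, hsq_hol, fun x hx hx1 _ => ⟨OnePoint.coe_ne_infty _,
        hsq_val x hx hx1⟩, fun _ => rfl, fun h => ?_, fun _ => rfl, fun h => absurd h hqq⟩
      exact absurd (hW _ h).1 (hS.not_mem_p hqm)
    by_cases hp2 : p = τ q
    · subst hp2
      refine ⟨τ ⁻¹' W, fun x => invP (cjP (sq (τ x))), hWo.preimage hτc, ?_, ?_, ?_, ?_, fun _ => rfl,
        fun h => absurd h hqq.symm, fun _ => rfl⟩
      · show τ (τ q) ∈ W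
        rw [hττ]; exact hqW
      · intro x hx
        have h1 : AntiHolAt (fun x => cjP (sq x)) (τ x) :=
          (antiHolAt_cjP _).comp_hol (hsq_hol _ hx)
        exact (holAt_invP _).comp (h1.comp_anti (hτ x))
      · intro x hx hx1 hx2
        have h3 : τ x ≠ q := fun h => hx2 (by rw [← h, hττ])
        have h4 := hsq_val _ hx h3
        have h5 : valP (sq (τ x)) ≠ 0 := by
          intro h6; rw [h6, norm_zero] at h4; exact (Real.exp_pos _).ne h4
        constructor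
        · intro h6
          rw [invP_eq_infty] at h6
          apply h5
          have h7 : valP (cjP (sq (τ x))) = 0 := by rw [h6]; simp
          rw [valP_cjP] at h7
          simpa using h7
        · rw [valP_invP, valP_cjP, norm_inv, Complex.norm_conj, h4, hDodd, neg_neg, ← Real.exp_neg]
      · intro h
        exact absurd (hW _ h).1 (hS.not_mem_p hqm)
    · obtain ⟨F, hF1, hF2⟩ := hharm p hp1 hp2
      have h1 : ∀ᶠ x in 𝓝 p, HolAt F x ∧ D x = (F x).re ∧ x ≠ q ∧ x ≠ τ q := by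
        filter_upwards [hF1.eventually, hF2, isOpen_ne.mem_nhds hp1, isOpen_ne.mem_nhds hp2]
          with x h1 h2 h3 h4 using ⟨h1, h2, h3, h4⟩
      obtain ⟨U, hU1, hU2, hU3⟩ := eventually_nhds_iff.mp h1
      refine ⟨U, fun x => ((Complex.exp (- F x) : ℂ) : P), hU2, hU3, fun x hx => ?_, fun x hx _ _ => ?_,
        fun h => absurd rfl (hU1 q h).2.2.1, fun h => absurd rfl (hU1 _ h).2.2.2,
        fun h => absurd h hp1, fun h => absurd h hp2⟩
      · exact (hU1 x hx).1.neg.cexp.coe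
      · refine ⟨OnePoint.coe_ne_infty _, ?_⟩
        rw [valP_coe, Complex.norm_exp, Complex.neg_re, (hU1 x hx).2.1]
  choose U s k1 k2 k3 k4 k5 k6 k7 k8 using key
  obtain ⟨φ, hφ1, hφ2⟩ := exists_glue D q (τ q) U s k1 k2 k3 k4 k5 k6
  have hsq0 : sq q = ((0 : ℂ) : P) := by simp [hsq]
  -- modulus of φ
  have hfin : ∀ x, x ≠ q → x ≠ τ q → φ x ≠ OnePoint.infty ∧ ‖valP (φ x)‖ = Real.exp (- D x) := by
    intro x h1 h2
    obtain ⟨u, hu, hφu⟩ := hφ2 x
    obtain ⟨h3, h4⟩ := k4 x x (k2 x) h1 h2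
    rw [hφu]
    refine ⟨fun h => h3 (affP_eq_infty.mp h), ?_⟩
    rw [valP_affP h3, add_zero, norm_mul, hu, one_mul, h4]
  have hφq : φ q = ((0 : ℂ) : P) := by
    obtain ⟨u, hu, hφu⟩ := hφ2 q
    rw [hφu, k7 q rfl, hsq0, affP_coe]; simp
  have hφτq : φ (τ q) = OnePoint.infty := by
    obtain ⟨u, hu, hφu⟩ := hφ2 (τ q)
    rw [hφu, k8 _ rfl]
    simp only
    rw [hττ, hsq0]; simp
  have hval : ∀ x, x ≠ q → x ≠ τ q → valP (φ x) ≠ 0 := by
    intro x h1 h2 h
    have := (hfin x h1 h2).2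
    rw [h, norm_zero] at this
    exact (Real.exp_pos _).ne this
  have hell : ∀ x ∈ L.ell, x ≠ q ∧ x ≠ τ q := fun x hx =>
    ⟨fun h => hS.ell_not_p hx (by rw [h]; exact hq), fun h => hS.ell_not_m hx (by rw [h]; exact hqm)⟩
  have hone : ∀ x ∈ L.ell, φ x ≠ OnePoint.infty ∧ ‖valP (φ x)‖ = 1 := by
    intro x hx
    obtain ⟨h1, h2⟩ := hell x hx
    refine ⟨(hfin x h1 h2).1, ?_⟩
    rw [(hfin x h1 h2).2, hDl x hx, neg_zero, Real.exp_zero]
  -- symmetry
  have hψ : ∀ x, HolAt (fun x => invP (cjP (φ (τ x)))) x := by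
    intro x
    have h1 : AntiHolAt (fun x => cjP (φ x)) (τ x) := (antiHolAt_cjP _).comp_hol (hφ1 _)
    exact (holAt_invP _).comp (h1.comp_anti (hτ x))
  have hsym0 : (fun x => invP (cjP (φ (τ x)))) = φ := by
    have hx1 : L.γ (0 : ℂ) ∈ L.ell := ⟨0, by simp⟩
    set x1 := L.γ (0 : ℂ) with hx1'
    obtain ⟨n1, n2⟩ := hell x1 hx1
    apply HolAt.eq_of_eventuallyEq hψ hφ1 (p := x1)
    -- ratio
    have hr : HolAt (fun x => valP (invP (cjP (φ (τ x)))) / valP (φ x)) x1 := by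
      refine HolAt.div ((hψ x1).valP ?_) ((hφ1 x1).valP (hone x1 hx1).1) (hval x1 n1 n2)
      rw [hfix x1 hx1]
      intro h
      rw [invP_eq_infty] at h
      apply hval x1 n1 n2
      have h7 : valP (cjP (φ x1)) = 0 := by rw [h]; simp
      rw [valP_cjP] at h7
      simpa using h7
    have hnear : ∀ᶠ x in 𝓝 x1, x ≠ q ∧ x ≠ τ q := by
      filter_upwards [isOpen_ne.mem_nhds n1, isOpen_ne.mem_nhds n2] with x h1 h2 using ⟨h1, h2⟩
    have hn : ∀ᶠ x in 𝓝 x1, ‖valP (invP (cjP (φ (τ x)))) / valP (φ x)‖ = 1 := by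
      filter_upwards [hnear] with x hx
      have m1 : τ x ≠ q := fun h => hx.2 (by rw [← h, hττ])
      have m2 : τ x ≠ τ q := fun h => hx.1 (by rw [← hττ x, h, hττ])
      rw [norm_div, valP_invP, valP_cjP, norm_inv, Complex.norm_conj, (hfin _ m1 m2).2,
        (hfin x hx.1 hx.2).2, hDodd, neg_neg, ← Real.exp_neg, div_self (Real.exp_pos _).ne']
    have hev := hr.eventually_const_of_norm hn
    have hval1 : valP (invP (cjP (φ (τ x1)))) / valP (φ x1) = 1 := by
      rw [hfix x1 hx1, valP_invP, valP_cjP]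
      have h1 := (hone x1 hx1).2
      have h2 : (starRingEnd ℂ) (valP (φ x1)) * valP (φ x1) = 1 := by
        rw [mul_comm, Complex.mul_conj, Complex.normSq_eq_norm_sq, h1]; simp
      have h3 := hval x1 n1 n2
      have h4 : (starRingEnd ℂ) (valP (φ x1)) ≠ 0 := by simpa using h3
      field_simp
      exact h2.symm
    rw [hval1] at hev
    filter_upwards [hev, hnear] with x hx hx'
    have m1 : τ x ≠ q := fun h => hx'.2 (by rw [← h, hττ])
    have m2 : τ x ≠ τ q := fun h => hx'.1 (by rw [← hττ x, h, hττ])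
    have h3 := hval x hx'.1 hx'.2
    have h4 : valP (invP (cjP (φ (τ x)))) = valP (φ x) := (div_eq_one_iff_eq h3).mp hx
    have h5 : invP (cjP (φ (τ x))) ≠ OnePoint.infty := by
      intro h
      rw [invP_eq_infty] at h
      apply hval _ m1 m2
      have h7 : valP (cjP (φ (τ x))) = 0 := by rw [h]; simp
      rw [valP_cjP] at h7
      simpa using h7
    rw [← coe_valP h5, h4, coe_valP (hfin x hx'.1 hx'.2).1]
  have hsym : ∀ x, φ (τ x) = invP (cjP (φ x)) := by
    intro x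
    have := congrFun hsym0 (τ x)
    simp only [hττ] at this
    exact this.symm
  have hnp : ∀ x ∈ Xp, x ≠ τ q := fun x hx h => hS.not_mem_p hqm (by rw [← h]; exact hx)
  refine ⟨φ, hφ1, hφq, ?_, ?_, ?_, hone, hsym, ?_⟩
  · intro x hx
    by_cases hxq : x = q
    · rw [hxq, hφq]; exact OnePoint.coe_ne_infty _
    · exact (hfin x hxq (hnp x hx)).1
  · intro x hx
    by_cases hxq : x = q
    · rw [hxq, hφq]; simp
    · rw [(hfin x hxq (hnp x hx)).2, hDp x hx, Real.exp_lt_one_iff]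
      linarith [hG2 x hx hxq]
  · intro x hx hxq
    exact hval x hxq (hnp x hx)
  · intro b hb1 hb2 hb3 p hp
    by_cases hpq : p = q
    · rw [hpq, hb3, norm_zero]; exact norm_nonneg _
    · rw [(hfin p hpq (hnp p hp)).2, hDp p hp]
      exact hG5 b hb1 hb2 hb3 p hp hpq

end Pool.Agent.Lib.MP_1f4a82_an
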