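import Pool.Agent.Lib.MP_1f4a82_an.Defs
import Pool.Agent.Lib.MP_1f4a82_an.Local

/-!
Basic facts on holomorphic maps between Riemann surfaces.
-/

open Topology Filter Set

namespace Pool.Agent.Lib.MP_1f4a82_an

variable {X Y Z : Type} [TopologicalSpace X] [TopologicalSpace Y] [TopologicalSpace Z]
  [RS X] [RS Y] [RS Z]

theorem HolAt.continuousAt {f : X → Y} {p : X} (h : HolAt f p) : ContinuousAt f p := h.1

theorem AntiHolAt.continuousAt {f : X → Y} {p : X} (h : AntiHolAt f p) : ContinuousAt f p := h.1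

/-- Transition map, also eventually well defined. -/
theorem RS.compat' {e e' : OpenPartialHomeomorph X ℂ} (he : e ∈ RS.atlas (X := X))
    (he' : e' ∈ RS.atlas (X := X)) {p : X} (hp : p ∈ e.source) (hp' : p ∈ e'.source) :
    AnalyticAt ℂ (fun w => e' (e.symm w)) (e p) := by
  refine RS.compat e he e' he' (e p) (e.map_source hp) ?_
  rwa [e.left_inv hp]

theorem HolAt.of_charts {f : X → Y} {p : X} (hc : ContinuousAt f p)
    {e : OpenPartialHomeomorph X ℂ} (he : e ∈ RS.atlas (X := X))
    {e' : OpenPartialHomeomorph Y ℂ} (he' : e' ∈ RS.atlas (X := Y)) (hp : p ∈ e.source)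
    (hp' : f p ∈ e'.source) (h : AnalyticAt ℂ (fun z => e' (f (e.symm z))) (e p)) :
    HolAt f p := by
  refine ⟨hc, fun e₁ he₁ e₁' he₁' hp₁ hp₁' => ?_⟩
  -- e₁' ∘ f ∘ e₁.symm = (e₁' ∘ e'.symm) ∘ (e' ∘ f ∘ e.symm) ∘ (e ∘ e₁.symm)
  have h1 : AnalyticAt ℂ (fun w => e (e₁.symm w)) (e₁ p) := RS.compat' he₁ he hp₁ hp
  have h2 : AnalyticAt ℂ (fun w => e₁' (e'.symm w)) (e' (f p)) := RS.compat' he' he₁' hp' hp₁'
  have e1 : (fun w => e (e₁.symm w)) (e₁ p) = e p := by simp [e₁.left_inv hp₁]
  have e2 : (fun z => e' (f (e.symm z))) (e p) = e' (f p) := by simp [e.left_inv hp]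
  have h3 : AnalyticAt ℂ (fun w => e' (f (e.symm (e (e₁.symm w))))) (e₁ p) := by
    have := AnalyticAt.fun_comp (g := fun z => e' (f (e.symm z))) (f := fun w => e (e₁.symm w))
      (x := e₁ p) (by simp only [e₁.left_inv hp₁]; exact h) h1
    exact this
  have h4 : AnalyticAt ℂ (fun w => e₁' (e'.symm (e' (f (e.symm (e (e₁.symm w))))))) (e₁ p) := by
    have := AnalyticAt.fun_comp (g := fun w => e₁' (e'.symm w))
      (f := fun w => e' (f (e.symm (e (e₁.symm w)))))
      (x := e₁ p) (by simp only [e₁.left_inv hp₁, e.left_inv hp]; exact h2) h3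
    exact this
  refine h4.congr ?_
  have c1 : ContinuousAt e₁.symm (e₁ p) := e₁.continuousAt_symm (e₁.map_source hp₁)
  have m1 : ∀ᶠ w in 𝓝 (e₁ p), e₁.symm w ∈ e.source := by
    apply c1.eventually_mem
    rw [e₁.left_inv hp₁]; exact e.open_source.mem_nhds hp
  have m2 : ∀ᶠ w in 𝓝 (e₁ p), f (e₁.symm w) ∈ e'.source := by
    have : ContinuousAt (fun w => f (e₁.symm w)) (e₁ p) := by
      apply ContinuousAt.comp' (g := f)
      · rwa [e₁.left_inv hp₁]
      · exact c1
    apply this.eventually_mem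
    rw [e₁.left_inv hp₁]; exact e'.open_source.mem_nhds hp'
  filter_upwards [m1, m2] with w hw1 hw2
  rw [e.left_inv hw1, e'.left_inv hw2]

theorem analyticAt_conj_conj {T : ℂ → ℂ} {z : ℂ} (h : AnalyticAt ℂ T ((starRingEnd ℂ) z)) :
    AnalyticAt ℂ (fun w => (starRingEnd ℂ) (T ((starRingEnd ℂ) w))) z := by
  rw [Complex.analyticAt_iff_eventually_differentiableAt] at h ⊢
  have hc : ContinuousAt (starRingEnd ℂ) z := Complex.continuous_conj.continuousAt
  filter_upwards [hc.eventually h] with w hw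
  have := hw.conj_conj
  rw [Complex.conj_conj] at this
  exact this

omit [RS X] [RS Y] in
/-- Near `p` the chart representation of a composition is the composition of the
representations. -/
theorem rep_comp {f : X → Y} {W : Type} (g : Y → W) {p : X} (hf : ContinuousAt f p)
    {e : OpenPartialHomeomorph X ℂ} (hp : p ∈ e.source)
    {e' : OpenPartialHomeomorph Y ℂ} (hp' : f p ∈ e'.source) :
    ∀ᶠ w in 𝓝 (e p), g (e'.symm (e' (f (e.symm w)))) = g (f (e.symm w)) := by
  have c1 : ContinuousAt e.symm (e p) := e.continuousAt_symm (e.map_source hp)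
  have m2 : ∀ᶠ w in 𝓝 (e p), f (e.symm w) ∈ e'.source := by
    have : ContinuousAt (fun w => f (e.symm w)) (e p) := by
      apply ContinuousAt.comp' (g := f)
      · rw [e.left_inv hp]; exact hf
      · exact c1
    apply this.eventually_mem
    rw [e.left_inv hp]; exact e'.open_source.mem_nhds hp'
  filter_upwards [m2] with w hw2
  rw [e'.left_inv hw2]

/-- Antiholomorphic version. -/
theorem AntiHolAt.of_charts {f : X → Y} {p : X} (hc : ContinuousAt f p)
    {e : OpenPartialHomeomorph X ℂ} (he : e ∈ RS.atlas (X := X))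
    {e' : OpenPartialHomeomorph Y ℂ} (he' : e' ∈ RS.atlas (X := Y)) (hp : p ∈ e.source)
    (hp' : f p ∈ e'.source)
    (h : AnalyticAt ℂ (fun z => (starRingEnd ℂ) (e' (f (e.symm z)))) (e p)) :
    AntiHolAt f p := by
  refine ⟨hc, fun e₁ he₁ e₁' he₁' hp₁ hp₁' => ?_⟩
  have h1 : AnalyticAt ℂ (fun w => e (e₁.symm w)) (e₁ p) := RS.compat' he₁ he hp₁ hp
  have h2 : AnalyticAt ℂ (fun w => e₁' (e'.symm w)) (e' (f p)) := RS.compat' he' he₁' hp' hp₁'
  have h3 : AnalyticAt ℂ (fun w => (starRingEnd ℂ) (e' (f (e.symm (e (e₁.symm w)))))) (e₁ p) := by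
    have := AnalyticAt.fun_comp (g := fun z => (starRingEnd ℂ) (e' (f (e.symm z))))
      (f := fun w => e (e₁.symm w))
      (x := e₁ p) (by simp only [e₁.left_inv hp₁]; exact h) h1
    exact this
  have h2' := analyticAt_conj_conj (T := fun w => e₁' (e'.symm w))
    (z := (starRingEnd ℂ) (e' (f p))) (by rw [Complex.conj_conj]; exact h2)
  have h4 : AnalyticAt ℂ (fun w => (starRingEnd ℂ) (e₁' (e'.symm (e' (f (e.symm (e (e₁.symm w))))))))
      (e₁ p) := by
    have := AnalyticAt.fun_comp
      (g := fun w => (starRingEnd ℂ) (e₁' (e'.symm ((starRingEnd ℂ) w))))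
      (f := fun w => (starRingEnd ℂ) (e' (f (e.symm (e (e₁.symm w))))))
      (x := e₁ p) (by simp only [e₁.left_inv hp₁, e.left_inv hp]; exact h2') h3
    simpa only [Complex.conj_conj] using this
  refine h4.congr ?_
  have c1 : ContinuousAt e₁.symm (e₁ p) := e₁.continuousAt_symm (e₁.map_source hp₁)
  have m1 : ∀ᶠ w in 𝓝 (e₁ p), e₁.symm w ∈ e.source := by
    apply c1.eventually_mem
    rw [e₁.left_inv hp₁]; exact e.open_source.mem_nhds hp
  filter_upwards [m1, rep_comp (fun y => (starRingEnd ℂ) (e₁' y)) hc hp₁ hp'] with w hw1 hw2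
  rw [e.left_inv hw1]; exact hw2

theorem HolAt.congr {f g : X → Y} {p : X} (hf : HolAt f p) (h : f =ᶠ[𝓝 p] g) : HolAt g p := by
  refine ⟨hf.1.congr h, fun e he e' he' hp hp' => ?_⟩
  have h0 : f p = g p := h.eq_of_nhds
  refine (hf.2 e he e' he' hp (by rwa [h0])).congr ?_
  have c1 : Tendsto e.symm (𝓝 (e p)) (𝓝 p) := by
    have := (e.continuousAt_symm (e.map_source hp)).tendsto
    rwa [e.left_inv hp] at this
  filter_upwards [c1.eventually h] with z hz
  rw [hz]

theorem HolAt.comp {g : Y → Z} {f : X → Y} {p : X} (hg : HolAt g (f p)) (hf : HolAt f p) :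
    HolAt (fun x => g (f x)) p := by
  obtain ⟨e, he, hp⟩ := RS.exists_chart p
  obtain ⟨e', he', hp'⟩ := RS.exists_chart (f p)
  obtain ⟨e'', he'', hp''⟩ := RS.exists_chart (g (f p))
  refine HolAt.of_charts (hg.1.comp' hf.1) he he'' hp hp'' ?_
  have h1 := hf.2 e he e' he' hp hp'
  have h2 := hg.2 e' he' e'' he'' hp' hp''
  have h3 : AnalyticAt ℂ (fun w => e'' (g (e'.symm (e' (f (e.symm w)))))) (e p) := by
    have := AnalyticAt.fun_comp (g := fun w => e'' (g (e'.symm w)))
      (f := fun w => e' (f (e.symm w))) (x := e p) (by simp only [e.left_inv hp]; exact h2) h1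
    exact this
  refine h3.congr ?_
  have c1 : ContinuousAt e.symm (e p) := e.continuousAt_symm (e.map_source hp)
  have m2 : ∀ᶠ w in 𝓝 (e p), f (e.symm w) ∈ e'.source := by
    have : ContinuousAt (fun w => f (e.symm w)) (e p) := by
      apply ContinuousAt.comp' (g := f)
      · rw [e.left_inv hp]; exact hf.1
      · exact c1
    apply this.eventually_mem
    rw [e.left_inv hp]; exact e'.open_source.mem_nhds hp'
  filter_upwards [m2] with w hw2
  rw [e'.left_inv hw2]

theorem mem_atlas_complex {e : OpenPartialHomeomorph ℂ ℂ} :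
    e ∈ RS.atlas (X := ℂ) ↔ e = OpenPartialHomeomorph.refl ℂ := Iff.rfl

theorem holAt_iff_analyticAt {f : ℂ → ℂ} {z : ℂ} : HolAt f z ↔ AnalyticAt ℂ f z := by
  constructor
  · intro h
    exact h.2 _ rfl _ rfl (by simp) (by simp)
  · intro h
    refine ⟨h.continuousAt, ?_⟩
    rintro e rfl e' rfl _ _
    exact h

/-- Holomorphic functions with complex values. -/
theorem holAt_iff_of_chart {f : X → ℂ} {p : X} {e : OpenPartialHomeomorph X ℂ}
    (he : e ∈ RS.atlas (X := X)) (hp : p ∈ e.source) :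
    HolAt f p ↔ AnalyticAt ℂ (fun z => f (e.symm z)) (e p) := by
  constructor
  · intro h
    exact h.2 e he _ rfl hp (by simp)
  · intro h
    refine HolAt.of_charts ?_ he (e' := OpenPartialHomeomorph.refl ℂ) rfl hp (by simp) h
    have h1 : ContinuousAt (fun x => f (e.symm (e x))) p := by
      apply ContinuousAt.comp' (g := fun z => f (e.symm z)) (f := e)
      · exact h.continuousAt
      · exact e.continuousAt hp
    refine h1.congr ?_
    filter_upwards [e.open_source.mem_nhds hp] with x hx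
    rw [e.left_inv hx]

/-- Holomorphic curves: maps from an open set of `ℂ`. -/
theorem holAt_iff_of_chart' {f : ℂ → Y} {z : ℂ} (hc : ContinuousAt f z)
    {e' : OpenPartialHomeomorph Y ℂ} (he' : e' ∈ RS.atlas (X := Y)) (hp : f z ∈ e'.source) :
    HolAt f z ↔ AnalyticAt ℂ (fun w => e' (f w)) z := by
  constructor
  · intro h
    exact h.2 _ rfl e' he' (by simp) hp
  · intro h
    exact HolAt.of_charts hc (e := OpenPartialHomeomorph.refl ℂ) rfl he' (by simp) hp h

theorem holAt_chart {e : OpenPartialHomeomorph X ℂ} (he : e ∈ RS.atlas (X := X)) {p : X}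
    (hp : p ∈ e.source) : HolAt e p := by
  rw [holAt_iff_of_chart he hp]
  refine analyticAt_id.congr ?_
  filter_upwards [e.open_target.mem_nhds (e.map_source hp)] with z hz
  rw [e.right_inv hz]; rfl

theorem holAt_chart_symm {e : OpenPartialHomeomorph X ℂ} (he : e ∈ RS.atlas (X := X)) {z : ℂ}
    (hz : z ∈ e.target) : HolAt e.symm z := by
  rw [holAt_iff_of_chart' (e.continuousAt_symm hz) he (e.map_target hz)]
  refine analyticAt_id.congr ?_
  filter_upwards [e.open_target.mem_nhds hz] with w hw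
  rw [e.right_inv hw]; rfl

theorem holAt_id (p : X) : HolAt (fun x : X => x) p := by
  obtain ⟨e, he, hp⟩ := RS.exists_chart p
  have h := (holAt_chart_symm he (e.map_source hp)).comp (holAt_chart he hp)
  refine h.congr ?_
  filter_upwards [e.open_source.mem_nhds hp] with x hx
  rw [e.left_inv hx]

theorem holAt_const (c : Y) (p : X) : HolAt (fun _ : X => c) p := by
  obtain ⟨e, he, hp⟩ := RS.exists_chart p
  obtain ⟨e', he', hp'⟩ := RS.exists_chart c
  exact HolAt.of_charts continuousAt_const he he' hp hp' analyticAt_const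

/-- Being holomorphic is an open condition. -/
theorem HolAt.eventually {f : X → Y} {p : X} (h : HolAt f p) : ∀ᶠ x in 𝓝 p, HolAt f x := by
  obtain ⟨e, he, hp⟩ := RS.exists_chart p
  obtain ⟨e', he', hp'⟩ := RS.exists_chart (f p)
  have h1 := h.2 e he e' he' hp hp'
  have m2 : ∀ᶠ x in 𝓝 p, f x ∈ e'.source := h.1.eventually_mem (e'.open_source.mem_nhds hp')
  have m3 : ∀ᶠ x in 𝓝 p, AnalyticAt ℂ (fun z => e' (f (e.symm z))) (e x) :=
    (e.continuousAt hp).eventually h1.eventually_analyticAt
  filter_upwards [m2.eventually_nhds, m3, e.open_source.mem_nhds hp] with x hx1 hx2 hx3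
  have hfx : f x ∈ e'.source := hx1.self_of_nhds
  -- near x: f = e'.symm ∘ (e' ∘ f ∘ e.symm) ∘ e
  have hc : ContinuousAt f x := by
    have c1 : ContinuousAt (fun y => e'.symm ((fun z => e' (f (e.symm z))) (e y))) x := by
      apply ContinuousAt.comp' (g := e'.symm)
      · simp only [e.left_inv hx3]; exact e'.continuousAt_symm (e'.map_source hfx)
      · apply ContinuousAt.comp' (g := fun z => e' (f (e.symm z)))
        · exact hx2.continuousAt
        · exact e.continuousAt hx3
    refine c1.congr ?_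
    filter_upwards [hx1, e.open_source.mem_nhds hx3] with y hy1 hy2
    rw [e.left_inv hy2, e'.left_inv hy1]
  exact HolAt.of_charts hc he he' hx3 hfx hx2

theorem AntiHolAt.congr {f g : X → Y} {p : X} (hf : AntiHolAt f p) (h : f =ᶠ[𝓝 p] g) :
    AntiHolAt g p := by
  refine ⟨hf.1.congr h, fun e he e' he' hp hp' => ?_⟩
  have h0 : f p = g p := h.eq_of_nhds
  refine (hf.2 e he e' he' hp (by rwa [h0])).congr ?_
  have c1 : Tendsto e.symm (𝓝 (e p)) (𝓝 p) := by
    have := (e.continuousAt_symm (e.map_source hp)).tendsto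
    rwa [e.left_inv hp] at this
  filter_upwards [c1.eventually h] with z hz
  rw [hz]

/-- holomorphic after antiholomorphic -/
theorem HolAt.comp_anti {g : Y → Z} {f : X → Y} {p : X} (hg : HolAt g (f p))
    (hf : AntiHolAt f p) : AntiHolAt (fun x => g (f x)) p := by
  obtain ⟨e, he, hp⟩ := RS.exists_chart p
  obtain ⟨e', he', hp'⟩ := RS.exists_chart (f p)
  obtain ⟨e'', he'', hp''⟩ := RS.exists_chart (g (f p))
  refine AntiHolAt.of_charts (hg.1.comp' hf.1) he he'' hp hp'' ?_
  have h1 := hf.2 e he e' he' hp hp'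
  have h2 := hg.2 e' he' e'' he'' hp' hp''
  have h2' := analyticAt_conj_conj (T := fun w => e'' (g (e'.symm w)))
    (z := (starRingEnd ℂ) (e' (f p))) (by rw [Complex.conj_conj]; exact h2)
  have h3 := AnalyticAt.fun_comp
      (g := fun w => (starRingEnd ℂ) (e'' (g (e'.symm ((starRingEnd ℂ) w)))))
      (f := fun w => (starRingEnd ℂ) (e' (f (e.symm w)))) (x := e p)
      (by simp only [e.left_inv hp]; exact h2') h1
  simp only [Complex.conj_conj] at h3
  exact h3.congr (rep_comp (fun y => (starRingEnd ℂ) (e'' (g y))) hf.1 hp hp')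

/-- antiholomorphic after holomorphic -/
theorem AntiHolAt.comp_hol {g : Y → Z} {f : X → Y} {p : X} (hg : AntiHolAt g (f p))
    (hf : HolAt f p) : AntiHolAt (fun x => g (f x)) p := by
  obtain ⟨e, he, hp⟩ := RS.exists_chart p
  obtain ⟨e', he', hp'⟩ := RS.exists_chart (f p)
  obtain ⟨e'', he'', hp''⟩ := RS.exists_chart (g (f p))
  refine AntiHolAt.of_charts (hg.1.comp' hf.1) he he'' hp hp'' ?_
  have h1 := hf.2 e he e' he' hp hp'
  have h2 := hg.2 e' he' e'' he'' hp' hp''
  have h3 := AnalyticAt.fun_comp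
      (g := fun w => (starRingEnd ℂ) (e'' (g (e'.symm w))))
      (f := fun w => e' (f (e.symm w))) (x := e p)
      (by simp only [e.left_inv hp]; exact h2) h1
  exact h3.congr (rep_comp (fun y => (starRingEnd ℂ) (e'' (g y))) hf.1 hp hp')

/-- antiholomorphic after antiholomorphic -/
theorem AntiHolAt.comp_anti {g : Y → Z} {f : X → Y} {p : X} (hg : AntiHolAt g (f p))
    (hf : AntiHolAt f p) : HolAt (fun x => g (f x)) p := by
  obtain ⟨e, he, hp⟩ := RS.exists_chart p
  obtain ⟨e', he', hp'⟩ := RS.exists_chart (f p)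
  obtain ⟨e'', he'', hp''⟩ := RS.exists_chart (g (f p))
  refine HolAt.of_charts (hg.1.comp' hf.1) he he'' hp hp'' ?_
  have h1 := hf.2 e he e' he' hp hp'
  have h2 := hg.2 e' he' e'' he'' hp' hp''
  have h2' := analyticAt_conj_conj (T := fun w => (starRingEnd ℂ) (e'' (g (e'.symm w))))
    (z := (starRingEnd ℂ) (e' (f p))) (by rw [Complex.conj_conj]; exact h2)
  have h3 := AnalyticAt.fun_comp
      (g := fun w => (starRingEnd ℂ) ((starRingEnd ℂ) (e'' (g (e'.symm ((starRingEnd ℂ) w))))))
      (f := fun w => (starRingEnd ℂ) (e' (f (e.symm w)))) (x := e p)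
      (by simp only [e.left_inv hp]; exact h2') h1
  simp only [Complex.conj_conj] at h3
  exact h3.congr (rep_comp (fun y => e'' (g y)) hf.1 hp hp')

theorem antiHolAt_conj (z : ℂ) : AntiHolAt (starRingEnd ℂ) z := by
  refine AntiHolAt.of_charts Complex.continuous_conj.continuousAt
    (e := OpenPartialHomeomorph.refl ℂ) rfl (e' := OpenPartialHomeomorph.refl ℂ) rfl
    (by simp) (by simp) ?_
  refine analyticAt_id.congr (Eventually.of_forall fun w => ?_)
  simp

omit [RS X] in
theorem tendsto_symm {e : OpenPartialHomeomorph X ℂ} {p : X} (hp : p ∈ e.source) :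
    Tendsto e.symm (𝓝 (e p)) (𝓝 p) := by
  have := (e.continuousAt_symm (e.map_source hp)).tendsto
  rwa [e.left_inv hp] at this

omit [RS X] in
theorem tendsto_symm_ne {e : OpenPartialHomeomorph X ℂ} {p : X} (hp : p ∈ e.source) :
    Tendsto e.symm (𝓝[≠] (e p)) (𝓝[≠] p) := by
  refine tendsto_nhdsWithin_iff.mpr ⟨(tendsto_symm hp).mono_left nhdsWithin_le_nhds, ?_⟩
  have h1 : ∀ᶠ w in 𝓝[≠] (e p), w ∈ e.target :=
    nhdsWithin_le_nhds (e.open_target.mem_nhds (e.map_source hp))
  filter_upwards [h1, self_mem_nhdsWithin] with w hw hw'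
  intro h
  apply hw'
  have h2 : e.symm w = p := h
  rw [← h2, e.right_inv hw]; rfl

omit [RS X] in
theorem tendsto_chart_ne {e : OpenPartialHomeomorph X ℂ} {p : X} (hp : p ∈ e.source) :
    Tendsto e (𝓝[≠] p) (𝓝[≠] (e p)) := by
  refine tendsto_nhdsWithin_iff.mpr ⟨(e.continuousAt hp).mono_left nhdsWithin_le_nhds, ?_⟩
  have h1 : ∀ᶠ w in 𝓝[≠] p, w ∈ e.source :=
    nhdsWithin_le_nhds (e.open_source.mem_nhds hp)
  filter_upwards [h1, self_mem_nhdsWithin] with w hw hw'
  intro h
  exact hw' (e.injOn hw hp h)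

/-- no isolated points -/
instance neBot_nhdsNE (p : X) : (𝓝[≠] p).NeBot := by
  obtain ⟨e, he, hp⟩ := RS.exists_chart p
  exact (tendsto_symm_ne hp).neBot

/-- Local identity principle. -/
theorem HolAt.eventually_eq_or_ne [T2Space Y] {f g : X → Y} {p : X} (hf : HolAt f p)
    (hg : HolAt g p) : f =ᶠ[𝓝 p] g ∨ ∀ᶠ x in 𝓝[≠] p, f x ≠ g x := by
  by_cases h : f p = g p
  · obtain ⟨e, he, hp⟩ := RS.exists_chart p
    obtain ⟨e', he', hp'⟩ := RS.exists_chart (f p)
    have h1 := hf.2 e he e' he' hp hp'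
    have h2 := hg.2 e he e' he' hp (by rwa [← h])
    have m1 : ∀ᶠ x in 𝓝 p, f x ∈ e'.source := hf.1.eventually_mem (e'.open_source.mem_nhds hp')
    have m2 : ∀ᶠ x in 𝓝 p, g x ∈ e'.source :=
      hg.1.eventually_mem (e'.open_source.mem_nhds (by rwa [← h]))
    have m3 : ∀ᶠ x in 𝓝 p, x ∈ e.source := e.open_source.mem_nhds hp
    rcases h1.eventually_eq_or_eventually_ne h2 with h3 | h3
    · left
      filter_upwards [(e.continuousAt hp).eventually h3, m1, m2, m3] with x hx hx1 hx2 hx3
      rw [e.left_inv hx3] at hx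
      exact e'.injOn hx1 hx2 hx
    · right
      filter_upwards [(tendsto_chart_ne hp).eventually h3, nhdsWithin_le_nhds m1,
        nhdsWithin_le_nhds m2, nhdsWithin_le_nhds m3] with x hx hx1 hx2 hx3
      rw [e.left_inv hx3] at hx
      intro h4
      exact hx (by rw [h4])
  · right
    apply Filter.Eventually.filter_mono nhdsWithin_le_nhds
    obtain ⟨U, V, hU, hV, hfU, hgV, hUV⟩ := t2_separation h
    filter_upwards [hf.1.eventually_mem (hU.mem_nhds hfU), hg.1.eventually_mem (hV.mem_nhds hgV)]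
      with x hx1 hx2 h3
    exact disjoint_left.mp hUV hx1 (by rwa [h3])

/-- Identity theorem. -/
theorem HolAt.eqOn_of_preconnected [T2Space Y] {f g : X → Y} {U : Set X}
    (hUc : IsPreconnected U) (hf : ∀ x ∈ U, HolAt f x) (hg : ∀ x ∈ U, HolAt g x) {p : X}
    (hp : p ∈ U) (h : ∃ᶠ x in 𝓝[≠] p, f x = g x) : EqOn f g U := by
  have hA : IsOpen {x | f =ᶠ[𝓝 x] g} := isOpen_setOfPred_eventually_nhds
  have hpA : p ∈ {x | f =ᶠ[𝓝 x] g} := by
    rcases (hf p hp).eventually_eq_or_ne (hg p hp) with h1 | h1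
    · exact h1
    · exact absurd h1 (by simpa [Filter.not_eventually] using h)
  have hsub := hUc.subset_of_closure_inter_subset hA ⟨p, hp, hpA⟩ (by
    rintro x ⟨hx, hxU⟩
    rcases (hf x hxU).eventually_eq_or_ne (hg x hxU) with h1 | h1
    · exact h1
    · exfalso
      rw [mem_closure_iff_frequently] at hx
      rw [eventually_nhdsWithin_iff] at h1
      obtain ⟨y, hy, hy1⟩ := (hx.and_eventually h1.eventually_nhds).exists
      -- near y f = g but off x they differ
      have h3 : ∀ᶠ z in 𝓝 y, z = x := by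
        filter_upwards [hy, hy1] with z hz hz1
        by_contra hne
        exact hz1 hne hz
      have h4 : y = x := h3.self_of_nhds
      subst h4
      have h5 : ∀ᶠ z in 𝓝[≠] y, z = y := h3.filter_mono nhdsWithin_le_nhds
      have h6 : ∀ᶠ z in 𝓝[≠] y, z ≠ y := self_mem_nhdsWithin
      obtain ⟨z, hz, hz'⟩ := (h5.and h6).exists
      exact hz' hz)
  intro x hx
  exact (hsub hx).self_of_nhds

/-- Identity theorem, global form. -/
theorem HolAt.eq_of_frequently [T2Space Y] [PreconnectedSpace X] {f g : X → Y}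
    (hf : ∀ x, HolAt f x) (hg : ∀ x, HolAt g x) {p : X} (h : ∃ᶠ x in 𝓝[≠] p, f x = g x) :
    f = g := by
  funext x
  exact HolAt.eqOn_of_preconnected isPreconnected_univ (fun x _ => hf x)
    (fun x _ => hg x) (mem_univ p) h (mem_univ x)

theorem HolAt.eq_of_eventuallyEq [T2Space Y] [PreconnectedSpace X] {f g : X → Y}
    (hf : ∀ x, HolAt f x) (hg : ∀ x, HolAt g x) {p : X} (h : f =ᶠ[𝓝 p] g) : f = g :=
  HolAt.eq_of_frequently hf hg (h.filter_mono nhdsWithin_le_nhds).frequently

/-- Local open mapping theorem. -/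
theorem HolAt.map_nhds {f : X → Y} {p : X} (hf : HolAt f p)
    (hc : ¬ ∀ᶠ x in 𝓝 p, f x = f p) : map f (𝓝 p) = 𝓝 (f p) := by
  refine le_antisymm hf.1 ?_
  obtain ⟨e, he, hp⟩ := RS.exists_chart p
  obtain ⟨e', he', hp'⟩ := RS.exists_chart (f p)
  have h1 := hf.2 e he e' he' hp hp'
  rcases h1.eventually_constant_or_nhds_le_map_nhds with h2 | h2
  · exfalso
    apply hc
    have m1 : ∀ᶠ x in 𝓝 p, f x ∈ e'.source := hf.1.eventually_mem (e'.open_source.mem_nhds hp')
    filter_upwards [(e.continuousAt hp).eventually h2, m1, e.open_source.mem_nhds hp]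
      with x hx hx1 hx3
    rw [e.left_inv hx3, e.left_inv hp] at hx
    exact e'.injOn hx1 hp' hx
  · -- 𝓝 (f p) = map e'.symm (𝓝 (e' (f p)))
    have h3 : 𝓝 (f p) = map e'.symm (𝓝 (e' (f p))) := by
      rw [e'.symm_map_nhds_eq hp']
    rw [h3]
    rw [e.left_inv hp] at h2
    refine (map_mono h2).trans ?_
    rw [map_map]
    intro S hS
    rw [mem_map] at hS ⊢
    have m1 : ∀ᶠ x in 𝓝 p, f x ∈ e'.source := hf.1.eventually_mem (e'.open_source.mem_nhds hp')
    filter_upwards [(tendsto_symm hp).eventually m1, (tendsto_symm hp).eventually hS]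
      with w hw1 hw2
    simp only [Function.comp, mem_preimage]
    rwa [e'.left_inv hw1]

/-- An injective holomorphic map is open at each point. -/
theorem HolAt.map_nhds_of_injOn {f : X → Y} {p : X} (hf : HolAt f p) {U : Set X}
    (hU : U ∈ 𝓝 p) (hinj : InjOn f U) : map f (𝓝 p) = 𝓝 (f p) := by
  apply hf.map_nhds
  intro h
  have h1 : ∀ᶠ x in 𝓝[≠] p, x = p := by
    apply Filter.Eventually.filter_mono nhdsWithin_le_nhds
    filter_upwards [h, hU] with x hx hxU
    exact hinj hxU (mem_of_mem_nhds hU) hx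
  have h3 : ∀ᶠ z in 𝓝[≠] p, z ≠ p := self_mem_nhdsWithin
  obtain ⟨z, hz, hz'⟩ := (h1.and h3).exists
  exact hz' hz

theorem isOpen_image_of_injOn {f : X → Y} {U : Set X} (hU : IsOpen U)
    (hf : ∀ x ∈ U, HolAt f x) (hinj : InjOn f U) {V : Set X} (hV : IsOpen V) (hVU : V ⊆ U) :
    IsOpen (f '' V) := by
  rw [isOpen_iff_mem_nhds]
  rintro _ ⟨x, hx, rfl⟩
  rw [← (hf x (hVU hx)).map_nhds_of_injOn (hU.mem_nhds (hVU hx)) hinj]
  exact image_mem_map (hV.mem_nhds hx)

/-- The inverse of an injective holomorphic map is holomorphic. -/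
theorem holAt_leftInverse {f : X → Y} {g : Y → X} {U : Set X} (hU : IsOpen U)
    (hf : ∀ x ∈ U, HolAt f x) (hg : ∀ x ∈ U, g (f x) = x) {p : X} (hp : p ∈ U) :
    HolAt g (f p) := by
  have hinj : InjOn f U := fun x hx y hy h => by rw [← hg x hx, ← hg y hy, h]
  have hcont : ∀ x ∈ U, ContinuousAt g (f x) := by
    intro x hx
    rw [ContinuousAt, hg x hx, ← (hf x hx).map_nhds_of_injOn (hU.mem_nhds hx) hinj,
      tendsto_map'_iff]
    refine tendsto_id.congr' ?_
    filter_upwards [hU.mem_nhds hx] with y hy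
    simp [hg y hy]
  obtain ⟨e, he, hpe⟩ := RS.exists_chart p
  obtain ⟨e', he', hpe'⟩ := RS.exists_chart (f p)
  refine HolAt.of_charts (hcont p hp) he' he hpe' (by rwa [hg p hp]) ?_
  -- k = e ∘ g ∘ e'.symm is a right inverse of G = e' ∘ f ∘ e.symm
  have hG := (hf p hp).2 e he e' he' hpe hpe'
  have himg : ∀ᶠ w in 𝓝 (e' (f p)), e'.symm w ∈ f '' (U ∩ e.source ∩ f ⁻¹' e'.source) ∧
      w ∈ e'.target := by
    refine Filter.Eventually.and ?_ (e'.open_target.mem_nhds (e'.map_source hpe'))
    apply (tendsto_symm hpe').eventually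
    rw [← (hf p hp).map_nhds_of_injOn (hU.mem_nhds hp) hinj]
    apply image_mem_map
    refine inter_mem (inter_mem (hU.mem_nhds hp) (e.open_source.mem_nhds hpe)) ?_
    exact (hf p hp).1.preimage_mem_nhds (e'.open_source.mem_nhds hpe')
  have hk0 : e (g (e'.symm (e' (f p)))) = e p := by
    rw [e'.left_inv hpe', hg p hp]
  refine analyticAt_of_right_inverse (g := fun z => e' (f (e.symm z))) ?_ ?_ ?_ ?_
  · filter_upwards [himg] with w hw
    obtain ⟨⟨x, ⟨⟨hxU, hxe⟩, hxe'⟩, hxw⟩, hwt⟩ := hw
    have c1 : ContinuousAt e'.symm w := e'.continuousAt_symm hwt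
    have c2 : ContinuousAt g (e'.symm w) := by rw [← hxw]; exact hcont x hxU
    have c3 : ContinuousAt e (g (e'.symm w)) := by
      rw [← hxw, hg x hxU]; exact e.continuousAt hxe
    exact ContinuousAt.comp' (g := e) c3 (ContinuousAt.comp' (g := g) c2 c1)
  · rw [hk0]; exact hG
  · rw [hk0]
    have hset : (e.target ∩ e.symm ⁻¹' (U ∩ f ⁻¹' e'.source)) ∈ 𝓝 (e p) := by
      refine inter_mem (e.open_target.mem_nhds (e.map_source hpe)) ?_
      apply (tendsto_symm hpe)
      exact inter_mem (hU.mem_nhds hp)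
        ((hf p hp).1.preimage_mem_nhds (e'.open_source.mem_nhds hpe'))
    refine deriv_ne_zero_of_injOn hG hset ?_
    rintro z ⟨hz, hzU, hzf⟩ w ⟨hw, hwU, hwf⟩ hzw
    have h1 := e'.injOn hzf hwf hzw
    have h2 := hinj hzU hwU h1
    rw [← e.right_inv hz, ← e.right_inv hw, h2]
  · filter_upwards [himg] with w hw
    obtain ⟨⟨x, ⟨⟨hxU, hxe⟩, hxe'⟩, hxw⟩, hwt⟩ := hw
    rw [← hxw, hg x hxU, e.left_inv hxe, hxw, e'.right_inv hwt]

/-! ### Algebra of complex valued holomorphic functions -/

theorem HolAt.comp_analyticAt {g : ℂ → ℂ} {f : X → ℂ} {p : X} (hg : AnalyticAt ℂ g (f p))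
    (hf : HolAt f p) : HolAt (fun x => g (f x)) p :=
  (holAt_iff_analyticAt.mpr hg).comp hf

theorem HolAt.add {f g : X → ℂ} {p : X} (hf : HolAt f p) (hg : HolAt g p) :
    HolAt (fun x => f x + g x) p := by
  obtain ⟨e, he, hp⟩ := RS.exists_chart p
  rw [holAt_iff_of_chart he hp] at *
  exact hf.add hg

theorem HolAt.sub {f g : X → ℂ} {p : X} (hf : HolAt f p) (hg : HolAt g p) :
    HolAt (fun x => f x - g x) p := by
  obtain ⟨e, he, hp⟩ := RS.exists_chart p
  rw [holAt_iff_of_chart he hp] at *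
  exact hf.sub hg

theorem HolAt.mul {f g : X → ℂ} {p : X} (hf : HolAt f p) (hg : HolAt g p) :
    HolAt (fun x => f x * g x) p := by
  obtain ⟨e, he, hp⟩ := RS.exists_chart p
  rw [holAt_iff_of_chart he hp] at *
  exact hf.mul hg

theorem HolAt.neg {f : X → ℂ} {p : X} (hf : HolAt f p) : HolAt (fun x => - f x) p := by
  obtain ⟨e, he, hp⟩ := RS.exists_chart p
  rw [holAt_iff_of_chart he hp] at *
  exact hf.neg

theorem HolAt.inv {f : X → ℂ} {p : X} (hf : HolAt f p) (h : f p ≠ 0) :
    HolAt (fun x => (f x)⁻¹) p :=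
  HolAt.comp_analyticAt (analyticAt_inv h) hf

theorem HolAt.div {f g : X → ℂ} {p : X} (hf : HolAt f p) (hg : HolAt g p) (h : g p ≠ 0) :
    HolAt (fun x => f x / g x) p := by
  simpa only [div_eq_mul_inv] using hf.mul (hg.inv h)

theorem HolAt.pow {f : X → ℂ} {p : X} (hf : HolAt f p) (n : ℕ) :
    HolAt (fun x => f x ^ n) p :=
  HolAt.comp_analyticAt (g := fun z => z ^ n) (analyticAt_id.pow n) hf

theorem HolAt.cexp {f : X → ℂ} {p : X} (hf : HolAt f p) :
    HolAt (fun x => Complex.exp (f x)) p :=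
  HolAt.comp_analyticAt (g := Complex.exp) analyticAt_cexp hf

theorem HolAt.clog {f : X → ℂ} {p : X} (hf : HolAt f p) (h : f p ∈ Complex.slitPlane) :
    HolAt (fun x => Complex.log (f x)) p :=
  HolAt.comp_analyticAt (g := Complex.log) (analyticAt_clog h) hf

/-- Maximum principle. -/
theorem HolAt.eqOn_of_norm_max {f : X → ℂ} {U : Set X} (hUo : IsOpen U)
    (hUc : IsPreconnected U) (hf : ∀ x ∈ U, HolAt f x) {p : X} (hp : p ∈ U)
    (hmax : ∀ x ∈ U, ‖f x‖ ≤ ‖f p‖) : ∀ x ∈ U, f x = f p := by
  have hev : ∀ᶠ x in 𝓝 p, f x = f p := by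
    by_contra hc
    have h1 := (hf p hp).map_nhds hc
    -- the image of U is a neighbourhood of f p, contradiction with maximality
    have h2 : f '' U ∈ 𝓝 (f p) := by
      rw [← h1]; exact image_mem_map (hUo.mem_nhds hp)
    have hm : IsLocalMax (fun w : ℂ => ‖w‖) (f p) := by
      filter_upwards [h2] with w hw
      obtain ⟨x, hx, rfl⟩ := hw
      exact hmax x hx
    obtain ⟨ε, hε, hball⟩ := Metric.mem_nhds_iff.mp h2
    by_cases h0 : f p = 0
    · have h3 : ((ε / 2 : ℝ) : ℂ) ∈ f '' U := by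
        apply hball
        rw [h0, Metric.mem_ball, dist_zero_right, Complex.norm_real, Real.norm_eq_abs,
          abs_of_pos (by positivity)]
        linarith
      obtain ⟨x, hx, hxe⟩ := h3
      have h4 := hmax x hx
      rw [hxe, h0, Complex.norm_real, norm_zero, Real.norm_eq_abs, abs_of_pos (by positivity)] at h4
      linarith
    · have hn : 0 < ‖f p‖ := norm_pos_iff.mpr h0
      set t : ℝ := 1 + ε / (2 * ‖f p‖) with ht
      have ht1 : 0 < ε / (2 * ‖f p‖) := by positivity
      have h3 : (t : ℂ) * f p ∈ f '' U := by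
        apply hball
        rw [Metric.mem_ball, dist_eq_norm]
        have h5 : (t : ℂ) * f p - f p = ((ε / (2 * ‖f p‖) : ℝ) : ℂ) * f p := by
          rw [ht]; push_cast; ring
        rw [h5, norm_mul, Complex.norm_real, Real.norm_eq_abs, abs_of_pos ht1]
        have h6 : ε / (2 * ‖f p‖) * ‖f p‖ = ε / 2 := by field_simp
        rw [h6]; linarith
      obtain ⟨x, hx, hxe⟩ := h3
      have h4 := hmax x hx
      rw [hxe, norm_mul, Complex.norm_real, Real.norm_eq_abs, abs_of_pos (by positivity)] at h4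
      nlinarith
  exact HolAt.eqOn_of_preconnected hUc hf (fun x _ => holAt_const _ x) hp
    (hev.filter_mono nhdsWithin_le_nhds).frequently

/-! ### Topology of Riemann surfaces -/

omit [RS X] in
/-- Every point has arbitrarily small open neighbourhoods which are images of discs under chart
inverses. -/
theorem exists_disc {p : X} {U : Set X} (hU : U ∈ 𝓝 p) {e : OpenPartialHomeomorph X ℂ}
    (hp : p ∈ e.source) : ∃ r > 0, Metric.closedBall (e p) r ⊆ e.target ∧
      e.symm '' Metric.closedBall (e p) r ⊆ U ∧ IsOpen (e.symm '' Metric.ball (e p) r) ∧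
      p ∈ e.symm '' Metric.ball (e p) r := by
  have h1 : e.target ∩ e.symm ⁻¹' U ∈ 𝓝 (e p) :=
    inter_mem (e.open_target.mem_nhds (e.map_source hp)) (tendsto_symm hp hU)
  obtain ⟨r, hr, hball⟩ := Metric.nhds_basis_closedBall.mem_iff.mp h1
  refine ⟨r, hr, fun z hz => (hball hz).1, ?_, ?_, ?_⟩
  · rintro _ ⟨z, hz, rfl⟩
    exact (hball hz).2
  · exact e.symm.isOpen_image_of_subset_source Metric.isOpen_ball
      (fun z hz => (hball (Metric.ball_subset_closedBall hz)).1)
  · exact ⟨e p, Metric.mem_ball_self hr, e.left_inv hp⟩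

/-- Every point has arbitrarily small open contractible neighbourhoods. -/
theorem exists_contractible_nhd (p : X) {U : Set X} (hU : U ∈ 𝓝 p) :
    ∃ V : Set X, IsOpen V ∧ p ∈ V ∧ V ⊆ U ∧ ContractibleSpace V := by
  obtain ⟨e, he, hp⟩ := RS.exists_chart p
  obtain ⟨r, hr, h1, h2, h3, h4⟩ := exists_disc hU hp
  refine ⟨e.symm '' Metric.ball (e p) r, h3, h4,
    (image_mono Metric.ball_subset_closedBall).trans h2, ?_⟩
  have hc : ContractibleSpace (Metric.ball (e p) r) := Metric.contractibleSpace_ball hr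
  have hs : Metric.ball (e p) r ⊆ e.symm.source := Metric.ball_subset_closedBall.trans h1
  exact (e.symm.homeomorphOfImageSubsetSource hs rfl).contractibleSpace_iff.mp hc

theorem exists_simplyConnected_nhd (p : X) (U : Set X) (hU : U ∈ 𝓝 p) :
    ∃ V : Set X, IsOpen V ∧ p ∈ V ∧ V ⊆ U ∧ SimplyConnectedSpace V := by
  obtain ⟨V, h1, h2, h3, h4⟩ := exists_contractible_nhd p hU
  exact ⟨V, h1, h2, h3, inferInstance⟩

theorem exists_preconnected_nhd (p : X) {U : Set X} (hU : U ∈ 𝓝 p) :
    ∃ V : Set X, IsOpen V ∧ p ∈ V ∧ V ⊆ U ∧ IsPreconnected V := by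
  obtain ⟨V, h1, h2, h3, h4⟩ := exists_contractible_nhd p hU
  refine ⟨V, h1, h2, h3, ?_⟩
  rw [isPreconnected_iff_preconnectedSpace]
  infer_instance

/-- Riemann surfaces are locally path connected. -/
instance instLPC : LocallyPathConnectedSpace X := by
  refine LocallyPathConnectedSpace.of_bases (p := fun x (s : Set X) => s ∈ 𝓝 x ∧ IsPathConnected s)
    (s := fun _ s => s) ?_ (fun x s hs => hs.2)
  intro x
  refine hasBasis_self.mpr ?_
  intro t ht
  obtain ⟨V, h1, h2, h3, h4⟩ := exists_contractible_nhd x ht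
  refine ⟨V, h1.mem_nhds h2, ?_, h3⟩
  rw [isPathConnected_iff_pathConnectedSpace]
  infer_instance

theorem isPreconnected_punctured_ball (c : ℂ) (r : ℝ) :
    IsPreconnected (Metric.ball c r \ {c}) := by
  have h : Metric.ball c r \ {c} =
      (fun x : ℝ × ℝ => c + (x.1 : ℂ) * Complex.exp (x.2 * Complex.I)) '' (Ioo 0 r ×ˢ univ) := by
    ext z
    constructor
    · rintro ⟨hz, hzc⟩
      have hzc' : z - c ≠ 0 := sub_ne_zero.mpr hzc
      refine ⟨(‖z - c‖, Complex.arg (z - c)), ⟨⟨norm_pos_iff.mpr hzc', ?_⟩, trivial⟩, ?_⟩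
      · rw [Metric.mem_ball, dist_eq_norm] at hz; exact hz
      · simp only [Complex.norm_mul_exp_arg_mul_I]; ring
    · rintro ⟨⟨ρ, θ⟩, ⟨⟨h1, h2⟩, -⟩, rfl⟩
      simp only at h1 h2 ⊢
      constructor
      · rw [Metric.mem_ball, dist_eq_norm, add_sub_cancel_left, norm_mul,
          Complex.norm_exp_ofReal_mul_I, mul_one, Complex.norm_real, Real.norm_eq_abs,
          abs_of_pos h1]
        exact h2
      · simp only [mem_singleton_iff, add_eq_left, mul_eq_zero, Complex.ofReal_eq_zero,
          Complex.exp_ne_zero, or_false]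
        exact h1.ne'
  rw [h]
  refine ((isPreconnected_Ioo.prod isPreconnected_univ).image _ ?_)
  fun_prop

/-- A small punctured disc is connected. -/
theorem exists_punctured_nhd (p : X) {U : Set X} (hU : U ∈ 𝓝 p) :
    ∃ V : Set X, IsOpen V ∧ p ∈ V ∧ V ⊆ U ∧ IsPreconnected (V \ {p}) ∧ (V \ {p}).Nonempty := by
  obtain ⟨e, he, hp⟩ := RS.exists_chart p
  obtain ⟨r, hr, h1, h2, h3, h4⟩ := exists_disc hU hp
  refine ⟨e.symm '' Metric.ball (e p) r, h3, h4,
    (image_mono Metric.ball_subset_closedBall).trans h2, ?_, ?_⟩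
  · have hinj : InjOn e.symm (Metric.ball (e p) r) :=
      e.symm.injOn.mono (Metric.ball_subset_closedBall.trans h1)
    have heq : e.symm '' Metric.ball (e p) r \ {p} = e.symm '' (Metric.ball (e p) r \ {e p}) := by
      rw [hinj.image_sdiff]
      congr 1
      have : Metric.ball (e p) r ∩ {e p} = {e p} := by
        rw [inter_eq_right, singleton_subset_iff]; exact Metric.mem_ball_self hr
      rw [this, image_singleton, e.left_inv hp]
    rw [heq]
    exact (isPreconnected_punctured_ball _ _).image _ ((e.continuousOn_symm.mono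
      (Metric.ball_subset_closedBall.trans h1)).mono sdiff_subset)
  · have h5 : ∀ᶠ x in 𝓝[≠] p, x ∈ e.symm '' Metric.ball (e p) r :=
      nhdsWithin_le_nhds (h3.mem_nhds h4)
    have h6 : ∀ᶠ x in 𝓝[≠] p, x ≠ p := self_mem_nhdsWithin
    obtain ⟨x, hx, hx'⟩ := (h5.and h6).exists
    exact ⟨x, hx, hx'⟩

/-- A connected open subset of a Riemann surface remains connected after removing a
point. -/
theorem isPreconnected_diff_singleton [T1Space X] {U : Set X} (hUo : IsOpen U)
    (hUc : IsPreconnected U) (p : X) : IsPreconnected (U \ {p}) := by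
  by_cases hp : p ∈ U
  · obtain ⟨V, hVo, hpV, hVU, hVc, hVn⟩ := exists_punctured_nhd p (hUo.mem_nhds hp)
    have key : ∀ u v : Set X, IsOpen u → IsOpen v → U \ {p} ⊆ u ∪ v →
        ((U \ {p}) ∩ v).Nonempty → V \ {p} ⊆ u → ((U \ {p}) ∩ (u ∩ v)).Nonempty := by
      rintro u v hu hv huv ⟨y, ⟨hyU, hyp⟩, hyv⟩ hVu
      have h1 := hUc (u ∪ V) (v \ {p}) (hu.union hVo) (hv.sdiff isClosed_singleton) (by
        intro x hx
        by_cases hxp : x = p
        · subst hxp; exact Or.inl (Or.inr hpV)
        · rcases huv ⟨hx, hxp⟩ with h | h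
          · exact Or.inl (Or.inl h)
          · exact Or.inr ⟨h, hxp⟩) ⟨p, hp, Or.inr hpV⟩ ⟨y, hyU, hyv, hyp⟩
      obtain ⟨x, hxU, hx1, hxv, hxp⟩ := h1
      refine ⟨x, ⟨hxU, hxp⟩, ?_, hxv⟩
      rcases hx1 with h | h
      · exact h
      · exact hVu ⟨h, hxp⟩
    intro u v hu hv huv hu' hv'
    by_cases h1 : ((V \ {p}) ∩ v).Nonempty
    · by_cases h2 : ((V \ {p}) ∩ u).Nonempty
      · obtain ⟨x, ⟨hxV, hxp⟩, hx2⟩ := hVc u v hu hv
          ((sdiff_subset_sdiff_left hVU).trans huv) h2 h1
        exact ⟨x, ⟨hVU hxV, hxp⟩, hx2⟩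
      · have h3 : V \ {p} ⊆ v := by
          intro x hx
          rcases huv ⟨hVU hx.1, hx.2⟩ with h | h
          · exact absurd ⟨x, hx, h⟩ h2
          · exact h
        have := key v u hv hu (by rwa [union_comm]) hu' h3
        rwa [inter_comm v u] at this
    · have h3 : V \ {p} ⊆ u := by
        intro x hx
        rcases huv ⟨hVU hx.1, hx.2⟩ with h | h
        · exact h
        · exact absurd ⟨x, hx, h⟩ h1
      exact key u v hu hv huv hv' h3
  · rwa [sdiff_singleton_eq_self hp]

theorem isPreconnected_diff_finite [T1Space X] {U : Set X} (hUo : IsOpen U)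
    (hUc : IsPreconnected U) {E : Set X} (hE : E.Finite) : IsPreconnected (U \ E) := by
  induction E, hE using Set.Finite.induction_on generalizing U with
  | empty => simpa using hUc
  | @insert a E ha hE ih =>
    have h1 := isPreconnected_diff_singleton hUo hUc a
    have h2 := ih (hUo.sdiff isClosed_singleton) h1
    rwa [sdiff_sdiff, singleton_union] at h2

/-! ### The Riemann sphere -/

theorem holAt_coe (z : ℂ) : HolAt (fun w : ℂ => (w : P)) z := by
  rw [holAt_iff_of_chart' (e' := chart0) OnePoint.continuous_coe.continuousAt (by simp [RS.atlas])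
    (by rw [chart0_source]; simp)]
  refine analyticAt_id.congr (Eventually.of_forall fun w => ?_)
  beta_reduce
  rw [chart0_coe]; rfl

theorem chart0_mem : chart0 ∈ RS.atlas (X := P) := by simp [RS.atlas]
theorem chart1_mem : chart1 ∈ RS.atlas (X := P) := by simp [RS.atlas]

theorem chart0_apply {x : P} (hx : x ≠ OnePoint.infty) : chart0 x = valP x := by
  induction x using OnePoint.rec with
  | infty => exact absurd rfl hx
  | coe z => rw [chart0_coe, valP_coe]

theorem invP_eq_infty {x : P} : invP x = OnePoint.infty ↔ x = ((0 : ℂ) : P) := by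
  constructor
  · intro h; rw [← invP_invP x, h, invP_infty]
  · rintro rfl; exact invP_zero

theorem holAt_invP (x : P) : HolAt invP x := by
  by_cases h : x = OnePoint.infty
  · refine HolAt.of_charts continuous_invP.continuousAt chart1_mem chart0_mem
      (by rw [chart1_source, h]; simp) (by rw [chart0_source, h]; simp) ?_
    refine analyticAt_id.congr (Eventually.of_forall fun w => ?_)
    beta_reduce
    rw [chart1_symm, invP_invP, chart0_coe]; rfl
  · refine HolAt.of_charts continuous_invP.continuousAt chart0_mem chart1_mem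
      (by rw [chart0_source]; exact h) (by
        rw [chart1_source]; intro h'
        have h2 : invP x = ((0 : ℂ) : P) := h'
        rw [← invP_invP x, h2, invP_zero] at h
        exact h rfl) ?_
    refine analyticAt_id.congr (Eventually.of_forall fun w => ?_)
    beta_reduce
    rw [chart0_symm, chart1_apply, invP_invP, chart0_coe]; rfl

/-- A sphere valued map which is holomorphic and finite at `p`, is locally a complex valued
holomorphic function. -/
theorem HolAt.valP {f : X → P} {p : X} (hf : HolAt f p) (h : f p ≠ OnePoint.infty) :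
    HolAt (fun x => valP (f x)) p := by
  have h1 : HolAt chart0 (f p) := holAt_chart chart0_mem (by rw [chart0_source]; exact h)
  refine (h1.comp hf).congr ?_
  have h2 : ∀ᶠ x in 𝓝 p, f x ≠ OnePoint.infty := hf.1.eventually_ne h
  filter_upwards [h2] with x hx
  exact chart0_apply hx

/-- A complex valued holomorphic function is holomorphic as a map to the sphere. -/
theorem HolAt.coe {f : X → ℂ} {p : X} (hf : HolAt f p) : HolAt (fun x => (f x : P)) p :=
  (holAt_coe (f p)).comp hf

theorem holAt_iff_valP {f : X → P} {p : X} (h : f p ≠ OnePoint.infty) (hc : ContinuousAt f p) :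
    HolAt f p ↔ HolAt (fun x => valP (f x)) p := by
  constructor
  · intro hf; exact hf.valP h
  · intro hf
    refine hf.coe.congr ?_
    have h2 : ∀ᶠ x in 𝓝 p, f x ≠ OnePoint.infty := hc.eventually_ne h
    filter_upwards [h2] with x hx
    obtain ⟨z, hz⟩ := OnePoint.ne_infty_iff_exists.mp hx
    rw [← hz, valP_coe]

theorem antiHolAt_cjP (x : P) : AntiHolAt cjP x := by
  have hcont : Continuous cjP := by
    refine OnePoint.continuous_map Complex.continuous_conj ?_
    rw [coclosedCompact_eq_cocompact]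
    exact Complex.conjCLE.toHomeomorph.isClosedEmbedding.tendsto_cocompact
  by_cases h : x = OnePoint.infty
  · refine AntiHolAt.of_charts hcont.continuousAt chart1_mem chart1_mem
      (by rw [chart1_source, h]; simp) (by rw [chart1_source, h]; simp) ?_
    refine analyticAt_id.congr (Eventually.of_forall fun w => ?_)
    beta_reduce
    rw [chart1_symm, chart1_apply]
    have : invP (cjP (invP (w : P))) = (((starRingEnd ℂ) w : ℂ) : P) := by
      by_cases hw : w = 0
      · subst hw; simp
      · rw [invP_coe hw, cjP_coe, invP_coe (by simpa using hw)]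
        simp
    rw [this, chart0_coe]; simp
  · refine AntiHolAt.of_charts hcont.continuousAt chart0_mem chart0_mem
      (by rw [chart0_source]; exact h) (by
        rw [chart0_source]
        obtain ⟨z, hz⟩ := OnePoint.ne_infty_iff_exists.mp h
        rw [← hz, cjP_coe]; simp) ?_
    refine analyticAt_id.congr (Eventually.of_forall fun w => ?_)
    beta_reduce
    rw [chart0_symm, cjP_coe, chart0_coe]; simp

theorem continuous_cjP : Continuous cjP :=
  continuous_iff_continuousAt.mpr fun x => (antiHolAt_cjP x).1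

/-- The affine map `z ↦ a z + b` of the sphere. -/
noncomputable def affP (a b : ℂ) : P → P := OnePoint.map fun z => a * z + b

@[simp] theorem affP_coe (a b z : ℂ) : affP a b (z : P) = ((a * z + b : ℂ) : P) := rfl
@[simp] theorem affP_infty (a b : ℂ) : affP a b OnePoint.infty = OnePoint.infty := rfl

theorem continuous_affP {a : ℂ} (ha : a ≠ 0) (b : ℂ) : Continuous (affP a b) := by
  refine OnePoint.continuous_map (by fun_prop) ?_
  rw [coclosedCompact_eq_cocompact]
  exact ((Homeomorph.mulLeft₀ a ha).trans (Homeomorph.addRight b)).isClosedEmbedding.tendsto_cocompact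

theorem holAt_affP {a : ℂ} (ha : a ≠ 0) (b : ℂ) (x : P) : HolAt (affP a b) x := by
  have hc := continuous_affP ha b
  by_cases h : x = OnePoint.infty
  · refine HolAt.of_charts hc.continuousAt chart1_mem chart1_mem
      (by rw [chart1_source, h]; simp) (by rw [chart1_source, h]; simp) ?_
    have h1 : chart1 x = 0 := by
      rw [chart1_apply, h, invP_infty, chart0_coe]
    rw [h1]
    have h2 : AnalyticAt ℂ (fun w : ℂ => w / (a + b * w)) 0 := by
      apply AnalyticAt.div analyticAt_id (by fun_prop) (by simpa using ha)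
    refine h2.congr ?_
    have h3 : ∀ᶠ w : ℂ in 𝓝 0, a + b * w ≠ 0 := by
      have : ContinuousAt (fun w : ℂ => a + b * w) 0 := by fun_prop
      exact this.eventually_ne (by simpa using ha)
    filter_upwards [h3] with w hw
    rw [chart1_symm, chart1_apply]
    by_cases hw0 : w = 0
    · subst hw0; simp [chart0_coe]
    · rw [invP_coe hw0, affP_coe]
      have h4 : a * w⁻¹ + b ≠ 0 := by
        intro h5; apply hw; field_simp at h5; linear_combination h5
      rw [invP_coe h4, chart0_coe]
      have : a * w⁻¹ + b = (a + b * w) / w := by field_simp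
      rw [this, inv_div]
  · obtain ⟨z, rfl⟩ := OnePoint.ne_infty_iff_exists.mp h
    refine HolAt.of_charts hc.continuousAt chart0_mem chart0_mem
      (by rw [chart0_source]; simp) (by rw [chart0_source, affP_coe]; simp) ?_
    have h2 : AnalyticAt ℂ (fun w : ℂ => a * w + b) (chart0 (z : P)) := by fun_prop
    refine h2.congr (Eventually.of_forall fun w => ?_)
    beta_reduce
    rw [chart0_symm, affP_coe, chart0_coe]

/-- The two dimensional disc lemma: a sphere valued map given near `p` by `1/u`. -/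
theorem holAt_of_invP {f : X → P} {p : X} (h : HolAt (fun x => invP (f x)) p) : HolAt f p := by
  have := (holAt_invP _).comp h
  simpa only [invP_invP] using this

end Pool.Agent.Lib.MP_1f4a82_an
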