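import Pool.Agent.Lib.MP_1f4a82_an.CoverDefs

/-!
The bounded case of the type analysis: if the covering surface carries a holomorphic function with
bounded imaginary part vanishing exactly on the line, the curve is stable.
-/

open Topology Filter Set

namespace Pool.Agent.Lib.MP_1f4a82_an

namespace CaseA

/-- One half of the three lines estimate. -/
theorem neg_im_le {G : ℂ → ℂ} {η M : ℝ} (hη : 0 < η)
    (hG : ∀ s : ℂ, 0 ≤ s.im → s.im < η → AnalyticAt ℂ G s)
    (hb : ∀ s : ℂ, 0 ≤ s.im → s.im < η → |(G s).im| ≤ M) (h0 : ∀ x : ℝ, (G x).im = 0) :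
    ∀ s : ℂ, 0 ≤ s.im → s.im ≤ η / 2 → -(G s).im ≤ 2 * s.im / η * M := by
  intro s hs1 hs2
  set f : ℂ → ℂ := fun z => Complex.exp (Complex.I * G (Complex.I * z)) with hf
  have hη2 : (0 : ℝ) < η / 2 := by linarith
  have him : ∀ z : ℂ, (Complex.I * z).im = z.re := fun z => by simp
  have hfn : ∀ z, ‖f z‖ = Real.exp (-(G (Complex.I * z)).im) := by
    intro z
    rw [hf]
    simp only [Complex.norm_exp]
    congr 1
    simp
  have hd : ∀ z : ℂ, 0 ≤ z.re → z.re < η → AnalyticAt ℂ f z := by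
    intro z h1 h2
    have h3 : AnalyticAt ℂ G (Complex.I * z) := hG _ (by rw [him]; exact h1) (by rw [him]; exact h2)
    have h4 : AnalyticAt ℂ (fun z => G (Complex.I * z)) z :=
      AnalyticAt.fun_comp (g := G) (f := fun z => Complex.I * z) h3 (by fun_prop)
    exact (analyticAt_const.mul h4).cexp
  have hcl : closure (Complex.HadamardThreeLines.verticalStrip 0 (η / 2)) ⊆
      Complex.HadamardThreeLines.verticalClosedStrip 0 (η / 2) := by
    apply closure_minimal
    · intro z hz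
      exact ⟨hz.1.le, hz.2.le⟩
    · exact isClosed_Icc.preimage Complex.continuous_re
  have hdc : DiffContOnCl ℂ f (Complex.HadamardThreeLines.verticalStrip 0 (η / 2)) := by
    constructor
    · intro z hz
      exact (hd z hz.1.le (lt_trans hz.2 (by linarith))).differentiableAt.differentiableWithinAt
    · intro z hz
      have hz' := hcl hz
      exact (hd z hz'.1 (lt_of_le_of_lt hz'.2 (by linarith))).continuousAt.continuousWithinAt
  have hbd : ∀ z ∈ Complex.HadamardThreeLines.verticalClosedStrip 0 (η / 2), ‖f z‖ ≤ Real.exp M := by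
    intro z hz
    rw [hfn]
    apply Real.exp_le_exp.mpr
    have := hb (Complex.I * z) (by rw [him]; exact hz.1)
      (by rw [him]; exact lt_of_le_of_lt hz.2 (by linarith))
    have h2 := (abs_le.mp this).1
    linarith
  have hz0 : (-Complex.I * s) ∈ Complex.HadamardThreeLines.verticalClosedStrip 0 (η / 2) := by
    constructor
    · simpa using hs1
    · simpa using hs2
  have key := Complex.HadamardThreeLines.norm_le_interp_of_mem_verticalClosedStrip' (f := f)
    (z := -Complex.I * s) (a := 1) (b := Real.exp M) (l := 0) (u := η / 2) hη2 hz0 hdc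
    (by
      refine ⟨Real.exp M, ?_⟩
      rintro _ ⟨z, hz, rfl⟩
      exact hbd z hz)
    (by
      intro z hz
      rw [hfn]
      have hz' : z.re = 0 := hz
      have h1 : Complex.I * z = ((-z.im : ℝ) : ℂ) := by
        apply Complex.ext
        · simp
        · simp [hz']
      rw [h1, h0]
      simp)
    (by
      intro z hz
      apply hbd
      have hz' : z.re = η / 2 := hz
      exact ⟨by rw [hz']; linarith, hz'.le⟩)
  rw [hfn] at key
  have h1 : Complex.I * (-Complex.I * s) = s := by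
    rw [← mul_assoc]; simp
  have h2 : (-Complex.I * s).re = s.im := by simp
  rw [h1, h2, Real.one_rpow, one_mul, ← Real.exp_mul, Real.exp_le_exp] at key
  calc -(G s).im ≤ M * ((s.im - 0) / (η / 2 - 0)) := key
    _ = 2 * s.im / η * M := by
      have := hη.ne'
      rw [sub_zero, sub_zero]
      field_simp

/-- The three lines estimate on the strip. -/
theorem abs_im_le {G : ℂ → ℂ} {η M : ℝ} (hη : 0 < η)
    (hG : ∀ s ∈ strip η, AnalyticAt ℂ G s)
    (hb : ∀ s ∈ strip η, |(G s).im| ≤ M) (h0 : ∀ x : ℝ, (G x).im = 0) :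
    ∀ s : ℂ, |s.im| ≤ η / 2 → |(G s).im| ≤ 2 * |s.im| / η * M := by
  have hst : ∀ s : ℂ, 0 ≤ s.im → s.im < η → s ∈ strip η := by
    intro s h1 h2
    change |s.im| < η
    rw [abs_of_nonneg h1]; exact h2
  have hst' : ∀ s : ℂ, 0 ≤ s.im → s.im < η → -s ∈ strip η := by
    intro s h1 h2
    change |(-s).im| < η
    rw [Complex.neg_im, abs_neg, abs_of_nonneg h1]; exact h2
  have a1 := neg_im_le (G := G) (M := M) hη (fun s h1 h2 => hG s (hst s h1 h2))
    (fun s h1 h2 => hb s (hst s h1 h2)) h0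
  have a2 := neg_im_le (G := fun s => - G s) (M := M) hη (fun s h1 h2 => (hG s (hst s h1 h2)).neg)
    (fun s h1 h2 => by
      simp only [Complex.neg_im, abs_neg]; exact hb s (hst s h1 h2))
    (fun x => by simp only [Complex.neg_im, h0, neg_zero])
  have hneg : ∀ s : ℂ, 0 ≤ s.im → s.im < η → AnalyticAt ℂ (fun s => G (-s)) s := by
    intro s h1 h2
    exact AnalyticAt.fun_comp (g := G) (f := fun s : ℂ => -s) (hG _ (hst' s h1 h2)) (by fun_prop)
  have a3 := neg_im_le (G := fun s => G (-s)) (M := M) hη hneg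
    (fun s h1 h2 => hb _ (hst' s h1 h2))
    (fun x => by
      have := h0 (-x)
      simpa using this)
  have a4 := neg_im_le (G := fun s => - G (-s)) (M := M) hη (fun s h1 h2 => (hneg s h1 h2).neg)
    (fun s h1 h2 => by
      simp only [Complex.neg_im, abs_neg]; exact hb _ (hst' s h1 h2))
    (fun x => by
      have := h0 (-x)
      simpa using this)
  intro s hs
  rcases le_total 0 s.im with h | h
  · rw [abs_of_nonneg h] at hs ⊢
    rw [abs_le]
    have b1 := a1 s h hs
    have b2 := a2 s h hs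
    simp only [Complex.neg_im, neg_neg] at b2
    constructor
    · linarith
    · exact b2
  · have h' : 0 ≤ (-s).im := by simpa using h
    rw [abs_of_nonpos h] at hs ⊢
    rw [abs_le]
    have b1 := a3 (-s) h' (by simpa using hs)
    have b2 := a4 (-s) h' (by simpa using hs)
    simp only [Complex.neg_im, neg_neg] at b1 b2
    constructor
    · linarith
    · exact b2

theorem iterate_hol {X : Type} [TopologicalSpace X] [RS X] {Φ : X → X} (h : ∀ p, HolAt Φ p)
    (n : ℕ) : ∀ p, HolAt Φ^[n] p := by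
  induction n with
  | zero => intro p; exact holAt_id p
  | succ n ih =>
    intro p
    rw [Function.iterate_succ]
    exact HolAt.comp (g := Φ^[n]) (f := Φ) (ih _) (h p)

theorem abs_im_vert {s : ℂ} {t : ℝ} (ht : t ∈ uIcc 0 s.im) : |t| ≤ |s.im| := by
  rcases le_total 0 s.im with h | h
  · rw [uIcc_of_le h] at ht
    rw [abs_of_nonneg ht.1, abs_of_nonneg h]; exact ht.2
  · rw [uIcc_of_ge h] at ht
    rw [abs_of_nonpos ht.2, abs_of_nonpos h]; linarith [ht.1]

end CaseA

open CaseA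

theorem CoverData.stable_of_bounded {f : P → P} {c : InvCurve f} {d : ℕ} {X S : Type}
    [TopologicalSpace X] [RS X] [T2Space X] (D : CoverData f c d X S)
    (H : X → ℂ) (hH : ∀ x, HolAt H x) {M : ℝ} (hb : ∀ x, |(H x).im| ≤ M)
    (h0 : ∀ x, (H x).im = 0 ↔ x ∈ D.L.ell) : c.Stable := by
  have hη := c.η_pos
  have hM : 0 ≤ M := (abs_nonneg _).trans (hb (D.L.γ 0))
  have hLη : D.L.η = c.η := D.L_η
  have hγhol : ∀ s ∈ strip c.η, HolAt D.L.γ s := fun s hs => D.L.hol s (by rw [hLη]; exact hs)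
  -- the estimate
  have est : ∀ Θ : X → X, (∀ p, HolAt Θ p) → (∀ x : ℝ, Θ (D.L.γ x) ∈ D.L.ell) →
      ∀ s : ℂ, |s.im| ≤ c.η / 2 → |(H (Θ (D.L.γ s))).im| ≤ 2 * |s.im| / c.η * M := by
    intro Θ hΘ hΘ0
    refine abs_im_le (G := fun s => H (Θ (D.L.γ s))) hη ?_ (fun s _ => hb _)
      (fun x => (h0 _).mpr (hΘ0 x))
    intro s hs
    rw [← holAt_iff_analyticAt]
    exact HolAt.comp (g := H) (f := fun s => Θ (D.L.γ s)) (hH _)
      (HolAt.comp (g := Θ) (f := D.L.γ) (hΘ _) (hγhol s hs))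
  intro O hO hcO
  -- choice of `δ1`
  have hcont : ContinuousOn c.γ (strip c.η) := fun s hs =>
    (c.hol s hs).continuousAt.continuousWithinAt
  have hW : IsOpen (strip c.η ∩ c.γ ⁻¹' O) := hcont.isOpen_inter_preimage (isOpen_strip _) hO
  have hK : IsCompact ((fun x : ℝ => (x : ℂ)) '' Icc 0 1) :=
    isCompact_Icc.image Complex.continuous_ofReal
  obtain ⟨δ0, hδ0, hδ0W⟩ := hK.exists_thickening_subset_open hW (by
    rintro _ ⟨x, -, rfl⟩
    exact ⟨by simp [strip, hη], hcO x⟩)
  obtain ⟨δ1, hδ1, hδ1η, hδ1r, hδ10⟩ : ∃ δ1 : ℝ, 0 < δ1 ∧ δ1 < c.η ∧ δ1 < D.L.rad ∧ δ1 < δ0 := by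
    obtain ⟨δ1, h1, h2⟩ := exists_between (lt_min hη (lt_min D.L.rad_pos hδ0))
    exact ⟨δ1, h1, lt_of_lt_of_le h2 (min_le_left _ _),
      lt_of_lt_of_le h2 ((min_le_right _ _).trans (min_le_left _ _)),
      lt_of_lt_of_le h2 ((min_le_right _ _).trans (min_le_right _ _))⟩
  have hfloor : ∀ s : ℂ, (s + ((-⌊s.re⌋ : ℤ) : ℂ)).re = Int.fract s.re ∧
      (s + ((-⌊s.re⌋ : ℤ) : ℂ)).im = s.im := by
    intro s
    constructor
    · rw [Complex.add_re, Complex.intCast_re, Int.fract]; push_cast; ring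
    · rw [Complex.add_im, Complex.intCast_im, add_zero]
  have hO1 : ∀ s : ℂ, |s.im| ≤ δ1 → c.γ s ∈ O := by
    intro s hs
    rw [← c.per_int (-⌊s.re⌋) s]
    refine (hδ0W ?_).2
    rw [Metric.mem_thickening_iff]
    refine ⟨(Int.fract s.re : ℝ), ⟨_, ⟨Int.fract_nonneg _, (Int.fract_lt_one _).le⟩, rfl⟩, ?_⟩
    obtain ⟨e1, e2⟩ := hfloor s
    have h3 : (s + ((-⌊s.re⌋ : ℤ) : ℂ)) - ((Int.fract s.re : ℝ) : ℂ) = Complex.I * (s.im : ℝ) := by
      apply Complex.ext
      · rw [Complex.sub_re, e1]; simp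
      · rw [Complex.sub_im, e2]; simp
    rw [dist_eq_norm, h3, norm_mul, Complex.norm_I, one_mul, Complex.norm_real, Real.norm_eq_abs]
    exact lt_of_le_of_lt hs hδ10
  -- choice of `ε`
  obtain ⟨ε, hε, hεK⟩ : ∃ ε > 0, ∀ s : ℂ, 0 ≤ s.re → s.re ≤ 1 → |s.im| = δ1 →
      ε ≤ |(H (D.L.γ s)).im| := by
    have hK2 : IsCompact {s : ℂ | s.re ∈ Icc (0 : ℝ) 1 ∧ |s.im| = δ1} := by
      apply Metric.isCompact_of_isClosed_isBounded
      · apply IsClosed.inter
        · exact isClosed_Icc.preimage Complex.continuous_re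
        · exact isClosed_eq (by fun_prop) continuous_const
      · rw [isBounded_iff_forall_norm_le]
        refine ⟨1 + δ1, ?_⟩
        rintro s ⟨⟨h1, h2⟩, h3⟩
        calc ‖s‖ ≤ |s.re| + |s.im| := Complex.norm_le_abs_re_add_abs_im s
          _ ≤ 1 + δ1 := by rw [h3, abs_of_nonneg h1]; linarith
    have hc2 : ContinuousOn (fun s => |(H (D.L.γ s)).im|)
        {s : ℂ | s.re ∈ Icc (0 : ℝ) 1 ∧ |s.im| = δ1} := by
      intro s hs
      have hs' : s ∈ strip c.η := by
        change |s.im| < c.η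
        rw [hs.2]; exact hδ1η
      have h1 : ContinuousAt (fun s => H (D.L.γ s)) s :=
        (HolAt.comp (g := H) (f := D.L.γ) (hH _) (hγhol s hs')).continuousAt
      exact (Complex.continuous_im.continuousAt.comp h1).abs.continuousWithinAt
    have hne : {s : ℂ | s.re ∈ Icc (0 : ℝ) 1 ∧ |s.im| = δ1}.Nonempty := by
      refine ⟨Complex.I * (δ1 : ℝ), ?_, ?_⟩
      · simp
      · simp [abs_of_pos hδ1]
    obtain ⟨s0, hs0, hmin⟩ := hK2.exists_isMinOn hne hc2
    refine ⟨|(H (D.L.γ s0)).im|, ?_, fun s h1 h2 h3 => hmin (show s ∈ _ from ⟨⟨h1, h2⟩, h3⟩)⟩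
    rw [gt_iff_lt, abs_pos]
    intro h1
    rw [h0, D.L.mem_ell_iff (by
      rw [hLη]
      change |s0.im| < c.η
      rw [hs0.2]; exact hδ1η)] at h1
    have h2 := hs0.2
    rw [h1, abs_zero] at h2
    exact hδ1.ne h2
  -- choice of `δ`
  obtain ⟨δ, hδ, hδδ1, hδη, hδε⟩ : ∃ δ : ℝ, 0 < δ ∧ δ ≤ δ1 ∧ δ ≤ c.η / 2 ∧
      2 * δ / c.η * M < ε := by
    refine ⟨min δ1 (min (c.η / 2) (ε * c.η / (2 * (M + 1)))), by positivity, min_le_left _ _,
      (min_le_right _ _).trans (min_le_left _ _), ?_⟩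
    have h1 : min δ1 (min (c.η / 2) (ε * c.η / (2 * (M + 1)))) ≤ ε * c.η / (2 * (M + 1)) :=
      (min_le_right _ _).trans (min_le_right _ _)
    calc 2 * min δ1 (min (c.η / 2) (ε * c.η / (2 * (M + 1)))) / c.η * M
        ≤ 2 * (ε * c.η / (2 * (M + 1))) / c.η * M := by gcongr
      _ = ε * (M / (M + 1)) := by field_simp
      _ < ε * 1 := by
          apply mul_lt_mul_of_pos_left _ hε
          rw [div_lt_one (by linarith)]; linarith
      _ = ε := mul_one _
  have hΦγ : ∀ (n : ℕ) (x : ℝ), D.Φ^[n] (D.L.γ x) = D.L.γ (c.F^[n] x : ℝ) := by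
    intro n
    induction n with
    | zero => intro x; rfl
    | succ n ih =>
      intro x
      rw [Function.iterate_succ_apply, D.Φ_γ, ih, ← Function.iterate_succ_apply]
  have hΦhol : ∀ n p, HolAt D.Φ^[n] p := iterate_hol D.Φ_hol
  -- the main claim
  have hA : IsOpen (D.L.γ '' {s | |s.im| < δ1}) := by
    have h1 : D.L.γ '' {s | |s.im| < δ1} =
        ⋃ x : ℝ, D.L.γ '' ({s | |s.im| < δ1} ∩ Metric.ball (x : ℂ) D.L.rad) := by
      apply subset_antisymm
      · rintro _ ⟨s, hs, rfl⟩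
        rw [mem_iUnion]
        refine ⟨s.re, s, ⟨hs, ?_⟩, rfl⟩
        rw [Metric.mem_ball, dist_eq_norm]
        have h3 : s - (s.re : ℂ) = Complex.I * (s.im : ℝ) := by
          apply Complex.ext <;> simp
        rw [h3, norm_mul, Complex.norm_I, one_mul, Complex.norm_real, Real.norm_eq_abs]
        exact lt_trans hs hδ1r
      · apply iUnion_subset
        rintro x _ ⟨s, hs, rfl⟩
        exact ⟨s, hs.1, rfl⟩
    rw [h1]
    exact isOpen_iUnion fun x => D.L.isOpen_image x
      ((isOpen_strip δ1).inter Metric.isOpen_ball) inter_subset_right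
  have hB : IsOpen (D.L.γ '' {s | |s.im| ≤ δ1})ᶜ := (D.closed δ1 hδ1.le hδ1η).isOpen_compl
  have hAB : Disjoint (D.L.γ '' {s | |s.im| < δ1}) (D.L.γ '' {s | |s.im| ≤ δ1})ᶜ := by
    rw [disjoint_compl_right_iff_subset]
    exact image_mono fun s (hs : |s.im| < δ1) => (le_of_lt hs : |s.im| ≤ δ1)
  have claim : ∀ (n : ℕ) (s : ℂ), |s.im| < δ → D.Φ^[n] (D.L.γ s) ∈ D.L.γ '' {s | |s.im| < δ1} := by
    intro n s hs
    have hv : ∀ t : ℝ, (((s.re : ℝ) : ℂ) + (t : ℂ) * Complex.I).im = t := by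
      intro t; simp
    have hcI : ContinuousOn (fun t : ℝ => D.Φ^[n] (D.L.γ (s.re + t * Complex.I)))
        (uIcc 0 s.im) := by
      intro t ht
      have h1 : ((s.re : ℝ) : ℂ) + (t : ℂ) * Complex.I ∈ strip c.η := by
        change |_| < c.η
        rw [hv]
        linarith [abs_im_vert ht]
      have h2 := (HolAt.comp (g := D.Φ^[n]) (f := D.L.γ) (hΦhol n _) (hγhol _ h1)).continuousAt
      have h3 : ContinuousAt (fun t : ℝ => ((s.re : ℝ) : ℂ) + (t : ℂ) * Complex.I) t := by
        fun_prop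
      exact (ContinuousAt.comp' (g := fun z => D.Φ^[n] (D.L.γ z))
        (f := fun t : ℝ => ((s.re : ℝ) : ℂ) + (t : ℂ) * Complex.I) h2 h3).continuousWithinAt
    have hpre : IsPreconnected ((fun t : ℝ => D.Φ^[n] (D.L.γ (s.re + t * Complex.I))) ''
        (uIcc 0 s.im)) := isPreconnected_uIcc.image _ hcI
    have hsub := IsPreconnected.subset_left_of_subset_union hA hB hAB ?_ ?_ hpre
    · have h1 := hsub ⟨s.im, right_mem_uIcc, rfl⟩
      simp only [Complex.re_add_im] at h1
      exact h1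
    · rintro _ ⟨t, ht, rfl⟩
      by_cases hy : D.Φ^[n] (D.L.γ (s.re + t * Complex.I)) ∈ D.L.γ '' {s | |s.im| ≤ δ1}
      · obtain ⟨s1, hs1, hs1'⟩ := hy
        rcases lt_or_eq_of_le (show |s1.im| ≤ δ1 from hs1) with h1 | h1
        · exact Or.inl ⟨s1, h1, hs1'⟩
        · exfalso
          obtain ⟨T, hT1, -, hT2⟩ := D.trans (-⌊s1.re⌋)
          have hs1η : s1 ∈ strip c.η := by
            change |s1.im| < c.η
            rw [h1]; exact hδ1η
          obtain ⟨e1, e2⟩ := hfloor s1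
          have h2 := hεK (s1 + ((-⌊s1.re⌋ : ℤ) : ℂ)) (by rw [e1]; exact Int.fract_nonneg _)
            (by rw [e1]; exact (Int.fract_lt_one _).le) (by rw [e2]; exact h1)
          rw [← hT2 s1 hs1η, hs1'] at h2
          have h3 := est (fun p => T (D.Φ^[n] p))
            (fun p => HolAt.comp (g := T) (f := D.Φ^[n]) (hT1 _) (hΦhol n p))
            (fun x => by
              rw [hΦγ, hT2 _ (by simp [strip, hη])]
              exact ⟨c.F^[n] x + ((-⌊s1.re⌋ : ℤ) : ℝ), by push_cast; rfl⟩)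
            (s.re + t * Complex.I) (by rw [hv]; linarith [abs_im_vert ht])
          rw [hv] at h3
          have h4 : 2 * |t| / c.η * M ≤ 2 * δ / c.η * M := by
            have := abs_im_vert ht
            gcongr
            linarith
          linarith
      · exact Or.inr hy
    · refine ⟨D.L.γ (c.F^[n] s.re : ℝ), ⟨0, left_mem_uIcc, ?_⟩, ⟨_, ?_, rfl⟩⟩
      · simp only [Complex.ofReal_zero, zero_mul, add_zero]
        exact hΦγ n s.re
      · simp [hδ1]
  refine ⟨δ, hδ, by linarith, fun n s hs => ?_⟩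
  obtain ⟨s1, hs1, hs1'⟩ := claim n s hs
  have hsη : s ∈ strip c.η := by
    have : |s.im| < δ := hs
    change |s.im| < c.η
    linarith
  have hs1η : s1 ∈ strip c.η := by
    change |s1.im| < c.η
    exact lt_trans hs1 hδ1η
  have hfh : ∀ (n : ℕ) p, f^[n] (D.h p) = D.h (D.Φ^[n] p) := by
    intro n
    induction n with
    | zero => intro p; rfl
    | succ n ih =>
      intro p
      rw [Function.iterate_succ_apply, ← D.h_Φ, ih, ← Function.iterate_succ_apply]
  rw [← D.h_γ s hsη, hfh, ← hs1', D.h_γ s1 hs1η]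
  exact hO1 s1 (le_of_lt hs1)

end Pool.Agent.Lib.MP_1f4a82_an
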