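import Pool.Agent.Lib.MP_1f4a82_an.Rat

/-!
Entire functions: the facts used in the plane case of the type analysis.
-/

open Topology Filter Set

namespace Pool.Agent.Lib.MP_1f4a82_an

namespace CaseB

/-- An entire function which stays away from a value near infinity is a polynomial. -/
theorem entire_poly {G : ℂ → ℂ} (hG : Differentiable ℂ G) (hn : ∃ x y, G x ≠ G y) (q : ℂ)
    (ε R : ℝ) (hε : 0 < ε) (h : ∀ z, R ≤ ‖z‖ → ε ≤ ‖G z - q‖) :
    ∃ p : Polynomial ℂ, ∀ z, G z = p.eval z := by
  -- the function `1 / (G (1/w) - q)` near zero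
  let u : ℂ → ℂ := fun w => (G w⁻¹ - q)⁻¹
  have hfar : ∀ᶠ w : ℂ in 𝓝[≠] 0, ε ≤ ‖G w⁻¹ - q‖ := by
    have h1 : Tendsto (fun w : ℂ => ‖w⁻¹‖) (𝓝[≠] 0) atTop :=
      tendsto_norm_cobounded_atTop.comp (tendsto_inv₀_nhdsNE_zero (α := ℂ))
    filter_upwards [h1.eventually_ge_atTop R] with w hw using h _ hw
  have hud : ∀ᶠ w : ℂ in 𝓝[≠] 0, DifferentiableAt ℂ u w := by
    filter_upwards [hfar, self_mem_nhdsWithin] with w hw hw0
    have hne : G w⁻¹ - q ≠ 0 := by
      intro h0
      rw [h0, norm_zero] at hw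
      linarith
    have h1 : DifferentiableAt ℂ (fun w : ℂ => G w⁻¹) w :=
      (hG _).comp w (differentiableAt_inv hw0)
    exact (h1.sub_const q).inv hne
  have hub : IsBoundedUnder (· ≤ ·) (𝓝[≠] (0 : ℂ)) fun w => ‖u w - u 0‖ := by
    refine ⟨ε⁻¹ + ‖u 0‖, ?_⟩
    rw [eventually_map]
    filter_upwards [hfar] with w hw
    have h1 : ‖u w‖ ≤ ε⁻¹ := by
      rw [norm_inv]
      exact inv_anti₀ hε hw
    exact (norm_sub_le _ _).trans (by linarith)
  have hlim := Complex.tendsto_limUnder_of_differentiable_on_punctured_nhds_of_bounded_under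
    hud hub
  set l : ℂ := limUnder (𝓝[≠] (0 : ℂ)) u with hl
  have hva : AnalyticAt ℂ (Function.update u 0 l) 0 := by
    apply Complex.analyticAt_of_differentiable_on_punctured_nhds_of_continuousAt
    · have h2 : ∀ᶠ w : ℂ in 𝓝[≠] 0, u =ᶠ[𝓝 w] Function.update u 0 l := by
        filter_upwards [self_mem_nhdsWithin] with w hw
        filter_upwards [isOpen_ne.mem_nhds hw] with w' hw'
        rw [Function.update_of_ne hw']
      filter_upwards [hud, h2] with w hw hw2
      exact hw.congr_of_eventuallyEq hw2.symm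
    · rw [continuousAt_update_same]
      exact hlim
  -- the holomorphic self-map of the sphere
  let M : P → P := fun x => OnePoint.elim x ((l : ℂ) : P) (fun z => invP ((G z - q : ℂ) : P))
  have hMc : ∀ z : ℂ, M (z : P) = invP ((G z - q : ℂ) : P) := fun z => rfl
  have hMhol : ∀ x, HolAt M x := by
    intro x
    induction x using OnePoint.rec with
    | infty =>
      rw [holAt_infty_iff]
      have h3 : HolAt (fun w : ℂ => ((Function.update u 0 l w : ℂ) : P)) 0 :=
        HolAt.coe (holAt_iff_analyticAt.2 hva)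
      refine h3.congr ?_
      rw [eventually_nhdsWithin_iff] at hfar
      filter_upwards [hfar] with w hw
      by_cases hw0 : w = 0
      · subst hw0
        rw [Function.update_self, invP_zero]
        rfl
      · rw [Function.update_of_ne hw0, invP_coe hw0, hMc, invP_coe]
        intro h0
        have := hw hw0
        rw [h0, norm_zero] at this
        linarith
    | coe z =>
      rw [holAt_coe_iff]
      refine (holAt_invP _).comp (HolAt.coe (f := fun w : ℂ => G w - q) ?_)
      rw [holAt_iff_analyticAt]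
      exact (hG.sub_const q).analyticAt z
  have hMn : ∃ x y, M x ≠ M y := by
    obtain ⟨x, y, hxy⟩ := hn
    refine ⟨(x : P), (y : P), fun h0 => hxy ?_⟩
    rw [hMc, hMc] at h0
    have h1 := congrArg invP h0
    rw [invP_invP, invP_invP] at h1
    have h2 := OnePoint.coe_injective h1
    linear_combination h2
  obtain ⟨A, B, hco, hB, -, hAB⟩ := exists_ratMap hMhol hMn
  have hval : ∀ z : ℂ, invP ((G z - q : ℂ) : P) =
      if B.eval z = 0 then OnePoint.infty else ((A.eval z / B.eval z : ℂ) : P) := by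
    intro z
    rw [← hMc, hAB, rat_ratMap_coe]
  have hAroot : ∀ z : ℂ, A.eval z ≠ 0 := by
    intro z hz
    have hBz : B.eval z ≠ 0 := by
      intro hBz
      obtain ⟨a, b, hab⟩ := hco
      have := congrArg (Polynomial.eval z) hab
      simp [hz, hBz] at this
    have h1 := hval z
    rw [if_neg hBz, hz, zero_div] at h1
    have h2 := congrArg invP h1
    rw [invP_invP, invP_zero] at h2
    exact OnePoint.coe_ne_infty _ h2
  have hdeg : A.degree = 0 := by
    by_contra hd
    obtain ⟨z, hz⟩ := IsAlgClosed.exists_root A hd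
    exact hAroot z hz
  obtain ⟨a, ha⟩ : ∃ a, A = Polynomial.C a := ⟨_, Polynomial.eq_C_of_degree_eq_zero hdeg⟩
  have ha0 : a ≠ 0 := by
    intro h0
    apply hAroot 0
    rw [ha, h0]
    simp
  refine ⟨Polynomial.C q + B * Polynomial.C a⁻¹, fun z => ?_⟩
  rw [Polynomial.eval_add, Polynomial.eval_mul, Polynomial.eval_C, Polynomial.eval_C]
  have h1 := hval z
  by_cases hBz : B.eval z = 0
  · rw [if_pos hBz, invP_eq_infty] at h1
    have h2 := OnePoint.coe_injective h1
    rw [hBz]
    linear_combination h2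
  · rw [if_neg hBz, ha, Polynomial.eval_C] at h1
    have hne : G z - q ≠ 0 := by
      intro h0
      rw [h0, invP_zero] at h1
      exact OnePoint.coe_ne_infty _ h1.symm
    rw [invP_coe hne] at h1
    have h2 := OnePoint.coe_injective h1
    have h3 : G z - q = B.eval z / a := by
      rw [← inv_inv (G z - q), h2, inv_div]
    rw [div_eq_mul_inv] at h3
    linear_combination h3

/-- An injective entire function is affine. -/
theorem entire_affine {G : ℂ → ℂ} (hG : Differentiable ℂ G) (hi : Function.Injective G) :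
    ∃ a b : ℂ, a ≠ 0 ∧ ∀ z, G z = a * z + b := by
  have hopen : G '' Metric.ball 0 1 ∈ 𝓝 (G 0) := by
    have h1 : HolAt G 0 := holAt_iff_analyticAt.2 (hG.analyticAt 0)
    rw [← h1.map_nhds_of_injOn univ_mem hi.injOn]
    exact image_mem_map (Metric.ball_mem_nhds 0 one_pos)
  obtain ⟨ε, hε, hball⟩ := Metric.mem_nhds_iff.1 hopen
  obtain ⟨p, hp⟩ := entire_poly hG ⟨0, 1, fun h => zero_ne_one (hi h)⟩ (G 0) ε 1 hε (by
    intro z hz
    by_contra hcon
    rw [not_le] at hcon
    obtain ⟨y, hy, hy2⟩ := hball (show G z ∈ Metric.ball (G 0) ε by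
      rw [Metric.mem_ball, dist_eq_norm]; exact hcon)
    rw [hi hy2, Metric.mem_ball, dist_zero_right] at hy
    linarith)
  have hd : ∀ z, p.derivative.eval z ≠ 0 := by
    intro z
    have h1 : deriv G z ≠ 0 := deriv_ne_zero_of_injOn (hG.analyticAt z) univ_mem hi.injOn
    have h2 : G = fun z => p.eval z := funext hp
    rw [h2, Polynomial.deriv] at h1
    exact h1
  have hdeg : p.derivative.degree = 0 := by
    by_contra hne
    obtain ⟨z, hz⟩ := IsAlgClosed.exists_root _ hne
    exact hd z hz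
  obtain ⟨a, ha⟩ : ∃ a, p.derivative = Polynomial.C a :=
    ⟨_, Polynomial.eq_C_of_degree_eq_zero hdeg⟩
  have ha0 : a ≠ 0 := by
    intro h0
    apply hd 0
    rw [ha, h0]
    simp
  have h3 : (p - Polynomial.C a * Polynomial.X).derivative = 0 := by
    rw [Polynomial.derivative_sub, ha]
    simp
  have h4 := Polynomial.eq_C_of_derivative_eq_zero h3
  refine ⟨a, (p - Polynomial.C a * Polynomial.X).coeff 0, ha0, fun z => ?_⟩
  have h5 := congrArg (Polynomial.eval z) h4
  rw [Polynomial.eval_sub, Polynomial.eval_C, Polynomial.eval_mul, Polynomial.eval_C,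
    Polynomial.eval_X] at h5
  rw [hp]
  linear_combination h5

/-- Iterating a period. -/
theorem periodic_int {K : ℂ → ℂ} {l : ℂ} (h : ∀ z, K (z + l) = K z) (n : ℤ) (z : ℂ) :
    K (z + n * l) = K z := by
  have hp : Function.Periodic K l := h
  exact (hp.int_mul n) z

/-- A doubly periodic entire function is constant. -/
theorem doubly_periodic {K : ℂ → ℂ} (hK : Differentiable ℂ K) {l1 l2 : ℂ} (h1 : l1.im = 0)
    (h1' : l1 ≠ 0) (h2 : l2.im ≠ 0) (p1 : ∀ z, K (z + l1) = K z) (p2 : ∀ z, K (z + l2) = K z)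
    (z w : ℂ) : K z = K w := by
  have hre : l1.re ≠ 0 := by
    intro h0
    exact h1' (Complex.ext h0 h1)
  have hl1 : l1 = (l1.re : ℂ) := Complex.ext (by simp) (by simp [h1])
  let Q : Set ℂ := (fun p : ℝ × ℝ => (p.1 : ℂ) * l1 + (p.2 : ℂ) * l2) '' (Icc 0 1 ×ˢ Icc 0 1)
  have hQ : IsCompact (K '' Q) := by
    refine ((isCompact_Icc.prod isCompact_Icc).image ?_).image hK.continuous
    fun_prop
  have hred : ∀ z, ∃ y ∈ Q, K y = K z := by
    intro z
    let b : ℝ := z.im / l2.im
    let a : ℝ := (z - b * l2).re / l1.re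
    have hz : z = (a : ℂ) * l1 + (b : ℂ) * l2 := by
      have e1 : (z - (b : ℂ) * l2).im = 0 := by
        simp only [Complex.sub_im, Complex.mul_im, Complex.ofReal_re, Complex.ofReal_im,
          zero_mul, add_zero]
        change z.im - z.im / l2.im * l2.im = 0
        rw [div_mul_cancel₀ _ h2, sub_self]
      have e2 : z - (b : ℂ) * l2 = (a : ℂ) * l1 := by
        apply Complex.ext
        · simp only [Complex.mul_re, Complex.ofReal_re, Complex.ofReal_im, zero_mul, sub_zero]
          change (z - (b : ℂ) * l2).re = (z - (b : ℂ) * l2).re / l1.re * l1.re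
          rw [div_mul_cancel₀ _ hre]
        · rw [e1]
          simp [h1]
      rw [← e2]
      ring
    refine ⟨((Int.fract a : ℝ) : ℂ) * l1 + ((Int.fract b : ℝ) : ℂ) * l2,
      ⟨(Int.fract a, Int.fract b), ⟨⟨Int.fract_nonneg _, (Int.fract_lt_one _).le⟩,
        ⟨Int.fract_nonneg _, (Int.fract_lt_one _).le⟩⟩, rfl⟩, ?_⟩
    have e3 : z = (((Int.fract a : ℝ) : ℂ) * l1 + ((Int.fract b : ℝ) : ℂ) * l2 +
        (⌊a⌋ : ℂ) * l1) + (⌊b⌋ : ℂ) * l2 := by
      rw [hz]
      have ea : (a : ℂ) = ((Int.fract a : ℝ) : ℂ) + (⌊a⌋ : ℂ) := by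
        have := Int.fract_add_floor a
        exact_mod_cast this.symm
      have eb : (b : ℂ) = ((Int.fract b : ℝ) : ℂ) + (⌊b⌋ : ℂ) := by
        have := Int.fract_add_floor b
        exact_mod_cast this.symm
      rw [ea, eb]
      ring
    conv_rhs => rw [e3]
    rw [periodic_int p2, periodic_int p1]
  have hbdd : Bornology.IsBounded (range K) := by
    refine hQ.isBounded.subset ?_
    rintro _ ⟨z, rfl⟩
    obtain ⟨y, hy, hy2⟩ := hred z
    exact ⟨y, hy, hy2⟩
  exact hK.apply_eq_apply_of_bounded hbdd z w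

/-- If the fibres of a nonconstant entire function have bounded cardinality then it stays away
from some value near infinity. -/
theorem exists_away {G : ℂ → ℂ} (hG : Differentiable ℂ G) (hn : ∃ x y, G x ≠ G y) (N : ℕ)
    (hN : ∀ q, ∀ s : Finset ℂ, (∀ z ∈ s, G z = q) → s.card ≤ N) :
    ∃ (q : ℂ) (ε R : ℝ), 0 < ε ∧ ∀ z, R ≤ ‖z‖ → ε ≤ ‖G z - q‖ := by
  classical
  by_contra hcon
  push Not at hcon
  have hmap : ∀ z, map G (𝓝 z) = 𝓝 (G z) := by
    intro z
    have h1 : HolAt G z := holAt_iff_analyticAt.2 (hG.analyticAt z)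
    refine h1.map_nhds fun hc => ?_
    obtain ⟨x, y, hxy⟩ := hn
    have h2 : G = fun _ => G z := by
      apply AnalyticOnNhd.eq_of_eventuallyEq (z₀ := z)
        (fun w _ => hG.analyticAt w) (fun w _ => analyticAt_const)
      exact hc
    exact hxy (by rw [h2])
  have key : ∀ m : ℕ, ∃ (q : ℂ) (s : Finset ℂ), (∀ z ∈ s, G z = q) ∧ s.card = m := by
    intro m
    induction m with
    | zero => exact ⟨0, ∅, by simp, rfl⟩
    | succ m ih =>
      obtain ⟨q, s, hs, hcard⟩ := ih
      obtain ⟨U, hU, hdisj⟩ := s.finite_toSet.t2_separation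
      have h1 : ∀ x ∈ s, G '' (U x ∩ Metric.ball x 1) ∈ 𝓝 q := by
        intro x hx
        rw [← hs x hx, ← hmap x]
        exact image_mem_map (inter_mem ((hU x).2.mem_nhds (hU x).1)
          (Metric.ball_mem_nhds x one_pos))
      have h2 : (⋂ x ∈ s, G '' (U x ∩ Metric.ball x 1)) ∈ 𝓝 q :=
        (biInter_finset_mem s).2 h1
      obtain ⟨ε, hε, hball⟩ := Metric.mem_nhds_iff.1 h2
      obtain ⟨R, hR⟩ := (s.image fun x => ‖x‖).exists_le
      obtain ⟨z, hz1, hz2⟩ := hcon q ε (R + 1) hε
      have h3 : G z ∈ ⋂ x ∈ s, G '' (U x ∩ Metric.ball x 1) :=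
        hball (by rw [Metric.mem_ball, dist_eq_norm]; exact hz2)
      have h4 : ∀ x ∈ s, ∃ y, y ∈ U x ∩ Metric.ball x 1 ∧ G y = G z := by
        intro x hx
        exact mem_iInter₂.1 h3 x hx
      choose! g hg1 hg2 using h4
      refine ⟨G z, insert z (s.image g), ?_, ?_⟩
      · intro y hy
        rcases Finset.mem_insert.1 hy with rfl | hy
        · rfl
        · obtain ⟨x, hx, rfl⟩ := Finset.mem_image.1 hy
          exact hg2 x hx
      · rw [Finset.card_insert_of_notMem, Finset.card_image_of_injOn, hcard]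
        · intro x hx y hy hxy
          by_contra hne
          have h5 := hdisj hx hy hne
          exact (Set.disjoint_left.1 h5) (hg1 x hx).1 (hxy ▸ (hg1 y hy).1)
        · intro hz
          obtain ⟨x, hx, hxz⟩ := Finset.mem_image.1 hz
          have h5 := (hg1 x hx).2
          rw [hxz, Metric.mem_ball, dist_eq_norm] at h5
          have h6 : ‖x‖ ≤ R := hR _ (Finset.mem_image_of_mem _ hx)
          have h7 : ‖z‖ ≤ ‖z - x‖ + ‖x‖ := by
            have := norm_add_le (z - x) x
            rwa [sub_add_cancel] at this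
          linarith
  obtain ⟨q, s, hs, hcard⟩ := key (N + 1)
  have := hN q s hs
  omega

/-- A periodic neighbourhood of the real axis contains a strip. -/
theorem exists_strip {O : Set ℂ} (hO : IsOpen O) (hR : ∀ x : ℝ, (x : ℂ) ∈ O) {l : ℝ}
    (hl : l ≠ 0) (hper : ∀ z, z ∈ O ↔ z + (l : ℂ) ∈ O) :
    ∃ ε > 0, ∀ z : ℂ, |z.im| < ε → z ∈ O := by
  have hint : ∀ (n : ℤ) (z : ℂ), z + (n : ℂ) * (l : ℂ) ∈ O ↔ z ∈ O := by
    have hp : Function.Periodic (fun z => z ∈ O) (l : ℂ) := fun z => propext (hper z).symm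
    intro n z
    exact iff_of_eq ((hp.int_mul n) z)
  let Q : Set ℂ := (fun x : ℝ => ((x * l : ℝ) : ℂ)) '' Icc 0 1
  have hQ : IsCompact Q := isCompact_Icc.image (by fun_prop)
  have hQO : Q ⊆ O := by
    rintro _ ⟨x, -, rfl⟩
    exact hR _
  obtain ⟨δ, hδ, hth⟩ := hQ.exists_thickening_subset_open hO hQO
  refine ⟨δ, hδ, fun z hz => ?_⟩
  let a : ℝ := z.re / l
  have hz' : z = (((Int.fract a * l : ℝ) : ℂ) + z.im * Complex.I) + (⌊a⌋ : ℂ) * (l : ℂ) := by
    have h1 : z.re = Int.fract a * l + (⌊a⌋ : ℝ) * l := by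
      rw [← add_mul, Int.fract_add_floor]
      change z.re = z.re / l * l
      rw [div_mul_cancel₀ _ hl]
    apply Complex.ext
    · simp only [Complex.add_re, Complex.ofReal_re, Complex.mul_re, Complex.ofReal_im,
        Complex.I_re, mul_zero, Complex.I_im, Complex.intCast_re, Complex.intCast_im]
      rw [h1]
      ring
    · simp
  rw [hz', hint]
  apply hth
  rw [Metric.mem_thickening_iff]
  refine ⟨((Int.fract a * l : ℝ) : ℂ), ⟨Int.fract a, ⟨Int.fract_nonneg _,
    (Int.fract_lt_one _).le⟩, rfl⟩, ?_⟩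
  rw [dist_eq_norm, add_sub_cancel_left]
  simpa using hz

end CaseB

end Pool.Agent.Lib.MP_1f4a82_an
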