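import Pool.Agent.Lib.MP_1f4a82_an.Basic

/-!
Holomorphic self-maps of the Riemann sphere are rational functions.
-/

open Topology Filter Set

namespace Pool.Agent.Lib.MP_1f4a82_an

open Polynomial

theorem rat_ratMap_coe (A B : Polynomial ℂ) (z : ℂ) : ratMap A B (z : P) =
    if B.eval z = 0 then OnePoint.infty else ((A.eval z / B.eval z : ℂ) : P) := rfl

theorem rat_ratMap_infty (A B : Polynomial ℂ) : ratMap A B OnePoint.infty =
    if B.natDegree < A.natDegree then OnePoint.infty
      else ((A.coeff B.natDegree / B.coeff B.natDegree : ℂ) : P) := rfl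

/-- Holomorphy at a finite point can be tested in the coordinate. -/
theorem holAt_coe_iff {Y : Type} [TopologicalSpace Y] [RS Y] {F : P → Y} {z : ℂ} :
    HolAt F (z : P) ↔ HolAt (fun w : ℂ => F (w : P)) z := by
  constructor
  · intro h; exact h.comp (holAt_coe z)
  · intro h
    have h1 : HolAt chart0 (z : P) := holAt_chart chart0_mem (by rw [chart0_source]; simp)
    have h2 : HolAt (fun x : P => F ((chart0 x : ℂ) : P)) (z : P) := by
      apply HolAt.comp (g := fun w : ℂ => F (w : P)) (f := chart0)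
      · rw [chart0_coe]; exact h
      · exact h1
    refine h2.congr ?_
    have h3 : ∀ᶠ x : P in 𝓝 (z : P), x ∈ chart0.source :=
      chart0.open_source.mem_nhds (by rw [chart0_source]; simp)
    filter_upwards [h3] with x hx
    have := chart0.left_inv hx
    rw [chart0_symm] at this
    rw [this]

/-- Holomorphy at infinity can be tested in the coordinate `1/z`. -/
theorem holAt_infty_iff {Y : Type} [TopologicalSpace Y] [RS Y] {F : P → Y} :
    HolAt F OnePoint.infty ↔ HolAt (fun w : ℂ => F (invP (w : P))) 0 := by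
  constructor
  · intro h
    have h1 : HolAt (fun x : P => F (invP x)) ((0 : ℂ) : P) := by
      apply HolAt.comp (g := F) (f := invP)
      · rw [invP_zero]; exact h
      · exact holAt_invP _
    exact holAt_coe_iff.1 h1
  · intro h
    have h1 : HolAt (fun x : P => F (invP x)) ((0 : ℂ) : P) := holAt_coe_iff.2 h
    have h2 : HolAt (fun x : P => F (invP (invP x))) OnePoint.infty := by
      apply HolAt.comp (g := fun x : P => F (invP x)) (f := invP)
      · rw [invP_infty]; exact h1
      · exact holAt_invP _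
    simpa only [invP_invP] using h2

theorem holAt_rat_aux (A B : Polynomial ℂ) (z : ℂ) (h : A.eval z ≠ 0 ∨ B.eval z ≠ 0) :
    HolAt (fun w : ℂ => ratMap A B (w : P)) z := by
  have hAc : ContinuousAt (fun w => A.eval w) z := A.continuous.continuousAt
  have hBc : ContinuousAt (fun w => B.eval w) z := B.continuous.continuousAt
  have hAa : AnalyticAt ℂ (fun w => A.eval w) z := AnalyticOnNhd.eval_polynomial A z (mem_univ z)
  have hBa : AnalyticAt ℂ (fun w => B.eval w) z := AnalyticOnNhd.eval_polynomial B z (mem_univ z)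
  by_cases hB : B.eval z = 0
  · have hA : A.eval z ≠ 0 := by
      rcases h with h | h
      · exact h
      · exact absurd hB h
    apply holAt_of_invP
    have h1 : HolAt (fun w : ℂ => ((B.eval w / A.eval w : ℂ) : P)) z :=
      HolAt.coe (holAt_iff_analyticAt.2 (hBa.div hAa hA))
    refine h1.congr ?_
    filter_upwards [hAc.eventually_ne hA] with w hw
    rw [rat_ratMap_coe]
    split_ifs with h2
    · rw [h2, zero_div, invP_infty]
    · rw [invP_coe (div_ne_zero hw h2), inv_div]
  · have h1 : HolAt (fun w : ℂ => ((A.eval w / B.eval w : ℂ) : P)) z :=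
      HolAt.coe (holAt_iff_analyticAt.2 (hAa.div hBa hB))
    refine h1.congr ?_
    filter_upwards [hBc.eventually_ne hB] with w hw
    rw [rat_ratMap_coe, if_neg hw]

/-- The reversed polynomial. -/
theorem rat_eval_reflect {A : Polynomial ℂ} {N : ℕ} (hA : A.natDegree ≤ N) {w : ℂ} (hw : w ≠ 0) :
    (A.reflect N).eval w = w ^ N * A.eval w⁻¹ := by
  have hinv : Invertible (w⁻¹) := invertibleOfNonzero (inv_ne_zero hw)
  have h := eval₂_reflect_mul_pow (RingHom.id ℂ) (w⁻¹) N A hA
  have h2 : ⅟(w⁻¹) = w := by rw [invOf_eq_inv, inv_inv]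
  rw [h2, eval₂_id, eval₂_id] at h
  rw [← h, mul_comm, mul_assoc, ← mul_pow, inv_mul_cancel₀ hw, one_pow, mul_one]

theorem rat_eval_reflect_zero {A : Polynomial ℂ} {N : ℕ} :
    (A.reflect N).eval 0 = A.coeff N := by
  rw [← coeff_zero_eq_eval_zero, coeff_reflect]
  congr 1

theorem ratMap_inv {A B : Polynomial ℂ} (hB : B ≠ 0) {N : ℕ}
    (hN : N = max A.natDegree B.natDegree) (w : ℂ) :
    ratMap A B (invP (w : P)) = ratMap (A.reflect N) (B.reflect N) (w : P) := by
  have hA' : A.natDegree ≤ N := by omega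
  have hB' : B.natDegree ≤ N := by omega
  by_cases hw : w = 0
  · subst hw
    rw [invP_zero, rat_ratMap_infty, rat_ratMap_coe, rat_eval_reflect_zero, rat_eval_reflect_zero]
    by_cases h : B.natDegree < A.natDegree
    · rw [if_pos h, if_pos]
      exact coeff_eq_zero_of_natDegree_lt (by omega)
    · have h1 : N = B.natDegree := by omega
      rw [if_neg h, h1, if_neg]
      exact leadingCoeff_ne_zero.2 hB
  · rw [invP_coe hw, rat_ratMap_coe, rat_ratMap_coe, rat_eval_reflect hA' hw, rat_eval_reflect hB' hw]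
    have hwN : w ^ N ≠ 0 := pow_ne_zero _ hw
    by_cases h : B.eval w⁻¹ = 0
    · rw [if_pos h, if_pos (by rw [h, mul_zero])]
    · rw [if_neg h, if_neg (mul_ne_zero hwN h), mul_div_mul_left _ _ hwN]

theorem holAt_ratMap {A B : Polynomial ℂ} (h : IsCoprime A B) (hB : B ≠ 0) (x : P) :
    HolAt (ratMap A B) x := by
  induction x using OnePoint.rec with
  | coe z =>
    rw [holAt_coe_iff]
    apply holAt_rat_aux
    by_contra hcon
    push Not at hcon
    obtain ⟨u, v, huv⟩ := h
    have h1 := congrArg (Polynomial.eval z) huv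
    rw [eval_add, eval_mul, eval_mul, hcon.1, hcon.2] at h1
    simp at h1
  | infty =>
    rw [holAt_infty_iff]
    have h1 : HolAt (fun w : ℂ => ratMap (A.reflect (max A.natDegree B.natDegree))
        (B.reflect (max A.natDegree B.natDegree)) (w : P)) 0 := by
      apply holAt_rat_aux
      rw [rat_eval_reflect_zero, rat_eval_reflect_zero]
      by_cases h2 : B.natDegree < A.natDegree
      · left
        rw [max_eq_left h2.le]
        have : A ≠ 0 := by rintro rfl; simp at h2
        exact leadingCoeff_ne_zero.2 this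
      · right
        rw [max_eq_right (by omega)]
        exact leadingCoeff_ne_zero.2 hB
    refine h1.congr (Eventually.of_forall fun w => ?_)
    exact (ratMap_inv hB rfl w).symm

theorem ratMap_nonconst {A B : Polynomial ℂ} (h : IsCoprime A B)
    (hd : 1 ≤ max A.natDegree B.natDegree) : ∃ x y, ratMap A B x ≠ ratMap A B y := by
  have hB0 : B ≠ 0 := by
    rintro rfl
    rw [isCoprime_zero_right] at h
    have h1 := natDegree_eq_zero_of_isUnit h
    simp [h1] at hd
  obtain ⟨z₁, hz₁⟩ : ∃ z, B.eval z ≠ 0 := by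
    by_contra hcon
    push Not at hcon
    exact hB0 (Polynomial.funext fun z => by rw [hcon z, eval_zero])
  by_cases hB : B.natDegree = 0
  · have hA1 : A.natDegree ≠ 0 := by omega
    have hA0 : A ≠ 0 := by rintro rfl; simp at hA1
    obtain ⟨b, rfl⟩ : ∃ b, B = C b := ⟨_, eq_C_of_natDegree_eq_zero hB⟩
    have hb : b ≠ 0 := by rintro rfl; simp at hB0
    obtain ⟨z, hz⟩ : ∃ z, A.eval z = 0 := by
      have : A.degree ≠ 0 := by
        intro h2
        exact hA1 (natDegree_eq_zero_iff_degree_le_zero.2 h2.le)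
      obtain ⟨z, hz⟩ := IsAlgClosed.exists_root A this
      exact ⟨z, hz⟩
    obtain ⟨z₂, hz₂⟩ : ∃ z, A.eval z ≠ 0 := by
      by_contra hcon
      push Not at hcon
      exact hA0 (Polynomial.funext fun z => by rw [hcon z, eval_zero])
    refine ⟨(z : P), (z₂ : P), ?_⟩
    rw [rat_ratMap_coe, rat_ratMap_coe, eval_C, eval_C, if_neg hb, if_neg hb, hz, zero_div]
    intro h2
    have h3 := OnePoint.coe_injective h2
    exact (div_ne_zero hz₂ hb) h3.symm
  · obtain ⟨z, hz⟩ : ∃ z, B.eval z = 0 := by
      have : B.degree ≠ 0 := by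
        intro h2
        exact hB (natDegree_eq_zero_iff_degree_le_zero.2 h2.le)
      obtain ⟨z, hz⟩ := IsAlgClosed.exists_root B this
      exact ⟨z, hz⟩
    refine ⟨(z : P), (z₁ : P), ?_⟩
    rw [rat_ratMap_coe, rat_ratMap_coe, if_pos hz, if_neg hz₁]
    exact (OnePoint.coe_ne_infty _).symm

theorem ratMap_not_injective {A B : Polynomial ℂ} (h : IsCoprime A B)
    (hd : 2 ≤ max A.natDegree B.natDegree) : ¬ Function.Injective (ratMap A B) := by
  intro hinj
  have hB0 : B ≠ 0 := by
    rintro rfl
    rw [isCoprime_zero_right] at h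
    have h1 := natDegree_eq_zero_of_isUnit h
    simp [h1] at hd
  set n := max A.natDegree B.natDegree with hn
  have hno : ∀ z, ¬ (A.eval z = 0 ∧ B.eval z = 0) := by
    rintro z ⟨h1, h2⟩
    obtain ⟨u, v, huv⟩ := h
    have h3 := congrArg (Polynomial.eval z) huv
    rw [eval_add, eval_mul, eval_mul, h1, h2] at h3
    simp at h3
  -- the Wronskian
  set W := derivative A * B - A * derivative B with hW
  -- for all but one `w` there is a double root
  have key : ∀ w : ℂ, A.coeff n - w * B.coeff n ≠ 0 → ∃ z, A.eval z = w * B.eval z ∧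
      W.eval z = 0 := by
    intro w hw
    set Q := A - C w * B with hQ
    have hQn : Q.natDegree = n := by
      apply le_antisymm
      · refine (natDegree_sub_le _ _).trans (max_le (by omega) ?_)
        exact (natDegree_C_mul_le _ _).trans (by omega)
      · apply le_natDegree_of_ne_zero
        rw [hQ, coeff_sub, coeff_C_mul]; exact hw
    have hQ0 : Q ≠ 0 := by
      intro h1
      rw [h1] at hQn
      simp at hQn
      omega
    have hcard : Q.roots.card = n := by
      rw [← hQn]
      exact (splits_iff_card_roots.1 (IsAlgClosed.splits Q))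
    obtain ⟨z, hz⟩ : ∃ z, z ∈ Q.roots := by
      have : 0 < Q.roots.card := by omega
      exact Multiset.card_pos_iff_exists_mem.1 this
    have hroot : ∀ z, z ∈ Q.roots → A.eval z = w * B.eval z := by
      intro z hz
      have := (mem_roots hQ0).1 hz
      rw [IsRoot.def, hQ, eval_sub, eval_mul, eval_C, sub_eq_zero] at this
      exact this
    have hval : ∀ z, z ∈ Q.roots → ratMap A B (z : P) = (w : P) := by
      intro z hz
      have h1 := hroot z hz
      have h2 : B.eval z ≠ 0 := by
        intro h2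
        exact hno z ⟨by rw [h1, h2, mul_zero], h2⟩
      rw [rat_ratMap_coe, if_neg h2, h1, mul_div_cancel_right₀ _ h2]
    have hall : Q.roots = Multiset.replicate n z := by
      rw [Multiset.eq_replicate]
      refine ⟨hcard, ?_⟩
      intro z' hz'
      have h1 := hinj ((hval z' hz').trans (hval z hz).symm)
      exact OnePoint.coe_injective h1
    have hmult : 1 < Q.rootMultiplicity z := by
      rw [← count_roots, hall, Multiset.count_replicate_self]
      omega
    have hder := (one_lt_rootMultiplicity_iff_isRoot hQ0).1 hmult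
    refine ⟨z, hroot z hz, ?_⟩
    have h1 : (derivative Q).eval z = 0 := hder.2
    rw [hQ, derivative_sub, derivative_C_mul, eval_sub, eval_mul, eval_C, sub_eq_zero] at h1
    rw [hW, eval_sub, eval_mul, eval_mul, h1, hroot z hz]
    ring
  -- the Wronskian vanishes
  have hW0 : W = 0 := by
    by_contra hW0
    have hfin : {z : ℂ | W.eval z = 0}.Finite := by
      refine (W.roots.toFinset.finite_toSet).subset ?_
      intro z hz
      simp only [Finset.mem_coe, Multiset.mem_toFinset]
      exact (mem_roots hW0).2 hz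
    have hcof : {w : ℂ | A.coeff n - w * B.coeff n ≠ 0}.Infinite := by
      have h1 : {w : ℂ | A.coeff n - w * B.coeff n = 0}.Finite := by
        by_cases hBn : B.coeff n = 0
        · have hAn : A.coeff n ≠ 0 := by
            intro hAn
            rcases max_choice A.natDegree B.natDegree with h2 | h2
            · have h3 : A.leadingCoeff = 0 := by
                rw [leadingCoeff, ← h2, ← hn]; exact hAn
              have h4 : A = 0 := leadingCoeff_eq_zero.1 h3
              have h5 : A.natDegree = 0 := by rw [h4, natDegree_zero]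
              omega
            · have h3 : B.leadingCoeff = 0 := by
                rw [leadingCoeff, ← h2, ← hn]; exact hBn
              exact hB0 (leadingCoeff_eq_zero.1 h3)
          have : {w : ℂ | A.coeff n - w * B.coeff n = 0} = ∅ := by
            ext w
            simp [hBn, hAn]
          rw [this]; exact finite_empty
        · refine (finite_singleton (A.coeff n / B.coeff n)).subset ?_
          intro w hw
          have hw' : A.coeff n - w * B.coeff n = 0 := hw
          rw [mem_singleton_iff, eq_div_iff hBn]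
          linear_combination -hw'
      have h2 := h1.infinite_compl
      refine h2.mono ?_
      intro w hw hw'
      exact hw hw'
    choose! g hg1 hg2 using key
    have hginj : InjOn g {w : ℂ | A.coeff n - w * B.coeff n ≠ 0} := by
      intro w hw w' hw' hww
      have h1 := hg1 w hw
      have h2 := hg1 w' hw'
      rw [← hww] at h2
      have h3 : B.eval (g w) ≠ 0 := by
        intro h3
        exact hno (g w) ⟨by rw [h1, h3, mul_zero], h3⟩
      exact mul_right_cancel₀ h3 (h1.symm.trans h2)
    exact hcof (Set.Finite.of_finite_image (hfin.subset (by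
      rintro _ ⟨w, hw, rfl⟩
      exact hg2 w hw)) hginj)
  -- contradiction with coprimality
  have h1 : derivative A * B = A * derivative B := sub_eq_zero.1 hW0
  have hA' : A ∣ derivative A := by
    have : A ∣ derivative A * B := ⟨derivative B, h1⟩
    exact h.dvd_of_dvd_mul_right this
  have hB' : B ∣ derivative B := by
    have : B ∣ A * derivative B := ⟨derivative A, by rw [← h1]; ring⟩
    exact h.symm.dvd_of_dvd_mul_left this
  have hdeg : ∀ R : Polynomial ℂ, R ∣ derivative R → R.natDegree = 0 := by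
    intro R hR
    by_contra hR0
    have h2 : derivative R ≠ 0 := by
      intro h3
      exact hR0 (derivative_eq_zero.1 h3)
    have h3 := natDegree_le_of_dvd hR h2
    have h4 := natDegree_derivative_lt hR0
    omega
  have h2 := hdeg A hA'
  have h3 := hdeg B hB'
  omega

/-! ### The values of a nonconstant map -/

theorem rat_finite_fiber {F : P → P} (hF : ∀ p, HolAt F p) (hn : ∃ x y, F x ≠ F y) (c : P) :
    {x | F x = c}.Finite := by
  have hne : ∀ x, ∀ᶠ y in 𝓝[≠] x, F y ≠ c := by
    intro x
    rcases (hF x).eventually_eq_or_ne (holAt_const c x) with h | h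
    · exfalso
      have := HolAt.eq_of_eventuallyEq hF (fun x => holAt_const c x) h
      obtain ⟨x, y, hxy⟩ := hn
      rw [this] at hxy
      exact hxy rfl
    · exact h
  by_contra hinf
  obtain ⟨x, hx⟩ := Set.Infinite.exists_accPt_principal hinf
  rw [accPt_iff_frequently_nhdsNE] at hx
  obtain ⟨y, h1, h2⟩ := (hx.and_eventually (hne x)).exists
  exact h2 h1

theorem rat_valP_inv (x : P) : valP x = (valP (invP x))⁻¹ := by
  induction x using OnePoint.rec with
  | infty => simp
  | coe z =>
    by_cases hz : z = 0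
    · subst hz; simp
    · rw [invP_coe hz, valP_coe, valP_coe, inv_inv]

theorem rat_mer_aux {G : ℂ → P} {z : ℂ} (hG : HolAt G z) : MeromorphicNFAt (fun w => valP (G w)) z := by
  by_cases h : G z = OnePoint.infty
  · have h1 : HolAt (fun w => invP (G w)) z := (holAt_invP _).comp hG
    have h2 : HolAt (fun w => valP (invP (G w))) z := by
      apply h1.valP
      rw [h, invP_infty]
      exact OnePoint.coe_ne_infty _
    have h3 := (holAt_iff_analyticAt.1 h2).meromorphicNFAt.inv
    have h4 : (fun w => valP (G w)) = (fun w => valP (invP (G w)))⁻¹ := by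
      funext w
      rw [rat_valP_inv]; rfl
    rw [h4]; exact h3
  · exact (holAt_iff_analyticAt.1 (hG.valP h)).meromorphicNFAt

theorem rat_zpow_eq_div (x : ℂ) (n : ℤ) : x ^ n = x ^ n.toNat / x ^ (-n).toNat := by
  rcases le_total 0 n with h | h
  · obtain ⟨m, rfl⟩ := Int.eq_ofNat_of_zero_le h
    simp
  · obtain ⟨m, hm⟩ := Int.eq_ofNat_of_zero_le (neg_nonneg.2 h)
    have h1 : n = -(m : ℤ) := by omega
    subst h1
    simp

theorem rat_zpow_sum {w : ℂ} (hw : w ≠ 0) (T : Finset ℂ) (D : ℂ → ℤ) :
    w ^ (∑ u ∈ T, D u) = ∏ u ∈ T, w ^ D u := by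
  classical
  induction T using Finset.induction_on with
  | empty => simp
  | insert a T ha ih => rw [Finset.sum_insert ha, Finset.prod_insert ha, zpow_add₀ hw, ih]

theorem rat_holAt_infty_aux : HolAt (fun w : ℂ => invP (w : P)) 0 :=
  (holAt_invP _).comp (holAt_coe 0)

/-- The finite part of a holomorphic self-map of the sphere. -/
theorem rat_exists_factor {F : P → P} (hF : ∀ p, HolAt F p) (hn : ∃ x y, F x ≠ F y) :
    ∃ (T : Finset ℂ) (D : ℂ → ℤ) (c : ℂ), c ≠ 0 ∧
      ∀ z : ℂ, valP (F (z : P)) = c * ∏ u ∈ T, (z - u) ^ D u := by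
  set f : ℂ → ℂ := fun z => valP (F (z : P)) with hf
  have hFc : ∀ z : ℂ, HolAt (fun w : ℂ => F (w : P)) z := fun z => (hF (z : P)).comp (holAt_coe z)
  have hNF : ∀ z, MeromorphicNFAt f z := fun z => rat_mer_aux (hFc z)
  have hmer : MeromorphicOn f univ := fun z _ => (hNF z).meromorphicAt
  have hzero : {z : ℂ | f z = 0}.Finite := by
    have h1 := (rat_finite_fiber hF hn ((0 : ℂ) : P)).union (rat_finite_fiber hF hn OnePoint.infty)
    refine (h1.preimage (f := fun z : ℂ => (z : P)) OnePoint.coe_injective.injOn).subset ?_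
    intro z hz
    have hz' : valP (F (z : P)) = 0 := hz
    by_cases h2 : F (z : P) = OnePoint.infty
    · right; exact h2
    · left
      obtain ⟨y, hy⟩ := OnePoint.ne_infty_iff_exists.mp h2
      rw [← hy, valP_coe] at hz'
      show F (z : P) = ((0 : ℂ) : P)
      rw [← hy, hz']
  have hne : ∀ z, ∀ᶠ w in 𝓝[≠] z, f w ≠ 0 := by
    intro z
    have h1 : ({w : ℂ | f w = 0} \ {z}).Finite := hzero.subset sdiff_subset
    have h2 : ({w : ℂ | f w = 0} \ {z})ᶜ ∈ 𝓝 z :=
      h1.isClosed.isOpen_compl.mem_nhds (by simp)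
    filter_upwards [nhdsWithin_le_nhds h2, self_mem_nhdsWithin] with w hw hw' h3
    exact hw ⟨h3, hw'⟩
  have hord : ∀ z, meromorphicOrderAt f z ≠ ⊤ := by
    intro z
    rw [meromorphicOrderAt_ne_top_iff_eventually_ne_zero (hNF z).meromorphicAt]
    exact hne z
  set D : ℂ → ℤ := ⇑(MeromorphicOn.divisor f univ) with hD
  have hDsupp : (Function.support D) ⊆ {z : ℂ | f z = 0} := by
    intro z hz
    by_contra h1
    have h2 : f z ≠ 0 := h1
    have h3 := (hNF z).meromorphicOrderAt_eq_zero_iff.2 h2
    apply hz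
    rw [hD, MeromorphicOn.divisor_apply hmer (mem_univ z), h3]
    rfl
  have hDfin : (Function.support D).Finite := hzero.subset hDsupp
  obtain ⟨g, hg1, hg2, hg3⟩ := MeromorphicOn.extract_zeros_poles (f := f) (U := univ) hmer
    (fun u => hord u) hDfin
  have hg2' : ∀ z, g z ≠ 0 := fun z => hg2 ⟨z, mem_univ z⟩
  set T := hDfin.toFinset with hT
  have hprod : (∏ᶠ u, (· - u) ^ D u : ℂ → ℂ) = fun z => ∏ u ∈ T, (z - u) ^ D u := by
    rw [Function.FactorizedRational.finprod_eq_fun hDfin]
    funext z
    apply finprod_eq_prod_of_mulSupport_subset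
    intro u hu
    rw [hT, Set.Finite.coe_toFinset]
    intro h1
    apply hu
    show (z - u) ^ D u = 1
    rw [h1, zpow_zero]
  have hfg : ∀ z, f z = (∏ u ∈ T, (z - u) ^ D u) * g z := by
    intro z
    have h1 : MeromorphicNFAt ((∏ᶠ u, (· - u) ^ D u : ℂ → ℂ) • g) z := by
      have h2 : MeromorphicNFAt (∏ᶠ u, (· - u) ^ D u : ℂ → ℂ) z :=
        Function.FactorizedRational.meromorphicNFOn_univ D (mem_univ z)
      have h3 := (meromorphicNFAt_mul_iff_left (f := (∏ᶠ u, (· - u) ^ D u : ℂ → ℂ))
        (hg1 z (mem_univ z)) (hg2' z)).2 h2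
      rw [smul_eq_mul]
      exact h3
    have h4 : f =ᶠ[𝓝[≠] z] (∏ᶠ u, (· - u) ^ D u : ℂ → ℂ) • g := by
      refine (hNF z).meromorphicAt.eventuallyEq_nhdsNE_of_eventuallyEq_codiscreteWithin
        h1.meromorphicAt (mem_univ z) ?_ hg3
      rw [AccPt, principal_univ, inf_top_eq]
      infer_instance
    have h5 := ((hNF z).eventuallyEq_nhdsNE_iff_eventuallyEq_nhds h1).1 h4
    have h6 := h5.eq_of_nhds
    rw [h6, hprod]
    rfl
  -- behaviour at infinity
  set G : ℂ → ℂ := fun w => valP (F (invP (w : P))) with hG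
  have hGm : MeromorphicAt G 0 := (rat_mer_aux ((hF _).comp (rat_holAt_infty_aux))).meromorphicAt
  have hGf : ∀ w : ℂ, w ≠ 0 → G w = f w⁻¹ := by
    intro w hw
    simp only [hG, hf, invP_coe hw]
  have hfne : ∀ᶠ z in Bornology.cobounded ℂ, f z ≠ 0 := by
    have := hzero.isBounded
    exact this
  have hGord : meromorphicOrderAt G 0 ≠ ⊤ := by
    rw [meromorphicOrderAt_ne_top_iff_eventually_ne_zero hGm]
    filter_upwards [tendsto_inv₀_nhdsNE_zero.eventually hfne, self_mem_nhdsWithin] with w hw hw'
    rw [hGf w hw']; exact hw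
  obtain ⟨h, hh1, hh2, hh3⟩ := (meromorphicOrderAt_ne_top_iff hGm).1 hGord
  set n := (meromorphicOrderAt G 0).untop₀ with hn'
  set S := ∑ u ∈ T, D u with hS
  set q : ℂ → ℂ := fun w => h w / ∏ u ∈ T, (1 - u * w) ^ D u with hq
  have hden : AnalyticAt ℂ (fun w => ∏ u ∈ T, (1 - u * w) ^ D u) 0 := by
    apply Finset.analyticAt_fun_prod
    intro u _
    apply AnalyticAt.fun_zpow
    · fun_prop
    · simp
  have hden0 : (∏ u ∈ T, (1 - u * (0 : ℂ)) ^ D u) = 1 := by simp
  have hq1 : ContinuousAt q 0 := hh1.continuousAt.div hden.continuousAt (by rw [hden0]; simp)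
  have hq0 : q 0 ≠ 0 := by
    simp only [hq, hden0, div_one]; exact hh2
  have hgq : ∀ᶠ w in 𝓝[≠] (0 : ℂ), g w⁻¹ = w ^ (n + S) * q w := by
    have h1 : ∀ᶠ w in 𝓝[≠] (0 : ℂ), (∏ u ∈ T, (1 - u * w) ^ D u) ≠ 0 :=
      nhdsWithin_le_nhds (hden.continuousAt.eventually_ne (by rw [hden0]; simp))
    filter_upwards [hh3, h1, self_mem_nhdsWithin] with w hw1 hw2 hw3
    have hw0 : w ≠ 0 := hw3
    have h2 : f w⁻¹ = w ^ n * h w := by
      rw [← hGf w hw0, hw1, sub_zero, smul_eq_mul]
    rw [hfg] at h2
    have h3 : ∏ u ∈ T, (w⁻¹ - u) ^ D u = w ^ (-S) * ∏ u ∈ T, (1 - u * w) ^ D u := by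
      rw [hS, ← Finset.sum_neg_distrib]
      rw [show w ^ (∑ u ∈ T, -D u) = ∏ u ∈ T, w ^ (-D u) from rat_zpow_sum hw0 T _]
      rw [← Finset.prod_mul_distrib]
      refine Finset.prod_congr rfl fun u _ => ?_
      have h4 : w⁻¹ - u = w⁻¹ * (1 - u * w) := by field_simp
      rw [h4, mul_zpow, inv_zpow', zpow_neg]
    rw [h3] at h2
    have h5 : w ^ (-S) ≠ 0 := zpow_ne_zero _ hw0
    simp only [hq]
    rw [zpow_add₀ hw0, mul_div_assoc', eq_div_iff hw2]
    have h6 : w ^ S * w ^ (-S) = 1 := by rw [← zpow_add₀ hw0, add_neg_cancel, zpow_zero]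
    linear_combination (w ^ S) * h2 - (g w⁻¹ * ∏ u ∈ T, (1 - u * w) ^ D u) * h6
  have hgd : Differentiable ℂ g := fun z => (hg1 z (mem_univ z)).differentiableAt
  have hinv : Tendsto (fun z : ℂ => z⁻¹) (cocompact ℂ) (𝓝[≠] 0) := by
    rw [← Metric.cobounded_eq_cocompact]
    exact tendsto_inv₀_cobounded'
  have hconst : ∀ z, g z = g 0 := by
    rcases le_or_gt 0 (n + S) with hN | hN
    · obtain ⟨m, hm⟩ := Int.eq_ofNat_of_zero_le hN
      have h1 : Tendsto (fun w : ℂ => w ^ (n + S) * q w) (𝓝[≠] 0) (𝓝 (0 ^ m * q 0)) := by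
        have h2 : ContinuousAt (fun w : ℂ => w ^ m * q w) 0 := by fun_prop
        rw [hm]
        simp only [zpow_natCast]
        exact h2.tendsto.mono_left nhdsWithin_le_nhds
      have h3 : Tendsto (fun w : ℂ => g w⁻¹) (𝓝[≠] 0) (𝓝 (0 ^ m * q 0)) :=
        h1.congr' (hgq.mono fun w hw => hw.symm)
      have h4 : Tendsto g (cocompact ℂ) (𝓝 (0 ^ m * q 0)) := by
        have := h3.comp hinv
        refine this.congr ?_
        intro z
        simp
      intro z
      rw [hgd.apply_eq_of_tendsto_cocompact z h4, hgd.apply_eq_of_tendsto_cocompact 0 h4]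
    · exfalso
      obtain ⟨m, hm⟩ := Int.eq_ofNat_of_zero_le (show 0 ≤ -(n + S) - 1 by omega)
      have hm' : -(n + S) = ((m + 1 : ℕ) : ℤ) := by push_cast; omega
      have h1 : Tendsto (fun w : ℂ => w ^ (m + 1) * (q w)⁻¹) (𝓝[≠] 0)
          (𝓝 (0 ^ (m + 1) * (q 0)⁻¹)) := by
        have h2 : ContinuousAt (fun w : ℂ => w ^ (m + 1) * (q w)⁻¹) 0 :=
          (by fun_prop : ContinuousAt (fun w : ℂ => w ^ (m + 1)) 0).mul (hq1.inv₀ hq0)
        exact h2.tendsto.mono_left nhdsWithin_le_nhds
      have h3 : Tendsto (fun w : ℂ => (g w⁻¹)⁻¹) (𝓝[≠] 0) (𝓝 (0 ^ (m + 1) * (q 0)⁻¹)) := by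
        refine h1.congr' ?_
        filter_upwards [hgq] with w hw
        rw [hw, mul_inv, ← zpow_neg, hm', zpow_natCast]
      rw [pow_succ, mul_zero, zero_mul] at h3
      have h4 : Tendsto (fun z => (g z)⁻¹) (cocompact ℂ) (𝓝 0) := by
        have := h3.comp hinv
        refine this.congr ?_
        intro z
        simp
      have h5 : Differentiable ℂ (fun z => (g z)⁻¹) := fun z => (hgd z).inv (hg2' z)
      have h6 := h5.apply_eq_of_tendsto_cocompact 0 h4
      exact inv_ne_zero (hg2' 0) h6
  refine ⟨T, D, g 0, hg2' 0, ?_⟩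
  intro z
  rw [show valP (F (z : P)) = f z from rfl, hfg z, hconst z, mul_comm]

theorem exists_ratMap {F : P → P} (hF : ∀ p, HolAt F p) (hn : ∃ x y, F x ≠ F y) :
    ∃ A B : Polynomial ℂ, IsCoprime A B ∧ B ≠ 0 ∧ 1 ≤ max A.natDegree B.natDegree ∧
      F = ratMap A B := by
  obtain ⟨T, D, c, hc, hFT⟩ := rat_exists_factor hF hn
  set A : Polynomial ℂ := C c * ∏ u ∈ T, (X - C u) ^ (D u).toNat with hA
  set B : Polynomial ℂ := ∏ u ∈ T, (X - C u) ^ (-D u).toNat with hB
  have hAe : ∀ z, A.eval z = c * ∏ u ∈ T, (z - u) ^ (D u).toNat := by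
    intro z
    rw [hA, eval_mul, eval_C, eval_prod]
    simp
  have hBe : ∀ z, B.eval z = ∏ u ∈ T, (z - u) ^ (-D u).toNat := by
    intro z
    rw [hB, eval_prod]
    simp
  have hval : ∀ z : ℂ, valP (F (z : P)) = A.eval z / B.eval z := by
    intro z
    rw [hFT, hAe, hBe, mul_div_assoc, ← Finset.prod_div_distrib]
    congr 1
    exact Finset.prod_congr rfl fun u _ => rat_zpow_eq_div _ _
  have hB0 : B ≠ 0 := Finset.prod_ne_zero_iff.2 fun u _ => pow_ne_zero _ (X_sub_C_ne_zero u)
  have hcop : IsCoprime A B := by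
    have h1 : IsUnit (C c : Polynomial ℂ) := isUnit_C.2 (isUnit_iff_ne_zero.2 hc)
    rw [hA, isCoprime_mul_unit_left_left h1]
    apply IsCoprime.prod_left
    intro u _
    apply IsCoprime.prod_right
    intro v _
    by_cases huv : u = v
    · subst huv
      rcases le_total 0 (D u) with h2 | h2
      · have : (-D u).toNat = 0 := by omega
        rw [this, pow_zero]; exact isCoprime_one_right
      · have : (D u).toNat = 0 := by omega
        rw [this, pow_zero]; exact isCoprime_one_left
    · exact (pairwise_coprime_X_sub_C Function.injective_id huv).pow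
  have hno : ∀ z, B.eval z = 0 → A.eval z ≠ 0 := by
    intro z h1 h2
    obtain ⟨u, v, huv⟩ := hcop
    have h3 : u.eval z * A.eval z + v.eval z * B.eval z = 1 := by
      rw [← eval_mul, ← eval_mul, ← eval_add, huv, eval_one]
    rw [h1, h2] at h3
    simp at h3
  have hrat := holAt_ratMap hcop hB0
  have hFR : F = ratMap A B := by
    have hcF : Continuous F := continuous_iff_continuousAt.2 fun x => (hF x).continuousAt
    have hcR : Continuous (ratMap A B) :=
      continuous_iff_continuousAt.2 fun x => (hrat x).continuousAt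
    refine OnePoint.denseRange_coe.equalizer hcF hcR ?_
    funext z
    show F (z : P) = ratMap A B (z : P)
    have hcA : ContinuousAt (fun w => A.eval w) z := A.continuous.continuousAt
    have hcB : ContinuousAt (fun w => B.eval w) z := B.continuous.continuousAt
    have hFz : HolAt (fun w : ℂ => F (w : P)) z := (hF (z : P)).comp (holAt_coe z)
    have hBne : ∀ᶠ w in 𝓝[≠] z, B.eval w ≠ 0 := by
      have h2 : ((B.roots.toFinset \ {z} : Finset ℂ) : Set ℂ)ᶜ ∈ 𝓝 z :=
        (Finset.finite_toSet _).isClosed.isOpen_compl.mem_nhds (by simp)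
      filter_upwards [nhdsWithin_le_nhds h2, self_mem_nhdsWithin] with w hw hw' h3
      apply hw
      rw [Finset.mem_coe, Finset.mem_sdiff, Multiset.mem_toFinset, Finset.mem_singleton]
      exact ⟨(mem_roots hB0).2 h3, hw'⟩
    rw [rat_ratMap_coe]
    by_cases hz : F (z : P) = OnePoint.infty
    · rw [hz, if_pos]
      by_contra hBz
      -- `valP (invP F) * (A / B) = 1` near `z`
      have h1 : HolAt (fun w : ℂ => valP (invP (F (w : P)))) z := by
        apply ((holAt_invP _).comp hFz).valP
        rw [hz, invP_infty]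
        exact OnePoint.coe_ne_infty _
      have h2 : ContinuousAt (fun w : ℂ => valP (invP (F (w : P))) * (A.eval w / B.eval w)) z :=
        h1.continuousAt.mul (hcA.div hcB hBz)
      have h3 : ∀ᶠ w in 𝓝[≠] z, A.eval w / B.eval w ≠ 0 := by
        have := (rat_finite_fiber hF hn OnePoint.infty).union (rat_finite_fiber hF hn ((0 : ℂ) : P))
        have hfin := this.preimage (f := fun z : ℂ => (z : P)) OnePoint.coe_injective.injOn
        have h4 := (hfin.subset (sdiff_subset (t := {z}))).isClosed.isOpen_compl.mem_nhds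
          (x := z) (by simp)
        filter_upwards [nhdsWithin_le_nhds h4, self_mem_nhdsWithin] with w hw hw' h5
        apply hw
        refine ⟨?_, hw'⟩
        rw [← hval] at h5
        by_cases h6 : F (w : P) = OnePoint.infty
        · left; exact h6
        · right
          obtain ⟨y, hy⟩ := OnePoint.ne_infty_iff_exists.mp h6
          rw [← hy, valP_coe] at h5
          show F (w : P) = ((0 : ℂ) : P)
          rw [← hy, h5]
      have h4 : ∀ᶠ w : ℂ in 𝓝[≠] z, valP (invP (F (w : P))) * (A.eval w / B.eval w) = 1 := by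
        filter_upwards [h3] with w hw
        rw [← hval] at hw ⊢
        rw [rat_valP_inv (F (w : P))] at hw ⊢
        exact mul_inv_cancel₀ (by simpa using hw)
      have h5 : Tendsto (fun w : ℂ => valP (invP (F (w : P))) * (A.eval w / B.eval w)) (𝓝[≠] z)
          (𝓝 1) := tendsto_const_nhds.congr' (h4.mono fun w hw => hw.symm)
      have h6 := tendsto_nhds_unique h5 (h2.tendsto.mono_left nhdsWithin_le_nhds)
      rw [hz, invP_infty, valP_coe, zero_mul] at h6
      exact one_ne_zero h6
    · have hBz : B.eval z ≠ 0 := by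
        intro hBz
        have hAz := hno z hBz
        have h1 : ContinuousAt (fun w : ℂ => valP (F (w : P)) * B.eval w) z :=
          (hFz.valP hz).continuousAt.mul hcB
        have h2 : ∀ᶠ w : ℂ in 𝓝[≠] z, A.eval w = valP (F (w : P)) * B.eval w := by
          filter_upwards [hBne] with w hw
          rw [hval, div_mul_cancel₀ _ hw]
        have h3 : Tendsto (fun w => A.eval w) (𝓝[≠] z) (𝓝 (valP (F (z : P)) * B.eval z)) :=
          (h1.tendsto.mono_left nhdsWithin_le_nhds).congr' (h2.mono fun w hw => hw.symm)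
        have h4 := tendsto_nhds_unique h3 (hcA.tendsto.mono_left nhdsWithin_le_nhds)
        rw [hBz, mul_zero] at h4
        exact hAz h4.symm
      rw [if_neg hBz, ← hval]
      obtain ⟨y, hy⟩ := OnePoint.ne_infty_iff_exists.mp hz
      rw [← hy, valP_coe]
  refine ⟨A, B, hcop, hB0, ?_, hFR⟩
  by_contra hcon
  have hA0 : A.natDegree = 0 := by omega
  have hBd : B.natDegree = 0 := by omega
  obtain ⟨a, ha⟩ : ∃ a, A = C a := ⟨_, eq_C_of_natDegree_eq_zero hA0⟩
  obtain ⟨b, hb⟩ : ∃ b, B = C b := ⟨_, eq_C_of_natDegree_eq_zero hBd⟩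
  have hb0 : b ≠ 0 := by rintro rfl; rw [hb] at hB0; simp at hB0
  have hall : ∀ x, F x = ((a / b : ℂ) : P) := by
    intro x
    rw [hFR]
    induction x using OnePoint.rec with
    | infty => rw [rat_ratMap_infty, ha, hb]; simp
    | coe z => rw [rat_ratMap_coe, ha, hb]; simp [hb0]
  obtain ⟨x, y, hxy⟩ := hn
  exact hxy ((hall x).trans (hall y).symm)

theorem exists_moebius {F : P → P} (hF : ∀ p, HolAt F p) (hi : Function.Injective F) :
    ∃ a b c d : ℂ, a * d - b * c ≠ 0 ∧ F = ratMap (Polynomial.C a * Polynomial.X + Polynomial.C b)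
        (Polynomial.C c * Polynomial.X + Polynomial.C d) := by
  obtain ⟨A, B, hcop, hB0, hd, rfl⟩ := exists_ratMap hF
    ⟨((0 : ℂ) : P), OnePoint.infty, fun h => OnePoint.coe_ne_infty _ (hi h)⟩
  have hd2 : max A.natDegree B.natDegree < 2 := by
    by_contra hcon
    exact ratMap_not_injective hcop (by omega) hi
  have hAd : A.natDegree ≤ 1 := by omega
  have hBd : B.natDegree ≤ 1 := by omega
  obtain ⟨a, b, rfl⟩ := exists_eq_X_add_C_of_natDegree_le_one hAd
  obtain ⟨c, d, rfl⟩ := exists_eq_X_add_C_of_natDegree_le_one hBd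
  refine ⟨a, b, c, d, ?_, rfl⟩
  intro hdet
  have h1 : ∀ z, ¬ (a * z + b = 0 ∧ c * z + d = 0) := by
    rintro z ⟨h1, h2⟩
    obtain ⟨u, v, huv⟩ := hcop
    have h3 := congrArg (Polynomial.eval z) huv
    simp [h1, h2] at h3
  by_cases hc : c = 0
  · subst hc
    have hd0 : d ≠ 0 := by rintro rfl; simp at hB0
    have ha : a = 0 := by
      have : a * d = 0 := by linear_combination hdet
      exact (mul_eq_zero.1 this).resolve_right hd0
    subst ha
    simp at hd
  · have h2 : c * (-d / c) + d = 0 := by field_simp; ring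
    have h3 : a * (-d / c) + b ≠ 0 := fun h => h1 _ ⟨h, h2⟩
    apply h3
    field_simp
    linear_combination -hdet

end Pool.Agent.Lib.MP_1f4a82_an
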