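import Pool.Agent.Lib.MP_1f4a82_an.CoverDefs
import Pool.Agent.Lib.MP_1f4a82_an.Rat
import Pool.Agent.Lib.MP_1f4a82_an.CaseBEntire

/-!
The case where the universal cover of the germ surface is the plane: the invariant curve is
Lyapunov stable.
-/

open Topology Filter Set

namespace Pool.Agent.Lib.MP_1f4a82_an

namespace CaseB

variable {f : P → P} {c : InvCurve f} {d : ℕ} {X S : Type} [TopologicalSpace X] [RS X] [T2Space X]

/-- A global coordinate on the cover, together with its inverse. -/
structure Coord (D : CoverData f c d X S) where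
  w : X → ℂ
  W : ℂ → X
  hw : ∀ x, HolAt w x
  hW : ∀ z, HolAt W z
  Ww : ∀ x, W (w x) = x
  wW : ∀ z, w (W z) = z
  re : ∀ x, (w x).im = 0 ↔ x ∈ D.L.ell

omit [T2Space X] in
theorem continuous_of_hol {Y : Type} [TopologicalSpace Y] [RS Y] {T : X → Y}
    (h : ∀ p, HolAt T p) : Continuous T :=
  continuous_iff_continuousAt.2 fun p => (h p).continuousAt

namespace Coord

set_option linter.unusedSectionVars false

variable {D : CoverData f c d X S} (C : Coord D)

include C

theorem hat_diff {T : X → X} (hT : ∀ p, HolAt T p) :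
    Differentiable ℂ fun z => C.w (T (C.W z)) := by
  intro z
  have h1 : HolAt (fun z => C.w (T (C.W z))) z := by
    have h2 : HolAt (fun z => T (C.W z)) z := (hT _).comp (C.hW z)
    exact (C.hw _).comp h2
  exact (holAt_iff_analyticAt.1 h1).differentiableAt

/-- Deck transformations are translations. -/
theorem deck_trans {T : X → X} (hT : ∀ p, HolAt T p) (hb : Function.Injective T)
    (hπ : ∀ p, D.π (T p) = D.π p) : ∃ l : ℂ, ∀ x, C.w (T x) = C.w x + l := by
  have hi : Function.Injective fun z => C.w (T (C.W z)) := by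
    intro z z' h
    have h1 : T (C.W z) = T (C.W z') := by
      rw [← C.Ww (T (C.W z)), ← C.Ww (T (C.W z'))]
      exact congrArg C.W h
    have h2 := hb h1
    rw [← C.wW z, ← C.wW z', h2]
  obtain ⟨a, b, ha, hab⟩ := entire_affine (C.hat_diff hT) hi
  by_cases h1 : a = 1
  · refine ⟨b, fun x => ?_⟩
    have := hab (C.w x)
    simp only [C.Ww] at this
    rw [this, h1, one_mul]
  · have h2 : (1 : ℂ) - a ≠ 0 := fun h => h1 (by linear_combination -h)
    have h3 := hab (b / (1 - a))
    have h4 : a * (b / (1 - a)) + b = b / (1 - a) := by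
      field_simp; ring
    rw [h4] at h3
    have h5 : T (C.W (b / (1 - a))) = id (C.W (b / (1 - a))) := by
      rw [← C.Ww (T (C.W (b / (1 - a))))]
      rw [h3]; rfl
    have h6 := D.lift_unique T id (continuous_of_hol hT) continuous_id (fun p => hπ p) _ h5
    refine ⟨0, fun x => ?_⟩
    rw [h6]; simp

/-- The line is injectively parametrised. -/
theorem γ_inj {x y : ℝ} (h : D.L.γ x = D.L.γ y) : x = y := by
  obtain ⟨k, hk, hper⟩ := D.L.inj _ (D.L.real_mem_strip x) _ (D.L.real_mem_strip y) h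
  by_cases hk0 : k = 0
  · subst hk0
    have : (y : ℂ) = x := by simpa using hk
    exact_mod_cast this.symm
  exfalso
  -- the function `x ↦ w (γ x)` is periodic, hence bounded
  let u : ℝ → ℂ := fun x => C.w (D.L.γ x)
  have hu : Continuous u := by
    rw [continuous_iff_continuousAt]
    intro x
    have h1 : HolAt (fun s => C.w (D.L.γ s)) (x : ℂ) :=
      (C.hw _).comp (D.L.hol _ (D.L.real_mem_strip x))
    exact ContinuousAt.comp' (g := fun s => C.w (D.L.γ s)) h1.continuousAt
      Complex.continuous_ofReal.continuousAt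
  have hup : Function.Periodic u (k : ℝ) := by
    intro x
    have := hper x (D.L.real_mem_strip x)
    simp only [u]
    push_cast
    rw [this]
  have hk1 : (k : ℝ) ≠ 0 := by exact_mod_cast hk0
  have hbd : ∃ M : ℝ, ∀ x, ‖u x‖ ≤ M := by
    obtain ⟨M, hM⟩ := (isCompact_Icc (a := 0 - |(k : ℝ)|) (b := 0 + |(k:ℝ)|)).exists_bound_of_continuousOn
      (f := u) hu.continuousOn
    refine ⟨M, fun x => ?_⟩
    have hup' : Function.Periodic u |(k : ℝ)| := by
      rcases abs_choice (k : ℝ) with h | h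
      · rw [h]; exact hup
      · rw [h]; exact hup.neg
    obtain ⟨y, hy, hy2⟩ := hup'.exists_mem_Ico₀ (abs_pos.2 hk1) x
    rw [hy2]
    refine hM y ⟨?_, ?_⟩
    · have := hy.1; have := abs_nonneg (k : ℝ); linarith
    · have := hy.2; linarith
  obtain ⟨M, hM⟩ := hbd
  have h1 : C.W ((|M| + 1 : ℝ) : ℂ) ∈ D.L.ell := by
    rw [← C.re, C.wW]; simp
  obtain ⟨s, hs⟩ := h1
  have h2 := hM s
  have h3 : u s = ((|M| + 1 : ℝ) : ℂ) := by
    simp only [u]
    have : D.L.γ (s : ℂ) = C.W ((|M| + 1 : ℝ) : ℂ) := hs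
    rw [this, C.wW]
  rw [h3, Complex.norm_real, Real.norm_eq_abs] at h2
  have h4 := le_abs_self M
  have h5 : |M| + 1 ≤ |(|M| + 1)| := le_abs_self _
  linarith

theorem w_γ_im (x : ℝ) : (C.w (D.L.γ x)).im = 0 := (C.re _).2 ⟨x, rfl⟩

theorem W_real (x : ℝ) : ∃ s : ℝ, D.L.γ s = C.W x := by
  have h : C.W x ∈ D.L.ell := by rw [← C.re, C.wW]; simp
  exact h

/-- The translation by one along the line. -/
theorem exists_T1 : ∃ (T : X → X) (l : ℝ), l ≠ 0 ∧ (∀ p, HolAt T p) ∧ (∀ p, D.π (T p) = D.π p) ∧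
    (∀ s ∈ strip c.η, T (D.L.γ s) = D.L.γ (s + 1)) ∧ (∀ x, C.w (T x) = C.w x + l) ∧
    ∀ x, D.Φ (T x) = T (D.Φ x) := by
  obtain ⟨T, hT, hπ, hγ⟩ := D.trans 1
  have h0 : ((0 : ℝ) : ℂ) ∈ strip c.η := by simp [strip, c.η_pos]
  have hreal : ∀ x : ℝ, T (D.L.γ x) = D.L.γ ((x + 1 : ℝ) : ℂ) := by
    intro x
    have := hγ (x : ℂ) (by simp [strip, c.η_pos])
    rw [this]; push_cast; rfl
  obtain ⟨T', hT', hb, hπ', hx⟩ := D.deck (D.L.γ ((0 : ℝ) : ℂ)) (T (D.L.γ ((0 : ℝ) : ℂ)))
    (hπ _).symm
  have hTT : T' = T := D.lift_unique T' T (continuous_of_hol hT') (continuous_of_hol hT)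
    (fun p => by rw [hπ, hπ']) _ hx
  subst hTT
  obtain ⟨l, hl⟩ := C.deck_trans hT hb.injective hπ
  have hlim : l.im = 0 := by
    have h1 := hl (D.L.γ ((0 : ℝ) : ℂ))
    rw [hreal] at h1
    have h2 := congrArg Complex.im h1
    rw [Complex.add_im, C.w_γ_im, C.w_γ_im] at h2
    linarith
  have hl' : l = ((l.re : ℝ) : ℂ) := Complex.ext (by simp) (by simp [hlim])
  refine ⟨T', l.re, ?_, hT, hπ, ?_, ?_, ?_⟩
  · intro h
    rw [h] at hl'
    have h1 := hl (D.L.γ ((0 : ℝ) : ℂ))
    rw [hreal, hl'] at h1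
    have h2 : D.L.γ ((0 + 1 : ℝ) : ℂ) = D.L.γ ((0 : ℝ) : ℂ) := by
      rw [← C.Ww (D.L.γ ((0 + 1 : ℝ) : ℂ)), h1, Complex.ofReal_zero, add_zero, C.Ww]
    have h3 := C.γ_inj h2
    norm_num at h3
  · intro s hs
    have := hγ s hs
    rw [this]; push_cast; rfl
  · intro x
    rw [hl x]
    exact congrArg _ hl'
  · have h1 : (fun x => D.Φ (T' x)) = fun x => T' (D.Φ x) := by
      refine D.lift_unique _ _ ?_ ?_ ?_ (D.L.γ ((0 : ℝ) : ℂ)) ?_
      · exact (continuous_of_hol D.Φ_hol).comp (continuous_of_hol hT)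
      · exact (continuous_of_hol hT).comp (continuous_of_hol D.Φ_hol)
      · intro p
        rw [hπ]
        exact D.Φ_π _ _ (hπ p)
      · rw [hreal, D.Φ_γ, D.Φ_γ, hreal, c.F_per]
    intro x
    exact congrFun h1 x

/-- Images of deck transformations under `Φ`. -/
theorem exists_conj {T : X → X} (hT : ∀ p, HolAt T p) (hπ : ∀ p, D.π (T p) = D.π p) (x0 : X) :
    ∃ l : ℂ, ∀ x, C.w (D.Φ (T x)) = C.w (D.Φ x) + l := by
  obtain ⟨T', hT', hb', hπ', hx'⟩ := D.deck (D.Φ x0) (D.Φ (T x0)) (D.Φ_π _ _ (hπ x0).symm)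
  obtain ⟨l, hl⟩ := C.deck_trans hT' hb'.injective hπ'
  have h1 : (fun x => D.Φ (T x)) = fun x => T' (D.Φ x) := by
    refine D.lift_unique _ _ ?_ ?_ ?_ x0 ?_
    · exact (continuous_of_hol D.Φ_hol).comp (continuous_of_hol hT)
    · exact (continuous_of_hol hT').comp (continuous_of_hol D.Φ_hol)
    · intro p
      rw [hπ']
      exact D.Φ_π _ _ (hπ p)
    · exact hx'.symm
  refine ⟨l, fun x => ?_⟩
  have h2 : D.Φ (T x) = T' (D.Φ x) := congrFun h1 x
  rw [h2, hl]

/-- `Φ` is in the coordinate a real translation. -/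
theorem exists_β : ∃ β : ℝ, ∀ x, C.w (D.Φ x) = C.w x + β := by
  obtain ⟨T1, l1, hl1, hT1, hπ1, hγ1, hw1, hΦ1⟩ := C.exists_T1
  let G : ℂ → ℂ := fun z => C.w (D.Φ (C.W z))
  have hGd : Differentiable ℂ G := C.hat_diff D.Φ_hol
  have hWadd : ∀ z, C.W (z + l1) = T1 (C.W z) := by
    intro z
    rw [← C.Ww (T1 (C.W z)), hw1, C.wW]
  have hG1 : ∀ z, G (z + l1) = G z + l1 := by
    intro z
    simp only [G]
    rw [hWadd, hΦ1, hw1]
  -- `G` is injective on the reals
  have hGinj : ∀ x y : ℝ, G x = G y → x = y := by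
    intro x y h
    obtain ⟨s, hs⟩ := C.W_real x
    obtain ⟨t, ht⟩ := C.W_real y
    simp only [G] at h
    rw [← hs, ← ht, D.Φ_γ, D.Φ_γ] at h
    have h1 : D.L.γ (c.F s) = D.L.γ (c.F t) := by
      rw [← C.Ww (D.L.γ (c.F s)), h, C.Ww]
    have h2 := c.F_mono.injective (C.γ_inj h1)
    rw [h2, ht] at hs
    have h3 : (y : ℂ) = x := by rw [← C.wW y, hs, C.wW]
    exact_mod_cast h3.symm
  -- main claim
  have hmain : ∀ z, G z = z + G 0 := by
    by_cases hcase : ∃ (T : X → X) (l : ℂ), (∀ p, HolAt T p) ∧ (∀ p, D.π (T p) = D.π p) ∧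
        (∀ x, C.w (T x) = C.w x + l) ∧ l.im ≠ 0
    · obtain ⟨T, l, hT, hπ, hl, him⟩ := hcase
      obtain ⟨l', hl'⟩ := C.exists_conj hT hπ (C.W 0)
      have hWadd' : ∀ z, C.W (z + l) = T (C.W z) := by
        intro z
        rw [← C.Ww (T (C.W z)), hl, C.wW]
      have hG2 : ∀ z, G (z + l) = G z + l' := by
        intro z
        simp only [G]
        rw [hWadd', hl']
      have hdd : Differentiable ℂ (deriv G) := hGd.deriv
      have hder : ∀ a b : ℂ, (∀ z, G (z + a) = G z + b) → ∀ z, deriv G (z + a) = deriv G z := by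
        intro a b hab z
        have h1 : (fun z => G (z + a)) = fun z => G z + b := funext hab
        have h2 : deriv (fun z => G (z + a)) z = deriv G (z + a) := deriv_comp_add_const G a z
        rw [← h2, h1, deriv_add_const]
      have hconst := doubly_periodic hdd (l1 := (l1 : ℂ)) (l2 := l) (by simp)
        (by exact_mod_cast hl1) him (hder _ _ hG1) (hder _ _ hG2)
      -- so `G` is affine
      have haff : ∀ z, G z = deriv G 0 * z + G 0 := by
        have h1 : Differentiable ℂ fun z => G z - deriv G 0 * z :=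
          hGd.sub ((differentiable_const _).mul differentiable_id)
        have h2 : ∀ z, deriv (fun z => G z - deriv G 0 * z) z = 0 := by
          intro z
          have h3 : HasDerivAt (fun z => G z - deriv G 0 * z) (deriv G z - deriv G 0 * 1) z :=
            (hGd z).hasDerivAt.sub ((hasDerivAt_id z).const_mul _)
          rw [h3.deriv, hconst z 0]; ring
        intro z
        have h3 := is_const_of_deriv_eq_zero h1 h2 z 0
        simp only [mul_zero, sub_zero] at h3
        linear_combination h3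
      have h1 := hG1 0
      rw [zero_add, haff l1] at h1
      have hl1c : (l1 : ℂ) ≠ 0 := by exact_mod_cast hl1
      have h2 : deriv G 0 = 1 := by
        have : (deriv G 0 - 1) * l1 = 0 := by linear_combination h1
        rcases mul_eq_zero.1 this with h | h
        · linear_combination h
        · exact absurd h hl1c
      intro z
      rw [haff z, h2, one_mul]
    · push Not at hcase
      -- the fibres of `G` are finite
      have hfib : ∀ q, ∀ s : Finset ℂ, (∀ z ∈ s, G z = q) → s.card ≤ d * d := by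
        intro q s hs
        have hinj : InjOn (fun z => D.π (C.W z)) (s : Set ℂ) := by
          intro z hz z' hz' hzz
          simp only at hzz
          obtain ⟨T, hT, hb, hπ, hTx⟩ := D.deck _ _ hzz
          obtain ⟨l, hl⟩ := C.deck_trans hT hb.injective hπ
          have hlim := hcase T l hT hπ hl
          obtain ⟨l', hl'⟩ := C.exists_conj hT hπ (C.W 0)
          have hz2 : z' = z + l := by
            rw [← C.wW z', ← hTx, hl, C.wW]
          have h1 : l' = 0 := by
            have h2 := hl' (C.W z)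
            rw [hTx] at h2
            have h3 : C.w (D.Φ (C.W z')) = C.w (D.Φ (C.W z)) := (hs z' hz').trans (hs z hz).symm
            rw [h3] at h2
            linear_combination -h2
          have hlr : l = ((l.re : ℝ) : ℂ) := Complex.ext (by simp) (by simp [hlim])
          have h4 : G l.re = G (0 : ℝ) := by
            have h5 := hl' (C.W ((0 : ℝ) : ℂ))
            have h6 : T (C.W ((0 : ℝ) : ℂ)) = C.W l.re := by
              rw [← C.Ww (T (C.W ((0 : ℝ) : ℂ))), hl, C.wW, ← hlr]
              simp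
            rw [h6, h1, add_zero] at h5
            exact h5
          have h7 := hGinj _ _ h4
          rw [hz2, hlr, h7]; simp
        have h1 : (fun z => D.π (C.W z)) '' (s : Set ℂ) ⊆ D.π '' {p | D.π (D.Φ p) = D.π (C.W q)} := by
          rintro _ ⟨z, hz, rfl⟩
          refine ⟨C.W z, ?_, rfl⟩
          have h2 : G z = q := hs z hz
          have h3 : D.Φ (C.W z) = C.W q := by
            rw [← C.Ww (D.Φ (C.W z))]
            exact congrArg C.W h2
          show D.π (D.Φ (C.W z)) = D.π (C.W q)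
          rw [h3]
        have h2 : (s : Set ℂ).encard ≤ d * d := by
          rw [← hinj.encard_image]
          exact (encard_le_encard h1).trans (D.fibre _)
        rw [encard_coe_eq_coe_finsetCard] at h2
        exact_mod_cast h2
      have hl1c : (l1 : ℂ) ≠ 0 := by exact_mod_cast hl1
      have hnc : ∃ x y, G x ≠ G y := by
        refine ⟨0 + l1, 0, ?_⟩
        rw [hG1]
        intro h
        exact hl1c (by linear_combination h)
      obtain ⟨q, ε, R, hε, haway⟩ := exists_away hGd hnc (d * d) hfib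
      obtain ⟨p, hp⟩ := entire_poly hGd hnc q ε R hε haway
      have hGint : ∀ n : ℕ, G (n * l1) = G 0 + n * l1 := by
        intro n
        induction n with
        | zero => simp
        | succ n ih =>
          have : ((n + 1 : ℕ) : ℂ) * l1 = n * l1 + l1 := by push_cast; ring
          rw [this, hG1, ih]; ring
      have hzero : p - Polynomial.X - Polynomial.C (G 0) = 0 := by
        refine Polynomial.eq_zero_of_infinite_isRoot _ ?_
        have hinf : (range fun n : ℕ => (n : ℂ) * l1).Infinite := by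
          refine infinite_range_of_injective ?_
          intro m n h
          have := mul_right_cancel₀ hl1c h
          exact_mod_cast this
        refine hinf.mono ?_
        rintro _ ⟨n, rfl⟩
        simp only [mem_ofPred_eq, Polynomial.IsRoot.def, Polynomial.eval_sub, Polynomial.eval_X,
          Polynomial.eval_C]
        rw [← hp, hGint]; ring
      intro z
      have h1 := congrArg (Polynomial.eval z) hzero
      simp only [Polynomial.eval_sub, Polynomial.eval_X, Polynomial.eval_C,
        Polynomial.eval_zero] at h1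
      rw [← hp] at h1
      linear_combination h1
  have him : (G 0).im = 0 := by
    obtain ⟨s, hs⟩ := C.W_real 0
    have h1 : G 0 = C.w (D.L.γ (c.F s)) := by
      simp only [G]
      rw [← D.Φ_γ, hs]; simp
    rw [h1]
    exact C.w_γ_im _
  refine ⟨(G 0).re, fun x => ?_⟩
  have h1 := hmain (C.w x)
  simp only [G] at h1
  rw [C.Ww] at h1
  rw [h1]
  congr 1
  exact Complex.ext (by simp [G]) (by simpa using him)

theorem stable : c.Stable := by
  obtain ⟨β, hβ⟩ := C.exists_β
  obtain ⟨T1, l1, hl1, hT1, hπ1, hγ1, hw1, hΦ1⟩ := C.exists_T1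
  have hWadd : ∀ z, C.W (z + l1) = T1 (C.W z) := by
    intro z
    rw [← C.Ww (T1 (C.W z)), hw1, C.wW]
  intro O hO hOγ
  obtain ⟨ε, hε, hstrip⟩ := exists_strip (O := {z | D.h (C.W z) ∈ O}) (l := l1) (by
    refine hO.preimage ?_
    rw [continuous_iff_continuousAt]
    intro z
    exact ((D.h_hol _).comp (C.hW z)).continuousAt) (by
    intro x
    obtain ⟨s, hs⟩ := C.W_real x
    show D.h (C.W x) ∈ O
    rw [← hs, D.h_γ _ (by simp [strip, c.η_pos])]
    exact hOγ s) hl1 (by
    intro z
    show D.h (C.W z) ∈ O ↔ D.h (C.W (z + l1)) ∈ O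
    rw [hWadd, D.h_π _ _ (hπ1 (C.W z))])
  have hcontAt : ∀ s ∈ strip c.η, ContinuousAt (fun s => C.w (D.L.γ s)) s := by
    intro s hs
    have hs' : s ∈ strip D.L.η := by rw [D.L_η]; exact hs
    exact ((C.hw _).comp (D.L.hol s hs')).continuousAt
  obtain ⟨δ0, hδ0, hδ⟩ := exists_strip
    (O := {s | s ∈ strip c.η ∧ |(C.w (D.L.γ s)).im| < ε}) (l := 1) (by
    rw [isOpen_iff_mem_nhds]
    rintro s ⟨hs, hs2⟩
    have h1 : ContinuousAt (fun s => |(C.w (D.L.γ s)).im|) s :=
      (continuous_abs.continuousAt).comp (Complex.continuous_im.continuousAt.comp (hcontAt s hs))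
    filter_upwards [(isOpen_strip c.η).mem_nhds hs, h1.eventually_lt_const hs2] with t ht ht2
    exact ⟨ht, ht2⟩) (by
    intro x
    refine ⟨by simp [strip, c.η_pos], ?_⟩
    rw [C.w_γ_im]; simpa using hε) one_ne_zero (by
    intro s
    have hsu : s ∈ strip c.η ↔ s + ((1 : ℝ) : ℂ) ∈ strip c.η := by simp [strip]
    constructor
    · rintro ⟨hs, hs2⟩
      refine ⟨hsu.1 hs, ?_⟩
      have : D.L.γ (s + ((1 : ℝ) : ℂ)) = T1 (D.L.γ s) := by rw [hγ1 s hs]; simp
      rw [this, hw1]; simpa using hs2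
    · rintro ⟨hs, hs2⟩
      have hs' := hsu.2 hs
      refine ⟨hs', ?_⟩
      have : D.L.γ (s + ((1 : ℝ) : ℂ)) = T1 (D.L.γ s) := by rw [hγ1 s hs']; simp
      rw [this, hw1] at hs2; simpa using hs2)
  refine ⟨min δ0 c.η, lt_min hδ0 c.η_pos, min_le_right _ _, ?_⟩
  intro n s hs
  have hs1 : |s.im| < δ0 := lt_of_lt_of_le hs (min_le_left _ _)
  obtain ⟨hs2, hs3⟩ := hδ s hs1
  have hiter : ∀ n : ℕ, ∀ p, D.h (D.Φ^[n] p) = f^[n] (D.h p) := by
    intro n
    induction n with
    | zero => intro p; rfl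
    | succ n ih =>
      intro p
      rw [Function.iterate_succ_apply, Function.iterate_succ_apply, ih, D.h_Φ]
  have hitw : ∀ n : ℕ, ∀ p, (C.w (D.Φ^[n] p)).im = (C.w p).im := by
    intro n
    induction n with
    | zero => intro p; rfl
    | succ n ih =>
      intro p
      rw [Function.iterate_succ_apply, ih, hβ]; simp
  rw [← D.h_γ s hs2, ← hiter]
  have h1 : D.h (C.W (C.w (D.Φ^[n] (D.L.γ s)))) ∈ O := by
    apply hstrip
    rw [hitw]; exact hs3
  rwa [C.Ww] at h1

end Coord

end CaseB

theorem CoverData.stable_of_plane {f : P → P} {c : InvCurve f} {d : ℕ} {X S : Type}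
    [TopologicalSpace X] [RS X] [T2Space X] (D : CoverData f c d X S)
    (w : X → ℂ) (hw : ∀ x, HolAt w x) (hbij : Function.Bijective w)
    (hre : ∀ x, (w x).im = 0 ↔ x ∈ D.L.ell)
    (hsym : ∀ x, w (D.τ x) = (starRingEnd ℂ) (w x)) : c.Stable := by
  have _ := hsym
  let e := Equiv.ofBijective w hbij
  have h1 : ∀ x, e.symm (w x) = x := fun x => e.symm_apply_apply x
  have h2 : ∀ z, w (e.symm z) = z := fun z => e.apply_symm_apply z
  have C : CaseB.Coord D :=
    { w := w
      W := e.symm
      hw := hw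
      hW := by
        intro z
        have h3 := holAt_leftInverse (f := w) (g := e.symm) isOpen_univ (fun x _ => hw x)
          (fun x _ => h1 x) (mem_univ (e.symm z))
        rwa [h2] at h3
      Ww := h1
      wW := h2
      re := hre }
  exact C.stable

end Pool.Agent.Lib.MP_1f4a82_an
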