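import Pool.Agent.Lib.MP_1f4a82_an.CoverDefs
import Pool.Agent.Lib.MP_1f4a82_an.Rat

/-!
The case where the covering surface is the sphere.
-/

open Topology Filter Set

namespace Pool.Agent.Lib.MP_1f4a82_an

/-- An injective holomorphic self-map of the sphere has a fixed point. -/
theorem exists_fixed_of_injective {M : P → P} (hM : ∀ p, HolAt M p)
    (hi : Function.Injective M) : ∃ p, M p = p := by
  obtain ⟨a, b, c, d, hdet, rfl⟩ := exists_moebius hM hi
  by_cases hc : c = 0
  · subst hc
    refine ⟨OnePoint.infty, ?_⟩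
    have ha : a ≠ 0 := by
      rintro rfl
      exact hdet (by ring)
    rw [rat_ratMap_infty, if_pos]
    rw [Polynomial.C_0, zero_mul, zero_add, Polynomial.natDegree_C,
      Polynomial.natDegree_linear ha]
    norm_num
  · obtain ⟨s, hs⟩ := IsAlgClosed.exists_eq_mul_self (discrim c (d - a) (-b))
    obtain ⟨z, hz⟩ := exists_quadratic_eq_zero hc ⟨s, hs⟩
    refine ⟨(z : P), ?_⟩
    have hB : (Polynomial.C c * Polynomial.X + Polynomial.C d).eval z = c * z + d := by simp
    have hA : (Polynomial.C a * Polynomial.X + Polynomial.C b).eval z = a * z + b := by simp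
    have hne : c * z + d ≠ 0 := by
      intro h0
      have h1 : a * z + b = 0 := by linear_combination z * h0 - hz
      apply hdet
      linear_combination a * h0 - c * h1
    rw [rat_ratMap_coe, hB, hA, if_neg hne]
    congr 1
    rw [div_eq_iff hne]
    linear_combination -hz

/-- A subset of a compact space which is finite near every point is finite. -/
theorem finite_of_locally {Y : Type} [TopologicalSpace Y] [CompactSpace Y] {B : Set Y}
    (h : ∀ y, ∃ U ∈ 𝓝 y, (U ∩ B).Finite) : B.Finite := by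
  have h1 : (univ ∩ B : Set Y).Finite := by
    refine IsCompact.induction_on (p := fun s => (s ∩ B).Finite) isCompact_univ ?_ ?_ ?_ ?_
    · simp
    · intro s t hst ht
      exact ht.subset (inter_subset_inter_left _ hst)
    · intro s t hs ht
      simp only [union_inter_distrib_right]
      exact hs.union ht
    · intro y _
      obtain ⟨U, hU, hf⟩ := h y
      exact ⟨U, mem_nhdsWithin_of_mem_nhds hU, hf⟩
  rwa [univ_inter] at h1

theorem CoverData.rational_of_sphere {f : P → P} {c : InvCurve f} {d : ℕ} {X S : Type}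
    [TopologicalSpace X] [RS X] [T2Space X] [SimplyConnectedSpace X] (D : CoverData f c d X S)
    (F : X → P) (hF : ∀ x, HolAt F x) (hbij : Function.Bijective F)
    (hre : ∀ x, cjP (F x) = F x ↔ x ∈ D.L.ell) (hsym : ∀ x, F (D.τ x) = cjP (F x))
    (hup : ∀ s ∈ strip c.η, 0 < s.im → ∃ w : ℂ, 0 < w.im ∧ F (D.L.γ s) = (w : P)) :
    Nonempty (RatData f c) ∧ SimplyConnectedSpace P := by
  classical
  -- the inverse
  obtain ⟨W, hWF, hFW⟩ : ∃ W : P → X, (∀ x, W (F x) = x) ∧ ∀ p, F (W p) = p :=
    ⟨(Equiv.ofBijective F hbij).symm, fun x => (Equiv.ofBijective F hbij).symm_apply_apply x,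
      fun p => (Equiv.ofBijective F hbij).apply_symm_apply p⟩
  have hW : ∀ p, HolAt W p := by
    intro p
    have := holAt_leftInverse (f := F) (g := W) isOpen_univ (fun x _ => hF x)
      (fun x _ => hWF x) (mem_univ (W p))
    rwa [hFW] at this
  have hFc : Continuous F := continuous_iff_continuousAt.2 fun x => (hF x).continuousAt
  have hWc : Continuous W := continuous_iff_continuousAt.2 fun x => (hW x).continuousAt
  let eH : P ≃ₜ X := ⟨⟨W, F, hFW, hWF⟩, hWc, hFc⟩
  refine ⟨?_, eH.toHomotopyEquiv.simplyConnectedSpace⟩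
  -- π is injective
  have hπ : ∀ x y, D.π x = D.π y → x = y := by
    intro x y hxy
    obtain ⟨T, hT, hTb, hTπ, hTx⟩ := D.deck x y hxy
    obtain ⟨p, hp⟩ := exists_fixed_of_injective (M := fun p => F (T (W p)))
      (fun p => ((hF _).comp ((hT _).comp (hW p))))
      (fun p q hpq => by
        have h1 := hTb.1 (hbij.1 hpq)
        rw [← hFW p, ← hFW q, h1])
    have hp' : T (W p) = W p := by
      have := congrArg W hp
      rwa [hWF] at this
    have hTid : T = id := D.lift_unique T id
      (continuous_iff_continuousAt.2 fun x => (hT x).continuousAt) continuous_id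
      (fun p => hTπ p) (W p) hp'
    rw [← hTx, hTid]
    rfl
  -- γ is periodic
  have hLη : strip D.L.η = strip c.η := by rw [D.L_η]
  have hper : ∀ (k : ℤ), ∀ s ∈ strip c.η, D.L.γ (s + k) = D.L.γ s := by
    intro k s hs
    obtain ⟨T, hT, hTπ, hTγ⟩ := D.trans k
    rw [← hTγ s hs]
    exact hπ _ _ (hTπ _)
  -- the lifted curve
  let g : P → P := fun p => F (D.Φ (W p))
  let h : P → P := fun p => D.h (W p)
  let γ : ℂ → P := fun s => if s ∈ strip c.η then F (D.L.γ s) else F (D.L.γ 0)
  have hγ : ∀ s ∈ strip c.η, γ s = F (D.L.γ s) := fun s hs => if_pos hs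
  have hreal : ∀ x : ℝ, (x : ℂ) ∈ strip c.η := fun x => by simp [strip, c.η_pos]
  let cT : InvCurve g :=
    { γ := γ
      η := c.η
      η_pos := c.η_pos
      hol := by
        intro s hs
        have h1 : HolAt (fun s => F (D.L.γ s)) s := (hF _).comp (D.L.hol s (by rw [hLη]; exact hs))
        refine h1.congr ?_
        filter_upwards [(isOpen_strip c.η).mem_nhds hs] with r hr
        exact (hγ r hr).symm
      per := by
        intro s
        have him : (s + 1 ∈ strip c.η) ↔ (s ∈ strip c.η) := by simp [strip]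
        by_cases hs : s ∈ strip c.η
        · rw [hγ s hs, hγ (s + 1) (him.2 hs)]
          have := hper 1 s hs
          rw [Int.cast_one] at this
          rw [this]
        · change (if s + 1 ∈ strip c.η then _ else _) = (if s ∈ strip c.η then _ else _)
          rw [if_neg hs, if_neg (fun h => hs (him.1 h))]
      inj := by
        intro s hs s' hs' hss
        rw [hγ s hs, hγ s' hs'] at hss
        obtain ⟨k, hk, -⟩ := D.L.inj s (by rw [hLη]; exact hs) s' (by rw [hLη]; exact hs')
          (hbij.1 hss)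
        exact ⟨k, hk⟩
      F := c.F
      F_cont := c.F_cont
      F_mono := c.F_mono
      F_per := c.F_per
      inv := by
        intro x
        rw [hγ _ (hreal x), hγ _ (hreal _)]
        change F (D.Φ (W (F _))) = _
        rw [hWF, D.Φ_γ]
      noper := c.noper }
  -- the exceptional set
  let B : Set (P × P) := {q | q.1 ≠ q.2 ∧ h q.1 = h q.2 ∧ h (cjP q.1) = h (cjP q.2)}
  have hWcj : ∀ p, W (cjP p) = D.τ (W p) := by
    intro p
    apply hbij.1
    rw [hFW, hsym, hFW]
  have hB : B.Finite := by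
    apply finite_of_locally
    rintro ⟨p, q⟩
    by_cases hpq : p = q
    · subst hpq
      obtain ⟨U, hU, hUinj⟩ := D.loc_inj (W p)
      have hU' : W ⁻¹' U ∈ 𝓝 p := hWc.continuousAt.preimage_mem_nhds hU
      refine ⟨(W ⁻¹' U) ×ˢ (W ⁻¹' U), prod_mem_nhds hU' hU', ?_⟩
      convert Set.finite_empty
      rw [Set.eq_empty_iff_forall_notMem]
      rintro ⟨x, y⟩ ⟨⟨hx, hy⟩, hne, h1, h2⟩
      apply hne
      have h2' : D.h (D.τ (W x)) = D.h (D.τ (W y)) := by
        rw [← hWcj, ← hWcj]; exact h2
      have := hUinj (W x) hx (W y) hy h1 h2'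
      change x = y
      rw [← hFW x, ← hFW y, this]
    · have hpq' : D.π (W p) ≠ D.π (W q) := by
        intro he
        apply hpq
        rw [← hFW p, ← hFW q, hπ _ _ he]
      obtain ⟨U, hU, V, hV, hUV⟩ := D.sep (W p) (W q) hpq'
      have hU' : W ⁻¹' U ∈ 𝓝 p := hWc.continuousAt.preimage_mem_nhds hU
      have hV' : W ⁻¹' V ∈ 𝓝 q := hWc.continuousAt.preimage_mem_nhds hV
      refine ⟨(W ⁻¹' U) ×ˢ (W ⁻¹' V), prod_mem_nhds hU' hV', ?_⟩
      refine (Set.finite_singleton ((p, q) : P × P)).subset ?_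
      rintro ⟨x, y⟩ ⟨⟨hx, hy⟩, hne, h1, h2⟩
      have h2' : D.h (D.τ (W x)) = D.h (D.τ (W y)) := by
        rw [← hWcj, ← hWcj]; exact h2
      obtain ⟨hx', hy'⟩ := hUV (W x) hx (W y) hy h1 h2'
      rw [mem_singleton_iff, Prod.mk.injEq]
      exact ⟨by rw [← hFW x, ← hFW p, hx'], by rw [← hFW y, ← hFW q, hy']⟩
  refine ⟨{
    h := h
    g := g
    cT := cT
    h_hol := fun p => (D.h_hol _).comp (hW p)
    g_hol := fun p => (hF _).comp ((D.Φ_hol _).comp (hW p))
    η_eq := rfl
    F_eq := rfl
    h_γ := ?_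
    sym := ?_
    up := ?_
    real := ?_
    semi := ?_
    g_real := ?_
    gen := ?_ }⟩
  · intro s hs
    change D.h (W (γ s)) = _
    rw [hγ s hs, hWF, D.h_γ s hs]
  · intro s hs
    change γ _ = cjP (γ s)
    rw [hγ s hs, hγ _ (conj_mem_strip hs), ← D.τ_γ s hs, hsym]
  · intro s hs him
    obtain ⟨w, hw, hw'⟩ := hup s hs him
    refine ⟨w, hw, ?_⟩
    change γ s = _
    rw [hγ s hs, hw']
  · ext p
    rw [Set.mem_ofPred_eq, ← hFW p, hre]
    constructor
    · rintro ⟨x, hx⟩
      change γ x = _ at hx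
      rw [hγ _ (hreal x)] at hx
      exact ⟨x, hbij.1 hx⟩
    · rintro ⟨x, hx⟩
      refine ⟨x, ?_⟩
      change γ x = _
      rw [hγ _ (hreal x)]
      exact congrArg F hx
  · intro p
    change f (D.h (W p)) = D.h (W (F (D.Φ (W p))))
    rw [hWF, D.h_Φ]
  · intro p
    change F (D.Φ (W (cjP p))) = cjP (F (D.Φ (W p)))
    rw [hWcj, D.Φ_τ, hsym]
  · refine ⟨Prod.fst '' B, hB.image _, ?_⟩
    intro z hz z' _ h1 h2
    by_contra hne
    exact hz ⟨(z, z'), ⟨hne, h1, h2⟩, rfl⟩

end Pool.Agent.Lib.MP_1f4a82_an
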