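import Pool.Agent.Lib.MP_1f4a82_an.Basic

/-!
Counting preimages of a holomorphic self-map of the sphere: the degree, and the numbers of
preimages on the two sides of a line mapped onto a line.
-/

open Topology Filter Set

namespace Pool.Agent.Lib.MP_1f4a82_an

/-- critical values -/
def critVal (F : P → P) : Set P := {w | ∃ p, F p = w ∧ ¬ ∃ U ∈ 𝓝 p, InjOn F U}

namespace Count

/-- A set in a compact space, none of whose points accumulates anywhere, is finite. -/
theorem finite_of_isolated {X : Type} [TopologicalSpace X] [CompactSpace X] {s : Set X}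
    (h : ∀ x, ∀ᶠ y in 𝓝[≠] x, y ∉ s) : s.Finite := by
  by_contra hs
  obtain ⟨x, hx⟩ := Set.Infinite.exists_accPt_principal (s := s) hs
  rw [accPt_iff_frequently_nhdsNE] at hx
  exact hx (h x)

section Topological

variable {X Y : Type} [TopologicalSpace X] [TopologicalSpace Y]

/-- The local picture of a map near a finite fibre at whose points it is locally a
homeomorphism. -/
theorem local_picture [CompactSpace X] [T2Space X] [T2Space Y] {F : X → Y} (hF : Continuous F)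
    {w₀ : Y} (hfin : (F ⁻¹' {w₀}).Finite)
    (hinj : ∀ p, F p = w₀ → ∃ U ∈ 𝓝 p, InjOn F U)
    (hmap : ∀ p, F p = w₀ → map F (𝓝 p) = 𝓝 w₀)
    (N : X → Set X) (hN : ∀ p, F p = w₀ → N p ∈ 𝓝 p) :
    ∀ᶠ w in 𝓝 w₀, ∃ g : X → X, (∀ p ∈ F ⁻¹' {w₀}, g p ∈ N p) ∧
      BijOn g (F ⁻¹' {w₀}) (F ⁻¹' {w}) := by
  classical
  obtain ⟨U, hU, hUd⟩ := hfin.t2_separation
  choose! I hI hIi using hinj
  let W : X → Set X := fun p => interior (U p ∩ N p ∩ I p)
  have hWo : ∀ p, IsOpen (W p) := fun p => isOpen_interior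
  have hWm : ∀ p ∈ F ⁻¹' {w₀}, W p ∈ 𝓝 p := by
    intro p hp
    apply interior_mem_nhds.mpr
    exact inter_mem (inter_mem ((hU p).2.mem_nhds (hU p).1) (hN p hp)) (hI p hp)
  have hWU : ∀ p, W p ⊆ U p := fun p => interior_subset.trans (fun x hx => hx.1.1)
  have hWN : ∀ p, W p ⊆ N p := fun p => interior_subset.trans (fun x hx => hx.1.2)
  have hWI : ∀ p, W p ⊆ I p := fun p => interior_subset.trans (fun x hx => hx.2)
  have hK : IsClosed (F '' (⋃ p ∈ F ⁻¹' {w₀}, W p)ᶜ) := by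
    have h1 : IsClosed (⋃ p ∈ F ⁻¹' {w₀}, W p)ᶜ :=
      (isOpen_biUnion fun p _ => hWo p).isClosed_compl
    exact (h1.isCompact.image hF).isClosed
  have hw₀ : w₀ ∉ F '' (⋃ p ∈ F ⁻¹' {w₀}, W p)ᶜ := by
    rintro ⟨x, hx, hxw⟩
    apply hx
    simp only [mem_iUnion]
    exact ⟨x, hxw, mem_of_mem_nhds (hWm x hxw)⟩
  have h1 : ∀ᶠ w in 𝓝 w₀, w ∉ F '' (⋃ p ∈ F ⁻¹' {w₀}, W p)ᶜ := hK.isOpen_compl.mem_nhds hw₀
  have h2 : ∀ᶠ w in 𝓝 w₀, ∀ p ∈ F ⁻¹' {w₀}, w ∈ F '' W p := by
    rw [Filter.eventually_all_finite hfin]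
    intro p hp
    have : F '' W p ∈ map F (𝓝 p) := image_mem_map (hWm p hp)
    rwa [hmap p hp] at this
  filter_upwards [h1, h2] with w hw1 hw2
  choose! g hg hgw using hw2
  refine ⟨g, fun p hp => hWN p (hg p hp), fun p hp => hgw p hp, ?_, ?_⟩
  · intro p hp q hq hpq
    by_contra hne
    have := hUd hp hq hne
    exact disjoint_left.mp this (hWU p (hg p hp)) (by rw [hpq]; exact hWU q (hg q hq))
  · intro y hy
    have hy1 : y ∈ ⋃ p ∈ F ⁻¹' {w₀}, W p := by
      by_contra hy2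
      exact hw1 ⟨y, hy2, hy⟩
    simp only [mem_iUnion] at hy1
    obtain ⟨p, hp, hyp⟩ := hy1
    refine ⟨p, hp, ?_⟩
    apply hIi p hp (hWI p (hg p hp)) (hWI p hyp)
    rw [hgw p hp]; exact hy.symm

omit [TopologicalSpace X] in
/-- Counting with a bijection between fibres. -/
theorem ncard_inter_of_bijOn {g : X → X} {S S' D : Set X} (hg : BijOn g S S') (D₀ : Set X)
    (h : ∀ p ∈ S, (g p ∈ D ↔ p ∈ D₀)) : (S' ∩ D).ncard = (S ∩ D₀).ncard := by
  have : S' ∩ D = g '' (S ∩ D₀) := by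
    ext y
    constructor
    · rintro ⟨hy, hyD⟩
      obtain ⟨p, hp, rfl⟩ := hg.surjOn hy
      exact ⟨p, ⟨hp, (h p hp).mp hyD⟩, rfl⟩
    · rintro ⟨p, ⟨hp, hpD⟩, rfl⟩
      exact ⟨hg.mapsTo hp, (h p hp).mpr hpD⟩
  rw [this, (hg.injOn.mono inter_subset_left).ncard_image]

/-- Near a fibre which does not meet the frontier of `D`, the number of preimages in `D` is
constant. -/
theorem ncard_eventually [CompactSpace X] [T2Space X] [T2Space Y] {F : X → Y} (hF : Continuous F)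
    {w₀ : Y} (hfin : (F ⁻¹' {w₀}).Finite)
    (hinj : ∀ p, F p = w₀ → ∃ U ∈ 𝓝 p, InjOn F U)
    (hmap : ∀ p, F p = w₀ → map F (𝓝 p) = 𝓝 w₀) (D : Set X)
    (hD : ∀ p, F p = w₀ → D ∈ 𝓝 p ∨ Dᶜ ∈ 𝓝 p) :
    ∀ᶠ w in 𝓝 w₀, (F ⁻¹' {w} ∩ D).ncard = (F ⁻¹' {w₀} ∩ D).ncard := by
  classical
  have h := local_picture hF hfin hinj hmap (fun p => if p ∈ D then D else Dᶜ) (by
    intro p hp
    rcases hD p hp with h | h
    · rw [if_pos (mem_of_mem_nhds h)]; exact h
    · rw [if_neg (mem_of_mem_nhds h : p ∈ Dᶜ)]; exact h)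
  filter_upwards [h] with w hw
  obtain ⟨g, hg1, hg2⟩ := hw
  refine ncard_inter_of_bijOn hg2 D fun p hp => ?_
  have h1 := hg1 p hp
  by_cases hpD : p ∈ D
  · simp only [if_pos hpD] at h1
    exact ⟨fun _ => hpD, fun _ => h1⟩
  · simp only [if_neg hpD] at h1
    exact ⟨fun h => absurd h h1, fun h => absurd h hpD⟩

end Topological

/-- An analytic function with nonzero derivative at a point is injective near the point. -/
theorem injOn_of_deriv_ne {G : ℂ → ℂ} {z : ℂ} (hG : AnalyticAt ℂ G z) (h : deriv G z ≠ 0) :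
    ∃ V ∈ 𝓝 z, InjOn G V := by
  have h1 := (hG.hasStrictDerivAt).hasStrictFDerivAt_equiv h
  refine ⟨(h1.toOpenPartialHomeomorph G).source, ?_, ?_⟩
  · exact (h1.toOpenPartialHomeomorph G).open_source.mem_nhds
      h1.mem_toOpenPartialHomeomorph_source
  · have := (h1.toOpenPartialHomeomorph G).injOn
    simpa using this

variable {F : P → P}

/-- A holomorphic map is injective near points where its chart derivative is nonzero. -/
theorem locInj_of_deriv {X Y : Type} [TopologicalSpace X] [TopologicalSpace Y] [RS X] [RS Y]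
    {f : X → Y} {p : X} (hf : ContinuousAt f p) {e : OpenPartialHomeomorph X ℂ}
    (hp : p ∈ e.source) {e' : OpenPartialHomeomorph Y ℂ} (hp' : f p ∈ e'.source)
    (h1 : AnalyticAt ℂ (fun z => e' (f (e.symm z))) (e p))
    (h2 : deriv (fun z => e' (f (e.symm z))) (e p) ≠ 0) : ∃ U ∈ 𝓝 p, InjOn f U := by
  obtain ⟨V, hV, hVi⟩ := injOn_of_deriv_ne h1 h2
  refine ⟨e ⁻¹' V ∩ e.source ∩ f ⁻¹' e'.source, ?_, ?_⟩
  · exact inter_mem (inter_mem ((e.continuousAt hp).preimage_mem_nhds hV)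
      (e.open_source.mem_nhds hp)) (hf.preimage_mem_nhds (e'.open_source.mem_nhds hp'))
  · rintro x ⟨⟨hx1, hx2⟩, hx3⟩ y ⟨⟨hy1, hy2⟩, hy3⟩ hxy
    apply e.injOn hx2 hy2
    apply hVi hx1 hy1
    simp only [e.left_inv hx2, e.left_inv hy2, hxy]

/-- An analytic function whose derivative vanishes near a point is constant near the point. -/
theorem eventually_const_of_deriv {G : ℂ → ℂ} {z : ℂ} (hG : AnalyticAt ℂ G z)
    (h : ∀ᶠ w in 𝓝 z, deriv G w = 0) : ∀ᶠ w in 𝓝 z, G w = G z := by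
  obtain ⟨r, hr, hball⟩ := Metric.eventually_nhds_iff_ball.mp (h.and hG.eventually_analyticAt)
  refine Metric.eventually_nhds_iff_ball.mpr ⟨r, hr, fun w hw => ?_⟩
  refine Metric.isOpen_ball.is_const_of_deriv_eq_zero (convex_ball z r).isPreconnected
    (fun x hx => (hball x hx).2.differentiableAt.differentiableWithinAt)
    (fun x hx => (hball x hx).1) hw (Metric.mem_ball_self hr)

/-- Critical points are isolated. -/
theorem crit_isolated {X Y : Type} [TopologicalSpace X] [TopologicalSpace Y] [RS X] [RS Y]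
    {f : X → Y} {p : X} (hf : HolAt f p) (hc : ¬ ∀ᶠ x in 𝓝 p, f x = f p) :
    ∀ᶠ x in 𝓝[≠] p, ∃ U ∈ 𝓝 x, InjOn f U := by
  obtain ⟨e, he, hp⟩ := RS.exists_chart p
  obtain ⟨e', he', hp'⟩ := RS.exists_chart (f p)
  have h1 := hf.2 e he e' he' hp hp'
  have m1 : ∀ᶠ x in 𝓝 p, f x ∈ e'.source := hf.1.eventually_mem (e'.open_source.mem_nhds hp')
  have m3 : ∀ᶠ x in 𝓝 p, x ∈ e.source := e.open_source.mem_nhds hp
  have m4 : ∀ᶠ x in 𝓝 p, AnalyticAt ℂ (fun z => e' (f (e.symm z))) (e x) :=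
    (e.continuousAt hp).eventually h1.eventually_analyticAt
  rcases h1.deriv.eventually_eq_zero_or_eventually_ne_zero with h2 | h2
  · exfalso
    apply hc
    have h3 := eventually_const_of_deriv h1 h2
    filter_upwards [(e.continuousAt hp).eventually h3, m1, m3] with x hx hx1 hx3
    rw [e.left_inv hx3, e.left_inv hp] at hx
    exact e'.injOn hx1 hp' hx
  · filter_upwards [(tendsto_chart_ne hp).eventually h2, nhdsWithin_le_nhds m1,
      nhdsWithin_le_nhds m3, nhdsWithin_le_nhds m4,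
      nhdsWithin_le_nhds hf.eventually] with x hx hx1 hx3 hx4 hx5
    exact locInj_of_deriv hx5.1 hx3 hx1 hx4 hx

theorem not_eventually_const (hF : ∀ p, HolAt F p) (hn : ∃ x y, F x ≠ F y) (p w : P) :
    ¬ ∀ᶠ x in 𝓝 p, F x = w := by
  intro h
  have h1 : F = fun _ => w := HolAt.eq_of_eventuallyEq hF (fun x => holAt_const w x) (p := p) h
  obtain ⟨x, y, hxy⟩ := hn
  exact hxy (by rw [h1])

theorem isolated_fibre (hF : ∀ p, HolAt F p) (hn : ∃ x y, F x ≠ F y) (p w : P) :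
    ∀ᶠ x in 𝓝[≠] p, F x ≠ w := by
  rcases (hF p).eventually_eq_or_ne (holAt_const w p) with h | h
  · exact absurd h (not_eventually_const hF hn p w)
  · exact h

theorem finite_fibre (hF : ∀ p, HolAt F p) (hn : ∃ x y, F x ≠ F y) (w : P) :
    (F ⁻¹' {w}).Finite :=
  finite_of_isolated fun x => isolated_fibre hF hn x w

theorem finite_crit (hF : ∀ p, HolAt F p) (hn : ∃ x y, F x ≠ F y) :
    {p | ¬ ∃ U ∈ 𝓝 p, InjOn F U}.Finite := by
  apply finite_of_isolated
  intro x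
  filter_upwards [crit_isolated (hF x) (not_eventually_const hF hn x _)] with y hy
  simpa using hy

theorem finite_critVal (hF : ∀ p, HolAt F p) (hn : ∃ x y, F x ≠ F y) : (critVal F).Finite := by
  refine ((finite_crit hF hn).image F).subset ?_
  rintro w ⟨p, hp, hc⟩
  exact ⟨p, hc, hp⟩

theorem continuous_of_hol (hF : ∀ p, HolAt F p) : Continuous F :=
  continuous_iff_continuousAt.mpr fun p => (hF p).1

theorem map_nhds' (hF : ∀ p, HolAt F p) (hn : ∃ x y, F x ≠ F y) {p w : P} (h : F p = w) :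
    map F (𝓝 p) = 𝓝 w := by
  rw [← h]; exact (hF p).map_nhds (not_eventually_const hF hn p _)

theorem locInj (F : P → P) {w : P} (hw : w ∉ critVal F) : ∀ p, F p = w → ∃ U ∈ 𝓝 p, InjOn F U := by
  intro p hp
  by_contra h
  exact hw ⟨p, hp, h⟩

instance : Infinite P := Infinite.of_injective (fun z : ℂ => (z : P)) OnePoint.coe_injective

theorem eventually_notMem_finite {E : Set P} (hE : E.Finite) (w : P) :
    ∀ᶠ x in 𝓝[≠] w, x ∉ E := by
  have h1 : IsClosed (E \ {w}) := (hE.subset sdiff_subset).isClosed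
  have h2 : ∀ᶠ x in 𝓝 w, x ∉ E \ {w} := h1.isOpen_compl.mem_nhds (by simp)
  filter_upwards [nhdsWithin_le_nhds h2, self_mem_nhdsWithin] with x hx hx' hxE
  exact hx ⟨hxE, hx'⟩

/-- the local picture for a holomorphic map of the sphere at a noncritical value -/
theorem picture (hF : ∀ p, HolAt F p) (hn : ∃ x y, F x ≠ F y) {w₀ : P} (hw : w₀ ∉ critVal F)
    (N : P → Set P) (hN : ∀ p, F p = w₀ → N p ∈ 𝓝 p) :
    ∀ᶠ w in 𝓝 w₀, ∃ g : P → P, (∀ p ∈ F ⁻¹' {w₀}, g p ∈ N p) ∧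
      BijOn g (F ⁻¹' {w₀}) (F ⁻¹' {w}) :=
  local_picture (continuous_of_hol hF) (finite_fibre hF hn w₀) (locInj F hw)
    (fun _ h => map_nhds' hF hn h) N hN

/-- Constancy of the number of preimages in `D` over a connected set. -/
theorem ncard_const (hF : ∀ p, HolAt F p) (hn : ∃ x y, F x ≠ F y) {C : Set P}
    (hC : IsOpen C) (hCc : IsPreconnected C) (D : Set P)
    (hD : ∀ p, F p ∈ C → D ∈ 𝓝 p ∨ Dᶜ ∈ 𝓝 p) {w w' : P} (hw : w ∈ C) (hw' : w' ∈ C)
    (hwc : w ∉ critVal F) (hwc' : w' ∉ critVal F) :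
    (F ⁻¹' {w} ∩ D).ncard = (F ⁻¹' {w'} ∩ D).ncard := by
  have h1 := isPreconnected_diff_finite hC hCc (finite_critVal hF hn)
  refine h1.constant (f := fun w => (F ⁻¹' {w} ∩ D).ncard) ?_ ⟨hw, hwc⟩ ⟨hw', hwc'⟩
  intro v hv
  apply ContinuousAt.continuousWithinAt
  have h2 := ncard_eventually (continuous_of_hol hF) (finite_fibre hF hn v) (locInj F hv.2)
    (fun _ h => map_nhds' hF hn h) D (fun p hp => hD p (by rw [hp]; exact hv.1))
  exact (continuousAt_const (y := (F ⁻¹' {v} ∩ D).ncard)).congr (by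
    filter_upwards [h2] with x hx using hx.symm)

theorem exists_noncritical_value (hF : ∀ p, HolAt F p) (hn : ∃ x y, F x ≠ F y) :
    ∃ x, F x ∉ critVal F := by
  have h1 : (F ⁻¹' (critVal F)).Finite := by
    have : F ⁻¹' (critVal F) = ⋃ w ∈ critVal F, F ⁻¹' {w} := by
      ext x; simp
    rw [this]
    exact (finite_critVal hF hn).biUnion fun w _ => finite_fibre hF hn w
  obtain ⟨x, hx⟩ := h1.exists_notMem
  exact ⟨x, hx⟩


/-- A holomorphic function which is real and increasing on the real line near `x₀`, and has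
nonzero derivative, preserves the upper and the lower half plane near `x₀`. -/
theorem im_sign {G : ℂ → ℂ} {x₀ : ℝ} {T : ℝ → ℝ} (hG : AnalyticAt ℂ G x₀)
    (hd : deriv G x₀ ≠ 0) (hT : StrictMono T) (hGT : ∀ᶠ x : ℝ in 𝓝 x₀, G x = T x) :
    ∀ᶠ s in 𝓝 (x₀ : ℂ), (0 < s.im → 0 < (G s).im) ∧ (s.im < 0 → (G s).im < 0) := by
  have h0 : HasDerivAt G (deriv G x₀) (x₀ : ℂ) := hG.differentiableAt.hasDerivAt
  have h1 := h0.real_of_complex
  have h2 : HasDerivAt T (deriv G x₀).re x₀ := by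
    refine h1.congr_of_eventuallyEq ?_
    filter_upwards [hGT] with x hx
    rw [hx, Complex.ofReal_re]
  have h3 : 0 ≤ (deriv G x₀).re := h2.nonneg_of_monotone hT.monotone
  have h4 : HasDerivAt (fun x : ℝ => (G x).im) (deriv G x₀).im x₀ := by
    have := (Complex.imCLM.hasFDerivAt (x := G x₀)).comp_hasDerivAt x₀ h0.comp_ofReal
    exact this
  have h5 : (deriv G x₀).im = 0 := by
    have h6 : HasDerivAt (fun x : ℝ => (G x).im) 0 x₀ := by
      refine (hasDerivAt_const x₀ (0 : ℝ)).congr_of_eventuallyEq ?_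
      filter_upwards [hGT] with x hx
      rw [hx, Complex.ofReal_im]
    exact h4.unique h6
  have h7 : 0 < (deriv G x₀).re := by
    refine lt_of_le_of_ne h3 fun h => hd ?_
    apply Complex.ext
    · rw [← h]; rfl
    · rw [h5]; rfl
  have h8 : ∀ᶠ s in 𝓝 (x₀ : ℂ), 0 < (deriv G s).re := by
    have : ContinuousAt (fun s => (deriv G s).re) (x₀ : ℂ) :=
      Complex.continuous_re.continuousAt.comp hG.deriv.continuousAt
    exact this.eventually (lt_mem_nhds h7)
  obtain ⟨ρ, hρ, hball⟩ := Metric.eventually_nhds_iff_ball.mp hGT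
  obtain ⟨r, hr, hrball⟩ := Metric.eventually_nhds_iff_ball.mp (h8.and hG.eventually_analyticAt)
  refine Metric.eventually_nhds_iff_ball.mpr ⟨min r ρ, lt_min hr hρ, fun s hs => ?_⟩
  have hs' : dist s (x₀ : ℂ) < min r ρ := hs
  -- points of the vertical segment
  have hseg : ∀ t : ℝ, |t| ≤ |s.im| → ((s.re : ℂ) + t * Complex.I) ∈ Metric.ball (x₀ : ℂ) r := by
    intro t ht
    rw [Metric.mem_ball]
    refine lt_of_le_of_lt ?_ (lt_of_lt_of_le hs' (min_le_left _ _))
    rw [Complex.dist_eq, Complex.dist_eq, Complex.norm_def, Complex.norm_def]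
    apply Real.sqrt_le_sqrt
    rw [Complex.normSq_apply, Complex.normSq_apply]
    simp only [Complex.sub_re, Complex.add_re, Complex.ofReal_re, Complex.mul_re, Complex.I_re,
      mul_zero, Complex.ofReal_im, Complex.I_im, mul_one, sub_self, add_zero, Complex.sub_im,
      Complex.add_im, Complex.mul_im, zero_add, sub_zero]
    have := sq_le_sq' (by linarith [abs_nonneg t] : -|s.im| ≤ |t|) ht
    rw [sq_abs, sq_abs] at this
    nlinarith
  have hmono : StrictMonoOn (fun t : ℝ => (G ((s.re : ℂ) + t * Complex.I)).im)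
      (Icc (-|s.im|) |s.im|) := by
    have hder : ∀ t ∈ Icc (-|s.im|) |s.im|,
        HasDerivAt (fun t : ℝ => (G ((s.re : ℂ) + t * Complex.I)).im)
          (deriv G ((s.re : ℂ) + t * Complex.I)).re t := by
      intro t ht
      have hb := hrball _ (hseg t (abs_le.mpr ht))
      have e1 : HasDerivAt (fun z : ℂ => (s.re : ℂ) + z * Complex.I) (1 * Complex.I) (t : ℂ) :=
        ((hasDerivAt_id (t : ℂ)).mul_const Complex.I).const_add _
      have e2 : HasDerivAt (fun z : ℂ => G ((s.re : ℂ) + z * Complex.I))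
          (deriv G ((s.re : ℂ) + t * Complex.I) * (1 * Complex.I)) (t : ℂ) :=
        (hb.2.differentiableAt.hasDerivAt).comp (t : ℂ) e1
      have e3 := (Complex.imCLM.hasFDerivAt
        (x := G ((s.re : ℂ) + (t : ℂ) * Complex.I))).comp_hasDerivAt t e2.comp_ofReal
      have e4 : HasDerivAt (fun t : ℝ => (G ((s.re : ℂ) + t * Complex.I)).im)
          (Complex.imCLM (deriv G ((s.re : ℂ) + t * Complex.I) * (1 * Complex.I))) t := e3
      have e5 : Complex.imCLM (deriv G ((s.re : ℂ) + t * Complex.I) * (1 * Complex.I)) =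
          (deriv G ((s.re : ℂ) + t * Complex.I)).re := by simp
      rwa [e5] at e4
    refine strictMonoOn_of_deriv_pos (convex_Icc _ _) ?_ ?_
    · intro t ht
      exact (hder t ht).continuousAt.continuousWithinAt
    · intro t ht
      have ht' := interior_subset ht
      rw [(hder t ht').deriv]
      exact (hrball _ (hseg t (abs_le.mpr ht'))).1
  have hzero : (G ((s.re : ℂ) + (0 : ℝ) * Complex.I)).im = 0 := by
    have : (G (s.re : ℂ)).im = 0 := by
      rw [hball s.re, Complex.ofReal_im]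
      rw [Metric.mem_ball, Real.dist_eq]
      refine lt_of_le_of_lt ?_ (lt_of_lt_of_le hs' (min_le_right _ _))
      rw [Complex.dist_eq]
      have := Complex.abs_re_le_norm (s - x₀)
      simpa using this
    simpa using this
  have hsre : (s.re : ℂ) + (s.im : ℝ) * Complex.I = s := Complex.re_add_im s
  have m0 : (0 : ℝ) ∈ Icc (-|s.im|) |s.im| := ⟨by simp, abs_nonneg _⟩
  have m1 : s.im ∈ Icc (-|s.im|) |s.im| := ⟨neg_abs_le _, le_abs_self _⟩
  constructor
  · intro h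
    have := hmono m0 m1 h
    simp only [hsre, hzero] at this
    exact this
  · intro h
    have := hmono m1 m0 h
    simp only [hsre, hzero] at this
    exact this

theorem line_ball {X : Type} [TopologicalSpace X] [RS X] (L : Line X) (x : ℝ) :
    Metric.ball (x : ℂ) (min (1 / 2) L.η) ⊆ strip L.η ∧
      InjOn L.γ (Metric.ball (x : ℂ) (min (1 / 2) L.η)) := by
  have hsub : Metric.ball (x : ℂ) (min (1 / 2) L.η) ⊆ strip L.η := by
    intro s hs
    have h1 : dist s (x : ℂ) < min (1 / 2) L.η := hs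
    rw [Complex.dist_eq] at h1
    have h2 := Complex.abs_im_le_norm (s - x)
    simp only [Complex.sub_im, Complex.ofReal_im, sub_zero] at h2
    exact lt_of_le_of_lt h2 (lt_of_lt_of_le h1 (min_le_right _ _))
  refine ⟨hsub, fun s hs s' hs' h => ?_⟩
  obtain ⟨k, hk, -⟩ := L.inj s (hsub hs) s' (hsub hs') h
  have h1 : dist s (x : ℂ) < 1 / 2 := lt_of_lt_of_le hs (min_le_left _ _)
  have h2 : dist s' (x : ℂ) < 1 / 2 := lt_of_lt_of_le hs' (min_le_left _ _)
  have h3 : dist s' s < 1 := by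
    calc dist s' s ≤ dist s' x + dist s x := dist_triangle_right _ _ _
      _ < 1 := by linarith
  have h4 : |(k : ℝ)| < 1 := by
    rw [Complex.dist_eq, hk, add_sub_cancel_left] at h3
    have : ‖(k : ℂ)‖ = |(k : ℝ)| := by
      rw [← Complex.ofReal_intCast, Complex.norm_real, Real.norm_eq_abs]
    rwa [this] at h3
  have h5 : k = 0 := by
    have : |k| < 1 := by exact_mod_cast h4
    exact Int.abs_lt_one_iff.mp this
  rw [hk, h5]; simp

/-- Near a point of a line mapped increasingly to another line, a locally injective map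
preserves the sides. -/
theorem local_side {F : P → P} (hF : ∀ p, HolAt F p)
    (L₁ L₂ : Line P) {A₁ B₁ A₂ B₂ : Set P} (h₁ : L₁.Sides A₁ B₁) (h₂ : L₂.Sides A₂ B₂)
    (T : ℝ → ℝ) (hTc : Continuous T) (hTm : StrictMono T)
    (hFT : ∀ x : ℝ, F (L₁.γ x) = L₂.γ (T x)) (x₀ : ℝ) (hx : ∃ U ∈ 𝓝 (L₁.γ x₀), InjOn F U) :
    ∃ N ∈ 𝓝 (L₁.γ x₀), ∀ y ∈ N, (F y ∈ A₂ → y ∈ A₁) ∧ (F y ∈ B₂ → y ∈ B₁) := by
  obtain ⟨U, hU, hUi⟩ := hx
  obtain ⟨hs1, hi1⟩ := line_ball L₁ x₀
  obtain ⟨hs2, hi2⟩ := line_ball L₂ (T x₀)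
  set V₁ := Metric.ball (x₀ : ℂ) (min (1 / 2) L₁.η) with hV₁
  set V₂ := Metric.ball ((T x₀ : ℝ) : ℂ) (min (1 / 2) L₂.η) with hV₂
  have hV₁o : IsOpen V₁ := Metric.isOpen_ball
  have hV₂o : IsOpen V₂ := Metric.isOpen_ball
  have hx₀ : (x₀ : ℂ) ∈ V₁ := Metric.mem_ball_self (lt_min (by norm_num) L₁.η_pos)
  have ht₀ : ((T x₀ : ℝ) : ℂ) ∈ V₂ := Metric.mem_ball_self (lt_min (by norm_num) L₂.η_pos)
  -- local inverse of γ₂
  set g := Function.invFunOn L₂.γ V₂ with hg
  have hgl : ∀ s ∈ V₂, g (L₂.γ s) = s := fun s hs => hi2.leftInvOn_invFunOn hs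
  have hghol : HolAt g (L₂.γ (T x₀ : ℝ)) :=
    holAt_leftInverse hV₂o (fun s hs => L₂.hol s (hs2 hs)) hgl ht₀
  have hO : L₂.γ '' V₂ ∈ 𝓝 (L₂.γ (T x₀ : ℝ)) :=
    (isOpen_image_of_injOn hV₂o (fun s hs => L₂.hol s (hs2 hs)) hi2 hV₂o subset_rfl).mem_nhds
      ⟨_, ht₀, rfl⟩
  have hγ₁ : HolAt L₁.γ (x₀ : ℂ) := L₁.hol _ (hs1 hx₀)
  have hFγ : HolAt (fun s => F (L₁.γ s)) (x₀ : ℂ) := (hF _).comp hγ₁
  have hG : HolAt (fun s => g (F (L₁.γ s))) (x₀ : ℂ) := by
    refine HolAt.comp (g := g) (f := fun s => F (L₁.γ s)) ?_ hFγ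
    rw [hFT]; exact hghol
  rw [holAt_iff_analyticAt] at hG
  -- good neighbourhood of x₀
  have n1 : ∀ᶠ s in 𝓝 (x₀ : ℂ), F (L₁.γ s) ∈ L₂.γ '' V₂ := by
    apply hFγ.1.eventually_mem
    rw [hFT]; exact hO
  have n2 : ∀ᶠ s in 𝓝 (x₀ : ℂ), L₁.γ s ∈ U := hγ₁.1.eventually_mem hU
  have n3 : ∀ᶠ s in 𝓝 (x₀ : ℂ), s ∈ V₁ := hV₁o.mem_nhds hx₀
  have hgood := n1.and (n2.and n3)
  have hinj : InjOn (fun s => g (F (L₁.γ s)))
      {s | F (L₁.γ s) ∈ L₂.γ '' V₂ ∧ L₁.γ s ∈ U ∧ s ∈ V₁} := by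
    rintro s ⟨⟨a, ha, ha'⟩, hsU, hsV⟩ s' ⟨⟨b, hb, hb'⟩, hsU', hsV'⟩ h
    simp only at h
    rw [← ha', ← hb', hgl a ha, hgl b hb] at h
    rw [h] at ha'
    have h5 : F (L₁.γ s) = F (L₁.γ s') := by rw [← ha', ← hb']
    exact hi1 hsV hsV' (hUi hsU hsU' h5)
  have hder : deriv (fun s => g (F (L₁.γ s))) (x₀ : ℂ) ≠ 0 :=
    deriv_ne_zero_of_injOn hG hgood hinj
  have hreal : ∀ᶠ x : ℝ in 𝓝 x₀, (fun s => g (F (L₁.γ s))) (x : ℂ) = (T x : ℂ) := by
    have : ContinuousAt (fun x : ℝ => ((T x : ℝ) : ℂ)) x₀ :=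
      (Complex.continuous_ofReal.comp hTc).continuousAt
    have h6 : ∀ᶠ x : ℝ in 𝓝 x₀, ((T x : ℝ) : ℂ) ∈ V₂ := this.eventually_mem (hV₂o.mem_nhds ht₀)
    filter_upwards [h6] with x hx
    simp only [hFT, hgl _ hx]
  have hsign := im_sign hG hder hTm hreal
  have hall := hsign.and (n1.and n3)
  refine ⟨L₁.γ '' {s | ((0 < s.im → 0 < (g (F (L₁.γ s))).im) ∧
    (s.im < 0 → (g (F (L₁.γ s))).im < 0)) ∧ F (L₁.γ s) ∈ L₂.γ '' V₂ ∧ s ∈ V₁}, ?_, ?_⟩
  · rw [← hγ₁.map_nhds_of_injOn (hV₁o.mem_nhds hx₀) hi1]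
    exact image_mem_map hall
  · rintro _ ⟨s, ⟨⟨hs1', hs2'⟩, ⟨a, ha, ha'⟩, hsV⟩, rfl⟩
    rw [← ha', hgl a ha] at hs1' hs2'
    have hreal0 : s.im = 0 → F (L₁.γ s) ∈ L₂.ell := by
      intro h0
      have : s = ((s.re : ℝ) : ℂ) := by
        apply Complex.ext <;> simp [h0]
      rw [this, hFT]
      exact ⟨T s.re, rfl⟩
    have hA2 : ∀ y ∈ A₂, y ∉ L₂.ell := by
      intro y hy
      have : y ∈ L₂.ellᶜ := by rw [← h₂.union]; exact Or.inl hy
      exact this
    have hB2 : ∀ y ∈ B₂, y ∉ L₂.ell := by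
      intro y hy
      have : y ∈ L₂.ellᶜ := by rw [← h₂.union]; exact Or.inr hy
      exact this
    constructor
    · intro hFA
      rcases lt_trichotomy s.im 0 with h | h | h
      · exfalso
        have h5 := h₂.down a (hs2 ha) (hs2' h)
        rw [ha'] at h5
        exact disjoint_left.mp h₂.disj hFA h5
      · exact absurd (hreal0 h) (hA2 _ hFA)
      · exact h₁.up s (hs1 hsV) h
    · intro hFB
      rcases lt_trichotomy s.im 0 with h | h | h
      · exact h₁.down s (hs1 hsV) h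
      · exact absurd (hreal0 h) (hB2 _ hFB)
      · exfalso
        have h5 := h₂.up a (hs2 ha) (hs1' h)
        rw [ha'] at h5
        exact disjoint_left.mp h₂.disj h5 hFB

end Count

open Pool.Agent.Lib.MP_1f4a82_an.Count

theorem exists_degree {F : P → P} (hF : ∀ p, HolAt F p) (hn : ∃ x y, F x ≠ F y) :
    (critVal F).Finite ∧ (∀ w, (F ⁻¹' {w}).Finite) ∧ ∃ d : ℕ, 1 ≤ d ∧
      (∀ w, (F ⁻¹' {w}).ncard ≤ d) ∧ (∀ w ∉ critVal F, (F ⁻¹' {w}).ncard = d) := by
  refine ⟨finite_critVal hF hn, finite_fibre hF hn, ?_⟩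
  obtain ⟨x₀, hx₀⟩ := exists_noncritical_value hF hn
  have hconst : ∀ w ∉ critVal F, (F ⁻¹' {w}).ncard = (F ⁻¹' {F x₀}).ncard := by
    intro w hw
    have := ncard_const hF hn isOpen_univ isPreconnected_univ univ (fun _ _ => Or.inl univ_mem)
      (mem_univ w) (mem_univ (F x₀)) hw hx₀
    simpa using this
  refine ⟨(F ⁻¹' {F x₀}).ncard, ?_, ?_, hconst⟩
  · exact (ncard_pos (finite_fibre hF hn _)).mpr ⟨x₀, rfl⟩
  · intro w
    have hfin := finite_fibre hF hn w
    obtain ⟨U, hU, hUd⟩ := hfin.t2_separation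
    have h2 : ∀ᶠ v in 𝓝 w, ∀ p ∈ F ⁻¹' {w}, v ∈ F '' U p := by
      rw [Filter.eventually_all_finite hfin]
      intro p hp
      have : F '' U p ∈ map F (𝓝 p) := image_mem_map ((hU p).2.mem_nhds (hU p).1)
      rwa [map_nhds' hF hn hp] at this
    obtain ⟨v, hv1, hv2⟩ := ((h2.filter_mono nhdsWithin_le_nhds).and
      (eventually_notMem_finite (finite_critVal hF hn) w)).exists
    choose! g hg hgw using hv1
    rw [← hconst v hv2]
    refine ncard_le_ncard_of_injOn g (fun p hp => hgw p hp) ?_ (finite_fibre hF hn v)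
    intro p hp q hq hpq
    by_contra hne
    exact disjoint_left.mp (hUd hp hq hne) (hg p hp) (by rw [hpq]; exact hg q hq)

theorem exists_count {F : P → P} (hF : ∀ p, HolAt F p) (hn : ∃ x y, F x ≠ F y)
    (L₁ L₂ : Line P) {A₁ B₁ A₂ B₂ : Set P} (h₁ : L₁.Sides A₁ B₁) (h₂ : L₂.Sides A₂ B₂)
    (T : ℝ → ℝ) (hTc : Continuous T) (hTm : StrictMono T)
    (hFT : ∀ x : ℝ, F (L₁.γ x) = L₂.γ (T x))
    (hinj : ∀ x y : ℝ, F (L₁.γ x) = F (L₁.γ y) → L₁.γ x = L₁.γ y) :
    ∃ d n : ℕ, n + 1 ≤ d ∧ (∀ w ∉ critVal F, (F ⁻¹' {w}).ncard = d) ∧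
      (∀ w ∉ critVal F, w ∈ A₂ → (F ⁻¹' {w} ∩ A₁).ncard = n + 1 ∧
        (F ⁻¹' {w} ∩ B₁).ncard = d - n - 1) ∧
      (∀ w ∉ critVal F, w ∈ B₂ → (F ⁻¹' {w} ∩ A₁).ncard = n ∧
        (F ⁻¹' {w} ∩ B₁).ncard = d - n) := by
  classical
  obtain ⟨hcf, hff, d, -, -, hd⟩ := exists_degree hF hn
  -- a noncritical value on the line
  have hx : ∃ x₀ : ℝ, F (L₁.γ x₀) ∉ critVal F := by
    by_contra hcon
    push Not at hcon
    have h1 : InjOn (fun x : ℝ => F (L₁.γ x)) (Icc (0 : ℝ) (1 / 2)) := by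
      intro x hx y hy hxy
      have h2 := hinj x y hxy
      have hm : ∀ t : ℝ, (t : ℂ) ∈ strip L₁.η := by
        intro t; simp only [strip, mem_ofPred_eq, Complex.ofReal_im, abs_zero]; exact L₁.η_pos
      obtain ⟨k, hk, -⟩ := L₁.inj x (hm x) y (hm y) h2
      have h3 : y = x + k := by
        have : ((y : ℝ) : ℂ) = ((x + k : ℝ) : ℂ) := by rw [hk]; push_cast; rfl
        exact_mod_cast this
      have h4 : |(k : ℝ)| < 1 := by
        rw [abs_lt]; constructor <;> linarith [hx.1, hx.2, hy.1, hy.2]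
      have h5 : k = 0 := by
        have : |k| < 1 := by exact_mod_cast h4
        exact Int.abs_lt_one_iff.mp this
      rw [h3, h5]; simp
    have h2 : (Icc (0 : ℝ) (1 / 2)).Infinite := Icc_infinite (by norm_num)
    apply h2
    refine Set.Finite.of_injOn (t := critVal F) ?_ h1 hcf
    intro x _
    exact hcon x
  obtain ⟨x₀, hx₀⟩ := hx
  set w₀ := F (L₁.γ x₀) with hw₀
  set S := F ⁻¹' {w₀} with hS
  have hSf : S.Finite := hff w₀
  have hdA₁ : ∀ y ∈ A₁, y ∉ L₁.ell := by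
    intro y hy
    have : y ∈ L₁.ellᶜ := by rw [← h₁.union]; exact Or.inl hy
    exact this
  have hdB₁ : ∀ y ∈ B₁, y ∉ L₁.ell := by
    intro y hy
    have : y ∈ L₁.ellᶜ := by rw [← h₁.union]; exact Or.inr hy
    exact this
  have hA2 : ∀ y ∈ A₂, y ∉ L₂.ell := by
    intro y hy
    have : y ∈ L₂.ellᶜ := by rw [← h₂.union]; exact Or.inl hy
    exact this
  have hB2 : ∀ y ∈ B₂, y ∉ L₂.ell := by
    intro y hy
    have : y ∈ L₂.ellᶜ := by rw [← h₂.union]; exact Or.inr hy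
    exact this
  have hell : ∀ p ∈ L₁.ell, F p ∈ L₂.ell := by
    rintro _ ⟨x, rfl⟩
    simp only [hFT]
    exact ⟨T x, rfl⟩
  have hcov : ∀ p, p ∉ L₁.ell → p ∈ A₁ ∨ p ∈ B₁ := by
    intro p hp
    have : p ∈ A₁ ∪ B₁ := by rw [h₁.union]; exact hp
    exact this
  have hp₀S : L₁.γ x₀ ∈ S := rfl
  have hp₀ : L₁.γ x₀ ∈ L₁.ell := ⟨x₀, rfl⟩
  have hSell : ∀ p ∈ S, p ∈ L₁.ell → p = L₁.γ x₀ := by
    rintro _ hp ⟨x, rfl⟩
    exact hinj x x₀ hp
  -- the counts on the fibre of w₀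
  have hsplit : S = insert (L₁.γ x₀) ((S ∩ A₁) ∪ (S ∩ B₁)) := by
    ext p
    constructor
    · intro hp
      by_cases hpe : p ∈ L₁.ell
      · exact Or.inl (hSell p hp hpe)
      · rcases hcov p hpe with h | h
        · exact Or.inr (Or.inl ⟨hp, h⟩)
        · exact Or.inr (Or.inr ⟨hp, h⟩)
    · rintro (h | h | h)
      · rw [h]; exact hp₀S
      · exact h.1
      · exact h.1
  have hcard : S.ncard = (S ∩ A₁).ncard + (S ∩ B₁).ncard + 1 := by
    have hfA : (S ∩ A₁).Finite := hSf.subset inter_subset_left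
    have hfB : (S ∩ B₁).Finite := hSf.subset inter_subset_left
    have hnot : L₁.γ x₀ ∉ (S ∩ A₁) ∪ (S ∩ B₁) := by
      rintro (h | h)
      · exact hdA₁ _ h.2 hp₀
      · exact hdB₁ _ h.2 hp₀
    have hdis : Disjoint (S ∩ A₁) (S ∩ B₁) := h₁.disj.mono inter_subset_right inter_subset_right
    conv_lhs => rw [hsplit]
    rw [ncard_insert_of_notMem hnot (hfA.union hfB), ncard_union_eq hdis hfA hfB]
  have hcd : S.ncard = d := hd w₀ hx₀
  -- the local picture near w₀
  obtain ⟨N₀, hN₀, hN₀'⟩ := local_side hF L₁ L₂ h₁ h₂ T hTc hTm hFT x₀ (locInj F hx₀ _ rfl)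
  have hpic := picture hF hn hx₀ (fun p => if p = L₁.γ x₀ then N₀ else if p ∈ A₁ then A₁ else B₁)
    (by
      intro p hp
      by_cases hpe : p = L₁.γ x₀
      · simp only [if_pos hpe]; rw [hpe]; exact hN₀
      · simp only [if_neg hpe]
        by_cases hpA : p ∈ A₁
        · rw [if_pos hpA]; exact h₁.open_p.mem_nhds hpA
        · rw [if_neg hpA]
          rcases hcov p (fun h => hpe (hSell p hp h)) with h | h
          · exact absurd h hpA
          · exact h₁.open_m.mem_nhds h)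
  have hnc : ∀ᶠ w in 𝓝 w₀, w ∉ critVal F := hcf.isClosed.isOpen_compl.mem_nhds hx₀
  have hw₀ell : w₀ ∈ L₂.ell := hell _ hp₀
  -- the value of the counts near w₀
  have hcountA : ∃ v ∈ A₂, v ∉ critVal F ∧ (F ⁻¹' {v} ∩ A₁).ncard = (S ∩ A₁).ncard + 1 ∧
      (F ⁻¹' {v} ∩ B₁).ncard = (S ∩ B₁).ncard := by
    have hcl : w₀ ∈ closure A₂ := by
      have : w₀ ∈ frontier A₂ := by rw [h₂.front_p]; exact hw₀ell
      exact this.1
    rw [mem_closure_iff_frequently] at hcl
    obtain ⟨v, hvA, ⟨g, hg1, hg2⟩, hvc⟩ := (hcl.and_eventually (hpic.and hnc)).exists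
    refine ⟨v, hvA, hvc, ?_, ?_⟩
    · rw [ncard_inter_of_bijOn hg2 (A₁ ∪ {L₁.γ x₀})]
      · rw [inter_union_distrib_left, inter_singleton_of_mem hp₀S, union_singleton,
          ncard_insert_of_notMem _ (hSf.subset inter_subset_left)]
        intro h; exact hdA₁ _ h.2 hp₀
      · intro p hp
        have h1 := hg1 p hp
        by_cases hpe : p = L₁.γ x₀
        · simp only [if_pos hpe] at h1
          have h2 := (hN₀' _ h1).1 (by rw [show F (g p) = v from hg2.mapsTo hp]; exact hvA)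
          exact ⟨fun _ => Or.inr hpe, fun _ => h2⟩
        · simp only [if_neg hpe] at h1
          by_cases hpA : p ∈ A₁
          · rw [if_pos hpA] at h1
            exact ⟨fun _ => Or.inl hpA, fun _ => h1⟩
          · rw [if_neg hpA] at h1
            refine ⟨fun h => absurd h1 (disjoint_left.mp h₁.disj h), fun h => ?_⟩
            rcases h with h | h
            · exact absurd h hpA
            · exact absurd h hpe
    · rw [ncard_inter_of_bijOn hg2 B₁]
      intro p hp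
      have h1 := hg1 p hp
      by_cases hpe : p = L₁.γ x₀
      · simp only [if_pos hpe] at h1
        have h2 := (hN₀' _ h1).1 (by rw [show F (g p) = v from hg2.mapsTo hp]; exact hvA)
        refine ⟨fun h => absurd h (disjoint_left.mp h₁.disj h2), fun h => ?_⟩
        exact absurd hp₀ (hdB₁ _ (by rwa [← hpe]))
      · simp only [if_neg hpe] at h1
        by_cases hpA : p ∈ A₁
        · rw [if_pos hpA] at h1
          exact ⟨fun h => absurd h (disjoint_left.mp h₁.disj h1),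
            fun h => absurd h (disjoint_left.mp h₁.disj hpA)⟩
        · rw [if_neg hpA] at h1
          refine ⟨fun _ => ?_, fun _ => h1⟩
          rcases hcov p (fun h => hpe (hSell p hp h)) with h | h
          · exact absurd h hpA
          · exact h
  have hcountB : ∃ v ∈ B₂, v ∉ critVal F ∧ (F ⁻¹' {v} ∩ A₁).ncard = (S ∩ A₁).ncard ∧
      (F ⁻¹' {v} ∩ B₁).ncard = (S ∩ B₁).ncard + 1 := by
    have hcl : w₀ ∈ closure B₂ := by
      have : w₀ ∈ frontier B₂ := by rw [h₂.front_m]; exact hw₀ell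
      exact this.1
    rw [mem_closure_iff_frequently] at hcl
    obtain ⟨v, hvB, ⟨g, hg1, hg2⟩, hvc⟩ := (hcl.and_eventually (hpic.and hnc)).exists
    refine ⟨v, hvB, hvc, ?_, ?_⟩
    · rw [ncard_inter_of_bijOn hg2 A₁]
      intro p hp
      have h1 := hg1 p hp
      by_cases hpe : p = L₁.γ x₀
      · simp only [if_pos hpe] at h1
        have h2 := (hN₀' _ h1).2 (by rw [show F (g p) = v from hg2.mapsTo hp]; exact hvB)
        refine ⟨fun h => absurd h2 (disjoint_left.mp h₁.disj h), fun h => ?_⟩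
        exact absurd hp₀ (hdA₁ _ (by rwa [← hpe]))
      · simp only [if_neg hpe] at h1
        by_cases hpA : p ∈ A₁
        · rw [if_pos hpA] at h1
          exact ⟨fun _ => hpA, fun _ => h1⟩
        · rw [if_neg hpA] at h1
          exact ⟨fun h => absurd h1 (disjoint_left.mp h₁.disj h), fun h => absurd h hpA⟩
    · rw [ncard_inter_of_bijOn hg2 (B₁ ∪ {L₁.γ x₀})]
      · rw [inter_union_distrib_left, inter_singleton_of_mem hp₀S, union_singleton,
          ncard_insert_of_notMem _ (hSf.subset inter_subset_left)]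
        intro h; exact hdB₁ _ h.2 hp₀
      · intro p hp
        have h1 := hg1 p hp
        by_cases hpe : p = L₁.γ x₀
        · simp only [if_pos hpe] at h1
          have h2 := (hN₀' _ h1).2 (by rw [show F (g p) = v from hg2.mapsTo hp]; exact hvB)
          exact ⟨fun _ => Or.inr hpe, fun _ => h2⟩
        · simp only [if_neg hpe] at h1
          by_cases hpA : p ∈ A₁
          · rw [if_pos hpA] at h1
            refine ⟨fun h => absurd h (disjoint_left.mp h₁.disj h1), fun h => ?_⟩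
            rcases h with h | h
            · exact absurd h (disjoint_left.mp h₁.disj hpA)
            · exact absurd h hpe
          · rw [if_neg hpA] at h1
            refine ⟨fun _ => ?_, fun _ => h1⟩
            rcases hcov p (fun h => hpe (hSell p hp h)) with h | h
            · exact absurd h hpA
            · exact Or.inl h
  -- no preimage of a point off the second line is on the first
  have hnbA : ∀ C : Set P, (∀ y ∈ C, y ∉ L₂.ell) → ∀ p, F p ∈ C → A₁ ∈ 𝓝 p ∨ A₁ᶜ ∈ 𝓝 p := by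
    intro C hC p hp
    rcases hcov p (fun h => hC _ hp (hell p h)) with h | h
    · exact Or.inl (h₁.open_p.mem_nhds h)
    · right
      filter_upwards [h₁.open_m.mem_nhds h] with y hy hyA
      exact disjoint_left.mp h₁.disj hyA hy
  have hnbB : ∀ C : Set P, (∀ y ∈ C, y ∉ L₂.ell) → ∀ p, F p ∈ C → B₁ ∈ 𝓝 p ∨ B₁ᶜ ∈ 𝓝 p := by
    intro C hC p hp
    rcases hcov p (fun h => hC _ hp (hell p h)) with h | h
    · right
      filter_upwards [h₁.open_p.mem_nhds h] with y hy hyA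
      exact disjoint_left.mp h₁.disj hy hyA
    · exact Or.inl (h₁.open_m.mem_nhds h)
  obtain ⟨vA, hvA, hvAc, hvA1, hvA2⟩ := hcountA
  obtain ⟨vB, hvB, hvBc, hvB1, hvB2⟩ := hcountB
  refine ⟨d, (S ∩ A₁).ncard, by omega, hd, ?_, ?_⟩
  · intro w hw hwA
    have e1 := ncard_const hF hn h₂.open_p h₂.conn_p.isPreconnected A₁ (hnbA A₂ hA2) hwA hvA hw hvAc
    have e2 := ncard_const hF hn h₂.open_p h₂.conn_p.isPreconnected B₁ (hnbB A₂ hA2) hwA hvA hw hvAc
    rw [e1, e2, hvA1, hvA2]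
    exact ⟨rfl, by omega⟩
  · intro w hw hwB
    have e1 := ncard_const hF hn h₂.open_m h₂.conn_m.isPreconnected A₁ (hnbA B₂ hB2) hwB hvB hw hvBc
    have e2 := ncard_const hF hn h₂.open_m h₂.conn_m.isPreconnected B₁ (hnbB B₂ hB2) hwB hvB hw hvBc
    rw [e1, e2, hvB1, hvB2]
    exact ⟨rfl, by omega⟩

end Pool.Agent.Lib.MP_1f4a82_an
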