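import Pool.Agent.Lib.MP_1f4a82_an.GermLocal

/-!
The Riemann surface of germs of curves in the product of two spheres, and the surface attached
to an invariant analytic curve.
-/

open Topology Filter Set

namespace Pool.Agent.Lib.MP_1f4a82_an

section General
variable {X Y Z : Type} [TopologicalSpace X] [TopologicalSpace Y] [TopologicalSpace Z]
  [RS X] [RS Y] [RS Z]

/-- Nonconstancy is an open condition. -/
private theorem HolAt.eventually_nonconst [T2Space Y] {f : X → Y} {p : X} (hf : HolAt f p)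
    (hc : ¬ ∀ᶠ x in 𝓝 p, f x = f p) : ∀ᶠ x in 𝓝 p, ¬ ∀ᶠ y in 𝓝 x, f y = f x := by
  obtain ⟨V, hVo, hpV, hVU, hVc⟩ := exists_preconnected_nhd p hf.eventually
  filter_upwards [hVo.mem_nhds hpV] with x hx hcon
  apply hc
  have h1 : EqOn f (fun _ => f x) V :=
    HolAt.eqOn_of_preconnected hVc (fun y hy => hVU hy) (fun y _ => holAt_const _ y) hx
      (hcon.filter_mono nhdsWithin_le_nhds).frequently
  filter_upwards [hVo.mem_nhds hpV] with y hy
  rw [h1 hy, h1 hpV]

/-- A holomorphic map which is nonconstant at a point, is open near the point. -/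
private theorem HolAt.eventually_map_nhds [T2Space Y] {f : X → Y} {p : X} (hf : HolAt f p)
    (hc : ¬ ∀ᶠ x in 𝓝 p, f x = f p) : ∀ᶠ x in 𝓝 p, map f (𝓝 x) = 𝓝 (f x) := by
  filter_upwards [hf.eventually, hf.eventually_nonconst hc] with x h1 h2
  exact h1.map_nhds h2

private theorem HolAt.of_symm {g : X → Y} {e : OpenPartialHomeomorph X ℂ} (he : e ∈ RS.atlas (X := X))
    {p : X} (hp : p ∈ e.source) (h : HolAt (fun z => g (e.symm z)) (e p)) : HolAt g p := by
  have h1 := HolAt.comp (g := fun z => g (e.symm z)) (f := e) h (holAt_chart he hp)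
  refine h1.congr ?_
  filter_upwards [e.open_source.mem_nhds hp] with x hx
  rw [e.left_inv hx]

private theorem AntiHolAt.of_symm {g : X → Y} {e : OpenPartialHomeomorph X ℂ}
    (he : e ∈ RS.atlas (X := X))
    {p : X} (hp : p ∈ e.source) (h : AntiHolAt (fun z => g (e.symm z)) (e p)) :
    AntiHolAt g p := by
  have h1 := AntiHolAt.comp_hol (g := fun z => g (e.symm z)) (f := e) h (holAt_chart he hp)
  refine h1.congr ?_
  filter_upwards [e.open_source.mem_nhds hp] with x hx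
  rw [e.left_inv hx]

/-- An open subset of a Riemann surface is a Riemann surface. -/
@[reducible] private noncomputable def rsOfOpen {U : Set X} (hU : IsOpen U) [Nonempty U] : RS U where
  atlas := (fun e => (hU.isOpenEmbedding_subtypeVal.toOpenPartialHomeomorph Subtype.val).trans e) ''
    RS.atlas (X := X)
  exists_chart := fun p => by
    obtain ⟨e, he, hp⟩ := RS.exists_chart (p : X)
    exact ⟨_, ⟨e, he, rfl⟩, by simp [hp]⟩
  compat := by
    rintro _ ⟨e, he, rfl⟩ _ ⟨e', he', rfl⟩ z hz hz'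
    simp only [OpenPartialHomeomorph.trans_target, mem_inter_iff, mem_preimage] at hz
    obtain ⟨hz1, hz2⟩ := hz
    have h3 : e.symm z ∈ U := by simpa using hz2
    have h4 : (hU.isOpenEmbedding_subtypeVal.toOpenPartialHomeomorph Subtype.val)
        ((hU.isOpenEmbedding_subtypeVal.toOpenPartialHomeomorph Subtype.val).symm (e.symm z))
        = e.symm z :=
      OpenPartialHomeomorph.right_inv _ hz2
    have h5 : e.symm z ∈ e'.source := by
      have h6 : (hU.isOpenEmbedding_subtypeVal.toOpenPartialHomeomorph Subtype.val)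
        ((hU.isOpenEmbedding_subtypeVal.toOpenPartialHomeomorph Subtype.val).symm (e.symm z))
         ∈ e'.source := by
        simpa using hz'
      rwa [h4] at h6
    refine (RS.compat e he e' he' z hz1 h5).congr ?_
    have h7 : ∀ᶠ w in 𝓝 z, e.symm w ∈ U := by
      exact (e.continuousAt_symm hz1).eventually_mem (hU.mem_nhds h3)
    filter_upwards [h7] with w hw
    have hw2 : e.symm w ∈ (hU.isOpenEmbedding_subtypeVal.toOpenPartialHomeomorph
      (Subtype.val : U → X)).target := by simpa using hw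
    have h8 : (hU.isOpenEmbedding_subtypeVal.toOpenPartialHomeomorph Subtype.val)
        ((hU.isOpenEmbedding_subtypeVal.toOpenPartialHomeomorph Subtype.val).symm (e.symm w))
        = e.symm w :=
      OpenPartialHomeomorph.right_inv _ hw2
    simp only [OpenPartialHomeomorph.coe_trans, OpenPartialHomeomorph.trans_symm_eq_symm_trans_symm,
      Function.comp_apply]
    rw [h8]

private theorem holAt_val {U : Set X} (hU : IsOpen U) [Nonempty U] (p : U) :
    @HolAt U X _ _ (rsOfOpen hU) _ Subtype.val p := by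
  let _ := rsOfOpen hU
  obtain ⟨e, he, hp⟩ := RS.exists_chart (p : X)
  refine HolAt.of_charts (e := (hU.isOpenEmbedding_subtypeVal.toOpenPartialHomeomorph
    Subtype.val).trans e) continuous_subtype_val.continuousAt ⟨e, he, rfl⟩ he (by simp [hp]) hp ?_
  refine analyticAt_id.congr ?_
  have h1 : (((hU.isOpenEmbedding_subtypeVal.toOpenPartialHomeomorph
    Subtype.val).trans e) p) = e p := rfl
  rw [h1]
  have h7 : ∀ᶠ w in 𝓝 (e p), e.symm w ∈ U := by
    refine (e.continuousAt_symm (e.map_source hp)).eventually_mem (hU.mem_nhds ?_)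
    rw [e.left_inv hp]; exact p.2
  filter_upwards [h7, e.open_target.mem_nhds (e.map_source hp)] with w hw hwt
  have hw2 : e.symm w ∈ (hU.isOpenEmbedding_subtypeVal.toOpenPartialHomeomorph
      (Subtype.val : U → X)).target := by simpa using hw
  have h8 : (hU.isOpenEmbedding_subtypeVal.toOpenPartialHomeomorph Subtype.val)
        ((hU.isOpenEmbedding_subtypeVal.toOpenPartialHomeomorph Subtype.val).symm (e.symm w))
        = e.symm w :=
      OpenPartialHomeomorph.right_inv _ hw2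
  have h9 : (((hU.isOpenEmbedding_subtypeVal.toOpenPartialHomeomorph
    Subtype.val).trans e).symm w : U).1 = e.symm w := h8
  rw [h9, e.right_inv hwt]; rfl

private theorem holAt_restrict {U : Set X} (hU : IsOpen U) [Nonempty U] {f : Y → U} {p : Y}
    (h : HolAt (fun y => (f y : X)) p) : @HolAt Y U _ _ _ (rsOfOpen hU) f p := by
  let _ := rsOfOpen hU
  obtain ⟨e, he, hp⟩ := RS.exists_chart (f p : X)
  obtain ⟨e0, he0, hp0⟩ := RS.exists_chart p
  refine HolAt.of_charts (e := e0) (e' := (hU.isOpenEmbedding_subtypeVal.toOpenPartialHomeomorph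
    Subtype.val).trans e) ?_ he0 ⟨e, he, rfl⟩ hp0 (by simp [hp]) ?_
  · exact hU.isOpenEmbedding_subtypeVal.isInducing.continuousAt_iff.mpr h.1
  · exact h.2 e0 he0 e he hp0 hp

private theorem antiHolAt_restrict {U : Set X} (hU : IsOpen U) [Nonempty U] {f : Y → U} {p : Y}
    (h : AntiHolAt (fun y => (f y : X)) p) : @AntiHolAt Y U _ _ _ (rsOfOpen hU) f p := by
  let _ := rsOfOpen hU
  obtain ⟨e, he, hp⟩ := RS.exists_chart (f p : X)
  obtain ⟨e0, he0, hp0⟩ := RS.exists_chart p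
  refine AntiHolAt.of_charts (e := e0)
    (e' := (hU.isOpenEmbedding_subtypeVal.toOpenPartialHomeomorph
    Subtype.val).trans e) ?_ he0 ⟨e, he, rfl⟩ hp0 (by simp [hp]) ?_
  · exact hU.isOpenEmbedding_subtypeVal.isInducing.continuousAt_iff.mpr h.1
  · exact h.2 e0 he0 e he hp0 hp

end General


/-! ### Germs -/

private theorem nonconst_comp {α β γ : Type} [TopologicalSpace α] [TopologicalSpace β] {f : β → γ}
    {g : α → β} {p : α} (hg : map g (𝓝 p) = 𝓝 (g p)) (hf : ¬ ∀ᶠ y in 𝓝 (g p), f y = f (g p)) :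
    ¬ ∀ᶠ x in 𝓝 p, f (g x) = f (g p) := by
  intro h
  apply hf
  rw [← hg, eventually_map]
  exact h

private theorem Good.eventually {φ : ℂ → P × P} {t : ℂ} (h : Good φ t) : ∀ᶠ s in 𝓝 t, Good φ s := by
  filter_upwards [h.1.eventually, h.2.1.eventually, h.1.eventually_nonconst h.2.2.1,
    h.2.1.eventually_nonconst h.2.2.2] with s h1 h2 h3 h4 using ⟨h1, h2, h3, h4⟩

private theorem Good.continuousAt {φ : ℂ → P × P} {t : ℂ} (h : Good φ t) : ContinuousAt φ t :=
  h.1.1.prodMk h.2.1.1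

private theorem Good.comp {φ : ℂ → P × P} {s : ℂ} {θ : ℂ → ℂ} (hθ : AnalyticAt ℂ θ s)
    (hc : ¬ ∀ᶠ z in 𝓝 s, θ z = θ s) (h : Good φ (θ s)) : Good (fun z => φ (θ z)) s := by
  have h0 : HolAt θ s := holAt_iff_analyticAt.mpr hθ
  have h1 := h0.map_nhds hc
  exact ⟨HolAt.comp (g := fun z => (φ z).1) h.1 h0, HolAt.comp (g := fun z => (φ z).2) h.2.1 h0,
    nonconst_comp (f := fun z => (φ z).1) h1 h.2.2.1,
    nonconst_comp (f := fun z => (φ z).2) h1 h.2.2.2⟩

private theorem nonconst_add (a s : ℂ) : ¬ ∀ᶠ z in 𝓝 s, z + a = s + a := by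
  intro h
  have h1 : ∀ᶠ z in 𝓝[≠] s, z = s := by
    filter_upwards [h.filter_mono nhdsWithin_le_nhds] with z hz using add_right_cancel hz
  have h3 : ∀ᶠ z in 𝓝[≠] s, z ≠ s := self_mem_nhdsWithin
  obtain ⟨z, hz, hz'⟩ := (h1.and h3).exists
  exact hz' hz

private theorem Good.shift {φ : ℂ → P × P} {t : ℂ} (h : Good φ t) : Good (fun z => φ (z + t)) 0 :=
  Good.comp (θ := fun z => z + t) (by fun_prop) (nonconst_add t 0) (by simpa using h)

private theorem map_add_nhds (t : ℂ) : map (fun z : ℂ => z + t) (𝓝 0) = 𝓝 t := by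
  have h := (Homeomorph.addRight t).map_nhds_eq 0
  simp only [Homeomorph.coe_addRight, zero_add] at h
  exact h

private theorem map_shift {α : Type} (φ : ℂ → α) (t : ℂ) : map (fun z => φ (z + t)) (𝓝 0) = map φ (𝓝 t) := by
  rw [← map_add_nhds t, map_map]; rfl

private theorem shift_mem {U : Set ℂ} {t : ℂ} (hU : U ∈ 𝓝 t) : (fun z => z + t) ⁻¹' U ∈ 𝓝 (0 : ℂ) := by
  rw [← map_add_nhds t] at hU; exact hU

private theorem shift_injOn {φ : ℂ → P × P} {U : Set ℂ} {t : ℂ} (h : InjOn φ U) :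
    InjOn (fun z => φ (z + t)) ((fun z => z + t) ⁻¹' U) := by
  intro x hx y hy hxy
  exact add_right_cancel (h hx hy hxy)

private theorem transition {φ ψ : ℂ → P × P} {t t' : ℂ} (hφ : Good φ t) (hψ : Good ψ t') {U V : Set ℂ}
    (hU : U ∈ 𝓝 t) (hV : V ∈ 𝓝 t') (hφi : InjOn φ U) (hψi : InjOn ψ V)
    (h : map φ (𝓝 t) = map ψ (𝓝 t')) :
    ∃ θ : ℂ → ℂ, AnalyticAt ℂ θ t ∧ θ t = t' ∧ (¬ ∀ᶠ s in 𝓝 t, θ s = θ t) ∧
      ∀ᶠ s in 𝓝 t, φ s = ψ (θ s) := by
  obtain ⟨θ, h1, h2, h3, h4⟩ := germ_transition hφ.shift hψ.shift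
    (inter_mem (shift_mem hU) (shift_mem hV)) ((shift_injOn hφi).mono inter_subset_left)
    ((shift_injOn hψi).mono inter_subset_right) (by rw [map_shift, map_shift]; exact h)
  have h6 : Tendsto (fun s : ℂ => s - t) (𝓝 t) (𝓝 0) := by
    have : Continuous (fun s : ℂ => s - t) := by fun_prop
    simpa using this.tendsto t
  have h7 : AnalyticAt ℂ (fun s => θ (s - t) + t') t := by
    refine AnalyticAt.add ?_ analyticAt_const
    refine AnalyticAt.fun_comp (g := θ) (f := fun s => s - t) (by simpa using h1) (by fun_prop)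
  have h5 : ∀ᶠ s in 𝓝 t, φ s = ψ (θ (s - t) + t') := by
    filter_upwards [h6.eventually h4] with s hs
    simpa using hs
  refine ⟨fun s => θ (s - t) + t', h7, by simp [h2], ?_, h5⟩
  intro h8
  have h9 : ∀ᶠ s in 𝓝[≠] t, s = t := by
    refine Filter.Eventually.filter_mono nhdsWithin_le_nhds ?_
    filter_upwards [h5, h8, hU] with s hs1 hs2 hs3
    refine hφi hs3 (mem_of_mem_nhds hU) ?_
    rw [hs1, hs2, ← h5.self_of_nhds]
  have h10 : ∀ᶠ z in 𝓝[≠] t, z ≠ t := self_mem_nhdsWithin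
  obtain ⟨z, hz, hz'⟩ := (h9.and h10).exists
  exact hz' hz

private theorem key {α : Type} {φ ψ : ℂ → α} {t : ℂ} {θ : ℂ → ℂ} (hθ : AnalyticAt ℂ θ t)
    (hc : ¬ ∀ᶠ s in 𝓝 t, θ s = θ t) (h : ∀ᶠ s in 𝓝 t, φ s = ψ (θ s)) :
    ∀ᶠ s in 𝓝 t, map φ (𝓝 s) = map ψ (𝓝 (θ s)) := by
  filter_upwards [(holAt_iff_analyticAt.mpr hθ).eventually_map_nhds hc, h.eventually_nhds]
    with s h1 h2
  rw [← h1, map_map]
  exact map_congr h2

private theorem identity' {φ ψ : ℂ → P × P} {t t' : ℂ} (hφ : Good φ t) (hψ : Good ψ t') {U V : Set ℂ}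
    (hU : U ∈ 𝓝 t) (hV : V ∈ 𝓝 t') (hφi : InjOn φ U) (hψi : InjOn ψ V)
    (h : ∀ W ∈ 𝓝 t, ∀ W' ∈ 𝓝 t', ∃ s ∈ W, ∃ s' ∈ W', s ≠ t ∧ s' ≠ t' ∧ φ s = ψ s') :
    map φ (𝓝 t) = map ψ (𝓝 t') := by
  rw [← map_shift φ, ← map_shift ψ]
  refine germ_identity hφ.shift hψ.shift
    (inter_mem (shift_mem hU) (shift_mem hV)) ((shift_injOn hφi).mono inter_subset_left)
    ((shift_injOn hψi).mono inter_subset_right) ?_
  intro W hW
  have h6 : ∀ t : ℂ, Tendsto (fun s : ℂ => s - t) (𝓝 t) (𝓝 0) := by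
    intro t
    have : Continuous (fun s : ℂ => s - t) := by fun_prop
    simpa using this.tendsto t
  obtain ⟨s, hs, s', hs', h1, h2, h3⟩ := h _ (h6 t hW) _ (h6 t' hW)
  exact ⟨s - t, hs, s' - t', hs', sub_ne_zero.mpr h1, sub_ne_zero.mpr h2, by simpa using h3⟩

/-- An injectively parametrised piece of a curve in `P × P`. -/
private structure Patch (φ : ℂ → P × P) (U : Set ℂ) : Prop where
  isOpen : IsOpen U
  good : ∀ t ∈ U, Good φ t
  inj : InjOn φ U

private theorem Patch.mono {φ : ℂ → P × P} {U V : Set ℂ} (h : Patch φ U) (hV : IsOpen V) (hVU : V ⊆ U) :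
    Patch φ V :=
  ⟨hV, fun t ht => h.good t (hVU ht), h.inj.mono hVU⟩

private theorem exists_patch {φ : ℂ → P × P} {U : Set ℂ} {t : ℂ} (h : Good φ t) (hU : U ∈ 𝓝 t)
    (hi : InjOn φ U) : ∃ V, Patch φ V ∧ t ∈ V ∧ V ⊆ U := by
  obtain ⟨V, hV, hVo, htV⟩ := mem_nhds_iff.mp (inter_mem hU h.eventually)
  exact ⟨V, ⟨hVo, fun s hs => (hV hs).2, hi.mono fun s hs => (hV hs).1⟩, htV,
    fun s hs => (hV hs).1⟩

private def IsGerm (F : Filter (P × P)) : Prop :=
  ∃ (φ : ℂ → P × P) (U : Set ℂ) (t : ℂ), Patch φ U ∧ t ∈ U ∧ F = map φ (𝓝 t)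

private theorem patch_diag : Patch (fun s : ℂ => ((s : P), (s : P))) univ := by
  have hn : ∀ t : ℂ, ¬ ∀ᶠ s : ℂ in 𝓝 t, (s : P) = (t : P) := by
    intro t h
    apply nonconst_add 0 t
    filter_upwards [h] with s hs
    rw [OnePoint.coe_injective hs]
  refine ⟨isOpen_univ, fun t _ => ⟨holAt_coe t, holAt_coe t, hn t, hn t⟩, ?_⟩
  intro x _ y _ hxy
  exact OnePoint.coe_injective (congrArg Prod.fst hxy)

/-- The space of all germs. -/
private structure Germ : Type where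
  F : Filter (P × P)
  isGerm : IsGerm F

private instance : Nonempty Germ := ⟨⟨_, _, univ, 0, patch_diag, trivial, rfl⟩⟩

open Classical in
private noncomputable def mkG (F : Filter (P × P)) : Germ :=
  if h : IsGerm F then ⟨F, h⟩ else Classical.choice inferInstance

private theorem mkG_val {F : Filter (P × P)} (h : IsGerm F) : (mkG F).1 = F := by
  rw [mkG, dif_pos h]

private theorem mkG_self (x : Germ) : mkG x.1 = x := by
  rw [mkG, dif_pos x.2]

/-- The germ of `φ` at `t`. -/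
private noncomputable def pt (φ : ℂ → P × P) (t : ℂ) : Germ := mkG (map φ (𝓝 t))

private theorem pt_val {φ : ℂ → P × P} {U : Set ℂ} (h : Patch φ U) {t : ℂ} (ht : t ∈ U) :
    (pt φ t).1 = map φ (𝓝 t) := mkG_val ⟨φ, U, t, h, ht, rfl⟩

private theorem pt_eq {φ : ℂ → P × P} {t : ℂ} {x : Germ} (h : x.1 = map φ (𝓝 t)) : pt φ t = x := by
  rw [pt, ← h, mkG_self]

private theorem exists_pt (x : Germ) : ∃ (φ : ℂ → P × P) (U : Set ℂ) (t : ℂ), Patch φ U ∧ t ∈ U ∧
    x = pt φ t := by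
  obtain ⟨φ, U, t, h1, h2, h3⟩ := x.2
  exact ⟨φ, U, t, h1, h2, (pt_eq h3).symm⟩

private def sheet (φ : ℂ → P × P) (U : Set ℂ) : Set Germ := pt φ '' U

private instance : TopologicalSpace Germ :=
  TopologicalSpace.generateFrom {B | ∃ φ U, Patch φ U ∧ B = sheet φ U}

private theorem isOpen_sheet {φ : ℂ → P × P} {U : Set ℂ} (h : Patch φ U) : IsOpen (sheet φ U) :=
  TopologicalSpace.isOpen_generateFrom_of_mem ⟨φ, U, h, rfl⟩

private theorem pt_transition {φ ψ : ℂ → P × P} {U V : Set ℂ} (hφ : Patch φ U) (hψ : Patch ψ V) {t t' : ℂ}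
    (ht : t ∈ U) (ht' : t' ∈ V) (h : pt φ t = pt ψ t') :
    ∃ θ : ℂ → ℂ, AnalyticAt ℂ θ t ∧ θ t = t' ∧
      ∀ᶠ s in 𝓝 t, θ s ∈ V ∧ pt φ s = pt ψ (θ s) := by
  have h0 : map φ (𝓝 t) = map ψ (𝓝 t') := by
    rw [← pt_val hφ ht, h, pt_val hψ ht']
  obtain ⟨θ, h1, h2, h3, h4⟩ := transition (hφ.good t ht) (hψ.good t' ht')
    (hφ.isOpen.mem_nhds ht) (hψ.isOpen.mem_nhds ht') hφ.inj hψ.inj h0
  refine ⟨θ, h1, h2, ?_⟩
  have h5 : ∀ᶠ s in 𝓝 t, θ s ∈ V :=
    h1.continuousAt.eventually_mem (hψ.isOpen.mem_nhds (by rw [h2]; exact ht'))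
  filter_upwards [key h1 h3 h4, h5] with s hs1 hs2
  exact ⟨hs2, by rw [pt, pt, hs1]⟩

private theorem continuousAt_pt {φ : ℂ → P × P} {U : Set ℂ} (h : Patch φ U) {t : ℂ} (ht : t ∈ U) :
    ContinuousAt (pt φ) t := by
  rw [ContinuousAt, TopologicalSpace.tendsto_nhds_generateFrom_iff]
  rintro _ ⟨ψ, V, hV, rfl⟩ ⟨t', ht', h1⟩
  obtain ⟨θ, h2, h3, h4⟩ := pt_transition h hV ht ht' h1.symm
  filter_upwards [h4] with s hs
  exact ⟨θ s, hs.1, hs.2.symm⟩

private theorem Good.map_le {φ : ℂ → P × P} {t : ℂ} (h : Good φ t) : map φ (𝓝 t) ≤ 𝓝 (φ t) :=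
  h.continuousAt

private theorem pt_injOn {φ : ℂ → P × P} {U : Set ℂ} (h : Patch φ U) : InjOn (pt φ) U := by
  intro s hs t ht hst
  have h0 : map φ (𝓝 s) = map φ (𝓝 t) := by
    rw [← pt_val h hs, hst, pt_val h ht]
  apply h.inj hs ht
  have h1 := (h.good s hs).map_le
  have h2 := (h.good t ht).map_le
  rw [← h0] at h2
  exact eq_of_nhds_neBot (NeBot.mono inferInstance (le_inf h1 h2))

private noncomputable def chartOf {φ : ℂ → P × P} {U : Set ℂ} (h : Patch φ U) :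
    OpenPartialHomeomorph Germ ℂ :=
  (OpenPartialHomeomorph.ofContinuousOpenRestrict ((pt_injOn h).toPartialEquiv)
    (fun t ht => (continuousAt_pt h ht).continuousWithinAt)
    (by
      rintro W ⟨W', hW', rfl⟩
      have h1 : (U.domRestrict (pt φ)) '' (Subtype.val ⁻¹' W') = sheet φ (U ∩ W') := by
        ext x
        constructor
        · rintro ⟨⟨t, ht⟩, htW, rfl⟩
          exact ⟨t, ⟨ht, htW⟩, rfl⟩
        · rintro ⟨t, ⟨ht, htW⟩, rfl⟩
          exact ⟨⟨t, ht⟩, htW, rfl⟩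
      have h2 := isOpen_sheet (h.mono (h.isOpen.inter hW') inter_subset_left)
      rw [← h1] at h2
      exact h2) h.isOpen).symm

private theorem chartOf_source {φ : ℂ → P × P} {U : Set ℂ} (h : Patch φ U) :
    (chartOf h).source = sheet φ U := rfl

private theorem chartOf_target {φ : ℂ → P × P} {U : Set ℂ} (h : Patch φ U) :
    (chartOf h).target = U := rfl

private theorem chartOf_symm {φ : ℂ → P × P} {U : Set ℂ} (h : Patch φ U) :
    ⇑(chartOf h).symm = pt φ := rfl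

private theorem chartOf_pt {φ : ℂ → P × P} {U : Set ℂ} (h : Patch φ U) {t : ℂ} (ht : t ∈ U) :
    chartOf h (pt φ t) = t := (chartOf h).right_inv ht

private noncomputable instance : RS Germ where
  atlas := {e | ∃ (φ : ℂ → P × P) (U : Set ℂ) (h : Patch φ U), e = chartOf h}
  exists_chart := fun x => by
    obtain ⟨φ, U, t, h, ht, rfl⟩ := exists_pt x
    exact ⟨_, ⟨φ, U, h, rfl⟩, t, ht, rfl⟩
  compat := by
    rintro _ ⟨φ, U, h, rfl⟩ _ ⟨ψ, V, h', rfl⟩ z hz ⟨t', ht', h1⟩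
    obtain ⟨θ, h2, h3, h4⟩ := pt_transition h h' hz ht' h1.symm
    refine h2.congr ?_
    filter_upwards [h4] with w hw
    rw [chartOf_symm, hw.2, chartOf_pt h' hw.1]

private theorem chartOf_mem {φ : ℂ → P × P} {U : Set ℂ} (h : Patch φ U) :
    chartOf h ∈ RS.atlas (X := Germ) := ⟨φ, U, h, rfl⟩

private theorem holAt_pt {φ : ℂ → P × P} {U : Set ℂ} (h : Patch φ U) {t : ℂ} (ht : t ∈ U) :
    HolAt (pt φ) t := holAt_chart_symm (chartOf_mem h) ht

private theorem map_pt {φ : ℂ → P × P} {U : Set ℂ} (h : Patch φ U) {t : ℂ} (ht : t ∈ U) :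
    map (pt φ) (𝓝 t) = 𝓝 (pt φ t) := by
  have h1 := (chartOf h).symm.map_nhds_eq (x := t) ht
  exact h1

section
variable {Y : Type} [TopologicalSpace Y] [RS Y]

private theorem holAt_of_pt {g : Germ → Y} {φ : ℂ → P × P} {U : Set ℂ} (h : Patch φ U) {t : ℂ}
    (ht : t ∈ U) (hg : HolAt (fun s => g (pt φ s)) t) : HolAt g (pt φ t) := by
  refine HolAt.of_symm (chartOf_mem h) ⟨t, ht, rfl⟩ ?_
  rw [chartOf_pt h ht]
  exact hg

private theorem antiHolAt_of_pt {g : Germ → Y} {φ : ℂ → P × P} {U : Set ℂ} (h : Patch φ U) {t : ℂ}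
    (ht : t ∈ U) (hg : AntiHolAt (fun s => g (pt φ s)) t) : AntiHolAt g (pt φ t) := by
  refine AntiHolAt.of_symm (chartOf_mem h) ⟨t, ht, rfl⟩ ?_
  rw [chartOf_pt h ht]
  exact hg
end

/-- The position of a germ. -/
private noncomputable def pos (x : Germ) : P × P := lim x.F

private instance (x : Germ) : NeBot x.F := by
  obtain ⟨φ, U, t, h, ht, hx⟩ := x.isGerm
  rw [hx]; infer_instance

private theorem pos_of_le {x : Germ} {y : P × P} (h : x.F ≤ 𝓝 y) : pos x = y := lim_eq h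

private theorem pos_pt {φ : ℂ → P × P} {U : Set ℂ} (h : Patch φ U) {t : ℂ} (ht : t ∈ U) :
    pos (pt φ t) = φ t := by
  apply pos_of_le
  rw [pt_val h ht]
  exact (h.good t ht).map_le

private theorem pos_eventually {φ : ℂ → P × P} {U : Set ℂ} (h : Patch φ U) {t : ℂ} (ht : t ∈ U) :
    ∀ᶠ s in 𝓝 t, pos (pt φ s) = φ s := by
  filter_upwards [h.isOpen.mem_nhds ht] with s hs using pos_pt h hs

private theorem F_le (x : Germ) : x.F ≤ 𝓝 (pos x) := by
  obtain ⟨φ, U, t, h, ht, rfl⟩ := exists_pt x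
  rw [pos_pt h ht, pt_val h ht]
  exact (h.good t ht).map_le

private theorem holAt_fst (x : Germ) : HolAt (fun x => (pos x).1) x := by
  obtain ⟨φ, U, t, h, ht, rfl⟩ := exists_pt x
  refine holAt_of_pt h ht ((h.good t ht).1.congr ?_)
  filter_upwards [pos_eventually h ht] with s hs
  rw [hs]

private theorem holAt_snd (x : Germ) : HolAt (fun x => (pos x).2) x := by
  obtain ⟨φ, U, t, h, ht, rfl⟩ := exists_pt x
  refine holAt_of_pt h ht ((h.good t ht).2.1.congr ?_)
  filter_upwards [pos_eventually h ht] with s hs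
  rw [hs]

private theorem nonconst_fst (x : Germ) : ¬ ∀ᶠ y in 𝓝 x, (pos y).1 = (pos x).1 := by
  obtain ⟨φ, U, t, h, ht, rfl⟩ := exists_pt x
  intro h1
  rw [← map_pt h ht, eventually_map] at h1
  apply (h.good t ht).2.2.1
  filter_upwards [h1, pos_eventually h ht] with s h1 h2
  rw [← h2, h1, pos_pt h ht]

/-! ### Separation -/

private theorem sheet_mem {φ : ℂ → P × P} {U : Set ℂ} (h : Patch φ U) {t : ℂ} (ht : t ∈ U) {W : Set ℂ}
    (hW : W ∈ 𝓝 t) : pt φ '' (U ∩ W) ∈ 𝓝 (pt φ t) := by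
  rw [← map_pt h ht]
  exact image_mem_map (inter_mem (h.isOpen.mem_nhds ht) hW)

private theorem sep {x y : Germ} (hxy : x ≠ y) : ∃ U ∈ 𝓝 x, ∃ V ∈ 𝓝 y, ∀ x' ∈ U, ∀ y' ∈ V,
    pos x' = pos y' → x' = x ∧ y' = y := by
  by_contra hcon
  push Not at hcon
  apply hxy
  obtain ⟨φ, U, t, h, ht, rfl⟩ := exists_pt x
  obtain ⟨ψ, V, t', h', ht', rfl⟩ := exists_pt y
  have h0 : ∀ W ∈ 𝓝 t, ∀ W' ∈ 𝓝 t', ∃ s ∈ U ∩ W, ∃ s' ∈ V ∩ W', φ s = ψ s' ∧
      (s = t → s' ≠ t') := by
    intro W hW W' hW'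
    obtain ⟨_, ⟨s, hs, rfl⟩, _, ⟨s', hs', rfl⟩, h1, h2⟩ := hcon _ (sheet_mem h ht hW) _
      (sheet_mem h' ht' hW')
    rw [pos_pt h hs.1, pos_pt h' hs'.1] at h1
    refine ⟨s, hs, s', hs', h1, ?_⟩
    rintro rfl rfl
    exact h2 rfl rfl
  have h1 : φ t = ψ t' := by
    by_contra hne
    obtain ⟨A, B, hA, hB, hAt, hBt, hAB⟩ := t2_separation hne
    have hA' := (h.good t ht).continuousAt (hA.mem_nhds hAt)
    have hB' := (h'.good t' ht').continuousAt (hB.mem_nhds hBt)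
    obtain ⟨s, hs, s', hs', h2, -⟩ := h0 _ hA' _ hB'
    exact disjoint_left.mp hAB hs.2 (by rw [h2]; exact hs'.2)
  have h2 : map φ (𝓝 t) = map ψ (𝓝 t') := by
    refine identity' (h.good t ht) (h'.good t' ht') (h.isOpen.mem_nhds ht)
      (h'.isOpen.mem_nhds ht') h.inj h'.inj ?_
    intro W hW W' hW'
    obtain ⟨s, hs, s', hs', h2, h3⟩ := h0 W hW W' hW'
    refine ⟨s, hs.2, s', hs'.2, ?_, ?_, h2⟩
    · rintro rfl
      exact h3 rfl (h'.inj hs'.1 ht' (by rw [← h2, h1]))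
    · rintro rfl
      exact h3 (h.inj hs.1 ht (by rw [h2, h1])) rfl
  rw [pt, pt, h2]

private theorem local_inj (x : Germ) : ∃ U ∈ 𝓝 x, ∀ y ∈ U, ∀ z ∈ U, pos y = pos z → y = z := by
  obtain ⟨φ, U, t, h, ht, rfl⟩ := exists_pt x
  refine ⟨_, sheet_mem h ht univ_mem, ?_⟩
  rintro _ ⟨s, hs, rfl⟩ _ ⟨s', hs', rfl⟩ h1
  rw [pos_pt h hs.1, pos_pt h hs'.1] at h1
  rw [h.inj hs.1 hs'.1 h1]

private instance : T2Space Germ := by
  refine ⟨fun x y hxy => ?_⟩
  obtain ⟨U, hU, V, hV, h⟩ := sep hxy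
  obtain ⟨U', hU', hU'o, hxU⟩ := mem_nhds_iff.mp hU
  obtain ⟨V', hV', hV'o, hyV⟩ := mem_nhds_iff.mp hV
  refine ⟨U', V', hU'o, hV'o, hxU, hyV, disjoint_left.mpr fun z hz hz' => hxy ?_⟩
  obtain ⟨h1, h2⟩ := h z (hU' hz) z (hV' hz') rfl
  rw [← h1, ← h2]

/-! ### Push forward -/

section Push

variable {Ψ₁ Ψ₂ : P → P} (h1 : ∀ p, HolAt Ψ₁ p) (h2 : ∀ p, HolAt Ψ₂ p)
  (hc1 : ∀ p, ¬ ∀ᶠ y in 𝓝 p, Ψ₁ y = Ψ₁ p) (hc2 : ∀ p, ¬ ∀ᶠ y in 𝓝 p, Ψ₂ y = Ψ₂ p)

include h1 h2 hc1 hc2

private theorem Good.push {φ : ℂ → P × P} {t : ℂ} (h : Good φ t) :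
    Good (fun s => Prod.map Ψ₁ Ψ₂ (φ s)) t := by
  refine ⟨HolAt.comp (g := Ψ₁) (f := fun s => (φ s).1) (h1 _) h.1,
    HolAt.comp (g := Ψ₂) (f := fun s => (φ s).2) (h2 _) h.2.1,
    nonconst_comp (g := fun s => (φ s).1) (f := Ψ₁) (h.1.map_nhds h.2.2.1) (hc1 _),
    nonconst_comp (g := fun s => (φ s).2) (f := Ψ₂) (h.2.1.map_nhds h.2.2.2) (hc2 _)⟩

private theorem exists_push {φ : ℂ → P × P} {t : ℂ} (h : Good φ t) :
    ∃ (ψ : ℂ → P × P) (V : Set ℂ) (m : ℂ → ℂ), Patch ψ V ∧ AnalyticAt ℂ m t ∧ m t ∈ V ∧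
      ∀ᶠ s in 𝓝 t, m s ∈ V ∧ map (Prod.map Ψ₁ Ψ₂) (map φ (𝓝 s)) = map ψ (𝓝 (m s)) := by
  have h3 := h.push h1 h2 hc1 hc2
  obtain ⟨ψ, m, U, hU, hψ, hi, hm, hm0, hmc, he⟩ := germ_factor h3.shift
  obtain ⟨V, hV, h0V, hVU⟩ := exists_patch hψ hU hi
  have h6 : Tendsto (fun s : ℂ => s - t) (𝓝 t) (𝓝 0) := by
    have : Continuous (fun s : ℂ => s - t) := by fun_prop
    simpa using this.tendsto t
  have hmt : AnalyticAt ℂ (fun s => m (s - t)) t :=
    AnalyticAt.fun_comp (g := m) (f := fun s => s - t) (by simpa using hm) (by fun_prop)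
  refine ⟨ψ, V, fun s => m (s - t), hV, hmt, by simpa [hm0] using h0V, ?_⟩
  have h7 : ∀ᶠ s in 𝓝 t, Prod.map Ψ₁ Ψ₂ (φ s) = ψ (m (s - t)) := by
    filter_upwards [h6.eventually he] with s hs
    simpa using hs
  have hc : ¬ ∀ᶠ s in 𝓝 t, m (s - t) = m (t - t) := by
    intro h8
    apply hmc
    rw [← map_add_nhds t, eventually_map] at h8
    filter_upwards [h8] with s hs
    simpa [hm0] using hs
  have h9 : ∀ᶠ s in 𝓝 t, m (s - t) ∈ V :=
    hmt.continuousAt.eventually_mem (hV.isOpen.mem_nhds (by simpa [hm0] using h0V))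
  filter_upwards [h9, key hmt hc h7] with s hs1 hs2
  refine ⟨hs1, ?_⟩
  rw [map_map]
  exact hs2

private theorem isGerm_push (x : Germ) : IsGerm (map (Prod.map Ψ₁ Ψ₂) x.F) := by
  obtain ⟨φ, U, t, h, ht, hx⟩ := x.isGerm
  obtain ⟨ψ, V, m, hV, hm, hmt, he⟩ := exists_push h1 h2 hc1 hc2 (h.good t ht)
  rw [hx]
  exact ⟨ψ, V, m t, hV, hmt, he.self_of_nhds.2⟩

private theorem holAt_push (x : Germ) : HolAt (fun x : Germ => mkG (map (Prod.map Ψ₁ Ψ₂) x.F)) x := by
  obtain ⟨φ, U, t, h, ht, rfl⟩ := exists_pt x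
  obtain ⟨ψ, V, m, hV, hm, hmt, he⟩ := exists_push h1 h2 hc1 hc2 (h.good t ht)
  refine holAt_of_pt h ht ?_
  refine (HolAt.comp (g := pt ψ) (f := m) (holAt_pt hV hmt) (holAt_iff_analyticAt.mpr hm)).congr ?_
  filter_upwards [he, h.isOpen.mem_nhds ht] with s hs hs'
  rw [pt_val h hs', hs.2]; rfl

private theorem pos_push (x : Germ) : pos (mkG (map (Prod.map Ψ₁ Ψ₂) x.F)) = Prod.map Ψ₁ Ψ₂ (pos x) := by
  apply pos_of_le
  rw [mkG_val (isGerm_push h1 h2 hc1 hc2 x)]
  refine (map_mono (F_le x)).trans ?_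
  have : ContinuousAt (Prod.map Ψ₁ Ψ₂) (pos x) := by
    have c1 : Continuous Ψ₁ := continuous_iff_continuousAt.mpr fun p => (h1 p).1
    have c2 : Continuous Ψ₂ := continuous_iff_continuousAt.mpr fun p => (h2 p).1
    exact (c1.prodMap c2).continuousAt
  exact this

end Push

/-! ### The symmetry -/

/-- The antiholomorphic symmetry of `P × P`. -/
private noncomputable def sg (z : P × P) : P × P := (cjP z.2, cjP z.1)

private theorem sg_sg (z : P × P) : sg (sg z) = z := by simp [sg]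

private theorem continuous_sg : Continuous sg :=
  (continuous_cjP.comp continuous_snd).prodMk (continuous_cjP.comp continuous_fst)

private theorem conj_map_nhds (s : ℂ) : map (starRingEnd ℂ) (𝓝 s) = 𝓝 ((starRingEnd ℂ) s) :=
  Complex.conjCLE.toHomeomorph.map_nhds_eq s

private theorem cjP_injective : Function.Injective cjP := fun x y h => by
  rw [← cjP_cjP x, h, cjP_cjP]

/-- The conjugate parametrisation. -/
private noncomputable def cg (φ : ℂ → P × P) (s : ℂ) : P × P := sg (φ ((starRingEnd ℂ) s))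

private theorem map_sg (φ : ℂ → P × P) (s : ℂ) :
    map sg (map φ (𝓝 s)) = map (cg φ) (𝓝 ((starRingEnd ℂ) s)) := by
  rw [← conj_map_nhds, map_map, map_map]
  congr 1
  funext z
  simp [cg]

private theorem Good.cg {φ : ℂ → P × P} {t : ℂ} (h : Good φ t) : Good (cg φ) ((starRingEnd ℂ) t) := by
  have h1 : HolAt (fun s => cjP ((φ ((starRingEnd ℂ) s)).2)) ((starRingEnd ℂ) t) := by
    refine AntiHolAt.comp_anti (g := cjP) (f := fun s => (φ ((starRingEnd ℂ) s)).2)
      (antiHolAt_cjP _) ?_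
    refine HolAt.comp_anti (g := fun s => (φ s).2) ?_ (antiHolAt_conj _)
    rw [Complex.conj_conj]; exact h.2.1
  have h2 : HolAt (fun s => cjP ((φ ((starRingEnd ℂ) s)).1)) ((starRingEnd ℂ) t) := by
    refine AntiHolAt.comp_anti (g := cjP) (f := fun s => (φ ((starRingEnd ℂ) s)).1)
      (antiHolAt_cjP _) ?_
    refine HolAt.comp_anti (g := fun s => (φ s).1) ?_ (antiHolAt_conj _)
    rw [Complex.conj_conj]; exact h.1
  refine ⟨h1, h2, ?_, ?_⟩
  · intro h3
    apply h.2.2.2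
    rw [← conj_map_nhds, eventually_map] at h3
    filter_upwards [h3] with s hs
    simp only [MP_1f4a82_an.cg, sg, Complex.conj_conj] at hs
    exact cjP_injective hs
  · intro h3
    apply h.2.2.1
    rw [← conj_map_nhds, eventually_map] at h3
    filter_upwards [h3] with s hs
    simp only [MP_1f4a82_an.cg, sg, Complex.conj_conj] at hs
    exact cjP_injective hs

private theorem Patch.cg {φ : ℂ → P × P} {U : Set ℂ} (h : Patch φ U) :
    Patch (cg φ) ((starRingEnd ℂ) ⁻¹' U) := by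
  refine ⟨h.isOpen.preimage Complex.continuous_conj, ?_, ?_⟩
  · intro t ht
    have := (h.good _ ht).cg
    rwa [Complex.conj_conj] at this
  · intro s hs t ht hst
    have h1 : φ ((starRingEnd ℂ) s) = φ ((starRingEnd ℂ) t) := by
      have := congrArg sg hst
      simpa only [MP_1f4a82_an.cg, sg_sg] using this
    have h2 := h.inj hs ht h1
    rw [← Complex.conj_conj s, h2, Complex.conj_conj]

private theorem isGerm_sg (x : Germ) : IsGerm (map sg x.F) := by
  obtain ⟨φ, U, t, h, ht, hx⟩ := x.isGerm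
  rw [hx, map_sg]
  exact ⟨_, _, _, h.cg, by simpa using ht, rfl⟩

/-- The symmetry of the space of germs. -/
private noncomputable def tau (x : Germ) : Germ := mkG (map sg x.F)

private theorem tau_pt {φ : ℂ → P × P} {U : Set ℂ} (h : Patch φ U) {t : ℂ} (ht : t ∈ U) :
    tau (pt φ t) = pt (cg φ) ((starRingEnd ℂ) t) := by
  rw [tau, pt_val h ht, map_sg]; rfl

private theorem tau_tau (x : Germ) : tau (tau x) = x := by
  have h1 : (tau x).F = map sg x.F := mkG_val (isGerm_sg x)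
  rw [tau, h1, map_map]
  have : sg ∘ sg = id := by funext z; exact sg_sg z
  rw [this, map_id, mkG_self]

private theorem pos_tau (x : Germ) : pos (tau x) = sg (pos x) := by
  apply pos_of_le
  rw [tau, mkG_val (isGerm_sg x)]
  exact (map_mono (F_le x)).trans continuous_sg.continuousAt

private theorem antiHolAt_tau (x : Germ) : AntiHolAt tau x := by
  obtain ⟨φ, U, t, h, ht, rfl⟩ := exists_pt x
  refine antiHolAt_of_pt h ht ?_
  have h1 : AntiHolAt (fun s => pt (cg φ) ((starRingEnd ℂ) s)) t :=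
    HolAt.comp_anti (g := pt (cg φ)) (holAt_pt h.cg (by simpa using ht)) (antiHolAt_conj t)
  refine h1.congr ?_
  filter_upwards [h.isOpen.mem_nhds ht] with s hs
  rw [tau_pt h hs]

/-! ### The map `f` -/

private theorem nonconst_of_fibres {f : P → P} {d : ℕ} (hd : ∀ w, (f ⁻¹' {w}).encard ≤ d) (p : P) :
    ¬ ∀ᶠ y in 𝓝 p, f y = f p := by
  intro h
  have h1 : (f ⁻¹' {f p}).Infinite := infinite_of_mem_nhds p h
  have h2 := hd (f p)
  rw [h1.encard_eq] at h2
  simp at h2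

/-- The conjugate map. -/
private noncomputable def cjf (f : P → P) (y : P) : P := cjP (f (cjP y))

private theorem holAt_cjf {f : P → P} (hf : ∀ p, HolAt f p) (p : P) : HolAt (cjf f) p :=
  AntiHolAt.comp_anti (g := cjP) (f := fun y => f (cjP y)) (antiHolAt_cjP _)
    (HolAt.comp_anti (g := f) (hf _) (antiHolAt_cjP p))

private theorem nonconst_cjf {f : P → P} (hc : ∀ p, ¬ ∀ᶠ y in 𝓝 p, f y = f p) (p : P) :
    ¬ ∀ᶠ y in 𝓝 p, cjf f y = cjf f p := by
  intro h
  apply hc (cjP p)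
  have h1 : Tendsto cjP (𝓝 (cjP p)) (𝓝 p) := by
    have := continuous_cjP.tendsto (cjP p)
    rwa [cjP_cjP] at this
  filter_upwards [h1.eventually h] with y hy
  have := cjP_injective hy
  rwa [cjP_cjP] at this

/-- The map on germs. -/
private noncomputable def Phi (f : P → P) (x : Germ) : Germ := mkG (map (Prod.map f (cjf f)) x.F)

private theorem sg_comm (f : P → P) (z : P × P) :
    Prod.map f (cjf f) (sg z) = sg (Prod.map f (cjf f) z) := by
  simp [sg, cjf]

section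
variable {f : P → P} (hf : ∀ p, HolAt f p) (hc : ∀ p, ¬ ∀ᶠ y in 𝓝 p, f y = f p)
include hf hc

private theorem isGerm_Phi (x : Germ) : IsGerm (map (Prod.map f (cjf f)) x.F) :=
  isGerm_push hf (holAt_cjf hf) hc (nonconst_cjf hc) x

private theorem holAt_Phi (x : Germ) : HolAt (Phi f) x :=
  holAt_push hf (holAt_cjf hf) hc (nonconst_cjf hc) x

private theorem pos_Phi (x : Germ) : pos (Phi f x) = Prod.map f (cjf f) (pos x) :=
  pos_push hf (holAt_cjf hf) hc (nonconst_cjf hc) x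

private theorem Phi_tau (x : Germ) : Phi f (tau x) = tau (Phi f x) := by
  have h1 : (tau x).F = map sg x.F := mkG_val (isGerm_sg x)
  have h2 : (Phi f x).F = map (Prod.map f (cjf f)) x.F := mkG_val (isGerm_Phi hf hc x)
  have h3 : Prod.map f (cjf f) ∘ sg = sg ∘ Prod.map f (cjf f) := by
    funext z; exact sg_comm f z
  rw [Phi, h1, tau, h2, map_map, map_map, h3]

private theorem nonconst_Phi (x : Germ) : ¬ ∀ᶠ y in 𝓝 x, Phi f y = Phi f x := by
  intro h
  have h1 := nonconst_comp (g := fun x => (pos x).1) (f := f) (p := x)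
    ((holAt_fst x).map_nhds (nonconst_fst x)) (hc _)
  apply h1
  filter_upwards [h] with y hy
  have h2 := congrArg (fun z => (pos z).1) hy
  simp only [pos_Phi hf hc] at h2
  exact h2

private theorem fibre_Phi {d : ℕ} (hd : ∀ w, (f ⁻¹' {w}).encard ≤ d) (q : Germ) :
    (Phi f ⁻¹' {q}).encard ≤ d * d := by
  by_contra hlt
  rw [not_le] at hlt
  obtain ⟨T, hT, hTc⟩ := exists_subset_encard_eq (s := Phi f ⁻¹' {q}) (k := (d * d + 1 : ℕ))
    (by push_cast; exact Order.add_one_le_of_lt hlt)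
  have hTf : T.Finite := finite_of_encard_eq_coe hTc
  -- separating neighbourhoods
  have hW : ∀ p ∈ T, ∃ W ∈ 𝓝 p, ∀ p' ∈ T, p' ≠ p → ∃ W' ∈ 𝓝 p', ∀ x ∈ W, ∀ y ∈ W',
      pos x = pos y → x = p ∧ y = p' := by
    intro p hp
    have h1 : ∀ p' ∈ T, ∃ W ∈ 𝓝 p, p' ≠ p → ∃ W' ∈ 𝓝 p', ∀ x ∈ W, ∀ y ∈ W',
        pos x = pos y → x = p ∧ y = p' := by
      intro p' hp'
      by_cases h : p' = p
      · exact ⟨univ, univ_mem, fun h' => absurd h h'⟩
      · obtain ⟨U, hU, V, hV, h2⟩ := sep (Ne.symm h)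
        exact ⟨U, hU, fun _ => ⟨V, hV, h2⟩⟩
    choose! W hW1 hW2 using h1
    refine ⟨⋂ p' ∈ T, W p', (biInter_mem hTf).mpr hW1, ?_⟩
    intro p' hp' hne
    obtain ⟨W', hW', h3⟩ := hW2 p' hp' hne
    exact ⟨W', hW', fun x hx y hy => h3 x (mem_iInter₂.mp hx p' hp') y hy⟩
  choose! W hWn hWs using hW
  choose! W' hW'n hW's using hWs
  -- V p : all conditions
  set V : Germ → Set Germ := fun p => W p ∩ ⋂ p' ∈ T, {x | p' ≠ p → x ∈ W' p' p} with hVdef
  have hV : ∀ p ∈ T, V p ∈ 𝓝 p := by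
    intro p hp
    refine inter_mem (hWn p hp) ((biInter_mem hTf).mpr ?_)
    intro p' hp'
    by_cases h : p' = p
    · exact mem_of_superset univ_mem fun x _ hne => absurd h hne
    · exact mem_of_superset (hW'n p' hp' p hp (Ne.symm h)) fun x hx _ => hx
  have hVs : ∀ p ∈ T, ∀ p' ∈ T, p' ≠ p → ∀ x ∈ V p, ∀ y ∈ V p', pos x = pos y → x = p := by
    intro p hp p' hp' hne x hx y hy hxy
    refine (hW's p hp p' hp' hne x hx.1 y ?_ hxy).1
    exact mem_iInter₂.mp hy.2 p hp (Ne.symm hne)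
  have himg : ∀ p ∈ T, Phi f '' V p ∈ 𝓝 q := by
    intro p hp
    have h1 : Phi f p = q := hT hp
    rw [← h1, ← (holAt_Phi hf hc p).map_nhds (nonconst_Phi hf hc p)]
    exact image_mem_map (hV p hp)
  have hall : (⋂ p ∈ T, Phi f '' V p) ∈ 𝓝 q := (biInter_mem hTf).mpr himg
  obtain ⟨q', hq', hne⟩ : ∃ q' ∈ (⋂ p ∈ T, Phi f '' V p), q' ≠ q := by
    have h1 : ∀ᶠ x in 𝓝[≠] q, x ∈ (⋂ p ∈ T, Phi f '' V p) := nhdsWithin_le_nhds hall
    have h2 : ∀ᶠ x in 𝓝[≠] q, x ≠ q := self_mem_nhdsWithin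
    obtain ⟨x, hx, hx'⟩ := (h1.and h2).exists
    exact ⟨x, hx, hx'⟩
  have hx : ∀ p ∈ T, ∃ x ∈ V p, Phi f x = q' := fun p hp => mem_iInter₂.mp hq' p hp
  choose! x hxV hxq using hx
  have hinj : InjOn (fun p => pos (x p)) T := by
    intro p hp p' hp' h
    by_contra hne'
    have h1 := hVs p hp p' hp' (Ne.symm hne') (x p) (hxV p hp) (x p') (hxV p' hp') h
    apply hne
    rw [← hxq p hp, h1]
    exact hT hp
  have hmaps : MapsTo (fun p => pos (x p)) T
      ((f ⁻¹' {(pos q').1}) ×ˢ (cjP '' (f ⁻¹' {cjP (pos q').2}))) := by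
    intro p hp
    have h1 := pos_Phi hf hc (x p)
    rw [hxq p hp] at h1
    refine ⟨?_, cjP (pos (x p)).2, ?_, cjP_cjP _⟩
    · simp [h1]
    · simp [h1, cjf]
  have hle := encard_le_encard_of_injOn hmaps hinj
  rw [hTc, encard_prod, cjP_injective.encard_image] at hle
  have h3 := hle.trans (mul_le_mul' (hd _) (hd _))
  have h4 : ((d * d + 1 : ℕ) : ℕ∞) ≤ ((d * d : ℕ) : ℕ∞) := by
    push_cast; push_cast at h3; exact h3
  rw [Nat.cast_le] at h4
  omega

end

/-! ### The curve -/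

private theorem nonconst_of_injOn {α : Type} {g : ℂ → α} {U : Set ℂ} {s : ℂ} (hU : U ∈ 𝓝 s)
    (h : InjOn g U) : ¬ ∀ᶠ z in 𝓝 s, g z = g s := by
  intro h8
  have h9 : ∀ᶠ z in 𝓝[≠] s, z = s := by
    refine Filter.Eventually.filter_mono nhdsWithin_le_nhds ?_
    filter_upwards [h8, hU] with z hs1 hs2
    exact h hs2 (mem_of_mem_nhds hU) hs1
  have h10 : ∀ᶠ z in 𝓝[≠] s, z ≠ s := self_mem_nhdsWithin
  obtain ⟨z, hz, hz'⟩ := (h9.and h10).exists
  exact hz' hz

private theorem isOpen_strip (η : ℝ) : IsOpen (strip η) :=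
  isOpen_lt (Complex.continuous_im.abs) continuous_const

private theorem convex_strip (η : ℝ) : Convex ℝ (strip η) := by
  have h1 : strip η = Complex.imLm ⁻¹' Ioo (-η) η := by
    ext s
    simp [strip, abs_lt]
  rw [h1]
  exact (convex_Ioo (-η) η).is_linear_preimage Complex.imLm.isLinear

private theorem strip_add {η : ℝ} {s : ℂ} : s + 1 ∈ strip η ↔ s ∈ strip η := by
  simp [strip]

private theorem strip_conj {η : ℝ} {s : ℂ} : (starRingEnd ℂ) s ∈ strip η ↔ s ∈ strip η := by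
  simp [strip]

private theorem strip_real {η : ℝ} (h : 0 < η) (x : ℝ) : (x : ℂ) ∈ strip η := by
  simp [strip, h]

section Curve
variable {f : P → P} (c : InvCurve f)

/-- The curve in `P × P`. -/
private noncomputable def phiC (s : ℂ) : P × P := (c.γ s, cjP (c.γ ((starRingEnd ℂ) s)))

/-- A disc on which the curve is injective. -/
private def discC (s : ℂ) : Set ℂ := Metric.ball s (1 / 2) ∩ strip c.η

private theorem isOpen_discC (s : ℂ) : IsOpen (discC c s) := Metric.isOpen_ball.inter (isOpen_strip _)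

private theorem mem_discC {s : ℂ} (hs : s ∈ strip c.η) : s ∈ discC c s :=
  ⟨Metric.mem_ball_self (by norm_num), hs⟩

private theorem injOn_discC (s : ℂ) : InjOn c.γ (discC c s) := by
  intro x hx y hy h
  obtain ⟨k, hk⟩ := c.inj x hx.2 y hy.2 h
  have h1 : dist x y < 1 := by
    have h2 := Metric.mem_ball.mp hx.1
    have h3 := Metric.mem_ball.mp hy.1
    calc dist x y ≤ dist x s + dist y s := dist_triangle_right _ _ _
      _ < 1 := by linarith
  have h4 : ‖(k : ℂ)‖ < 1 := by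
    rw [dist_comm, dist_eq_norm, hk, add_sub_cancel_left] at h1
    exact h1
  have h5 : |(k : ℝ)| < 1 := by
    rw [Complex.norm_intCast] at h4
    exact_mod_cast h4
  have h6 : k = 0 := by
    have : |k| < 1 := by exact_mod_cast h5
    exact Int.abs_lt_one_iff.mp this
  rw [hk, h6]; simp

private theorem good_phiC {s : ℂ} (hs : s ∈ strip c.η) : Good (phiC c) s := by
  have hn : ∀ s ∈ strip c.η, ¬ ∀ᶠ z in 𝓝 s, c.γ z = c.γ s := fun s hs =>
    nonconst_of_injOn ((isOpen_discC c s).mem_nhds (mem_discC c hs)) (injOn_discC c s)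
  have h1 : Good (fun z => (c.γ z, c.γ z)) s := ⟨c.hol s hs, c.hol s hs, hn s hs, hn s hs⟩
  have h2 : Good (fun z => (c.γ z, c.γ z)) ((starRingEnd ℂ) s) :=
    ⟨c.hol _ (strip_conj.mpr hs), c.hol _ (strip_conj.mpr hs), hn _ (strip_conj.mpr hs),
      hn _ (strip_conj.mpr hs)⟩
  have h3 := h2.cg
  rw [Complex.conj_conj] at h3
  exact ⟨h1.1, h3.2.1, h1.2.2.1, h3.2.2.2⟩

private theorem patch_phiC (s : ℂ) : Patch (phiC c) (discC c s) :=
  ⟨isOpen_discC c s, fun _ ht => good_phiC c ht.2,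
    fun _ hx _ hy h => injOn_discC c s hx hy (congrArg Prod.fst h)⟩

private theorem cg_phiC : cg (phiC c) = phiC c := by
  funext s
  simp [cg, phiC, sg]

private theorem pt_add (s : ℂ) : pt (phiC c) (s + 1) = pt (phiC c) s := by
  have h1 : map (fun z : ℂ => z + 1) (𝓝 s) = 𝓝 (s + 1) := by
    have h := (Homeomorph.addRight (1 : ℂ)).map_nhds_eq s
    simp only [Homeomorph.coe_addRight] at h
    exact h
  rw [pt, pt, ← h1, map_map]
  congr 2
  funext z
  simp [phiC, c.per]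

open Classical in
/-- The curve in the space of germs. -/
private noncomputable def jj (s : ℂ) : Germ := if s ∈ strip c.η then pt (phiC c) s else pt (phiC c) 0

private theorem jj_of_mem {s : ℂ} (hs : s ∈ strip c.η) : jj c s = pt (phiC c) s := if_pos hs

private theorem jj_add (s : ℂ) : jj c (s + 1) = jj c s := by
  by_cases hs : s ∈ strip c.η
  · rw [jj_of_mem c hs, jj_of_mem c (strip_add.mpr hs), pt_add]
  · rw [jj, jj, if_neg hs, if_neg (fun h => hs (strip_add.mp h))]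

private theorem holAt_jj {s : ℂ} (hs : s ∈ strip c.η) : HolAt (jj c) s := by
  refine (holAt_pt (patch_phiC c s) (mem_discC c hs)).congr ?_
  filter_upwards [(isOpen_strip _).mem_nhds hs] with z hz
  rw [jj_of_mem c hz]

private theorem pos_jj {s : ℂ} (hs : s ∈ strip c.η) : pos (jj c s) = phiC c s := by
  rw [jj_of_mem c hs, pos_pt (patch_phiC c s) (mem_discC c hs)]

private theorem tau_jj {s : ℂ} (hs : s ∈ strip c.η) : tau (jj c s) = jj c ((starRingEnd ℂ) s) := by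
  rw [jj_of_mem c hs, tau_pt (patch_phiC c s) (mem_discC c hs), cg_phiC,
    jj_of_mem c (strip_conj.mpr hs)]

private theorem Phi_jj (hf : ∀ p, HolAt f p) (hc : ∀ p, ¬ ∀ᶠ y in 𝓝 p, f y = f p) (x : ℝ) :
    Phi f (jj c x) = jj c (c.F x) := by
  have hx := strip_real c.η_pos x
  have hFx := strip_real c.η_pos (c.F x)
  set U := discC c (c.F x) with hU
  have hUo : IsOpen U := isOpen_discC c _
  have hFU : (c.F x : ℂ) ∈ U := mem_discC c hFx
  set g : P → ℂ := Function.invFunOn c.γ U with hg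
  have hgi : ∀ z ∈ U, g (c.γ z) = z := fun z hz => (injOn_discC c _).leftInvOn_invFunOn hz
  have hgh : HolAt g (c.γ (c.F x)) := holAt_leftInverse hUo (fun z hz => c.hol z hz.2) hgi hFU
  set G : ℂ → ℂ := fun s => g (f (c.γ s)) with hG
  have hGh : HolAt G x := by
    refine HolAt.comp (g := g) (f := fun s => f (c.γ s)) ?_ ((hf _).comp (c.hol _ hx))
    rw [c.inv]; exact hgh
  have hGx : G x = c.F x := by
    simp only [hG]; rw [c.inv, hgi _ hFU]
  have hγ : ∀ s ∈ strip c.η, map c.γ (𝓝 s) = 𝓝 (c.γ s) := fun s hs =>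
    (c.hol s hs).map_nhds_of_injOn ((isOpen_discC c s).mem_nhds (mem_discC c hs))
      (injOn_discC c s)
  have he : ∀ᶠ s in 𝓝 (x : ℂ), f (c.γ s) = c.γ (G s) := by
    have h1 : c.γ '' U ∈ 𝓝 (f (c.γ x)) := by
      rw [c.inv, ← hγ _ hFx]
      exact image_mem_map (hUo.mem_nhds hFU)
    have h2 : ContinuousAt (fun s => f (c.γ s)) (x : ℂ) := ((hf _).comp (c.hol _ hx)).1
    filter_upwards [h2.eventually_mem h1] with s hs
    obtain ⟨z, hz, hzs⟩ := hs
    simp only [hG]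
    rw [← hzs, hgi z hz]
  have hGc : ¬ ∀ᶠ s in 𝓝 (x : ℂ), G s = G x := by
    intro h
    apply nonconst_comp (g := c.γ) (f := f) (hγ _ hx) (hc _)
    filter_upwards [h, he] with s h1 h2
    rw [h2, h1, ← he.self_of_nhds]
  -- second coordinate
  have hA : HolAt (fun s : ℂ => cjP (f (c.γ ((starRingEnd ℂ) s)))) x := by
    refine AntiHolAt.comp_anti (g := cjP) (f := fun s => f (c.γ ((starRingEnd ℂ) s)))
      (antiHolAt_cjP _) ?_
    refine HolAt.comp_anti (g := fun s => f (c.γ s)) ?_ (antiHolAt_conj _)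
    rw [Complex.conj_ofReal]
    exact (hf _).comp (c.hol _ hx)
  have hB : HolAt (fun s : ℂ => cjP (c.γ ((starRingEnd ℂ) (G s)))) x := by
    refine AntiHolAt.comp_anti (g := cjP) (f := fun s => c.γ ((starRingEnd ℂ) (G s)))
      (antiHolAt_cjP _) ?_
    refine AntiHolAt.comp_hol (g := fun s => c.γ ((starRingEnd ℂ) s)) ?_ hGh
    rw [hGx]
    refine HolAt.comp_anti (g := c.γ) ?_ (antiHolAt_conj _)
    rw [Complex.conj_ofReal]
    exact c.hol _ hFx
  have hAB : ∀ᶠ s in 𝓝 (x : ℂ), cjP (f (c.γ ((starRingEnd ℂ) s))) =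
      cjP (c.γ ((starRingEnd ℂ) (G s))) := by
    rcases hA.eventually_eq_or_ne hB with h | h
    · exact h
    · exfalso
      have h1 : Tendsto (fun y : ℝ => (y : ℂ)) (𝓝[≠] x) (𝓝[≠] (x : ℂ)) := by
        refine tendsto_nhdsWithin_iff.mpr ⟨?_, ?_⟩
        · exact (Complex.continuous_ofReal.tendsto x).mono_left nhdsWithin_le_nhds
        · filter_upwards [self_mem_nhdsWithin] with y hy
          simpa using hy
      have h2 : ∀ᶠ y in 𝓝[≠] x, (c.F y : ℂ) ∈ U := by
        have : ContinuousAt (fun y : ℝ => (c.F y : ℂ)) x :=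
          (Complex.continuous_ofReal.comp c.F_cont).continuousAt
        exact (this.eventually_mem (hUo.mem_nhds hFU)).filter_mono nhdsWithin_le_nhds
      obtain ⟨y, hy1, hy2⟩ := ((h1.eventually h).and h2).exists
      apply hy1
      have h3 : G y = c.F y := by
        simp only [hG]; rw [c.inv, hgi _ hy2]
      rw [h3, Complex.conj_ofReal, Complex.conj_ofReal, c.inv]
  have hmain : ∀ᶠ s in 𝓝 (x : ℂ), Prod.map f (cjf f) (phiC c s) = phiC c (G s) := by
    filter_upwards [he, hAB] with s h1 h2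
    refine Prod.ext ?_ ?_
    · exact h1
    · simp only [phiC, Prod.map_snd, cjf, cjP_cjP]
      exact h2
  rw [jj_of_mem c hx, jj_of_mem c hFx, Phi, pt_val (patch_phiC c x) (mem_discC c hx), map_map,
    pt, ← hGx, ← hGh.map_nhds hGc, map_map]
  congr 1
  exact map_congr hmain

end Curve

/-! ### The main result -/

theorem exists_germ_surface (f : P → P) (hf : ∀ p, HolAt f p) (d : ℕ)
    (hd : ∀ w, (f ⁻¹' {w}).encard ≤ d) (c : InvCurve f) :
    ∃ (S : Type) (_ : TopologicalSpace S) (_ : RS S) (h k : S → P) (Φ τ : S → S) (j : ℂ → S),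
      T2Space S ∧ ConnectedSpace S ∧
      (∀ p, HolAt h p) ∧ (∀ p, HolAt k p) ∧ (∀ p, HolAt Φ p) ∧ (∀ p, AntiHolAt τ p) ∧
      (∀ s ∈ strip c.η, HolAt j s) ∧ (∀ s ∈ strip c.η, h (j s) = c.γ s) ∧
      (∀ s, j (s + 1) = j s) ∧ (∀ s ∈ strip c.η, τ (j s) = j ((starRingEnd ℂ) s)) ∧
      (∀ x : ℝ, Φ (j x) = j (c.F x)) ∧ (∀ p, h (Φ p) = f (h p)) ∧ (∀ p, τ (τ p) = p) ∧
      (∀ p, h (τ p) = cjP (k p)) ∧ (∀ p, Φ (τ p) = τ (Φ p)) ∧
      (∀ q, (Φ ⁻¹' {q}).encard ≤ d * d) ∧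
      (∀ p q, p ≠ q → ∃ U ∈ 𝓝 p, ∃ V ∈ 𝓝 q, ∀ x ∈ U, ∀ y ∈ V, h x = h y → k x = k y →
        x = p ∧ y = q) ∧
      (∀ p, ∃ U ∈ 𝓝 p, ∀ x ∈ U, ∀ y ∈ U, h x = h y → k x = k y → x = y) := by
  have hc : ∀ p, ¬ ∀ᶠ y in 𝓝 p, f y = f p := nonconst_of_fibres hd
  have h0 : (0 : ℂ) ∈ strip c.η := by simpa using strip_real c.η_pos 0
  set C : Set Germ := connectedComponent (jj c 0) with hC
  have hCo : IsOpen C := isOpen_connectedComponent
  have hCc : IsConnected C := isConnected_connectedComponent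
  have : Nonempty C := hCc.nonempty.to_subtype
  have hjs : ∀ s ∈ strip c.η, jj c s ∈ C := by
    have h1 : IsPreconnected (jj c '' strip c.η) :=
      (convex_strip c.η).isPreconnected.image _ fun s hs => (holAt_jj c hs).1.continuousWithinAt
    intro s hs
    exact h1.subset_connectedComponent ⟨0, h0, rfl⟩ ⟨s, hs, rfl⟩
  have hjC : ∀ s, jj c s ∈ C := by
    intro s
    by_cases hs : s ∈ strip c.η
    · exact hjs s hs
    · have h1 : jj c s = jj c 0 := by
        rw [jj_of_mem c h0, jj, if_neg hs]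
      rw [h1]; exact mem_connectedComponent
  have hmap : ∀ g : Germ → Germ, Continuous g → g (jj c 0) ∈ C → ∀ x ∈ C, g x ∈ C := by
    intro g hg hg0 x hx
    have h1 := hg.image_connectedComponent_subset (jj c 0) ⟨x, hx, rfl⟩
    rw [← connectedComponent_eq hg0] at h1
    exact h1
  have hPhiC : ∀ x ∈ C, Phi f x ∈ C := by
    refine hmap _ (continuous_iff_continuousAt.mpr fun x => (holAt_Phi hf hc x).1) ?_
    have h1 := Phi_jj c hf hc 0
    rw [Complex.ofReal_zero] at h1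
    rw [h1]; exact hjC _
  have htauC : ∀ x ∈ C, tau x ∈ C := by
    refine hmap _ (continuous_iff_continuousAt.mpr fun x => (antiHolAt_tau x).1) ?_
    rw [tau_jj c h0]; exact hjC _
  let _ := rsOfOpen hCo
  refine ⟨C, inferInstance, rsOfOpen hCo, fun p => (pos p.1).1, fun p => (pos p.1).2,
    fun p => ⟨Phi f p.1, hPhiC _ p.2⟩, fun p => ⟨tau p.1, htauC _ p.2⟩, fun s => ⟨jj c s, hjC s⟩,
    inferInstance, isConnected_iff_connectedSpace.mp hCc, ?_, ?_, ?_, ?_, ?_, ?_, ?_, ?_, ?_, ?_,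
    ?_, ?_, ?_, ?_, ?_, ?_⟩
  · intro p
    exact HolAt.comp (g := fun x => (pos x).1) (f := Subtype.val) (holAt_fst _) (holAt_val hCo p)
  · intro p
    exact HolAt.comp (g := fun x => (pos x).2) (f := Subtype.val) (holAt_snd _) (holAt_val hCo p)
  · intro p
    exact holAt_restrict hCo (HolAt.comp (g := Phi f) (f := Subtype.val) (holAt_Phi hf hc _)
      (holAt_val hCo p))
  · intro p
    exact antiHolAt_restrict hCo (AntiHolAt.comp_hol (g := tau) (f := Subtype.val)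
      (antiHolAt_tau _) (holAt_val hCo p))
  · intro s hs
    exact holAt_restrict hCo (holAt_jj c hs)
  · intro s hs
    simp only [pos_jj c hs, phiC]
  · intro s
    exact Subtype.ext (jj_add c s)
  · intro s hs
    exact Subtype.ext (tau_jj c hs)
  · intro x
    exact Subtype.ext (Phi_jj c hf hc x)
  · intro p
    simp only [pos_Phi hf hc]; rfl
  · intro p
    exact Subtype.ext (tau_tau p.1)
  · intro p
    simp only [pos_tau]; rfl
  · intro p
    exact Subtype.ext (Phi_tau hf hc p.1)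
  · intro q
    refine le_trans ?_ (fibre_Phi hf hc hd q.1)
    refine encard_le_encard_of_injOn (f := Subtype.val) ?_ Subtype.val_injective.injOn
    intro p hp
    exact congrArg Subtype.val hp
  · intro p q hpq
    obtain ⟨U, hU, V, hV, h1⟩ := sep (x := p.1) (y := q.1) (fun h => hpq (Subtype.ext h))
    refine ⟨Subtype.val ⁻¹' U, continuous_subtype_val.continuousAt.preimage_mem_nhds hU,
      Subtype.val ⁻¹' V, continuous_subtype_val.continuousAt.preimage_mem_nhds hV, ?_⟩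
    intro x hx y hy h2 h3
    obtain ⟨h4, h5⟩ := h1 x.1 hx y.1 hy (Prod.ext h2 h3)
    exact ⟨Subtype.ext h4, Subtype.ext h5⟩
  · intro p
    obtain ⟨U, hU, h1⟩ := local_inj p.1
    refine ⟨Subtype.val ⁻¹' U, continuous_subtype_val.continuousAt.preimage_mem_nhds hU, ?_⟩
    intro x hx y hy h2 h3
    exact Subtype.ext (h1 x.1 hx y.1 hy (Prod.ext h2 h3))

end Pool.Agent.Lib.MP_1f4a82_an
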