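import Mathlib

/-!
# Existence of a simply connected covering space

A path connected space in which every point has arbitrarily small simply connected open
neighbourhoods has a simply connected covering space.
-/

open Topology unitInterval

namespace Pool.Agent.Lib.MP_1f4a82_an

namespace UCover

/-- Every point has arbitrarily small simply connected open neighbourhoods. -/
class LocSC (S : Type) [TopologicalSpace S] : Prop where
  loc : ∀ p : S, ∀ U ∈ 𝓝 p, ∃ V : Set S, IsOpen V ∧ p ∈ V ∧ V ⊆ U ∧ SimplyConnectedSpace V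

section
variable {S : Type} [TopologicalSpace S]

theorem mk_eq_of_range {V : Set S} (hV : SimplyConnectedSpace V) {x y : S} (p q : Path x y)
    (hp : ∀ t, p t ∈ V) (hq : ∀ t, q t ∈ V) :
    Path.Homotopic.Quotient.mk p = Path.Homotopic.Quotient.mk q := by
  have hx : x ∈ V := by simpa using hp 0
  have hy : y ∈ V := by simpa using hp 1
  let p' : Path (⟨x, hx⟩ : V) ⟨y, hy⟩ :=
    { toFun := fun t => ⟨p t, hp t⟩
      continuous_toFun := by fun_prop
      source' := by simp
      target' := by simp }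
  let q' : Path (⟨x, hx⟩ : V) ⟨y, hy⟩ :=
    { toFun := fun t => ⟨q t, hq t⟩
      continuous_toFun := by fun_prop
      source' := by simp
      target' := by simp }
  have h := (SimplyConnectedSpace.paths_homotopic p' q').map
    ⟨Subtype.val, continuous_subtype_val⟩
  rw [Path.Homotopic.Quotient.eq]
  exact h

theorem exists_path {V : Set S} (hV : SimplyConnectedSpace V) {x y : S} (hx : x ∈ V)
    (hy : y ∈ V) : ∃ p : Path x y, ∀ t, p t ∈ V := by
  have hpc : PathConnectedSpace V := inferInstance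
  obtain ⟨q⟩ := hpc.joined ⟨x, hx⟩ ⟨y, hy⟩
  exact ⟨q.map continuous_subtype_val, fun t => (q t).2⟩

theorem trans_mem {V : Set S} {x y z : S} (p : Path x y) (q : Path y z)
    (hp : ∀ t, p t ∈ V) (hq : ∀ t, q t ∈ V) : ∀ t, (p.trans q) t ∈ V := by
  intro t
  have h : (p.trans q) t ∈ Set.range (p.trans q) := ⟨t, rfl⟩
  rw [Path.trans_range] at h
  rcases h with ⟨s, hs⟩ | ⟨s, hs⟩
  · rw [← hs]; exact hp s
  · rw [← hs]; exact hq s

/-- The total space: points with a homotopy class of paths from the base point. -/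
structure E (p0 : S) : Type where
  pt : S
  cls : Path.Homotopic.Quotient p0 pt

/-- The projection. -/
def proj (p0 : S) : E p0 → S := E.pt

variable {p0 : S}

/-- The sheet through a point over a set. -/
def H (V : Set S) (e : E p0) : Set (E p0) :=
  {e' | ∃ p : Path e.1 e'.1, (∀ t, p t ∈ V) ∧ e'.2 = e.2.trans (Path.Homotopic.Quotient.mk p)}

theorem H_mono {V W : Set S} (h : V ⊆ W) (e : E p0) : H V e ⊆ H W e :=
  fun _ ⟨p, hp, he⟩ => ⟨p, fun t => h (hp t), he⟩

theorem H_trans {V : Set S} {e e' : E p0} (h : e' ∈ H V e) : H V e' ⊆ H V e := by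
  rintro e'' ⟨q, hq, he''⟩
  obtain ⟨p, hp, he'⟩ := h
  refine ⟨p.trans q, trans_mem p q hp hq, ?_⟩
  rw [he'', he', Path.Homotopic.Quotient.mk_trans, Path.Homotopic.Quotient.trans_assoc]

theorem H_fst {V : Set S} {e e' : E p0} (h : e' ∈ H V e) : e'.1 ∈ V := by
  obtain ⟨p, hp, _⟩ := h
  simpa using hp 1

instance [LocSC S] : TopologicalSpace (E p0) where
  IsOpen T := ∀ e ∈ T, ∃ V : Set S, IsOpen V ∧ e.1 ∈ V ∧ SimplyConnectedSpace V ∧ H V e ⊆ T
  isOpen_univ e _ := by
    obtain ⟨V, h1, h2, _, h4⟩ := LocSC.loc e.1 Set.univ Filter.univ_mem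
    exact ⟨V, h1, h2, h4, Set.subset_univ _⟩
  isOpen_inter T T' h h' e he := by
    obtain ⟨V, h1, h2, _, h4⟩ := h e he.1
    obtain ⟨V', h1', h2', _, h4'⟩ := h' e he.2
    obtain ⟨W, k1, k2, k3, k4⟩ := LocSC.loc e.1 (V ∩ V') ((h1.inter h1').mem_nhds ⟨h2, h2'⟩)
    exact ⟨W, k1, k2, k4, Set.subset_inter ((H_mono (k3.trans Set.inter_subset_left) e).trans h4)
      ((H_mono (k3.trans Set.inter_subset_right) e).trans h4')⟩
  isOpen_sUnion F h e := by
    rintro ⟨T, hT, he⟩
    obtain ⟨V, h1, h2, h3, h4⟩ := h T hT e he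
    exact ⟨V, h1, h2, h3, h4.trans (Set.subset_sUnion_of_mem hT)⟩

variable [LocSC S]

theorem isOpen_E_iff {T : Set (E p0)} : IsOpen T ↔
    ∀ e ∈ T, ∃ V : Set S, IsOpen V ∧ e.1 ∈ V ∧ SimplyConnectedSpace V ∧ H V e ⊆ T := Iff.rfl

theorem isOpen_H {V : Set S} (hV : IsOpen V) (hs : SimplyConnectedSpace V) (e : E p0) :
    IsOpen (H V e) := by
  rw [isOpen_E_iff]
  intro e' he'
  exact ⟨V, hV, H_fst he', hs, H_trans he'⟩

theorem continuous_proj : Continuous (proj p0) := by
  rw [continuous_def]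
  intro U hU
  rw [isOpen_E_iff]
  intro e he
  obtain ⟨V, h1, h2, h3, h4⟩ := LocSC.loc e.1 U (hU.mem_nhds he)
  exact ⟨V, h1, h2, h4, fun e' he' => h3 (H_fst he')⟩

/-- The fibre with the discrete topology. -/
def Fib (p0 x : S) : Type := Path.Homotopic.Quotient p0 x

instance (x : S) : TopologicalSpace (Fib p0 x) := ⊥
instance (x : S) : DiscreteTopology (Fib p0 x) := ⟨rfl⟩

omit [LocSC S] in
theorem cancel_left {x y z : S} (c : Path.Homotopic.Quotient x y)
    {d d' : Path.Homotopic.Quotient y z} (h : c.trans d = c.trans d') : d = d' := by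
  have h1 := congrArg (fun q => c.symm.trans q) h
  simpa [← Path.Homotopic.Quotient.trans_assoc] using h1

omit [LocSC S] in
theorem cancel_right {x y z : S} {c c' : Path.Homotopic.Quotient x y}
    (d : Path.Homotopic.Quotient y z) (h : c.trans d = c'.trans d) : c = c' := by
  have h1 := congrArg (fun q => q.trans d.symm) h
  simpa [Path.Homotopic.Quotient.trans_assoc] using h1

omit [LocSC S] in
theorem mem_H_iff {V : Set S} (hs : SimplyConnectedSpace V) {e e' : E p0} {p : Path e.1 e'.1}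
    (hp : ∀ t, p t ∈ V) : e' ∈ H V e ↔ e'.2 = e.2.trans (Path.Homotopic.Quotient.mk p) := by
  constructor
  · rintro ⟨q, hq, h⟩
    rw [h, mk_eq_of_range hs q p hq hp]
  · intro h
    exact ⟨p, hp, h⟩

theorem open_iff_aux {V : Set S} (hV : IsOpen V) (hs : SimplyConnectedSpace V) {x0 : S}
    (hx : x0 ∈ V) (c : Fib p0 x0) {W : Set S} (hW : W ⊆ V) :
    IsOpen W ↔ IsOpen (proj p0 ⁻¹' W ∩ H V (⟨x0, c⟩ : E p0)) := by
  constructor
  · intro h
    exact (h.preimage continuous_proj).inter (isOpen_H hV hs _)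
  · intro h
    rw [isOpen_iff_mem_nhds]
    intro w hw
    obtain ⟨q, hq⟩ := exists_path hs hx (hW hw)
    rw [isOpen_E_iff] at h
    obtain ⟨V', h1, h2, h3, h4⟩ := h (⟨w, Path.Homotopic.Quotient.trans c
      (Path.Homotopic.Quotient.mk q)⟩ : E p0) ⟨hw, ⟨q, hq, rfl⟩⟩
    refine Filter.mem_of_superset (h1.mem_nhds h2) fun y hy => ?_
    obtain ⟨r, hr⟩ := exists_path h3 h2 hy
    exact (h4 (show (⟨y, (Path.Homotopic.Quotient.trans c
      (Path.Homotopic.Quotient.mk q)).trans (Path.Homotopic.Quotient.mk r)⟩ : E p0) ∈ H V' _ from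
        ⟨r, hr, rfl⟩)).1

theorem exists_triv [PathConnectedSpace S] {V : Set S} (hV : IsOpen V)
    (hs : SimplyConnectedSpace V) {x0 : S} (hx : x0 ∈ V) :
    ∃ t : Bundle.Trivialization (Fib p0 x0) (proj p0), x0 ∈ t.baseSet := by
  have hne : ∀ x : S, Nonempty (Path.Homotopic.Quotient p0 x) := fun x =>
    ⟨Path.Homotopic.Quotient.mk (PathConnectedSpace.somePath p0 x)⟩
  have i1 : Nonempty (S → E p0) := ⟨fun x => ⟨x, (hne x).some⟩⟩
  have i2 : Nonempty (Fib p0 x0) := hne x0
  refine ⟨IsOpen.trivializationDiscrete (f := proj p0)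
    (fun c : Fib p0 x0 => H V (⟨x0, c⟩ : E p0)) V hV (fun c {W} hW => open_iff_aux hV hs hx c hW)
    ?_ ?_ ?_ ?_, hx⟩
  · rintro c ⟨x, d⟩ ⟨p, hp, hd⟩ ⟨x', d'⟩ ⟨p', hp', hd'⟩ h
    change x = x' at h
    subst h
    simp only at hd hd'
    rw [hd, hd', mk_eq_of_range hs p p' hp hp']
  · intro c y hy
    obtain ⟨q, hq⟩ := exists_path hs hx hy
    exact ⟨⟨y, Path.Homotopic.Quotient.trans c (Path.Homotopic.Quotient.mk q)⟩, ⟨q, hq, rfl⟩, rfl⟩
  · intro c c' hcc'
    rw [Function.onFun, Set.disjoint_left]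
    rintro ⟨x, d⟩ ⟨p, hp, hd⟩ ⟨p', hp', hd'⟩
    apply hcc'
    simp only at hd hd'
    rw [hd, mk_eq_of_range hs p p' hp hp'] at hd'
    exact cancel_right _ hd'
  · rintro ⟨x, d⟩ he
    change x ∈ V at he
    obtain ⟨q, hq⟩ := exists_path hs hx he
    refine Set.mem_iUnion.2 ⟨Path.Homotopic.Quotient.trans d
      (Path.Homotopic.Quotient.mk q).symm, q, hq, ?_⟩
    simp [Path.Homotopic.Quotient.trans_assoc]

theorem isCoveringMap_proj [PathConnectedSpace S] : IsCoveringMap (proj p0) := by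
  have h : ∀ x : S, ∃ t : Bundle.Trivialization (Fib p0 x) (proj p0), x ∈ t.baseSet := by
    intro x
    obtain ⟨V, h1, h2, _, h4⟩ := LocSC.loc x Set.univ Filter.univ_mem
    exact exists_triv h1 h4 h2
  choose t ht using h
  exact IsCoveringMap.mk (proj p0) (fun x => Fib p0 x) t ht

/-! ### Lifts of paths -/

/-- The lift of a path. -/
noncomputable def lift {x y : S} (γ : Path x y) (c : Path.Homotopic.Quotient p0 x) (t : I) : E p0 :=
  ⟨γ t, (c.cast rfl γ.source).trans (Path.Homotopic.Quotient.mk (γ.subpath 0 t))⟩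

omit [LocSC S] in
theorem cast_aux {x y x' y' : S} (c : Path.Homotopic.Quotient p0 x)
    (g : Path.Homotopic.Quotient x y) (hx : x' = x) (hy : y' = y) :
    (⟨y', (c.cast rfl hx).trans (g.cast hx hy)⟩ : E p0) = ⟨y, c.trans g⟩ := by
  subst hx
  subst hy
  simp

omit [LocSC S] in
theorem lift_zero {x y : S} (γ : Path x y) (c : Path.Homotopic.Quotient p0 x) :
    lift γ c 0 = ⟨x, c⟩ := by
  unfold lift
  rw [Path.subpath_self, Path.Homotopic.Quotient.mk_refl, Path.Homotopic.Quotient.trans_refl]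
  have h := cast_aux c (Path.Homotopic.Quotient.refl x) γ.source γ.source
  rw [Path.Homotopic.Quotient.trans_refl] at h
  rw [← h]
  congr 1
  have : ∀ (x' : S) (hx : x' = x), c.cast rfl hx =
      (c.cast rfl hx).trans ((Path.Homotopic.Quotient.refl x).cast hx hx) := by
    intro x' hx
    subst hx
    simp
  exact this _ _

omit [LocSC S] in
theorem lift_one {x y : S} (γ : Path x y) (c : Path.Homotopic.Quotient p0 x) :
    lift γ c 1 = ⟨y, c.trans (Path.Homotopic.Quotient.mk γ)⟩ := by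
  unfold lift
  rw [Path.subpath_zero_one, Path.Homotopic.Quotient.mk_cast]
  exact cast_aux c (Path.Homotopic.Quotient.mk γ) γ.source γ.target

theorem continuous_lift {x y : S} (γ : Path x y) (c : Path.Homotopic.Quotient p0 x) :
    Continuous (lift γ c) := by
  rw [continuous_def]
  intro T hT
  rw [isOpen_iff_mem_nhds]
  intro t0 ht0
  rw [isOpen_E_iff] at hT
  obtain ⟨V, h1, h2, h3, h4⟩ := hT _ ht0
  have h5 : γ ⁻¹' V ∈ 𝓝 t0 := γ.continuous.continuousAt.preimage_mem_nhds (h1.mem_nhds h2)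
  obtain ⟨ε, hε, h6⟩ := Metric.mem_nhds_iff.1 h5
  refine Metric.mem_nhds_iff.2 ⟨ε, hε, fun t ht => h4 ⟨γ.subpath t0 t, ?_, ?_⟩⟩
  · intro s
    have h7 : γ.subpath t0 t s ∈ Set.range (γ.subpath t0 t) := ⟨s, rfl⟩
    rw [Path.range_subpath] at h7
    obtain ⟨r, hr, h8⟩ := h7
    have h9 : r ∈ γ ⁻¹' V := by
      apply h6
      rw [Metric.mem_ball] at ht ⊢
      refine lt_of_le_of_lt ?_ ht
      rw [Subtype.dist_eq, Subtype.dist_eq, Real.dist_eq, Real.dist_eq]
      rcases Set.mem_uIcc.1 hr with ⟨a, b⟩ | ⟨a, b⟩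
      · have a' : (t0 : ℝ) ≤ r := a
        have b' : (r : ℝ) ≤ t := b
        rw [abs_of_nonneg (by linarith), abs_of_nonneg (by linarith)]
        linarith
      · have a' : (t : ℝ) ≤ r := a
        have b' : (r : ℝ) ≤ t0 := b
        rw [abs_of_nonpos (by linarith), abs_of_nonpos (by linarith)]
        linarith
    have h10 : γ r ∈ V := h9
    exact h8 ▸ h10
  · have h7 : Path.Homotopic.Quotient.mk ((γ.subpath 0 t0).trans (γ.subpath t0 t)) =
        Path.Homotopic.Quotient.mk (γ.subpath 0 t) :=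
      Path.Homotopic.Quotient.eq.2 ⟨Path.Homotopy.subpathTransSubpath γ 0 t0 t⟩
    change (c.cast rfl γ.source).trans (Path.Homotopic.Quotient.mk (γ.subpath 0 t)) =
      ((c.cast rfl γ.source).trans (Path.Homotopic.Quotient.mk (γ.subpath 0 t0))).trans
        (Path.Homotopic.Quotient.mk (γ.subpath t0 t))
    rw [← h7, Path.Homotopic.Quotient.mk_trans, Path.Homotopic.Quotient.trans_assoc]

theorem joined_base (e : E p0) :
    Joined (⟨p0, Path.Homotopic.Quotient.refl p0⟩ : E p0) e := by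
  obtain ⟨x, d⟩ := e
  induction d with
  | mk δ =>
    exact ⟨{ toFun := lift δ (Path.Homotopic.Quotient.refl p0)
             continuous_toFun := continuous_lift _ _
             source' := lift_zero _ _
             target' := by rw [lift_one, Path.Homotopic.Quotient.refl_trans] }⟩

instance : PathConnectedSpace (E p0) where
  nonempty := ⟨⟨p0, Path.Homotopic.Quotient.refl p0⟩⟩
  joined e e' := (joined_base e).symm.trans (joined_base e')

theorem monodromy_eq [PathConnectedSpace S] {x y : S} (g : Path.Homotopic.Quotient x y)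
    (c : Path.Homotopic.Quotient p0 x) :
    ((isCoveringMap_proj (p0 := p0)).monodromy g ⟨(⟨x, c⟩ : E p0), rfl⟩).1 =
      ⟨y, c.trans g⟩ := by
  induction g with
  | mk γ =>
    have h := ((isCoveringMap_proj (p0 := p0)).eq_liftPath_iff (γ := (γ : C(I, S)))
      (e := (⟨x, c⟩ : E p0)) γ.source (Γ := lift γ c)).2
        ⟨continuous_lift γ c, rfl, lift_zero γ c⟩
    have h1 := congrFun h 1
    rw [lift_one] at h1
    exact h1.symm

instance [PathConnectedSpace S] : SimplyConnectedSpace (E p0) := by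
  rw [simply_connected_iff_paths_homotopic]
  refine ⟨inferInstance, fun e e' => ⟨fun g g' => ?_⟩⟩
  apply (isCoveringMap_proj (p0 := p0)).injective_path_homotopic_map e e'
  have key : ∀ g : Path.Homotopic.Quotient e e',
      e'.2 = e.2.trans (g.map ⟨proj p0, isCoveringMap_proj.continuous⟩) := by
    intro g
    have h1 := congrArg Subtype.val ((isCoveringMap_proj (p0 := p0)).monodromy_map g)
    have h2 := monodromy_eq (p0 := p0) (g.map ⟨proj p0, isCoveringMap_proj.continuous⟩) e.2
    have h3 := h1.symm.trans h2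
    obtain ⟨y, d⟩ := e'
    exact eq_of_heq (E.mk.inj h3).2
  exact cancel_left e.2 ((key g).symm.trans (key g'))

end

end UCover

/-- Existence of a simply connected covering space. -/
theorem exists_simplyConnected_cover (S : Type) [TopologicalSpace S] [PathConnectedSpace S]
    (hloc : ∀ p : S, ∀ U ∈ 𝓝 p, ∃ V : Set S, IsOpen V ∧ p ∈ V ∧ V ⊆ U ∧
      SimplyConnectedSpace V) :
    ∃ (X : Type) (_ : TopologicalSpace X) (π : X → S),
      IsCoveringMap π ∧ Function.Surjective π ∧ SimplyConnectedSpace X := by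
  have : UCover.LocSC S := ⟨hloc⟩
  obtain ⟨p0⟩ := (inferInstance : PathConnectedSpace S).nonempty
  refine ⟨UCover.E p0, inferInstance, UCover.proj p0, UCover.isCoveringMap_proj, fun x => ?_,
    inferInstance⟩
  exact ⟨⟨x, Path.Homotopic.Quotient.mk (PathConnectedSpace.somePath p0 x)⟩, rfl⟩

end Pool.Agent.Lib.MP_1f4a82_an
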