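import Pool.Agent.Lib.MP_1f4a82_an.CoverDefs
import Pool.Agent.Lib.MP_1f4a82_an.UnivCover
import Pool.Agent.Lib.MP_1f4a82_an.GermSurface

/-!
The data on the universal cover of the germ surface attached to an invariant curve.
-/

open Topology Filter Set

namespace Pool.Agent.Lib.MP_1f4a82_an

namespace Cover

theorem convex_strip (η : ℝ) : Convex ℝ (strip η) := by
  have h : strip η = Complex.imLm ⁻¹' (Ioo (-η) η) := by
    ext s
    simp [strip, abs_lt]
  rw [h]
  exact (convex_Ioo _ _).linear_preimage _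

theorem strip_real {η : ℝ} (h : 0 < η) (x : ℝ) : (x : ℂ) ∈ strip η := by
  simp [strip, h]

theorem strip_add_int {η : ℝ} {s : ℂ} (hs : s ∈ strip η) (k : ℤ) : s + k ∈ strip η := by
  simpa [strip] using hs

/-- The structure of Riemann surface on a space with a local homeomorphism to a Riemann
surface. -/
theorem exists_RS {X S : Type} [TopologicalSpace X] [TopologicalSpace S] [RS S] {π : X → S}
    (hπ : IsLocalHomeomorph π) : ∃ _ : RS X, (∀ x, HolAt π x) ∧
      (∀ (Y : Type) [TopologicalSpace Y] [RS Y] (u : Y → X) (y : Y), ContinuousAt u y →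
        HolAt (fun z => π (u z)) y → HolAt u y) ∧
      (∀ (Y : Type) [TopologicalSpace Y] [RS Y] (u : Y → X) (y : Y), ContinuousAt u y →
        AntiHolAt (fun z => π (u z)) y → AntiHolAt u y) := by
  let R : RS X :=
    { atlas := {e | ∃ φ : OpenPartialHomeomorph X S, π = φ ∧ ∃ e' ∈ RS.atlas (X := S),
        e = φ.trans e'}
      exists_chart := by
        intro x
        obtain ⟨φ, hx, hφ⟩ := hπ x
        obtain ⟨e', he', hx'⟩ := RS.exists_chart (π x)
        refine ⟨φ.trans e', ⟨φ, hφ, e', he', rfl⟩, ?_⟩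
        rw [OpenPartialHomeomorph.trans_source]
        refine ⟨hx, ?_⟩
        rw [mem_preimage, ← hφ]
        exact hx'
      compat := by
        rintro e ⟨φ, hφ, e₁, he₁, rfl⟩ e' ⟨φ', hφ', e₁', he₁', rfl⟩ z hz hz'
        have key : ∀ w ∈ (φ.trans e₁).target, (φ.trans e₁').toFun ((φ.trans e₁).symm w) =
            e₁' (e₁.symm w) := by
          intro w hw
          rw [OpenPartialHomeomorph.trans_target] at hw
          change e₁' (φ (φ.symm (e₁.symm w))) = _
          rw [φ.right_inv hw.2]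
        have key' : ∀ w ∈ (φ.trans e₁).target, (φ'.trans e₁') ((φ.trans e₁).symm w) =
            e₁' (e₁.symm w) := by
          intro w hw
          rw [← key w hw]
          change e₁' (φ' _) = e₁' (φ _)
          rw [← hφ, ← hφ']
        have h1 : e₁.symm z ∈ e₁'.source := by
          rw [OpenPartialHomeomorph.trans_source] at hz'
          have h2 : φ' ((φ.trans e₁).symm z) ∈ e₁'.source := hz'.2
          rw [← hφ', hφ] at h2
          have h3 : φ (φ.symm (e₁.symm z)) ∈ e₁'.source := h2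
          rwa [φ.right_inv] at h3
          rw [OpenPartialHomeomorph.trans_target] at hz
          exact hz.2
        have h2 := RS.compat e₁ he₁ e₁' he₁' z (by
          rw [OpenPartialHomeomorph.trans_target] at hz; exact hz.1) h1
        refine h2.congr ?_
        filter_upwards [(φ.trans e₁).open_target.mem_nhds hz] with w hw
        exact (key' w hw).symm }
  have hchart : ∀ x : X, ∃ e₁ ∈ RS.atlas (X := S), π x ∈ e₁.source ∧ ∃ e ∈ RS.atlas (X := X),
      x ∈ e.source ∧ ∀ y, e y = e₁ (π y) := by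
    intro x
    obtain ⟨φ, hx, hφ⟩ := hπ x
    obtain ⟨e', he', hx'⟩ := RS.exists_chart (π x)
    refine ⟨e', he', hx', φ.trans e', ⟨φ, hφ, e', he', rfl⟩, ?_, ?_⟩
    · rw [OpenPartialHomeomorph.trans_source]
      refine ⟨hx, ?_⟩
      rw [mem_preimage, ← hφ]
      exact hx'
    · intro y
      change e' (φ y) = _
      rw [← hφ]
  refine ⟨R, ?_, ?_, ?_⟩
  · intro x
    obtain ⟨e₁, he₁, hx₁, e, he, hx, hee⟩ := hchart x
    refine HolAt.of_charts hπ.continuous.continuousAt he he₁ hx hx₁ ?_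
    have h1 := (holAt_id x).2 e he e he hx hx
    simp only [hee] at h1 ⊢
    exact h1
  · intro Y _ _ u y hc hu
    obtain ⟨e₁, he₁, hx₁, e, he, hx, hee⟩ := hchart (u y)
    obtain ⟨c, hc', hy⟩ := RS.exists_chart y
    refine HolAt.of_charts hc hc' he hy hx ?_
    have h1 := hu.2 c hc' e₁ he₁ hy hx₁
    simp only [hee]
    exact h1
  · intro Y _ _ u y hc hu
    obtain ⟨e₁, he₁, hx₁, e, he, hx, hee⟩ := hchart (u y)
    obtain ⟨c, hc', hy⟩ := RS.exists_chart y
    refine AntiHolAt.of_charts hc hc' he hy hx ?_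
    have h1 := hu.2 c hc' e₁ he₁ hy hx₁
    simp only [hee]
    exact h1

theorem t2 {X S : Type} [TopologicalSpace X] [TopologicalSpace S] [T2Space S] {π : X → S}
    (cov : IsCoveringMap π) : T2Space X := by
  refine ⟨fun x y hxy => ?_⟩
  by_cases h : π x = π y
  · exact cov.isSeparatedMap x y h hxy
  · obtain ⟨U, V, hU, hV, hx, hy, hd⟩ := t2_separation h
    exact ⟨π ⁻¹' U, π ⁻¹' V, hU.preimage cov.continuous, hV.preimage cov.continuous, hx, hy,
      hd.preimage π⟩

theorem exists_lift {X S A : Type} [TopologicalSpace X] [TopologicalSpace S]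
    [TopologicalSpace A] [SimplyConnectedSpace A] [LocallyPathConnectedSpace A] {π : X → S}
    (cov : IsCoveringMap π) (g : A → S) (hg : Continuous g) (a : A) (x : X) (h : π x = g a) :
    ∃ T : A → X, Continuous T ∧ T a = x ∧ ∀ y, π (T y) = g y := by
  obtain ⟨F, ⟨h1, h2⟩, -⟩ := cov.existsUnique_continuousMap_lifts ⟨g, hg⟩ a x h
  exact ⟨F, F.continuous, h1, fun y => congrFun h2 y⟩

theorem lift_unique {X S A : Type} [TopologicalSpace X] [TopologicalSpace S]
    [TopologicalSpace A] [PreconnectedSpace A] {π : X → S}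
    (cov : IsCoveringMap π) (T T' : A → X) (hT : Continuous T) (hT' : Continuous T')
    (h : ∀ p, π (T p) = π (T' p)) (p : A) (hp : T p = T' p) : T = T' :=
  cov.eq_of_comp_eq hT hT' (funext h) p hp

/-- Lift of a curve defined on a strip. -/
theorem exists_lift_strip {X S : Type} [TopologicalSpace X] [TopologicalSpace S] {π : X → S}
    (cov : IsCoveringMap π) {η : ℝ} (hη : 0 < η) {j : ℂ → S} (hj : ContinuousOn j (strip η))
    (x : X) (hx : π x = j 0) : ∃ γ : ℂ → X, ContinuousOn γ (strip η) ∧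
      (∀ s ∈ strip η, π (γ s) = j s) ∧ γ 0 = x := by
  classical
  have h0 : (0 : ℂ) ∈ strip η := by simpa using strip_real hη 0
  have : ContractibleSpace (strip η) := (convex_strip η).contractibleSpace ⟨0, h0⟩
  have : LocallyPathConnectedSpace (strip η) := (isOpen_strip η).locallyPathConnectedSpace
  obtain ⟨T, hT, hT0, hTj⟩ := exists_lift cov (fun s : strip η => j s) hj.domRestrict ⟨0, h0⟩ x hx
  refine ⟨fun s => if h : s ∈ strip η then T ⟨s, h⟩ else x, ?_, ?_, ?_⟩
  · rw [continuousOn_iff_continuous_domRestrict]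
    refine hT.congr fun s => ?_
    simp [s.2]
  · intro s hs
    simp only [hs, dif_pos]
    exact hTj ⟨s, hs⟩
  · simp only [h0, dif_pos]
    exact hT0

end Cover

open Cover

theorem exists_cover (f : P → P) (hf : ∀ p, HolAt f p) (d : ℕ)
    (hd : ∀ w, (f ⁻¹' {w}).encard ≤ d) (c : InvCurve f) :
    ∃ (X S : Type) (_ : TopologicalSpace X) (_ : RS X), T2Space X ∧ SimplyConnectedSpace X ∧
      Nonempty (CoverData f c d X S) := by
  obtain ⟨S, tS, rS, hS, kS, ΦS, τS, j, hT2, hconn, hhS, hkS, hΦS, hτS, hj, hhj, hper, hτj, hΦj,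
    hhΦ, hττ, hhτ, hΦτ, hfib, hsep, hloc⟩ := exists_germ_surface f hf d hd c
  have h0 : (0 : ℂ) ∈ strip c.η := by simpa using strip_real c.η_pos 0
  have hpc : PathConnectedSpace S := pathConnectedSpace_iff_connectedSpace.mpr hconn
  obtain ⟨X, tX, π, cov, hsurj, hsc⟩ := exists_simplyConnected_cover S exists_simplyConnected_nhd
  obtain ⟨rX, hπ, hlift, hliftA⟩ := exists_RS cov.isLocalHomeomorph
  have hXT2 : T2Space X := t2 cov
  have hjc : ContinuousOn j (strip c.η) := fun s hs => (hj s hs).1.continuousWithinAt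
  obtain ⟨x0, hx0⟩ := hsurj (j 0)
  obtain ⟨γ, hγc, hγj, hγ0⟩ := exists_lift_strip cov c.η_pos hjc x0 hx0
  have hγca : ∀ s ∈ strip c.η, ContinuousAt γ s := fun s hs =>
    hγc.continuousAt ((isOpen_strip _).mem_nhds hs)
  have hγhol : ∀ s ∈ strip c.η, HolAt γ s := by
    intro s hs
    refine hlift ℂ γ s (hγca s hs) ?_
    refine (hj s hs).congr ?_
    filter_upwards [(isOpen_strip _).mem_nhds hs] with r hr
    rw [hγj r hr]
  have hjper : ∀ (k : ℤ) (s : ℂ), j (s + k) = j s := by
    intro k s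
    have hp : Function.Periodic j 1 := hper
    have h1 := hp.int_mul k
    rw [mul_one] at h1
    exact h1 s
  have hstripc : IsPreconnected (strip c.η) := (convex_strip c.η).isPreconnected
  -- uniqueness on the strip
  have hshiftc : ∀ k : ℤ, ContinuousOn (fun r : ℂ => γ (r + k)) (strip c.η) := by
    intro k
    refine hγc.comp (by fun_prop) fun r hr => strip_add_int hr k
  have hinjj : ∀ s ∈ strip c.η, ∀ s' ∈ strip c.η, j s = j s' → ∃ k : ℤ, s' = s + k := by
    intro s hs s' hs' h
    refine c.inj s hs s' hs' ?_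
    rw [← hhj s hs, ← hhj s' hs', h]
  have hinj : ∀ s ∈ strip c.η, ∀ s' ∈ strip c.η, γ s = γ s' →
      ∃ k : ℤ, s' = s + k ∧ ∀ r ∈ strip c.η, γ (r + k) = γ r := by
    intro s hs s' hs' h
    obtain ⟨k, hk⟩ := hinjj s hs s' hs' (by rw [← hγj s hs, ← hγj s' hs', h])
    refine ⟨k, hk, ?_⟩
    refine cov.eqOn_of_comp_eqOn hstripc (hshiftc k) hγc ?_ hs ?_
    · intro r hr
      simp only [Function.comp]
      rw [hγj _ (strip_add_int hr k), hγj r hr, hjper]
    · rw [← hk, h]
  have hclosed : ∀ δ : ℝ, 0 ≤ δ → δ < c.η → IsClosed (γ '' {s | |s.im| ≤ δ}) := by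
    intro δ hδ0 hδ
    have hZ : {s : ℂ | |s.im| ≤ δ} ⊆ strip c.η := fun s hs => lt_of_le_of_lt hs hδ
    have hcomp : IsCompact (j '' {s : ℂ | |s.im| ≤ δ}) := by
      have h1 : j '' {s : ℂ | |s.im| ≤ δ} = j '' (Icc (0 : ℝ) 1 ×ℂ Icc (-δ) δ) := by
        apply subset_antisymm
        · rintro _ ⟨s, hs, rfl⟩
          refine ⟨s - (⌊s.re⌋ : ℤ), ?_, ?_⟩
          · rw [Complex.mem_reProdIm]
            constructor
            · simp only [Complex.sub_re, Complex.intCast_re]
              exact ⟨by linarith [Int.floor_le s.re], by linarith [Int.lt_floor_add_one s.re]⟩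
            · simp only [Complex.sub_im, Complex.intCast_im, sub_zero]
              exact abs_le.mp hs
          · rw [← hjper ⌊s.re⌋ (s - (⌊s.re⌋ : ℤ)), sub_add_cancel]
        · apply image_mono
          intro s hs
          rw [Complex.mem_reProdIm] at hs
          exact abs_le.mpr hs.2
      rw [h1]
      refine IsCompact.image_of_continuousOn (isCompact_Icc.reProdIm isCompact_Icc) ?_
      refine hjc.mono fun s hs => ?_
      rw [Complex.mem_reProdIm] at hs
      exact lt_of_le_of_lt (abs_le.mpr hs.2) hδ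
    rw [← closure_subset_iff_isClosed]
    intro x hx
    -- the projection of `x` lies on `j '' Z`
    have hx1 : π x ∈ j '' {s : ℂ | |s.im| ≤ δ} := by
      have h1 : π x ∈ closure (π '' (γ '' {s : ℂ | |s.im| ≤ δ})) :=
        image_closure_subset_closure_image cov.continuous ⟨x, hx, rfl⟩
      have h2 : π '' (γ '' {s : ℂ | |s.im| ≤ δ}) = j '' {s : ℂ | |s.im| ≤ δ} := by
        rw [image_image]
        exact image_congr fun s hs => hγj s (hZ hs)
      rwa [h2, hcomp.isClosed.closure_eq] at h1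
    obtain ⟨t0, ht0, ht0x⟩ := hx1
    have ht0s : t0 ∈ strip c.η := hZ ht0
    -- local inverse of `π`
    obtain ⟨φ, hxφ, hφ⟩ := cov.isLocalHomeomorph x
    have ht0φ : j t0 ∈ φ.target := by
      rw [ht0x, hφ]; exact φ.map_source hxφ
    have hW1 : ∀ᶠ s in 𝓝 t0, s ∈ strip c.η ∧ j s ∈ φ.target :=
      ((isOpen_strip _).mem_nhds ht0s |> fun h => h : ∀ᶠ s in 𝓝 t0, s ∈ strip c.η).and
        ((hj t0 ht0s).1.eventually_mem (φ.open_target.mem_nhds ht0φ))
    obtain ⟨r, hr, hball⟩ := Metric.eventually_nhds_iff_ball.mp hW1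
    -- small radius, so that `j` is injective
    have hr' : 0 < min r (1 / 2) := lt_min hr (by norm_num)
    have hsub : ∀ s ∈ Metric.ball t0 (min r (1 / 2)), s ∈ strip c.η ∧ j s ∈ φ.target :=
      fun s hs => hball s (Metric.ball_subset_ball (min_le_left _ _) hs)
    have hinjW : InjOn j (Metric.ball t0 (min r (1 / 2))) := by
      intro s hs s' hs' h
      obtain ⟨k, hk⟩ := hinjj s (hsub s hs).1 s' (hsub s' hs').1 h
      have h1 : dist s s' < 1 := by
        calc dist s s' ≤ dist s t0 + dist s' t0 := dist_triangle_right _ _ _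
          _ < 1 / 2 + 1 / 2 := add_lt_add (lt_of_lt_of_le hs (min_le_right _ _))
              (lt_of_lt_of_le hs' (min_le_right _ _))
          _ = 1 := by norm_num
      have h2 : dist s s' = |(k : ℝ)| := by
        rw [hk, dist_eq_norm]
        have : s - (s + k) = ((-k : ℝ) : ℂ) := by push_cast; ring
        rw [this, Complex.norm_real, norm_neg, Real.norm_eq_abs]
      rw [h2] at h1
      have h3 : |k| < 1 := by exact_mod_cast h1
      have h4 : k = 0 := Int.abs_lt_one_iff.mp h3
      rw [hk, h4]; simp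
    -- the local lift
    have hσc : ContinuousOn (fun s => φ.symm (j s)) (Metric.ball t0 (min r (1 / 2))) :=
      φ.symm.continuousOn.comp (hjc.mono fun s hs => (hsub s hs).1) fun s hs => (hsub s hs).2
    have hσπ : ∀ s ∈ Metric.ball t0 (min r (1 / 2)), π (φ.symm (j s)) = j s := by
      intro s hs
      rw [hφ]; exact φ.right_inv (hsub s hs).2
    have hσt0 : φ.symm (j t0) = x := by
      rw [ht0x, hφ]; exact φ.left_inv hxφ
    have ht0b : t0 ∈ Metric.ball t0 (min r (1 / 2)) := Metric.mem_ball_self hr'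
    have hσhol : HolAt (fun s => φ.symm (j s)) t0 := by
      refine hlift ℂ _ t0 (hσc.continuousAt (Metric.isOpen_ball.mem_nhds ht0b)) ?_
      refine (hj t0 ht0s).congr ?_
      filter_upwards [Metric.isOpen_ball.mem_nhds ht0b] with s hs
      exact (hσπ s hs).symm
    have hσinj : InjOn (fun s => φ.symm (j s)) (Metric.ball t0 (min r (1 / 2))) := by
      intro s hs s' hs' h
      refine hinjW hs hs' ?_
      rw [← hσπ s hs, ← hσπ s' hs']
      exact congrArg π h
    have hmap := hσhol.map_nhds_of_injOn (Metric.isOpen_ball.mem_nhds ht0b) hσinj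
    have hnhd : (fun s => φ.symm (j s)) '' Metric.ball t0 (min r (1 / 2)) ∈ 𝓝 x := by
      have h1 : (fun s => φ.symm (j s)) '' Metric.ball t0 (min r (1 / 2)) ∈
          map (fun s => φ.symm (j s)) (𝓝 t0) :=
        image_mem_map (Metric.isOpen_ball.mem_nhds ht0b)
      rw [hmap] at h1
      simp only [hσt0] at h1
      exact h1
    obtain ⟨_, ⟨w, hw, rfl⟩, ⟨t1, ht1, ht1w⟩⟩ := mem_closure_iff_nhds.mp hx _ hnhd
    have ht1s : t1 ∈ strip c.η := hZ ht1
    obtain ⟨k, hk⟩ := hinjj w (hsub w hw).1 t1 ht1s (by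
      rw [← hγj t1 ht1s, ht1w]
      exact (hσπ w hw).symm)
    have heq : EqOn (fun s => φ.symm (j s)) (fun r : ℂ => γ (r + k))
        (Metric.ball t0 (min r (1 / 2))) := by
      refine cov.eqOn_of_comp_eqOn (convex_ball _ _).isPreconnected hσc
        ((hshiftc k).mono fun s hs => (hsub s hs).1) ?_ hw ?_
      · intro s hs
        simp only [Function.comp]
        rw [hσπ s hs, hγj _ (strip_add_int (hsub s hs).1 k), hjper]
      · rw [← hk]
        exact ht1w.symm
    refine ⟨t0 + k, ?_, ?_⟩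
    · simpa using ht0
    · have h1 := heq ht0b
      simp only [hσt0] at h1
      exact h1.symm
  -- the line
  let L : Line X :=
    { γ := γ
      η := c.η
      η_pos := c.η_pos
      hol := hγhol
      inj := hinj
      closed := by
        have h1 := hclosed 0 le_rfl c.η_pos
        have h2 : (range fun x : ℝ => γ (x : ℂ)) = γ '' {s : ℂ | |s.im| ≤ 0} := by
          ext x
          constructor
          · rintro ⟨y, rfl⟩
            exact ⟨y, by simp, rfl⟩
          · rintro ⟨s, hs, rfl⟩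
            refine ⟨s.re, ?_⟩
            have h3 : s.im = 0 := by simpa using hs
            have h4 : ((s.re : ℝ) : ℂ) = s := by
              apply Complex.ext <;> simp [h3]
            simp only [h4]
        rw [h2]; exact h1 }
  -- lifts of the maps
  have hΦSc : Continuous fun x => ΦS (π x) :=
    continuous_iff_continuousAt.mpr fun x => ((hΦS (π x)).comp (hπ x)).1
  have hτSc : Continuous fun x => τS (π x) :=
    continuous_iff_continuousAt.mpr fun x => ((hτS (π x)).comp_hol (hπ x)).1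
  have hF0 : ((c.F 0 : ℝ) : ℂ) ∈ strip c.η := strip_real c.η_pos _
  obtain ⟨Φ, hΦc, hΦ0, hΦπ⟩ := exists_lift cov (fun x => ΦS (π x)) hΦSc (γ 0) (γ (c.F 0)) (by
    rw [hγj _ hF0, hγj _ h0]
    have h1 := hΦj 0
    rw [Complex.ofReal_zero] at h1
    exact h1.symm)
  obtain ⟨τ, hτc, hτ0, hτπ⟩ := exists_lift cov (fun x => τS (π x)) hτSc (γ 0) (γ 0) (by
    rw [hγj _ h0, hτj 0 h0, map_zero])
  have hΦhol : ∀ p, HolAt Φ p := by
    intro p
    refine hlift X Φ p hΦc.continuousAt ?_
    refine ((hΦS (π p)).comp (hπ p)).congr (Eventually.of_forall fun q => ?_)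
    exact (hΦπ q).symm
  have hτhol : ∀ p, AntiHolAt τ p := by
    intro p
    refine hliftA X τ p hτc.continuousAt ?_
    refine ((hτS (π p)).comp_hol (hπ p)).congr (Eventually.of_forall fun q => ?_)
    exact (hτπ q).symm
  have hτγ : ∀ s ∈ strip c.η, τ (γ s) = γ ((starRingEnd ℂ) s) := by
    have h1 : EqOn (fun s => τ (γ s)) (fun s => γ ((starRingEnd ℂ) s)) (strip c.η) := by
      refine cov.eqOn_of_comp_eqOn hstripc (hτc.comp_continuousOn hγc)
        (hγc.comp Complex.continuous_conj.continuousOn fun s hs => conj_mem_strip hs) ?_ h0 ?_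
      · intro s hs
        simp only [Function.comp]
        rw [hτπ, hγj s hs, hτj s hs, hγj _ (conj_mem_strip hs)]
      · simp only [map_zero]; exact hτ0
    exact h1
  have hγcr : Continuous fun x : ℝ => γ (x : ℂ) := by
    rw [continuous_iff_continuousAt]
    intro x
    exact (hγca _ (strip_real c.η_pos x)).comp' Complex.continuous_ofReal.continuousAt
  have hΦγ : ∀ x : ℝ, Φ (γ x) = γ (c.F x) := by
    have h1 := lift_unique cov (fun x : ℝ => Φ (γ x)) (fun x : ℝ => γ (c.F x))
      (hΦc.comp hγcr) (hγcr.comp c.F_cont) (fun x => by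
        rw [hΦπ, hγj _ (strip_real c.η_pos x), hΦj, hγj _ (strip_real c.η_pos _)]) 0
        (by simp only [Complex.ofReal_zero]; exact hΦ0)
    exact fun x => congrFun h1 x
  have hττ' : ∀ p, τ (τ p) = p := by
    have h1 := lift_unique cov (fun p => τ (τ p)) (fun p => p) (hτc.comp hτc) continuous_id
      (fun p => by rw [hτπ, hτπ, hττ]) (γ 0) (by simp only [hτ0])
    exact fun x => congrFun h1 x
  have hΦτ' : ∀ p, Φ (τ p) = τ (Φ p) := by
    have h1 := lift_unique cov (fun p => Φ (τ p)) (fun p => τ (Φ p)) (hΦc.comp hτc)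
      (hτc.comp hΦc) (fun p => by rw [hΦπ, hτπ, hτπ, hΦπ, hΦτ]) (γ 0) (by
        rw [hτ0, hΦ0, hτγ _ hF0, Complex.conj_ofReal])
    exact fun x => congrFun h1 x
  have hhτ' : ∀ p, hS (π (τ p)) = cjP (kS (π p)) := fun p => by rw [hτπ, hhτ]
  have hcj : ∀ p q, hS (π (τ p)) = hS (π (τ q)) → kS (π p) = kS (π q) := by
    intro p q h
    rw [hhτ', hhτ'] at h
    rw [← cjP_cjP (kS (π p)), h, cjP_cjP]
  -- lifts of the projection
  have hlifts : ∀ x y, π x = π y → ∃ T : X → X, Continuous T ∧ (∀ p, HolAt T p) ∧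
      (∀ p, π (T p) = π p) ∧ T x = y := by
    intro x y hxy
    obtain ⟨T, hTc, hT0, hTπ⟩ := exists_lift cov π cov.continuous x y hxy.symm
    refine ⟨T, hTc, fun p => hlift X T p hTc.continuousAt ?_, hTπ, hT0⟩
    refine (hπ p).congr (Eventually.of_forall fun q => ?_)
    exact (hTπ q).symm
  have huniq : ∀ T T' : X → X, Continuous T → Continuous T' → (∀ p, π (T p) = π (T' p)) →
    ∀ p, T p = T' p → T = T' := fun T T' h1 h2 h3 p h4 => lift_unique cov T T' h1 h2 h3 p h4
  have hγk : ∀ k : ℤ, π (γ 0) = π (γ k) := by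
    intro k
    have h1 : (k : ℂ) ∈ strip c.η := by
      have := strip_add_int h0 k
      rwa [zero_add] at this
    rw [hγj _ h0, hγj _ h1]
    have h2 := hjper k 0
    rw [zero_add] at h2
    exact h2.symm
  refine ⟨X, S, tX, rX, hXT2, hsc, ⟨{
    π := π
    h := fun x => hS (π x)
    Φ := Φ
    τ := τ
    L := L
    h_hol := fun p => (hhS (π p)).comp (hπ p)
    Φ_hol := hΦhol
    τ_anti := hτhol
    L_η := rfl
    h_γ := ?_
    τ_γ := hτγ
    Φ_γ := hΦγ
    h_Φ := ?_
    τ_τ := hττ'
    Φ_τ := hΦτ'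
    h_π := ?_
    Φ_π := ?_
    τ_π := ?_
    trans := ?_
    deck := ?_
    lift_unique := huniq
    fibre := ?_
    sep := ?_
    loc_inj := ?_
    closed := hclosed }⟩⟩
  · intro s hs
    change hS (π (γ s)) = _
    rw [hγj s hs, hhj s hs]
  · intro p
    rw [hΦπ, hhΦ]
  · intro p q h
    simp only [h]
  · intro p q h
    rw [hΦπ, hΦπ, h]
  · intro p q h
    rw [hτπ, hτπ, h]
  · intro k
    obtain ⟨T, hTc, hThol, hTπ, hT0⟩ := hlifts (γ 0) (γ k) (hγk k)
    refine ⟨T, hThol, hTπ, ?_⟩
    have h1 : EqOn (fun s => T (γ s)) (fun s => γ (s + k)) (strip c.η) := by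
      refine cov.eqOn_of_comp_eqOn hstripc (hTc.comp_continuousOn hγc) (hshiftc k) ?_ h0 ?_
      · intro s hs
        simp only [Function.comp]
        rw [hTπ, hγj s hs, hγj _ (strip_add_int hs k), hjper]
      · simp only [zero_add]; exact hT0
    exact h1
  · intro x y hxy
    obtain ⟨T, hTc, hThol, hTπ, hT0⟩ := hlifts x y hxy
    obtain ⟨T', hTc', -, hTπ', hT0'⟩ := hlifts y x hxy.symm
    have h1 := huniq (fun p => T' (T p)) (fun p => p) (hTc'.comp hTc) continuous_id
      (fun p => by rw [hTπ', hTπ]) x (by simp only [hT0, hT0'])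
    have h2 := huniq (fun p => T (T' p)) (fun p => p) (hTc.comp hTc') continuous_id
      (fun p => by rw [hTπ, hTπ']) y (by simp only [hT0, hT0'])
    refine ⟨T, hThol, Function.bijective_iff_has_inverse.mpr ⟨T', fun p => congrFun h1 p,
      fun p => congrFun h2 p⟩, hTπ, hT0⟩
  · intro q
    refine le_trans (encard_le_encard ?_) (hfib (π q))
    rintro _ ⟨p, hp, rfl⟩
    have h1 : π (Φ p) = π q := hp
    rw [hΦπ] at h1
    exact h1
  · intro p q hpq
    obtain ⟨U, hU, V, hV, hUV⟩ := hsep (π p) (π q) hpq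
    obtain ⟨φ, hpφ, hφ⟩ := cov.isLocalHomeomorph p
    obtain ⟨ψ, hqψ, hψ⟩ := cov.isLocalHomeomorph q
    refine ⟨π ⁻¹' U ∩ φ.source, inter_mem (cov.continuous.continuousAt hU)
      (φ.open_source.mem_nhds hpφ), π ⁻¹' V ∩ ψ.source, inter_mem (cov.continuous.continuousAt hV)
      (ψ.open_source.mem_nhds hqψ), ?_⟩
    intro x hx y hy h1 h2
    obtain ⟨h3, h4⟩ := hUV (π x) hx.1 (π y) hy.1 h1 (hcj x y h2)
    refine ⟨φ.injOn hx.2 hpφ ?_, ψ.injOn hy.2 hqψ ?_⟩
    · rw [← hφ]; exact h3
    · rw [← hψ]; exact h4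
  · intro p
    obtain ⟨U, hU, hUU⟩ := hloc (π p)
    obtain ⟨φ, hpφ, hφ⟩ := cov.isLocalHomeomorph p
    refine ⟨π ⁻¹' U ∩ φ.source, inter_mem (cov.continuous.continuousAt hU)
      (φ.open_source.mem_nhds hpφ), ?_⟩
    intro x hx y hy h1 h2
    refine φ.injOn hx.2 hy.2 ?_
    rw [← hφ]
    exact hUU (π x) hx.1 (π y) hy.1 h1 (hcj x y h2)

end Pool.Agent.Lib.MP_1f4a82_an
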