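import Pool.Agent.Lib.MP_1f4a82_an.LineLemmas

/-!
Definitions used in the type analysis: the data on the universal cover of the germ surface, the
rational data of the sphere case, the half property, lines attached to invariant curves.
-/

open Topology Filter Set

namespace Pool.Agent.Lib.MP_1f4a82_an

/-- The line attached to an invariant curve. -/
noncomputable def InvCurve.toLine {f : P → P} (c : InvCurve f) : Line P where
  γ := c.γ
  η := c.η
  η_pos := c.η_pos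
  hol := c.hol
  inj := by
    intro s hs s' hs' h
    obtain ⟨k, hk⟩ := c.inj s hs s' hs' h
    refine ⟨k, hk, fun r _ => ?_⟩
    have hp : Function.Periodic c.γ 1 := c.per
    have h1 := hp.int_mul k
    rw [mul_one] at h1
    exact h1 r
  closed := by
    have h1 : (range fun x : ℝ => c.γ (x : ℂ)) = (fun x : ℝ => c.γ (x : ℂ)) '' Icc 0 1 := by
      apply subset_antisymm
      · rintro _ ⟨x, rfl⟩
        refine ⟨Int.fract x, ⟨Int.fract_nonneg x, (Int.fract_lt_one x).le⟩, ?_⟩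
        have hp : Function.Periodic c.γ 1 := c.per
        have h1 := hp.int_mul ⌊x⌋ ((Int.fract x : ℝ) : ℂ)
        rw [mul_one] at h1
        beta_reduce
        rw [← h1]
        congr 1
        have h2 := Int.fract_add_floor x
        have h3 : (x : ℂ) = ((Int.fract x + (⌊x⌋ : ℝ) : ℝ) : ℂ) := by rw [h2]
        rw [h3]; push_cast; ring
      · rintro _ ⟨x, -, rfl⟩
        exact ⟨x, rfl⟩
    rw [h1]
    apply IsCompact.isClosed
    apply isCompact_Icc.image
    rw [continuous_iff_continuousAt]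
    intro x
    have h2 : HolAt c.γ (x : ℂ) := c.hol _ (by simp [strip, c.η_pos])
    exact ContinuousAt.comp' (g := c.γ) h2.continuousAt Complex.continuous_ofReal.continuousAt

theorem InvCurve.per_int {f : P → P} (c : InvCurve f) (k : ℤ) (s : ℂ) :
    c.γ (s + k) = c.γ s := by
  have hp : Function.Periodic c.γ 1 := c.per
  have h1 := hp.int_mul k
  rw [mul_one] at h1
  exact h1 s

theorem InvCurve.F_per_int {f : P → P} (c : InvCurve f) (k : ℤ) (x : ℝ) :
    c.F (x + k) = c.F x + k := by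
  induction k using Int.induction_on with
  | zero => simp
  | succ i ih => push_cast at ih ⊢; rw [← add_assoc, c.F_per, ih]; ring
  | pred i ih =>
    have := c.F_per (x + ((-(i : ℤ) - 1 : ℤ) : ℝ))
    have h2 : x + ((-(i : ℤ) - 1 : ℤ) : ℝ) + 1 = x + ((-(i : ℤ) : ℤ) : ℝ) := by push_cast; ring
    rw [h2, ih] at this
    push_cast at this ⊢
    linarith

/-- The structure found on the universal cover `X` of the germ surface `S` attached to an
invariant curve `c` of `f`; `π` is the covering map (no topology on `S` is needed). -/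
structure CoverData (f : P → P) (c : InvCurve f) (d : ℕ) (X S : Type) [TopologicalSpace X]
    [RS X] where
  π : X → S
  h : X → P
  Φ : X → X
  τ : X → X
  L : Line X
  h_hol : ∀ p, HolAt h p
  Φ_hol : ∀ p, HolAt Φ p
  τ_anti : ∀ p, AntiHolAt τ p
  L_η : L.η = c.η
  h_γ : ∀ s ∈ strip c.η, h (L.γ s) = c.γ s
  τ_γ : ∀ s ∈ strip c.η, τ (L.γ s) = L.γ ((starRingEnd ℂ) s)
  Φ_γ : ∀ x : ℝ, Φ (L.γ x) = L.γ (c.F x)
  h_Φ : ∀ p, h (Φ p) = f (h p)
  τ_τ : ∀ p, τ (τ p) = p
  Φ_τ : ∀ p, Φ (τ p) = τ (Φ p)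
  h_π : ∀ p q, π p = π q → h p = h q
  Φ_π : ∀ p q, π p = π q → π (Φ p) = π (Φ q)
  τ_π : ∀ p q, π p = π q → π (τ p) = π (τ q)
  /-- the translations along the line -/
  trans : ∀ k : ℤ, ∃ T : X → X, (∀ p, HolAt T p) ∧ (∀ p, π (T p) = π p) ∧
    ∀ s ∈ strip c.η, T (L.γ s) = L.γ (s + k)
  /-- deck transformations act transitively on fibres -/
  deck : ∀ x y, π x = π y → ∃ T : X → X, (∀ p, HolAt T p) ∧ Function.Bijective T ∧
    (∀ p, π (T p) = π p) ∧ T x = y
  /-- uniqueness of lifts -/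
  lift_unique : ∀ T T' : X → X, Continuous T → Continuous T' → (∀ p, π (T p) = π (T' p)) →
    ∀ p, T p = T' p → T = T'
  fibre : ∀ q, (π '' {p | π (Φ p) = π q}).encard ≤ d * d
  sep : ∀ p q, π p ≠ π q → ∃ U ∈ 𝓝 p, ∃ V ∈ 𝓝 q, ∀ x ∈ U, ∀ y ∈ V, h x = h y →
    h (τ x) = h (τ y) → x = p ∧ y = q
  loc_inj : ∀ p, ∃ U ∈ 𝓝 p, ∀ x ∈ U, ∀ y ∈ U, h x = h y → h (τ x) = h (τ y) → x = y
  closed : ∀ δ : ℝ, 0 ≤ δ → δ < c.η → IsClosed (L.γ '' {s | |s.im| ≤ δ})

/-- The rational data: `f` restricted to the curve `c` is, near the curve, the image under the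
rational map `h` of a real rational map `g` restricted to the real circle. -/
structure RatData (f : P → P) (c : InvCurve f) where
  h : P → P
  g : P → P
  cT : InvCurve g
  h_hol : ∀ p, HolAt h p
  g_hol : ∀ p, HolAt g p
  η_eq : cT.η = c.η
  F_eq : cT.F = c.F
  h_γ : ∀ s ∈ strip c.η, h (cT.γ s) = c.γ s
  sym : ∀ s ∈ strip c.η, cT.γ ((starRingEnd ℂ) s) = cjP (cT.γ s)
  up : ∀ s ∈ strip c.η, 0 < s.im → ∃ w : ℂ, 0 < w.im ∧ cT.γ s = (w : P)
  real : (range fun x : ℝ => cT.γ x) = {p | cjP p = p}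
  semi : ∀ p, f (h p) = h (g p)
  g_real : ∀ p, g (cjP p) = cjP (g p)
  gen : ∃ E : Set P, E.Finite ∧ ∀ z ∉ E, ∀ z' ∉ E, h z = h z' → h (cjP z) = h (cjP z') → z = z'

/-- Every generic point has `(δ+1)/2` preimages on its own side and `(δ-1)/2` on the other side,
`δ` being the degree of `f`. -/
def Half (f : P → P) (A B : Set P) : Prop :=
  ∃ (V : Set P) (δ : ℕ), V.Finite ∧ (∀ w ∉ V, (f ⁻¹' {w}).Finite ∧ (f ⁻¹' {w}).ncard = δ) ∧
    ∀ w ∉ V,
      (w ∈ A → 2 * (f ⁻¹' {w} ∩ A).ncard = δ + 1 ∧ 2 * (f ⁻¹' {w} ∩ B).ncard + 1 = δ) ∧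
      (w ∈ B → 2 * (f ⁻¹' {w} ∩ B).ncard = δ + 1 ∧ 2 * (f ⁻¹' {w} ∩ A).ncard + 1 = δ)

end Pool.Agent.Lib.MP_1f4a82_an
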