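import Mathlib

/-!
Riemann surfaces in a light-weight form, used for the problem on invariant analytic curves
carrying an irrational rotation.
-/

open Topology Filter Set

namespace Pool.Agent.Lib.MP_1f4a82_an

/-- A Riemann surface: a topological space with an atlas of complex charts whose transition maps
are holomorphic. No Hausdorff, connectedness or countability assumption. -/
class RS (X : Type) [TopologicalSpace X] where
  atlas : Set (OpenPartialHomeomorph X ℂ)
  exists_chart : ∀ p : X, ∃ e ∈ atlas, p ∈ e.source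
  compat : ∀ e ∈ atlas, ∀ e' ∈ atlas, ∀ z ∈ e.target, e.symm z ∈ e'.source →
    AnalyticAt ℂ (fun w => e' (e.symm w)) z

section Hol

variable {X Y Z : Type} [TopologicalSpace X] [TopologicalSpace Y] [TopologicalSpace Z]
  [RS X] [RS Y] [RS Z]

/-- `f` is holomorphic at `p` (hence near `p`). -/
def HolAt (f : X → Y) (p : X) : Prop :=
  ContinuousAt f p ∧ ∀ e ∈ RS.atlas (X := X), ∀ e' ∈ RS.atlas (X := Y), p ∈ e.source →
    f p ∈ e'.source → AnalyticAt ℂ (fun z => e' (f (e.symm z))) (e p)

/-- `f` is antiholomorphic at `p` (hence near `p`). -/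
def AntiHolAt (f : X → Y) (p : X) : Prop :=
  ContinuousAt f p ∧ ∀ e ∈ RS.atlas (X := X), ∀ e' ∈ RS.atlas (X := Y), p ∈ e.source →
    f p ∈ e'.source → AnalyticAt ℂ (fun z => (starRingEnd ℂ) (e' (f (e.symm z)))) (e p)

end Hol

/-- The complex plane is a Riemann surface. -/
instance instRSComplex : RS ℂ where
  atlas := {OpenPartialHomeomorph.refl ℂ}
  exists_chart := fun p => ⟨_, rfl, by simp⟩
  compat := by
    rintro e rfl e' rfl z _ _
    exact analyticAt_id

/-- `u` is harmonic at `p` (hence near `p`): it is near `p` the real part of a holomorphic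
function. -/
def HarmAt {X : Type} [TopologicalSpace X] [RS X] (u : X → ℝ) (p : X) : Prop :=
  ∃ F : X → ℂ, HolAt F p ∧ ∀ᶠ x in 𝓝 p, u x = (F x).re

/-- The Riemann sphere. -/
abbrev P : Type := OnePoint ℂ

/-- The inversion `z ↦ 1/z` of the Riemann sphere. -/
noncomputable def invP : P → P := fun x =>
  OnePoint.elim x ((0 : ℂ) : P) (fun z => if z = 0 then OnePoint.infty else ((z⁻¹ : ℂ) : P))

/-- The value of a point of the sphere, with `∞ ↦ 0`. -/
noncomputable def valP : P → ℂ := fun x => OnePoint.elim x (0 : ℂ) id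

/-- Complex conjugation on the Riemann sphere. -/
noncomputable def cjP : P → P := OnePoint.map (starRingEnd ℂ)

@[simp] theorem valP_coe (z : ℂ) : valP (z : P) = z := rfl
@[simp] theorem valP_infty : valP OnePoint.infty = 0 := rfl
@[simp] theorem cjP_coe (z : ℂ) : cjP (z : P) = ((starRingEnd ℂ z : ℂ) : P) := rfl
@[simp] theorem cjP_infty : cjP OnePoint.infty = OnePoint.infty := rfl
@[simp] theorem cjP_cjP (x : P) : cjP (cjP x) = x := by
  induction x using OnePoint.rec with
  | infty => rfl
  | coe z => simp
@[simp] theorem invP_infty : invP OnePoint.infty = ((0 : ℂ) : P) := rfl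
@[simp] theorem invP_zero : invP ((0 : ℂ) : P) = OnePoint.infty := by
  simp [invP]
theorem invP_coe {z : ℂ} (hz : z ≠ 0) : invP (z : P) = ((z⁻¹ : ℂ) : P) := by
  simp [invP, hz]
@[simp] theorem invP_invP (x : P) : invP (invP x) = x := by
  induction x using OnePoint.rec with
  | infty => simp
  | coe z =>
    by_cases hz : z = 0
    · subst hz; simp
    · rw [invP_coe hz, invP_coe (inv_ne_zero hz), inv_inv]

theorem continuous_invP : Continuous invP := by
  rw [OnePoint.continuous_iff]
  constructor
  · have h : (fun x : ℂ => invP (x : P)) =ᶠ[coclosedCompact ℂ] fun x : ℂ => ((x⁻¹ : ℂ) : P) := by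
      rw [coclosedCompact_eq_cocompact]
      have : ∀ᶠ x : ℂ in cocompact ℂ, x ≠ 0 := by
        have := (isCompact_singleton (x := (0 : ℂ))).compl_mem_cocompact
        filter_upwards [this] with x hx using hx
      filter_upwards [this] with x hx using invP_coe hx
    rw [tendsto_congr' h, invP_infty, coclosedCompact_eq_cocompact]
    have h1 : Tendsto (fun x : ℂ => x⁻¹) (cocompact ℂ) (𝓝 0) := by
      rw [← Metric.cobounded_eq_cocompact]
      exact tendsto_inv₀_cobounded
    exact (OnePoint.continuous_coe.tendsto 0).comp h1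
  · rw [continuous_iff_continuousAt]
    intro z
    by_cases hz : z = 0
    · subst hz
      rw [ContinuousAt, invP_zero, OnePoint.nhds_infty_eq]
      have h0 : 𝓝 (0 : ℂ) = 𝓝[≠] 0 ⊔ pure 0 := by
        rw [sup_comm]; exact (pure_sup_nhdsNE 0).symm
      rw [h0]
      refine Tendsto.sup_sup ?_ ?_
      · have h : (fun x : ℂ => invP (x : P)) =ᶠ[𝓝[≠] 0] fun x : ℂ => ((x⁻¹ : ℂ) : P) := by
          filter_upwards [self_mem_nhdsWithin] with x hx using invP_coe hx
        rw [tendsto_congr' h, coclosedCompact_eq_cocompact, ← Metric.cobounded_eq_cocompact]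
        exact tendsto_map.comp (tendsto_inv₀_nhdsNE_zero (α := ℂ))
      · simp
    · have h : (fun x : ℂ => invP (x : P)) =ᶠ[𝓝 z] fun x : ℂ => ((x⁻¹ : ℂ) : P) := by
        filter_upwards [isOpen_ne.mem_nhds hz] with x hx using invP_coe hx
      rw [continuousAt_congr h]
      exact OnePoint.continuous_coe.continuousAt.comp (continuousAt_inv₀ hz)


/-- The inversion as a homeomorphism. -/
noncomputable def invHomeo : P ≃ₜ P where
  toFun := invP
  invFun := invP
  left_inv := invP_invP
  right_inv := invP_invP
  continuous_toFun := continuous_invP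
  continuous_invFun := continuous_invP

/-- The affine chart of the sphere on `ℂ`. -/
noncomputable def chart0 : OpenPartialHomeomorph P ℂ :=
  (OnePoint.isOpenEmbedding_coe (X := ℂ)).toOpenPartialHomeomorph.symm

/-- The chart `1/z` of the sphere near `∞`. -/
noncomputable def chart1 : OpenPartialHomeomorph P ℂ :=
  invHomeo.toOpenPartialHomeomorph.trans chart0

theorem chart0_source : chart0.source = {OnePoint.infty}ᶜ := by
  simp [chart0, OnePoint.compl_infty]

theorem chart0_target : chart0.target = univ := by
  simp [chart0]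

theorem chart0_symm (z : ℂ) : chart0.symm z = (z : P) := rfl

theorem chart0_coe (z : ℂ) : chart0 (z : P) = z :=
  chart0.right_inv (x := z) (by rw [chart0_target]; trivial)

theorem chart1_source : chart1.source = {((0 : ℂ) : P)}ᶜ := by
  ext x
  simp only [chart1, OpenPartialHomeomorph.trans_source, chart0_source, mem_inter_iff, mem_preimage,
    mem_compl_iff, mem_singleton_iff]
  constructor
  · rintro ⟨-, h⟩ rfl
    exact h invP_zero
  · intro h
    refine ⟨trivial, fun h' => h ?_⟩
    have h2 : invP x = OnePoint.infty := h'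
    rw [← invP_invP x, h2, invP_infty]

theorem chart1_target : chart1.target = univ := by
  ext x
  simp [chart1, chart0_target]

theorem chart1_symm (z : ℂ) : chart1.symm z = invP (z : P) := rfl

theorem chart1_apply (x : P) : chart1 x = chart0 (invP x) := rfl

/-- The Riemann sphere is a Riemann surface. -/
noncomputable instance instRSP : RS P where
  atlas := {chart0, chart1}
  exists_chart := fun p => by
    by_cases h : p = OnePoint.infty
    · exact ⟨chart1, by simp, by rw [chart1_source, h]; simp⟩
    · exact ⟨chart0, by simp, by rw [chart0_source]; exact h⟩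
  compat := by
    have key : ∀ z : ℂ, z ≠ 0 → AnalyticAt ℂ (fun w : ℂ => chart0 (invP (w : P))) z := by
      intro z hz
      have h : (fun w : ℂ => w⁻¹) =ᶠ[𝓝 z] (fun w : ℂ => chart0 (invP (w : P))) := by
        filter_upwards [isOpen_ne.mem_nhds hz] with w hw
        rw [invP_coe hw, chart0_coe]
      exact (analyticAt_inv hz).congr h
    rintro e (rfl | rfl) e' (rfl | rfl) z hz hz'
    · have h : (fun w : ℂ => w) = (fun w => chart0 (chart0.symm w)) := by
        funext w; rw [chart0_symm, chart0_coe]
      rw [← h]; exact analyticAt_id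
    · refine key z ?_
      rintro rfl
      rw [chart1_source] at hz'
      exact hz' rfl
    · refine key z ?_
      rintro rfl
      rw [chart0_source, chart1_symm] at hz'
      exact hz' invP_zero
    · have h : (fun w : ℂ => w) = (fun w => chart1 (chart1.symm w)) := by
        funext w; rw [chart1_symm, chart1_apply, invP_invP, chart0_coe]
      rw [← h]; exact analyticAt_id

/-- The map of the sphere given by the pair of polynomials `(A, B)`, `z ↦ A z / B z`. -/
noncomputable def ratMap (A B : Polynomial ℂ) : P → P := fun x =>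
  OnePoint.elim x
    (if B.natDegree < A.natDegree then OnePoint.infty
      else ((A.coeff B.natDegree / B.coeff B.natDegree : ℂ) : P))
    (fun z => if B.eval z = 0 then OnePoint.infty else ((A.eval z / B.eval z : ℂ) : P))

/-- The open strip `|Im s| < η`. -/
def strip (η : ℝ) : Set ℂ := {s | |s.im| < η}

/-- A (closed) real-analytic line or circle in a Riemann surface, together with a holomorphic
parametrisation of a neighbourhood; `γ s = γ s'` only if `s' - s` is an integer period of `γ`. -/
structure Line (X : Type) [TopologicalSpace X] [RS X] where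
  γ : ℂ → X
  η : ℝ
  η_pos : 0 < η
  hol : ∀ s ∈ strip η, HolAt γ s
  inj : ∀ s ∈ strip η, ∀ s' ∈ strip η, γ s = γ s' →
    ∃ k : ℤ, s' = s + k ∧ ∀ r ∈ strip η, γ (r + k) = γ r
  closed : IsClosed (range fun x : ℝ => γ (x : ℂ))

/-- The line itself. -/
def Line.ell {X : Type} [TopologicalSpace X] [RS X] (L : Line X) : Set X :=
  range fun x : ℝ => L.γ (x : ℂ)

/-- Sides of a line: two disjoint connected open sets with union the complement of the line. -/
structure Line.Sides {X : Type} [TopologicalSpace X] [RS X] (L : Line X) (Xp Xm : Set X) :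
    Prop where
  open_p : IsOpen Xp
  open_m : IsOpen Xm
  conn_p : IsConnected Xp
  conn_m : IsConnected Xm
  disj : Disjoint Xp Xm
  union : Xp ∪ Xm = L.ellᶜ
  front_p : frontier Xp = L.ell
  front_m : frontier Xm = L.ell
  up : ∀ s ∈ strip L.η, 0 < s.im → L.γ s ∈ Xp
  down : ∀ s ∈ strip L.η, s.im < 0 → L.γ s ∈ Xm

/-- An invariant analytic Jordan curve `γ(ℝ)` of a self-map `f` of the sphere, without periodic
points, on which `f` acts as an increasing homeomorphism `F` in the coordinate `γ`. -/
structure InvCurve (f : P → P) where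
  γ : ℂ → P
  η : ℝ
  η_pos : 0 < η
  hol : ∀ s ∈ strip η, HolAt γ s
  per : ∀ s, γ (s + 1) = γ s
  inj : ∀ s ∈ strip η, ∀ s' ∈ strip η, γ s = γ s' → ∃ k : ℤ, s' = s + k
  F : ℝ → ℝ
  F_cont : Continuous F
  F_mono : StrictMono F
  F_per : ∀ x, F (x + 1) = F x + 1
  inv : ∀ x : ℝ, f (γ x) = γ (F x)
  noper : ∀ n : ℕ, 1 ≤ n → ∀ x : ℝ, ∀ k : ℤ, F^[n] x ≠ x + k

/-- The curve is Lyapunov stable under iteration of `f`. -/
def InvCurve.Stable {f : P → P} (c : InvCurve f) : Prop :=
  ∀ O : Set P, IsOpen O → (∀ x : ℝ, c.γ x ∈ O) →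
    ∃ δ > 0, δ ≤ c.η ∧ ∀ n : ℕ, ∀ s ∈ strip δ, f^[n] (c.γ s) ∈ O

end Pool.Agent.Lib.MP_1f4a82_an
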