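import Pool.Agent.Lib.MP_1f4a82_an.MainDefs
import Pool.Agent.Lib.MP_1f4a82_an.Limits

/-!
Eigenfunctions of the rotation on a good domain.
-/

open Topology Filter Set

namespace Pool.Agent.Lib.MP_1f4a82_an

namespace EigenAux

theorem valP_inj {x y : P} (hx : x ≠ OnePoint.infty) (hy : y ≠ OnePoint.infty)
    (h : valP x = valP y) : x = y := by
  obtain ⟨x', rfl⟩ := OnePoint.ne_infty_iff_exists.mp hx
  obtain ⟨y', rfl⟩ := OnePoint.ne_infty_iff_exists.mp hy
  rw [valP_coe, valP_coe] at h
  rw [h]

/-- A holomorphic injective function on a proper subset of the sphere. -/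
theorem exists_coord {U : Set P} (hU : U ≠ univ) :
    ∃ V : P → ℂ, (∀ z ∈ U, HolAt V z) ∧ InjOn V U := by
  obtain ⟨b, hb⟩ := (ne_univ_iff_exists_notMem U).mp hU
  by_cases h : b = OnePoint.infty
  · subst h
    have hne : ∀ z ∈ U, z ≠ OnePoint.infty := fun z hz h => hb (h ▸ hz)
    refine ⟨valP, fun z hz => (holAt_id z).valP (hne z hz), ?_⟩
    intro x hx y hy hxy
    exact valP_inj (hne x hx) (hne y hy) hxy
  · obtain ⟨b', rfl⟩ := OnePoint.ne_infty_iff_exists.mp h
    have hne : ∀ z ∈ U, z ≠ (b' : P) := fun z hz h => hb (h ▸ hz)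
    have key : ∀ z : P, z ≠ (b' : P) → invP (affP 1 (-b') z) ≠ OnePoint.infty := by
      intro z hz h1
      rw [invP_eq_infty] at h1
      apply hz
      induction z using OnePoint.rec with
      | infty => simp at h1
      | coe w =>
        rw [affP_coe] at h1
        have := OnePoint.coe_injective h1
        congr 1
        linear_combination this
    refine ⟨fun z => valP (invP (affP 1 (-b') z)), fun z hz => ?_, ?_⟩
    · exact ((holAt_invP _).comp (holAt_affP one_ne_zero (-b') z)).valP (key z (hne z hz))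
    · intro x hx y hy hxy
      have h1 := valP_inj (key x (hne x hx)) (key y (hne y hy)) hxy
      have h2 : affP 1 (-b') x = affP 1 (-b') y := by
        rw [← invP_invP (affP 1 (-b') x), h1, invP_invP]
      induction x using OnePoint.rec with
      | infty =>
        induction y using OnePoint.rec with
        | infty => rfl
        | coe w => rw [affP_coe, affP_infty] at h2; exact absurd h2.symm (OnePoint.coe_ne_infty _)
      | coe w =>
        induction y using OnePoint.rec with
        | infty => rw [affP_coe, affP_infty] at h2; exact absurd h2 (OnePoint.coe_ne_infty _)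
        | coe w' =>
          rw [affP_coe, affP_coe] at h2
          have := OnePoint.coe_injective h2
          congr 1
          linear_combination this

/-- Weighted ergodic averages. -/
noncomputable def avg (f : P → P) (V : P → ℂ) (c : ℂ) (N : ℕ) (z : P) : ℂ :=
  (N : ℂ)⁻¹ * ∑ n ∈ Finset.range N, c ^ n * V (f^[n] z)

theorem norm_avg_le {f : P → P} {V : P → ℂ} {c : ℂ} (hc : ‖c‖ = 1) {z : P} {M : ℝ} (hM : 0 ≤ M)
    (h : ∀ n, ‖V (f^[n] z)‖ ≤ M) (N : ℕ) : ‖avg f V c N z‖ ≤ M := by
  unfold avg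
  rcases Nat.eq_zero_or_pos N with h0 | h0
  · subst h0; simpa using hM
  · rw [norm_mul]
    have h1 : ‖∑ n ∈ Finset.range N, c ^ n * V (f^[n] z)‖ ≤ N * M := by
      calc ‖∑ n ∈ Finset.range N, c ^ n * V (f^[n] z)‖
          ≤ ∑ n ∈ Finset.range N, ‖c ^ n * V (f^[n] z)‖ := norm_sum_le _ _
        _ ≤ ∑ n ∈ Finset.range N, M := by
            apply Finset.sum_le_sum
            intro n _
            rw [norm_mul, norm_pow, hc, one_pow, one_mul]
            exact h n
        _ = N * M := by simp
    have h2 : ‖((N : ℂ))⁻¹‖ = (N : ℝ)⁻¹ := by simp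
    rw [h2]
    have h3 : (0 : ℝ) < N := by exact_mod_cast h0
    calc (N : ℝ)⁻¹ * ‖∑ n ∈ Finset.range N, c ^ n * V (f^[n] z)‖ ≤ (N : ℝ)⁻¹ * (N * M) := by
          apply mul_le_mul_of_nonneg_left h1; positivity
      _ = M := by field_simp

theorem avg_f {f : P → P} {V : P → ℂ} {c : ℂ} (hc : c ≠ 0) {z : P} (N : ℕ) :
    avg f V c N (f z) = c⁻¹ * (avg f V c N z + (N : ℂ)⁻¹ * (c ^ N * V (f^[N] z) - V z)) := by
  unfold avg
  have h1 : ∑ n ∈ Finset.range N, c ^ n * V (f^[n] (f z)) =
      c⁻¹ * ∑ n ∈ Finset.range N, c ^ (n + 1) * V (f^[n + 1] z) := by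
    rw [Finset.mul_sum]
    apply Finset.sum_congr rfl
    intro n _
    rw [← Function.iterate_succ_apply, pow_succ]
    field_simp
  have h2 := Finset.sum_range_succ' (fun n => c ^ n * V (f^[n] z)) N
  have h3 := Finset.sum_range_succ (fun n => c ^ n * V (f^[n] z)) N
  simp only [pow_zero, one_mul, Function.iterate_zero, id_eq] at h2
  rw [h3] at h2
  rw [h1]
  have h4 : ∑ n ∈ Finset.range N, c ^ (n + 1) * V (f^[n + 1] z) =
      ∑ n ∈ Finset.range N, c ^ n * V (f^[n] z) + c ^ N * V (f^[N] z) - V z := by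
    rw [h2]; ring
  rw [h4]; ring

theorem iterate_mem {f : P → P} {L : LinCurve f} {U : Set P} (hU : GoodDomain f L U) {z : P}
    (hz : z ∈ U) (n : ℕ) : f^[n] z ∈ U := by
  induction n with
  | zero => exact hz
  | succ n ih =>
    rw [Function.iterate_succ_apply']
    rw [← hU.image]
    exact mem_image_of_mem f ih

theorem iterate_holAt {f : P → P} (h : ∀ p, HolAt f p) (n : ℕ) (p : P) : HolAt f^[n] p := by
  induction n generalizing p with
  | zero => exact holAt_id p
  | succ n ih =>
    rw [Function.iterate_succ]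
    exact HolAt.comp (g := f^[n]) (f := f) (ih _) (h p)

theorem exists_bound {f : P → P} {L : LinCurve f} {U : Set P} (hU : GoodDomain f L U)
    {V : P → ℂ} (hV : ∀ z ∈ U, HolAt V z) {z : P} (hz : z ∈ U) :
    ∃ N ∈ 𝓝 z, N ⊆ U ∧ ∃ M : ℝ, 0 ≤ M ∧ ∀ n : ℕ, ∀ y ∈ N, ‖V (f^[n] y)‖ ≤ M := by
  obtain ⟨N, hN, K, hK, hKU, h⟩ := hU.cpt z hz
  have hc : ContinuousOn V K := fun x hx => (hV x (hKU hx)).continuousAt.continuousWithinAt
  obtain ⟨M, hM⟩ := hK.exists_bound_of_continuousOn hc
  refine ⟨N ∩ U, inter_mem hN (hU.isOpen.mem_nhds hz), inter_subset_right, max M 0,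
    le_max_right _ _, ?_⟩
  intro n y hy
  exact (hM _ (h n y hy.1)).trans (le_max_left _ _)

theorem holAt_avg {f : P → P} (hf : ∀ p, HolAt f p) {L : LinCurve f} {U : Set P}
    (hU : GoodDomain f L U) {V : P → ℂ} (hV : ∀ z ∈ U, HolAt V z) (c : ℂ) (N : ℕ) {z : P}
    (hz : z ∈ U) : HolAt (avg f V c N) z := by
  unfold avg
  refine (holAt_const _ z).mul ?_
  induction N with
  | zero => simpa using holAt_const (0 : ℂ) z
  | succ N ih =>
    simp only [Finset.sum_range_succ]
    refine ih.add ((holAt_const _ z).mul ?_)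
    exact HolAt.comp (g := V) (f := f^[N]) (hV _ (iterate_mem hU hz N)) (iterate_holAt hf N z)

/-- The limit of the averages. -/
theorem exists_limit {f : P → P} (hf : ∀ p, HolAt f p) {L : LinCurve f} {U : Set P}
    (hU : GoodDomain f L U) {V : P → ℂ} (hV : ∀ z ∈ U, HolAt V z) {c : ℂ} (hc : ‖c‖ = 1) :
    ∃ (W : Filter ℕ) (φ : P → ℂ), W.NeBot ∧ W ≤ atTop ∧
      (∀ z ∈ U, Tendsto (fun N => avg f V c N z) W (𝓝 (φ z))) ∧
      (∀ z ∈ U, HolAt φ z) ∧ (∀ z ∈ U, φ (f z) = c⁻¹ * φ z) ∧
      TendstoLocallyUniformlyOn (fun N s => avg f V c N (L.G s)) (fun s => φ (L.G s)) W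
        (strip L.ε) := by
  classical
  have hc0 : c ≠ 0 := by
    rintro rfl
    simp at hc
  set W : Ultrafilter ℕ := hyperfilter ℕ with hW
  have hWle : (W : Filter ℕ) ≤ atTop := by
    rw [← Nat.cofinite_eq_atTop]
    exact hyperfilter_le_cofinite
  have hex : ∀ z ∈ U, ∃ l : ℂ, Tendsto (fun N => avg f V c N z) W (𝓝 l) := by
    intro z hz
    obtain ⟨N, hN, hNU, M, hM, hb⟩ := exists_bound hU hV hz
    have h1 : ∀ n, avg f V c n z ∈ Metric.closedBall (0 : ℂ) M := by
      intro n
      rw [mem_closedBall_zero_iff]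
      exact norm_avg_le hc hM (fun n => hb n z (mem_of_mem_nhds hN)) n
    have h2 : (W.map (fun N => avg f V c N z) : Filter ℂ) ≤ 𝓟 (Metric.closedBall (0 : ℂ) M) := by
      rw [le_principal_iff]
      exact Filter.mem_map.mpr (Filter.univ_mem' h1)
    obtain ⟨l, -, hl⟩ := (isCompact_closedBall (0 : ℂ) M).ultrafilter_le_nhds _ h2
    exact ⟨l, hl⟩
  choose! φ hφ using hex
  have hhol : ∀ z ∈ U, HolAt φ z := by
    intro z hz
    obtain ⟨N, hN, hNU, M, hM, hb⟩ := exists_bound hU hV hz
    obtain ⟨e, he, hze⟩ := RS.exists_chart z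
    obtain ⟨r, hr, h1, h2, h3, h4⟩ := exists_disc hN hze
    rw [holAt_iff_of_chart he hze]
    have hsub : ∀ w ∈ Metric.ball (e z) r, e.symm w ∈ N ∧ w ∈ e.target := by
      intro w hw
      have hw' := Metric.ball_subset_closedBall hw
      exact ⟨h2 (mem_image_of_mem _ hw'), h1 hw'⟩
    have h5 := tendstoLocallyUniformlyOn_of_bounded (l := (W : Filter ℕ))
      (F := fun n w => avg f V c n (e.symm w)) (g := fun w => φ (e.symm w))
      (Ω := Metric.ball (e z) r) Metric.isOpen_ball ?_ (M := M) ?_ ?_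
    · have h6 := h5.2
      exact h6.analyticAt (Metric.isOpen_ball.mem_nhds (Metric.mem_ball_self hr))
    · refine Eventually.of_forall fun n w hw => ?_
      have h7 : HolAt (fun w => avg f V c n (e.symm w)) w :=
        HolAt.comp (g := avg f V c n) (f := e.symm)
          (holAt_avg hf hU hV c n (hNU (hsub w hw).1)) (holAt_chart_symm he (hsub w hw).2)
      exact (holAt_iff_analyticAt.mp h7).differentiableAt.differentiableWithinAt
    · refine Eventually.of_forall fun n w hw => ?_
      exact norm_avg_le hc hM (fun n => hb n _ (hsub w hw).1) n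
    · intro w hw
      exact hφ _ (hNU (hsub w hw).1)
  have hfun : ∀ z ∈ U, φ (f z) = c⁻¹ * φ z := by
    intro z hz
    have hfz : f z ∈ U := by
      have := iterate_mem hU hz 1
      simpa using this
    obtain ⟨N, hN, hNU, M, hM, hb⟩ := exists_bound hU hV hz
    have h1 : Tendsto (fun n : ℕ => (n : ℂ)⁻¹ * (c ^ n * V (f^[n] z) - V z)) atTop (𝓝 0) := by
      rw [tendsto_zero_iff_norm_tendsto_zero]
      have h2 : Tendsto (fun n : ℕ => (n : ℝ)⁻¹ * (M + M)) atTop (𝓝 0) := by
        have := (tendsto_inv_atTop_nhds_zero_nat (𝕜 := ℝ)).mul_const (M + M)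
        simpa using this
      refine squeeze_zero (fun n => norm_nonneg _) (fun n => ?_) h2
      rw [norm_mul]
      have h3 : ‖((n : ℂ))⁻¹‖ = (n : ℝ)⁻¹ := by simp
      rw [h3]
      apply mul_le_mul_of_nonneg_left _ (by positivity)
      refine (norm_sub_le _ _).trans (add_le_add ?_ ?_)
      · rw [norm_mul, norm_pow, hc, one_pow, one_mul]
        exact hb n z (mem_of_mem_nhds hN)
      · exact hb 0 z (mem_of_mem_nhds hN)
    have h4 : Tendsto (fun n => avg f V c n (f z)) W (𝓝 (c⁻¹ * (φ z + 0))) := by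
      have h5 := ((hφ z hz).add (h1.mono_left hWle)).const_mul c⁻¹
      refine h5.congr fun n => ?_
      exact (avg_f hc0 n).symm
    rw [add_zero] at h4
    exact tendsto_nhds_unique (hφ _ hfz) h4
  refine ⟨W, φ, inferInstance, hWle, hφ, hhol, hfun, ?_⟩
  intro u hu s hs
  have hG : L.G s ∈ U := hU.mem s hs
  obtain ⟨N, hN, hNU, M, hM, hb⟩ := exists_bound hU hV hG
  have hpre : L.G ⁻¹' N ∩ strip L.ε ∈ 𝓝 s :=
    inter_mem ((L.hol s hs).continuousAt hN) ((isOpen_strip L.ε).mem_nhds hs)
  obtain ⟨r, hr, hball⟩ := Metric.mem_nhds_iff.mp hpre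
  have h5 := tendstoLocallyUniformlyOn_of_bounded (l := (W : Filter ℕ))
      (F := fun n w => avg f V c n (L.G w)) (g := fun w => φ (L.G w))
      (Ω := Metric.ball s r) Metric.isOpen_ball ?_ (M := M) ?_ ?_
  · obtain ⟨t, ht, h6⟩ := h5.1 u hu s (Metric.mem_ball_self hr)
    refine ⟨t, ?_, h6⟩
    rw [nhdsWithin_eq_nhds.mpr (Metric.isOpen_ball.mem_nhds (Metric.mem_ball_self hr))] at ht
    exact nhdsWithin_le_nhds ht
  · refine Eventually.of_forall fun n w hw => ?_
    have h7 : HolAt (fun w => avg f V c n (L.G w)) w :=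
      HolAt.comp (g := avg f V c n) (f := L.G)
        (holAt_avg hf hU hV c n (hNU (hball hw).1)) (L.hol w (hball hw).2)
    exact (holAt_iff_analyticAt.mp h7).differentiableAt.differentiableWithinAt
  · refine Eventually.of_forall fun n w hw => ?_
    exact norm_avg_le hc hM (fun n => hb n _ (hball hw).1) n
  · intro w hw
    exact hφ _ (hNU (hball hw).1)

theorem convex_strip' (η : ℝ) : Convex ℝ (strip η) := by
  have h : strip η = Complex.imCLM.toLinearMap ⁻¹' (Ioo (-η) η) := by
    ext s
    simp [strip, abs_lt]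
  rw [h]
  exact (convex_Ioo _ _).linear_preimage _

theorem add_real_mem {η : ℝ} {s : ℂ} (hs : s ∈ strip η) (x : ℝ) : s + x ∈ strip η := by
  simpa [strip] using hs

theorem real_mem {η : ℝ} (hη : 0 < η) (x : ℝ) : (x : ℂ) ∈ strip η := by
  simpa [strip] using hη

/-- A continuous function on the line with periods `1` and `ρ` is constant. -/
theorem const_of_periods {p : ℝ → ℂ} (hp : Continuous p) {ρ : ℝ} (hρ : Irrational ρ)
    (h1 : ∀ x, p (x + 1) = p x) (h2 : ∀ x, p (x + ρ) = p x) (x : ℝ) : p x = p 0 := by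
  let H : AddSubgroup ℝ :=
    { carrier := {t | ∀ x, p (x + t) = p x}
      zero_mem' := fun x => by rw [add_zero]
      add_mem' := by
        intro a b ha hb x
        rw [← add_assoc, hb, ha]
      neg_mem' := by
        intro a ha x
        have := ha (x + -a)
        rw [neg_add_cancel_right] at this
        exact this.symm }
  have hle : AddSubgroup.closure {ρ, 1} ≤ H := by
    rw [AddSubgroup.closure_le]
    intro t ht
    rcases ht with rfl | ht
    · exact h2
    · rw [mem_singleton_iff] at ht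
      subst ht
      exact h1
  have hd : Dense (AddSubgroup.closure {ρ, 1} : Set ℝ) := by
    rw [dense_addSubgroupClosure_pair_iff, div_one]
    exact hρ
  have hcl : IsClosed {t : ℝ | p t = p 0} := isClosed_eq hp continuous_const
  have hsub : (AddSubgroup.closure {ρ, 1} : Set ℝ) ⊆ {t : ℝ | p t = p 0} := by
    intro t ht
    have h3 : t ∈ H := hle ht
    have h4 := h3 0
    rw [zero_add] at h4
    exact h4
  have h5 := hd.mono hsub
  have h6 := hcl.closure_eq ▸ h5.closure_eq
  have : x ∈ {t : ℝ | p t = p 0} := by rw [h6]; trivial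
  exact this

/-- A continuous periodic function with vanishing Fourier coefficients of nonzero index is
constant. -/
theorem const_of_fourier {v : ℝ → ℂ} (hv : Continuous v) (hper : ∀ x, v (x + 1) = v x)
    (h : ∀ k : ℤ, k ≠ 0 →
      ∫ t in (0 : ℝ)..1, Complex.exp (-(2 * Real.pi * Complex.I * k * t)) * v t = 0) (x : ℝ) :
    v x = v 0 := by
  have : Fact (0 < (1 : ℝ)) := ⟨one_pos⟩
  have hp : Function.Periodic v 1 := hper
  have hcont : Continuous hp.lift := by
    refine continuous_coinduced_dom.mpr ?_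
    refine hv.congr fun y => ?_
    exact (hp.lift_coe y).symm
  let g : C(AddCircle (1 : ℝ), ℂ) := ⟨hp.lift, hcont⟩
  have hg : ∀ y : ℝ, g (y : AddCircle (1 : ℝ)) = v y := fun y => hp.lift_coe y
  have hcoef : ∀ k : ℤ, k ≠ 0 → fourierCoeff g k = 0 := by
    intro k hk
    rw [fourierCoeff_eq_intervalIntegral g k 0]
    have h3 := h k hk
    simp only [zero_add, div_one, one_smul]
    rw [← h3]
    apply intervalIntegral.integral_congr
    intro t _
    beta_reduce
    rw [hg, fourier_coe_apply, smul_eq_mul]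
    congr 2
    push_cast
    ring
  have hsum : Summable (fourierCoeff g) := by
    apply summable_of_ne_finset_zero (s := {0})
    intro k hk
    exact hcoef k (by simpa using hk)
  have key : ∀ y : ℝ, v y = fourierCoeff g 0 := by
    intro y
    have h4 := has_pointwise_sum_fourier_series_of_summable hsum (y : AddCircle (1 : ℝ))
    have h5 : HasSum (fun i => fourierCoeff g i • fourier i (y : AddCircle (1 : ℝ)))
        (fourierCoeff g 0 • fourier 0 (y : AddCircle (1 : ℝ))) := by
      apply hasSum_single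
      intro k hk
      rw [hcoef k hk, zero_smul]
    have h6 := h4.unique h5
    rw [hg] at h6
    rw [h6]
    simp
  rw [key x, key 0]

theorem iterate_G {f : P → P} {L : LinCurve f} {s : ℂ} (hs : s ∈ strip L.ε) (n : ℕ) :
    f^[n] (L.G s) = L.G (s + ((n * L.ρ : ℝ) : ℂ)) := by
  induction n generalizing s with
  | zero => simp
  | succ n ih =>
    rw [Function.iterate_succ_apply, L.semi s hs, ih (add_real_mem hs L.ρ)]
    congr 1
    push_cast
    ring

theorem exp_int_mul (k : ℤ) : Complex.exp (2 * Real.pi * Complex.I * k) = 1 := by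
  rw [Complex.exp_eq_one_iff]
  exact ⟨k, by ring⟩

theorem exists_eigen {f : P → P} (hf : ∀ p, HolAt f p) {L : LinCurve f} {U : Set P}
    (hU : GoodDomain f L U) {V : P → ℂ} (hV : ∀ z ∈ U, HolAt V z) (k : ℤ) :
    ∃ (φ : P → ℂ) (a : ℂ), (∀ z ∈ U, HolAt φ z) ∧
      (∀ z ∈ U, φ (f z) = Complex.exp (2 * Real.pi * Complex.I * k * L.ρ) * φ z) ∧
      (∀ s ∈ strip L.ε, φ (L.G s) = a * Complex.exp (2 * Real.pi * Complex.I * k * s)) ∧
      ∫ t in (0 : ℝ)..1, Complex.exp (-(2 * Real.pi * Complex.I * k * t)) * V (L.G t) = a := by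
  set c : ℂ := Complex.exp (-(2 * Real.pi * Complex.I * k * L.ρ)) with hcdef
  have hc : ‖c‖ = 1 := by
    have h1 : -(2 * Real.pi * Complex.I * k * L.ρ) =
        ((-(2 * Real.pi * k * L.ρ) : ℝ) : ℂ) * Complex.I := by push_cast; ring
    rw [hcdef, h1, Complex.norm_exp_ofReal_mul_I]
  have hcinv : c⁻¹ = Complex.exp (2 * Real.pi * Complex.I * k * L.ρ) := by
    rw [hcdef, ← Complex.exp_neg, neg_neg]
  obtain ⟨W, φ, hW, hWle, hφ, hhol, hfun, hunif⟩ := exists_limit hf hU hV hc
  have hGc : ∀ x : ℝ, ContinuousAt (fun x : ℝ => L.G x) x := fun x =>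
    ContinuousAt.comp' (g := L.G) (L.hol _ (real_mem L.ε_pos x)).continuousAt
      Complex.continuous_ofReal.continuousAt
  have hGU : ∀ x : ℝ, L.G x ∈ U := fun x => hU.mem _ (real_mem L.ε_pos x)
  have hper : ∀ x : ℝ, L.G ((x + 1 : ℝ) : ℂ) = L.G x := by
    intro x
    have := L.per (x : ℂ)
    rw [← this]
    push_cast
    rfl
  -- constancy on the real line
  have hreal : ∀ x : ℝ, φ (L.G x) = φ (L.G (0 : ℝ)) * Complex.exp (2 * Real.pi * Complex.I * k * x) := by
    intro x
    have h1 := const_of_periods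
      (p := fun x : ℝ => φ (L.G x) * Complex.exp (-(2 * Real.pi * Complex.I * k * x)))
      (ρ := L.ρ) ?_ L.irr ?_ ?_ x
    · have h2 : Complex.exp (-(2 * Real.pi * Complex.I * k * x)) *
          Complex.exp (2 * Real.pi * Complex.I * k * x) = 1 := by
        rw [← Complex.exp_add, neg_add_cancel, Complex.exp_zero]
      beta_reduce at h1
      simp only [Complex.ofReal_zero, mul_zero, neg_zero, Complex.exp_zero, mul_one] at h1
      rw [Complex.ofReal_zero, ← h1, mul_assoc, h2, mul_one]
    · rw [continuous_iff_continuousAt]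
      intro y
      apply ContinuousAt.mul
      · exact ContinuousAt.comp' (g := φ) (hhol _ (hGU y)).continuousAt (hGc y)
      · fun_prop
    · intro y
      beta_reduce
      rw [hper y]
      congr 1
      have h3 : -(2 * Real.pi * Complex.I * k * ((y + 1 : ℝ) : ℂ)) =
          -(2 * Real.pi * Complex.I * k * y) + 2 * Real.pi * Complex.I * ((-k : ℤ) : ℂ) := by
        push_cast; ring
      rw [h3, Complex.exp_add, exp_int_mul, mul_one]
    · intro y
      beta_reduce
      have h3 : L.G ((y + L.ρ : ℝ) : ℂ) = f (L.G y) := by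
        rw [L.semi _ (real_mem L.ε_pos y)]
        push_cast
        rfl
      rw [h3, hfun _ (hGU y), hcinv]
      have h4 : -(2 * Real.pi * Complex.I * k * ((y + L.ρ : ℝ) : ℂ)) =
          -(2 * Real.pi * Complex.I * k * y) + -(2 * Real.pi * Complex.I * k * L.ρ) := by
        push_cast; ring
      rw [h4, Complex.exp_add]
      have h5 : Complex.exp (2 * Real.pi * Complex.I * k * L.ρ) *
          Complex.exp (-(2 * Real.pi * Complex.I * k * L.ρ)) = 1 := by
        rw [← Complex.exp_add, add_neg_cancel, Complex.exp_zero]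
      linear_combination (φ (L.G y) * Complex.exp (-(2 * Real.pi * Complex.I * k * y))) * h5
  set a : ℂ := φ (L.G (0 : ℝ)) with ha
  have hstrip : ∀ s ∈ strip L.ε, φ (L.G s) = a * Complex.exp (2 * Real.pi * Complex.I * k * s) := by
    have h1 : ∀ s ∈ strip L.ε, HolAt (fun s => φ (L.G s)) s := fun s hs =>
      HolAt.comp (g := φ) (f := L.G) (hhol _ (hU.mem s hs)) (L.hol s hs)
    have h2 : ∀ s ∈ strip L.ε,
        HolAt (fun s : ℂ => a * Complex.exp (2 * Real.pi * Complex.I * k * s)) s := by
      intro s _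
      rw [holAt_iff_analyticAt]
      fun_prop
    have h3 := HolAt.eqOn_of_preconnected (convex_strip' L.ε).isPreconnected h1 h2
      (p := ((0 : ℝ) : ℂ)) (real_mem L.ε_pos 0) ?_
    · intro s hs
      exact h3 hs
    · have h4 : Tendsto (fun x : ℝ => (x : ℂ)) (𝓝[≠] (0 : ℝ)) (𝓝[≠] ((0 : ℝ) : ℂ)) := by
        refine tendsto_nhdsWithin_iff.mpr ⟨?_, ?_⟩
        · exact (Complex.continuous_ofReal.tendsto 0).mono_left nhdsWithin_le_nhds
        · filter_upwards [self_mem_nhdsWithin] with x hx
          intro h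
          apply hx
          rw [mem_singleton_iff] at h ⊢
          exact_mod_cast h
      refine h4.frequently ?_
      refine (Eventually.of_forall fun x => ?_).frequently
      exact hreal x
  refine ⟨φ, a, hhol, ?_, hstrip, ?_⟩
  · intro z hz
    rw [hfun z hz, hcinv]
  -- the Fourier coefficient
  set w : ℝ → ℂ := fun t => Complex.exp (-(2 * Real.pi * Complex.I * k * t)) * V (L.G t) with hw
  have hwc : Continuous w := by
    rw [continuous_iff_continuousAt]
    intro y
    apply ContinuousAt.mul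
    · fun_prop
    · exact ContinuousAt.comp' (g := V) (hV _ (hGU y)).continuousAt (hGc y)
  have hwp : Function.Periodic w 1 := by
    intro y
    simp only [hw]
    rw [hper y]
    congr 1
    have h3 : -(2 * Real.pi * Complex.I * k * ((y + 1 : ℝ) : ℂ)) =
        -(2 * Real.pi * Complex.I * k * y) + 2 * Real.pi * Complex.I * ((-k : ℤ) : ℂ) := by
      push_cast; ring
    rw [h3, Complex.exp_add, exp_int_mul, mul_one]
  have havg : ∀ (N : ℕ) (t : ℝ), Complex.exp (-(2 * Real.pi * Complex.I * k * t)) *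
      avg f V c N (L.G t) = (N : ℂ)⁻¹ * ∑ n ∈ Finset.range N, w (t + n * L.ρ) := by
    intro N t
    unfold avg
    rw [mul_left_comm]
    congr 1
    rw [Finset.mul_sum]
    apply Finset.sum_congr rfl
    intro n _
    rw [iterate_G (real_mem L.ε_pos t), hw]
    beta_reduce
    rw [← Complex.ofReal_add, ← mul_assoc]
    congr 1
    rw [hcdef, ← Complex.exp_nat_mul, ← Complex.exp_add]
    congr 1
    push_cast
    ring
  have hint : ∀ N : ℕ, 1 ≤ N → ∫ t in (0 : ℝ)..1,
      Complex.exp (-(2 * Real.pi * Complex.I * k * t)) * avg f V c N (L.G t) =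
        ∫ t in (0 : ℝ)..1, w t := by
    intro N hN
    simp only [havg]
    rw [intervalIntegral.integral_const_mul, intervalIntegral.integral_finsetSum]
    · have h1 : ∀ n ∈ Finset.range N, ∫ t in (0 : ℝ)..1, w (t + n * L.ρ) =
          ∫ t in (0 : ℝ)..1, w t := by
        intro n _
        rw [intervalIntegral.integral_comp_add_right]
        have h2 := hwp.intervalIntegral_add_eq (n * L.ρ) 0
        rw [zero_add] at h2
        rw [zero_add, ← h2, add_comm]
      rw [Finset.sum_congr rfl h1]
      simp only [Finset.sum_const, Finset.card_range, nsmul_eq_mul]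
      have h3 : (N : ℂ) ≠ 0 := by
        have : N ≠ 0 := by omega
        exact_mod_cast this
      field_simp
    · intro n _
      apply Continuous.intervalIntegrable
      fun_prop
  have hconst : ∫ t in (0 : ℝ)..1,
      Complex.exp (-(2 * Real.pi * Complex.I * k * t)) * φ (L.G t) = a := by
    have h1 : ∀ t : ℝ, Complex.exp (-(2 * Real.pi * Complex.I * k * t)) * φ (L.G t) = a := by
      intro t
      rw [hreal t]
      have h2 : Complex.exp (-(2 * Real.pi * Complex.I * k * t)) *
          Complex.exp (2 * Real.pi * Complex.I * k * t) = 1 := by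
        rw [← Complex.exp_add, neg_add_cancel, Complex.exp_zero]
      linear_combination a * h2
    simp only [h1]
    simp
  have hsegc : IsCompact ((fun x : ℝ => (x : ℂ)) '' Icc 0 1) :=
    isCompact_Icc.image Complex.continuous_ofReal
  have hsegs : (fun x : ℝ => (x : ℂ)) '' Icc 0 1 ⊆ strip L.ε := by
    rintro _ ⟨x, -, rfl⟩
    exact real_mem L.ε_pos x
  have hU2 := (tendstoLocallyUniformlyOn_iff_forall_isCompact (isOpen_strip L.ε)).mp hunif _
    hsegs hsegc
  rw [Metric.tendstoUniformlyOn_iff] at hU2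
  refine eq_of_forall_dist_le fun ε hε => ?_
  obtain ⟨N, hN1, hN2⟩ := ((hU2 ε hε).and (hWle (eventually_ge_atTop 1))).exists
  rw [← hint N hN2, ← hconst, dist_eq_norm, ← intervalIntegral.integral_sub]
  · have h1 : ∀ t ∈ uIoc (0 : ℝ) 1,
        ‖Complex.exp (-(2 * Real.pi * Complex.I * k * t)) * avg f V c N (L.G t) -
          Complex.exp (-(2 * Real.pi * Complex.I * k * t)) * φ (L.G t)‖ ≤ ε := by
      intro t ht
      rw [uIoc_of_le zero_le_one] at ht
      have h2 := hN1 (t : ℂ) ⟨t, ⟨ht.1.le, ht.2⟩, rfl⟩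
      rw [← mul_sub, norm_mul]
      have h3 : -(2 * Real.pi * Complex.I * k * t) =
        ((-(2 * Real.pi * k * t) : ℝ) : ℂ) * Complex.I := by push_cast; ring
      rw [h3, Complex.norm_exp_ofReal_mul_I, one_mul, ← dist_eq_norm, dist_comm]
      exact h2.le
    have h4 := intervalIntegral.norm_integral_le_of_norm_le_const h1
    simpa using h4
  · simp only [havg]
    apply Continuous.intervalIntegrable
    fun_prop
  · apply Continuous.intervalIntegrable
    rw [continuous_iff_continuousAt]
    intro y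
    apply ContinuousAt.mul
    · fun_prop
    · exact ContinuousAt.comp' (g := φ) (hhol _ (hGU y)).continuousAt (hGc y)

end EigenAux

theorem GoodDomain.exists_eigenfunction {f : P → P} (hf : ∀ p, HolAt f p) {L : LinCurve f}
    {U : Set P} (hU : GoodDomain f L U) :
    ∃ (k : ℤ) (ψ : P → ℂ), k ≠ 0 ∧ (∀ z ∈ U, HolAt ψ z) ∧
      (∀ z ∈ U, ψ (f z) = Complex.exp (2 * Real.pi * Complex.I * k * L.ρ) * ψ z) ∧
      ∀ s ∈ strip L.ε, ψ (L.G s) = Complex.exp (2 * Real.pi * Complex.I * k * s) := by
  obtain ⟨V, hV, hVinj⟩ := EigenAux.exists_coord hU.ne_univ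
  have hex : ∃ k : ℤ, k ≠ 0 ∧
      ∫ t in (0 : ℝ)..1, Complex.exp (-(2 * Real.pi * Complex.I * k * t)) * V (L.G t) ≠ 0 := by
    by_contra hcon
    push Not at hcon
    have hGU : ∀ x : ℝ, L.G x ∈ U := fun x => hU.mem _ (EigenAux.real_mem L.ε_pos x)
    have hGc : ∀ x : ℝ, ContinuousAt (fun x : ℝ => L.G x) x := fun x =>
      ContinuousAt.comp' (g := L.G) (L.hol _ (EigenAux.real_mem L.ε_pos x)).continuousAt
        Complex.continuous_ofReal.continuousAt
    have h1 := EigenAux.const_of_fourier (v := fun t : ℝ => V (L.G t)) ?_ ?_ hcon (1 / 2)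
    · have h2 := hVinj (hGU _) (hGU _) h1
      obtain ⟨k, hk⟩ := L.inj _ (EigenAux.real_mem L.ε_pos _) _ (EigenAux.real_mem L.ε_pos _) h2
      have h3 : (0 : ℝ) = 1 / 2 + k := by
        have := congrArg Complex.re hk
        simpa using this
      have h4 : (2 * k : ℝ) = -1 := by linarith
      have h5 : 2 * k = -1 := by exact_mod_cast h4
      omega
    · rw [continuous_iff_continuousAt]
      intro y
      exact ContinuousAt.comp' (g := V) (hV _ (hGU y)).continuousAt (hGc y)
    · intro x
      beta_reduce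
      congr 1
      have := L.per (x : ℂ)
      rw [← this]
      push_cast
      rfl
  obtain ⟨k, hk, hne⟩ := hex
  obtain ⟨φ, a, h1, h2, h3, h4⟩ := EigenAux.exists_eigen hf hU hV k
  rw [h4] at hne
  refine ⟨k, fun z => φ z / a, hk, ?_, ?_, ?_⟩
  · intro z hz
    exact (h1 z hz).div (holAt_const a z) hne
  · intro z hz
    beta_reduce
    rw [h2 z hz]
    ring
  · intro s hs
    beta_reduce
    rw [h3 s hs]
    field_simp

end Pool.Agent.Lib.MP_1f4a82_an
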