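import Pool.Agent.Lib.MP_1f4a82_an.GreenMap

/-!
The embedding theorem (uniformisation of a simply connected Riemann surface with a reflection in
a line).
-/

open Topology Filter Set

namespace Pool.Agent.Lib.MP_1f4a82_an

variable {X : Type} [TopologicalSpace X] [RS X]

theorem normSq_lt_one {z : ℂ} (hz : ‖z‖ < 1) : Complex.normSq z < 1 := by
  rw [Complex.normSq_eq_norm_sq]
  nlinarith [norm_nonneg z]

theorem one_sub_ne {a w : ℂ} (ha : ‖a‖ < 1) (hw : ‖w‖ < 1) : 1 - (starRingEnd ℂ) w * a ≠ 0 := by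
  intro h
  have h1 : (starRingEnd ℂ) w * a = 1 := (sub_eq_zero.mp h).symm
  have h2 : ‖(starRingEnd ℂ) w * a‖ = 1 := by rw [h1, norm_one]
  rw [norm_mul, Complex.norm_conj] at h2
  nlinarith [norm_nonneg a, norm_nonneg w]

/-- Pseudohyperbolic distance is less than one. -/
theorem norm_moebius_lt {a w : ℂ} (ha : ‖a‖ < 1) (hw : ‖w‖ < 1) :
    ‖(a - w) / (1 - (starRingEnd ℂ) w * a)‖ < 1 := by
  have hne := one_sub_ne ha hw
  rw [norm_div, div_lt_one (norm_pos_iff.mpr hne)]
  have h1 : Complex.normSq (a - w) < Complex.normSq (1 - (starRingEnd ℂ) w * a) := by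
    have h2 : Complex.normSq (1 - (starRingEnd ℂ) w * a) - Complex.normSq (a - w) =
        (1 - Complex.normSq a) * (1 - Complex.normSq w) := by
      simp only [Complex.normSq_apply, Complex.sub_re, Complex.sub_im, Complex.mul_re,
        Complex.mul_im, Complex.conj_re, Complex.conj_im, Complex.one_re, Complex.one_im]
      ring
    have h3 : 0 < (1 - Complex.normSq a) * (1 - Complex.normSq w) :=
      mul_pos (by linarith [normSq_lt_one ha]) (by linarith [normSq_lt_one hw])
    linarith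
  rw [Complex.normSq_eq_norm_sq, Complex.normSq_eq_norm_sq] at h1
  exact lt_of_pow_lt_pow_left₀ 2 (norm_nonneg _) h1

theorem PhiMap.valP_hol {L : Line X} {Xp : Set X} {τ : X → X} {q : X} {φ : X → P}
    (h : PhiMap L Xp τ q φ) {x : X} (hx : x ∈ Xp) : HolAt (fun x => valP (φ x)) x :=
  (h.hol x).valP (h.fin x hx)

theorem PhiMap.moebius_hol {L : Line X} {Xp : Set X} {τ : X → X} {q : X} {φ : X → P}
    (h : PhiMap L Xp τ q φ) {w : ℂ} (hw : ‖w‖ < 1) {x : X} (hx : x ∈ Xp) :
    HolAt (fun x => (valP (φ x) - w) / (1 - (starRingEnd ℂ) w * valP (φ x))) x := by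
  refine HolAt.div ((h.valP_hol hx).sub (holAt_const _ _))
    ((holAt_const _ _).sub ((holAt_const _ _).mul (h.valP_hol hx))) (one_sub_ne (h.lt x hx) hw)

/-- Heins: the map is injective on `Xp`. -/
theorem PhiMap.injOn [T2Space X] [SimplyConnectedSpace X] (L : Line X) {τ : X → X}
    (hτ : ∀ p, AntiHolAt τ p) (hττ : ∀ p, τ (τ p) = p)
    (hτγ : ∀ s ∈ strip L.η, τ (L.γ s) = L.γ ((starRingEnd ℂ) s)) {Xp Xm : Set X}
    (hS : L.Sides Xp Xm) {q : X} (hq : q ∈ Xp) {φ : X → P} (h : PhiMap L Xp τ q φ) :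
    InjOn φ Xp := by
  -- the value at `q'` is taken only at `q'`
  have key : ∀ q' ∈ Xp, q' ≠ q → ∀ p ∈ Xp, φ p = φ q' → p = q' := by
    intro q' hq' hqq' p hp hpq
    by_contra hne
    obtain ⟨φ', h'⟩ := exists_phi L hτ hττ hτγ hS q' hq'
    set w := valP (φ q') with hw
    have hw1 : ‖w‖ < 1 := h.lt q' hq'
    set w' := valP (φ' q) with hw'
    have hw1' : ‖w'‖ < 1 := h'.lt q hq
    have hφq : valP (φ q) = 0 := by rw [h.zero]; rfl
    have hφ'q' : valP (φ' q') = 0 := by rw [h'.zero]; rfl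
    -- two applications of minimality
    have m1 := h'.min (fun x => (valP (φ x) - w) / (1 - (starRingEnd ℂ) w * valP (φ x)))
      (fun x hx => h.moebius_hol hw1 hx) (fun x hx => norm_moebius_lt (h.lt x hx) hw1)
      (by simp [hw])
    have m2 := h.min (fun x => (valP (φ' x) - w') / (1 - (starRingEnd ℂ) w' * valP (φ' x)))
      (fun x hx => h'.moebius_hol hw1' hx) (fun x hx => norm_moebius_lt (h'.lt x hx) hw1')
      (by simp [hw'])
    have m1q := m1 q hq
    have m2q := m2 q' hq'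
    simp only [hφq, hφ'q', mul_zero, sub_zero, div_one, zero_sub, norm_neg] at m1q m2q
    have heq : ‖w‖ = ‖w'‖ := le_antisymm m1q m2q
    -- the quotient
    have hpre : IsPreconnected (Xp \ {q'}) :=
      isPreconnected_diff_singleton hS.open_p hS.conn_p.isPreconnected q'
    have hopen : IsOpen (Xp \ {q'}) := hS.open_p.sdiff isClosed_singleton
    have hqmem : q ∈ Xp \ {q'} := ⟨hq, fun h => hqq' h.symm⟩
    have hθ := HolAt.eqOn_of_norm_max
      (f := fun x => (valP (φ x) - w) / (1 - (starRingEnd ℂ) w * valP (φ x)) / valP (φ' x))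
      hopen hpre
      (fun x hx => (h.moebius_hol hw1 hx.1).div (h'.valP_hol hx.1) (h'.ne x hx.1 hx.2)) hqmem
      (by
        intro x hx
        have e1 : ‖(valP (φ q) - w) / (1 - (starRingEnd ℂ) w * valP (φ q)) / valP (φ' q)‖ = 1 := by
          simp only [hφq, mul_zero, sub_zero, div_one, zero_sub, norm_div, norm_neg]
          rw [heq, ← hw', div_self]
          rw [norm_ne_zero_iff]
          exact h'.ne q hq (fun h => hqq' h.symm)
        rw [e1, norm_div, div_le_one (norm_pos_iff.mpr (h'.ne x hx.1 hx.2))]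
        exact m1 x hx.1)
    have h1 := hθ p ⟨hp, hne⟩
    simp only [hpq, ← hw, sub_self, zero_div, hφq, mul_zero, sub_zero, div_one, zero_sub] at h1
    have h2 : w' ≠ 0 := h'.ne q hq (fun h => hqq' h.symm)
    have h3 : w ≠ 0 := h.ne q' hq' hqq'
    have h4 : -w / w' ≠ 0 := div_ne_zero (neg_ne_zero.mpr h3) h2
    exact h4 h1.symm
  intro x hx y hy hxy
  by_cases hyq : y = q
  · by_contra hne
    have : valP (φ x) ≠ 0 := h.ne x hx (by rw [← hyq]; exact hne)
    apply this
    rw [hxy, hyq, h.zero]; rfl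
  · exact key y hy hyq x hx hxy

theorem PhiMap.mem_p_iff {L : Line X} {τ : X → X} {Xp Xm : Set X}
    (hS : L.Sides Xp Xm) (hmp : ∀ x ∈ Xm, τ x ∈ Xp) (hττ : ∀ p, τ (τ p) = p)
    {q : X} {φ : X → P} (h : PhiMap L Xp τ q φ) (x : X) :
    (x ∈ Xp ↔ φ x ≠ OnePoint.infty ∧ ‖valP (φ x)‖ < 1) ∧
    (x ∈ L.ell ↔ φ x ≠ OnePoint.infty ∧ ‖valP (φ x)‖ = 1) ∧
    (x ∈ Xm ↔ φ x = OnePoint.infty ∨ 1 < ‖valP (φ x)‖) := by
  have hm : x ∈ Xm → φ x = OnePoint.infty ∨ 1 < ‖valP (φ x)‖ := by
    intro hx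
    have h1 := h.lt _ (hmp x hx)
    have h2 := h.fin _ (hmp x hx)
    have h3 : φ x = invP (cjP (φ (τ x))) := by
      have := h.sym (τ x); rwa [hττ] at this
    by_cases h0 : valP (φ (τ x)) = 0
    · left
      have h4 : φ (τ x) = ((0 : ℂ) : P) := by rw [← coe_valP h2, h0]
      rw [h3, h4]; simp
    · right
      rw [h3, valP_invP, valP_cjP, norm_inv, Complex.norm_conj]
      exact (one_lt_inv₀ (norm_pos_iff.mpr h0)).mpr h1
  rcases hS.cases x with hx | hx | hx
  · have h1 := h.lt x hx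
    have h2 := h.fin x hx
    refine ⟨⟨fun _ => ⟨h2, h1⟩, fun _ => hx⟩, ⟨fun h3 => absurd hx (hS.ell_not_p h3),
      fun h3 => absurd h3.2 h1.ne⟩, ⟨fun h3 => absurd hx (hS.not_mem_p h3), fun h3 => ?_⟩⟩
    rcases h3 with h3 | h3
    · exact absurd h3 h2
    · exact absurd h3 (not_lt.mpr h1.le)
  · have h1 := hm hx
    refine ⟨⟨fun h3 => absurd h3 (hS.not_mem_p hx), fun h3 => ?_⟩, ⟨fun h3 =>
      absurd hx (hS.ell_not_m h3), fun h3 => ?_⟩, ⟨fun _ => h1, fun _ => hx⟩⟩
    · rcases h1 with h1 | h1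
      · exact absurd h1 h3.1
      · exact absurd h3.2 (not_lt.mpr h1.le)
    · rcases h1 with h1 | h1
      · exact absurd h1 h3.1
      · exact absurd h3.2 h1.ne'
  · have h1 := h.one x hx
    refine ⟨⟨fun h3 => absurd h3 (hS.ell_not_p hx), fun h3 => absurd h1.2 h3.2.ne⟩,
      ⟨fun _ => h1, fun _ => hx⟩, ⟨fun h3 => absurd h3 (hS.ell_not_m hx), fun h3 => ?_⟩⟩
    rcases h3 with h3 | h3
    · exact absurd h3 h1.1
    · exact absurd h1.2 h3.ne'

/-- The map is injective on the whole surface. -/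
theorem PhiMap.injective [T2Space X] [SimplyConnectedSpace X] (L : Line X) {τ : X → X}
    (hτ : ∀ p, AntiHolAt τ p) (hττ : ∀ p, τ (τ p) = p)
    (hτγ : ∀ s ∈ strip L.η, τ (L.γ s) = L.γ ((starRingEnd ℂ) s)) {Xp Xm : Set X}
    (hS : L.Sides Xp Xm) {q : X} (hq : q ∈ Xp) {φ : X → P} (h : PhiMap L Xp τ q φ) :
    Function.Injective φ := by
  have hτc : Continuous τ := continuous_iff_continuousAt.mpr fun x => (hτ x).1
  obtain ⟨hpm, hmp, hfix⟩ := hS.swap hτc hττ hτγ
  have hinj := h.injOn L hτ hττ hτγ hS hq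
  have hch := h.mem_p_iff hS hmp hττ
  have hnc : ∀ x, ¬ ∀ᶠ y in 𝓝 x, φ y = φ x := by
    intro x hx
    have h1 : φ = fun _ => φ x := HolAt.eq_of_eventuallyEq h.hol (fun _ => holAt_const _ _) hx
    -- φ q = 0 but φ has norm one on the line
    have h2 : φ q = φ (L.γ (0 : ℝ)) := by rw [h1]
    have h3 := (h.one (L.γ (0 : ℝ)) ⟨0, rfl⟩).2
    rw [← h2, h.zero] at h3
    simp at h3
  intro x y hxy
  rcases hS.cases x with hx | hx | hx
  · have hy : y ∈ Xp := by rw [(hch y).1, ← hxy, ← (hch x).1]; exact hx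
    exact hinj hx hy hxy
  · have hy : y ∈ Xm := by rw [(hch y).2.2, ← hxy, ← (hch x).2.2]; exact hx
    have h1 : φ (τ x) = φ (τ y) := by rw [h.sym, h.sym, hxy]
    have h2 := hinj (hmp x hx) (hmp y hy) h1
    rw [← hττ x, h2, hττ]
  · have hy : y ∈ L.ell := by rw [(hch y).2.1, ← hxy, ← (hch x).2.1]; exact hx
    by_contra hne
    obtain ⟨U, V, hU, hV, hxU, hyV, hUV⟩ := t2_separation hne
    have hU1 : φ '' U ∈ 𝓝 (φ x) := by
      rw [← (h.hol x).map_nhds (hnc x)]; exact image_mem_map (hU.mem_nhds hxU)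
    have hV1 : φ '' V ∈ 𝓝 (φ x) := by
      rw [hxy, ← (h.hol y).map_nhds (hnc y)]; exact image_mem_map (hV.mem_nhds hyV)
    have h1 := h.one x hx
    have hcont : Tendsto (fun t : ℝ => (((t : ℂ) * valP (φ x) : ℂ) : P)) (𝓝 1) (𝓝 (φ x)) := by
      have h2 : Continuous fun t : ℝ => (((t : ℂ) * valP (φ x) : ℂ) : P) :=
        OnePoint.continuous_coe.comp (by fun_prop)
      have h3 := h2.tendsto 1
      simp only [Complex.ofReal_one, one_mul] at h3
      rwa [coe_valP h1.1] at h3
    have h4 : ∀ᶠ t : ℝ in 𝓝[<] 1, (((t : ℂ) * valP (φ x) : ℂ) : P) ∈ φ '' U ∩ φ '' V :=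
      (hcont.mono_left nhdsWithin_le_nhds).eventually (inter_mem hU1 hV1)
    have h5 : ∀ᶠ t : ℝ in 𝓝[<] 1, 0 < t := nhdsWithin_le_nhds (isOpen_Ioi.mem_nhds (by simp))
    obtain ⟨t, ⟨⟨⟨x', hx', hx't⟩, ⟨y', hy', hy't⟩⟩, ht0⟩, ht1⟩ :=
      ((h4.and h5).and self_mem_nhdsWithin).exists
    have h6 : ‖((t : ℂ) * valP (φ x) : ℂ)‖ < 1 := by
      rw [norm_mul, h1.2, mul_one, Complex.norm_real, Real.norm_eq_abs, abs_of_pos ht0]
      exact ht1
    have hx'p : x' ∈ Xp := by
      rw [(hch x').1, hx't]; exact ⟨OnePoint.coe_ne_infty _, by rw [valP_coe]; exact h6⟩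
    have hy'p : y' ∈ Xp := by
      rw [(hch y').1, hy't]; exact ⟨OnePoint.coe_ne_infty _, by rw [valP_coe]; exact h6⟩
    have h7 := hinj hx'p hy'p (by rw [hx't, hy't])
    subst h7
    exact disjoint_left.mp hUV hx' hy'

/-- Square roots of nonvanishing holomorphic functions on simply connected surfaces. -/
theorem exists_holAt_sqrt [SimplyConnectedSpace X] {b : X → ℂ} (hb : ∀ x, HolAt b x)
    (h0 : ∀ x, b x ≠ 0) : ∃ β : X → ℂ, (∀ x, HolAt β x) ∧ ∀ x, β x ^ 2 = b x := by
  have hsc : IsSimplyConnected (univ : Set X) :=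
    ((Homeomorph.Set.univ X).toHomotopyEquiv.simplyConnectedSpace_iff).mpr inferInstance
  obtain ⟨β, hβ1, hβ2⟩ := Complex.exists_continuousOn_pow_eq hsc isOpen_univ
    (g := b) (fun x _ => (hb x).1.continuousWithinAt) (by
      rintro ⟨x, -, hx⟩; exact h0 x hx) two_ne_zero
  rw [continuousOn_univ] at hβ1
  refine ⟨β, fun x => ?_, hβ2⟩
  obtain ⟨e, he, hp⟩ := RS.exists_chart x
  rw [holAt_iff_of_chart he hp]
  have hb' := (holAt_iff_of_chart he hp).mp (hb x)
  obtain ⟨v, hv1, hv2, hv3⟩ := exists_analytic_root hb' (by simpa [e.left_inv hp] using h0 x)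
    two_ne_zero
  have hk : ContinuousAt (fun z => β (e.symm z) / v z) (e x) := by
    refine ContinuousAt.div ?_ hv1.continuousAt hv2
    exact ContinuousAt.comp' (g := β) hβ1.continuousAt (e.continuousAt_symm (e.map_source hp))
  have hv0 : ∀ᶠ z in 𝓝 (e x), v z ≠ 0 := hv1.continuousAt.eventually_ne hv2
  have hsq : ∀ᶠ z in 𝓝 (e x), β (e.symm z) / v z = 1 ∨ β (e.symm z) / v z = -1 := by
    filter_upwards [hv3, hv0] with z hz hz0
    rw [← mul_self_eq_one_iff, ← pow_two]
    rw [div_pow, hβ2, hz, div_self]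
    rw [← hz]; exact pow_ne_zero _ hz0
  have hev : ∀ᶠ z in 𝓝 (e x), β (e.symm z) / v z = β (e.symm (e x)) / v (e x) := by
    have h1 := Metric.continuousAt_iff'.mp hk 1 one_pos
    filter_upwards [h1, hsq] with z hz1 hz2
    rcases hz2 with h2 | h2 <;> rcases hsq.self_of_nhds with h3 | h3
    · rw [h2, h3]
    · rw [h2, h3, dist_eq_norm] at hz1
      norm_num at hz1
    · rw [h2, h3, dist_eq_norm] at hz1
      norm_num at hz1
    · rw [h2, h3]
  have h4 : AnalyticAt ℂ (fun z => β (e.symm (e x)) / v (e x) * v z) (e x) :=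
    analyticAt_const.mul hv1
  refine h4.congr ?_
  filter_upwards [hev, hv0] with z hz hz0
  rw [← hz]; field_simp

/-- Koebe: the map is onto the unit disc. -/
theorem PhiMap.surj [T2Space X] [SimplyConnectedSpace X] (L : Line X) {τ : X → X}
    (hτ : ∀ p, AntiHolAt τ p) (hττ : ∀ p, τ (τ p) = p)
    (hτγ : ∀ s ∈ strip L.η, τ (L.γ s) = L.γ ((starRingEnd ℂ) s)) {Xp Xm : Set X}
    (hS : L.Sides Xp Xm) {q : X} (hq : q ∈ Xp) {φ : X → P} (h : PhiMap L Xp τ q φ)
    {w : ℂ} (hw : ‖w‖ < 1) : ∃ x ∈ Xp, φ x = (w : P) := by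
  have hτc : Continuous τ := continuous_iff_continuousAt.mpr fun x => (hτ x).1
  obtain ⟨hpm, hmp, hfix⟩ := hS.swap hτc hττ hτγ
  have hch := h.mem_p_iff hS hmp hττ
  by_contra hno
  push Not at hno
  have hφq : valP (φ q) = 0 := by rw [h.zero]; rfl
  have hno' : ∀ x ∈ Xp, valP (φ x) ≠ w := fun x hx hxw => hno x hx (by
    rw [← coe_valP (h.fin x hx), hxw])
  have hw0 : w ≠ 0 := fun h0 => hno' q hq (by rw [hφq, h0])
  set c := (starRingEnd ℂ) w with hc
  have hc0 : c ≠ 0 := by simpa [hc] using hw0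
  have hcn : ‖c‖ = ‖w‖ := Complex.norm_conj w
  have hwc : w * c = (Complex.normSq w : ℂ) := by rw [hc, Complex.mul_conj]
  have hA : (1 : ℂ) - w * c ≠ 0 := by
    rw [hwc]
    have := normSq_lt_one hw
    intro h1
    have h2 : (1 : ℂ) = ((Complex.normSq w : ℝ) : ℂ) := sub_eq_zero.mp h1
    have h3 : (1 : ℝ) = Complex.normSq w := by exact_mod_cast h2
    linarith
  set α : ℂ := (1 - w * c) / c with hα
  have hα0 : α ≠ 0 := div_ne_zero hA hc0
  set B : X → P := fun x => affP α (-1 / c) (invP (affP (-c) 1 (φ x))) with hB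
  have hBhol : ∀ x, HolAt B x := fun x =>
    (holAt_affP hα0 _ _).comp ((holAt_invP _).comp ((holAt_affP (neg_ne_zero.mpr hc0) _ _).comp
      (h.hol x)))
  -- the value at finite points
  have hBval : ∀ x, φ x ≠ OnePoint.infty → 1 - c * valP (φ x) ≠ 0 →
      B x = (((valP (φ x) - w) / (1 - c * valP (φ x)) : ℂ) : P) := by
    intro x hx hx1
    rw [hB]
    simp only
    rw [← coe_valP hx, affP_coe, valP_coe, invP_coe (by rw [neg_mul]; rwa [← sub_eq_neg_add]),
      affP_coe]
    congr 1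
    have h1 : -c * valP (φ x) + 1 = 1 - c * valP (φ x) := by ring
    rw [h1, hα]
    field_simp
    ring
  have hbig : ∀ x, 1 - c * valP (φ x) = 0 → False := by
    intro x hx
    have hv : c * valP (φ x) = 1 := (sub_eq_zero.mp hx).symm
    have hvn : ‖w‖ * ‖valP (φ x)‖ = 1 := by rw [← hcn, ← norm_mul, hv, norm_one]
    have hfin : φ x ≠ OnePoint.infty := by
      intro h1; rw [h1] at hv; simp at hv
    have hgt : 1 < ‖valP (φ x)‖ := by
      by_contra h1
      push Not at h1
      have h2 : 0 ≤ ‖w‖ := norm_nonneg w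
      nlinarith [norm_nonneg (valP (φ x))]
    have hxm : x ∈ Xm := (hch x).2.2.mpr (Or.inr hgt)
    apply hno' _ (hmp x hxm)
    rw [h.sym, valP_invP, valP_cjP]
    have h3 : (starRingEnd ℂ) (valP (φ x)) * w = 1 := by
      have := congrArg (starRingEnd ℂ) hv
      rw [map_mul, map_one, hc, Complex.conj_conj] at this
      rw [mul_comm]; exact this
    exact inv_eq_of_mul_eq_one_right h3
  have hBinf : ∀ x, B x ≠ OnePoint.infty := by
    intro x
    by_cases hx : φ x = OnePoint.infty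
    · rw [hB]
      simp only
      rw [hx, affP_infty, invP_infty, affP_coe]
      exact OnePoint.coe_ne_infty _
    · rw [hBval x hx (fun h1 => hbig x h1)]
      exact OnePoint.coe_ne_infty _
  have hb0 : ∀ x, valP (B x) ≠ 0 := by
    intro x
    by_cases hx : φ x = OnePoint.infty
    · rw [hB]
      simp only
      rw [hx, affP_infty, invP_infty, affP_coe, valP_coe]
      simp [hc0]
    · rw [hBval x hx (fun h1 => hbig x h1), valP_coe]
      refine div_ne_zero ?_ (fun h1 => hbig x h1)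
      rw [sub_ne_zero]
      intro h1
      have hxp : x ∈ Xp := (hch x).1.mpr ⟨hx, by rw [h1]; exact hw⟩
      exact hno' x hxp h1
  obtain ⟨r, hr1, hr2⟩ := exists_holAt_sqrt (fun x => (hBhol x).valP (hBinf x)) hb0
  have hBp : ∀ x ∈ Xp, r x ^ 2 = (valP (φ x) - w) / (1 - c * valP (φ x)) := by
    intro x hx
    rw [hr2, hBval x (h.fin x hx) (fun h1 => hbig x h1), valP_coe]
  have hrlt : ∀ x ∈ Xp, ‖r x‖ < 1 := by
    intro x hx
    have h1 : ‖r x ^ 2‖ < 1 := by
      rw [hBp x hx]; exact norm_moebius_lt (h.lt x hx) hw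
    rw [norm_pow] at h1
    exact (pow_lt_one_iff_of_nonneg (norm_nonneg _) two_ne_zero).mp h1
  set r₀ := r q with hr₀
  have hr₀lt : ‖r₀‖ < 1 := hrlt q hq
  have hr₀2 : r₀ ^ 2 = - w := by
    rw [hr₀, hBp q hq, hφq]; simp
  have m := h.min (fun x => (r x - r₀) / (1 - (starRingEnd ℂ) r₀ * r x))
    (fun x hx => HolAt.div ((hr1 x).sub (holAt_const _ _))
      ((holAt_const _ _).sub ((holAt_const _ _).mul (hr1 x))) (one_sub_ne (hrlt x hx) hr₀lt))
    (fun x hx => norm_moebius_lt (hrlt x hx) hr₀lt) (by simp [hr₀])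
  -- pick a point x ≠ q of Xp
  obtain ⟨x, hx, hxq⟩ : ∃ x ∈ Xp, x ≠ q := by
    have h1 : ∀ᶠ x in 𝓝[≠] q, x ∈ Xp := nhdsWithin_le_nhds (hS.open_p.mem_nhds hq)
    obtain ⟨x, hx, hx'⟩ := (h1.and self_mem_nhdsWithin).exists
    exact ⟨x, hx, hx'⟩
  have mx := m x hx
  beta_reduce at mx
  have hv0 := h.ne x hx hxq
  -- the identity v = b1 * b2
  have hne1 := one_sub_ne (hrlt x hx) hr₀lt
  have hne2 : 1 - (starRingEnd ℂ) (-r₀) * r x ≠ 0 :=
    one_sub_ne (hrlt x hx) (by rw [norm_neg]; exact hr₀lt)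
  have hid : valP (φ x) = (r x - r₀) / (1 - (starRingEnd ℂ) r₀ * r x) *
      ((r x - -r₀) / (1 - (starRingEnd ℂ) (-r₀) * r x)) := by
    have h1 := hBp x hx
    have h2 : 1 - c * valP (φ x) ≠ 0 := fun h1 => hbig x h1
    have hcr : c = - ((starRingEnd ℂ) r₀) ^ 2 := by
      rw [← map_pow, hr₀2, map_neg, neg_neg]
    have hwr : w = - r₀ ^ 2 := by rw [hr₀2, neg_neg]
    rw [eq_div_iff h2] at h1
    rw [div_mul_div_comm, eq_div_iff (mul_ne_zero hne1 hne2)]
    rw [map_neg] at *
    have e1 : (1 - (starRingEnd ℂ) r₀ * r x) * (1 - -(starRingEnd ℂ) r₀ * r x) =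
        1 + c * r x ^ 2 := by rw [hcr]; ring
    rw [e1]
    have e2 : (r x - r₀) * (r x - -r₀) = r x ^ 2 + w := by rw [hwr]; ring
    rw [e2]
    linear_combination -h1
  have hb2 := norm_moebius_lt (hrlt x hx) (w := -r₀) (by rw [norm_neg]; exact hr₀lt)
  have hb1 : (r x - r₀) / (1 - (starRingEnd ℂ) r₀ * r x) ≠ 0 := by
    intro h1
    rw [h1, zero_mul] at hid
    exact hv0 hid
  rw [hid, norm_mul] at mx
  have := norm_pos_iff.mpr hb1
  nlinarith

/-- The Cayley transform of the sphere: the disc goes to the upper half plane. -/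
noncomputable def cayley (z : P) : P :=
  affP (2 * Complex.I) (- Complex.I) (invP (affP (-1) 1 z))

theorem holAt_cayley (z : P) : HolAt cayley z :=
  (holAt_affP (by simp) _ _).comp ((holAt_invP _).comp (holAt_affP (by simp) _ _))

theorem affP_injective {a : ℂ} (ha : a ≠ 0) (b : ℂ) : Function.Injective (affP a b) := by
  intro x y hxy
  induction x using OnePoint.rec with
  | infty =>
    have : affP a b y = OnePoint.infty := by rw [← hxy, affP_infty]
    exact (affP_eq_infty.mp this).symm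
  | coe z =>
    induction y using OnePoint.rec with
    | infty =>
      rw [affP_coe, affP_infty] at hxy
      exact absurd hxy (OnePoint.coe_ne_infty _)
    | coe w =>
      rw [affP_coe, affP_coe, OnePoint.coe_eq_coe] at hxy
      rw [mul_left_cancel₀ ha (add_right_cancel hxy)]

theorem invP_injective : Function.Injective invP := fun x y h => by
  rw [← invP_invP x, h, invP_invP]

theorem cayley_injective : Function.Injective cayley :=
  (affP_injective (by simp) _).comp (invP_injective.comp (affP_injective (by simp) _))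

theorem cayley_coe {z : ℂ} (hz : z ≠ 1) :
    cayley (z : P) = ((Complex.I * (1 + z) / (1 - z) : ℂ) : P) := by
  have h1 : (-1 : ℂ) * z + 1 ≠ 0 := by
    intro h; apply hz; linear_combination -h
  rw [cayley, affP_coe, invP_coe h1, affP_coe]
  congr 1
  have h2 : (-1 : ℂ) * z + 1 = 1 - z := by ring
  rw [h2] at h1 ⊢
  field_simp
  ring

theorem cayley_one : cayley ((1 : ℂ) : P) = OnePoint.infty := by
  rw [cayley, affP_coe]; simp

theorem cayley_infty : cayley OnePoint.infty = ((-Complex.I : ℂ) : P) := by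
  rw [cayley, affP_infty, invP_infty, affP_coe]; simp

theorem cayley_sym (z : P) : cayley (invP (cjP z)) = cjP (cayley z) := by
  induction z using OnePoint.rec with
  | infty =>
    rw [cjP_infty, invP_infty, cayley_infty, cayley_coe (by simp)]
    simp
  | coe z =>
    by_cases hz : z = 0
    · subst hz
      rw [cjP_coe, map_zero, invP_zero, cayley_infty, cayley_coe (by simp)]
      simp
    by_cases hz1 : z = 1
    · subst hz1
      rw [cayley_one, cjP_coe, map_one, invP_coe (by simp)]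
      simp [cayley_one]
    · have hz' : (starRingEnd ℂ) z ≠ 0 := by simpa using hz
      have hz1' : (starRingEnd ℂ) z ≠ 1 := by
        intro h; apply hz1
        have := congrArg (starRingEnd ℂ) h
        simpa using this
      rw [cjP_coe, invP_coe hz', cayley_coe (by
        intro h; apply hz1'; rw [← inv_inv ((starRingEnd ℂ) z), h, inv_one]), cayley_coe hz1,
        cjP_coe]
      congr 1
      simp only [map_div₀, map_mul, map_add, map_sub, map_one, Complex.conj_I]
      have h1 : (1 : ℂ) - (starRingEnd ℂ) z ≠ 0 := sub_ne_zero.mpr (Ne.symm hz1')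
      have h2 : (starRingEnd ℂ) z - 1 ≠ 0 := sub_ne_zero.mpr hz1'
      field_simp
      ring

/-- **Embedding theorem.** -/
theorem exists_embedding [T2Space X] [SimplyConnectedSpace X] (L : Line X) {τ : X → X}
    (hτ : ∀ p, AntiHolAt τ p) (hττ : ∀ p, τ (τ p) = p)
    (hτγ : ∀ s ∈ strip L.η, τ (L.γ s) = L.γ ((starRingEnd ℂ) s)) {Xp Xm : Set X}
    (hS : L.Sides Xp Xm) :
    ∃ F : X → P, (∀ x, HolAt F x) ∧ Function.Injective F ∧ (∀ x, F (τ x) = cjP (F x)) ∧
      (∀ x ∈ Xp, F x ≠ OnePoint.infty ∧ 0 < (valP (F x)).im) ∧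
      (∀ w : ℂ, 0 < w.im → ∃ x ∈ Xp, F x = (w : P)) := by
  obtain ⟨q, hq⟩ := hS.conn_p.nonempty
  obtain ⟨φ, h⟩ := exists_phi L hτ hττ hτγ hS q hq
  refine ⟨fun x => cayley (φ x), fun x => (holAt_cayley _).comp (h.hol x),
    cayley_injective.comp (h.injective L hτ hττ hτγ hS hq), ?_, ?_, ?_⟩
  · intro x
    beta_reduce
    rw [h.sym, cayley_sym]
  · intro x hx
    beta_reduce
    have hv := h.lt x hx
    have hne : valP (φ x) ≠ 1 := by
      intro h1; rw [h1, norm_one] at hv; exact lt_irrefl _ hv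
    rw [← coe_valP (h.fin x hx), cayley_coe hne]
    refine ⟨OnePoint.coe_ne_infty _, ?_⟩
    rw [valP_coe]
    set z := valP (φ x) with hz
    have h1 : (Complex.I * (1 + z) / (1 - z)).im = (1 - Complex.normSq z) /
        Complex.normSq (1 - z) := by
      rw [Complex.div_im]
      simp only [Complex.mul_im, Complex.mul_re, Complex.I_re, Complex.I_im, Complex.add_re,
        Complex.add_im, Complex.one_re, Complex.one_im, Complex.sub_re, Complex.sub_im,
        Complex.normSq_apply]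
      ring
    rw [h1]
    have h2 : 0 < Complex.normSq (1 - z) := Complex.normSq_pos.mpr (sub_ne_zero.mpr (Ne.symm hne))
    exact div_pos (by linarith [normSq_lt_one hv]) h2
  · intro w hw
    have hwI : w + Complex.I ≠ 0 := by
      intro h1
      have := congrArg Complex.im h1
      simp at this
      linarith
    have h1 : ‖(w - Complex.I) / (w + Complex.I)‖ < 1 := by
      rw [norm_div, div_lt_one (norm_pos_iff.mpr hwI)]
      have h2 : Complex.normSq (w - Complex.I) < Complex.normSq (w + Complex.I) := by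
        simp only [Complex.normSq_apply, Complex.sub_re, Complex.sub_im, Complex.add_re,
          Complex.add_im, Complex.I_re, Complex.I_im]
        nlinarith
      rw [Complex.normSq_eq_norm_sq, Complex.normSq_eq_norm_sq] at h2
      exact lt_of_pow_lt_pow_left₀ 2 (norm_nonneg _) h2
    obtain ⟨x, hx, hxz⟩ := h.surj L hτ hττ hτγ hS hq h1
    refine ⟨x, hx, ?_⟩
    beta_reduce
    rw [hxz, cayley_coe]
    · congr 1
      have h3 : (1 : ℂ) - (w - Complex.I) / (w + Complex.I) ≠ 0 := by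
        rw [sub_ne_zero]
        intro h4
        rw [eq_div_iff hwI] at h4
        have := congrArg Complex.im h4
        simp at this
        linarith
      have hI : Complex.I ≠ 0 := Complex.I_ne_zero
      rw [div_eq_iff h3]
      field_simp
      ring
    · intro h4
      rw [div_eq_iff hwI] at h4
      have := congrArg Complex.im h4
      simp at this
      linarith

end Pool.Agent.Lib.MP_1f4a82_an
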