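import Pool.Agent.Lib.MP_1f4a82_an.MainDefs

/-!
The ends of the maximal annulus of a linearised invariant curve; the linearizer of the rotation
domain.
-/

open Topology Filter Set

namespace Pool.Agent.Lib.MP_1f4a82_an

namespace EndsAux

/-- The parameter `exp (2πis)`. -/
noncomputable def q (s : ℂ) : ℂ := Complex.exp (2 * Real.pi * Complex.I * s)

theorem q_eq (s : ℂ) : q s = Function.Periodic.qParam 1 s := by
  simp [q, Function.Periodic.qParam]

theorem q_ne_zero (s : ℂ) : q s ≠ 0 := Complex.exp_ne_zero _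

theorem q_add (s t : ℂ) : q (s + t) = q s * q t := by
  rw [q, q, q, ← Complex.exp_add]; congr 1; ring

theorem q_int (j : ℤ) : q j = 1 := by
  rw [q, Complex.exp_eq_one_iff]
  exact ⟨j, by ring⟩

theorem q_add_int (s : ℂ) (j : ℤ) : q (s + j) = q s := by
  rw [q_add, q_int, mul_one]

theorem norm_q (s : ℂ) : ‖q s‖ = Real.exp (-2 * Real.pi * s.im) := by
  rw [q_eq, Function.Periodic.norm_qParam]; simp

theorem norm_q_lt_iff (c : ℝ) (s : ℂ) : ‖q s‖ < Real.exp (-2 * Real.pi * c) ↔ c < s.im := by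
  rw [norm_q, Real.exp_lt_exp]
  have := Real.pi_pos
  constructor
  · intro h; nlinarith
  · intro h; nlinarith

theorem lt_norm_q_iff (c : ℝ) (s : ℂ) : Real.exp (-2 * Real.pi * c) < ‖q s‖ ↔ s.im < c := by
  rw [norm_q, Real.exp_lt_exp]
  have := Real.pi_pos
  constructor
  · intro h; nlinarith
  · intro h; nlinarith

theorem norm_q_eq_one_iff (s : ℂ) : ‖q s‖ = 1 ↔ s.im = 0 := by
  rw [norm_q, Real.exp_eq_one_iff]
  have := Real.pi_pos
  constructor
  · intro h
    have h2 : (-2 * Real.pi) ≠ 0 := by linarith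
    exact (mul_eq_zero.mp h).resolve_left h2
  · intro h; rw [h, mul_zero]

theorem q_inj {s t : ℂ} (h : q s = q t) : ∃ j : ℤ, t = s + j := by
  rw [q, q, Complex.exp_eq_exp_iff_exists_int] at h
  obtain ⟨n, hn⟩ := h
  refine ⟨-n, ?_⟩
  have h2 : (2 * Real.pi * Complex.I : ℂ) ≠ 0 := Complex.two_pi_I_ne_zero
  have h3 : 2 * Real.pi * Complex.I * s = 2 * Real.pi * Complex.I * (t + n) := by
    rw [hn]; ring
  have h4 := mul_left_cancel₀ h2 h3
  rw [h4]; push_cast; ring

theorem exists_q {z : ℂ} (hz : z ≠ 0) : ∃ s, q s = z := by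
  refine ⟨Function.Periodic.invQParam 1 z, ?_⟩
  rw [q_eq]
  exact Function.Periodic.qParam_right_inv one_ne_zero hz

theorem per_int {Y : Type} {G : ℂ → Y} (h : ∀ s, G (s + 1) = G s) (j : ℤ) (s : ℂ) :
    G (s + j) = G s := by
  have hp : Function.Periodic G 1 := h
  have h1 := hp.int_mul j
  rw [mul_one] at h1
  exact h1 s

/-- A Moebius map sending a given point to infinity. -/
theorem exists_mobius (w0 : P) : ∃ M M' : P → P, (∀ x, HolAt M x) ∧ (∀ x, HolAt M' x) ∧
    (∀ x, M' (M x) = x) ∧ (∀ x, M (M' x) = x) ∧ M w0 = OnePoint.infty := by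
  induction w0 using OnePoint.rec with
  | infty => exact ⟨fun x => x, fun x => x, holAt_id, holAt_id, fun _ => rfl, fun _ => rfl, rfl⟩
  | coe w =>
    have haff : ∀ c : ℂ, ∀ x, affP 1 c (affP 1 (-c) x) = x := by
      intro c x
      induction x using OnePoint.rec with
      | infty => simp
      | coe z => rw [affP_coe, affP_coe]; congr 1; ring
    have haff' : ∀ c : ℂ, ∀ x, affP 1 (-c) (affP 1 c x) = x := by
      intro c x
      have := haff (-c) x
      rwa [neg_neg] at this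
    refine ⟨fun x => invP (affP 1 (-w) x), fun x => affP 1 w (invP x), ?_, ?_, ?_, ?_, ?_⟩
    · intro x
      exact (holAt_invP _).comp (holAt_affP one_ne_zero _ x)
    · intro x
      exact (holAt_affP one_ne_zero _ _).comp (holAt_invP x)
    · intro x
      beta_reduce
      rw [invP_invP, haff]
    · intro x
      beta_reduce
      rw [haff', invP_invP]
    · show invP (affP 1 (-w) (w : P)) = OnePoint.infty
      rw [affP_coe, one_mul, add_neg_cancel, invP_zero]

/-- The extension of `G` over the end. -/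
structure EndData (G : ℂ → P) (c : ℝ) (K : ℂ → P) : Prop where
  hol : ∀ z : ℂ, ‖z‖ < Real.exp (-2 * Real.pi * c) → HolAt K z
  eq : ∀ s : ℂ, c < s.im → K (q s) = G s
  inj : InjOn K {z | ‖z‖ < Real.exp (-2 * Real.pi * c)}

theorem coe_valP {x : P} (hx : x ≠ OnePoint.infty) : ((valP x : ℂ) : P) = x := by
  induction x using OnePoint.rec with
  | infty => exact absurd rfl hx
  | coe z => rfl

theorem exists_end {G : ℂ → P} {c : ℝ} (h1 : ∀ s : ℂ, c < s.im → HolAt G s)
    (h2 : ∀ s, G (s + 1) = G s)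
    (h3 : ∀ s s' : ℂ, c < s.im → c < s'.im → G s = G s' → ∃ j : ℤ, s' = s + j)
    {w0 : P} {W : Set P} (hW : W ∈ 𝓝 w0) (h4 : ∀ s : ℂ, c < s.im → G s ∉ W) :
    ∃ K, EndData G c K := by
  obtain ⟨M, M', hM, hM', hMM, hMM', hMw⟩ := exists_mobius w0
  have hM'inf : M' OnePoint.infty = w0 := by rw [← hMw, hMM]
  have hne : ∀ s : ℂ, c < s.im → M (G s) ≠ OnePoint.infty := by
    intro s hs h
    apply h4 s hs
    have : G s = w0 := by rw [← hMM (G s), h, hM'inf]
    rw [this]; exact mem_of_mem_nhds hW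
  set u : ℂ → ℂ := fun s => valP (M (G s)) with hu
  have hGu : ∀ s : ℂ, c < s.im → M' (u s : P) = G s := by
    intro s hs
    rw [hu]; beta_reduce
    rw [coe_valP (hne s hs), hMM]
  have hua : ∀ s : ℂ, c < s.im → AnalyticAt ℂ u s := by
    intro s hs
    rw [← holAt_iff_analyticAt]
    exact ((hM _).comp (h1 s hs)).valP (hne s hs)
  -- boundedness
  have hbd : ∃ R : ℝ, ∀ s : ℂ, c < s.im → ‖u s‖ ≤ R := by
    have h5 : M' ⁻¹' W ∈ 𝓝 (OnePoint.infty : P) := by
      apply (hM' _).continuousAt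
      rw [hM'inf]; exact hW
    have h6 : (fun z : ℂ => (z : P)) ⁻¹' (M' ⁻¹' W) ∈ cocompact ℂ := by
      rw [OnePoint.nhds_infty_eq, coclosedCompact_eq_cocompact] at h5
      exact h5.1
    rw [← Metric.cobounded_eq_cocompact, (Metric.hasBasis_cobounded_compl_closedBall 0).mem_iff]
      at h6
    obtain ⟨R, -, hR⟩ := h6
    refine ⟨R, fun s hs => ?_⟩
    by_contra hc
    push Not at hc
    have h7 : u s ∈ (Metric.closedBall (0 : ℂ) R)ᶜ := by
      simp only [mem_compl_iff, Metric.mem_closedBall, dist_zero_right, not_le]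
      exact hc
    have h8 : M' (u s : P) ∈ W := hR h7
    rw [hGu s hs] at h8
    exact h4 s hs h8
  obtain ⟨R, hR⟩ := hbd
  have hper : Function.Periodic u ((1 : ℝ) : ℂ) := by
    intro s
    rw [hu]; beta_reduce
    rw [Complex.ofReal_one, h2]
  set κ : ℂ → ℂ := Function.Periodic.cuspFunction 1 u with hκ
  have hκq : ∀ s, κ (q s) = u s := by
    intro s
    rw [q_eq]
    exact Function.Periodic.eq_cuspFunction one_ne_zero hper s
  have hev : ∀ᶠ s : ℂ in comap Complex.im atTop, c < s.im :=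
    (eventually_gt_atTop c).comap _
  have hκd : ∀ z : ℂ, ‖z‖ < Real.exp (-2 * Real.pi * c) → DifferentiableAt ℂ κ z := by
    intro z hz
    by_cases hz0 : z = 0
    · rw [hz0]
      refine Function.Periodic.differentiableAt_cuspFunction_zero one_pos hper ?_ ?_
      · filter_upwards [hev] with s hs
        exact (hua s hs).differentiableAt
      · rw [Filter.BoundedAtFilter]
        refine Asymptotics.IsBigO.of_bound R ?_
        filter_upwards [hev] with s hs
        simpa using hR s hs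
    · obtain ⟨s, rfl⟩ := exists_q hz0
      rw [norm_q_lt_iff] at hz
      rw [q_eq]
      exact Function.Periodic.differentiableAt_cuspFunction one_ne_zero hper
        (hua s hz).differentiableAt
  have hopen : IsOpen {z : ℂ | ‖z‖ < Real.exp (-2 * Real.pi * c)} :=
    isOpen_lt continuous_norm continuous_const
  have hκa : ∀ z : ℂ, ‖z‖ < Real.exp (-2 * Real.pi * c) → AnalyticAt ℂ κ z := by
    intro z hz
    refine DifferentiableOn.analyticAt (s := {z : ℂ | ‖z‖ < Real.exp (-2 * Real.pi * c)}) ?_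
      (hopen.mem_nhds hz)
    intro w hw
    exact (hκd w hw).differentiableWithinAt
  have hhol : ∀ z : ℂ, ‖z‖ < Real.exp (-2 * Real.pi * c) → HolAt (fun z => M' (κ z : P)) z := by
    intro z hz
    exact (hM' _).comp (HolAt.coe (holAt_iff_analyticAt.mpr (hκa z hz)))
  have heq : ∀ s : ℂ, c < s.im → M' (κ (q s) : P) = G s := by
    intro s hs
    rw [hκq, hGu s hs]
  set K : ℂ → P := fun z => M' (κ z : P) with hK
  -- injectivity off `0`
  have hinj0 : ∀ z z' : ℂ, ‖z‖ < Real.exp (-2 * Real.pi * c) →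
      ‖z'‖ < Real.exp (-2 * Real.pi * c) → z ≠ 0 → z' ≠ 0 → K z = K z' → z = z' := by
    intro z z' hz hz' hz0 hz0' h
    obtain ⟨s, rfl⟩ := exists_q hz0
    obtain ⟨s', rfl⟩ := exists_q hz0'
    rw [norm_q_lt_iff] at hz hz'
    have h5 : G s = G s' := by
      rw [← heq s hz, ← heq s' hz']; exact h
    obtain ⟨j, rfl⟩ := h3 s s' hz hz' h5
    rw [q_add_int]
  have hr : 0 < Real.exp (-2 * Real.pi * c) := Real.exp_pos _
  have hmap0 : map K (𝓝 0) = 𝓝 (K 0) := by
    apply (hhol 0 (by rw [norm_zero]; exact hr)).map_nhds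
    intro h
    obtain ⟨δ, hδ, hball⟩ := Metric.eventually_nhds_iff_ball.mp h
    set t : ℝ := min δ (Real.exp (-2 * Real.pi * c)) with ht
    have htp : 0 < t := lt_min hδ hr
    have e1 : ((t / 2 : ℝ) : ℂ) ∈ Metric.ball (0 : ℂ) δ := by
      rw [mem_ball_zero_iff, Complex.norm_real, Real.norm_eq_abs, abs_of_pos (by positivity)]
      exact lt_of_lt_of_le (by linarith) (min_le_left δ (Real.exp (-2 * Real.pi * c)))
    have e2 : ((t / 3 : ℝ) : ℂ) ∈ Metric.ball (0 : ℂ) δ := by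
      rw [mem_ball_zero_iff, Complex.norm_real, Real.norm_eq_abs, abs_of_pos (by positivity)]
      exact lt_of_lt_of_le (by linarith) (min_le_left δ (Real.exp (-2 * Real.pi * c)))
    have h5 : K ((t / 2 : ℝ) : ℂ) = K ((t / 3 : ℝ) : ℂ) := by
      rw [hball _ e1, hball _ e2]
    have h6 := hinj0 _ _ ?_ ?_ ?_ ?_ h5
    · have h7 : t / 2 = t / 3 := by exact_mod_cast h6
      linarith
    · rw [Complex.norm_real, Real.norm_eq_abs, abs_of_pos (by positivity)]
      exact lt_of_lt_of_le (by linarith) (min_le_right δ (Real.exp (-2 * Real.pi * c)))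
    · rw [Complex.norm_real, Real.norm_eq_abs, abs_of_pos (by positivity)]
      exact lt_of_lt_of_le (by linarith) (min_le_right δ (Real.exp (-2 * Real.pi * c)))
    · exact_mod_cast (by positivity : t / 2 ≠ 0)
    · exact_mod_cast (by positivity : t / 3 ≠ 0)
  have hzero : ∀ z : ℂ, ‖z‖ < Real.exp (-2 * Real.pi * c) → z ≠ 0 → K 0 ≠ K z := by
    intro z hz hz0 h
    have hzp : 0 < ‖z‖ := norm_pos_iff.mpr hz0
    set B : Set ℂ := {w | ‖z‖ / 2 < ‖w‖ ∧ ‖w‖ < Real.exp (-2 * Real.pi * c)} with hB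
    have hBo : IsOpen B := by
      apply IsOpen.and
      · exact isOpen_lt continuous_const continuous_norm
      · exact isOpen_lt continuous_norm continuous_const
    have hzB : z ∈ B := ⟨by linarith, hz⟩
    have hBinj : InjOn K B := by
      intro x hx y hy hxy
      refine hinj0 x y hx.2 hy.2 ?_ ?_ hxy
      · rw [← norm_pos_iff]; linarith [hx.1]
      · rw [← norm_pos_iff]; linarith [hy.1]
    have h5 : K '' B ∈ 𝓝 (K z) := by
      rw [← (hhol z hz).map_nhds_of_injOn (hBo.mem_nhds hzB) hBinj]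
      exact image_mem_map (hBo.mem_nhds hzB)
    set A : Set ℂ := {w | ‖w‖ < ‖z‖ / 2} with hA
    have hAo : IsOpen A := isOpen_lt continuous_norm continuous_const
    have h0A : (0 : ℂ) ∈ A := by
      show ‖(0 : ℂ)‖ < ‖z‖ / 2
      rw [norm_zero]; linarith
    have h6 : K '' A ∈ 𝓝 (K 0) := by
      rw [← hmap0]
      exact image_mem_map (hAo.mem_nhds h0A)
    rw [← h] at h5
    have h7 : ∀ᶠ p in 𝓝[≠] (K 0), p ∈ K '' A ∩ K '' B :=
      nhdsWithin_le_nhds (inter_mem h6 h5)
    have h8 : ∀ᶠ p in 𝓝[≠] (K 0), p ≠ K 0 := self_mem_nhdsWithin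
    obtain ⟨p, ⟨⟨x, hx, hxp⟩, ⟨y, hy, hyp⟩⟩, hp⟩ := (h7.and h8).exists
    have hx0 : x ≠ 0 := by
      rintro rfl
      exact hp hxp.symm
    have hy0 : y ≠ 0 := by
      rw [← norm_pos_iff]; linarith [hy.1]
    have hxA : ‖x‖ < ‖z‖ / 2 := hx
    have := hinj0 x y (by linarith) hy.2 hx0 hy0 (by rw [hxp, hyp])
    rw [this] at hxA
    linarith [hy.1]
  refine ⟨K, hhol, heq, ?_⟩
  intro z hz z' hz' h
  by_cases hz0 : z = 0
  · by_cases hz0' : z' = 0
    · rw [hz0, hz0']
    · rw [hz0] at h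
      exact absurd h (hzero z' hz' hz0')
  · by_cases hz0' : z' = 0
    · rw [hz0'] at h
      exact absurd h.symm (hzero z hz hz0)
    · exact hinj0 z z' hz hz' hz0 hz0' h

theorem EndData.map_nhds {G : ℂ → P} {c : ℝ} {K : ℂ → P} (h : EndData G c K) {z : ℂ}
    (hz : ‖z‖ < Real.exp (-2 * Real.pi * c)) : map K (𝓝 z) = 𝓝 (K z) := by
  have hopen : IsOpen {z : ℂ | ‖z‖ < Real.exp (-2 * Real.pi * c)} :=
    isOpen_lt continuous_norm continuous_const
  exact (h.hol z hz).map_nhds_of_injOn (hopen.mem_nhds hz) h.inj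

theorem EndData.zero_lt (c : ℝ) : ‖(0 : ℂ)‖ < Real.exp (-2 * Real.pi * c) := by
  rw [norm_zero]; exact Real.exp_pos _

/-- Points near the end point are values of `G` far up. -/
theorem EndData.eventually {G : ℂ → P} {c : ℝ} {K : ℂ → P} (h : EndData G c K) (Y : ℝ) :
    ∀ᶠ p in 𝓝[≠] (K 0), ∃ s : ℂ, Y < s.im ∧ c < s.im ∧ G s = p := by
  set A : Set ℂ := {z : ℂ | ‖z‖ < Real.exp (-2 * Real.pi * max c Y)} with hA
  have hAo : IsOpen A := isOpen_lt continuous_norm continuous_const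
  have h0A : (0 : ℂ) ∈ A := EndData.zero_lt _
  have h6 : K '' A ∈ 𝓝 (K 0) := by
    rw [← h.map_nhds (EndData.zero_lt c)]
    exact image_mem_map (hAo.mem_nhds h0A)
  have h7 : ∀ᶠ p in 𝓝[≠] (K 0), p ∈ K '' A := nhdsWithin_le_nhds h6
  have h8 : ∀ᶠ p in 𝓝[≠] (K 0), p ≠ K 0 := self_mem_nhdsWithin
  filter_upwards [h7, h8] with p hp1 hp2
  obtain ⟨z, hz, rfl⟩ := hp1
  have hz0 : z ≠ 0 := by
    rintro rfl
    exact hp2 rfl
  obtain ⟨s, rfl⟩ := exists_q hz0
  have h9 : max c Y < s.im := (norm_q_lt_iff _ s).mp hz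
  have h10 := lt_of_le_of_lt (le_max_left c Y) h9
  exact ⟨s, lt_of_le_of_lt (le_max_right c Y) h9, h10, (h.eq s h10).symm⟩

theorem EndData.conj {f : P → P} (hf : ∀ p, HolAt f p) {G : ℂ → P} {c : ℝ} {K : ℂ → P}
    (h : EndData G c K) {ρ : ℝ} (hG : ∀ s : ℂ, c < s.im → f (G s) = G (s + ρ)) {z : ℂ}
    (hz : ‖z‖ < Real.exp (-2 * Real.pi * c)) : f (K z) = K (q ρ * z) := by
  have hnρ : ‖q ρ‖ = 1 := (norm_q_eq_one_iff _).mpr (Complex.ofReal_im ρ)
  have key : ∀ z : ℂ, ‖z‖ < Real.exp (-2 * Real.pi * c) → z ≠ 0 → f (K z) = K (q ρ * z) := by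
    intro z hz hz0
    obtain ⟨s, rfl⟩ := exists_q hz0
    rw [norm_q_lt_iff] at hz
    rw [h.eq s hz, hG s hz, mul_comm, ← q_add, h.eq]
    simpa using hz
  by_cases hz0 : z = 0
  · have hopen : IsOpen {z : ℂ | ‖z‖ < Real.exp (-2 * Real.pi * c)} :=
      isOpen_lt continuous_norm continuous_const
    have c1 : Tendsto (fun z => f (K z)) (𝓝[≠] 0) (𝓝 (f (K 0))) := by
      have h5 : ContinuousAt (fun z => f (K z)) 0 :=
        ((hf _).comp (h.hol 0 (EndData.zero_lt c))).continuousAt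
      exact h5.tendsto.mono_left nhdsWithin_le_nhds
    have c2 : Tendsto (fun z => K (q ρ * z)) (𝓝[≠] 0) (𝓝 (K (q ρ * 0))) := by
      have h5 : ContinuousAt (fun z => K (q ρ * z)) 0 := by
        have h6 : ContinuousAt K (q ρ * 0) := by
          rw [mul_zero]
          exact (h.hol 0 (EndData.zero_lt c)).continuousAt
        exact ContinuousAt.comp' (g := K) h6 (continuous_const_mul _).continuousAt
      exact h5.tendsto.mono_left nhdsWithin_le_nhds
    have hev : ∀ᶠ z in 𝓝[≠] (0 : ℂ), f (K z) = K (q ρ * z) := by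
      have h5 : ∀ᶠ z in 𝓝[≠] (0 : ℂ), ‖z‖ < Real.exp (-2 * Real.pi * c) :=
        nhdsWithin_le_nhds (hopen.mem_nhds (EndData.zero_lt c))
      filter_upwards [h5, self_mem_nhdsWithin] with z hz hz'
      exact key z hz hz'
    rw [hz0]
    exact tendsto_nhds_unique_of_eventuallyEq c1 c2 hev
  · exact key z hz hz0

theorem EndData.iter {f : P → P} (hf : ∀ p, HolAt f p) {G : ℂ → P} {c : ℝ} {K : ℂ → P}
    (h : EndData G c K) {ρ : ℝ} (hG : ∀ s : ℂ, c < s.im → f (G s) = G (s + ρ)) (n : ℕ) {z : ℂ}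
    (hz : ‖z‖ < Real.exp (-2 * Real.pi * c)) : f^[n] (K z) = K (q ρ ^ n * z) := by
  have hnρ : ‖q ρ‖ = 1 := (norm_q_eq_one_iff _).mpr (Complex.ofReal_im ρ)
  induction n with
  | zero => simp
  | succ n ih =>
    rw [Function.iterate_succ_apply', ih, h.conj hf hG]
    · congr 1; ring
    · rw [norm_mul, norm_pow, hnρ, one_pow, one_mul]; exact hz

/-- The image of the disc is in the Fatou set. -/
theorem EndData.fatou {f : P → P} (hf : ∀ p, HolAt f p) {G : ℂ → P} {c : ℝ} {K : ℂ → P}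
    (h : EndData G c K) {ρ : ℝ} (hG : ∀ s : ℂ, c < s.im → f (G s) = G (s + ρ)) {z : ℂ}
    (hz : ‖z‖ < Real.exp (-2 * Real.pi * c) / 2) : K z ∈ FatouSet f := by
  have hnρ : ‖q ρ‖ = 1 := (norm_q_eq_one_iff _).mpr (Complex.ofReal_im ρ)
  have hr : 0 < Real.exp (-2 * Real.pi * c) := Real.exp_pos _
  set r := Real.exp (-2 * Real.pi * c) with hrdef
  have hBo : IsOpen {z : ℂ | ‖z‖ < r / 2} := isOpen_lt continuous_norm continuous_const
  refine ⟨K '' {z | ‖z‖ < r / 2}, ?_, ?_⟩
  · rw [← h.map_nhds (show ‖z‖ < Real.exp (-2 * Real.pi * c) by rw [← hrdef]; linarith)]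
    exact image_mem_map (hBo.mem_nhds hz)
  · rintro _ ⟨z1, hz1, rfl⟩ D hD hdiag
    have hz1' : ‖z1‖ < r / 2 := hz1
    -- uniform continuity
    obtain ⟨δ, hδ, hunif⟩ : ∃ δ > 0, ∀ x y : ℂ, ‖x‖ ≤ r / 2 → ‖y‖ ≤ r / 2 → dist x y < δ →
        (K x, K y) ∈ D := by
      set S : Set (ℂ × ℂ) := {p | ‖p.1‖ ≤ r / 2 ∧ ‖p.2‖ ≤ r / 2 ∧ (K p.1, K p.2) ∉ D} with hS
      have hKc : ContinuousOn K (Metric.closedBall 0 (r / 2)) := by
        intro x hx
        rw [mem_closedBall_zero_iff] at hx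
        exact (h.hol x (by rw [← hrdef]; linarith)).continuousAt.continuousWithinAt
      have hcpt : IsCompact S := by
        have hc1 : IsCompact (Metric.closedBall (0 : ℂ) (r / 2) ×ˢ
            Metric.closedBall (0 : ℂ) (r / 2)) :=
          (isCompact_closedBall _ _).prod (isCompact_closedBall _ _)
        have hc2 : ContinuousOn (fun p : ℂ × ℂ => (K p.1, K p.2))
            (Metric.closedBall (0 : ℂ) (r / 2) ×ˢ Metric.closedBall (0 : ℂ) (r / 2)) := by
          apply ContinuousOn.prodMk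
          · exact hKc.comp continuousOn_fst (fun p hp => hp.1)
          · exact hKc.comp continuousOn_snd (fun p hp => hp.2)
        have hc3 := hc2.preimage_isClosed_of_isClosed hc1.isClosed hD.isClosed_compl
        have hc4 : S = (Metric.closedBall (0 : ℂ) (r / 2) ×ˢ Metric.closedBall (0 : ℂ) (r / 2)) ∩
            (fun p : ℂ × ℂ => (K p.1, K p.2)) ⁻¹' Dᶜ := by
          ext p
          simp only [hS, Set.mem_ofPred_eq, mem_inter_iff, mem_prod, mem_closedBall_zero_iff,
            mem_preimage, mem_compl_iff, and_assoc]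
        rw [hc4]
        exact hc1.of_isClosed_subset hc3 inter_subset_left
      by_cases hne : S.Nonempty
      · obtain ⟨p0, hp0, hmin⟩ := hcpt.exists_isMinOn hne
          (f := fun p : ℂ × ℂ => dist p.1 p.2) (by fun_prop)
        refine ⟨dist p0.1 p0.2, ?_, ?_⟩
        · rw [gt_iff_lt, dist_pos]
          intro he
          apply hp0.2.2
          rw [he]; exact hdiag _
        · intro x y hx hy hxy
          by_contra hc
          have h5 : (x, y) ∈ S := ⟨hx, hy, hc⟩
          have h6 := isMinOn_iff.mp hmin _ h5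
          exact absurd hxy (not_lt.mpr h6)
      · refine ⟨1, one_pos, fun x y hx hy _ => ?_⟩
        by_contra hc
        exact hne ⟨(x, y), hx, hy, hc⟩
    have hA : {w : ℂ | ‖w‖ < r / 2} ∩ Metric.ball z1 δ ∈ 𝓝 z1 :=
      inter_mem (hBo.mem_nhds hz1) (Metric.ball_mem_nhds _ hδ)
    have hA2 : K '' ({w : ℂ | ‖w‖ < r / 2} ∩ Metric.ball z1 δ) ∈ 𝓝 (K z1) := by
      rw [← h.map_nhds (show ‖z1‖ < Real.exp (-2 * Real.pi * c) by rw [← hrdef]; linarith)]
      exact image_mem_map hA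
    filter_upwards [hA2] with y hy n
    obtain ⟨z2, ⟨hz2, hz2b⟩, rfl⟩ := hy
    have hz2' : ‖z2‖ < r / 2 := hz2
    rw [h.iter hf hG n (show ‖z1‖ < Real.exp (-2 * Real.pi * c) by rw [← hrdef]; linarith),
      h.iter hf hG n (show ‖z2‖ < Real.exp (-2 * Real.pi * c) by rw [← hrdef]; linarith)]
    apply hunif
    · rw [norm_mul, norm_pow, hnρ, one_pow, one_mul]; exact hz1'.le
    · rw [norm_mul, norm_pow, hnρ, one_pow, one_mul]; exact hz2'.le
    · rw [dist_eq_norm, ← mul_sub, norm_mul, norm_pow, hnρ, one_pow, one_mul, ← dist_eq_norm,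
        dist_comm]
      exact hz2b

theorem EndData.mem_component {f : P → P} (hf : ∀ p, HolAt f p) {G : ℂ → P} {c : ℝ} {K : ℂ → P}
    (h : EndData G c K) {ρ : ℝ} (hG : ∀ s : ℂ, c < s.im → f (G s) = G (s + ρ)) {z0 : P}
    (hU : ∀ s : ℂ, c < s.im → G s ∈ connectedComponentIn (FatouSet f) z0) :
    K 0 ∈ connectedComponentIn (FatouSet f) z0 := by
  have hr : 0 < Real.exp (-2 * Real.pi * c) := Real.exp_pos _
  set B := Metric.ball (0 : ℂ) (Real.exp (-2 * Real.pi * c) / 2) with hB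
  have hBpre : IsPreconnected B := (convex_ball _ _).isPreconnected
  have hKc : ContinuousOn K B := by
    intro x hx
    rw [hB, mem_ball_zero_iff] at hx
    exact (h.hol x (by linarith)).continuousAt.continuousWithinAt
  have h1 : IsPreconnected (K '' B) := hBpre.image K hKc
  have h2 : K '' B ⊆ FatouSet f := by
    rintro _ ⟨x, hx, rfl⟩
    rw [hB, mem_ball_zero_iff] at hx
    exact h.fatou hf hG hx
  -- a point of `U` in the image
  obtain ⟨y, hy⟩ := exists_gt (c + 1)
  obtain ⟨s, hs⟩ : ∃ s : ℂ, c + 1 < s.im := ⟨Complex.I * y, by simpa using hy⟩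
  have hsc : c < s.im := by linarith
  have hsB : q s ∈ B := by
    rw [hB, mem_ball_zero_iff]
    have h3 := (norm_q_lt_iff (c + 1) s).mpr hs
    refine lt_of_lt_of_le h3 ?_
    have h4 : -2 * Real.pi * (c + 1) = -2 * Real.pi * c + (-2 * Real.pi) := by ring
    rw [h4, Real.exp_add]
    have h5 : Real.exp (-2 * Real.pi) ≤ 1 / 2 := by
      have h6 : (2 : ℝ) ≤ Real.exp (2 * Real.pi) := by
        have h7 := Real.add_one_le_exp (2 * Real.pi)
        linarith [Real.pi_gt_three]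
      have h8 : Real.exp (-2 * Real.pi) = (Real.exp (2 * Real.pi))⁻¹ := by
        rw [← Real.exp_neg]; congr 1; ring
      rw [h8, inv_eq_one_div]
      exact one_div_le_one_div_of_le (by norm_num) h6
    calc Real.exp (-2 * Real.pi * c) * Real.exp (-2 * Real.pi)
        ≤ Real.exp (-2 * Real.pi * c) * (1 / 2) := by
          exact mul_le_mul_of_nonneg_left h5 hr.le
      _ = Real.exp (-2 * Real.pi * c) / 2 := by ring
  have h3 : K '' B ⊆ connectedComponentIn (FatouSet f) (G s) :=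
    h1.subset_connectedComponentIn ⟨q s, hsB, h.eq s hsc⟩ h2
  rw [connectedComponentIn_eq (hU s hsc)]
  exact h3 ⟨0, by rw [hB]; exact Metric.mem_ball_self (by linarith), rfl⟩

/-- Holomorphic, injective modulo translations: local injectivity. -/
theorem local_inj {G : ℂ → P} {D : Set ℂ} (hD : IsOpen D)
    (h4 : ∀ s ∈ D, ∀ s' ∈ D, G s = G s' → ∃ j : ℤ, s' = s + j) {s : ℂ} (hs : s ∈ D) :
    InjOn G (D ∩ Metric.ball s (1 / 2)) ∧ D ∩ Metric.ball s (1 / 2) ∈ 𝓝 s := by
  refine ⟨?_, inter_mem (hD.mem_nhds hs) (Metric.ball_mem_nhds _ (by norm_num))⟩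
  rintro x ⟨hx, hxb⟩ y ⟨hy, hyb⟩ hxy
  obtain ⟨j, hj⟩ := h4 x hx y hy hxy
  have h1 : dist x y < 1 := by
    calc dist x y ≤ dist x s + dist y s := dist_triangle_right _ _ _
      _ < 1 / 2 + 1 / 2 := add_lt_add hxb hyb
      _ = 1 := by norm_num
  have h2 : dist x y = |(j : ℝ)| := by
    rw [hj, dist_eq_norm]
    have : x - (x + j) = ((-j : ℝ) : ℂ) := by push_cast; ring
    rw [this, Complex.norm_real, norm_neg, Real.norm_eq_abs]
  rw [h2] at h1
  have h3 : |j| < 1 := by exact_mod_cast h1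
  have h5 : j = 0 := Int.abs_lt_one_iff.mp h3
  rw [hj, h5]; simp

theorem near {G : ℂ → P} {D : Set ℂ} (hD : IsOpen D) (h1 : ∀ s ∈ D, HolAt G s)
    (h4 : ∀ s ∈ D, ∀ s' ∈ D, G s = G s' → ∃ j : ℤ, s' = s + j) {s : ℂ} (hs : s ∈ D)
    {N : Set ℂ} (hN : N ∈ 𝓝 s) : ∀ᶠ p in 𝓝 (G s), ∃ s' ∈ D, s' ∈ N ∧ G s' = p := by
  obtain ⟨hi, hn⟩ := local_inj hD h4 hs
  have h5 : map G (𝓝 s) = 𝓝 (G s) := (h1 s hs).map_nhds_of_injOn hn hi
  have h6 : G '' (N ∩ D) ∈ 𝓝 (G s) := by
    rw [← h5]
    exact image_mem_map (inter_mem hN (hD.mem_nhds hs))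
  filter_upwards [h6] with p hp
  obtain ⟨s', ⟨h7, h8⟩, h9⟩ := hp
  exact ⟨s', h8, h7, h9⟩

theorem im_add_int (s : ℂ) (j : ℤ) : (s + j).im = s.im := by simp

end EndsAux

open EndsAux in
theorem linearizer_of_maximal {f : P → P} (hf : ∀ p, HolAt f p) (hni : ¬ Function.Injective f)
    {L : LinCurve f}
    (hU : GoodDomain f L (connectedComponentIn (FatouSet f) (L.G 0)))
    {a b : EReal} {G : ℂ → P} (ha : a ≤ (-L.ε : ℝ)) (hb : (L.ε : ℝ) ≤ b)
    (h1 : ∀ s : ℂ, a < (s.im : ℝ) → (s.im : ℝ) < b → HolAt G s ∧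
      G s ∈ connectedComponentIn (FatouSet f) (L.G 0) ∧ f (G s) = G (s + L.ρ))
    (h2 : ∀ s, G (s + 1) = G s) (h3 : ∀ s ∈ strip L.ε, G s = L.G s)
    (h4 : ∀ s s' : ℂ, a < (s.im : ℝ) → (s.im : ℝ) < b → a < (s'.im : ℝ) → (s'.im : ℝ) < b →
      G s = G s' → ∃ j : ℤ, s' = s + j)
    (h5 : connectedComponentIn (FatouSet f) (L.G 0) =
        G '' {s : ℂ | a < (s.im : ℝ) ∧ (s.im : ℝ) < b} ∨
        (b = ⊤ ∧ ∃ x ∈ connectedComponentIn (FatouSet f) (L.G 0),
          connectedComponentIn (FatouSet f) (L.G 0) = insert x (G '' {s : ℂ | a < (s.im : ℝ)}) ∧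
          (∀ s : ℂ, a < (s.im : ℝ) → G s ≠ x) ∧ Tendsto G (comap Complex.im atTop) (𝓝 x))) :
    ∃ φ : P → ℂ, IsLinearizer f (connectedComponentIn (FatouSet f) (L.G 0)) φ L.ρ ∧
      (range fun x : ℝ => L.G x) =
        {z | z ∈ connectedComponentIn (FatouSet f) (L.G 0) ∧ ‖φ z‖ = 1} := by
  classical
  set U := connectedComponentIn (FatouSet f) (L.G 0) with hUdef
  have hε := L.ε_pos
  set D : Set ℂ := {s : ℂ | a < (s.im : ℝ) ∧ (s.im : ℝ) < b} with hDdef
  have hD : IsOpen D := by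
    have hc : Continuous fun s : ℂ => ((s.im : ℝ) : EReal) :=
      continuous_coe_real_ereal.comp Complex.continuous_im
    exact (isOpen_lt continuous_const hc).inter (isOpen_lt hc continuous_const)
  have hDhol : ∀ s ∈ D, HolAt G s := fun s hs => (h1 s hs.1 hs.2).1
  have hDU : ∀ s ∈ D, G s ∈ U := fun s hs => (h1 s hs.1 hs.2).2.1
  have hDf : ∀ s ∈ D, f (G s) = G (s + L.ρ) := fun s hs => (h1 s hs.1 hs.2).2.2
  have hDinj : ∀ s ∈ D, ∀ s' ∈ D, G s = G s' → ∃ j : ℤ, s' = s + j :=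
    fun s hs s' hs' h => h4 s s' hs.1 hs.2 hs'.1 hs'.2 h
  have hstripD : strip L.ε ⊆ D := by
    intro s hs
    have hs' := abs_lt.mp (show |s.im| < L.ε from hs)
    exact ⟨lt_of_le_of_lt ha (EReal.coe_lt_coe_iff.mpr hs'.1),
      lt_of_lt_of_le (EReal.coe_lt_coe_iff.mpr hs'.2) hb⟩
  have h0strip : (0 : ℂ) ∈ strip L.ε := by simp [strip, hε]
  -- the neighbourhood omitted by the ends
  have hW : L.G '' strip L.ε ∈ 𝓝 (L.G 0) := by
    have := near hD hDhol hDinj (hstripD h0strip) ((isOpen_strip L.ε).mem_nhds h0strip)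
    rw [h3 0 h0strip] at this
    filter_upwards [this] with p hp
    obtain ⟨s', -, h6, rfl⟩ := hp
    exact ⟨s', h6, (h3 s' h6).symm⟩
  have hWout : ∀ s ∈ D, L.ε < |s.im| → G s ∉ L.G '' strip L.ε := by
    rintro s hs hs2 ⟨s', hs', h6⟩
    rw [← h3 s' hs'] at h6
    obtain ⟨j, hj⟩ := hDinj s' (hstripD hs') s hs h6
    rw [hj, im_add_int] at hs2
    exact absurd hs2 (not_lt.mpr (le_of_lt hs'))
  -- the lower end
  have habot : a ≠ ⊥ := by
    intro hbot
    have hneg : ∀ s : ℂ, L.ε < s.im → -s ∈ D := by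
      intro s hs
      refine ⟨by rw [hbot]; exact EReal.bot_lt_coe _, lt_of_lt_of_le ?_ hb⟩
      rw [EReal.coe_lt_coe_iff, Complex.neg_im]; linarith
    have e1 : ∀ s : ℂ, L.ε < s.im → HolAt (fun s => G (-s)) s := by
      intro s hs
      refine HolAt.comp (g := G) (f := fun s : ℂ => -s) (hDhol _ (hneg s hs)) ?_
      rw [holAt_iff_analyticAt]
      fun_prop
    have e2 : ∀ s : ℂ, G (-(s + 1)) = G (-s) := by
      intro s
      rw [← h2 (-(s + 1))]; congr 1; ring
    have e3 : ∀ s s' : ℂ, L.ε < s.im → L.ε < s'.im → G (-s) = G (-s') →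
        ∃ j : ℤ, s' = s + j := by
      intro s s' hs hs' h
      obtain ⟨j, hj⟩ := hDinj _ (hneg s hs) _ (hneg s' hs') h
      refine ⟨-j, ?_⟩
      have : s' = -(-s') := by ring
      rw [this, hj]; push_cast; ring
    have e4 : ∀ s : ℂ, L.ε < s.im → G (-s) ∉ L.G '' strip L.ε := by
      intro s hs
      apply hWout _ (hneg s hs)
      rw [Complex.neg_im, abs_neg, abs_of_pos (by linarith)]; exact hs
    obtain ⟨K, hK⟩ := exists_end (G := fun s => G (-s)) e1 e2 e3 hW e4
    have e5 : ∀ s : ℂ, L.ε < s.im → f (G (-s)) = G (-(s + ((-L.ρ : ℝ) : ℂ))) := by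
      intro s hs
      rw [hDf _ (hneg s hs)]; congr 1; push_cast; ring
    have e6 : K 0 ∈ U := hK.mem_component hf (ρ := -L.ρ) e5 (fun s hs => hDU _ (hneg s hs))
    -- `K 0` is not a value of `G`
    have e7 : ∀ s1 ∈ D, K 0 ≠ G s1 := by
      intro s1 hs1 h
      have e8 := hK.eventually (-s1.im + 1)
      have e9 := near hD hDhol hDinj hs1
        (N := {s : ℂ | s1.im - 1 < s.im}) ((isOpen_lt continuous_const
          Complex.continuous_im).mem_nhds (by simp))
      rw [← h] at e9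
      have e10 := e9.filter_mono (nhdsWithin_le_nhds (a := K 0) (s := {K 0}ᶜ))
      obtain ⟨p, ⟨s, hsY, hsε, hsp⟩, ⟨s', hs'D, hs'N, hs'p⟩⟩ := (e8.and e10).exists
      obtain ⟨j, hj⟩ := hDinj _ (hneg s hsε) s' hs'D (by rw [hs'p]; exact hsp)
      have e11 : s'.im = -s.im := by rw [hj, im_add_int, Complex.neg_im]
      have e12 : s1.im - 1 < s'.im := hs'N
      linarith
    rcases h5 with h5 | ⟨hbt, x, hxU, hxeq, hxne, hxlim⟩
    · rw [h5] at e6
      obtain ⟨s1, hs1, h6⟩ := e6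
      exact e7 s1 hs1 h6.symm
    · have hx : K 0 = x := by
        rw [hxeq] at e6
        rcases e6 with e6 | ⟨s1, hs1, h6⟩
        · exact e6
        · exact absurd h6.symm (e7 s1 ⟨hs1, by rw [hbt]; exact EReal.coe_lt_top _⟩)
      have e8 := hK.eventually 0
      have e9 : Tendsto G (comap Complex.im atTop) (𝓝[≠] x) := by
        refine tendsto_nhdsWithin_iff.mpr ⟨hxlim, Eventually.of_forall fun s => ?_⟩
        exact hxne s (by rw [hbot]; exact EReal.bot_lt_coe _)
      rw [← hx] at e9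
      have e10 := e9.eventually e8
      have e11 : ∀ᶠ s : ℂ in comap Complex.im atTop, 0 < s.im := (eventually_gt_atTop 0).comap _
      have : (comap Complex.im atTop).NeBot := by
        apply NeBot.comap_of_range_mem inferInstance
        rw [Complex.range_im]; exact univ_mem
      obtain ⟨s, ⟨s', hs'0, hs'ε, hs'p⟩, hs0⟩ := (e10.and e11).exists
      have hsD : s ∈ D := ⟨by rw [hbot]; exact EReal.bot_lt_coe _,
        by rw [hbt]; exact EReal.coe_lt_top _⟩
      obtain ⟨j, hj⟩ := hDinj _ (hneg s' hs'ε) s hsD hs'p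
      have e12 : s.im = -s'.im := by rw [hj, im_add_int, Complex.neg_im]
      linarith
  -- the upper end
  have hupper : b = ⊤ → ∃ K, EndData G L.ε K := by
    intro hbt
    have hpos : ∀ s : ℂ, L.ε < s.im → s ∈ D := by
      intro s hs
      refine ⟨lt_of_le_of_lt ha ?_, by rw [hbt]; exact EReal.coe_lt_top _⟩
      rw [EReal.coe_lt_coe_iff]; linarith
    exact exists_end (fun s hs => hDhol _ (hpos s hs)) h2
      (fun s s' hs hs' h => hDinj _ (hpos s hs) _ (hpos s' hs') h) hW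
      (fun s hs => hWout _ (hpos s hs) (by rw [abs_of_pos (by linarith)]; exact hs))
  have hbtop : U = G '' D → b ≠ ⊤ := by
    intro hUD hbt
    have hpos : ∀ s : ℂ, L.ε < s.im → s ∈ D := by
      intro s hs
      refine ⟨lt_of_le_of_lt ha ?_, by rw [hbt]; exact EReal.coe_lt_top _⟩
      rw [EReal.coe_lt_coe_iff]; linarith
    obtain ⟨K, hK⟩ := hupper hbt
    have e6 : K 0 ∈ U := hK.mem_component hf (ρ := L.ρ) (fun s hs => hDf _ (hpos s hs))
      (fun s hs => hDU _ (hpos s hs))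
    rw [hUD] at e6
    obtain ⟨s1, hs1, h⟩ := e6
    have e8 := hK.eventually (s1.im + 1)
    have e9 := near hD hDhol hDinj hs1
      (N := {s : ℂ | s.im < s1.im + 1}) ((isOpen_lt Complex.continuous_im
        continuous_const).mem_nhds (by simp))
    rw [h] at e9
    have e10 := e9.filter_mono (nhdsWithin_le_nhds (a := K 0) (s := {K 0}ᶜ))
    obtain ⟨p, ⟨s, hsY, hsε, hsp⟩, ⟨s', hs'D, hs'N, hs'p⟩⟩ := (e8.and e10).exists
    obtain ⟨j, hj⟩ := hDinj _ (hpos s hsε) s' hs'D (by rw [hs'p]; exact hsp)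
    have e11 : s'.im = s.im := by rw [hj, im_add_int]
    have e12 : s'.im < s1.im + 1 := hs'N
    linarith
  -- real end points
  obtain ⟨a0, rfl⟩ : ∃ a0 : ℝ, a = (a0 : EReal) := by
    have hatop : a ≠ ⊤ := by
      rintro rfl
      exact absurd ha (not_le.mpr (EReal.coe_lt_top _))
    exact ⟨a.toReal, (EReal.coe_toReal hatop habot).symm⟩
  have ha0 : a0 ≤ -L.ε := EReal.coe_le_coe_iff.mp ha
  have hDreal : ∀ x : ℝ, ((x : ℂ)) ∈ D := fun x => hstripD (by simp [strip, hε])
  -- the linearizer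
  let φ : P → ℂ := fun z => if h : ∃ s ∈ D, G s = z then q h.choose else 0
  have hφ : ∀ s ∈ D, φ (G s) = q s := by
    intro s hs
    have hex : ∃ s' ∈ D, G s' = G s := ⟨s, hs, rfl⟩
    have e1 : φ (G s) = q hex.choose := dif_pos hex
    rw [e1]
    obtain ⟨e2, e3⟩ := hex.choose_spec
    obtain ⟨j, hj⟩ := hDinj _ e2 _ hs e3
    exact (q_add_int _ j).symm.trans (congrArg q hj.symm)
  have hφhol : ∀ s ∈ D, HolAt φ (G s) := by
    intro s hs
    obtain ⟨hi, hn⟩ := local_inj hD hDinj hs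
    set B := D ∩ Metric.ball s (1 / 2) with hB
    have hBo : IsOpen B := hD.inter Metric.isOpen_ball
    have hsB : s ∈ B := mem_of_mem_nhds hn
    have e1 : ∀ x ∈ B, Function.invFunOn G B (G x) = x := fun x hx => hi.leftInvOn_invFunOn hx
    have e2 : HolAt (Function.invFunOn G B) (G s) :=
      holAt_leftInverse hBo (fun x hx => hDhol x hx.1) e1 hsB
    have e3 : HolAt (fun z => q (Function.invFunOn G B z)) (G s) := by
      refine HolAt.comp_analyticAt (g := q) ?_ e2
      unfold q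
      fun_prop
    refine e3.congr ?_
    have e4 : G '' B ∈ 𝓝 (G s) := by
      rw [← (hDhol s hs).map_nhds_of_injOn hn hi]
      exact image_mem_map hn
    filter_upwards [e4] with z hz
    obtain ⟨x, hx, rfl⟩ := hz
    rw [e1 x hx, hφ x hx.1]
  have hcomp : ∃ z ∈ FatouSet f, U = connectedComponentIn (FatouSet f) z :=
    ⟨L.G 0, connectedComponentIn_subset _ _ (hU.mem 0 h0strip), rfl⟩
  have hconjD : ∀ s ∈ D, φ (f (G s)) = Complex.exp (2 * Real.pi * Complex.I * L.ρ) * φ (G s) := by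
    intro s hs
    rw [hDf s hs, hφ s hs]
    have e1 : s + (L.ρ : ℂ) ∈ D := by
      have : (s + (L.ρ : ℂ)).im = s.im := by simp
      show _ ∧ _
      rw [this]; exact hs
    rw [hφ _ e1, q_add, mul_comm]
    rfl
  have hcurve : (∀ z ∈ U, ‖φ z‖ = 1 → ∃ s ∈ D, G s = z) →
      (range fun x : ℝ => L.G x) = {z | z ∈ U ∧ ‖φ z‖ = 1} := by
    intro hz1
    ext z
    constructor
    · rintro ⟨x, rfl⟩
      beta_reduce
      have e1 : (x : ℂ) ∈ strip L.ε := by simp [strip, hε]
      refine ⟨hU.mem _ e1, ?_⟩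
      rw [← h3 _ e1, hφ _ (hstripD e1), norm_q_eq_one_iff]
      simp
    · rintro ⟨hzU, hz⟩
      obtain ⟨s, hs, rfl⟩ := hz1 z hzU hz
      rw [hφ s hs, norm_q_eq_one_iff] at hz
      refine ⟨s.re, ?_⟩
      have e1 : ((s.re : ℝ) : ℂ) = s := by
        apply Complex.ext <;> simp [hz]
      beta_reduce
      rw [e1, h3 s (by simp [strip, hz, hε])]
  rcases h5 with h5 | ⟨hbt, x, hxU, hxeq, hxne, hxlim⟩
  · -- annulus
    have hbt := hbtop h5
    obtain ⟨b0, rfl⟩ : ∃ b0 : ℝ, b = (b0 : EReal) := by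
      have hbbot : b ≠ ⊥ := by
        rintro rfl
        exact absurd hb (not_le.mpr (EReal.bot_lt_coe _))
      exact ⟨b.toReal, (EReal.coe_toReal hbt hbbot).symm⟩
    have hb0 : L.ε ≤ b0 := EReal.coe_le_coe_iff.mp hb
    have hmemD : ∀ s : ℂ, s ∈ D ↔ a0 < s.im ∧ s.im < b0 := by
      intro s
      show ((a0 : EReal) < (s.im : ℝ) ∧ ((s.im : ℝ) : EReal) < (b0 : EReal)) ↔ _
      rw [EReal.coe_lt_coe_iff, EReal.coe_lt_coe_iff]
    refine ⟨φ, ⟨hcomp, hU.image, ?_, ?_, ?_, L.irr, Or.inr ?_⟩, hcurve ?_⟩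
    · intro z hz
      rw [h5] at hz
      obtain ⟨s, hs, rfl⟩ := hz
      exact hφhol s hs
    · intro z hz z' hz' h
      rw [h5] at hz hz'
      obtain ⟨s, hs, rfl⟩ := hz
      obtain ⟨s', hs', rfl⟩ := hz'
      rw [hφ s hs, hφ s' hs'] at h
      obtain ⟨j, rfl⟩ := q_inj h
      exact (per_int h2 j s).symm
    · intro z hz
      rw [h5] at hz
      obtain ⟨s, hs, rfl⟩ := hz
      exact hconjD s hs
    · refine ⟨Real.exp (-2 * Real.pi * b0), Real.exp (-2 * Real.pi * a0), Real.exp_pos _, ?_, ?_⟩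
      · rw [Real.exp_lt_exp]
        have := Real.pi_pos
        nlinarith
      · rw [h5]
        ext w
        constructor
        · rintro ⟨_, ⟨s, hs, rfl⟩, rfl⟩
          rw [hφ s hs]
          rw [hmemD] at hs
          exact ⟨(lt_norm_q_iff _ _).mpr hs.2, (norm_q_lt_iff _ _).mpr hs.1⟩
        · rintro ⟨hw1, hw2⟩
          have hw0 : w ≠ 0 := by
            rw [← norm_pos_iff]
            exact lt_trans (Real.exp_pos _) hw1
          obtain ⟨s, rfl⟩ := exists_q hw0
          rw [lt_norm_q_iff] at hw1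
          rw [norm_q_lt_iff] at hw2
          have hs : s ∈ D := (hmemD s).mpr ⟨hw2, hw1⟩
          exact ⟨G s, ⟨s, hs, rfl⟩, hφ s hs⟩
    · intro z hz _
      rw [h5] at hz
      exact hz
  · -- disc
    have hmemD : ∀ s : ℂ, s ∈ D ↔ a0 < s.im := by
      intro s
      constructor
      · rintro ⟨h6, -⟩
        exact EReal.coe_lt_coe_iff.mp h6
      · intro h6
        exact ⟨EReal.coe_lt_coe_iff.mpr h6, by rw [hbt]; exact EReal.coe_lt_top _⟩
    have hxeq' : ∀ z, z ∈ U ↔ z = x ∨ ∃ s ∈ D, G s = z := by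
      intro z
      rw [hxeq]
      constructor
      · rintro (h6 | ⟨s, hs, h6⟩)
        · exact Or.inl h6
        · exact Or.inr ⟨s, (hmemD s).mpr (EReal.coe_lt_coe_iff.mp hs), h6⟩
      · rintro (h6 | ⟨s, hs, h6⟩)
        · exact Or.inl h6
        · exact Or.inr ⟨s, hs.1, h6⟩
    have hφx : φ x = 0 := by
      refine dif_neg ?_
      rintro ⟨s, hs, h6⟩
      exact hxne s hs.1 h6
    obtain ⟨K, hK⟩ := hupper hbt
    have : (comap Complex.im atTop).NeBot := by
      apply NeBot.comap_of_range_mem inferInstance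
      rw [Complex.range_im]; exact univ_mem
    have hqt : Tendsto q (comap Complex.im atTop) (𝓝 0) := by
      have := Function.Periodic.qParam_tendsto (h := 1) one_pos
      have e1 : q = Function.Periodic.qParam 1 := funext q_eq
      rw [e1]
      exact this.mono_right nhdsWithin_le_nhds
    have hKx : K 0 = x := by
      have e1 : Tendsto (fun s => K (q s)) (comap Complex.im atTop) (𝓝 (K 0)) :=
        ((hK.hol 0 (EndData.zero_lt _)).continuousAt.tendsto).comp hqt
      have e2 : (fun s => K (q s)) =ᶠ[comap Complex.im atTop] G := by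
        have e3 : ∀ᶠ s : ℂ in comap Complex.im atTop, L.ε < s.im :=
          (eventually_gt_atTop L.ε).comap _
        filter_upwards [e3] with s hs
        exact hK.eq s hs
      exact tendsto_nhds_unique_of_eventuallyEq e1 hxlim e2
    have hφxhol : HolAt φ x := by
      have hopen : IsOpen {z : ℂ | ‖z‖ < Real.exp (-2 * Real.pi * L.ε)} :=
        isOpen_lt continuous_norm continuous_const
      rw [← hKx]
      refine holAt_leftInverse hopen (fun z hz => hK.hol z hz) ?_ (EndData.zero_lt _)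
      intro z hz
      by_cases hz0 : z = 0
      · rw [hz0, hKx, hφx]
      · obtain ⟨s, rfl⟩ := exists_q hz0
        have hs : L.ε < s.im := (norm_q_lt_iff _ _).mp hz
        rw [hK.eq s hs, hφ s ((hmemD s).mpr (by linarith))]
    have hfx : f x = x := by
      have e1 : Tendsto (fun s => f (G s)) (comap Complex.im atTop) (𝓝 (f x)) :=
        ((hf x).continuousAt.tendsto).comp hxlim
      have e2 : Tendsto (fun s : ℂ => s + (L.ρ : ℂ)) (comap Complex.im atTop)
          (comap Complex.im atTop) := by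
        rw [tendsto_comap_iff]
        have e3 : (Complex.im ∘ fun s : ℂ => s + (L.ρ : ℂ)) = Complex.im := by
          funext s; simp
        rw [e3]
        exact tendsto_comap
      have e3 : Tendsto (fun s => G (s + (L.ρ : ℂ))) (comap Complex.im atTop) (𝓝 x) :=
        hxlim.comp e2
      have e4 : (fun s => f (G s)) =ᶠ[comap Complex.im atTop] fun s => G (s + (L.ρ : ℂ)) := by
        have e5 : ∀ᶠ s : ℂ in comap Complex.im atTop, a0 < s.im :=
          (eventually_gt_atTop a0).comap _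
        filter_upwards [e5] with s hs
        exact hDf s ((hmemD s).mpr hs)
      exact tendsto_nhds_unique_of_eventuallyEq e1 e3 e4
    refine ⟨φ, ⟨hcomp, hU.image, ?_, ?_, ?_, L.irr, Or.inl ?_⟩, hcurve ?_⟩
    · intro z hz
      rcases (hxeq' z).mp hz with rfl | ⟨s, hs, rfl⟩
      · exact hφxhol
      · exact hφhol s hs
    · intro z hz z' hz' h
      rcases (hxeq' z).mp hz with rfl | ⟨s, hs, rfl⟩
      · rcases (hxeq' z').mp hz' with rfl | ⟨s', hs', rfl⟩
        · rfl
        · rw [hφx, hφ s' hs'] at h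
          exact absurd h.symm (q_ne_zero _)
      · rcases (hxeq' z').mp hz' with rfl | ⟨s', hs', rfl⟩
        · rw [hφx, hφ s hs] at h
          exact absurd h (q_ne_zero _)
        · rw [hφ s hs, hφ s' hs'] at h
          obtain ⟨j, rfl⟩ := q_inj h
          exact (per_int h2 j s).symm
    · intro z hz
      rcases (hxeq' z).mp hz with rfl | ⟨s, hs, rfl⟩
      · rw [hfx, hφx, mul_zero]
      · exact hconjD s hs
    · refine ⟨Real.exp (-2 * Real.pi * a0), Real.exp_pos _, ?_⟩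
      ext w
      constructor
      · rintro ⟨z, hz, rfl⟩
        rcases (hxeq' z).mp hz with rfl | ⟨s, hs, rfl⟩
        · show ‖φ z‖ < _
          rw [hφx, norm_zero]; exact Real.exp_pos _
        · show ‖φ (G s)‖ < _
          rw [hφ s hs]
          exact (norm_q_lt_iff _ _).mpr ((hmemD s).mp hs)
      · intro hw
        by_cases hw0 : w = 0
        · exact ⟨x, hxU, by rw [hφx, hw0]⟩
        · obtain ⟨s, rfl⟩ := exists_q hw0
          have hs : s ∈ D := (hmemD s).mpr ((norm_q_lt_iff _ _).mp hw)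
          exact ⟨G s, hDU s hs, hφ s hs⟩
    · intro z hz hz1
      rcases (hxeq' z).mp hz with rfl | h6
      · rw [hφx, norm_zero] at hz1
        exact absurd hz1 (by norm_num)
      · exact h6

end Pool.Agent.Lib.MP_1f4a82_an
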