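import Pool.Agent.Lib.MP_1f4a82_an.Basic

/-!
Elementary lemmas on lines in Riemann surfaces and their sides.
-/

open Topology Filter Set

namespace Pool.Agent.Lib.MP_1f4a82_an

variable {X : Type} [TopologicalSpace X] [RS X]

theorem isOpen_strip (η : ℝ) : IsOpen (strip η) := by
  have : strip η = (fun s : ℂ => |s.im|) ⁻¹' (Iio η) := rfl
  rw [this]
  exact isOpen_Iio.preimage (by fun_prop)

theorem ball_subset_strip {η : ℝ} {x : ℝ} {r : ℝ} (hr : r ≤ η) :
    Metric.ball (x : ℂ) r ⊆ strip η := by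
  intro s hs
  rw [Metric.mem_ball, dist_eq_norm] at hs
  have h1 : |(s - x).im| ≤ ‖s - x‖ := Complex.abs_im_le_norm _
  have h2 : (s - x).im = s.im := by simp
  rw [h2] at h1
  exact lt_of_le_of_lt h1 (lt_of_lt_of_le hs hr)

theorem Line.injOn_ball (L : Line X) {x : ℝ} {r : ℝ} (hr : r ≤ L.η) (hr2 : r ≤ 1 / 2) :
    InjOn L.γ (Metric.ball (x : ℂ) r) := by
  intro s hs s' hs' h
  obtain ⟨k, hk, -⟩ := L.inj s (ball_subset_strip hr hs) s' (ball_subset_strip hr hs') h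
  have h1 : dist s s' < 1 := by
    calc dist s s' ≤ dist s x + dist s' x := dist_triangle_right _ _ _
      _ < r + r := add_lt_add hs hs'
      _ ≤ 1 := by linarith
  have h2 : dist s s' = |(k : ℝ)| := by
    rw [hk, dist_eq_norm]
    have : s - (s + k) = ((-k : ℝ) : ℂ) := by push_cast; ring
    rw [this, Complex.norm_real, norm_neg, Real.norm_eq_abs]
  rw [h2] at h1
  have h3 : |k| < 1 := by exact_mod_cast h1
  have h4 : k = 0 := Int.abs_lt_one_iff.mp h3
  rw [hk, h4]; simp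

theorem Line.mem_ell_iff (L : Line X) {s : ℂ} (hs : s ∈ strip L.η) :
    L.γ s ∈ L.ell ↔ s.im = 0 := by
  constructor
  · rintro ⟨x, hx⟩
    obtain ⟨k, hk, -⟩ := L.inj s hs (x : ℂ) (by simp [strip, L.η_pos]) hx.symm
    have : (x : ℂ).im = (s + k).im := by rw [hk]
    simpa using this.symm
  · intro h
    refine ⟨s.re, ?_⟩
    have : ((s.re : ℝ) : ℂ) = s := by
      apply Complex.ext <;> simp [h]
    simp only [this]

/-- The good radius. -/
noncomputable def Line.rad (L : Line X) : ℝ := min L.η (1 / 2)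

theorem Line.rad_pos (L : Line X) : 0 < L.rad := lt_min L.η_pos (by norm_num)
theorem Line.rad_le (L : Line X) : L.rad ≤ L.η := min_le_left _ _
theorem Line.rad_le' (L : Line X) : L.rad ≤ 1 / 2 := min_le_right _ _

theorem Line.injOn (L : Line X) (x : ℝ) : InjOn L.γ (Metric.ball (x : ℂ) L.rad) :=
  L.injOn_ball L.rad_le L.rad_le'

theorem Line.holAt (L : Line X) {x : ℝ} {s : ℂ} (hs : s ∈ Metric.ball (x : ℂ) L.rad) :
    HolAt L.γ s := L.hol s (ball_subset_strip L.rad_le hs)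

theorem Line.isOpen_image (L : Line X) (x : ℝ) {V : Set ℂ} (hV : IsOpen V)
    (h : V ⊆ Metric.ball (x : ℂ) L.rad) : IsOpen (L.γ '' V) :=
  isOpen_image_of_injOn Metric.isOpen_ball (fun _ hs => L.holAt hs) (L.injOn x) hV h

/-- local inverse of `γ` -/
theorem Line.exists_inverse (L : Line X) (x : ℝ) : ∃ g : X → ℂ,
    (∀ s ∈ Metric.ball (x : ℂ) L.rad, g (L.γ s) = s) ∧
    ∀ s ∈ Metric.ball (x : ℂ) L.rad, HolAt g (L.γ s) := by
  classical
  have h1 : ∀ s ∈ Metric.ball (x : ℂ) L.rad,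
      Function.invFunOn L.γ (Metric.ball (x : ℂ) L.rad) (L.γ s) = s := by
    intro s hs
    exact (L.injOn x).leftInvOn_invFunOn hs
  exact ⟨Function.invFunOn L.γ (Metric.ball (x : ℂ) L.rad), h1, fun s hs =>
    holAt_leftInverse Metric.isOpen_ball (fun _ hs => L.holAt hs) h1 hs⟩

theorem Line.real_mem_strip (L : Line X) (x : ℝ) : (x : ℂ) ∈ strip L.η := by
  simp [strip, L.η_pos]

theorem conj_mem_strip {η : ℝ} {s : ℂ} (hs : s ∈ strip η) : (starRingEnd ℂ) s ∈ strip η := by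
  simpa [strip] using hs

theorem Line.ell_eq_frontier {L : Line X} {Xp Xm : Set X} (h : L.Sides Xp Xm) :
    frontier Xp = L.ell := h.front_p

theorem Line.Sides.not_mem_ell {L : Line X} {Xp Xm : Set X} (h : L.Sides Xp Xm) {x : X} :
    x ∉ L.ell ↔ x ∈ Xp ∨ x ∈ Xm := by
  have := h.union
  constructor
  · intro hx
    have h2 : x ∈ Xp ∪ Xm := by rw [this]; exact hx
    exact h2
  · intro hx
    have h2 : x ∈ Xp ∪ Xm := hx
    rw [this] at h2; exact h2

theorem Line.Sides.not_mem_m {L : Line X} {Xp Xm : Set X} (h : L.Sides Xp Xm) {x : X}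
    (hx : x ∈ Xp) : x ∉ Xm := disjoint_left.mp h.disj hx

theorem Line.Sides.not_mem_p {L : Line X} {Xp Xm : Set X} (h : L.Sides Xp Xm) {x : X}
    (hx : x ∈ Xm) : x ∉ Xp := disjoint_right.mp h.disj hx

theorem Line.Sides.ell_not_p {L : Line X} {Xp Xm : Set X} (h : L.Sides Xp Xm) {x : X}
    (hx : x ∈ L.ell) : x ∉ Xp := fun h2 => h.not_mem_ell.mpr (Or.inl h2) hx

theorem Line.Sides.ell_not_m {L : Line X} {Xp Xm : Set X} (h : L.Sides Xp Xm) {x : X}
    (hx : x ∈ L.ell) : x ∉ Xm := fun h2 => h.not_mem_ell.mpr (Or.inr h2) hx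

theorem Line.Sides.cases {L : Line X} {Xp Xm : Set X} (h : L.Sides Xp Xm) (x : X) :
    x ∈ Xp ∨ x ∈ Xm ∨ x ∈ L.ell := by
  by_cases hx : x ∈ L.ell
  · exact Or.inr (Or.inr hx)
  · rcases h.not_mem_ell.mp hx with h1 | h1
    · exact Or.inl h1
    · exact Or.inr (Or.inl h1)

theorem Line.Sides.mem_p_iff {L : Line X} {Xp Xm : Set X} (h : L.Sides Xp Xm) {s : ℂ}
    (hs : s ∈ strip L.η) : L.γ s ∈ Xp ↔ 0 < s.im := by
  constructor
  · intro hp
    rcases lt_trichotomy 0 s.im with h1 | h1 | h1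
    · exact h1
    · exact absurd hp (h.ell_not_p ((L.mem_ell_iff hs).mpr h1.symm))
    · exact absurd hp (h.not_mem_p (h.down s hs h1))
  · exact h.up s hs

theorem Line.Sides.mem_m_iff {L : Line X} {Xp Xm : Set X} (h : L.Sides Xp Xm) {s : ℂ}
    (hs : s ∈ strip L.η) : L.γ s ∈ Xm ↔ s.im < 0 := by
  constructor
  · intro hp
    rcases lt_trichotomy s.im 0 with h1 | h1 | h1
    · exact h1
    · exact absurd hp (h.ell_not_m ((L.mem_ell_iff hs).mpr h1))
    · exact absurd hp (h.not_mem_m (h.up s hs h1))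
  · exact h.down s hs

/-- translated parametrisation near a point of the line -/
theorem Line.Sides.exists_param {L : Line X} {Xp Xm : Set X} (h : L.Sides Xp Xm) {x : X}
    (hx : x ∈ L.ell) : ∃ β : ℂ → X, ∃ r > 0, (∀ s ∈ Metric.ball (0 : ℂ) r, HolAt β s) ∧
      InjOn β (Metric.ball 0 r) ∧ β 0 = x ∧
      ∀ s ∈ Metric.ball (0 : ℂ) r, (β s ∈ Xp ↔ 0 < s.im) := by
  obtain ⟨x0, rfl⟩ := hx
  have hm : ∀ s ∈ Metric.ball (0 : ℂ) L.rad, (x0 : ℂ) + s ∈ Metric.ball (x0 : ℂ) L.rad := by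
    intro s hs
    rw [Metric.mem_ball, dist_eq_norm] at hs ⊢
    simpa using hs
  refine ⟨fun s => L.γ (x0 + s), L.rad, L.rad_pos, ?_, ?_, by simp, ?_⟩
  · intro s hs
    refine HolAt.comp (g := L.γ) (f := fun s : ℂ => (x0 : ℂ) + s) (L.holAt (hm s hs)) ?_
    rw [holAt_iff_analyticAt]
    fun_prop
  · intro s hs s' hs' h1
    have := L.injOn x0 (hm s hs) (hm s' hs') h1
    simpa using this
  · intro s hs
    have := h.mem_p_iff (ball_subset_strip L.rad_le (hm s hs))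
    simpa using this

/-- An antiholomorphic involution reflecting the line exchanges the sides. -/
theorem Line.Sides.swap {L : Line X} {Xp Xm : Set X} (h : L.Sides Xp Xm) {τ : X → X}
    (hτ : Continuous τ) (hττ : ∀ p, τ (τ p) = p)
    (hτγ : ∀ s ∈ strip L.η, τ (L.γ s) = L.γ ((starRingEnd ℂ) s)) :
    (∀ x ∈ Xp, τ x ∈ Xm) ∧ (∀ x ∈ Xm, τ x ∈ Xp) ∧ (∀ x ∈ L.ell, τ x = x) := by
  have hfix : ∀ x ∈ L.ell, τ x = x := by
    rintro x ⟨t, rfl⟩
    have := hτγ t (L.real_mem_strip t)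
    simpa using this
  have hnot : ∀ x, x ∉ L.ell → τ x ∉ L.ell := by
    intro x hx h1
    apply hx
    have h2 := hfix _ h1
    rw [hττ] at h2
    rw [h2]; exact h1
  have hI : (Complex.I * (L.η / 2 : ℝ) : ℂ) ∈ strip L.η := by
    simp only [strip, Set.mem_ofPred_eq]
    rw [Complex.I_mul_im, Complex.ofReal_re, abs_of_pos (by linarith [L.η_pos])]
    linarith [L.η_pos]
  have hIm : (Complex.I * (L.η / 2 : ℝ) : ℂ).im = L.η / 2 := by
    rw [Complex.I_mul_im, Complex.ofReal_re]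
  have hup := h.up _ hI (by rw [hIm]; linarith [L.η_pos])
  have hdn := h.down _ (conj_mem_strip hI) (by rw [Complex.conj_im, hIm]; linarith [L.η_pos])
  have hτup := hτγ _ hI
  have hτdn := hτγ _ (conj_mem_strip hI)
  rw [Complex.conj_conj] at hτdn
  refine ⟨?_, ?_, hfix⟩
  · have h1 : IsPreconnected (τ '' Xp) := h.conn_p.isPreconnected.image τ hτ.continuousOn
    have h2 : τ '' Xp ⊆ Xp ∪ Xm := by
      rintro _ ⟨x, hx, rfl⟩
      exact h.not_mem_ell.mp (hnot x (h.not_mem_ell.mpr (Or.inl hx)))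
    have h3 := h1.subset_right_of_subset_union h.open_p h.open_m h.disj h2
      ⟨_, ⟨_, hup, hτup⟩, hdn⟩
    intro x hx
    exact h3 ⟨x, hx, rfl⟩
  · have h1 : IsPreconnected (τ '' Xm) := h.conn_m.isPreconnected.image τ hτ.continuousOn
    have h2 : τ '' Xm ⊆ Xp ∪ Xm := by
      rintro _ ⟨x, hx, rfl⟩
      exact h.not_mem_ell.mp (hnot x (h.not_mem_ell.mpr (Or.inr hx)))
    have h3 := h1.subset_left_of_subset_union h.open_p h.open_m h.disj h2
      ⟨_, ⟨_, hdn, hτdn⟩, hup⟩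
    intro x hx
    exact h3 ⟨x, hx, rfl⟩

end Pool.Agent.Lib.MP_1f4a82_an
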