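import Pool.Agent.Lib.MP_1f4a82_an.MainDefs
import Pool.Agent.Lib.MP_1f4a82_an.Limits
import Pool.Agent.Lib.MP_1f4a82_an.LineLemmas

/-!
The Fatou set is open, contains every linearised invariant curve, and the component containing the
curve is a good domain (it is mapped bijectively to itself and the iterates are recurrent on it).
-/

open Topology Filter Set

namespace Pool.Agent.Lib.MP_1f4a82_an

namespace FatouAux

/-- Equicontinuity of the iterates at one point. -/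
def EQ (f : P → P) (x : P) : Prop :=
  ∀ D : Set (P × P), IsOpen D → (∀ p, (p, p) ∈ D) →
    ∀ᶠ y in 𝓝 x, ∀ n : ℕ, (f^[n] x, f^[n] y) ∈ D

theorem mem_fatouSet_iff {f : P → P} {z : P} : z ∈ FatouSet f ↔ ∀ᶠ x in 𝓝 z, EQ f x := by
  constructor
  · rintro ⟨W, hW, h⟩
    filter_upwards [hW] with x hx
    exact h x hx
  · intro h
    exact ⟨{x | EQ f x}, h, fun x hx => hx⟩

theorem EQ_of_mem {f : P → P} {z : P} (h : z ∈ FatouSet f) : EQ f z :=
  (mem_fatouSet_iff.mp h).self_of_nhds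

/-- Equicontinuity at `x`, used for two sets `K` (closed) inside `A` (open). -/
theorem EQ.eventually_mem {f : P → P} {x : P} (h : EQ f x) {K A : Set P} (hK : IsClosed K)
    (hA : IsOpen A) (hKA : K ⊆ A) :
    ∀ᶠ y in 𝓝 x, ∀ n : ℕ, f^[n] x ∈ K → f^[n] y ∈ A := by
  have hD : IsOpen ((K ×ˢ Aᶜ)ᶜ : Set (P × P)) :=
    (hK.prod hA.isClosed_compl).isOpen_compl
  filter_upwards [h _ hD (fun p hp => hp.2 (hKA hp.1))] with y hy n hn
  by_contra hc
  exact hy n ⟨hn, hc⟩

theorem holAt_iterate {f : P → P} (hf : ∀ p, HolAt f p) (n : ℕ) (p : P) : HolAt (f^[n]) p := by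
  induction n generalizing p with
  | zero => exact holAt_id p
  | succ n ih =>
    have h := (ih (f p)).comp (hf p)
    exact h

/-- Local representation of the iterates and their limit in charts. -/
theorem exists_local_rep {f : P → P} {x : P} (h : EQ f x) {l : Filter ℕ} [l.NeBot] {g : P → P}
    (hlim : ∀ᶠ z in 𝓝 x, Tendsto (fun n => f^[n] z) l (𝓝 (g z))) {N : Set P} (hN : N ∈ 𝓝 x) :
    ∃ e ∈ RS.atlas (X := P), ∃ e₁ ∈ RS.atlas (X := P), x ∈ e₁.source ∧ ∃ r > 0, ∃ M : ℝ,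
      Metric.ball (e₁ x) r ⊆ e₁.target ∧ (∀ w ∈ Metric.ball (e₁ x) r, e₁.symm w ∈ N) ∧
      (∀ᶠ n in l, ∀ w ∈ Metric.ball (e₁ x) r, f^[n] (e₁.symm w) ∈ e.source ∧
        ‖e (f^[n] (e₁.symm w))‖ ≤ M) ∧
      (∀ w ∈ Metric.ball (e₁ x) r, g (e₁.symm w) ∈ e.source ∧
        Tendsto (fun n => e (f^[n] (e₁.symm w))) l (𝓝 (e (g (e₁.symm w))))) := by
  obtain ⟨e, he, hye⟩ := RS.exists_chart (g x)
  obtain ⟨e₁, he₁, hx⟩ := RS.exists_chart x
  obtain ⟨R, hR, hR1, -, hR3, hR4⟩ := exists_disc (univ_mem (f := 𝓝 (g x))) hye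
  set A : Set P := e.symm '' Metric.ball (e (g x)) R with hA
  set K' : Set P := e.symm '' Metric.closedBall (e (g x)) R with hK'
  have hK'c : IsCompact K' :=
    (isCompact_closedBall _ _).image_of_continuousOn (e.continuousOn_symm.mono hR1)
  have hAK' : A ⊆ K' := image_mono Metric.ball_subset_closedBall
  have hK'e : K' ⊆ e.source := by
    rintro _ ⟨w, hw, rfl⟩
    exact e.map_target (hR1 hw)
  obtain ⟨K, hKn, hKc, hKA⟩ := exists_mem_nhds_isClosed_subset (hR3.mem_nhds hR4)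
  have h1 := h.eventually_mem hKc hR3 hKA
  have h2 : ∀ᶠ n in l, f^[n] x ∈ K := hlim.self_of_nhds.eventually_mem hKn
  have h3 : ∀ᶠ z in 𝓝 x, (∀ n : ℕ, f^[n] x ∈ K → f^[n] z ∈ A) ∧
      Tendsto (fun n => f^[n] z) l (𝓝 (g z)) ∧ z ∈ N := h1.and (hlim.and hN)
  obtain ⟨r, hr, hr1, hr2, -, -⟩ := exists_disc h3 hx
  refine ⟨e, he, e₁, he₁, hx, r, hr, ‖e (g x)‖ + R, Metric.ball_subset_closedBall.trans hr1,
    ?_, ?_, ?_⟩
  · intro w hw
    exact (hr2 ⟨w, Metric.ball_subset_closedBall hw, rfl⟩).2.2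
  · filter_upwards [h2] with n hn w hw
    have h4 := (hr2 ⟨w, Metric.ball_subset_closedBall hw, rfl⟩).1 n hn
    refine ⟨hK'e (hAK' h4), ?_⟩
    obtain ⟨v, hv, hv'⟩ := h4
    rw [← hv', e.right_inv (hR1 (Metric.ball_subset_closedBall hv))]
    rw [Metric.mem_ball, dist_eq_norm] at hv
    calc ‖v‖ = ‖e (g x) + (v - e (g x))‖ := by rw [add_sub_cancel]
      _ ≤ ‖e (g x)‖ + ‖v - e (g x)‖ := norm_add_le _ _
      _ ≤ ‖e (g x)‖ + R := by linarith
  · intro w hw
    have h4 := hr2 ⟨w, Metric.ball_subset_closedBall hw, rfl⟩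
    have h5 : g (e₁.symm w) ∈ K' := by
      refine hK'c.isClosed.mem_of_tendsto h4.2.1 ?_
      filter_upwards [h2] with n hn
      exact hAK' (h4.1 n hn)
    refine ⟨hK'e h5, ?_⟩
    exact ((e.continuousAt (hK'e h5)).tendsto).comp h4.2.1

theorem differentiableOn_rep {f : P → P} (hf : ∀ p, HolAt f p)
    {e e₁ : OpenPartialHomeomorph P ℂ} (he : e ∈ RS.atlas (X := P))
    (he₁ : e₁ ∈ RS.atlas (X := P)) {c : ℂ} {r : ℝ} (hb : Metric.ball c r ⊆ e₁.target) (n : ℕ)
    (hs : ∀ w ∈ Metric.ball c r, f^[n] (e₁.symm w) ∈ e.source) :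
    DifferentiableOn ℂ (fun w => e (f^[n] (e₁.symm w))) (Metric.ball c r) := by
  intro w hw
  have h1 := (holAt_iterate hf n (e₁.symm w)).2 e₁ he₁ e he (e₁.map_target (hb hw)) (hs w hw)
  rw [e₁.right_inv (hb hw)] at h1
  exact h1.differentiableAt.differentiableWithinAt

/-- Limits of iterates are holomorphic at points of equicontinuity. -/
theorem holAt_limit {f : P → P} (hf : ∀ p, HolAt f p) {x : P} (h : EQ f x) {l : Filter ℕ}
    [l.NeBot] {g : P → P} (hlim : ∀ᶠ z in 𝓝 x, Tendsto (fun n => f^[n] z) l (𝓝 (g z))) :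
    HolAt g x := by
  obtain ⟨e, he, e₁, he₁, hx, r, hr, M, hb, -, hM, hg⟩ := exists_local_rep h hlim univ_mem
  have hd : DifferentiableOn ℂ (fun w => e (g (e₁.symm w))) (Metric.ball (e₁ x) r) := by
    refine (tendstoLocallyUniformlyOn_of_bounded (l := l)
      (F := fun n w => e (f^[n] (e₁.symm w))) (M := M) Metric.isOpen_ball ?_ ?_ ?_).2
    · filter_upwards [hM] with n hn
      exact differentiableOn_rep hf he he₁ hb n fun w hw => (hn w hw).1
    · filter_upwards [hM] with n hn w hw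
      exact (hn w hw).2
    · intro w hw
      exact (hg w hw).2
  have ha : AnalyticAt ℂ (fun w => e (g (e₁.symm w))) (e₁ x) :=
    hd.analyticAt (Metric.isOpen_ball.mem_nhds (Metric.mem_ball_self hr))
  have h1 : HolAt (fun z => e (g (e₁.symm (e₁ z)))) x :=
    HolAt.comp (g := fun w => e (g (e₁.symm w))) (holAt_iff_analyticAt.mpr ha)
      (holAt_chart he₁ hx)
  have h2 : HolAt (fun z => e.symm (e (g (e₁.symm (e₁ z))))) x := by
    refine HolAt.comp (g := e.symm) ?_ h1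
    exact holAt_chart_symm he (e.map_source (hg _ (Metric.mem_ball_self hr)).1)
  refine h2.congr ?_
  have h3 : ∀ᶠ z in 𝓝 x, e₁ z ∈ Metric.ball (e₁ x) r :=
    (e₁.continuousAt hx).eventually_mem (Metric.ball_mem_nhds _ hr)
  filter_upwards [h3, e₁.open_source.mem_nhds hx] with z hz hz'
  have h4 := (hg _ hz).1
  rw [e₁.left_inv hz'] at h4 ⊢
  exact e.left_inv h4

/-- Hurwitz' theorem for limits of iterates. -/
theorem hurwitz_limit {f : P → P} (hf : ∀ p, HolAt f p) {x : P} (h : EQ f x) {l : Filter ℕ}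
    [l.NeBot] {g : P → P} (hlim : ∀ᶠ z in 𝓝 x, Tendsto (fun n => f^[n] z) l (𝓝 (g z)))
    {N : Set P} (hN : N ∈ 𝓝 x) (hne : ∀ᶠ n in l, ∀ z ∈ N, f^[n] z ≠ g x) :
    ∀ᶠ z in 𝓝 x, g z = g x := by
  obtain ⟨e, he, e₁, he₁, hx, r, hr, M, hb, hbN, hM, hg⟩ := exists_local_rep h hlim hN
  have hself := hg _ (Metric.mem_ball_self hr)
  rw [e₁.left_inv hx] at hself
  have h0 : ∀ w ∈ Metric.ball (e₁ x) r, e (g (e₁.symm w)) - e (g x) = 0 := by
    refine hurwitz_of_bounded (l := l) (F := fun n w => e (f^[n] (e₁.symm w)) - e (g x))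
      (M := M + ‖e (g x)‖) (z₀ := e₁ x) Metric.isOpen_ball
      (convex_ball _ _).isPreconnected ?_ ?_ ?_ ?_ (Metric.mem_ball_self hr) ?_
    · filter_upwards [hM] with n hn
      exact (differentiableOn_rep hf he he₁ hb n fun w hw => (hn w hw).1).sub_const _
    · filter_upwards [hM] with n hn w hw
      exact (norm_sub_le _ _).trans (by linarith [(hn w hw).2])
    · intro w hw
      exact (hg w hw).2.sub_const _
    · filter_upwards [hM, hne] with n hn hn' w hw h0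
      have h1 : e (f^[n] (e₁.symm w)) = e (g x) := sub_eq_zero.mp h0
      exact hn' _ (hbN w hw) (e.injOn (hn w hw).1 hself.1 h1)
    · rw [e₁.left_inv hx, sub_self]
  have h3 : ∀ᶠ z in 𝓝 x, e₁ z ∈ Metric.ball (e₁ x) r :=
    (e₁.continuousAt hx).eventually_mem (Metric.ball_mem_nhds _ hr)
  filter_upwards [h3, e₁.open_source.mem_nhds hx] with z hz hz'
  have h4 := (hg _ hz).1
  have h5 := h0 _ hz
  rw [e₁.left_inv hz'] at h4 h5
  exact e.injOn h4 hself.1 (sub_eq_zero.mp h5)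

/-! ### The linearised curve -/

section Curve

variable {f : P → P} (L : LinCurve f)

theorem add_real_mem {ε : ℝ} {s : ℂ} (hs : s ∈ strip ε) (t : ℝ) : s + t ∈ strip ε := by
  simp only [strip, mem_ofPred_eq, Complex.add_im, Complex.ofReal_im, add_zero] at hs ⊢
  exact hs

theorem per_int (s : ℂ) (k : ℤ) : L.G (s + k) = L.G s := by
  have hn : ∀ (n : ℕ) (s : ℂ), L.G (s + n) = L.G s := by
    intro n
    induction n with
    | zero => intro s; simp
    | succ n ih =>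
      intro s
      have : s + ((n + 1 : ℕ) : ℂ) = (s + n) + 1 := by push_cast; ring
      rw [this, L.per, ih]
  obtain ⟨n, rfl | rfl⟩ := k.eq_nat_or_neg
  · simpa using hn n s
  · have := hn n (s - n)
    rw [sub_add_cancel] at this
    rw [this]
    congr 1
    push_cast
    ring

theorem iterate_G {s : ℂ} (hs : s ∈ strip L.ε) (n : ℕ) :
    f^[n] (L.G s) = L.G (s + ((n * L.ρ : ℝ) : ℂ)) := by
  induction n with
  | zero => simp
  | succ n ih =>
    rw [Function.iterate_succ_apply', ih, L.semi _ (add_real_mem hs _)]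
    congr 1
    push_cast
    ring

theorem map_nhds_G {s : ℂ} (hs : s ∈ strip L.ε) : map L.G (𝓝 s) = 𝓝 (L.G s) := by
  refine (L.hol s hs).map_nhds_of_injOn (U := strip L.ε ∩ Metric.ball s (1 / 2))
    (inter_mem ((isOpen_strip _).mem_nhds hs) (Metric.ball_mem_nhds _ (by norm_num))) ?_
  rintro a ⟨ha, ha'⟩ b ⟨hb, hb'⟩ hab
  obtain ⟨k, hk⟩ := L.inj a ha b hb hab
  rw [Metric.mem_ball] at ha' hb'
  have h1 : dist a b < 1 := by
    calc dist a b ≤ dist a s + dist b s := dist_triangle_right _ _ _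
      _ < 1 := by linarith
  have h2 : (|k| : ℝ) < 1 := by
    have : dist a b = |(k : ℝ)| := by
      rw [hk, dist_eq_norm]
      have : a - (a + (k : ℂ)) = -((k : ℝ) : ℂ) := by push_cast; ring
      rw [this, norm_neg, Complex.norm_real, Real.norm_eq_abs]
    rw [this] at h1
    exact h1
  have h3 : k = 0 := by
    have : |k| < 1 := by exact_mod_cast h2
    exact Int.abs_lt_one_iff.mp this
  rw [hk, h3]
  simp

theorem G_fract (s : ℂ) (t : ℝ) : L.G (s + (t : ℂ)) = L.G (s + (Int.fract t : ℝ)) := by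
  have h : s + (t : ℂ) = (s + ((Int.fract t : ℝ) : ℂ)) + (⌊t⌋ : ℤ) := by
    have h1 : t = Int.fract t + ⌊t⌋ := (Int.fract_add_floor t).symm
    have h2 : (t : ℂ) = ((Int.fract t : ℝ) : ℂ) + ((⌊t⌋ : ℤ) : ℂ) := by
      conv_lhs => rw [h1]
      push_cast
      rfl
    rw [h2]; ring
  rw [h, per_int]

theorem EQ_G {s : ℂ} (hs : s ∈ strip L.ε) : EQ f (L.G s) := by
  intro D hD hdiag
  rw [← map_nhds_G L hs, eventually_map]
  have h1 : ∀ x ∈ Icc (0 : ℝ) 1, ∀ᶠ q : ℂ × ℝ in 𝓝 s ×ˢ 𝓝 x,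
      (L.G (s + (q.2 : ℂ)), L.G (q.1 + (q.2 : ℂ))) ∈ D := by
    intro x _
    rw [← nhds_prod_eq]
    have hc : ContinuousAt L.G (s + (x : ℂ)) := (L.hol _ (add_real_mem hs x)).1
    have hc1 : ContinuousAt (fun q : ℂ × ℝ => L.G (s + (q.2 : ℂ))) (s, x) := by
      apply ContinuousAt.comp' (g := L.G)
      · exact hc
      · fun_prop
    have hc2 : ContinuousAt (fun q : ℂ × ℝ => L.G (q.1 + (q.2 : ℂ))) (s, x) := by
      apply ContinuousAt.comp' (g := L.G)
      · exact hc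
      · fun_prop
    exact (hc1.prodMk hc2).eventually_mem (hD.mem_nhds (hdiag _))
  have h2 : ∀ᶠ s' in 𝓝 s, ∀ x ∈ Icc (0 : ℝ) 1, (L.G (s + (x : ℂ)), L.G (s' + (x : ℂ))) ∈ D := by
    have := isCompact_Icc.eventually_forall_of_forall_eventually
      (P := fun (s' : ℂ) (x : ℝ) => (L.G (s + (x : ℂ)), L.G (s' + (x : ℂ))) ∈ D)
      (x₀ := s) (K := Icc (0 : ℝ) 1) (fun x hx => by
        rw [nhds_prod_eq]; exact h1 x hx)
    exact this
  filter_upwards [h2, (isOpen_strip _).mem_nhds hs] with s' hs' hs'' n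
  rw [iterate_G L hs, iterate_G L hs'', G_fract, G_fract L s']
  exact hs' _ ⟨Int.fract_nonneg _, (Int.fract_lt_one _).le⟩

theorem isOpen_image_strip : IsOpen (L.G '' strip L.ε) := by
  rw [isOpen_iff_mem_nhds]
  rintro _ ⟨s, hs, rfl⟩
  rw [← map_nhds_G L hs]
  exact image_mem_map ((isOpen_strip _).mem_nhds hs)

theorem zero_mem : (0 : ℂ) ∈ strip L.ε := by
  simp [strip, L.ε_pos]

theorem G_half_ne (t : ℝ) : L.G (t : ℂ) ≠ L.G (((1 / 2 : ℝ) : ℂ) + t) := by
  intro h
  have h0 : (t : ℂ) ∈ strip L.ε := by simpa using add_real_mem (zero_mem L) t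
  have h1 : ((1 / 2 : ℝ) : ℂ) + (t : ℂ) ∈ strip L.ε := by
    have := add_real_mem h0 (1 / 2)
    rwa [add_comm] at this
  obtain ⟨k, hk⟩ := L.inj _ h0 _ h1 h
  have h2 : (1 / 2 : ℝ) = k := by
    have h3 : (((1 / 2 : ℝ) : ℂ)) = ((k : ℝ) : ℂ) := by
      push_cast
      push_cast at hk
      linear_combination hk
    exact_mod_cast h3
  have h4 : (1 : ℤ) = 2 * k := by
    have : (1 : ℝ) = 2 * k := by linarith
    exact_mod_cast this
  omega

include L in
theorem map_nhds_f (hf : ∀ p, HolAt f p) (x : P) : map f (𝓝 x) = 𝓝 (f x) := by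
  refine (hf x).map_nhds ?_
  intro hc
  have h1 : f = fun _ => f x := HolAt.eq_of_eventuallyEq hf (fun p => holAt_const _ p) hc
  have h2 := L.semi 0 (zero_mem L)
  have h3 := L.semi ((1 / 2 : ℝ) : ℂ) (by simpa using add_real_mem (zero_mem L) (1 / 2))
  have e2 := congrFun h1 (L.G 0)
  have e3 := congrFun h1 (L.G ((1 / 2 : ℝ) : ℂ))
  beta_reduce at e2 e3
  rw [zero_add] at h2
  exact G_half_ne L L.ρ ((h2.symm.trans e2).trans (e3.symm.trans h3))

include L in
theorem map_fatou (hf : ∀ p, HolAt f p) {x : P} (hx : x ∈ FatouSet f) : f x ∈ FatouSet f := by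
  rw [mem_fatouSet_iff] at hx ⊢
  rw [← map_nhds_f L hf, eventually_map]
  filter_upwards [hx] with y hy D hD hdiag
  rw [← map_nhds_f L hf, eventually_map]
  filter_upwards [hy D hD hdiag] with z hz n
  have := hz (n + 1)
  rwa [Function.iterate_succ_apply, Function.iterate_succ_apply] at this

/-- The curve as a function on the circle. -/
noncomputable def circ (s : ℂ) : AddCircle (1 : ℝ) → P :=
  Function.Periodic.lift (f := fun t : ℝ => L.G (s + (t : ℂ))) (fun t => by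
    have := L.per (s + (t : ℂ))
    beta_reduce
    rw [← this]
    congr 1
    push_cast
    ring)

theorem circ_coe (s : ℂ) (t : ℝ) : circ L s (t : AddCircle (1 : ℝ)) = L.G (s + (t : ℂ)) :=
  Function.Periodic.lift_coe _ _

theorem continuous_circ {s : ℂ} (hs : s ∈ strip L.ε) : Continuous (circ L s) := by
  have hq : IsQuotientMap (fun t : ℝ => (t : AddCircle (1 : ℝ))) :=
    QuotientAddGroup.isQuotientMap_mk _
  rw [hq.continuous_iff]
  have : (circ L s ∘ fun t : ℝ => (t : AddCircle (1 : ℝ))) = fun t : ℝ => L.G (s + (t : ℂ)) := by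
    funext t
    exact circ_coe L s t
  rw [this, continuous_iff_continuousAt]
  intro t
  apply ContinuousAt.comp' (g := L.G)
  · exact (L.hol _ (add_real_mem hs t)).1
  · fun_prop

theorem iterate_circ {s : ℂ} (hs : s ∈ strip L.ε) (n : ℕ) :
    f^[n] (L.G s) = circ L s (n • (L.ρ : AddCircle (1 : ℝ))) := by
  rw [iterate_G L hs, ← circ_coe]
  congr 1
  simp

/-- The pointwise limit of the iterates along an ultrafilter. -/
noncomputable def ulim (f : P → P) (𝒱 : Ultrafilter ℕ) (x : P) : P :=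
  (𝒱.map fun n => f^[n] x).lim

theorem tendsto_ulim (f : P → P) (𝒱 : Ultrafilter ℕ) (x : P) :
    Tendsto (fun n => f^[n] x) 𝒱 (𝓝 (ulim f 𝒱 x)) := by
  have h := (𝒱.map fun n => f^[n] x).le_nhds_lim
  exact h

theorem exists_rotation (𝒱 : Ultrafilter ℕ) :
    ∃ θ : ℝ, ∀ s ∈ strip L.ε, ulim f 𝒱 (L.G s) = L.G (s + θ) := by
  obtain ⟨c, hc⟩ : ∃ c : AddCircle (1 : ℝ),
      Tendsto (fun n : ℕ => n • (L.ρ : AddCircle (1 : ℝ))) 𝒱 (𝓝 c) :=
    ⟨_, (𝒱.map fun n : ℕ => n • (L.ρ : AddCircle (1 : ℝ))).le_nhds_lim⟩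
  obtain ⟨θ, rfl⟩ := QuotientAddGroup.mk_surjective c
  refine ⟨θ, fun s hs => ?_⟩
  have h1 := tendsto_ulim f 𝒱 (L.G s)
  have h2 : Tendsto (fun n => f^[n] (L.G s)) 𝒱 (𝓝 (circ L s (θ : AddCircle (1 : ℝ)))) := by
    simp only [iterate_circ L hs]
    exact ((continuous_circ L hs).tendsto _).comp hc
  rw [circ_coe] at h2
  exact tendsto_nhds_unique h1 h2

end Curve

end FatouAux

open FatouAux

theorem isOpen_fatouSet (f : P → P) : IsOpen (FatouSet f) := by
  have h : FatouSet f = {z | ∀ᶠ x in 𝓝 z, EQ f x} := by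
    ext z
    exact mem_fatouSet_iff
  rw [h]
  exact isOpen_setOfPred_eventually_nhds

theorem LinCurve.mem_fatouSet {f : P → P} (L : LinCurve f) {s : ℂ} (hs : s ∈ strip L.ε) :
    L.G s ∈ FatouSet f := by
  rw [mem_fatouSet_iff]
  filter_upwards [(isOpen_image_strip L).mem_nhds ⟨s, hs, rfl⟩] with x hx
  obtain ⟨t, ht, rfl⟩ := hx
  exact EQ_G L ht

theorem LinCurve.goodDomain {f : P → P} (hf : ∀ p, HolAt f p) (hni : ¬ Function.Injective f)
    (L : LinCurve f) :
    GoodDomain f L (connectedComponentIn (FatouSet f) (L.G 0)) := by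
  set U := connectedComponentIn (FatouSet f) (L.G 0) with hU
  have h0F : L.G 0 ∈ FatouSet f := L.mem_fatouSet (zero_mem L)
  have hUo : IsOpen U := (isOpen_fatouSet f).connectedComponentIn
  have hUc : IsPreconnected U := isPreconnected_connectedComponentIn
  have hUF : U ⊆ FatouSet f := connectedComponentIn_subset _ _
  have hstripc : IsPreconnected (strip L.ε) := by
    apply Convex.isPreconnected
    have : strip L.ε = Complex.imLm ⁻¹' (Ioo (-L.ε) L.ε) := by
      ext s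
      simp [strip, abs_lt]
    rw [this]
    exact (convex_Ioo _ _).linear_preimage _
  have hmem : ∀ s ∈ strip L.ε, L.G s ∈ U := by
    intro s hs
    have h1 : IsPreconnected (L.G '' strip L.ε) :=
      hstripc.image _ fun t ht => (L.hol t ht).1.continuousWithinAt
    exact h1.subset_connectedComponentIn ⟨0, zero_mem L, rfl⟩
      (by rintro _ ⟨t, ht, rfl⟩; exact L.mem_fatouSet ht) ⟨s, hs, rfl⟩
  have hfU : ∀ x ∈ U, f x ∈ U := by
    have h1 : IsPreconnected (f '' U) := hUc.image _ fun t _ => (hf t).1.continuousWithinAt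
    have h2 : f '' U ⊆ FatouSet f := by
      rintro _ ⟨t, ht, rfl⟩
      exact map_fatou L hf (hUF ht)
    have h3 : f (L.G 0) ∈ f '' U := ⟨_, hmem 0 (zero_mem L), rfl⟩
    have h4 := h1.subset_connectedComponentIn h3 h2
    have h5 : f (L.G 0) ∈ U := by
      rw [L.semi 0 (zero_mem L)]
      exact hmem _ (add_real_mem (zero_mem L) _)
    have h6 : connectedComponentIn (FatouSet f) (f (L.G 0)) = U :=
      (connectedComponentIn_eq h5).symm
    rw [h6] at h4
    exact fun x hx => h4 ⟨x, hx, rfl⟩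
  have hfnU : ∀ (n : ℕ), ∀ x ∈ U, f^[n] x ∈ U := by
    intro n
    induction n with
    | zero => intro x hx; exact hx
    | succ n ih => intro x hx; exact ih _ (hfU x hx)
  -- limits along ultrafilters
  have hhol : ∀ 𝒱 : Ultrafilter ℕ, ∀ x ∈ U, HolAt (ulim f 𝒱) x := by
    intro 𝒱 x hx
    exact holAt_limit hf (EQ_of_mem (hUF hx)) (l := (𝒱 : Filter ℕ))
      (Eventually.of_forall fun z => tendsto_ulim f 𝒱 z)
  have hnc : ∀ 𝒱 : Ultrafilter ℕ, ∀ x ∈ U, ¬ ∀ᶠ z in 𝓝 x, ulim f 𝒱 z = ulim f 𝒱 x := by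
    intro 𝒱 x hx hc
    have h1 : EqOn (ulim f 𝒱) (fun _ => ulim f 𝒱 x) U :=
      HolAt.eqOn_of_preconnected hUc (hhol 𝒱) (fun z _ => holAt_const _ z) hx
        (hc.filter_mono nhdsWithin_le_nhds).frequently
    obtain ⟨θ, hθ⟩ := exists_rotation L 𝒱
    have hh : ((1 / 2 : ℝ) : ℂ) ∈ strip L.ε := by simpa using add_real_mem (zero_mem L) (1 / 2)
    have h2 := h1 (hmem 0 (zero_mem L))
    have h3 := h1 (hmem _ hh)
    rw [hθ 0 (zero_mem L), zero_add] at h2
    rw [hθ _ hh] at h3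
    exact G_half_ne L θ (h2.trans h3.symm)
  have hlimU : ∀ 𝒱 : Ultrafilter ℕ, ∀ x ∈ U, ulim f 𝒱 x ∈ U := by
    intro 𝒱 x hx
    by_contra hc
    refine hnc 𝒱 x hx ?_
    refine hurwitz_limit hf (EQ_of_mem (hUF hx)) (l := (𝒱 : Filter ℕ))
      (Eventually.of_forall fun z => tendsto_ulim f 𝒱 z) (hUo.mem_nhds hx)
      (Eventually.of_forall fun n z hz h => ?_)
    exact hc (h ▸ hfnU n z hz)
  -- the recurrent ultrafilter
  obtain ⟨𝒰, h𝒰1, h𝒰2⟩ : ∃ 𝒰 : Ultrafilter ℕ, (𝒰 : Filter ℕ) ≤ atTop ∧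
      Tendsto (fun n : ℕ => n • (L.ρ : AddCircle (1 : ℝ))) 𝒰 (𝓝 0) :=
    mapClusterPt_iff_ultrafilter.mp (mapClusterPt_zero_atTop_nsmul (L.ρ : AddCircle (1 : ℝ)))
  have hid : EqOn (ulim f 𝒰) (fun x => x) U := by
    refine HolAt.eqOn_of_preconnected hUc (hhol 𝒰) (fun z _ => holAt_id z)
      (hmem 0 (zero_mem L)) ?_
    refine Eventually.frequently (Eventually.filter_mono nhdsWithin_le_nhds ?_)
    filter_upwards [(isOpen_image_strip L).mem_nhds ⟨0, zero_mem L, rfl⟩] with x hx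
    obtain ⟨s, hs, rfl⟩ := hx
    have h1 := tendsto_ulim f 𝒰 (L.G s)
    have h2 : Tendsto (fun n => f^[n] (L.G s)) 𝒰 (𝓝 (circ L s 0)) := by
      simp only [iterate_circ L hs]
      exact ((continuous_circ L hs).tendsto _).comp h𝒰2
    have h3 : circ L s 0 = L.G s := by
      have := circ_coe L s 0
      simpa using this
    rw [h3] at h2
    exact tendsto_nhds_unique h1 h2
  have hrec : ∀ z ∈ U, Tendsto (fun n => f^[n] z) 𝒰 (𝓝 z) := by
    intro z hz
    have h1 := tendsto_ulim f 𝒰 z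
    rwa [hid hz] at h1
  have hinj : InjOn f U := by
    intro x hx y hy hxy
    refine tendsto_nhds_unique_of_eventuallyEq (hrec x hx) (hrec y hy) ?_
    have h1 : ∀ᶠ n : ℕ in atTop, 1 ≤ n := eventually_ge_atTop 1
    filter_upwards [h𝒰1 h1] with n hn
    obtain ⟨m, rfl⟩ : ∃ m, n = m + 1 := ⟨n - 1, by omega⟩
    rw [Function.iterate_succ_apply, Function.iterate_succ_apply, hxy]
  refine ⟨hUo, hUc, hmem, ?_, hinj, ?_, ⟨𝒰, 𝒰.neBot, h𝒰1, hrec⟩, ?_⟩
  · -- image
    refine Subset.antisymm (by rintro _ ⟨x, hx, rfl⟩; exact hfU x hx) ?_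
    intro y hy
    by_contra hc
    refine hnc 𝒰 y hy ?_
    refine hurwitz_limit hf (EQ_of_mem (hUF hy)) (l := (𝒰 : Filter ℕ))
      (Eventually.of_forall fun z => tendsto_ulim f 𝒰 z) (hUo.mem_nhds hy) ?_
    have h1 : ∀ᶠ n : ℕ in atTop, 1 ≤ n := eventually_ge_atTop 1
    filter_upwards [h𝒰1 h1] with n hn z hz h
    rw [hid hy] at h
    obtain ⟨m, rfl⟩ : ∃ m, n = m + 1 := ⟨n - 1, by omega⟩
    rw [Function.iterate_succ_apply'] at h
    exact hc ⟨_, hfnU m z hz, h⟩
  · -- ne_univ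
    intro h
    apply hni
    rw [h] at hinj
    exact injOn_univ.mp hinj
  · -- cpt
    intro z hz
    set K0 : Set P := closure (range fun n : ℕ => f^[n] z) with hK0
    have hK0U : K0 ⊆ U := by
      intro p hp
      have h1 : MapClusterPt p (⊤ : Filter ℕ) (fun n : ℕ => f^[n] z) := by
        rw [MapClusterPt, ← principal_univ, map_principal, image_univ,
          ← mem_closure_iff_clusterPt]
        exact hp
      obtain ⟨𝒱, -, h2⟩ := mapClusterPt_iff_ultrafilter.mp h1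
      have h3 : ulim f 𝒱 z = p := tendsto_nhds_unique (tendsto_ulim f 𝒱 z) h2
      rw [← h3]
      exact hlimU 𝒱 z hz
    have hK0c : IsCompact K0 := isClosed_closure.isCompact
    obtain ⟨K, hKc, hK0K, hKU⟩ := exists_compact_between hK0c hUo hK0U
    have h1 := (EQ_of_mem (hUF hz)).eventually_mem (isClosed_closure (s := range fun n : ℕ => f^[n] z))
      isOpen_interior hK0K
    refine ⟨_, h1, K, hKc, hKU, ?_⟩
    intro n y hy
    exact interior_subset (hy n (subset_closure ⟨n, rfl⟩))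

end Pool.Agent.Lib.MP_1f4a82_an
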