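import Pool.Agent.Lib.MP_1f4a82_an.CoverDefs
import Pool.Agent.Lib.MP_1f4a82_an.Count

/-!
Consequences of generic injectivity of `(h, g)` over the curve.
-/

open Topology Filter Set

namespace Pool.Agent.Lib.MP_1f4a82_an

namespace FibreAux

open Pool.Agent.Lib.MP_1f4a82_an.Count

theorem iter_semi {f g h : P → P} (hs : ∀ p, f (h p) = h (g p)) (n : ℕ) (p : P) :
    f^[n] (h p) = h (g^[n] p) := by
  induction n generalizing p with
  | zero => rfl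
  | succ n ih => rw [Function.iterate_succ_apply, Function.iterate_succ_apply, hs, ih]

theorem iter_curve {f : P → P} (c : InvCurve f) (n : ℕ) (x : ℝ) :
    f^[n] (c.γ x) = c.γ (c.F^[n] x : ℝ) := by
  induction n generalizing x with
  | zero => rfl
  | succ n ih => rw [Function.iterate_succ_apply, Function.iterate_succ_apply, c.inv, ih]

theorem finite_preimage {g : P → P} (hg : ∀ p, HolAt g p) (hgn : ∃ x y, g x ≠ g y) {E : Set P}
    (hE : E.Finite) : (g ⁻¹' E).Finite := by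
  have : g ⁻¹' E = ⋃ w ∈ E, g ⁻¹' {w} := by
    ext x; simp
  rw [this]
  exact hE.biUnion fun w _ => finite_fibre hg hgn w

theorem finite_preimage_iter {g : P → P} (hg : ∀ p, HolAt g p) (hgn : ∃ x y, g x ≠ g y) {E : Set P}
    (hE : E.Finite) (n : ℕ) : (g^[n] ⁻¹' E).Finite := by
  induction n with
  | zero => simpa using hE
  | succ n ih =>
    rw [Function.iterate_succ, preimage_comp]
    exact finite_preimage hg hgn ih

theorem gen_iter {f g h : P → P} (hg : ∀ p, HolAt g p) (hgn : ∃ x y, g x ≠ g y)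
    (hs : ∀ p, f (h p) = h (g p))
    (hgen : ∃ E : Set P, E.Finite ∧ ∀ z ∉ E, ∀ z' ∉ E, h z = h z' → g z = g z' → z = z') (n : ℕ) :
    ∃ E : Set P, E.Finite ∧ ∀ z ∉ E, ∀ z' ∉ E, h z = h z' → g^[n] z = g^[n] z' → z = z' := by
  induction n with
  | zero => exact ⟨∅, finite_empty, fun z _ z' _ _ h2 => h2⟩
  | succ n ih =>
    obtain ⟨E, hE, hE'⟩ := hgen
    obtain ⟨En, hEn, hEn'⟩ := ih
    refine ⟨En ∪ g^[n] ⁻¹' E, hEn.union (finite_preimage_iter hg hgn hE n), ?_⟩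
    intro z hz z' hz' h1 h2
    rw [mem_union, not_or] at hz hz'
    refine hEn' z hz.1 z' hz'.1 h1 (hE' _ hz.2 _ hz'.2 ?_ ?_)
    · rw [← iter_semi hs, ← iter_semi hs, h1]
    · rw [← Function.iterate_succ_apply' g, ← Function.iterate_succ_apply' g, h2]

theorem orbit_injective {f g h : P → P} (hs : ∀ p, f (h p) = h (g p)) (c : InvCurve f) {r : P}
    {x : ℝ} (hr : h r = c.γ x) : Function.Injective (fun n : ℕ => g^[n] r) := by
  have key : ∀ n m : ℕ, n < m → g^[n] r ≠ g^[m] r := by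
    intro n m hnm he
    have h1 : h (g^[n] r) = h (g^[m] r) := by rw [he]
    rw [← iter_semi hs, ← iter_semi hs, hr, iter_curve, iter_curve] at h1
    obtain ⟨k, hk⟩ := c.inj _ (by simp [strip, c.η_pos]) _ (by simp [strip, c.η_pos]) h1
    have hk' : c.F^[m] x = c.F^[n] x + k := by exact_mod_cast hk
    apply c.noper (m - n) (by omega) (c.F^[n] x) k
    rw [← Function.iterate_add_apply, Nat.sub_add_cancel hnm.le, hk']
  intro n m hnm
  rcases lt_trichotomy n m with h1 | h1 | h1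
  · exact absurd hnm (key n m h1)
  · exact h1
  · exact absurd hnm.symm (key m n h1)

theorem loc_inj {f g h : P → P} (hg : ∀ p, HolAt g p) (hh : ∀ p, HolAt h p)
    (hgn : ∃ x y, g x ≠ g y) (hhn : ∃ x y, h x ≠ h y) (hs : ∀ p, f (h p) = h (g p))
    (c : InvCurve f)
    (hgen : ∃ E : Set P, E.Finite ∧ ∀ z ∉ E, ∀ z' ∉ E, h z = h z' → g z = g z' → z = z')
    (r : P) (x : ℝ) (hr : h r = c.γ x) : ∃ U ∈ 𝓝 r, InjOn h U := by
  have hinj := orbit_injective hs c hr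
  have hfin : {n : ℕ | g^[n] r ∈ {p | ¬ ∃ U ∈ 𝓝 p, InjOn h U}}.Finite :=
    (finite_crit hh hhn).preimage hinj.injOn
  obtain ⟨n, hn⟩ := hfin.exists_notMem
  have hn' : ∃ U ∈ 𝓝 (g^[n] r), InjOn h U := by
    by_contra hcon
    exact hn hcon
  obtain ⟨V, hV, hVi⟩ := hn'
  obtain ⟨E, hE, hE'⟩ := gen_iter hg hgn hs hgen n
  have hgc : Continuous g^[n] := (continuous_of_hol hg).iterate n
  have m1 : ∀ᶠ z in 𝓝 r, g^[n] z ∈ V := hgc.continuousAt.eventually hV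
  have m2 : ∀ᶠ z in 𝓝 r, z ≠ r → z ∉ E :=
    eventually_nhdsWithin_iff.mp (eventually_notMem_finite hE r)
  have m3 : ∀ᶠ z in 𝓝 r, z ≠ r → h z ≠ h r :=
    eventually_nhdsWithin_iff.mp (isolated_fibre hh hhn r (h r))
  refine ⟨{z | g^[n] z ∈ V ∧ (z ≠ r → z ∉ E) ∧ (z ≠ r → h z ≠ h r)}, (m1.and (m2.and m3)), ?_⟩
  rintro z ⟨a1, a2, a3⟩ z' ⟨b1, b2, b3⟩ hzz
  by_cases hz : z = r
  · by_contra hne
    refine b3 (fun h1 => hne (by rw [hz, h1])) ?_
    rw [← hzz, hz]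
  by_cases hz' : z' = r
  · exact absurd (by rw [hzz, hz']) (a3 hz)
  refine hE' z (a2 hz) z' (b2 hz') hzz (hVi a1 b1 ?_)
  rw [← iter_semi hs, ← iter_semi hs, hzz]

end FibreAux

open FibreAux Pool.Agent.Lib.MP_1f4a82_an.Count in
theorem fibre_injective {f g h : P → P} (hf : ∀ p, HolAt f p) (hg : ∀ p, HolAt g p)
    (hh : ∀ p, HolAt h p) (hfn : ∃ x y, f x ≠ f y) (hgn : ∃ x y, g x ≠ g y)
    (hhn : ∃ x y, h x ≠ h y) (hs : ∀ p, f (h p) = h (g p)) (c : InvCurve f)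
    (hgen : ∃ E : Set P, E.Finite ∧ ∀ z ∉ E, ∀ z' ∉ E, h z = h z' → g z = g z' → z = z') :
    (∀ (r : P) (x : ℝ), h r = c.γ x → ∃ U ∈ 𝓝 r, InjOn h U) ∧
    (∀ (r r' : P) (x x' : ℝ), h r = c.γ x → h r' = c.γ x' → g r = g r' → r = r') := by
  have h1 := loc_inj hg hh hgn hhn hs c hgen
  refine ⟨h1, ?_⟩
  intro r r' x x' hr hr' hrr
  by_contra hne
  -- `h r = h r'`
  have e1 : h (g r) = c.γ (c.F x) := by rw [← hs, hr, c.inv]
  have e2 : h (g r') = c.γ (c.F x') := by rw [← hs, hr', c.inv]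
  have e3 : c.γ (c.F x) = c.γ (c.F x') := by rw [← e1, ← e2, hrr]
  obtain ⟨k, hk⟩ := c.inj _ (by simp [strip, c.η_pos]) _ (by simp [strip, c.η_pos]) e3
  have hk' : c.F x' = c.F x + k := by exact_mod_cast hk
  rw [← c.F_per_int] at hk'
  have hxx : x' = x + k := c.F_mono.injective hk'
  have hw : h r' = h r := by
    rw [hr', hr, hxx]
    push_cast
    exact c.per_int k x
  obtain ⟨V, hV, hVi⟩ := h1 (g r) (c.F x) e1
  obtain ⟨E, hE, hE'⟩ := hgen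
  obtain ⟨U, U', hU, hU', hUU'⟩ := t2_separation_nhds hne
  have hgc := continuous_of_hol hg
  have m1 : U ∩ g ⁻¹' V ∈ 𝓝 r := inter_mem hU (hgc.continuousAt hV)
  have m2 : U' ∩ g ⁻¹' V ∈ 𝓝 r' := inter_mem hU' (hgc.continuousAt (by rw [← hrr]; exact hV))
  have m3 : h '' (U ∩ g ⁻¹' V) ∈ 𝓝 (h r) := by
    rw [← map_nhds' hh hhn rfl]; exact image_mem_map m1
  have m4 : h '' (U' ∩ g ⁻¹' V) ∈ 𝓝 (h r) := by
    rw [← map_nhds' hh hhn hw]; exact image_mem_map m2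
  have m5 := eventually_notMem_finite (hE.image h) (h r)
  have m6 : ∀ᶠ y in 𝓝[≠] (h r), y ∈ h '' (U ∩ g ⁻¹' V) ∩ h '' (U' ∩ g ⁻¹' V) :=
    nhdsWithin_le_nhds (inter_mem m3 m4)
  obtain ⟨y, ⟨hy1, hy2⟩, hy3⟩ := (m6.and m5).exists
  obtain ⟨z, ⟨hzU, hzV⟩, rfl⟩ := hy1
  obtain ⟨z', ⟨hzU', hzV'⟩, hzz⟩ := hy2
  have hzE : z ∉ E := fun h2 => hy3 ⟨z, h2, rfl⟩
  have hzE' : z' ∉ E := fun h2 => hy3 ⟨z', h2, hzz⟩
  have hgz : g z = g z' := by
    apply hVi hzV hzV'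
    rw [← hs, ← hs, hzz]
  have := hE' z hzE z' hzE' hzz.symm hgz
  rw [← this] at hzU'
  exact disjoint_left.mp hUU' hzU hzU'

end Pool.Agent.Lib.MP_1f4a82_an
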