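import Mathlib

/-!
# The dihedral trick
-/

namespace Pool.Agent.Lib.MP_1f4a82_an

/-- The dihedral trick: let `N / F` be a finite extension, `c` an involution of `N` with
`c F ⊆ F`, `S` a set which is stable under `Gal(N/F)` and `c`, and `p` the unique element of `S`
which is fixed by `c`. Then every conjugate `s p` is `w p` for a `w ∈ Gal(N/F)` with
`c w c = w⁻¹`. -/
lemma dihedral {F N : Type*} [Field F] [Field N] [Algebra F N] [FiniteDimensional F N]
    (c : N →+* N) (hcc : ∀ x, c (c x) = x)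
    (hcF : ∀ x : F, ∃ y : F, c (algebraMap F N x) = algebraMap F N y)
    (S : Set N) (hSG : ∀ (w : N ≃ₐ[F] N), ∀ x ∈ S, w x ∈ S) (p : N)
    (hpS : p ∈ S) (hcp : c p = p) (hu : ∀ x ∈ S, c x = x → x = p) (s : N ≃ₐ[F] N) :
    ∃ w : N ≃ₐ[F] N, w p = s p ∧ ∀ x, c (w x) = w⁻¹ (c x) := by
  classical
  have hsF : ∀ x : F, s⁻¹ (algebraMap F N x) = algebraMap F N x := fun x => (s⁻¹).commutes x
  have hs1 : ∀ x, s (s⁻¹ x) = x := fun x => by
    rw [← AlgEquiv.mul_apply, mul_inv_cancel, AlgEquiv.one_apply]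
  have hs2 : ∀ x, s⁻¹ (s x) = x := fun x => by
    rw [← AlgEquiv.mul_apply, inv_mul_cancel, AlgEquiv.one_apply]
  -- the two maps
  let v : N ≃ₐ[F] N :=
    { toFun := fun x => c (s (c (s⁻¹ x)))
      invFun := fun x => s (c (s⁻¹ (c x)))
      left_inv := fun x => by simp only [hcc, hs1, hs2]
      right_inv := fun x => by simp only [hcc, hs1, hs2]
      map_mul' := fun x y => by simp only [map_mul]
      map_add' := fun x y => by simp only [map_add]
      commutes' := fun x => by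
        obtain ⟨y, hy⟩ := hcF x
        rw [hsF, hy, s.commutes, ← hy, hcc] }
  have hv : ∀ x, v x = c (s (c (s⁻¹ x))) := fun x => rfl
  have hvi : ∀ x, v⁻¹ x = s (c (s⁻¹ (c x))) := fun x => rfl
  have hcv : ∀ x, c (v x) = v⁻¹ (c x) := by
    intro x; rw [hv, hvi, hcc, hcc]
  have hcvn : ∀ (n : ℕ) (x : N), c ((v ^ n) x) = (v⁻¹ ^ n) (c x) := by
    intro n
    induction n with
    | zero => intro x; simp
    | succ n ih =>
      intro x
      rw [pow_succ, AlgEquiv.mul_apply, ih, hcv, pow_succ, AlgEquiv.mul_apply]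
  have hcvn' : ∀ (n : ℕ), c ((v ^ n) p) = (v⁻¹ ^ n) p := by
    intro n; rw [hcvn, hcp]
  -- the period
  have hfin : ∃ n : ℕ, 0 < n ∧ (v ^ n) p = p := by
    refine ⟨orderOf v, orderOf_pos v, ?_⟩
    rw [pow_orderOf_eq_one, AlgEquiv.one_apply]
  set r := Nat.find hfin with hr
  obtain ⟨hr0, hr1⟩ := Nat.find_spec hfin
  rw [← hr] at hr0 hr1
  have hrmin : ∀ k, 0 < k → k < r → (v ^ k) p ≠ p := by
    intro k hk0 hk h
    exact Nat.find_min hfin hk ⟨hk0, h⟩
  have hcancel : ∀ (n m : ℕ) , (v⁻¹ ^ n) ((v ^ (n + m)) p) = (v ^ m) p := by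
    intro n m
    rw [← AlgEquiv.mul_apply, pow_add, ← mul_assoc, inv_pow, inv_mul_cancel, one_mul]
  rcases Nat.even_or_odd' r with ⟨k, hk | hk⟩
  · exfalso
    have h1 : (v⁻¹ ^ k) p = (v ^ k) p := by
      have := hcancel k k
      rw [← two_mul, ← hk, hr1] at this
      exact this
    have h2 : (v ^ k) p = p := hu _ (hSG _ _ hpS) (by rw [hcvn', h1])
    exact hrmin k (by omega) (by omega) h2
  · -- odd
    have h1 : (v⁻¹ ^ (k + 1)) p = (v ^ k) p := by
      have := hcancel (k + 1) k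
      rw [show k + 1 + k = 2 * k + 1 by ring, ← hk, hr1] at this
      exact this
    have h2 : c (s⁻¹ ((v ^ k) p)) = s⁻¹ ((v ^ k) p) := by
      have h3 : s (c (s⁻¹ ((v ^ k) p))) = (v ^ k) p := by
        have h4 := hvi (c ((v ^ k) p))
        rw [hcc, hcvn'] at h4
        rw [← h4, ← AlgEquiv.mul_apply, ← pow_succ', h1]
      have h5 := congrArg (fun z => s⁻¹ z) h3
      simp only [hs2] at h5
      exact h5
    have h3 : s⁻¹ ((v ^ k) p) = p := hu _ (hSG _ _ (hSG _ _ hpS)) h2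
    refine ⟨v ^ k, ?_, fun x => ?_⟩
    · have := congrArg (fun z => s z) h3
      simp only [hs1] at this
      exact this
    · rw [hcvn, inv_pow]

/-- consequence: the rationality statement -/
lemma dihedral_fixed {F N : Type*} [Field F] [Field N] [Algebra F N] [FiniteDimensional F N]
    (c : N →+* N) (hcc : ∀ x, c (c x) = x)
    (hcF : ∀ x : F, ∃ y : F, c (algebraMap F N x) = algebraMap F N y)
    (S : Set N) (hSG : ∀ (w : N ≃ₐ[F] N), ∀ x ∈ S, w x ∈ S) (p : N)
    (hpS : p ∈ S) (hcp : c p = p) (hu : ∀ x ∈ S, c x = x → x = p) (h : N)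
    (hgen : ∀ w : N ≃ₐ[F] N, w p = p → w h = h)
    (hgen' : ∀ w : N ≃ₐ[F] N, w p = p → w (c h) = c h)
    (hgen2 : ∀ w : N ≃ₐ[F] N, w h = h → w (c h) = c h → w p = p)
    (s : N ≃ₐ[F] N) (hs : s h = h) : s p = p := by
  obtain ⟨w, hw1, hw2⟩ := dihedral c hcc hcF S hSG p hpS hcp hu s
  have hk : (w⁻¹ * s) p = p := by
    rw [AlgEquiv.mul_apply, ← hw1, ← AlgEquiv.mul_apply, inv_mul_cancel, AlgEquiv.one_apply]
  have hwk : ∀ x, s x = w ((w⁻¹ * s) x) := fun x => by
    rw [← AlgEquiv.mul_apply, mul_inv_cancel_left]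
  have hwh : w h = h := by
    have := hwk h
    rw [hs, hgen _ hk] at this
    exact this.symm
  have hwh' : w⁻¹ h = h := by
    have h5 : w⁻¹ (w h) = w⁻¹ h := by rw [hwh]
    rw [← AlgEquiv.mul_apply, inv_mul_cancel, AlgEquiv.one_apply] at h5
    exact h5.symm
  refine hgen2 s hs ?_
  rw [hwk, hgen' _ hk]
  -- `w (c h) = c h`
  have h2 : ∀ x, w (c x) = c (w⁻¹ x) := by
    intro x
    have h3 := hw2 (w⁻¹ x)
    have h4 : w (w⁻¹ x) = x := by
      rw [← AlgEquiv.mul_apply, mul_inv_cancel, AlgEquiv.one_apply]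
    rw [h4] at h3
    rw [h3, ← AlgEquiv.mul_apply, mul_inv_cancel, AlgEquiv.one_apply]
  rw [h2, hwh']

end Pool.Agent.Lib.MP_1f4a82_an
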