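import Mathlib

/-!
# Power series roots of `f(Y) - X g(Y)` over `ℂ⟦X⟧`
-/

open Polynomial

namespace Pool.Agent.Lib.MP_1f4a82_an

/-- `f(Y) - X g(Y)` as a polynomial over the power series -/
noncomputable def hpoly (f g : ℂ[X]) : (PowerSeries ℂ)[X] :=
  f.map (PowerSeries.C) - Polynomial.C (PowerSeries.X) * g.map (PowerSeries.C)

lemma hpoly_coeff (f g : ℂ[X]) (n : ℕ) :
    (hpoly f g).coeff n = PowerSeries.C (f.coeff n) - PowerSeries.X * PowerSeries.C (g.coeff n) := by
  simp [hpoly]

lemma hpoly_eval (f g : ℂ[X]) (p : PowerSeries ℂ) : (hpoly f g).eval p =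
    (f.map (PowerSeries.C)).eval p - PowerSeries.X * (g.map (PowerSeries.C)).eval p := by
  simp [hpoly]

lemma hpoly_constantCoeff_eval (f g : ℂ[X]) (p : PowerSeries ℂ) :
    PowerSeries.constantCoeff ((hpoly f g).eval p) = f.eval (PowerSeries.constantCoeff p) := by
  rw [hpoly_eval, map_sub, map_mul, PowerSeries.constantCoeff_X, zero_mul, sub_zero,
    Polynomial.eval_map, Polynomial.hom_eval₂]
  have : (PowerSeries.constantCoeff (R := ℂ)).comp PowerSeries.C = RingHom.id ℂ := by
    ext; simp
  rw [this]
  rfl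

lemma hpoly_derivative (f g : ℂ[X]) :
    derivative (hpoly f g) = hpoly (derivative f) (derivative g) := by
  simp [hpoly, Polynomial.derivative_map]

lemma hpoly_natDegree (f g : ℂ[X]) (hg : g.natDegree ≤ f.natDegree) :
    (hpoly f g).natDegree = f.natDegree := by
  by_cases hf : f = 0
  · subst hf
    have : g.natDegree = 0 := by simpa using hg
    obtain ⟨x, rfl⟩ := Polynomial.natDegree_eq_zero.1 this
    rw [hpoly]
    simp only [Polynomial.map_zero, zero_sub, Polynomial.map_C, natDegree_neg, natDegree_zero]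
    rw [← Polynomial.C_mul, natDegree_C]
  refine Polynomial.natDegree_eq_of_le_of_coeff_ne_zero ?_ ?_
  · refine (Polynomial.natDegree_sub_le _ _).trans (max_le (natDegree_map_le) ?_)
    refine (Polynomial.natDegree_C_mul_le _ _).trans ?_
    exact natDegree_map_le.trans hg
  · rw [hpoly_coeff]
    intro h
    have := congrArg (PowerSeries.constantCoeff (R := ℂ)) h
    simp only [map_sub, map_mul, PowerSeries.constantCoeff_X, zero_mul, sub_zero,
      PowerSeries.constantCoeff_C, map_zero] at this
    exact hf (by simpa using this)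

/-- existence of the power series root -/
lemma exists_ps_root (f g : ℂ[X]) (hg : g.natDegree ≤ f.natDegree) (ξ : ℂ) (h : f.eval ξ = 0)
    (h' : (derivative f).eval ξ ≠ 0) :
    ∃ p : PowerSeries ℂ, PowerSeries.constantCoeff p = ξ ∧ (hpoly f g).eval p = 0 := by
  have hf : f ≠ 0 := by
    rintro rfl; simp at h'
  set F := hpoly f g with hF
  have hlc : F.leadingCoeff = F.coeff f.natDegree := by
    rw [Polynomial.leadingCoeff, hF, hpoly_natDegree f g hg]
  have hu : IsUnit F.leadingCoeff := by
    rw [hlc, PowerSeries.isUnit_iff_constantCoeff, hF, hpoly_coeff]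
    simpa using hf
  obtain ⟨u, hu⟩ := hu
  set F' := Polynomial.C ((u⁻¹ : (PowerSeries ℂ)ˣ) : PowerSeries ℂ) * F with hF'
  have hmonic : F'.Monic := by
    apply Polynomial.monic_C_mul_of_mul_leadingCoeff_eq_one
    rw [← hu]; simp
  have hens : HenselianRing (PowerSeries ℂ) (Ideal.span {(PowerSeries.X : PowerSeries ℂ)}) :=
    inferInstance
  obtain ⟨p, hp1, hp2⟩ := hens.is_henselian F' hmonic (PowerSeries.C ξ) (by
    rw [hF', eval_mul, eval_C]
    refine Ideal.mul_mem_left _ _ ?_
    rw [Ideal.mem_span_singleton, PowerSeries.X_dvd_iff, hF, hpoly_constantCoeff_eval]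
    simpa using h) (by
    have h1 : IsUnit (F'.derivative.eval (PowerSeries.C ξ)) := by
      rw [hF', derivative_C_mul, eval_mul, eval_C]
      refine IsUnit.mul (Units.isUnit _) ?_
      rw [PowerSeries.isUnit_iff_constantCoeff, hF, hpoly_derivative, hpoly_constantCoeff_eval]
      simpa using h'
    exact h1.map _)
  refine ⟨p, ?_, ?_⟩
  · rw [Ideal.mem_span_singleton, PowerSeries.X_dvd_iff, map_sub, sub_eq_zero] at hp2
    rw [hp2]; simp
  · have h2 : F'.eval p = 0 := hp1
    rw [hF', eval_mul, eval_C] at h2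
    exact (Units.isUnit _).mul_right_eq_zero.1 h2

/-- uniqueness of the power series root -/
lemma ps_root_unique (f g : ℂ[X]) (p q : PowerSeries ℂ)
    (hpq : PowerSeries.constantCoeff p = PowerSeries.constantCoeff q)
    (hp : (hpoly f g).eval p = 0) (hq : (hpoly f g).eval q = 0)
    (h' : (derivative f).eval (PowerSeries.constantCoeff q) ≠ 0) : p = q := by
  obtain ⟨k, hk⟩ := Polynomial.binomExpansion (hpoly f g) q (p - q)
  rw [add_sub_cancel, hp, hq, zero_add, hpoly_derivative] at hk
  have h1 : (p - q) * ((hpoly (derivative f) (derivative g)).eval q + k * (p - q)) = 0 := by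
    rw [hk]; ring
  rcases mul_eq_zero.1 h1 with h2 | h2
  · exact sub_eq_zero.1 h2
  · exfalso
    have h3 := congrArg (PowerSeries.constantCoeff (R := ℂ)) h2
    rw [map_add, map_mul, map_sub, hpq, sub_self, mul_zero, add_zero, hpoly_constantCoeff_eval,
      map_zero] at h3
    exact h' h3

end Pool.Agent.Lib.MP_1f4a82_an
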