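import Mathlib
import Pool.Agent.Lib.MP_1f4a82_an.GalHensel

/-!
# The polynomial `f(Y) - X g(Y)` over the Laurent series, and complex conjugation
-/

open Polynomial

namespace Pool.Agent.Lib.MP_1f4a82_an

/-- Laurent series -/
abbrev LL : Type := LaurentSeries ℂ

/-- the rational functions inside the Laurent series -/
@[reducible] noncomputable def algRat : Algebra (RatFunc ℂ) LL := RatFunc.liftAlgebra ℂ LL

attribute [local instance] algRat

/-- `f(Y) - X g(Y)` over the rational functions -/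
noncomputable def kpoly (f g : ℂ[X]) : (RatFunc ℂ)[X] :=
  f.map (RatFunc.C) - Polynomial.C (RatFunc.X) * g.map (RatFunc.C)

lemma ll_poly (P : ℂ[X]) : algebraMap (RatFunc ℂ) LL (algebraMap ℂ[X] (RatFunc ℂ) P) =
    algebraMap (PowerSeries ℂ) LL (P : PowerSeries ℂ) := (RatFunc.coe_coe P).symm

lemma algebraMap_ratFunc_C (z : ℂ) : algebraMap (RatFunc ℂ) LL (RatFunc.C z) =
    algebraMap (PowerSeries ℂ) LL (PowerSeries.C z) := by
  have h1 : (RatFunc.C z : RatFunc ℂ) = algebraMap ℂ[X] (RatFunc ℂ) (Polynomial.C z) := by simp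
  rw [h1, ll_poly, Polynomial.coe_C]

lemma algebraMap_ratFunc_X : algebraMap (RatFunc ℂ) LL RatFunc.X =
    algebraMap (PowerSeries ℂ) LL PowerSeries.X := by
  rw [← RatFunc.algebraMap_X, ll_poly, Polynomial.coe_X]

lemma kpoly_map (f g : ℂ[X]) : (kpoly f g).map (algebraMap (RatFunc ℂ) LL) =
    (hpoly f g).map (algebraMap (PowerSeries ℂ) LL) := by
  unfold kpoly hpoly
  rw [Polynomial.map_sub, Polynomial.map_sub, Polynomial.map_mul, Polynomial.map_mul,
    Polynomial.map_C, Polynomial.map_C, Polynomial.map_map, Polynomial.map_map, Polynomial.map_map,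
    Polynomial.map_map, algebraMap_ratFunc_X]
  have h : (algebraMap (RatFunc ℂ) LL).comp RatFunc.C =
      (algebraMap (PowerSeries ℂ) LL).comp PowerSeries.C := by
    ext1 z
    exact algebraMap_ratFunc_C z
  rw [h]

lemma algebraMap_inj : Function.Injective (algebraMap (PowerSeries ℂ) LL) :=
  IsFractionRing.injective (PowerSeries ℂ) LL

/-- the roots -/
lemma roots_LL (f g : ℂ[X]) (hg : g.natDegree ≤ f.natDegree) (hsep : f.Separable) :
    ((kpoly f g).map (algebraMap (RatFunc ℂ) LL)).Splits ∧ (kpoly f g).Separable ∧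
    ∃ p : ℂ → PowerSeries ℂ,
      (∀ ξ, f.eval ξ = 0 → PowerSeries.constantCoeff (p ξ) = ξ ∧ (hpoly f g).eval (p ξ) = 0) ∧
      ∀ ρ : LL, ((kpoly f g).map (algebraMap (RatFunc ℂ) LL)).eval ρ = 0 →
        ∃ ξ, f.eval ξ = 0 ∧ ρ = algebraMap (PowerSeries ℂ) LL (p ξ) := by
  classical
  have hf0 : f ≠ 0 := hsep.ne_zero
  have hder : ∀ ξ, f.eval ξ = 0 → (derivative f).eval ξ ≠ 0 := by
    intro ξ h
    have := hsep.eval₂_derivative_ne_zero (RingHom.id ℂ) (x := ξ) h
    exact this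
  have hex : ∀ ξ, ∃ p : PowerSeries ℂ, f.eval ξ = 0 →
      PowerSeries.constantCoeff p = ξ ∧ (hpoly f g).eval p = 0 := by
    intro ξ
    by_cases h : f.eval ξ = 0
    · obtain ⟨p, hp⟩ := exists_ps_root f g hg ξ h (hder ξ h)
      exact ⟨p, fun _ => hp⟩
    · exact ⟨0, fun h' => absurd h' h⟩
  choose p hp using hex
  rw [kpoly_map]
  set P := (hpoly f g).map (algebraMap (PowerSeries ℂ) LL) with hP
  have hPdeg : P.natDegree = f.natDegree := by
    rw [hP, Polynomial.natDegree_map_eq_of_injective algebraMap_inj, hpoly_natDegree f g hg]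
  have hh0 : hpoly f g ≠ 0 := by
    intro h
    have h1 := hpoly_coeff f g f.natDegree
    rw [h, coeff_zero] at h1
    have h2 := congrArg (PowerSeries.constantCoeff (R := ℂ)) h1
    simp only [map_sub, map_mul, PowerSeries.constantCoeff_X, zero_mul, sub_zero,
      PowerSeries.constantCoeff_C, map_zero] at h2
    exact hf0 (by simpa using h2.symm)
  have hP0 : P ≠ 0 := by
    rw [hP, Ne, Polynomial.map_eq_zero_iff algebraMap_inj]
    exact hh0
  set I : Finset LL := f.roots.toFinset.image fun ξ => algebraMap (PowerSeries ℂ) LL (p ξ) with hI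
  have hIsub : I ⊆ P.roots.toFinset := by
    intro ρ hρ
    rw [hI, Finset.mem_image] at hρ
    obtain ⟨ξ, hξ, rfl⟩ := hρ
    rw [Multiset.mem_toFinset, mem_roots hP0, IsRoot, hP, eval_map_algebraMap,
      Polynomial.aeval_algebraMap_apply]
    have hξ' : f.eval ξ = 0 := by
      rw [Multiset.mem_toFinset, mem_roots hf0] at hξ
      exact hξ
    rw [Polynomial.coe_aeval_eq_eval, (hp ξ hξ').2, map_zero]
  have hIcard : I.card = f.natDegree := by
    rw [hI, Finset.card_image_of_injOn, Multiset.toFinset_card_of_nodup (nodup_roots hsep)]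
    · exact (splits_iff_card_roots.1 (IsAlgClosed.splits f))
    · intro ξ hξ ξ' hξ' h
      have hξ1 : f.eval ξ = 0 := by
        rw [Finset.mem_coe, Multiset.mem_toFinset, mem_roots hf0] at hξ
        exact hξ
      have hξ2 : f.eval ξ' = 0 := by
        rw [Finset.mem_coe, Multiset.mem_toFinset, mem_roots hf0] at hξ'
        exact hξ'
      have h1 := algebraMap_inj h
      rw [← (hp ξ hξ1).1, ← (hp ξ' hξ2).1, h1]
  have hc1 : P.roots.toFinset.card ≤ Multiset.card P.roots := Multiset.toFinset_card_le _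
  have hc2 : Multiset.card P.roots ≤ P.natDegree := card_roots' P
  have hc3 : I.card ≤ P.roots.toFinset.card := Finset.card_le_card hIsub
  have hIeq : I = P.roots.toFinset := Finset.eq_of_subset_of_card_le hIsub (by omega)
  have hsplit : P.Splits := splits_iff_card_roots.2 (by omega)
  have hnodup : P.roots.Nodup := Multiset.toFinset_card_eq_card_iff_nodup.1 (by omega)
  refine ⟨hsplit, ?_, p, hp, fun ρ hρ => ?_⟩
  · have h1 : P.Separable := (nodup_roots_iff_of_splits hP0 hsplit).1 hnodup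
    rw [hP, ← kpoly_map] at h1
    exact (separable_map _).1 h1
  · have h1 : ρ ∈ P.roots.toFinset := by
      rw [Multiset.mem_toFinset, mem_roots hP0]; exact hρ
    rw [← hIeq, hI, Finset.mem_image] at h1
    obtain ⟨ξ, hξ, h2⟩ := h1
    rw [Multiset.mem_toFinset, mem_roots hf0] at hξ
    exact ⟨ξ, hξ, h2.symm⟩

/-- complex conjugation of the coefficients of a power series -/
noncomputable def cPS : PowerSeries ℂ →+* PowerSeries ℂ := PowerSeries.map (starRingEnd ℂ)

lemma cPS_cPS (p : PowerSeries ℂ) : cPS (cPS p) = p := by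
  ext n; simp [cPS]

lemma cPS_constantCoeff (p : PowerSeries ℂ) : PowerSeries.constantCoeff (cPS p) =
    starRingEnd ℂ (PowerSeries.constantCoeff p) := by
  rw [← PowerSeries.coeff_zero_eq_constantCoeff_apply,
    ← PowerSeries.coeff_zero_eq_constantCoeff_apply, cPS, PowerSeries.coeff_map]

lemma cPS_inj : Function.Injective cPS := fun p q h => by
  rw [← cPS_cPS p, h, cPS_cPS]

/-- complex conjugation of the coefficients of a Laurent series -/
noncomputable def cLL : LL →+* LL :=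
  IsFractionRing.map (A := PowerSeries ℂ) (B := PowerSeries ℂ) (K := LL) (L := LL) cPS_inj

lemma cLL_algebraMap (p : PowerSeries ℂ) :
    cLL (algebraMap (PowerSeries ℂ) LL p) = algebraMap (PowerSeries ℂ) LL (cPS p) :=
  IsLocalization.map_eq (S := LL) (Q := LL) (M := nonZeroDivisors (PowerSeries ℂ))
    (T := nonZeroDivisors (PowerSeries ℂ)) (g := cPS)
    (nonZeroDivisors_le_comap_nonZeroDivisors_of_injective cPS cPS_inj) p

lemma cLL_cLL (x : LL) : cLL (cLL x) = x := by
  have h : cLL.comp cLL = RingHom.id LL := by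
    refine IsFractionRing.ringHom_ext (A := PowerSeries ℂ) fun p => ?_
    rw [RingHom.comp_apply, cLL_algebraMap, cLL_algebraMap, cPS_cPS]
    rfl
  exact congrArg (fun φ : LL →+* LL => φ x) h

lemma cLL_ratFunc (x : RatFunc ℂ) :
    ∃ y : RatFunc ℂ, cLL (algebraMap (RatFunc ℂ) LL x) = algebraMap (RatFunc ℂ) LL y := by
  have hpoly : ∀ P : ℂ[X], cLL (algebraMap (RatFunc ℂ) LL (algebraMap ℂ[X] (RatFunc ℂ) P)) =
      algebraMap (RatFunc ℂ) LL (algebraMap ℂ[X] (RatFunc ℂ) (P.map (starRingEnd ℂ))) := by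
    intro P
    rw [ll_poly, ll_poly, cLL_algebraMap, Polynomial.polynomial_map_coe]
    rfl
  refine ⟨algebraMap ℂ[X] (RatFunc ℂ) (x.num.map (starRingEnd ℂ)) /
    algebraMap ℂ[X] (RatFunc ℂ) (x.denom.map (starRingEnd ℂ)), ?_⟩
  conv_lhs => rw [← RatFunc.num_div_denom x]
  rw [map_div₀, map_div₀, map_div₀, hpoly, hpoly]

lemma cLL_C (z : ℂ) : cLL (algebraMap (RatFunc ℂ) LL (RatFunc.C z)) =
    algebraMap (RatFunc ℂ) LL (RatFunc.C (starRingEnd ℂ z)) := by
  rw [algebraMap_ratFunc_C, algebraMap_ratFunc_C, cLL_algebraMap]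
  simp [cPS]

lemma hpoly_map_cPS (f g : ℂ[X]) (hf : f.map (starRingEnd ℂ) = f) (hg : g.map (starRingEnd ℂ) = g)
    (p : PowerSeries ℂ) : (hpoly f g).eval (cPS p) = cPS ((hpoly f g).eval p) := by
  have key : ∀ f : ℂ[X], f.map (starRingEnd ℂ) = f →
      (f.map PowerSeries.C).eval (cPS p) = cPS ((f.map PowerSeries.C).eval p) := by
    intro f hf
    rw [eval_map, eval_map, Polynomial.hom_eval₂]
    conv_lhs => rw [← hf]
    rw [Polynomial.eval₂_map]
    congr 1
    ext1 z
    simp [cPS]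
  rw [hpoly_eval, hpoly_eval, map_sub, map_mul, key f hf, key g hg]
  congr 2
  simp [cPS]

/-- exactly one root is fixed by complex conjugation -/
lemma exists_unique_fixed (f g : ℂ[X]) (hg : g.natDegree ≤ f.natDegree) (hsep : f.Separable)
    (hfr : f.map (starRingEnd ℂ) = f) (hgr : g.map (starRingEnd ℂ) = g)
    (x₀ : ℝ) (hx₀ : f.eval (x₀ : ℂ) = 0) (hx₀' : ∀ x : ℝ, f.eval (x : ℂ) = 0 → x = x₀) :
    ∃ ρ₀ : LL, ((kpoly f g).map (algebraMap (RatFunc ℂ) LL)).eval ρ₀ = 0 ∧ cLL ρ₀ = ρ₀ ∧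
      ∀ ρ : LL, ((kpoly f g).map (algebraMap (RatFunc ℂ) LL)).eval ρ = 0 → cLL ρ = ρ → ρ = ρ₀ := by
  obtain ⟨-, -, p, hp1, hp2⟩ := roots_LL f g hg hsep
  have hder : ∀ ξ, f.eval ξ = 0 → (derivative f).eval ξ ≠ 0 := by
    intro ξ h
    exact hsep.eval₂_derivative_ne_zero (RingHom.id ℂ) (x := ξ) h
  refine ⟨algebraMap (PowerSeries ℂ) LL (p x₀), ?_, ?_, fun ρ hρ hc => ?_⟩
  · rw [kpoly_map, eval_map_algebraMap, Polynomial.aeval_algebraMap_apply,
      Polynomial.coe_aeval_eq_eval, (hp1 _ hx₀).2, map_zero]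
  · rw [cLL_algebraMap]
    congr 1
    refine ps_root_unique f g _ _ ?_ ?_ (hp1 _ hx₀).2 ?_
    · rw [(hp1 _ hx₀).1]
      rw [cPS_constantCoeff, (hp1 _ hx₀).1, Complex.conj_ofReal]
    · rw [hpoly_map_cPS f g hfr hgr, (hp1 _ hx₀).2, map_zero]
    · rw [(hp1 _ hx₀).1]; exact hder _ hx₀
  · obtain ⟨ξ, hξ, rfl⟩ := hp2 ρ hρ
    rw [cLL_algebraMap] at hc
    have h1 : cPS (p ξ) = p ξ := algebraMap_inj hc
    have h2 : starRingEnd ℂ ξ = ξ := by
      have h3 := cPS_constantCoeff (p ξ)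
      rw [h1, (hp1 _ hξ).1] at h3
      exact h3.symm
    obtain ⟨x, rfl⟩ := Complex.conj_eq_iff_real.1 h2
    rw [hx₀' x hξ]

end Pool.Agent.Lib.MP_1f4a82_an
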