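import Mathlib
import Pool.Agent.Lib.MP_1f4a82_an.GalSeries
import Pool.Agent.Lib.MP_1f4a82_an.GalDihedral

/-!
# Decompositions of real rational functions with one real preimage
-/

open Polynomial

namespace Pool.Agent.Lib.MP_1f4a82_an

attribute [local instance] algRat

/-- the quotient A / B in the field of rational functions -/
noncomputable def rf (A B : ℂ[X]) : RatFunc ℂ :=
  algebraMap ℂ[X] (RatFunc ℂ) A / algebraMap ℂ[X] (RatFunc ℂ) B

/-- complex conjugation of the coefficients -/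
noncomputable def cjPoly (A : ℂ[X]) : ℂ[X] := A.map (starRingEnd ℂ)

lemma gal_exists_of_eval₂_eq_zero {N : Type*} [Field N] (ι : ℂ →+* N) (p : N) (P : ℂ[X])
    (hP : P ≠ 0) (h : P.eval₂ ι p = 0) : ∃ z, p = ι z := by
  let _ := ι.toAlgebra
  have hint : IsIntegral ℂ p := isAlgebraic_iff_isIntegral.1 ⟨P, hP, h⟩
  have := IsAlgClosed.degree_eq_one_of_irreducible ℂ (minpoly.irreducible hint)
  obtain ⟨z, hz⟩ := minpoly.mem_range_of_degree_eq_one ℂ p this
  exact ⟨z, hz.symm⟩

/-- a property of rational functions which holds for the constants and `X` and is stable under the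
field operations holds for all rational functions -/
lemma ratFunc_induction' (C' : RatFunc ℂ → Prop) (hC : ∀ z, C' (RatFunc.C z)) (hX : C' RatFunc.X)
    (hadd : ∀ x y, C' x → C' y → C' (x + y)) (hmul : ∀ x y, C' x → C' y → C' (x * y))
    (hinv : ∀ x, C' x → C' x⁻¹) (x : RatFunc ℂ) : C' x := by
  have hpoly : ∀ P : ℂ[X], C' (algebraMap ℂ[X] (RatFunc ℂ) P) := by
    intro P
    induction P using Polynomial.induction_on' with
    | add p q hp hq => rw [map_add]; exact hadd _ _ hp hq
    | monomial n z =>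
      rw [← Polynomial.C_mul_X_pow_eq_monomial, map_mul, map_pow, RatFunc.algebraMap_X,
        RatFunc.algebraMap_C]
      refine hmul _ _ (hC z) ?_
      induction n with
      | zero =>
        rw [pow_zero]
        have := hC 1
        simpa using this
      | succ n ih => rw [pow_succ]; exact hmul _ _ ih hX
  rw [← RatFunc.num_div_denom x, div_eq_mul_inv]
  exact hmul _ _ (hpoly _) (hinv _ (hpoly _))

lemma hpoly_map_cPS' (f g : ℂ[X]) (hf : f.map (starRingEnd ℂ) = f)
    (hg : g.map (starRingEnd ℂ) = g) : (hpoly f g).map cPS = hpoly f g := by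
  ext1 n
  rw [coeff_map, hpoly_coeff]
  have h1 : starRingEnd ℂ (f.coeff n) = f.coeff n := by
    conv_rhs => rw [← hf]
    rw [coeff_map]
  have h2 : starRingEnd ℂ (g.coeff n) = g.coeff n := by
    conv_rhs => rw [← hg]
    rw [coeff_map]
  simp [cPS, h1, h2]

lemma kpoly_eval_cLL (f g : ℂ[X]) (hf : f.map (starRingEnd ℂ) = f)
    (hg : g.map (starRingEnd ℂ) = g) (ρ : LL) :
    ((kpoly f g).map (algebraMap (RatFunc ℂ) LL)).eval (cLL ρ) =
      cLL (((kpoly f g).map (algebraMap (RatFunc ℂ) LL)).eval ρ) := by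
  rw [kpoly_map, eval_map, eval_map, Polynomial.hom_eval₂]
  conv_lhs => rw [← hpoly_map_cPS' f g hf hg, Polynomial.eval₂_map]
  congr 1
  ext1 z
  exact (cLL_algebraMap z).symm

set_option maxHeartbeats 4000000 in
theorem adjoin_eq_top_of_real (A B : ℂ[X]) (hB : B ≠ 0) (a b : ℝ[X]) (hab : IsCoprime a b)
    (hd : 0 < max a.natDegree b.natDegree) (t₀ : ℝ)
    (hdeg : (a - C t₀ * b).natDegree = max a.natDegree b.natDegree)
    (hsep : (a - C t₀ * b).Separable) (hroot : ∃! x : ℝ, (a - C t₀ * b).IsRoot x)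
    (hgen : IntermediateField.adjoin ℂ {rf A B, rf (cjPoly A) (cjPoly B)} = ⊤) :
    IntermediateField.adjoin ℂ
      {rf A B, rf (a.map (algebraMap ℝ ℂ)) (b.map (algebraMap ℝ ℂ))} = ⊤ := by
  classical
  set ac : ℂ[X] := a.map (algebraMap ℝ ℂ) with hac
  set bc : ℂ[X] := b.map (algebraMap ℝ ℂ) with hbc
  set f : ℂ[X] := (a - C t₀ * b).map (algebraMap ℝ ℂ) with hf
  have hfe : f = ac - C (t₀ : ℂ) * bc := by
    rw [hf, Polynomial.map_sub, Polynomial.map_mul, Polynomial.map_C]; rfl
  have hb0 : b ≠ 0 := by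
    rintro rfl
    have h1 : IsUnit a := isCoprime_zero_right.1 hab
    rw [Polynomial.natDegree_eq_zero_of_isUnit h1] at hd
    simp at hd
  have hbc0 : bc ≠ 0 := by
    rw [hbc, Ne, Polynomial.map_eq_zero_iff (algebraMap ℝ ℂ).injective]; exact hb0
  have hreal : ∀ P : ℝ[X], (P.map (algebraMap ℝ ℂ)).map (starRingEnd ℂ) =
      P.map (algebraMap ℝ ℂ) := by
    intro P
    rw [Polynomial.map_map]
    congr 1
    ext1 x
    simp
  have hg : bc.natDegree ≤ f.natDegree := by
    simp only [hf, hbc, Polynomial.natDegree_map, hdeg]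
    exact le_max_right _ _
  have hsepf : f.Separable := hsep.map
  obtain ⟨x₀, hx₀, hx₀'⟩ := hroot
  have hfx : ∀ x : ℝ, f.eval (x : ℂ) = ((a - C t₀ * b).eval x : ℝ) := by
    intro x
    rw [hf, Polynomial.eval_map]
    have := Polynomial.eval₂_at_apply (p := a - C t₀ * b) (algebraMap ℝ ℂ) x
    exact this
  obtain ⟨ρ₀, hρ₀, hcρ₀, huρ₀⟩ := exists_unique_fixed f bc hg hsepf (hreal _) (hreal _) x₀
    (by rw [hfx, show (a - C t₀ * b).eval x₀ = 0 from hx₀]; simp) (fun x hx => hx₀' x (by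
      rw [hfx] at hx
      exact_mod_cast hx))
  obtain ⟨hsplit, hsepk, -⟩ := roots_LL f bc hg hsepf
  set Pk := kpoly f bc with hPk
  have hPk0 : Pk ≠ 0 := hsepk.ne_zero
  -- the splitting field
  let N : IntermediateField (RatFunc ℂ) LL :=
    IntermediateField.adjoin (RatFunc ℂ) (Pk.rootSet LL)
  have hsf : Pk.IsSplittingField (RatFunc ℂ) N :=
    IntermediateField.adjoin_rootSet_isSplittingField hsplit
  have hfd : FiniteDimensional (RatFunc ℂ) N := Polynomial.IsSplittingField.finiteDimensional N Pk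
  have hgal : IsGalois (RatFunc ℂ) N := IsGalois.of_separable_splitting_field hsepk
  have hmemroot : ∀ ρ : LL, ρ ∈ Pk.rootSet LL ↔
      (Pk.map (algebraMap (RatFunc ℂ) LL)).eval ρ = 0 := by
    intro ρ
    rw [mem_rootSet, eval_map_algebraMap]
    exact ⟨fun h => h.2, fun h => ⟨hPk0, h⟩⟩
  have hcmem : ∀ x ∈ N, cLL x ∈ N := by
    intro x hx
    induction hx using IntermediateField.adjoin_induction with
    | mem x hx =>
      refine IntermediateField.subset_adjoin _ _ ?_
      rw [hmemroot] at hx ⊢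
      rw [hPk, kpoly_eval_cLL f bc (hreal _) (hreal _), ← hPk, hx, map_zero]
    | algebraMap x =>
      obtain ⟨y, hy⟩ := cLL_ratFunc x
      rw [hy]
      exact N.algebraMap_mem y
    | add x y _ _ hx hy => rw [map_add]; exact N.add_mem hx hy
    | mul x y _ _ hx hy => rw [map_mul]; exact N.mul_mem hx hy
    | inv x _ hx => rw [map_inv₀]; exact N.inv_mem hx
  let cN : N →+* N := (cLL.comp (algebraMap N LL)).codRestrict N fun x => hcmem x x.2
  have hcN : ∀ x : N, ((cN x : N) : LL) = cLL (x : LL) := fun x => rfl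
  have hcNcN : ∀ x, cN (cN x) = x := fun x => Subtype.ext (by rw [hcN, hcN, cLL_cLL])
  have hcK : ∀ x : RatFunc ℂ, ∃ y : RatFunc ℂ, cN (algebraMap (RatFunc ℂ) N x) =
      algebraMap (RatFunc ℂ) N y := by
    intro x
    obtain ⟨y, hy⟩ := cLL_ratFunc x
    exact ⟨y, Subtype.ext (by rw [hcN]; exact hy)⟩
  have hρN : ρ₀ ∈ N := IntermediateField.subset_adjoin _ _ ((hmemroot _).2 hρ₀)
  let p : N := ⟨ρ₀, hρN⟩
  let S : Set N := {x | aeval x Pk = 0}
  have hSL : ∀ x : N, x ∈ S ↔ (Pk.map (algebraMap (RatFunc ℂ) LL)).eval (x : LL) = 0 := by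
    intro x
    rw [eval_map_algebraMap]
    have h1 : aeval (x : LL) Pk = algebraMap N LL (aeval x Pk) :=
      Polynomial.aeval_algebraMap_apply LL x Pk
    rw [h1, map_eq_zero]
    rfl
  have hpS : p ∈ S := (hSL p).2 hρ₀
  have hSG : ∀ (w : N ≃ₐ[RatFunc ℂ] N), ∀ x ∈ S, w x ∈ S := by
    intro w x hx
    have h1 : aeval x Pk = 0 := hx
    change aeval (w x) Pk = 0
    have h2 := Polynomial.aeval_algHom_apply w.toAlgHom x Pk
    rw [h1, map_zero] at h2
    exact h2
  have hcp : cN p = p := Subtype.ext (by rw [hcN]; exact hcρ₀)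
  have hu : ∀ x ∈ S, cN x = x → x = p := by
    intro x hx hc
    refine Subtype.ext (huρ₀ _ ((hSL x).1 hx) ?_)
    rw [← hcN, hc]
  -- evaluation at `p`
  let ι : ℂ →+* N := (algebraMap (RatFunc ℂ) N).comp RatFunc.C
  let ev : ℂ[X] →+* N := Polynomial.eval₂RingHom ι p
  have hev : ∀ P, ev P = P.eval₂ ι p := fun P => rfl
  have hrel : ev f = algebraMap (RatFunc ℂ) N RatFunc.X * ev bc := by
    have h1 : aeval p Pk = 0 := hpS
    have e1 : ∀ Q : ℂ[X], aeval p (Q.map RatFunc.C) = ev Q := fun Q => by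
      rw [aeval_def, eval₂_map]; rfl
    rw [hPk, kpoly, map_sub, map_mul, aeval_C, e1, e1] at h1
    exact sub_eq_zero.1 h1
  have hinjι : Function.Injective ι := ι.injective
  have hXC : ∀ u v : ℂ, ι u = algebraMap (RatFunc ℂ) N RatFunc.X * ι v → u = 0 ∧ v = 0 := by
    intro u v h
    have h1 : algebraMap (RatFunc ℂ) N (RatFunc.C u) =
        algebraMap (RatFunc ℂ) N (RatFunc.X * RatFunc.C v) := by
      rw [map_mul]; exact h
    have h2 := (algebraMap (RatFunc ℂ) N).injective h1
    rw [← RatFunc.algebraMap_C, ← RatFunc.algebraMap_C, ← RatFunc.algebraMap_X, ← map_mul] at h2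
    have h3 := RatFunc.algebraMap_injective ℂ h2
    have h4 := congrArg (fun P : ℂ[X] => P.coeff 0) h3
    have h5 := congrArg (fun P : ℂ[X] => P.coeff 1) h3
    simp at h4 h5
    exact ⟨h4, h5.symm⟩
  have hab' : IsCoprime ac bc := by
    have := hab.map (Polynomial.mapRingHom (algebraMap ℝ ℂ))
    exact this
  have hev0 : ∀ P : ℂ[X], P ≠ 0 → ev P ≠ 0 := by
    intro P hP h
    obtain ⟨z, hz⟩ := gal_exists_of_eval₂_eq_zero ι p P hP h
    have h1 : ∀ Q : ℂ[X], ev Q = ι (Q.eval z) := by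
      intro Q
      rw [hev, hz]
      exact Polynomial.eval₂_at_apply ι z
    rw [h1, h1] at hrel
    obtain ⟨h2, h3⟩ := hXC _ _ hrel
    obtain ⟨u, v, huv⟩ := hab'
    have h4 : ac.eval z = 0 := by
      rw [hfe] at h2
      simpa [h3] using h2
    have h5 := congrArg (fun P : ℂ[X] => P.eval z) huv
    simp [h3, h4] at h5
  have hφ : nonZeroDivisors ℂ[X] ≤ (nonZeroDivisors N).comap ev := by
    intro P hP
    rw [Submonoid.mem_comap, mem_nonZeroDivisors_iff_ne_zero]
    exact hev0 P (nonZeroDivisors.ne_zero hP)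
  let ε : RatFunc ℂ →+* N := RatFunc.liftRingHom ev hφ
  have hε : ∀ P : ℂ[X], ε (algebraMap ℂ[X] (RatFunc ℂ) P) = ev P := fun P =>
    RatFunc.liftRingHom_algebraMap _ _ _
  have hεX : ε RatFunc.X = p := by
    rw [← RatFunc.algebraMap_X, hε, hev, eval₂_X]
  have hεC : ∀ z, ε (RatFunc.C z) = ι z := by
    intro z
    rw [← RatFunc.algebraMap_C, hε, hev, eval₂_C]
  have hcι : ∀ z, cN (ι z) = ι (starRingEnd ℂ z) := fun z => Subtype.ext (cLL_C z)
  have hcev : ∀ P, cN (ev P) = ev (cjPoly P) := by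
    intro P
    rw [hev, hev, cjPoly, Polynomial.hom_eval₂, hcp, Polynomial.eval₂_map]
    congr 1
    ext1 z
    exact hcι z
  set h : N := ε (rf A B) with hh
  have hch : cN h = ε (rf (cjPoly A) (cjPoly B)) := by
    rw [hh, rf, rf, map_div₀, map_div₀, map_div₀, hε, hε, hε, hε, hcev, hcev]
  have hwε : ∀ w : N ≃ₐ[RatFunc ℂ] N, w p = p → ∀ x, w (ε x) = ε x := by
    intro w hw x
    induction x using ratFunc_induction' with
    | hC z => rw [hεC]; exact w.commutes _
    | hX => rw [hεX, hw]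
    | hadd x y hx hy => rw [map_add, map_add, hx, hy]
    | hmul x y hx hy => rw [map_mul, map_mul, hx, hy]
    | hinv x hx => rw [map_inv₀, map_inv₀, hx]
  have hgen2 : ∀ w : N ≃ₐ[RatFunc ℂ] N, w h = h → w (cN h) = cN h → w p = p := by
    intro w hw1 hw2
    have key : ∀ x ∈ IntermediateField.adjoin ℂ {rf A B, rf (cjPoly A) (cjPoly B)},
        w (ε x) = ε x := by
      intro x hx
      induction hx using IntermediateField.adjoin_induction with
      | mem x hx =>
        rcases hx with rfl | hx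
        · exact hw1
        · rw [Set.mem_singleton_iff.1 hx, ← hch]; exact hw2
      | algebraMap x =>
        rw [RatFunc.algebraMap_eq_C, hεC]
        exact w.commutes _
      | add x y _ _ hx hy => rw [map_add, map_add, hx, hy]
      | mul x y _ _ hx hy => rw [map_mul, map_mul, hx, hy]
      | inv x _ hx => rw [map_inv₀, map_inv₀, hx]
    have h1 := key RatFunc.X (by rw [hgen]; exact IntermediateField.mem_top)
    rwa [hεX] at h1
  have hfix : ∀ s : N ≃ₐ[RatFunc ℂ] N, s h = h → s p = p := by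
    intro s hs
    exact dihedral_fixed cN hcNcN hcK S hSG p hpS hcp hu h (fun w hw => hwε w hw _)
      (fun w hw => by rw [hch]; exact hwε w hw _) hgen2 s hs
  -- Galois correspondence
  have hpmem : p ∈ IntermediateField.adjoin (RatFunc ℂ) {h} := by
    rw [← IsGalois.fixedField_fixingSubgroup (IntermediateField.adjoin (RatFunc ℂ) {h}),
      IntermediateField.mem_fixedField_iff]
    intro s hs
    refine hfix s ?_
    rw [IntermediateField.mem_fixingSubgroup_iff] at hs
    exact hs h (IntermediateField.subset_adjoin _ _ rfl)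
  -- transfer
  set E := IntermediateField.adjoin ℂ {rf A B, rf ac bc} with hE
  have hX : ∃ x ∈ E, ε x = algebraMap (RatFunc ℂ) N RatFunc.X := by
    refine ⟨rf ac bc - RatFunc.C (t₀ : ℂ), ?_, ?_⟩
    · refine E.sub_mem (IntermediateField.subset_adjoin _ _ (by simp)) ?_
      rw [← RatFunc.algebraMap_eq_C]
      exact E.algebraMap_mem _
    · rw [map_sub, rf, map_div₀, hε, hε, hεC]
      have h1 : ev f = ev ac - ι (t₀ : ℂ) * ev bc := by
        rw [hfe, map_sub, map_mul]
        congr 2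
        rw [hev, eval₂_C]
      rw [h1] at hrel
      have h2 := hev0 bc hbc0
      rw [sub_eq_iff_eq_add, div_eq_iff h2]
      rw [sub_eq_iff_eq_add] at hrel
      rw [hrel]; ring
  have hK : ∀ k : RatFunc ℂ, ∃ x ∈ E, ε x = algebraMap (RatFunc ℂ) N k := by
    intro k
    induction k using ratFunc_induction' with
    | hC z =>
      refine ⟨RatFunc.C z, ?_, hεC z⟩
      rw [← RatFunc.algebraMap_eq_C]
      exact E.algebraMap_mem _
    | hX => exact hX
    | hadd x y hx hy =>
      obtain ⟨x', hx1, hx2⟩ := hx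
      obtain ⟨y', hy1, hy2⟩ := hy
      exact ⟨x' + y', E.add_mem hx1 hy1, by rw [map_add, map_add, hx2, hy2]⟩
    | hmul x y hx hy =>
      obtain ⟨x', hx1, hx2⟩ := hx
      obtain ⟨y', hy1, hy2⟩ := hy
      exact ⟨x' * y', E.mul_mem hx1 hy1, by rw [map_mul, map_mul, hx2, hy2]⟩
    | hinv x hx =>
      obtain ⟨x', hx1, hx2⟩ := hx
      exact ⟨x'⁻¹, E.inv_mem hx1, by rw [map_inv₀, map_inv₀, hx2]⟩
  have hall : ∀ y ∈ IntermediateField.adjoin (RatFunc ℂ) {h}, ∃ x ∈ E, ε x = y := by
    intro y hy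
    induction hy using IntermediateField.adjoin_induction with
    | mem x hx =>
      rw [Set.mem_singleton_iff.1 hx]
      exact ⟨rf A B, IntermediateField.subset_adjoin _ _ (by simp), rfl⟩
    | algebraMap x => exact hK x
    | add x y _ _ hx hy =>
      obtain ⟨x', hx1, hx2⟩ := hx
      obtain ⟨y', hy1, hy2⟩ := hy
      exact ⟨x' + y', E.add_mem hx1 hy1, by rw [map_add, hx2, hy2]⟩
    | mul x y _ _ hx hy =>
      obtain ⟨x', hx1, hx2⟩ := hx
      obtain ⟨y', hy1, hy2⟩ := hy
      exact ⟨x' * y', E.mul_mem hx1 hy1, by rw [map_mul, hx2, hy2]⟩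
    | inv x _ hx =>
      obtain ⟨x', hx1, hx2⟩ := hx
      exact ⟨x'⁻¹, E.inv_mem hx1, by rw [map_inv₀, hx2]⟩
  obtain ⟨x, hx1, hx2⟩ := hall p hpmem
  rw [← hεX] at hx2
  have hxX : x = RatFunc.X := ε.injective hx2
  rw [hxX] at hx1
  rw [eq_top_iff, ← RatFunc.adjoin_X]
  refine IntermediateField.adjoin_le_iff.2 ?_
  rw [Set.singleton_subset_iff]
  exact hx1

end Pool.Agent.Lib.MP_1f4a82_an
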