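import Pool.Agent.Lib.MP_1f4a82_an.Basic
import Pool.Agent.Lib.MP_1f4a82_an.Local
import Pool.Agent.Lib.MP_1f4a82_an.Rat
import Pool.Agent.Lib.MP_1f4a82_an.Galois

/-!
Generic injectivity of `(h, h̄)` implies generic injectivity of `(h, g)`.
-/

open Topology Filter Set

namespace Pool.Agent.Lib.MP_1f4a82_an

open Polynomial

/-- value of a rational function -/
noncomputable def evR (z : ℂ) (φ : RatFunc ℂ) : ℂ := φ.eval (RingHom.id ℂ) z

theorem finite_denom (φ : RatFunc ℂ) : {z : ℂ | φ.denom.eval z = 0}.Finite := by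
  have h : {z : ℂ | φ.denom.eval z = 0} = {z | φ.denom.IsRoot z} := rfl
  rw [h]
  exact Polynomial.finite_setOfPred_isRoot φ.denom_ne_zero

theorem evR_add {z : ℂ} {φ ψ : RatFunc ℂ} (h1 : φ.denom.eval z ≠ 0) (h2 : ψ.denom.eval z ≠ 0) :
    evR z (φ + ψ) = evR z φ + evR z ψ :=
  RatFunc.eval_add _ _ (by simpa [Polynomial.eval₂_id] using h1)
    (by simpa [Polynomial.eval₂_id] using h2)

theorem evR_mul {z : ℂ} {φ ψ : RatFunc ℂ} (h1 : φ.denom.eval z ≠ 0) (h2 : ψ.denom.eval z ≠ 0) :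
    evR z (φ * ψ) = evR z φ * evR z ψ :=
  RatFunc.eval_mul _ _ (by simpa [Polynomial.eval₂_id] using h1)
    (by simpa [Polynomial.eval₂_id] using h2)

theorem evR_inv {z : ℂ} {φ : RatFunc ℂ} (h1 : φ.denom.eval z ≠ 0) (h2 : φ⁻¹.denom.eval z ≠ 0) :
    evR z φ⁻¹ = (evR z φ)⁻¹ := by
  by_cases h0 : φ = 0
  · subst h0
    simp [evR]
  · have h := evR_mul h1 h2
    rw [mul_inv_cancel₀ h0] at h
    have h1 : evR z 1 = 1 := RatFunc.eval_one _ _
    rw [h1] at h
    exact eq_inv_of_mul_eq_one_right h.symm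

theorem evR_C (z c : ℂ) : evR z (algebraMap ℂ (RatFunc ℂ) c) = c := by
  have : algebraMap ℂ (RatFunc ℂ) c = RatFunc.C c := rfl
  rw [this]
  simp [evR]

theorem evR_rf {A B : ℂ[X]} {z : ℂ} (hB : B.eval z ≠ 0) : evR z (rf A B) = A.eval z / B.eval z := by
  have hB0 : B ≠ 0 := by rintro rfl; simp at hB
  have h1 : (rf A B).denom ∣ B := RatFunc.denom_div_dvd A B
  have h2 : (rf A B).denom.eval z ≠ 0 := by
    obtain ⟨q, hq⟩ := h1
    intro h0
    apply hB
    rw [hq, Polynomial.eval_mul, h0, zero_mul]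
  have h3 : rf A B * algebraMap ℂ[X] (RatFunc ℂ) B = algebraMap ℂ[X] (RatFunc ℂ) A := by
    unfold rf
    exact div_mul_cancel₀ _ (RatFunc.algebraMap_ne_zero hB0)
  have h4 : evR z (rf A B * algebraMap ℂ[X] (RatFunc ℂ) B)
      = evR z (rf A B) * evR z (algebraMap ℂ[X] (RatFunc ℂ) B) :=
    evR_mul h2 (by simp)
  have h5 : ∀ p : ℂ[X], evR z (algebraMap ℂ[X] (RatFunc ℂ) p) = p.eval z := by
    intro p
    unfold evR
    rw [RatFunc.eval_algebraMap]
    simp [Polynomial.eval₂_id]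
  rw [h3, h5, h5] at h4
  rw [h4]
  field_simp

/-- Elements of `ℂ(S)` are functions of the elements of `S`, outside a finite set. -/
theorem agree_of_mem_adjoin (S : Set (RatFunc ℂ)) {φ : RatFunc ℂ}
    (hφ : φ ∈ IntermediateField.adjoin ℂ S) :
    ∃ E : Set ℂ, E.Finite ∧ ∀ z ∉ E, ∀ z' ∉ E, (∀ s ∈ S, evR z s = evR z' s) →
      evR z φ = evR z' φ := by
  induction hφ using IntermediateField.adjoin_induction with
  | mem x hx => exact ⟨∅, Set.finite_empty, fun z _ z' _ h => h x hx⟩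
  | algebraMap x => exact ⟨∅, Set.finite_empty, fun z _ z' _ _ => by rw [evR_C, evR_C]⟩
  | add x y _ _ hx hy =>
    obtain ⟨E1, h1, h1'⟩ := hx
    obtain ⟨E2, h2, h2'⟩ := hy
    refine ⟨E1 ∪ E2 ∪ ({z | x.denom.eval z = 0} ∪ {z | y.denom.eval z = 0}),
      (h1.union h2).union ((finite_denom x).union (finite_denom y)), fun z hz z' hz' h => ?_⟩
    simp only [Set.mem_union, Set.mem_ofPred_eq, not_or] at hz hz'
    rw [evR_add hz.2.1 hz.2.2, evR_add hz'.2.1 hz'.2.2, h1' z hz.1.1 z' hz'.1.1 h,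
      h2' z hz.1.2 z' hz'.1.2 h]
  | mul x y _ _ hx hy =>
    obtain ⟨E1, h1, h1'⟩ := hx
    obtain ⟨E2, h2, h2'⟩ := hy
    refine ⟨E1 ∪ E2 ∪ ({z | x.denom.eval z = 0} ∪ {z | y.denom.eval z = 0}),
      (h1.union h2).union ((finite_denom x).union (finite_denom y)), fun z hz z' hz' h => ?_⟩
    simp only [Set.mem_union, Set.mem_ofPred_eq, not_or] at hz hz'
    rw [evR_mul hz.2.1 hz.2.2, evR_mul hz'.2.1 hz'.2.2, h1' z hz.1.1 z' hz'.1.1 h,
      h2' z hz.1.2 z' hz'.1.2 h]
  | inv x _ hx =>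
    obtain ⟨E1, h1, h1'⟩ := hx
    refine ⟨E1 ∪ ({z | x.denom.eval z = 0} ∪ {z | x⁻¹.denom.eval z = 0}),
      h1.union ((finite_denom x).union (finite_denom _)), fun z hz z' hz' h => ?_⟩
    simp only [Set.mem_union, Set.mem_ofPred_eq, not_or] at hz hz'
    rw [evR_inv hz.2.1 hz.2.2, evR_inv hz'.2.1 hz'.2.2, h1' z hz.1 z' hz'.1 h]

theorem ratMap_coe (A B : ℂ[X]) (z : ℂ) : ratMap A B (z : P) =
    if B.eval z = 0 then OnePoint.infty else ((A.eval z / B.eval z : ℂ) : P) := rfl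

theorem ratMap_infty (A B : ℂ[X]) : ratMap A B OnePoint.infty =
    if B.natDegree < A.natDegree then OnePoint.infty
      else ((A.coeff B.natDegree / B.coeff B.natDegree : ℂ) : P) := rfl

theorem ratMap_C_mul {c : ℂ} (hc : c ≠ 0) (A B : ℂ[X]) :
    ratMap (C c * A) (C c * B) = ratMap A B := by
  funext x
  induction x using OnePoint.rec with
  | infty =>
    rw [ratMap_infty, ratMap_infty, natDegree_C_mul hc, natDegree_C_mul hc, coeff_C_mul,
      coeff_C_mul, mul_div_mul_left _ _ hc]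
  | coe z =>
    rw [ratMap_coe, ratMap_coe, eval_mul, eval_C, eval_mul, eval_C, mul_div_mul_left _ _ hc]
    by_cases hz : B.eval z = 0
    · simp [hz]
    · simp [hz, hc]

theorem eval_cjPoly (p : ℂ[X]) (z : ℂ) :
    (cjPoly p).eval z = (starRingEnd ℂ) (p.eval ((starRingEnd ℂ) z)) := by
  unfold cjPoly
  rw [eval_map]
  have h := Polynomial.eval₂_at_apply (p := p) (starRingEnd ℂ) ((starRingEnd ℂ) z)
  rw [Complex.conj_conj] at h
  exact h

theorem exists_real_of_cj {p : ℂ[X]} (h : cjPoly p = p) :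
    ∃ q : ℝ[X], q.map (algebraMap ℝ ℂ) = p := by
  have h1 : p ∈ Polynomial.lifts (algebraMap ℝ ℂ) := by
    rw [Polynomial.lifts_iff_coeff_lifts]
    intro n
    have h2 : (starRingEnd ℂ) (p.coeff n) = p.coeff n := by
      conv_rhs => rw [← h]
      unfold cjPoly
      rw [coeff_map]
    obtain ⟨r, hr⟩ := Complex.conj_eq_iff_real.mp h2
    exact ⟨r, by rw [hr]; rfl⟩
  exact (Polynomial.mem_lifts _).mp h1

theorem infinite_eval_ne {p : ℂ[X]} (hp : p ≠ 0) : {z : ℂ | p.eval z ≠ 0}.Infinite := by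
  have h1 : {z : ℂ | p.eval z = 0}.Finite := Polynomial.finite_setOfPred_isRoot hp
  have h2 := h1.infinite_compl
  exact h2

/-- A rational map commuting with complex conjugation has real coefficients. -/
theorem exists_real_form {a₀ b₀ : ℂ[X]} (hab : IsCoprime a₀ b₀) (hb : b₀ ≠ 0)
    (hreal : ∀ z, ratMap a₀ b₀ (cjP z) = cjP (ratMap a₀ b₀ z)) :
    ∃ a b : ℝ[X], IsCoprime a b ∧ b ≠ 0 ∧ a.natDegree = a₀.natDegree ∧
      b.natDegree = b₀.natDegree ∧
      ratMap a₀ b₀ = ratMap (a.map (algebraMap ℝ ℂ)) (b.map (algebraMap ℝ ℂ)) := by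
  set c := b₀.leadingCoeff⁻¹ with hc
  have hlc : b₀.leadingCoeff ≠ 0 := leadingCoeff_ne_zero.mpr hb
  have hc0 : c ≠ 0 := inv_ne_zero hlc
  set a₁ := C c * a₀ with ha₁
  set b₁ := C c * b₀ with hb₁
  have hrm : ratMap a₁ b₁ = ratMap a₀ b₀ := ratMap_C_mul hc0 _ _
  have hu : IsUnit (C c : ℂ[X]) := isUnit_C.mpr hc0.isUnit
  have hab1 : IsCoprime a₁ b₁ := by
    rw [ha₁, hb₁, isCoprime_mul_unit_left hu]
    exact hab
  have hb1m : b₁.Monic := by
    rw [hb₁, Monic, leadingCoeff_mul, leadingCoeff_C, hc, inv_mul_cancel₀ hlc]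
  have hcb : (cjPoly b₁).Monic := hb1m.map _
  have hid : a₁ * cjPoly b₁ = cjPoly a₁ * b₁ := by
    refine Polynomial.eq_of_infinite_eval_eq _ _ ?_
    refine (infinite_eval_ne (mul_ne_zero hb1m.ne_zero hcb.ne_zero)).mono ?_
    intro w hw
    simp only [Set.mem_ofPred_eq, eval_mul] at hw ⊢
    have hw1 : b₁.eval w ≠ 0 := left_ne_zero_of_mul hw
    have hw2 : (cjPoly b₁).eval w ≠ 0 := right_ne_zero_of_mul hw
    rw [eval_cjPoly] at hw2
    have hw3 : b₁.eval ((starRingEnd ℂ) w) ≠ 0 := by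
      intro h0; apply hw2; rw [h0, map_zero]
    have h1 := hreal (((starRingEnd ℂ) w : ℂ) : P)
    rw [← hrm, cjP_coe, Complex.conj_conj, ratMap_coe, ratMap_coe, if_neg hw1, if_neg hw3,
      cjP_coe] at h1
    have h2 := OnePoint.coe_injective h1
    rw [map_div₀] at h2
    rw [eval_cjPoly, eval_cjPoly]
    field_simp at h2
    rw [h2]
    ring
  have hbb : cjPoly b₁ = b₁ := by
    have h1 : b₁ ∣ cjPoly b₁ := by
      refine hab1.symm.dvd_of_dvd_mul_left ?_
      rw [hid]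
      exact dvd_mul_left _ _
    refine (Polynomial.eq_of_monic_of_dvd_of_natDegree_le hb1m hcb h1 ?_)
    exact natDegree_map_le
  have haa : cjPoly a₁ = a₁ := by
    rw [hbb] at hid
    exact (mul_right_cancel₀ hb1m.ne_zero hid).symm
  obtain ⟨a, ha⟩ := exists_real_of_cj haa
  obtain ⟨b, hbR⟩ := exists_real_of_cj hbb
  refine ⟨a, b, ?_, ?_, ?_, ?_, ?_⟩
  · rw [← Polynomial.isCoprime_map (algebraMap ℝ ℂ), ha, hbR]
    exact hab1
  · rintro rfl
    rw [Polynomial.map_zero] at hbR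
    exact hb1m.ne_zero hbR.symm
  · rw [← natDegree_map (algebraMap ℝ ℂ), ha, ha₁, natDegree_C_mul hc0]
  · rw [← natDegree_map (algebraMap ℝ ℂ), hbR, hb₁, natDegree_C_mul hc0]
  · rw [ha, hbR, hrm]

theorem natDegree_sub_of_infty {a b : ℝ[X]} (hb : b ≠ 0) (t₀ : ℝ)
    (hinf : ratMap (a.map (algebraMap ℝ ℂ)) (b.map (algebraMap ℝ ℂ)) OnePoint.infty ≠
      ((t₀ : ℂ) : P)) : (a - C t₀ * b).natDegree = max a.natDegree b.natDegree := by
  rw [ratMap_infty, natDegree_map, natDegree_map] at hinf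
  by_cases h : b.natDegree < a.natDegree
  · rw [max_eq_left h.le]
    refine natDegree_sub_eq_left_of_natDegree_lt ?_
    exact (natDegree_C_mul_le _ _).trans_lt h
  · rw [if_neg h] at hinf
    push Not at h
    rw [max_eq_right h]
    refine natDegree_eq_of_le_of_coeff_ne_zero ?_ ?_
    · exact (natDegree_sub_le _ _).trans (max_le h (natDegree_C_mul_le _ _))
    · rw [coeff_sub, coeff_C_mul]
      intro h0
      apply hinf
      have hlc : b.coeff b.natDegree ≠ 0 := by
        rw [coeff_natDegree]; exact leadingCoeff_ne_zero.mpr hb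
      congr 1
      rw [coeff_map, coeff_map]
      have h1 : a.coeff b.natDegree = t₀ * b.coeff b.natDegree := by linarith
      have h2 : (algebraMap ℝ ℂ) (b.coeff b.natDegree) ≠ 0 := by simpa using hlc
      rw [div_eq_iff h2, h1, map_mul]
      rfl

theorem eval_map_real (a : ℝ[X]) (x : ℝ) :
    (a.map (algebraMap ℝ ℂ)).eval (x : ℂ) = ((a.eval x : ℝ) : ℂ) := by
  rw [eval_map]
  exact Polynomial.eval₂_at_apply (algebraMap ℝ ℂ) x

/-- A finite point is mapped to `t` iff it is a root of `A - t B`. -/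
theorem ratMap_eq_iff {A B : ℂ[X]} (h : IsCoprime A B) (t z : ℂ) :
    ratMap A B (z : P) = ((t : ℂ) : P) ↔ (A - C t * B).eval z = 0 := by
  rw [ratMap_coe, eval_sub, eval_mul, eval_C]
  by_cases hz : B.eval z = 0
  · rw [if_pos hz, hz, mul_zero, sub_zero]
    constructor
    · intro h0
      exact absurd h0 (OnePoint.infty_ne_coe _)
    · intro h0
      obtain ⟨u, v, huv⟩ := h
      have := congrArg (eval z) huv
      simp [h0, hz] at this
  · rw [if_neg hz]
    constructor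
    · intro h0
      have h1 := OnePoint.coe_injective h0
      rw [div_eq_iff hz] at h1
      rw [h1]; ring
    · intro h0
      congr 1
      rw [div_eq_iff hz]
      linear_combination h0

theorem separable_of_reg {a b : ℝ[X]} (hab : IsCoprime a b) (t₀ : ℝ)
    (hreg : ∀ z, ratMap (a.map (algebraMap ℝ ℂ)) (b.map (algebraMap ℝ ℂ)) z = ((t₀ : ℂ) : P) →
      ∃ U ∈ 𝓝 z, InjOn (ratMap (a.map (algebraMap ℝ ℂ)) (b.map (algebraMap ℝ ℂ))) U) :
    (a - C t₀ * b).Separable := by
  set A := a.map (algebraMap ℝ ℂ) with hA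
  set B := b.map (algebraMap ℝ ℂ) with hB
  have hAB : IsCoprime A B := by rw [hA, hB, Polynomial.isCoprime_map]; exact hab
  rw [← Polynomial.separable_map (algebraMap ℝ ℂ)]
  have hmap : (a - C t₀ * b).map (algebraMap ℝ ℂ) = A - C (t₀ : ℂ) * B := by
    rw [Polynomial.map_sub, Polynomial.map_mul, map_C, hA, hB]
    rfl
  rw [hmap, Polynomial.separable_def,
    Polynomial.isCoprime_iff_aeval_ne_zero_of_isAlgClosed ℂ ℂ]
  intro z
  by_contra hcon
  push Not at hcon
  obtain ⟨h1, h2⟩ := hcon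
  rw [coe_aeval_eq_eval] at h1 h2
  have h3 := (ratMap_eq_iff hAB (t₀ : ℂ) z).mpr h1
  obtain ⟨U, hU, hinj⟩ := hreg _ h3
  have hBz : B.eval z ≠ 0 := by
    intro h0
    rw [ratMap_coe, if_pos h0] at h3
    exact OnePoint.infty_ne_coe _ h3
  have hne : ∀ᶠ w : ℂ in 𝓝 z, B.eval w ≠ 0 := B.continuous.continuousAt.eventually_ne hBz
  have hUn : ∀ᶠ w : ℂ in 𝓝 z, (w : P) ∈ U := OnePoint.continuous_coe.continuousAt.eventually hU
  have han : AnalyticAt ℂ (fun w => A.eval w / B.eval w) z := by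
    refine AnalyticAt.div ?_ ?_ hBz
    · exact (AnalyticOnNhd.eval_polynomial A) z trivial
    · exact (AnalyticOnNhd.eval_polynomial B) z trivial
  have hder := deriv_ne_zero_of_injOn han (hne.and hUn) (by
    rintro w ⟨hw1, hw2⟩ w' ⟨hw1', hw2'⟩ hww
    have h4 := hinj hw2 hw2' (by
      rw [ratMap_coe, ratMap_coe, if_neg hw1, if_neg hw1']
      simp only at hww
      rw [hww])
    exact OnePoint.coe_injective h4)
  apply hder
  have h5 : HasDerivAt (fun w => A.eval w / B.eval w)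
      ((A.derivative.eval z * B.eval z - A.eval z * B.derivative.eval z) / B.eval z ^ 2) z :=
    (A.hasDerivAt z).div (B.hasDerivAt z) hBz
  rw [h5.deriv]
  rw [eval_sub, eval_mul, eval_C] at h1
  rw [derivative_sub, derivative_C_mul, eval_sub, eval_mul, eval_C] at h2
  have h6 : A.derivative.eval z * B.eval z - A.eval z * B.derivative.eval z = 0 := by
    linear_combination B.eval z * h2 - B.derivative.eval z * h1
  rw [h6, zero_div]

theorem unique_root {a b : ℝ[X]} (hab : IsCoprime a b) (t₀ : ℝ)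
    (hroot : ∃! x : P, cjP x = x ∧
      ratMap (a.map (algebraMap ℝ ℂ)) (b.map (algebraMap ℝ ℂ)) x = ((t₀ : ℂ) : P))
    (hinf : ratMap (a.map (algebraMap ℝ ℂ)) (b.map (algebraMap ℝ ℂ)) OnePoint.infty ≠
      ((t₀ : ℂ) : P)) : ∃! x : ℝ, (a - C t₀ * b).IsRoot x := by
  set A := a.map (algebraMap ℝ ℂ) with hA
  set B := b.map (algebraMap ℝ ℂ) with hB
  have hAB : IsCoprime A B := by rw [hA, hB, Polynomial.isCoprime_map]; exact hab
  have hmap : (a - C t₀ * b).map (algebraMap ℝ ℂ) = A - C (t₀ : ℂ) * B := by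
    rw [Polynomial.map_sub, Polynomial.map_mul, map_C, hA, hB]
    rfl
  have key : ∀ x : ℝ, ratMap A B ((x : ℂ) : P) = ((t₀ : ℂ) : P) ↔ (a - C t₀ * b).IsRoot x := by
    intro x
    rw [ratMap_eq_iff hAB, ← hmap, eval_map_real, IsRoot.def]
    exact Complex.ofReal_eq_zero
  obtain ⟨x, ⟨hx1, hx2⟩, hxu⟩ := hroot
  have hxi : x ≠ OnePoint.infty := by rintro rfl; exact hinf hx2
  obtain ⟨z, rfl⟩ := OnePoint.ne_infty_iff_exists.mp hxi
  rw [cjP_coe] at hx1
  obtain ⟨r, hr⟩ := Complex.conj_eq_iff_real.mp (OnePoint.coe_injective hx1)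
  subst hr
  refine ⟨r, (key r).mp hx2, fun y hy => ?_⟩
  have h1 := hxu ((y : ℂ) : P) ⟨by rw [cjP_coe, Complex.conj_ofReal], (key y).mpr hy⟩
  exact_mod_cast OnePoint.coe_injective h1

/-- A rational function of degree at least two takes infinitely many values twice. -/
theorem exists_pair {N D : ℂ[X]} (hND : IsCoprime N D) (hD : D ≠ 0)
    (hdeg : 2 ≤ max N.natDegree D.natDegree) {F : Set ℂ} (hF : F.Finite) :
    ∃ z ∉ F, ∃ z' ∉ F, z ≠ z' ∧ D.eval z ≠ 0 ∧ D.eval z' ≠ 0 ∧
      N.eval z / D.eval z = N.eval z' / D.eval z' := by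
  have hcop : ∀ z, N.eval z = 0 → D.eval z ≠ 0 := by
    intro z h1 h2
    obtain ⟨u, v, huv⟩ := hND
    have := congrArg (eval z) huv
    simp [h1, h2] at this
  -- the Wronskian
  set Wr := derivative N * D - N * derivative D with hWr
  have hWr0 : Wr ≠ 0 := by
    intro h0
    have h1 : derivative N * D = N * derivative D := sub_eq_zero.mp h0
    have h2 : D ∣ derivative D := by
      refine hND.symm.dvd_of_dvd_mul_left ?_
      rw [← h1]
      exact dvd_mul_left _ _
    have h3 : N ∣ derivative N := by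
      refine hND.dvd_of_dvd_mul_right ?_
      rw [h1]
      exact dvd_mul_right _ _
    have h4 : ∀ p : ℂ[X], p ∣ derivative p → p.natDegree = 0 := by
      intro p hp
      by_contra hpd
      have h5 : derivative p ≠ 0 := by
        intro h6
        exact hpd (Polynomial.derivative_eq_zero.mp h6)
      have h7 := natDegree_le_of_dvd hp h5
      have h8 := natDegree_derivative_lt hpd
      omega
    have h5 := h4 D h2
    have h6 := h4 N h3
    rw [h5, h6] at hdeg
    simp at hdeg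
  set n := max N.natDegree D.natDegree with hn
  -- the values to be avoided
  have hfin : ((fun z => N.eval z / D.eval z) '' (F ∪ {z | Wr.eval z = 0}) ∪
      {N.coeff n / D.coeff n}).Finite := by
    refine Set.Finite.union ((hF.union ?_).image _) (Set.finite_singleton _)
    exact Polynomial.finite_setOfPred_isRoot hWr0
  obtain ⟨w, hw⟩ := hfin.infinite_compl.nonempty
  simp only [Set.mem_compl_iff, Set.mem_union, Set.mem_image, Set.mem_singleton_iff, not_or,
    Set.mem_ofPred_eq] at hw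
  obtain ⟨hw1, hw2⟩ := hw
  set p := N - C w * D with hp
  have hpn : p.coeff n ≠ 0 := by
    rw [hp, coeff_sub, coeff_C_mul]
    intro h0
    by_cases hDn : D.coeff n = 0
    · rw [hDn, mul_zero, sub_zero] at h0
      -- both top coefficients vanish
      rcases le_total N.natDegree D.natDegree with h | h
      · rw [hn, max_eq_right h, coeff_natDegree] at hDn
        exact hD (leadingCoeff_eq_zero.mp hDn)
      · rw [hn, max_eq_left h, coeff_natDegree] at h0
        have hN0 : N = 0 := leadingCoeff_eq_zero.mp h0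
        rw [hN0] at h
        simp at h
        rw [hn, hN0, h] at hdeg
        simp at hdeg
    · apply hw2
      field_simp
      linear_combination -h0
  have hpd : 2 ≤ p.natDegree := hdeg.trans (le_natDegree_of_ne_zero hpn)
  have hp0 : p ≠ 0 := by rintro h0; rw [h0] at hpn; simp at hpn
  obtain ⟨z, hz⟩ := IsAlgClosed.exists_root p (by
    intro h0
    rw [degree_eq_natDegree hp0] at h0
    have : p.natDegree = 0 := by exact_mod_cast h0
    omega)
  obtain ⟨q, hq⟩ := dvd_iff_isRoot.mpr hz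
  have hq0 : q ≠ 0 := by rintro rfl; rw [mul_zero] at hq; exact hp0 hq
  have hqd : 1 ≤ q.natDegree := by
    have h1 := natDegree_mul (X_sub_C_ne_zero z) hq0
    rw [← hq, natDegree_X_sub_C] at h1
    omega
  obtain ⟨z', hz'⟩ := IsAlgClosed.exists_root q (by
    intro h0
    rw [degree_eq_natDegree hq0] at h0
    have : q.natDegree = 0 := by exact_mod_cast h0
    omega)
  have hval : ∀ y, p.eval y = 0 → D.eval y ≠ 0 ∧ N.eval y / D.eval y = w := by
    intro y hy
    rw [hp, eval_sub, eval_mul, eval_C] at hy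
    have hDy : D.eval y ≠ 0 := by
      intro h0
      rw [h0, mul_zero, sub_zero] at hy
      exact hcop y hy h0
    refine ⟨hDy, ?_⟩
    rw [div_eq_iff hDy]
    linear_combination hy
  have hz1 := hval z hz
  have hpz' : p.eval z' = 0 := by rw [hq, eval_mul, hz', mul_zero]
  have hz2 := hval z' hpz'
  have hzF : z ∉ F := fun h => hw1 ⟨z, Or.inl h, hz1.2⟩
  have hzF' : z' ∉ F := fun h => hw1 ⟨z', Or.inl h, hz2.2⟩
  refine ⟨z, hzF, z', hzF', ?_, hz1.1, hz2.1, by rw [hz1.2, hz2.2]⟩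
  rintro rfl
  -- double root
  have hdp : (derivative p).eval z = 0 := by
    rw [hq, derivative_mul, eval_add, eval_mul, eval_mul, hz', derivative_X_sub_C]
    simp
  rw [hp, derivative_sub, derivative_C_mul, eval_sub, eval_mul, eval_C] at hdp
  have hpz : N.eval z - w * D.eval z = 0 := by
    have := hpz'
    rw [hp, eval_sub, eval_mul, eval_C] at this
    exact this
  refine hw1 ⟨z, Or.inr ?_, hz1.2⟩
  rw [hWr, eval_sub, eval_mul, eval_mul]
  linear_combination D.eval z * hdp - (derivative D).eval z * hpz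

theorem adjoin_eq_top_of_generic {A B : ℂ[X]} (hB : B ≠ 0) {E : Set P} (hE : E.Finite)
    (hgen : ∀ z ∉ E, ∀ z' ∉ E, ratMap A B z = ratMap A B z' →
      ratMap A B (cjP z) = ratMap A B (cjP z') → z = z') :
    IntermediateField.adjoin ℂ {rf A B, rf (cjPoly A) (cjPoly B)} = ⊤ := by
  set E₀ := IntermediateField.adjoin ℂ {rf A B, rf (cjPoly A) (cjPoly B)} with hE₀
  have hu : E₀ = IntermediateField.adjoin ℂ {RatFunc.Luroth.generator E₀} :=
    RatFunc.Luroth.eq_adjoin_generator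
  set u := RatFunc.Luroth.generator E₀ with hu'
  have hBc : cjPoly B ≠ 0 := by
    unfold cjPoly
    exact (Polynomial.map_ne_zero_iff (starRingEnd ℂ).injective).mpr hB
  by_cases hn : max u.num.natDegree u.denom.natDegree = 1
  · rw [hu]
    rw [← IntermediateField.finrank_eq_one_iff_eq_top, RatFunc.finrank_eq_max_natDegree, hn]
  · exfalso
    -- many pairs with the same value of `u`
    have hpair : ∀ F : Set ℂ, F.Finite → ∃ z ∉ F, ∃ z' ∉ F, z ≠ z' ∧ evR z u = evR z' u := by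
      intro F hF
      by_cases h0 : max u.num.natDegree u.denom.natDegree = 0
      · have h1 := Nat.max_eq_zero_iff.mp h0
        obtain ⟨c, hc⟩ := (RatFunc.eq_C_iff u).mpr h1
        obtain ⟨z, hz⟩ := hF.infinite_compl.nonempty
        obtain ⟨z', hz'⟩ := (hF.insert z).infinite_compl.nonempty
        refine ⟨z, hz, z', fun h => hz' (Or.inr h), fun h => hz' (Or.inl h.symm), ?_⟩
        rw [hc]
        simp [evR]
      · have h2 : 2 ≤ max u.num.natDegree u.denom.natDegree := by omega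
        obtain ⟨z, hz, z', hz', hne, hD, hD', hval⟩ :=
          exists_pair (RatFunc.isCoprime_num_denom u) u.denom_ne_zero h2 hF
        refine ⟨z, hz, z', hz', hne, ?_⟩
        simp only [evR, RatFunc.eval, Polynomial.eval₂_id]
        exact hval
    have hm1 : rf A B ∈ IntermediateField.adjoin ℂ {u} := by
      rw [← hu]
      exact IntermediateField.subset_adjoin _ _ (by simp)
    have hm2 : rf (cjPoly A) (cjPoly B) ∈ IntermediateField.adjoin ℂ {u} := by
      rw [← hu]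
      exact IntermediateField.subset_adjoin _ _ (by simp)
    obtain ⟨E1, hE1, h1⟩ := agree_of_mem_adjoin _ hm1
    obtain ⟨E2, hE2, h2⟩ := agree_of_mem_adjoin _ hm2
    have hE3 : ((fun z : ℂ => (z : P)) ⁻¹' E).Finite :=
      hE.preimage (OnePoint.coe_injective.injOn)
    obtain ⟨z, hz, z', hz', hne, heq⟩ := hpair (E1 ∪ E2 ∪ ({z | B.eval z = 0} ∪
      {z | (cjPoly B).eval z = 0}) ∪ (fun z : ℂ => (z : P)) ⁻¹' E)
      (((hE1.union hE2).union ((Polynomial.finite_setOfPred_isRoot hB).union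
        (Polynomial.finite_setOfPred_isRoot hBc))).union hE3)
    simp only [Set.mem_union, Set.mem_ofPred_eq, Set.mem_preimage, not_or] at hz hz'
    obtain ⟨⟨⟨a1, a2⟩, a3, a4⟩, a5⟩ := hz
    obtain ⟨⟨⟨b1, b2⟩, b3, b4⟩, b5⟩ := hz'
    have h3 := h1 z a1 z' b1 (by rintro s rfl; exact heq)
    have h4 := h2 z a2 z' b2 (by rintro s rfl; exact heq)
    rw [evR_rf a3, evR_rf b3] at h3
    rw [evR_rf a4, evR_rf b4] at h4
    apply hne
    apply OnePoint.coe_injective
    refine hgen _ a5 _ b5 ?_ ?_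
    · rw [ratMap_coe, ratMap_coe, if_neg a3, if_neg b3, h3]
    · rw [eval_cjPoly] at a4 b4
      have a6 : B.eval ((starRingEnd ℂ) z) ≠ 0 := by intro h0; apply a4; rw [h0, map_zero]
      have b6 : B.eval ((starRingEnd ℂ) z') ≠ 0 := by intro h0; apply b4; rw [h0, map_zero]
      rw [cjP_coe, cjP_coe, ratMap_coe, ratMap_coe, if_neg a6, if_neg b6]
      rw [eval_cjPoly, eval_cjPoly, eval_cjPoly, eval_cjPoly, ← map_div₀, ← map_div₀] at h4
      rw [(starRingEnd ℂ).injective h4]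

theorem generic_injective {h g : P → P} (hh : ∀ p, HolAt h p) (hg : ∀ p, HolAt g p)
    (hreal : ∀ z, g (cjP z) = cjP (g z)) (t₀ : ℝ)
    (hroot : ∃! x : P, cjP x = x ∧ g x = ((t₀ : ℂ) : P)) (hinf : g OnePoint.infty ≠ ((t₀ : ℂ) : P))
    (hreg : ∀ z, g z = ((t₀ : ℂ) : P) → ∃ U ∈ 𝓝 z, InjOn g U)
    (hgen : ∃ E : Set P, E.Finite ∧ ∀ z ∉ E, ∀ z' ∉ E, h z = h z' → h (cjP z) = h (cjP z') → z = z') :
    ∃ E : Set P, E.Finite ∧ ∀ z ∉ E, ∀ z' ∉ E, h z = h z' → g z = g z' → z = z' := by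
  obtain ⟨E, hEf, hE⟩ := hgen
  have hnh : ∃ x y, h x ≠ h y := by
    by_contra hc
    push Not at hc
    obtain ⟨x, hx⟩ := hEf.infinite_compl.nonempty
    obtain ⟨y, hy⟩ := (hEf.insert x).infinite_compl.nonempty
    have hyE : y ∉ E := fun h => hy (Or.inr h)
    exact hy (Or.inl (hE x hx y hyE (hc _ _) (hc _ _)).symm)
  have hng : ∃ x y, g x ≠ g y := by
    obtain ⟨x, ⟨-, hx⟩, -⟩ := hroot
    exact ⟨x, OnePoint.infty, by rw [hx]; exact hinf.symm⟩
  obtain ⟨A, B, hAB, hB, hABd, rfl⟩ := exists_ratMap hh hnh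
  obtain ⟨a₀, b₀, hab₀, hb₀, hab₀d, rfl⟩ := exists_ratMap hg hng
  obtain ⟨a, b, hab, hb, had, hbd, hrm⟩ := exists_real_form hab₀ hb₀ hreal
  rw [hrm] at hroot hinf hreg ⊢
  have htop := adjoin_eq_top_of_generic hB hEf hE
  have htop2 := adjoin_eq_top_of_real A B hB a b hab (by rw [had, hbd]; omega) t₀
    (natDegree_sub_of_infty hb t₀ hinf) (separable_of_reg hab t₀ hreg)
    (unique_root hab t₀ hroot hinf) htop
  have hX : RatFunc.X ∈ IntermediateField.adjoin ℂ
      {rf A B, rf (a.map (algebraMap ℝ ℂ)) (b.map (algebraMap ℝ ℂ))} := by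
    rw [htop2]; trivial
  obtain ⟨E', hE', hagree⟩ := agree_of_mem_adjoin _ hX
  have hbC : b.map (algebraMap ℝ ℂ) ≠ 0 :=
    (Polynomial.map_ne_zero_iff (algebraMap ℝ ℂ).injective).mpr hb
  refine ⟨(fun z : ℂ => (z : P)) '' (E' ∪ ({z | B.eval z = 0} ∪
    {z | (b.map (algebraMap ℝ ℂ)).eval z = 0})) ∪ {OnePoint.infty}, ?_, ?_⟩
  · exact ((hE'.union ((Polynomial.finite_setOfPred_isRoot hB).union
        (Polynomial.finite_setOfPred_isRoot hbC))).image _).union (Set.finite_singleton _)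
  · intro z hz z' hz' hhz hgz
    simp only [Set.mem_union, Set.mem_singleton_iff, not_or] at hz hz'
    obtain ⟨w, rfl⟩ := OnePoint.ne_infty_iff_exists.mp hz.2
    obtain ⟨w', rfl⟩ := OnePoint.ne_infty_iff_exists.mp hz'.2
    have hw : w ∉ E' ∪ ({z | B.eval z = 0} ∪ {z | (b.map (algebraMap ℝ ℂ)).eval z = 0}) :=
      fun h => hz.1 ⟨w, h, rfl⟩
    have hw' : w' ∉ E' ∪ ({z | B.eval z = 0} ∪ {z | (b.map (algebraMap ℝ ℂ)).eval z = 0}) :=
      fun h => hz'.1 ⟨w', h, rfl⟩
    simp only [Set.mem_union, Set.mem_ofPred_eq, not_or] at hw hw'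
    rw [ratMap_coe, ratMap_coe, if_neg hw.2.1, if_neg hw'.2.1] at hhz
    rw [ratMap_coe, ratMap_coe, if_neg hw.2.2, if_neg hw'.2.2] at hgz
    have h1 := hagree w hw.1 w' hw'.1 (by
      rintro s (rfl | rfl)
      · rw [evR_rf hw.2.1, evR_rf hw'.2.1]
        exact OnePoint.coe_injective hhz
      · rw [evR_rf hw.2.2, evR_rf hw'.2.2]
        exact OnePoint.coe_injective hgz)
    have h2 : ∀ y : ℂ, evR y RatFunc.X = y := fun y => by simp [evR]
    rw [h2, h2] at h1
    rw [h1]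

end Pool.Agent.Lib.MP_1f4a82_an
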