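import Pool.Agent.Lib.MP_1f4a82_an.Basic

/-!
Germs of curves in the product of two spheres.
-/

open Topology Filter Set

namespace Pool.Agent.Lib.MP_1f4a82_an

/-- Local analytic inverse. -/
theorem exists_local_inverse {r : ℂ → ℂ} (hr : AnalyticAt ℂ r 0) (h0 : r 0 = 0)
    (h1 : deriv r 0 ≠ 0) : ∃ ρ : ℂ → ℂ, AnalyticAt ℂ ρ 0 ∧ ρ 0 = 0 ∧ deriv ρ 0 ≠ 0 ∧
      (∀ᶠ t in 𝓝 (0 : ℂ), r (ρ t) = t) ∧ ∀ᶠ s in 𝓝 (0 : ℂ), ρ (r s) = s := by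
  have hs := hr.hasStrictDerivAt
  have hd := (hs.to_localInverse h1)
  have hl := HasStrictDerivAt.eventually_left_inverse hs h1
  have hrr := HasStrictDerivAt.eventually_right_inverse hs h1
  set ρ := hs.localInverse r (deriv r 0) 0 h1 with hρ
  rw [h0] at hd hrr
  have hρ0 : ρ 0 = 0 := by
    have := hl.self_of_nhds
    rwa [h0] at this
  have hmap : map r (𝓝 0) = 𝓝 0 := by
    have := map_nhds_of_deriv_ne hr h1
    rwa [h0] at this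
  -- continuity near `0`
  have hcont : ∀ᶠ w in 𝓝 (0 : ℂ), ContinuousAt ρ w := by
    have hne : ∀ᶠ s in 𝓝 (0 : ℂ), AnalyticAt ℂ r s ∧ deriv r s ≠ 0 ∧ ∀ᶠ y in 𝓝 s, ρ (r y) = y :=
      hr.eventually_analyticAt.and ((hr.deriv.continuousAt.eventually_ne h1).and hl.eventually_nhds)
    have h3 : ∀ᶠ w in 𝓝 (0 : ℂ), w ∈ r '' {s | AnalyticAt ℂ r s ∧ deriv r s ≠ 0 ∧
        ∀ᶠ y in 𝓝 s, ρ (r y) = y} := by
      rw [← hmap]
      exact image_mem_map hne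
    filter_upwards [h3] with w hw
    obtain ⟨s, ⟨hs1, hs2, hs3⟩, rfl⟩ := hw
    rw [ContinuousAt, hs3.self_of_nhds, ← map_nhds_of_deriv_ne hs1 hs2, tendsto_map'_iff]
    exact tendsto_id.congr' (hs3.mono fun y hy => hy.symm)
  refine ⟨ρ, ?_, hρ0, ?_, hrr, hl⟩
  · refine analyticAt_of_right_inverse (g := r) hcont ?_ ?_ hrr
    · rw [hρ0]; exact hr
    · rw [hρ0]; exact h1
  · rw [hd.hasDerivAt.deriv]
    exact inv_ne_zero h1

/-- A root function. -/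
noncomputable def rt (d : ℕ) (w : ℂ) : ℂ := w ^ ((d : ℂ)⁻¹)

theorem rt_pow {d : ℕ} (hd : d ≠ 0) (w : ℂ) : rt d w ^ d = w := Complex.cpow_nat_inv_pow w hd

theorem norm_lt_of_pow {d : ℕ} {w u : ℂ} {ε : ℝ} (hε : 0 < ε) (h : u ^ d = w)
    (hw : ‖w‖ < ε ^ d) : ‖u‖ < ε := by
  rw [← h, norm_pow] at hw
  exact lt_of_pow_lt_pow_left₀ d hε.le hw

theorem tendsto_rt {d : ℕ} (hd : d ≠ 0) : Tendsto (rt d) (𝓝 0) (𝓝 0) := by
  rw [Metric.tendsto_nhds_nhds]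
  intro ε hε
  refine ⟨ε ^ d, pow_pos hε d, fun w hw => ?_⟩
  rw [dist_zero_right] at hw ⊢
  exact norm_lt_of_pow hε (rt_pow hd w) hw

theorem map_pow_nhds_zero {d : ℕ} (hd : d ≠ 0) : map (fun s : ℂ => s ^ d) (𝓝 0) = 𝓝 0 := by
  refine le_antisymm ?_ ?_
  · have : Tendsto (fun s : ℂ => s ^ d) (𝓝 0) (𝓝 (0 ^ d)) := (continuous_pow d).tendsto 0
    rwa [zero_pow hd] at this
  · intro S hS
    filter_upwards [(tendsto_rt hd).eventually hS] with w hw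
    have h1 : rt d w ^ d ∈ S := hw
    rwa [rt_pow hd] at h1

/-- A function invariant under a primitive root of unity is a function of the power. -/
theorem exists_of_invariant {Y : ℂ → ℂ} (hY : AnalyticAt ℂ Y 0) {d : ℕ} (hd : d ≠ 0) {ζ : ℂ}
    (hζ : IsPrimitiveRoot ζ d) (h : ∀ᶠ u in 𝓝 (0 : ℂ), Y (ζ * u) = Y u) :
    ∃ Z : ℂ → ℂ, AnalyticAt ℂ Z 0 ∧ ∀ᶠ u in 𝓝 (0 : ℂ), Y u = Z (u ^ d) := by
  obtain ⟨ε, hε, hball⟩ := Metric.eventually_nhds_iff_ball.1 (h.and hY.eventually_analyticAt)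
  have hnζ : ‖ζ‖ = 1 := hζ.norm'_eq_one hd
  have hinv : ∀ j : ℕ, ∀ u ∈ Metric.ball (0 : ℂ) ε, Y (ζ ^ j * u) = Y u := by
    intro j
    induction j with
    | zero => intro u _; simp
    | succ j ih =>
      intro u hu
      have h1 : ζ ^ j * u ∈ Metric.ball (0 : ℂ) ε := by
        rw [mem_ball_zero_iff] at hu ⊢
        rw [norm_mul, norm_pow, hnζ, one_pow, one_mul]
        exact hu
      rw [pow_succ', mul_assoc, (hball _ h1).1, ih u hu]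
  have hpow : ∀ u v : ℂ, u ∈ Metric.ball (0 : ℂ) ε → u ^ d = v ^ d → Y u = Y v := by
    intro u v hu huv
    by_cases hv : v = 0
    · rw [hv, zero_pow hd] at huv
      rw [hv, pow_eq_zero_iff hd |>.1 huv]
    · have h1 : (u / v) ^ d = 1 := by
        rw [div_pow, huv, div_self (pow_ne_zero d hv)]
      have : NeZero d := ⟨hd⟩
      obtain ⟨j, -, hj⟩ := hζ.eq_pow_of_pow_eq_one h1
      have h2 : u = ζ ^ j * v := by
        rw [hj, div_mul_cancel₀ _ hv]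
      have hv' : v ∈ Metric.ball (0 : ℂ) ε := by
        rw [mem_ball_zero_iff] at hu ⊢
        rw [h2, norm_mul, norm_pow, hnζ, one_pow, one_mul] at hu
        exact hu
      rw [h2, hinv j v hv']
  refine ⟨fun w => Y (rt d w), ?_, ?_⟩
  · have hc : ContinuousAt (fun w => Y (rt d w)) 0 := by
      have h0 : rt d 0 = 0 := by
        have := rt_pow hd 0
        exact (pow_eq_zero_iff hd).1 this
      have h1 : ContinuousAt (rt d) 0 := by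
        rw [ContinuousAt, h0]
        exact tendsto_rt hd
      exact ContinuousAt.comp' (g := Y) (by rw [h0]; exact hY.continuousAt) h1
    refine Complex.analyticAt_of_differentiable_on_punctured_nhds_of_continuousAt ?_ hc
    have hsmall : ∀ᶠ w in 𝓝[≠] (0 : ℂ), rt d w ∈ Metric.ball (0 : ℂ) ε :=
      nhdsWithin_le_nhds ((tendsto_rt hd).eventually (Metric.ball_mem_nhds 0 hε))
    filter_upwards [hsmall, self_mem_nhdsWithin] with w₀ hw₀ hne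
    have hne' : (fun z : ℂ => z) w₀ ≠ 0 := hne
    obtain ⟨v, hv, hv0, hvd⟩ := exists_analytic_root (u := fun z => z) analyticAt_id hne' hd
    have hvw : v w₀ ^ d = w₀ := hvd.self_of_nhds
    have hvball : v w₀ ∈ Metric.ball (0 : ℂ) ε := by
      rw [mem_ball_zero_iff] at hw₀ ⊢
      have h1 : ‖rt d w₀‖ ^ d < ε ^ d := pow_lt_pow_left₀ hw₀ (norm_nonneg _) hd
      refine norm_lt_of_pow hε hvw ?_
      rwa [← norm_pow, rt_pow hd] at h1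
    have h2 : ∀ᶠ w in 𝓝 w₀, v w ∈ Metric.ball (0 : ℂ) ε :=
      hv.continuousAt.eventually_mem (Metric.isOpen_ball.mem_nhds hvball)
    have h3 : (fun w => Y (v w)) =ᶠ[𝓝 w₀] fun w => Y (rt d w) := by
      filter_upwards [h2, hvd] with w hw1 hw2
      exact hpow _ _ hw1 (by rw [hw2, rt_pow hd])
    have h4 : AnalyticAt ℂ (fun w => Y (v w)) w₀ :=
      AnalyticAt.fun_comp (g := Y) (f := v) (hball _ hvball).2 hv
    exact (h4.congr h3).differentiableAt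
  · filter_upwards [Metric.ball_mem_nhds (0 : ℂ) hε] with u hu
    exact hpow u _ hu (rt_pow hd _).symm

/-- Factorisation of a pair of analytic functions through an injective pair. -/
theorem pair_factor {x y : ℂ → ℂ} (hx : AnalyticAt ℂ x 0) (hy : AnalyticAt ℂ y 0)
    (hc : ¬ ∀ᶠ s in 𝓝 (0 : ℂ), x s = x 0) :
    ∃ (X Y m : ℂ → ℂ) (U : Set ℂ), U ∈ 𝓝 (0 : ℂ) ∧ AnalyticAt ℂ X 0 ∧ AnalyticAt ℂ Y 0 ∧
      AnalyticAt ℂ m 0 ∧ m 0 = 0 ∧ (¬ ∀ᶠ s in 𝓝 (0 : ℂ), m s = 0) ∧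
      (∀ u ∈ U, ∀ v ∈ U, X u = X v → Y u = Y v → u = v) ∧
      ∀ᶠ s in 𝓝 (0 : ℂ), x s = X (m s) ∧ y s = Y (m s) := by
  classical
  obtain ⟨a, r, ha, hr, hr0, hr1, hxr⟩ := exists_normal_form hx hc
  obtain ⟨ρ, hρ, hρ0, hρ1, hrρ, hρr⟩ := exists_local_inverse hr hr0 hr1
  -- the possible exponents
  set S : Finset ℕ := a.divisors.filter fun k => ∃ Y : ℂ → ℂ, AnalyticAt ℂ Y 0 ∧
    ∀ᶠ t in 𝓝 (0 : ℂ), y (ρ t) = Y (t ^ k) with hS
  have h1S : 1 ∈ S := by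
    rw [hS, Finset.mem_filter, Nat.mem_divisors]
    refine ⟨⟨one_dvd _, ha⟩, fun t => y (ρ t), ?_, ?_⟩
    · exact AnalyticAt.fun_comp (g := y) (f := ρ) (by rw [hρ0]; exact hy) hρ
    · exact Eventually.of_forall fun t => by rw [pow_one]
  obtain ⟨k, hkS, hkmax⟩ := S.exists_max_image id ⟨1, h1S⟩
  have hk := hkS
  rw [hS, Finset.mem_filter, Nat.mem_divisors] at hk
  obtain ⟨⟨⟨b, hab⟩, -⟩, Y, hY, hyY⟩ := hk
  have hk0 : k ≠ 0 := by rintro rfl; rw [zero_mul] at hab; exact ha hab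
  have hb0 : b ≠ 0 := by rintro rfl; rw [mul_zero] at hab; exact ha hab
  -- injectivity near `0`
  have hinj : ∃ U ∈ 𝓝 (0 : ℂ), ∀ u ∈ U, ∀ v ∈ U, x 0 + u ^ b = x 0 + v ^ b → Y u = Y v → u = v := by
    have hfin : {ζ : ℂ | ζ ^ b = 1 ∧ ζ ≠ 1}.Finite := by
      refine Set.Finite.subset (Polynomial.nthRootsFinset b (1 : ℂ)).finite_toSet ?_
      rintro ζ ⟨h, -⟩
      rw [Finset.mem_coe, Polynomial.mem_nthRootsFinset (Nat.pos_of_ne_zero hb0)]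
      exact h
    have hev : ∀ ζ ∈ {ζ : ℂ | ζ ^ b = 1 ∧ ζ ≠ 1}, ∀ᶠ u in 𝓝[≠] (0 : ℂ), Y (ζ * u) ≠ Y u := by
      rintro ζ ⟨hζ, hζ1⟩
      have hYζ : AnalyticAt ℂ (fun u => Y (ζ * u)) 0 :=
        AnalyticAt.fun_comp (g := Y) (f := fun u => ζ * u) (by simpa using hY) (by fun_prop)
      rcases hYζ.eventually_eq_or_eventually_ne hY with h | h
      · exfalso
        have hd0 : orderOf ζ ≠ 0 := by
          rw [orderOf_ne_zero_iff, isOfFinOrder_iff_pow_eq_one]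
          exact ⟨b, Nat.pos_of_ne_zero hb0, hζ⟩
        have hdb : orderOf ζ ∣ b := orderOf_dvd_of_pow_eq_one hζ
        have hd1 : orderOf ζ ≠ 1 := fun h => hζ1 (orderOf_eq_one_iff.1 h)
        obtain ⟨Z, hZ, hYZ⟩ := exists_of_invariant hY hd0 (IsPrimitiveRoot.orderOf ζ) h
        have hmem : k * orderOf ζ ∈ S := by
          rw [hS, Finset.mem_filter, Nat.mem_divisors]
          refine ⟨⟨by rw [hab]; exact mul_dvd_mul_left k hdb, ha⟩, Z, hZ, ?_⟩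
          have ht : Tendsto (fun t : ℂ => t ^ k) (𝓝 0) (𝓝 0) := (map_pow_nhds_zero hk0).le
          filter_upwards [hyY, ht.eventually hYZ] with t h1 h2
          rw [h1, h2, ← pow_mul]
        have h3 := hkmax _ hmem
        simp only [id] at h3
        have h4 : 2 ≤ orderOf ζ := by omega
        nlinarith [Nat.pos_of_ne_zero hk0]
      · exact h
    have hall : ∀ᶠ u in 𝓝[≠] (0 : ℂ), ∀ ζ ∈ {ζ : ℂ | ζ ^ b = 1 ∧ ζ ≠ 1}, Y (ζ * u) ≠ Y u :=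
      (eventually_all_finite hfin).2 hev
    rw [eventually_nhdsWithin_iff] at hall
    refine ⟨_, hall, ?_⟩
    intro u hu v hv hX hYuv
    have hX' : u ^ b = v ^ b := add_left_cancel hX
    by_cases hv0 : v = 0
    · rw [hv0, zero_pow hb0] at hX'
      rw [hv0, (pow_eq_zero_iff hb0).1 hX']
    · by_contra hne
      have h1 : (u / v) ^ b = 1 := by
        rw [div_pow, hX', div_self (pow_ne_zero b hv0)]
      have h2 : u / v ≠ 1 := fun h => hne ((div_eq_one_iff_eq hv0).1 h)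
      refine hv hv0 (u / v) ⟨h1, h2⟩ ?_
      rw [div_mul_cancel₀ _ hv0, hYuv]
  obtain ⟨U, hU, hUinj⟩ := hinj
  refine ⟨fun u => x 0 + u ^ b, Y, fun s => r s ^ k, U, hU, by fun_prop, hY, hr.pow k, ?_, ?_,
    hUinj, ?_⟩
  · simp only [hr0]
    exact zero_pow hk0
  · intro h
    have h1 : ∀ᶠ s in 𝓝[≠] (0 : ℂ), s = 0 := by
      apply Filter.Eventually.filter_mono nhdsWithin_le_nhds
      filter_upwards [h, hρr] with s h1 h2
      rw [(pow_eq_zero_iff hk0).1 h1, hρ0] at h2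
      exact h2.symm
    have h3 : ∀ᶠ s in 𝓝[≠] (0 : ℂ), s ≠ 0 := self_mem_nhdsWithin
    obtain ⟨s, hs, hs'⟩ := (h1.and h3).exists
    exact hs' hs
  · have hr' : Tendsto r (𝓝 0) (𝓝 0) := by
      have := hr.continuousAt.tendsto
      rwa [hr0] at this
    filter_upwards [hxr, hρr, hr'.eventually hyY] with s h1 h2 h3
    refine ⟨?_, ?_⟩
    · rw [h1, hab, pow_mul]
    · rw [← h3, h2]

/-- Both coordinates are holomorphic and nonconstant at t. -/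
def Good (φ : ℂ → P × P) (t : ℂ) : Prop :=
  HolAt (fun s => (φ s).1) t ∧ HolAt (fun s => (φ s).2) t ∧
    (¬ ∀ᶠ s in 𝓝 t, (φ s).1 = (φ t).1) ∧ ¬ ∀ᶠ s in 𝓝 t, (φ s).2 = (φ t).2

/-- Coordinates of a germ in charts. -/
theorem Good.coords {φ : ℂ → P × P} (h : Good φ 0) {e₁ e₂ : OpenPartialHomeomorph P ℂ}
    (he₁ : e₁ ∈ RS.atlas (X := P)) (he₂ : e₂ ∈ RS.atlas (X := P)) (h₁ : (φ 0).1 ∈ e₁.source)
    (h₂ : (φ 0).2 ∈ e₂.source) :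
    AnalyticAt ℂ (fun s => e₁ (φ s).1) 0 ∧ AnalyticAt ℂ (fun s => e₂ (φ s).2) 0 ∧
      (¬ ∀ᶠ s in 𝓝 (0 : ℂ), e₁ (φ s).1 = e₁ (φ 0).1) ∧
      ∀ᶠ s in 𝓝 (0 : ℂ), (φ s).1 ∈ e₁.source ∧ (φ s).2 ∈ e₂.source := by
  obtain ⟨c1, c2, c3, c4⟩ := h
  have m1 : ∀ᶠ s in 𝓝 (0 : ℂ), (φ s).1 ∈ e₁.source :=
    c1.continuousAt.eventually_mem (e₁.open_source.mem_nhds h₁)
  have m2 : ∀ᶠ s in 𝓝 (0 : ℂ), (φ s).2 ∈ e₂.source :=
    c2.continuousAt.eventually_mem (e₂.open_source.mem_nhds h₂)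
  refine ⟨(holAt_iff_of_chart' c1.continuousAt he₁ h₁).1 c1,
    (holAt_iff_of_chart' c2.continuousAt he₂ h₂).1 c2, ?_, m1.and m2⟩
  intro hc
  apply c3
  filter_upwards [hc, m1] with s h1 h2
  exact e₁.injOn h2 h₁ h1

theorem germ_factor {φ : ℂ → P × P} (h : Good φ 0) :
    ∃ (ψ : ℂ → P × P) (m : ℂ → ℂ) (U : Set ℂ), U ∈ 𝓝 (0 : ℂ) ∧ Good ψ 0 ∧ InjOn ψ U ∧
      AnalyticAt ℂ m 0 ∧ m 0 = 0 ∧ (¬ ∀ᶠ s in 𝓝 (0 : ℂ), m s = 0) ∧
      ∀ᶠ s in 𝓝 (0 : ℂ), φ s = ψ (m s) := by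
  obtain ⟨e₁, he₁, h₁⟩ := RS.exists_chart (φ 0).1
  obtain ⟨e₂, he₂, h₂⟩ := RS.exists_chart (φ 0).2
  obtain ⟨hx, hy, hc, hsrc⟩ := h.coords he₁ he₂ h₁ h₂
  obtain ⟨X, Y, m, U, hU, hX, hY, hm, hm0, hmc, hinj, hxy⟩ := pair_factor hx hy hc
  have hX0 : X 0 = e₁ (φ 0).1 := by
    have := hxy.self_of_nhds.1
    rw [hm0] at this
    exact this.symm
  have hY0 : Y 0 = e₂ (φ 0).2 := by
    have := hxy.self_of_nhds.2
    rw [hm0] at this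
    exact this.symm
  have tX : ∀ᶠ u in 𝓝 (0 : ℂ), X u ∈ e₁.target :=
    hX.continuousAt.eventually_mem (e₁.open_target.mem_nhds (by rw [hX0]; exact e₁.map_source h₁))
  have tY : ∀ᶠ u in 𝓝 (0 : ℂ), Y u ∈ e₂.target :=
    hY.continuousAt.eventually_mem (e₂.open_target.mem_nhds (by rw [hY0]; exact e₂.map_source h₂))
  have hφ : ∀ᶠ s in 𝓝 (0 : ℂ), φ s = (e₁.symm (X (m s)), e₂.symm (Y (m s))) := by
    filter_upwards [hxy, hsrc] with s h1 h2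
    rw [← h1.1, ← h1.2, e₁.left_inv h2.1, e₂.left_inv h2.2]
  have hmt : Tendsto m (𝓝 0) (𝓝 0) := by
    have := hm.continuousAt.tendsto
    rwa [hm0] at this
  refine ⟨fun u => (e₁.symm (X u), e₂.symm (Y u)), m,
    U ∩ {u | X u ∈ e₁.target ∧ Y u ∈ e₂.target}, inter_mem hU (tX.and tY), ⟨?_, ?_, ?_, ?_⟩, ?_, hm,
    hm0, hmc, hφ⟩
  · exact HolAt.comp (g := e₁.symm) (f := X) (holAt_chart_symm he₁ tX.self_of_nhds)
      (holAt_iff_analyticAt.2 hX)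
  · exact HolAt.comp (g := e₂.symm) (f := Y) (holAt_chart_symm he₂ tY.self_of_nhds)
      (holAt_iff_analyticAt.2 hY)
  · intro hcon
    apply h.2.2.1
    have h0 := hφ.self_of_nhds
    rw [hm0] at h0
    filter_upwards [hφ, hmt.eventually hcon] with s h1 h2
    rw [h1, h0]
    exact h2
  · intro hcon
    apply h.2.2.2
    have h0 := hφ.self_of_nhds
    rw [hm0] at h0
    filter_upwards [hφ, hmt.eventually hcon] with s h1 h2
    rw [h1, h0]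
    exact h2
  · rintro u ⟨huU, hu1, hu2⟩ v ⟨hvU, hv1, hv2⟩ huv
    have h3 := (Prod.mk.inj huv).1
    have h4 := (Prod.mk.inj huv).2
    refine hinj u huU v hvU ?_ ?_
    · rw [← e₁.right_inv hu1, ← e₁.right_inv hv1, h3]
    · rw [← e₂.right_inv hu2, ← e₂.right_inv hv2, h4]

/-- The common form of two germs that meet in a sequence of points. -/
theorem germ_core {φ ψ : ℂ → P × P} (hφ : Good φ 0) (hψ : Good ψ 0)
    (h : ∀ V ∈ 𝓝 (0 : ℂ), ∃ t ∈ V, ∃ t' ∈ V, t ≠ 0 ∧ t' ≠ 0 ∧ φ t = ψ t') :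
    ∃ (a b : ℕ) (ζ : ℂ) (r r' ρ ρ' : ℂ → ℂ), a ≠ 0 ∧ b ≠ 0 ∧ ζ ≠ 0 ∧
      (AnalyticAt ℂ r 0 ∧ r 0 = 0 ∧ deriv r 0 ≠ 0) ∧ (AnalyticAt ℂ r' 0 ∧ r' 0 = 0 ∧ deriv r' 0 ≠ 0) ∧
      (AnalyticAt ℂ ρ 0 ∧ ρ 0 = 0 ∧ deriv ρ 0 ≠ 0) ∧ (AnalyticAt ℂ ρ' 0 ∧ ρ' 0 = 0 ∧ deriv ρ' 0 ≠ 0) ∧
      (∀ᶠ t in 𝓝 (0 : ℂ), r (ρ t) = t) ∧ (∀ᶠ s in 𝓝 (0 : ℂ), ρ (r s) = s) ∧
      (∀ᶠ t in 𝓝 (0 : ℂ), r' (ρ' t) = t) ∧ (∀ᶠ s in 𝓝 (0 : ℂ), ρ' (r' s) = s) ∧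
      ∀ᶠ s in 𝓝 (0 : ℂ), φ (ρ (s ^ b)) = ψ (ρ' (ζ * s ^ a)) := by
  -- the base points agree
  have h0 : φ 0 = ψ 0 := by
    by_contra hne
    have cφ : ContinuousAt φ 0 := hφ.1.continuousAt.prodMk hφ.2.1.continuousAt
    have cψ : ContinuousAt ψ 0 := hψ.1.continuousAt.prodMk hψ.2.1.continuousAt
    obtain ⟨A, B, hA, hB, hAφ, hBψ, hAB⟩ := t2_separation hne
    obtain ⟨t, ht, t', ht', -, -, htt⟩ := h _ ((cφ.eventually_mem (hA.mem_nhds hAφ)).and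
      (cψ.eventually_mem (hB.mem_nhds hBψ)))
    exact disjoint_left.1 hAB ht.1 (htt ▸ ht'.2)
  obtain ⟨e₁, he₁, h₁⟩ := RS.exists_chart (φ 0).1
  obtain ⟨e₂, he₂, h₂⟩ := RS.exists_chart (φ 0).2
  have h₁' : (ψ 0).1 ∈ e₁.source := h0 ▸ h₁
  have h₂' : (ψ 0).2 ∈ e₂.source := h0 ▸ h₂
  obtain ⟨hx, hy, hc, hsrc⟩ := hφ.coords he₁ he₂ h₁ h₂
  obtain ⟨hx', hy', hc', hsrc'⟩ := hψ.coords he₁ he₂ h₁' h₂'
  set x : ℂ → ℂ := fun s => e₁ (φ s).1 with hxdef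
  set y : ℂ → ℂ := fun s => e₂ (φ s).2 with hydef
  set x' : ℂ → ℂ := fun s => e₁ (ψ s).1 with hxdef'
  set y' : ℂ → ℂ := fun s => e₂ (ψ s).2 with hydef'
  have hx0 : x 0 = x' 0 := by simp only [hxdef, hxdef', h0]
  obtain ⟨a, r, ha, hr, hr0, hr1, hxr⟩ := exists_normal_form hx hc
  obtain ⟨b, r', hb, hr', hr0', hr1', hxr'⟩ := exists_normal_form hx' hc'
  obtain ⟨ρ, hρ, hρ0, hρ1, hrρ, hρr⟩ := exists_local_inverse hr hr0 hr1
  obtain ⟨ρ', hρ', hρ0', hρ1', hrρ', hρr'⟩ := exists_local_inverse hr' hr0' hr1'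
  have htpow : ∀ k : ℕ, k ≠ 0 → Tendsto (fun s : ℂ => s ^ k) (𝓝 0) (𝓝 0) :=
    fun k hk => (map_pow_nhds_zero hk).le
  have hf : AnalyticAt ℂ (fun s => y (ρ (s ^ b))) 0 := by
    refine AnalyticAt.fun_comp (g := y) (f := fun s => ρ (s ^ b)) ?_ ?_
    · simp only [zero_pow hb, hρ0]; exact hy
    · refine AnalyticAt.fun_comp (g := ρ) (f := fun s => s ^ b) ?_ (by fun_prop)
      simp only [zero_pow hb]; exact hρ
  have hg : ∀ ζ : ℂ, AnalyticAt ℂ (fun s => y' (ρ' (ζ * s ^ a))) 0 := by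
    intro ζ
    refine AnalyticAt.fun_comp (g := y') (f := fun s => ρ' (ζ * s ^ a)) ?_ ?_
    · simp only [zero_pow ha, mul_zero, hρ0']; exact hy'
    · refine AnalyticAt.fun_comp (g := ρ') (f := fun s => ζ * s ^ a) ?_ (by fun_prop)
      simp only [zero_pow ha, mul_zero]; exact hρ'
  have hfin : {ζ : ℂ | ζ ^ b = 1}.Finite := by
    refine Set.Finite.subset (Polynomial.nthRootsFinset b (1 : ℂ)).finite_toSet ?_
    intro ζ h
    rw [Finset.mem_coe, Polynomial.mem_nthRootsFinset (Nat.pos_of_ne_zero hb)]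
    exact h
  -- some root of unity works
  have hex : ∃ ζ : ℂ, ζ ^ b = 1 ∧ ∀ᶠ s in 𝓝 (0 : ℂ), y (ρ (s ^ b)) = y' (ρ' (ζ * s ^ a)) := by
    by_contra hcon
    push Not at hcon
    have hev : ∀ ζ ∈ {ζ : ℂ | ζ ^ b = 1}, ∀ᶠ s in 𝓝[≠] (0 : ℂ),
        y (ρ (s ^ b)) ≠ y' (ρ' (ζ * s ^ a)) := by
      intro ζ hζ
      rcases hf.eventually_eq_or_eventually_ne (hg ζ) with h | h
      · exact absurd h (Filter.not_eventually.2 (hcon ζ hζ))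
      · exact h
    have hall := (eventually_all_finite hfin).2 hev
    rw [eventually_nhdsWithin_iff] at hall
    obtain ⟨ε, hε, hball⟩ := Metric.eventually_nhds_iff_ball.1 hall
    have tr : Tendsto r (𝓝 0) (𝓝 0) := by
      have := hr.continuousAt.tendsto
      rwa [hr0] at this
    have hsm : ∀ᶠ t in 𝓝 (0 : ℂ), r t ∈ Metric.ball (0 : ℂ) (ε ^ b) :=
      tr.eventually (Metric.ball_mem_nhds 0 (pow_pos hε b))
    obtain ⟨t, ht, t', ht', ht0, ht0', htt⟩ := h _ ((hsm.and (hxr.and hρr)).and (hxr'.and hρr'))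
    obtain ⟨⟨ht1, ht2, ht3⟩, -⟩ := ht
    obtain ⟨-, ht4, ht5⟩ := ht'
    have hp0 : r t ≠ 0 := by
      intro h
      rw [h, hρ0] at ht3
      exact ht0 ht3.symm
    have hpq : r t ^ a = r' t' ^ b := by
      have e1 : x t = x' t' := by simp only [hxdef, hxdef', htt]
      rw [ht2, ht4, hx0] at e1
      exact add_left_cancel e1
    set s := rt b (r t) with hs
    have hsb : s ^ b = r t := rt_pow hb _
    have hs0 : s ≠ 0 := by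
      intro h
      rw [h, zero_pow hb] at hsb
      exact hp0 hsb.symm
    have hsε : s ∈ Metric.ball (0 : ℂ) ε := by
      rw [mem_ball_zero_iff] at ht1 ⊢
      exact norm_lt_of_pow hε hsb ht1
    have hsa : s ^ a ≠ 0 := pow_ne_zero a hs0
    have hζ : (r' t' / s ^ a) ^ b = 1 := by
      rw [div_pow, ← hpq, ← hsb, ← pow_mul, ← pow_mul, mul_comm b a, div_self (pow_ne_zero _ hs0)]
    refine hball s hsε hs0 _ hζ ?_
    rw [div_mul_cancel₀ _ hsa, hsb, ht3, ht5]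
    simp only [hydef, hydef', htt]
  obtain ⟨ζ, hζ, hyy⟩ := hex
  have hζ0 : ζ ≠ 0 := by
    rintro rfl
    rw [zero_pow hb] at hζ
    exact zero_ne_one hζ
  refine ⟨a, b, ζ, r, r', ρ, ρ', ha, hb, hζ0, ⟨hr, hr0, hr1⟩, ⟨hr', hr0', hr1'⟩, ⟨hρ, hρ0, hρ1⟩,
    ⟨hρ', hρ0', hρ1'⟩, hrρ, hρr, hrρ', hρr', ?_⟩
  have tb : Tendsto (fun s : ℂ => s ^ b) (𝓝 0) (𝓝 0) := htpow b hb
  have ta : Tendsto (fun s : ℂ => ζ * s ^ a) (𝓝 0) (𝓝 0) := by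
    have := (htpow a ha).const_mul ζ
    rwa [mul_zero] at this
  have tρ : Tendsto ρ (𝓝 0) (𝓝 0) := by
    have := hρ.continuousAt.tendsto
    rwa [hρ0] at this
  have tρ' : Tendsto ρ' (𝓝 0) (𝓝 0) := by
    have := hρ'.continuousAt.tendsto
    rwa [hρ0'] at this
  filter_upwards [hyy, (tρ.comp tb).eventually (hxr.and hsrc), (tρ'.comp ta).eventually
    (hxr'.and hsrc'), tb.eventually hrρ, ta.eventually hrρ'] with s h1 h2 h3 h4 h5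
  simp only [Function.comp] at h2 h3
  have e1 : x (ρ (s ^ b)) = x' (ρ' (ζ * s ^ a)) := by
    rw [h2.1, h3.1, h4, h5, mul_pow, hζ, one_mul, ← pow_mul, ← pow_mul, mul_comm b a, hx0]
  exact Prod.ext (e₁.injOn h2.2.1 h3.2.1 e1) (e₂.injOn h2.2.2 h3.2.2 h1)

theorem germ_identity {φ ψ : ℂ → P × P} (hφ : Good φ 0) (hψ : Good ψ 0) {U : Set ℂ}
    (_hU : U ∈ 𝓝 (0 : ℂ)) (_hφi : InjOn φ U) (_hψi : InjOn ψ U)
    (h : ∀ V ∈ 𝓝 (0 : ℂ), ∃ t ∈ V, ∃ t' ∈ V, t ≠ 0 ∧ t' ≠ 0 ∧ φ t = ψ t') :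
    map φ (𝓝 0) = map ψ (𝓝 0) := by
  obtain ⟨a, b, ζ, r, r', ρ, ρ', ha, hb, hζ, -, -, ⟨hρ, hρ0, hρ1⟩, ⟨hρ', hρ0', hρ1'⟩, -, -, -, -,
    hev⟩ := germ_core hφ hψ h
  have m1 : map (fun s => ρ (s ^ b)) (𝓝 0) = 𝓝 0 := by
    have h1 := map_nhds_of_deriv_ne hρ hρ1
    rw [hρ0] at h1
    have h2 : map ρ (map (fun s : ℂ => s ^ b) (𝓝 0)) = 𝓝 0 := by
      rw [map_pow_nhds_zero hb, h1]
    rwa [map_map] at h2
  have m2 : map (fun s => ρ' (ζ * s ^ a)) (𝓝 0) = 𝓝 0 := by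
    have h1 := map_nhds_of_deriv_ne hρ' hρ1'
    rw [hρ0'] at h1
    have h3 : map (fun s : ℂ => ζ * s) (𝓝 0) = 𝓝 0 := by
      have := (Homeomorph.mulLeft₀ ζ hζ).map_nhds_eq 0
      simpa using this
    have h2 : map ρ' (map (fun s : ℂ => ζ * s) (map (fun s : ℂ => s ^ a) (𝓝 0))) = 𝓝 0 := by
      rw [map_pow_nhds_zero ha, h3, h1]
    rwa [map_map, map_map] at h2
  calc map φ (𝓝 0) = map φ (map (fun s => ρ (s ^ b)) (𝓝 0)) := by rw [m1]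
    _ = map (fun s => φ (ρ (s ^ b))) (𝓝 0) := by rw [map_map]; rfl
    _ = map (fun s => ψ (ρ' (ζ * s ^ a))) (𝓝 0) := map_congr hev
    _ = map ψ (map (fun s => ρ' (ζ * s ^ a)) (𝓝 0)) := by rw [map_map]; rfl
    _ = map ψ (𝓝 0) := by rw [m2]

/-- If `s ^ b` determines `s ^ a` near zero, then `b` divides `a`. -/
theorem dvd_of_pow {a b : ℕ} (hb : b ≠ 0)
    (h : ∀ᶠ s in 𝓝 (0 : ℂ), ∀ ω : ℂ, ω ^ b = 1 → ω ^ a * s ^ a = s ^ a) : b ∣ a := by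
  have hprim := Complex.isPrimitiveRoot_exp b hb
  set ω := Complex.exp (2 * Real.pi * Complex.I / b) with hω
  have h3 : ∀ᶠ s in 𝓝[≠] (0 : ℂ), s ≠ 0 := self_mem_nhdsWithin
  obtain ⟨s, hs, hs0⟩ := ((h.filter_mono nhdsWithin_le_nhds).and h3).exists
  have h1 := hs ω hprim.pow_eq_one
  have hsa : s ^ a ≠ 0 := pow_ne_zero a hs0
  have h2 : ω ^ a = 1 := by
    have : ω ^ a * s ^ a = 1 * s ^ a := by rw [h1, one_mul]
    exact mul_right_cancel₀ hsa this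
  exact (hprim.pow_eq_one_iff_dvd a).1 h2

theorem germ_transition {φ ψ : ℂ → P × P} (hφ : Good φ 0) (hψ : Good ψ 0) {U : Set ℂ}
    (hU : U ∈ 𝓝 (0 : ℂ)) (hφi : InjOn φ U) (hψi : InjOn ψ U) (h : map φ (𝓝 0) = map ψ (𝓝 0)) :
    ∃ θ : ℂ → ℂ, AnalyticAt ℂ θ 0 ∧ θ 0 = 0 ∧ deriv θ 0 ≠ 0 ∧
      ∀ᶠ s in 𝓝 (0 : ℂ), φ s = ψ (θ s) := by
  have cφ : ContinuousAt φ 0 := hφ.1.continuousAt.prodMk hφ.2.1.continuousAt
  have cψ : ContinuousAt ψ 0 := hψ.1.continuousAt.prodMk hψ.2.1.continuousAt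
  have h0 : φ 0 = ψ 0 := by
    have t1 : Tendsto id (map φ (𝓝 0)) (𝓝 (φ 0)) := cφ
    have t2 : Tendsto id (map φ (𝓝 0)) (𝓝 (ψ 0)) := by rw [h]; exact cψ
    exact tendsto_nhds_unique t1 t2
  have hmeet : ∀ V ∈ 𝓝 (0 : ℂ), ∃ t ∈ V, ∃ t' ∈ V, t ≠ 0 ∧ t' ≠ 0 ∧ φ t = ψ t' := by
    intro V hV
    have h1 : φ '' (V ∩ U) ∈ map ψ (𝓝 0) := by
      rw [← h]
      exact image_mem_map (inter_mem hV hU)
    have h2 : ∀ᶠ t' in 𝓝 (0 : ℂ), ψ t' ∈ φ '' (V ∩ U) := h1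
    have h3 : ∀ᶠ t' in 𝓝 (0 : ℂ), t' ∈ V ∩ U := inter_mem hV hU
    have h4 : ∀ᶠ t' in 𝓝[≠] (0 : ℂ), t' ≠ 0 := self_mem_nhdsWithin
    obtain ⟨t', ⟨ht1, ht2⟩, ht3⟩ := (((h2.and h3).filter_mono nhdsWithin_le_nhds).and h4).exists
    obtain ⟨t, ht, htt⟩ := ht1
    refine ⟨t, ht.1, t', ht2.1, ?_, ht3, htt⟩
    rintro rfl
    rw [h0] at htt
    exact ht3 (hψi (mem_of_mem_nhds hU) ht2.2 htt).symm
  obtain ⟨a, b, ζ, r, r', ρ, ρ', ha, hb, hζ, ⟨hr, hr0, hr1⟩, -, ⟨hρ, hρ0, hρ1⟩, ⟨hρ', hρ0', hρ1'⟩,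
    hrρ, hρr, hrρ', hρr', hev⟩ := germ_core hφ hψ hmeet
  have tb : Tendsto (fun s : ℂ => s ^ b) (𝓝 0) (𝓝 0) := (map_pow_nhds_zero hb).le
  have ta : Tendsto (fun s : ℂ => ζ * s ^ a) (𝓝 0) (𝓝 0) := by
    have h5 : Tendsto (fun s : ℂ => s ^ a) (𝓝 0) (𝓝 0) := (map_pow_nhds_zero ha).le
    have := Filter.Tendsto.const_mul ζ h5
    rwa [mul_zero] at this
  have tρ : Tendsto ρ (𝓝 0) (𝓝 0) := by
    have := hρ.continuousAt.tendsto
    rwa [hρ0] at this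
  have tρ' : Tendsto ρ' (𝓝 0) (𝓝 0) := by
    have := hρ'.continuousAt.tendsto
    rwa [hρ0'] at this
  have tr : Tendsto r (𝓝 0) (𝓝 0) := by
    have := hr.continuousAt.tendsto
    rwa [hr0] at this
  -- the good points
  have hgood : ∀ᶠ s in 𝓝 (0 : ℂ), φ (ρ (s ^ b)) = ψ (ρ' (ζ * s ^ a)) ∧ ρ (s ^ b) ∈ U ∧
      ρ' (ζ * s ^ a) ∈ U ∧ r (ρ (s ^ b)) = s ^ b ∧ r' (ρ' (ζ * s ^ a)) = ζ * s ^ a := by
    filter_upwards [hev, (tρ.comp tb).eventually hU, (tρ'.comp ta).eventually hU,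
      tb.eventually hrρ, ta.eventually hrρ'] with s h1 h2 h3 h4 h5
    exact ⟨h1, h2, h3, h4, h5⟩
  obtain ⟨ε, hε, hball⟩ := Metric.eventually_nhds_iff_ball.1 hgood
  have hrot : ∀ (k : ℕ), k ≠ 0 → ∀ ω : ℂ, ω ^ k = 1 → ∀ s ∈ Metric.ball (0 : ℂ) ε,
      ω * s ∈ Metric.ball (0 : ℂ) ε := by
    intro k hk ω hω s hs
    have hn : ‖ω‖ = 1 := by
      have : ‖ω‖ ^ k = 1 := by rw [← norm_pow, hω, norm_one]
      exact (pow_eq_one_iff_of_nonneg (norm_nonneg _) hk).1 this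
    rw [mem_ball_zero_iff] at hs ⊢
    rw [norm_mul, hn, one_mul]
    exact hs
  have d1 : b ∣ a := by
    refine dvd_of_pow hb ?_
    filter_upwards [Metric.ball_mem_nhds (0 : ℂ) hε] with s hs ω hω
    have g1 := hball s hs
    have g2 := hball (ω * s) (hrot b hb ω hω s hs)
    have e1 : (ω * s) ^ b = s ^ b := by rw [mul_pow, hω, one_mul]
    rw [e1] at g2
    have e2 := hψi g1.2.2.1 g2.2.2.1 (g1.1.symm.trans g2.1)
    have e3 : ζ * s ^ a = ζ * (ω * s) ^ a := by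
      rw [← g1.2.2.2.2, ← g2.2.2.2.2, e2]
    rw [← mul_pow]
    exact (mul_left_cancel₀ hζ e3).symm
  have d2 : a ∣ b := by
    refine dvd_of_pow ha ?_
    filter_upwards [Metric.ball_mem_nhds (0 : ℂ) hε] with s hs ω hω
    have g1 := hball s hs
    have g2 := hball (ω * s) (hrot a ha ω hω s hs)
    have e1 : (ω * s) ^ a = s ^ a := by rw [mul_pow, hω, one_mul]
    rw [e1] at g2
    have e2 := hφi g1.2.1 g2.2.1 (g1.1.trans g2.1.symm)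
    have e3 : s ^ b = (ω * s) ^ b := by
      rw [← g1.2.2.2.1, ← g2.2.2.2.1, e2]
    rw [← mul_pow]
    exact e3.symm
  have hab : a = b := Nat.dvd_antisymm d2 d1
  subst hab
  have hlin : ∀ᶠ u in 𝓝 (0 : ℂ), φ (ρ u) = ψ (ρ' (ζ * u)) := by
    filter_upwards [(tendsto_rt ha).eventually hev] with u hu
    rwa [rt_pow ha] at hu
  refine ⟨fun s => ρ' (ζ * r s), ?_, ?_, ?_, ?_⟩
  · refine AnalyticAt.fun_comp (g := ρ') (f := fun s => ζ * r s) ?_ (analyticAt_const.mul hr)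
    simp only [hr0, mul_zero]
    exact hρ'
  · simp only [hr0, mul_zero, hρ0']
  · have k1 : HasDerivAt (fun s => ζ * r s) (ζ * deriv r 0) 0 :=
      hr.differentiableAt.hasDerivAt.const_mul ζ
    have k2 : HasDerivAt ρ' (deriv ρ' 0) (ζ * r 0) := by
      rw [hr0, mul_zero]
      exact hρ'.differentiableAt.hasDerivAt
    have k3 := HasDerivAt.comp (0 : ℂ) k2 k1
    have k4 : deriv (fun s => ρ' (ζ * r s)) 0 = deriv ρ' 0 * (ζ * deriv r 0) := k3.deriv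
    rw [k4]
    exact mul_ne_zero hρ1' (mul_ne_zero hζ hr1)
  · filter_upwards [tr.eventually hlin, hρr] with s h1 h2
    rw [h2] at h1
    exact h1

end Pool.Agent.Lib.MP_1f4a82_an
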