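import Pool.Agent.Lib.MP_1f4a82_an.Basic
import Pool.Agent.Lib.MP_1f4a82_an.Coboundary

/-!
An analytic line in a simply connected Riemann surface has exactly two sides.
-/

open Topology Filter Set

namespace Pool.Agent.Lib.MP_1f4a82_an

namespace SidesAux

theorem strip_eq (η : ℝ) : strip η = {s : ℂ | -η < s.im} ∩ {s : ℂ | s.im < η} := by
  ext s
  simp only [strip, mem_setOf_eq, mem_inter_iff, abs_lt]

theorem isOpen_strip (η : ℝ) : IsOpen (strip η) := by
  rw [strip_eq]
  exact (isOpen_lt continuous_const Complex.continuous_im).inter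
    (isOpen_lt Complex.continuous_im continuous_const)

theorem convex_strip (η : ℝ) : Convex ℝ (strip η) := by
  rw [strip_eq]
  exact (convex_halfSpace_im_gt _).inter (convex_halfSpace_im_lt _)

/-- upper half of the strip -/
def upS (η : ℝ) : Set ℂ := {s : ℂ | 0 < s.im} ∩ {s : ℂ | s.im < η}

/-- lower half of the strip -/
def downS (η : ℝ) : Set ℂ := {s : ℂ | -η < s.im} ∩ {s : ℂ | s.im < 0}

theorem real_mem_strip {η : ℝ} (h : 0 < η) (x : ℝ) : (x : ℂ) ∈ strip η := by
  simp [strip, h]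

section

variable {X : Type} [TopologicalSpace X] [RS X]

theorem gamma_real_mem (L : Line X) (x : ℝ) : L.γ x ∈ L.ell := ⟨x, rfl⟩

theorem im_eq_of_eq (L : Line X) {s s' : ℂ} (hs : s ∈ strip L.η) (hs' : s' ∈ strip L.η)
    (h : L.γ s = L.γ s') : s'.im = s.im := by
  obtain ⟨k, hk, -⟩ := L.inj s hs s' hs' h
  rw [hk]
  simp

theorem im_ne_zero_iff (L : Line X) {s : ℂ} (hs : s ∈ strip L.η) :
    L.γ s ∉ L.ell ↔ s.im ≠ 0 := by
  rw [not_iff_not]
  constructor
  · rintro ⟨x, hx⟩
    have := im_eq_of_eq L (real_mem_strip L.η_pos x) hs hx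
    rw [this]; simp
  · intro h
    refine ⟨s.re, ?_⟩
    show L.γ ((s.re : ℝ) : ℂ) = L.γ s
    congr 1
    apply Complex.ext <;> simp [h]

theorem map_nhds_gamma (L : Line X) {s : ℂ} (hs : s ∈ strip L.η) :
    map L.γ (𝓝 s) = 𝓝 (L.γ s) := by
  have hU : Metric.ball s (1 / 2) ∩ strip L.η ∈ 𝓝 s :=
    inter_mem (Metric.ball_mem_nhds _ (by norm_num)) ((isOpen_strip _).mem_nhds hs)
  refine (L.hol s hs).map_nhds_of_injOn hU ?_
  rintro a ⟨ha, ha'⟩ b ⟨hb, hb'⟩ hab
  obtain ⟨k, hk, -⟩ := L.inj a ha' b hb' hab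
  have h1 : dist a b < 1 := by
    calc dist a b ≤ dist a s + dist s b := dist_triangle _ _ _
      _ < 1 / 2 + 1 / 2 := by
        rw [Metric.mem_ball] at ha hb
        rw [dist_comm s b]
        linarith
      _ = 1 := by norm_num
  rw [hk, dist_self_add_right, Complex.norm_intCast] at h1
  have h2 : |k| < 1 := by exact_mod_cast h1
  have h3 : k = 0 := by
    rw [Int.abs_lt_one_iff] at h2
    exact h2
  rw [hk, h3]; simp

theorem isOpen_image_strip (L : Line X) : IsOpen (L.γ '' strip L.η) := by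
  rw [isOpen_iff_mem_nhds]
  rintro _ ⟨s, hs, rfl⟩
  rw [← map_nhds_gamma L hs]
  exact image_mem_map ((isOpen_strip _).mem_nhds hs)

theorem continuousOn_gamma (L : Line X) : ContinuousOn L.γ (strip L.η) :=
  fun s hs => (L.hol s hs).continuousAt.continuousWithinAt

theorem side [PreconnectedSpace X] (L : Line X) (Sp Sm : Set ℂ) (Xp Xm : Set X)
    (hSp : IsConnected Sp) (hsub : Sp ⊆ strip L.η)
    (hcov : ∀ s ∈ strip L.η, s.im ≠ 0 → s ∈ Sp ∨ s ∈ Sm)
    (hreal : ∀ x : ℝ, (x : ℂ) ∈ closure Sp) (hop : IsOpen Xp) (hom : IsOpen Xm)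
    (hdisj : Disjoint Xp Xm) (hunion : Xp ∪ Xm = L.ellᶜ)
    (hp : ∀ s ∈ Sp, L.γ s ∈ Xp) (hm : ∀ s ∈ Sm, L.γ s ∈ Xm) :
    IsConnected Xp ∧ frontier Xp = L.ell := by
  have hXpell : ∀ p ∈ Xp, p ∉ L.ell := by
    intro p hp'
    have : p ∈ L.ellᶜ := by rw [← hunion]; exact Or.inl hp'
    exact this
  have hclos : ∀ B : Set X, B ⊆ Xp → closure B ⊆ Xp ∪ L.ell := by
    intro B hB q hq
    by_contra hcon
    rw [mem_union, not_or] at hcon
    have h1 : q ∈ Xp ∪ Xm := by rw [hunion]; exact hcon.2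
    have h2 : q ∈ Xm := h1.resolve_left hcon.1
    obtain ⟨z, hz1, hz2⟩ := mem_closure_iff.1 hq Xm hom h2
    exact Set.disjoint_left.1 hdisj (hB hz2) hz1
  have hT : IsPreconnected (L.γ '' Sp) :=
    hSp.isPreconnected.image _ ((continuousOn_gamma L).mono hsub)
  have hTsub : L.γ '' Sp ⊆ Xp := by
    rintro _ ⟨s, hs, rfl⟩
    exact hp s hs
  constructor
  · refine ⟨(hSp.nonempty.image _).mono hTsub, ?_⟩
    have key : ∀ u v : Set X, IsOpen u → IsOpen v → Xp ⊆ u ∪ v → (Xp ∩ v).Nonempty →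
        ¬ (Xp ∩ (u ∩ v)).Nonempty → L.γ '' Sp ⊆ Xp ∩ u → False := by
      intro u v hu hv huv hvne hnon hTu
      set B : Set X := Xp ∩ v with hB
      have hBopen : IsOpen B := hop.inter hv
      have hBclosed : IsClosed B := by
        rw [← closure_subset_iff_isClosed]
        intro q hq
        rcases hclos B inter_subset_left hq with h | h
        · rcases huv h with h' | h'
          · exfalso
            obtain ⟨z, hz1, hz2⟩ := mem_closure_iff.1 hq (Xp ∩ u) (hop.inter hu) ⟨h, h'⟩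
            exact hnon ⟨z, hz1.1, hz1.2, hz2.2⟩
          · exact ⟨h, h'⟩
        · exfalso
          obtain ⟨x, rfl⟩ := h
          have h1 : ∃ᶠ b in 𝓝 (L.γ x), b ∈ B := mem_closure_iff_frequently.1 hq
          rw [← map_nhds_gamma L (real_mem_strip L.η_pos x), frequently_map] at h1
          obtain ⟨s, hsB, hs⟩ :=
            (h1.and_eventually ((isOpen_strip L.η).mem_nhds (real_mem_strip L.η_pos x))).exists
          have h2 : s.im ≠ 0 := (im_ne_zero_iff L hs).1 (hXpell _ hsB.1)
          rcases hcov s hs h2 with h3 | h3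
          · exact hnon ⟨L.γ s, hsB.1, (hTu ⟨s, h3, rfl⟩).2, hsB.2⟩
          · exact Set.disjoint_left.1 hdisj hsB.1 (hm s h3)
      rcases isClopen_iff.1 ⟨hBclosed, hBopen⟩ with h | h
      · rw [h] at hvne
        exact Set.not_nonempty_empty hvne
      · have h1 : L.γ ((0 : ℝ) : ℂ) ∈ B := by rw [h]; trivial
        exact hXpell _ h1.1 (gamma_real_mem L 0)
    intro u v hu hv huv hune hvne
    by_contra hcon
    have h1 : L.γ '' Sp ⊆ Xp ∩ u ∨ L.γ '' Sp ⊆ Xp ∩ v := by
      apply isPreconnected_iff_subset_of_disjoint.1 hT _ _ (hop.inter hu) (hop.inter hv)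
      · intro z hz
        rcases huv (hTsub hz) with h | h
        · exact Or.inl ⟨hTsub hz, h⟩
        · exact Or.inr ⟨hTsub hz, h⟩
      · rw [← Set.not_nonempty_iff_eq_empty]
        rintro ⟨z, _, ⟨hz1, hz2⟩, ⟨_, hz3⟩⟩
        exact hcon ⟨z, hz1, hz2, hz3⟩
    rcases h1 with h1 | h1
    · exact key u v hu hv huv hvne hcon h1
    · refine key v u hv hu (by rwa [union_comm]) hune ?_ h1
      rwa [inter_comm v u]
  · apply Subset.antisymm
    · intro q hq
      rw [hop.frontier_eq] at hq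
      rcases hclos Xp Subset.rfl hq.1 with h | h
      · exact absurd h hq.2
      · exact h
    · rintro _ ⟨x, rfl⟩
      rw [hop.frontier_eq]
      refine ⟨?_, fun h => hXpell _ h (gamma_real_mem L x)⟩
      have hx := real_mem_strip L.η_pos x
      rw [mem_closure_iff_frequently]
      show ∃ᶠ y in 𝓝 (L.γ x), y ∈ Xp
      rw [← map_nhds_gamma L hx, frequently_map]
      exact (mem_closure_iff_frequently.1 (hreal x)).mono fun s hs => hp s hs

end

theorem real_mem_closure_up {η : ℝ} (hη : 0 < η) (x : ℝ) : (x : ℂ) ∈ closure (upS η) := by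
  rw [Metric.mem_closure_iff]
  intro ε hε
  refine ⟨(x : ℂ) + ((min (η / 2) (ε / 2) : ℝ) : ℂ) * Complex.I, ?_, ?_⟩
  · have h1 : 0 < min (η / 2) (ε / 2) := lt_min (by linarith) (by linarith)
    have h2 : min (η / 2) (ε / 2) ≤ η / 2 := min_le_left _ _
    constructor
    · show 0 < ((x : ℂ) + ((min (η / 2) (ε / 2) : ℝ) : ℂ) * Complex.I).im
      simp only [Complex.add_im, Complex.ofReal_im, Complex.mul_im, Complex.ofReal_re,
        Complex.I_im, Complex.I_re]
      linarith
    · show ((x : ℂ) + ((min (η / 2) (ε / 2) : ℝ) : ℂ) * Complex.I).im < η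
      simp only [Complex.add_im, Complex.ofReal_im, Complex.mul_im, Complex.ofReal_re,
        Complex.I_im, Complex.I_re]
      linarith
  · have h1 : 0 < min (η / 2) (ε / 2) := lt_min (by linarith) (by linarith)
    rw [dist_self_add_right, norm_mul, Complex.norm_I, mul_one, Complex.norm_real,
      Real.norm_eq_abs, abs_of_pos h1]
    have h2 : min (η / 2) (ε / 2) ≤ ε / 2 := min_le_right _ _
    linarith

theorem real_mem_closure_down {η : ℝ} (hη : 0 < η) (x : ℝ) : (x : ℂ) ∈ closure (downS η) := by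
  rw [Metric.mem_closure_iff]
  intro ε hε
  refine ⟨(x : ℂ) + ((-min (η / 2) (ε / 2) : ℝ) : ℂ) * Complex.I, ?_, ?_⟩
  · have h1 : 0 < min (η / 2) (ε / 2) := lt_min (by linarith) (by linarith)
    have h2 : min (η / 2) (ε / 2) ≤ η / 2 := min_le_left _ _
    constructor
    · show -η < ((x : ℂ) + ((-min (η / 2) (ε / 2) : ℝ) : ℂ) * Complex.I).im
      simp only [Complex.add_im, Complex.ofReal_im, Complex.mul_im, Complex.ofReal_re,
        Complex.I_im, Complex.I_re]
      linarith
    · show ((x : ℂ) + ((-min (η / 2) (ε / 2) : ℝ) : ℂ) * Complex.I).im < 0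
      simp only [Complex.add_im, Complex.ofReal_im, Complex.mul_im, Complex.ofReal_re,
        Complex.I_im, Complex.I_re]
      linarith
  · have h1 : 0 < min (η / 2) (ε / 2) := lt_min (by linarith) (by linarith)
    rw [dist_self_add_right, norm_mul, Complex.norm_I, mul_one, Complex.norm_real,
      Real.norm_eq_abs, abs_neg, abs_of_pos h1]
    have h2 : min (η / 2) (ε / 2) ≤ ε / 2 := min_le_right _ _
    linarith

theorem isConnected_up {η : ℝ} (hη : 0 < η) : IsConnected (upS η) := by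
  refine ⟨?_, ((convex_halfSpace_im_gt _).inter (convex_halfSpace_im_lt _)).isPreconnected⟩
  by_contra h
  rw [Set.not_nonempty_iff_eq_empty] at h
  have := real_mem_closure_up hη 0
  rw [h, closure_empty] at this
  exact this

theorem isConnected_down {η : ℝ} (hη : 0 < η) : IsConnected (downS η) := by
  refine ⟨?_, ((convex_halfSpace_im_gt _).inter (convex_halfSpace_im_lt _)).isPreconnected⟩
  by_contra h
  rw [Set.not_nonempty_iff_eq_empty] at h
  have := real_mem_closure_down hη 0
  rw [h, closure_empty] at this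
  exact this

end SidesAux

open SidesAux in
open Classical in
theorem Line.exists_sides {X : Type} [TopologicalSpace X] [T2Space X] [SimplyConnectedSpace X]
    [RS X] (L : Line X) : ∃ Xp Xm : Set X, L.Sides Xp Xm := by
  have hη := L.η_pos
  -- sign
  set sg : X → ℤˣ := fun p => if ∃ s ∈ strip L.η, L.γ s = p ∧ 0 < s.im then 1 else -1 with hsg
  have sg_pos : ∀ s ∈ strip L.η, 0 < s.im → sg (L.γ s) = 1 := by
    intro s hs h
    simp only [hsg]
    rw [if_pos ⟨s, hs, rfl, h⟩]
  have sg_neg : ∀ s ∈ strip L.η, s.im < 0 → sg (L.γ s) = -1 := by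
    intro s hs h
    simp only [hsg]
    rw [if_neg]
    rintro ⟨s', hs', he, h'⟩
    have := im_eq_of_eq L hs' hs he
    linarith
  set U : Bool → Set X := fun b => if b then L.ellᶜ else L.γ '' strip L.η with hU
  set g : Bool → Bool → X → ℤˣ := fun i j p => if i = j then 1 else sg p with hg
  have hloc : ∀ x ∈ L.ellᶜ ∩ L.γ '' strip L.η, ∀ᶠ y in 𝓝 x, sg y = sg x := by
    rintro _ ⟨hx, s, hs, rfl⟩
    have h0 : s.im ≠ 0 := (im_ne_zero_iff L hs).1 hx
    rw [← map_nhds_gamma L hs, eventually_map]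
    rcases lt_or_gt_of_ne h0 with h | h
    · filter_upwards [(isOpen_strip L.η).mem_nhds hs,
        (isOpen_lt Complex.continuous_im continuous_const).mem_nhds h] with t ht1 ht2
      rw [sg_neg s hs h, sg_neg t ht1 ht2]
    · filter_upwards [(isOpen_strip L.η).mem_nhds hs,
        (isOpen_lt continuous_const Complex.continuous_im).mem_nhds h] with t ht1 ht2
      rw [sg_pos s hs h, sg_pos t ht1 ht2]
  have hellc : IsOpen L.ellᶜ := L.closed.isOpen_compl
  obtain ⟨c, hc1, hc2⟩ := exists_coboundary U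
    (by
      intro i
      cases i
      · exact isOpen_image_strip L
      · exact hellc)
    (by
      intro x
      by_cases hx : x ∈ L.ell
      · obtain ⟨t, rfl⟩ := hx
        exact ⟨false, ⟨t, real_mem_strip hη t, rfl⟩⟩
      · exact ⟨true, hx⟩)
    g
    (by
      intro i j x hx
      cases i <;> cases j
      · exact Eventually.of_forall fun y => rfl
      · exact hloc x ⟨hx.2, hx.1⟩
      · exact hloc x ⟨hx.1, hx.2⟩
      · exact Eventually.of_forall fun y => rfl)
    (by
      intro i j k x hx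
      cases i <;> cases j <;> cases k <;> simp [hg, ← sq, Int.units_sq])
  -- constancy on the strip image
  have hpre : IsPreconnected (L.γ '' strip L.η) :=
    ((convex_strip L.η).isPreconnected).image _ (continuousOn_gamma L)
  set e : ℤˣ := c false (L.γ ((0 : ℝ) : ℂ)) with he
  have hconst : ∀ x ∈ L.γ '' strip L.η, c false x = e := by
    intro x hx
    have hcont : ContinuousOn (c false) (L.γ '' strip L.η) := by
      intro y hy
      have h1 : ∀ᶠ z in 𝓝 y, c false z = c false y := hc1 false y hy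
      exact (ContinuousAt.congr continuousAt_const (h1.mono fun z hz => hz.symm)).continuousWithinAt
    exact hpre.constant hcont hx ⟨_, real_mem_strip hη 0, rfl⟩
  have hval : ∀ s ∈ strip L.η, s.im ≠ 0 → c true (L.γ s) = sg (L.γ s) * e := by
    intro s hs h0
    have h1 := hc2 true false (L.γ s) ⟨(im_ne_zero_iff L hs).2 h0, ⟨s, hs, rfl⟩⟩
    rw [h1, hconst _ ⟨s, hs, rfl⟩]
    rfl
  set Xp : Set X := {p | p ∈ L.ellᶜ ∧ c true p = e} with hXp
  set Xm : Set X := {p | p ∈ L.ellᶜ ∧ c true p = -e} with hXm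
  have hopen : ∀ d : ℤˣ, IsOpen {p | p ∈ L.ellᶜ ∧ c true p = d} := by
    intro d
    rw [isOpen_iff_mem_nhds]
    rintro p ⟨hp1, hp2⟩
    filter_upwards [hellc.mem_nhds hp1, hc1 true p hp1] with q hq1 hq2
    exact ⟨hq1, hq2.trans hp2⟩
  have hop : IsOpen Xp := hopen e
  have hom : IsOpen Xm := hopen (-e)
  have hdisj : Disjoint Xp Xm := by
    rw [Set.disjoint_left]
    rintro p ⟨_, h1⟩ ⟨_, h2⟩
    rw [h1] at h2
    have h3 : (e : ℤˣ) = -e := h2
    rcases Int.units_eq_one_or e with h | h <;> rw [h] at h3 <;> exact absurd h3 (by decide)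
  have hunion : Xp ∪ Xm = L.ellᶜ := by
    ext p
    constructor
    · rintro (h | h) <;> exact h.1
    · intro h
      have : c true p = e ∨ c true p = -e := by
        rcases Int.units_eq_one_or e with h1 | h1 <;>
          rcases Int.units_eq_one_or (c true p) with h2 | h2 <;> rw [h1, h2] <;> simp
      rcases this with h' | h'
      · exact Or.inl ⟨h, h'⟩
      · exact Or.inr ⟨h, h'⟩
  have hup : ∀ s ∈ strip L.η, 0 < s.im → L.γ s ∈ Xp := by
    intro s hs h
    refine ⟨(im_ne_zero_iff L hs).2 h.ne', ?_⟩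
    rw [hval s hs h.ne', sg_pos s hs h, one_mul]
  have hdown : ∀ s ∈ strip L.η, s.im < 0 → L.γ s ∈ Xm := by
    intro s hs h
    refine ⟨(im_ne_zero_iff L hs).2 h.ne, ?_⟩
    rw [hval s hs h.ne, sg_neg s hs h, neg_one_mul]
  have hupsub : upS L.η ⊆ strip L.η := by
    rw [strip_eq]
    rintro s ⟨h1, h2⟩
    have h1' : 0 < s.im := h1
    exact ⟨by show -L.η < s.im; linarith, h2⟩
  have hdownsub : downS L.η ⊆ strip L.η := by
    rw [strip_eq]
    rintro s ⟨h1, h2⟩
    have h2' : s.im < 0 := h2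
    exact ⟨h1, by show s.im < L.η; linarith⟩
  have hcov : ∀ s ∈ strip L.η, s.im ≠ 0 → s ∈ upS L.η ∨ s ∈ downS L.η := by
    intro s hs h0
    rw [strip_eq] at hs
    rcases lt_or_gt_of_ne h0 with h | h
    · exact Or.inr ⟨hs.1, h⟩
    · exact Or.inl ⟨h, hs.2⟩
  obtain ⟨hp1, hp2⟩ := side L (upS L.η) (downS L.η) Xp Xm (isConnected_up hη) hupsub hcov
    (real_mem_closure_up hη) hop hom hdisj hunion (fun s hs => hup s (hupsub hs) hs.1)
    (fun s hs => hdown s (hdownsub hs) hs.2)
  obtain ⟨hm1, hm2⟩ := side L (downS L.η) (upS L.η) Xm Xp (isConnected_down hη) hdownsub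
    (fun s hs h0 => (hcov s hs h0).symm)
    (real_mem_closure_down hη) hom hop hdisj.symm (by rw [union_comm]; exact hunion)
    (fun s hs => hdown s (hdownsub hs) hs.2) (fun s hs => hup s (hupsub hs) hs.1)
  exact ⟨Xp, Xm, ⟨hop, hom, hp1, hm1, hdisj, hunion, hp2, hm2, hup, hdown⟩⟩

end Pool.Agent.Lib.MP_1f4a82_an
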