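import Pool.Agent.Lib.MP_1f4a82_an.CoverDefs

/-!
Three lines estimate, stability criterion for the real circle, transfer of stability.
-/

open Topology Filter Set

namespace Pool.Agent.Lib.MP_1f4a82_an

/-- Three lines theorem for the strip `0 ≤ Im s ≤ η / 2`. -/
theorem norm_le_of_strip {E : ℂ → ℂ} {η M : ℝ} (hη : 0 < η) (hM : 1 ≤ M)
    (hE : ∀ s : ℂ, 0 ≤ s.im → s.im < η → AnalyticAt ℂ E s)
    (hb : ∀ s : ℂ, 0 ≤ s.im → s.im < η → ‖E s‖ ≤ M) (h1 : ∀ x : ℝ, ‖E x‖ ≤ 1) :
    ∀ s : ℂ, 0 ≤ s.im → s.im ≤ η / 2 → ‖E s‖ ≤ M ^ (2 * s.im / η) := by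
  intro s hs0 hs1
  have him : ∀ z : ℂ, (Complex.I * z).im = z.re := by
    intro z; simp
  have hcl : closure (Complex.HadamardThreeLines.verticalStrip 0 (η / 2)) ⊆
      Complex.HadamardThreeLines.verticalClosedStrip 0 (η / 2) := by
    apply closure_minimal
    · intro z hz
      exact ⟨hz.1.le, hz.2.le⟩
    · exact isClosed_Icc.preimage Complex.continuous_re
  have hd : DiffContOnCl ℂ (fun z => E (Complex.I * z))
      (Complex.HadamardThreeLines.verticalStrip 0 (η / 2)) := by
    apply DifferentiableOn.diffContOnCl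
    intro z hz
    have hz' := hcl hz
    have h2 : AnalyticAt ℂ E (Complex.I * z) := by
      apply hE
      · rw [him]; exact hz'.1
      · rw [him]; have := hz'.2; linarith
    apply DifferentiableAt.differentiableWithinAt
    exact h2.differentiableAt.comp z (by fun_prop)
  have hB : BddAbove ((norm ∘ fun z => E (Complex.I * z)) ''
      Complex.HadamardThreeLines.verticalClosedStrip 0 (η / 2)) := by
    refine ⟨M, ?_⟩
    rintro _ ⟨z, hz, rfl⟩
    apply hb
    · rw [him]; exact hz.1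
    · rw [him]; have := hz.2; linarith
  have hz : (-Complex.I * s) ∈ Complex.HadamardThreeLines.verticalClosedStrip 0 (η / 2) := by
    have : (-Complex.I * s).re = s.im := by simp
    constructor
    · rw [this]; exact hs0
    · rw [this]; exact hs1
  have h3 := Complex.HadamardThreeLines.norm_le_interp_of_mem_verticalClosedStrip'
    (f := fun z => E (Complex.I * z)) (a := 1) (b := M) (by positivity : (0 : ℝ) < η / 2) hz hd hB
    (by
      intro z hz
      have h4 : z.re = 0 := hz
      have h5 : Complex.I * z = ((-z.im : ℝ) : ℂ) := by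
        apply Complex.ext <;> simp [h4]
      rw [h5]; exact h1 _)
    (by
      intro z hz
      have h4 : z.re = η / 2 := hz
      apply hb
      · rw [him, h4]; positivity
      · rw [him, h4]; linarith)
  have h6 : Complex.I * (-Complex.I * s) = s := by
    rw [← mul_assoc, mul_neg, Complex.I_mul_I]; ring
  have h7 : (-Complex.I * s).re = s.im := by simp
  rw [Real.one_rpow, one_mul, h6, h7, sub_zero, sub_zero] at h3
  refine h3.trans_eq ?_
  congr 1
  field_simp

/-! ### The Moebius maps `z ↦ (z - conj a) / (z - a)` -/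

/-- `(z - conj a) / (z - a)`. -/
noncomputable def blP (a : ℂ) (p : P) : ℂ :=
  OnePoint.elim p 1 (fun z => (z - (starRingEnd ℂ) a) / (z - a))

@[simp] theorem blP_infty (a : ℂ) : blP a OnePoint.infty = 1 := rfl
@[simp] theorem blP_coe (a z : ℂ) : blP a (z : P) = (z - (starRingEnd ℂ) a) / (z - a) := rfl

theorem blP_conj (a : ℂ) (p : P) : blP ((starRingEnd ℂ) a) p = (blP a p)⁻¹ := by
  induction p using OnePoint.rec with
  | infty => simp
  | coe z => rw [blP_coe, blP_coe, Complex.conj_conj, inv_div]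

theorem holAt_blP {a : ℂ} {p : P} (hp : p ≠ (a : P)) : HolAt (blP a) p := by
  by_cases h : p = OnePoint.infty
  · rw [holAt_iff_of_chart chart1_mem (by rw [chart1_source, h]; simp)]
    have h1 : chart1 p = 0 := by rw [chart1_apply, h, invP_infty, chart0_coe]
    rw [h1]
    have h2 : AnalyticAt ℂ (fun w : ℂ => (1 - (starRingEnd ℂ) a * w) / (1 - a * w)) 0 := by
      apply AnalyticAt.div (by fun_prop) (by fun_prop) (by simp)
    refine h2.congr (Eventually.of_forall fun w => ?_)
    beta_reduce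
    rw [chart1_symm]
    by_cases hw : w = 0
    · subst hw; simp
    · rw [invP_coe hw, blP_coe]
      have h3 : w⁻¹ - (starRingEnd ℂ) a = (1 - (starRingEnd ℂ) a * w) / w := by field_simp
      have h4 : w⁻¹ - a = (1 - a * w) / w := by field_simp
      rw [h3, h4, div_div_div_cancel_right₀ hw]
  · obtain ⟨z, rfl⟩ := OnePoint.ne_infty_iff_exists.mp h
    rw [holAt_iff_of_chart chart0_mem (by rw [chart0_source]; exact h), chart0_coe]
    have hz : z ≠ a := fun h' => hp (by rw [h'])
    have h2 : AnalyticAt ℂ (fun w : ℂ => (w - (starRingEnd ℂ) a) / (w - a)) z := by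
      refine AnalyticAt.div (by fun_prop) (by fun_prop) ?_
      exact sub_ne_zero.mpr hz
    exact h2

theorem continuousOn_blP {a : ℂ} {K : Set P} (hK : (a : P) ∉ K) : ContinuousOn (blP a) K := by
  intro p hp
  have hne : p ≠ (a : P) := fun h => hK (h ▸ hp)
  exact (holAt_blP hne).continuousAt.continuousWithinAt

theorem norm_blP_real {a : ℂ} (ha : a.im ≠ 0) {p : P} (hp : cjP p = p) : ‖blP a p‖ = 1 := by
  induction p using OnePoint.rec with
  | infty => simp
  | coe z =>
    rw [cjP_coe, OnePoint.coe_eq_coe] at hp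
    have hz : z - a ≠ 0 := by
      intro h
      have h1 : z = a := sub_eq_zero.mp h
      rw [h1] at hp
      exact ha (Complex.conj_eq_iff_im.mp hp)
    have h2 : z - (starRingEnd ℂ) a = (starRingEnd ℂ) (z - a) := by rw [map_sub, hp]
    rw [blP_coe, norm_div, h2, Complex.norm_conj, div_self (norm_ne_zero_iff.mpr hz)]

theorem norm_blP_lt {a z : ℂ} (h : z.im * a.im < 0) : ‖blP a (z : P)‖ < 1 := by
  have hz : z - a ≠ 0 := by
    intro h'
    have h1 : z = a := sub_eq_zero.mp h'
    rw [h1] at h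
    nlinarith [mul_self_nonneg a.im]
  rw [blP_coe, norm_div, div_lt_one (norm_pos_iff.mpr hz)]
  have h1 : ‖z - (starRingEnd ℂ) a‖ ^ 2 < ‖z - a‖ ^ 2 := by
    rw [← Complex.normSq_eq_norm_sq, ← Complex.normSq_eq_norm_sq, Complex.normSq_apply,
      Complex.normSq_apply]
    simp only [Complex.sub_re, Complex.sub_im, Complex.conj_re, Complex.conj_im]
    nlinarith
  exact lt_of_pow_lt_pow_left₀ 2 (norm_nonneg _) h1

theorem holAt_iterate {g : P → P} (hg : ∀ p, HolAt g p) (n : ℕ) (p : P) : HolAt (g^[n]) p := by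
  induction n generalizing p with
  | zero => exact holAt_id p
  | succ n ih =>
    have h1 := (ih (g p)).comp (hg p)
    refine h1.congr (Eventually.of_forall fun x => ?_)
    rw [Function.iterate_succ_apply]

/-- The estimate on one side. -/
theorem avoid_estimate {g : P → P} (hg : ∀ p, HolAt g p) (c : InvCurve g)
    (hreal : (range fun x : ℝ => c.γ x) = {p | cjP p = p}) {δ : ℝ} (hδ : 0 < δ) (hδη : δ ≤ c.η)
    {Y : Set P} (hY : ∀ n : ℕ, ∀ s : ℂ, 0 ≤ s.im → s.im < δ → g^[n] (c.γ s) ∈ Y) {a : ℂ}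
    (ha : a.im ≠ 0) (haY : (a : P) ∉ closure Y) :
    ∃ M : ℝ, 1 ≤ M ∧ ∀ n : ℕ, ∀ s : ℂ, 0 ≤ s.im → s.im ≤ δ / 2 →
      ‖blP a (g^[n] (c.γ s))‖ ≤ M ^ (2 * s.im / δ) := by
  obtain ⟨M0, hM0⟩ : ∃ M0 : ℝ, ∀ p ∈ closure Y, ‖blP a p‖ ≤ M0 :=
    isClosed_closure.isCompact.exists_bound_of_continuousOn (continuousOn_blP haY)
  refine ⟨max M0 1, le_max_right _ _, fun n => ?_⟩
  have hreal' : ∀ x : ℝ, cjP (c.γ x) = c.γ x := by
    intro x
    have : c.γ x ∈ {p | cjP p = p} := by rw [← hreal]; exact ⟨x, rfl⟩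
    exact this
  have hiter : ∀ (n : ℕ) (x : ℝ), ∃ y : ℝ, g^[n] (c.γ x) = c.γ y := by
    intro n
    induction n with
    | zero => intro x; exact ⟨x, rfl⟩
    | succ n ih =>
      intro x
      rw [Function.iterate_succ_apply, c.inv]
      exact ih _
  refine norm_le_of_strip (E := fun s => blP a (g^[n] (c.γ s))) hδ (le_max_right _ _) ?_ ?_ ?_
  · intro s hs0 hs1
    rw [← holAt_iff_analyticAt]
    have h1 : HolAt c.γ s := c.hol s (by
      change |s.im| < c.η
      rw [abs_of_nonneg hs0]; linarith)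
    have h2 : HolAt (fun s => g^[n] (c.γ s)) s := (holAt_iterate hg n _).comp h1
    refine HolAt.comp (holAt_blP ?_) h2
    intro h3
    apply haY
    rw [← h3]
    exact subset_closure (hY n s hs0 hs1)
  · intro s hs0 hs1
    exact (hM0 _ (subset_closure (hY n s hs0 hs1))).trans (le_max_left _ _)
  · intro x
    obtain ⟨y, hy⟩ := hiter n x
    rw [hy, norm_blP_real ha (hreal' y)]

/-- Compactness: off a neighbourhood of the real circle the map `blP (conj a)` is uniformly small
on the side of `a`. -/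
theorem exists_ratio {a : ℂ} (ha : a.im ≠ 0) {O : Set P} (hO : IsOpen O)
    (hr : ∀ p : P, cjP p = p → p ∈ O) :
    ∃ r : ℝ, 0 < r ∧ r < 1 ∧ ∀ z : ℂ, (z : P) ∉ O → 0 < z.im * a.im →
      ‖blP ((starRingEnd ℂ) a) (z : P)‖ ≤ r := by
  set A : Set P := (fun z : ℂ => (z : P)) '' {z | 0 < z.im * a.im} with hA
  set K : Set P := Oᶜ ∩ closure A with hK
  have hKc : IsCompact K := (hO.isClosed_compl.inter isClosed_closure).isCompact
  have hKm : ∀ p ∈ K, ∃ z : ℂ, p = (z : P) ∧ 0 < z.im * a.im := by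
    intro p hp
    have hp1 : p ≠ OnePoint.infty := by
      rintro rfl
      exact hp.1 (hr _ cjP_infty)
    obtain ⟨z, rfl⟩ := OnePoint.ne_infty_iff_exists.mp hp1
    refine ⟨z, rfl, ?_⟩
    have h2 : z.im ≠ 0 := by
      intro h3
      apply hp.1
      apply hr
      rw [cjP_coe, Complex.conj_eq_iff_im.mpr h3]
    by_contra h4
    have h5 : z.im * a.im < 0 := lt_of_le_of_ne (not_lt.mp h4) (mul_ne_zero h2 ha)
    have h6 : IsOpen ((fun z : ℂ => (z : P)) '' {z | z.im * a.im < 0}) :=
      OnePoint.isOpenEmbedding_coe.isOpenMap _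
        (isOpen_lt (by fun_prop) (by fun_prop))
    obtain ⟨q, ⟨w, hw, rfl⟩, ⟨w', hw', h7⟩⟩ :=
      mem_closure_iff.mp hp.2 _ h6 ⟨z, h5, rfl⟩
    have h8 : w' = w := OnePoint.coe_injective h7
    rw [h8] at hw'
    exact lt_asymm (show w.im * a.im < 0 from hw) hw'
  have hcont : ContinuousOn (fun p => ‖blP ((starRingEnd ℂ) a) p‖) K := by
    apply ContinuousOn.norm
    apply continuousOn_blP
    intro h1
    obtain ⟨z, hz, hz2⟩ := hKm _ h1
    have h2 : (starRingEnd ℂ) a = z := OnePoint.coe_injective hz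
    rw [← h2, Complex.conj_im] at hz2
    nlinarith [mul_self_nonneg a.im]
  have hlt : ∀ p ∈ K, ‖blP ((starRingEnd ℂ) a) p‖ < 1 := by
    intro p hp
    obtain ⟨z, rfl, hz⟩ := hKm p hp
    apply norm_blP_lt
    rw [Complex.conj_im]
    linarith
  have hmem : ∀ z : ℂ, (z : P) ∉ O → 0 < z.im * a.im → (z : P) ∈ K := fun z h1 h2 =>
    ⟨h1, subset_closure ⟨z, h2, rfl⟩⟩
  rcases K.eq_empty_or_nonempty with hKe | hKn
  · refine ⟨1 / 2, by norm_num, by norm_num, fun z h1 h2 => ?_⟩
    have := hmem z h1 h2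
    rw [hKe] at this
    exact absurd this (Set.notMem_empty _)
  · obtain ⟨p0, hp0, hmax⟩ := hKc.exists_isMaxOn hKn hcont
    refine ⟨max ‖blP ((starRingEnd ℂ) a) p0‖ (1 / 2), lt_max_of_lt_right (by norm_num),
      max_lt (hlt p0 hp0) (by norm_num), fun z h1 h2 => ?_⟩
    exact (hmax (hmem z h1 h2)).trans (le_max_left _ _)

/-- Criterion: orbits starting near one side of the curve stay off `a` and `b`. -/
theorem stable_of_avoid {g : P → P} (hg : ∀ p, HolAt g p) (c : InvCurve g)
    (hsym : ∀ s ∈ strip c.η, c.γ ((starRingEnd ℂ) s) = cjP (c.γ s))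
    (hreal : (range fun x : ℝ => c.γ x) = {p | cjP p = p})
    (hgr : ∀ p, g (cjP p) = cjP (g p)) {δ : ℝ} (hδ : 0 < δ) (hδη : δ ≤ c.η) {Y : Set P}
    (hY : ∀ n : ℕ, ∀ s : ℂ, 0 ≤ s.im → s.im < δ → g^[n] (c.γ s) ∈ Y) {a b : ℂ} (ha : 0 < a.im)
    (hb : b.im < 0) (haY : (a : P) ∉ closure Y) (hbY : (b : P) ∉ closure Y) : c.Stable := by
  intro O hO hcO
  set O' : Set P := O ∩ cjP ⁻¹' O with hO'
  have hO'o : IsOpen O' := hO.inter (hO.preimage continuous_cjP)
  have hr : ∀ p : P, cjP p = p → p ∈ O' := by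
    intro p hp
    have h1 : p ∈ range fun x : ℝ => c.γ x := by rw [hreal]; exact hp
    obtain ⟨x, rfl⟩ := h1
    refine ⟨hcO x, ?_⟩
    change cjP (c.γ x) ∈ O
    rw [show cjP (c.γ x) = c.γ x from hp]
    exact hcO x
  -- one side estimates
  have key : ∀ a : ℂ, a.im ≠ 0 → (a : P) ∉ closure Y → ∃ δ' > 0, δ' ≤ δ / 2 ∧
      ∀ n : ℕ, ∀ s : ℂ, 0 ≤ s.im → s.im < δ' → ∀ z : ℂ, g^[n] (c.γ s) = (z : P) →
        0 < z.im * a.im → g^[n] (c.γ s) ∈ O' := by
    intro a ha haY
    obtain ⟨M, hM, hest⟩ := avoid_estimate hg c hreal hδ hδη hY ha haY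
    obtain ⟨r, hr0, hr1, hrat⟩ := exists_ratio ha hO'o hr
    have hcont : ContinuousAt (fun t : ℝ => M ^ (2 * t / δ)) 0 := by
      apply ContinuousAt.rpow continuousAt_const (by fun_prop)
      left; positivity
    have h0 : (fun t : ℝ => M ^ (2 * t / δ)) 0 < r⁻¹ := by
      simp only [mul_zero, zero_div, Real.rpow_zero]
      exact (one_lt_inv₀ hr0).mpr hr1
    obtain ⟨δ1, hδ1, hball⟩ := Metric.eventually_nhds_iff.mp (hcont.eventually_lt_const h0)
    refine ⟨min δ1 (δ / 2), lt_min hδ1 (by positivity), min_le_right _ _, ?_⟩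
    intro n s hs0 hs1 z hz hza
    by_contra hcon
    have h1 := hest n s hs0 (hs1.le.trans (min_le_right _ _))
    have h2 : M ^ (2 * s.im / δ) < r⁻¹ := by
      apply hball
      rw [Real.dist_eq, sub_zero, abs_of_nonneg hs0]
      exact hs1.trans_le (min_le_left _ _)
    rw [hz] at hcon h1
    have h3 := hrat z hcon hza
    have h4 : (z : P) ∈ Y := by
      rw [← hz]
      apply hY n s hs0
      have := hs1.trans_le (min_le_right _ _)
      linarith
    have h5 : blP a (z : P) ≠ 0 := by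
      rw [blP_coe]
      apply div_ne_zero
      · intro h6
        have h7 : z = (starRingEnd ℂ) a := sub_eq_zero.mp h6
        rw [h7, Complex.conj_im] at hza
        nlinarith [mul_self_nonneg a.im]
      · intro h6
        have h7 : z = a := sub_eq_zero.mp h6
        rw [h7] at h4
        exact haY (subset_closure h4)
    rw [blP_conj, norm_inv] at h3
    have h6 : 0 < ‖blP a (z : P)‖ := norm_pos_iff.mpr h5
    have h7 : r⁻¹ ≤ ‖blP a (z : P)‖ := by
      rw [inv_le_comm₀ hr0 h6]; exact h3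
    linarith
  obtain ⟨δa, hδa, hδa2, hA⟩ := key a ha.ne' haY
  obtain ⟨δb, hδb, -, hB⟩ := key b hb.ne hbY
  have hup : ∀ n : ℕ, ∀ s : ℂ, 0 ≤ s.im → s.im < min δa δb → g^[n] (c.γ s) ∈ O' := by
    intro n s hs0 hs1
    by_contra hcon
    have h1 : g^[n] (c.γ s) ≠ OnePoint.infty := by
      intro h2
      rw [h2] at hcon
      exact hcon (hr _ cjP_infty)
    obtain ⟨z, hz⟩ := OnePoint.ne_infty_iff_exists.mp h1
    have h2 : z.im ≠ 0 := by
      intro h3
      apply hcon
      apply hr
      rw [← hz, cjP_coe, Complex.conj_eq_iff_im.mpr h3]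
    rcases lt_or_gt_of_ne h2 with h3 | h3
    · exact hcon (hB n s hs0 (hs1.trans_le (min_le_right _ _)) z hz.symm
        (mul_pos_of_neg_of_neg h3 hb))
    · exact hcon (hA n s hs0 (hs1.trans_le (min_le_left _ _)) z hz.symm (mul_pos h3 ha))
  have hcj : ∀ (n : ℕ) (p : P), g^[n] (cjP p) = cjP (g^[n] p) := by
    intro n
    induction n with
    | zero => intro p; rfl
    | succ n ih => intro p; rw [Function.iterate_succ_apply, Function.iterate_succ_apply, hgr, ih]
  refine ⟨min δa δb, lt_min hδa hδb, ?_, fun n s hs => ?_⟩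
  · have := min_le_left δa δb
    linarith
  · have hs' : |s.im| < min δa δb := hs
    rcases le_or_gt 0 s.im with h1 | h1
    · rw [abs_of_nonneg h1] at hs'
      exact (hup n s h1 hs').1
    · rw [abs_of_neg h1] at hs'
      have h2 := hup n ((starRingEnd ℂ) s) (by rw [Complex.conj_im]; linarith)
        (by rw [Complex.conj_im]; exact hs')
      have h3 : s ∈ strip c.η := by
        change |s.im| < c.η
        rw [abs_of_neg h1]
        have := min_le_left δa δb
        linarith
      rw [hsym s h3, hcj] at h2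
      have h4 := h2.2
      rwa [mem_preimage, cjP_cjP] at h4

/-- Transfer of stability along a semiconjugacy. -/
theorem stable_transfer {f g h : P → P} (hf : Continuous f) (hh : Continuous h)
    (hs : ∀ p, f (h p) = h (g p)) (c : InvCurve f) {p : ℕ} (hp : 1 ≤ p)
    (cA : InvCurve (g^[p])) {e : ℕ} (he : 1 ≤ e) {δ : ℝ} (hδ : 0 < δ)
    (hrel : ∀ s ∈ strip δ, h (cA.γ s) = c.γ (e * s)) (hst : cA.Stable) : c.Stable := by
  intro O hO hcO
  have hiter : ∀ (n : ℕ) (q : P), f^[n] (h q) = h (g^[n] q) := by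
    intro n
    induction n with
    | zero => intro q; rfl
    | succ n ih => intro q; rw [Function.iterate_succ_apply, Function.iterate_succ_apply, hs, ih]
  have hreal : ∀ (n : ℕ) (x : ℝ), ∃ y : ℝ, f^[n] (c.γ x) = c.γ y := by
    intro n
    induction n with
    | zero => intro x; exact ⟨x, rfl⟩
    | succ n ih =>
      intro x
      rw [Function.iterate_succ_apply, c.inv]
      exact ih _
  set O2 : Set P := ⋂ j ∈ Finset.range p, (f^[j]) ⁻¹' O with hO2
  have hO2o : IsOpen O2 := by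
    apply isOpen_biInter_finset
    intro j _
    exact hO.preimage (hf.iterate j)
  have hO2m : ∀ x : ℝ, c.γ x ∈ O2 := by
    intro x
    rw [hO2, mem_iInter₂]
    intro j _
    obtain ⟨y, hy⟩ := hreal j x
    rw [mem_preimage, hy]
    exact hcO y
  have he0 : (0 : ℝ) < e := by exact_mod_cast he
  have he1 : (e : ℂ) ≠ 0 := by exact_mod_cast (by omega : e ≠ 0)
  obtain ⟨δ', hδ', -, hst'⟩ := hst (h ⁻¹' O2) (hO2o.preimage hh) (by
    intro x
    rw [mem_preimage, hrel _ (by simp [strip, hδ])]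
    have h1 : (e : ℂ) * (x : ℂ) = ((e * x : ℝ) : ℂ) := by push_cast; ring
    rw [h1]
    exact hO2m _)
  refine ⟨min (e * min δ δ') c.η, lt_min (mul_pos he0 (lt_min hδ hδ')) c.η_pos,
    min_le_right _ _, fun n s hs1 => ?_⟩
  have hs2 : |s.im| < e * min δ δ' := lt_of_lt_of_le hs1 (min_le_left _ _)
  have hs3 : |(s / e).im| < min δ δ' := by
    have h1 : (s / e).im = s.im / e := by
      have : s / e = s / ((e : ℝ) : ℂ) := by push_cast; rfl
      rw [this, Complex.div_ofReal_im]
    rw [h1, abs_div, abs_of_pos he0, div_lt_iff₀ he0]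
    linarith
  have h2 : c.γ s = h (cA.γ (s / e)) := by
    rw [hrel _ (lt_of_lt_of_le hs3 (min_le_left _ _))]
    congr 1
    field_simp
  have h3 := hst' (n / p) (s / e) (lt_of_lt_of_le hs3 (min_le_right _ _))
  rw [mem_preimage, ← Function.iterate_mul, ← hiter, ← h2, hO2, mem_iInter₂] at h3
  have h4 := h3 (n % p) (Finset.mem_range.mpr (Nat.mod_lt _ (by omega)))
  rw [mem_preimage, ← Function.iterate_add_apply, Nat.mod_add_div] at h4
  exact h4

end Pool.Agent.Lib.MP_1f4a82_an
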