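import Pool.Agent.Lib.MP_1f4a82_an.CoverDefs
import Pool.Agent.Lib.MP_1f4a82_an.Three
import Pool.Agent.Lib.MP_1f4a82_an.Count
import Pool.Agent.Lib.MP_1f4a82_an.Sides

/-!
The half lemma: for an invariant curve with rational data which is not stable, exactly half of the
other preimages of a generic point lie on each side.
-/

open Topology Filter Set

namespace Pool.Agent.Lib.MP_1f4a82_an

namespace Half'

/-- points of the curve with the same image under `f` are equal -/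
theorem curve_inj {f : P → P} (c : InvCurve f) (x y : ℝ) (h : f (c.γ x) = f (c.γ y)) :
    c.γ x = c.γ y := by
  rw [c.inv, c.inv] at h
  obtain ⟨k, hk⟩ := c.inj _ (c.toLine.real_mem_strip _) _ (c.toLine.real_mem_strip _) h
  have h1 : c.F y = c.F (x + k) := by
    rw [c.F_per_int]
    have : ((c.F y : ℝ) : ℂ) = ((c.F x + k : ℝ) : ℂ) := by rw [hk]; push_cast; rfl
    exact_mod_cast this
  have h2 := c.F_mono.injective h1
  rw [h2]
  push_cast
  exact (c.per_int k x).symm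

theorem curve_ne {f : P → P} (c : InvCurve f) : c.γ (0 : ℝ) ≠ c.γ ((1 / 2 : ℝ) : ℂ) := by
  intro h
  obtain ⟨k, hk⟩ := c.inj _ (c.toLine.real_mem_strip _) _ (c.toLine.real_mem_strip _) h
  have h1 : (1 / 2 : ℝ) = k := by
    have : (((1 / 2 : ℝ)) : ℂ) = ((k : ℝ) : ℂ) := by rw [hk]; push_cast; ring
    exact_mod_cast this
  have h2 : (1 : ℝ) = 2 * k := by linarith
  have h3 : (1 : ℤ) = 2 * k := by exact_mod_cast h2
  omega

theorem curve_nonconst {f : P → P} (c : InvCurve f) : ∃ x y, f x ≠ f y :=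
  ⟨c.γ (0 : ℝ), c.γ ((1 / 2 : ℝ) : ℂ), fun h => curve_ne c (curve_inj c _ _ h)⟩

theorem ncard_preimage {h : P → P} (hfin : ∀ y, (h ⁻¹' {y}).Finite) (Q : Set P) (k : ℕ)
    {S : Set P} (hS : S.Finite) (hk : ∀ y ∈ S, (h ⁻¹' {y} ∩ Q).ncard = k) :
    (h ⁻¹' S ∩ Q).Finite ∧ (h ⁻¹' S ∩ Q).ncard = S.ncard * k := by
  induction S, hS using Set.Finite.induction_on with
  | empty => simp
  | @insert a S ha hS ih =>
    obtain ⟨ih1, ih2⟩ := ih fun y hy => hk y (mem_insert_of_mem a hy)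
    have h1 : h ⁻¹' (insert a S) ∩ Q = (h ⁻¹' {a} ∩ Q) ∪ (h ⁻¹' S ∩ Q) := by
      ext x
      simp only [mem_inter_iff, mem_preimage, mem_insert_iff, mem_union, mem_singleton_iff]
      tauto
    have h2 : (h ⁻¹' {a} ∩ Q).Finite := (hfin a).subset inter_subset_left
    have h3 : Disjoint (h ⁻¹' {a} ∩ Q) (h ⁻¹' S ∩ Q) := by
      rw [disjoint_left]
      rintro x ⟨hx, -⟩ ⟨hx', -⟩
      rw [mem_preimage, mem_singleton_iff] at hx
      rw [mem_preimage, hx] at hx'
      exact ha hx'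
    rw [h1]
    refine ⟨h2.union ih1, ?_⟩
    rw [ncard_union_eq h3 h2 ih1, ih2, hk a (mem_insert _ _), ncard_insert_of_notMem ha hS]
    ring

/-- counting a fibre of a composition -/
theorem ncard_comp {u h : P → P} (hfu : ∀ y, (u ⁻¹' {y}).Finite) (hfh : ∀ y, (h ⁻¹' {y}).Finite)
    (Q A B : Set P) (hAB : Disjoint A B) (w : P) (hw : u ⁻¹' {w} ⊆ A ∪ B) (k l : ℕ)
    (hk : ∀ y ∈ u ⁻¹' {w} ∩ A, (h ⁻¹' {y} ∩ Q).ncard = k)
    (hl : ∀ y ∈ u ⁻¹' {w} ∩ B, (h ⁻¹' {y} ∩ Q).ncard = l) :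
    ((fun x => u (h x)) ⁻¹' {w} ∩ Q).ncard =
      (u ⁻¹' {w} ∩ A).ncard * k + (u ⁻¹' {w} ∩ B).ncard * l := by
  obtain ⟨h1, h2⟩ := ncard_preimage hfh Q k ((hfu w).subset (inter_subset_left (t := A))) hk
  obtain ⟨h3, h4⟩ := ncard_preimage hfh Q l ((hfu w).subset (inter_subset_left (t := B))) hl
  rw [← h2, ← h4, ← ncard_union_eq _ h1 h3]
  · congr 1
    ext x
    simp only [mem_inter_iff, mem_preimage, mem_union, mem_singleton_iff]
    constructor
    · rintro ⟨hx, hQ⟩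
      rcases hw (show h x ∈ u ⁻¹' {w} from hx) with h5 | h5
      · exact Or.inl ⟨⟨hx, h5⟩, hQ⟩
      · exact Or.inr ⟨⟨hx, h5⟩, hQ⟩
    · rintro (⟨⟨hx, -⟩, hQ⟩ | ⟨⟨hx, -⟩, hQ⟩) <;> exact ⟨hx, hQ⟩
  · rw [disjoint_left]
    rintro x ⟨⟨-, hx⟩, -⟩ ⟨⟨-, hx'⟩, -⟩
    exact disjoint_left.mp hAB hx hx'

theorem stable_transfer_one {f g h : P → P} (hf : Continuous f) (hh : Continuous h)
    (hs : ∀ p, f (h p) = h (g p)) (c : InvCurve f) (cA : InvCurve g) {δ : ℝ} (hδ : 0 < δ)
    (hrel : ∀ s ∈ strip δ, h (cA.γ s) = c.γ s) (hst : cA.Stable) : c.Stable := by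
  have hg1 : g^[1] = g := Function.iterate_one g
  let cA' : InvCurve (g^[1]) :=
    { γ := cA.γ, η := cA.η, η_pos := cA.η_pos, hol := cA.hol, per := cA.per, inj := cA.inj,
      F := cA.F, F_cont := cA.F_cont, F_mono := cA.F_mono, F_per := cA.F_per, inv := cA.inv,
      noper := cA.noper }
  refine stable_transfer hf hh hs c le_rfl cA' (e := 1) le_rfl hδ ?_ ?_
  · intro s hs'
    have := hrel s hs'
    simpa using this
  · intro O hO h1
    obtain ⟨δ', h2, h3, h4⟩ := hst O hO h1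
    refine ⟨δ', h2, h3, fun n s hs' => ?_⟩
    have h5 := h4 n s hs'
    have h6 : (g^[1])^[n] = g^[n] := congrArg (fun u => u^[n]) hg1
    have h7 : (g^[1])^[n] (cA.γ s) ∈ O := by rw [h6]; exact h5
    exact h7

/-- the upper half plane in the sphere -/
def UP : Set P := (fun w : ℂ => (w : P)) '' {w | 0 < w.im}

/-- the lower half plane in the sphere -/
def DN : Set P := (fun w : ℂ => (w : P)) '' {w | w.im < 0}

theorem isOpen_UP : IsOpen UP :=
  OnePoint.isOpenEmbedding_coe.isOpenMap _ (isOpen_lt continuous_const Complex.continuous_im)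

theorem isOpen_DN : IsOpen DN :=
  OnePoint.isOpenEmbedding_coe.isOpenMap _ (isOpen_lt Complex.continuous_im continuous_const)

theorem disjoint_UP_DN : Disjoint UP DN := by
  rw [disjoint_left]
  rintro _ ⟨w, hw, rfl⟩ ⟨w', hw', h⟩
  have : w' = w := OnePoint.coe_injective h
  rw [this] at hw'
  have h1 : 0 < w.im := hw
  have h2 : w.im < 0 := hw'
  linarith

theorem union_UP_DN : UP ∪ DN = {p | cjP p = p}ᶜ := by
  ext p
  induction p using OnePoint.rec with
  | infty =>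
    simp only [mem_union, UP, DN, mem_image, OnePoint.coe_ne_infty, and_false, exists_false,
      or_false, mem_compl_iff, false_iff, not_not]
    exact cjP_infty
  | coe z =>
    have h1 : ((z : ℂ) : P) ∈ UP ↔ 0 < z.im := by
      constructor
      · rintro ⟨w, hw, h⟩
        rw [← OnePoint.coe_injective h]; exact hw
      · intro h; exact ⟨z, h, rfl⟩
    have h2 : ((z : ℂ) : P) ∈ DN ↔ z.im < 0 := by
      constructor
      · rintro ⟨w, hw, h⟩
        rw [← OnePoint.coe_injective h]; exact hw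
      · intro h; exact ⟨z, h, rfl⟩
    have h3 : ((z : ℂ) : P) ∈ {p : P | cjP p = p} ↔ z.im = 0 := by
      constructor
      · intro h
        have h4 : cjP ((z : ℂ) : P) = ((z : ℂ) : P) := h
        rw [cjP_coe] at h4
        exact Complex.conj_eq_iff_im.mp (OnePoint.coe_injective h4)
      · intro h
        show cjP ((z : ℂ) : P) = ((z : ℂ) : P)
        rw [cjP_coe, Complex.conj_eq_iff_im.mpr h]
    rw [mem_union, h1, h2, mem_compl_iff, h3]
    constructor
    · rintro (h | h)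
      · exact ne_of_gt h
      · exact ne_of_lt h
    · intro h
      rcases lt_or_gt_of_ne h with h4 | h4
      · exact Or.inr h4
      · exact Or.inl h4

theorem cjP_UP {p : P} (hp : p ∈ UP) : cjP p ∈ DN := by
  obtain ⟨w, hw, rfl⟩ := hp
  refine ⟨(starRingEnd ℂ) w, ?_, rfl⟩
  have h1 : 0 < w.im := hw
  show ((starRingEnd ℂ) w).im < 0
  rw [Complex.conj_im]; linarith

theorem cjP_DN {p : P} (hp : p ∈ DN) : cjP p ∈ UP := by
  obtain ⟨w, hw, rfl⟩ := hp
  refine ⟨(starRingEnd ℂ) w, ?_, rfl⟩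
  have h1 : w.im < 0 := hw
  show 0 < ((starRingEnd ℂ) w).im
  rw [Complex.conj_im]; linarith

theorem iI_mem {η : ℝ} (hη : 0 < η) : (Complex.I * (η / 2 : ℝ) : ℂ) ∈ strip η ∧
    0 < (Complex.I * (η / 2 : ℝ) : ℂ).im := by
  constructor
  · simp only [strip, Set.mem_ofPred_eq]
    rw [Complex.I_mul_im, Complex.ofReal_re, abs_of_pos (by linarith)]
    linarith
  · rw [Complex.I_mul_im, Complex.ofReal_re]; linarith

/-- the sides of the real circle -/
theorem side_subset {g : P → P} (c : InvCurve g)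
    (hsym : ∀ s ∈ strip c.η, c.γ ((starRingEnd ℂ) s) = cjP (c.γ s))
    (hreal : (range fun x : ℝ => c.γ x) = {p | cjP p = p})
    (hup : ∀ s ∈ strip c.η, 0 < s.im → ∃ w : ℂ, 0 < w.im ∧ c.γ s = (w : P))
    {H H' : Set P} (hS : c.toLine.Sides H H') : H ⊆ UP ∧ H' ⊆ DN := by
  have hell : c.toLine.ell = {p | cjP p = p} := hreal
  obtain ⟨h1, h2⟩ := iI_mem c.η_pos
  obtain ⟨w, hw, hw'⟩ := hup _ h1 h2
  have hUP : c.γ (Complex.I * (c.η / 2 : ℝ)) ∈ UP := ⟨w, hw, hw'.symm⟩
  have h3 := hsym _ h1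
  constructor
  · refine hS.conn_p.isPreconnected.subset_left_of_subset_union isOpen_UP isOpen_DN disjoint_UP_DN
      ?_ ⟨_, hS.up _ h1 h2, hUP⟩
    intro p hp
    rw [union_UP_DN, ← hell]
    exact hS.not_mem_ell.mpr (Or.inl hp)
  · refine hS.conn_m.isPreconnected.subset_right_of_subset_union isOpen_UP isOpen_DN
      disjoint_UP_DN ?_ ⟨_, hS.down _ (conj_mem_strip h1) (by rw [Complex.conj_im]; linarith), ?_⟩
    · intro p hp
      rw [union_UP_DN, ← hell]
      exact hS.not_mem_ell.mpr (Or.inr hp)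
    · show c.γ _ ∈ DN
      rw [h3]
      exact cjP_UP hUP

theorem iterate_semi {f g h : P → P} (hs : ∀ p, f (h p) = h (g p)) (n : ℕ) :
    ∀ p, f^[n] (h p) = h (g^[n] p) := by
  induction n with
  | zero => intro p; rfl
  | succ n ih => intro p; rw [Function.iterate_succ_apply, Function.iterate_succ_apply, hs, ih]

theorem iterate_mem {f : P → P} {Z : Set P} (hfZ : ∀ z ∈ Z, f z ∈ Z) (n : ℕ) :
    ∀ z ∈ Z, f^[n] z ∈ Z := by
  induction n with
  | zero => intro z hz; exact hz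
  | succ n ih => intro z hz; rw [Function.iterate_succ_apply]; exact ih _ (hfZ z hz)

theorem mem_strip_of_up {η : ℝ} (hη : 0 < η) {s : ℂ} (h0 : 0 ≤ s.im) (h1 : s.im < η) :
    s ∈ strip η := by
  show |s.im| < η
  rw [abs_of_nonneg h0]; exact h1

theorem stable_up {f : P → P} (hf : ∀ p, HolAt f p) (c : InvCurve f) (R : RatData f c) {Z : Set P}
    (hZ : IsClosed Z) (hfZ : ∀ z ∈ Z, f z ∈ Z) (hγ : ∀ s : ℂ, 0 ≤ s.im → s.im < c.η → c.γ s ∈ Z)
    {p q : P} (hp : p ∈ UP) (hq : q ∈ DN) (hpZ : R.h p ∉ Z) (hqZ : R.h q ∉ Z) : c.Stable := by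
  obtain ⟨a, ha, rfl⟩ := hp
  obtain ⟨b, hb, rfl⟩ := hq
  have hhc : Continuous R.h := Count.continuous_of_hol R.h_hol
  have hfc : Continuous f := Count.continuous_of_hol hf
  have hcl : IsClosed (R.h ⁻¹' Z) := hZ.preimage hhc
  have hst : R.cT.Stable := by
    refine stable_of_avoid R.g_hol R.cT (δ := c.η) (by rw [R.η_eq]; exact R.sym) R.real R.g_real
      c.η_pos R.η_eq.ge (Y := R.h ⁻¹' Z) ?_ ha hb ?_ ?_
    · intro n s h0 h1
      show R.h (R.g^[n] (R.cT.γ s)) ∈ Z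
      rw [← iterate_semi R.semi, R.h_γ s (mem_strip_of_up c.η_pos h0 h1)]
      exact iterate_mem hfZ n _ (hγ s h0 h1)
    · rw [hcl.closure_eq]; exact hpZ
    · rw [hcl.closure_eq]; exact hqZ
  exact stable_transfer_one hfc hhc R.semi c R.cT c.η_pos R.h_γ hst

theorem stable_down {f : P → P} (hf : ∀ p, HolAt f p) (c : InvCurve f) (R : RatData f c)
    {Z : Set P} (hZ : IsClosed Z) (hfZ : ∀ z ∈ Z, f z ∈ Z)
    (hγ : ∀ s : ℂ, -c.η < s.im → s.im ≤ 0 → c.γ s ∈ Z)
    {p q : P} (hp : p ∈ UP) (hq : q ∈ DN) (hpZ : R.h p ∉ Z) (hqZ : R.h q ∉ Z) : c.Stable := by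
  obtain ⟨a, ha, ha'⟩ := cjP_DN hq
  obtain ⟨b, hb, hb'⟩ := cjP_UP hp
  have ha' : (a : P) = cjP q := ha'
  have hb' : (b : P) = cjP p := hb'
  have hhc : Continuous R.h := Count.continuous_of_hol R.h_hol
  have hfc : Continuous f := Count.continuous_of_hol hf
  have hcl : IsClosed (cjP ⁻¹' (R.h ⁻¹' Z)) := (hZ.preimage hhc).preimage continuous_cjP
  have hst : R.cT.Stable := by
    refine stable_of_avoid R.g_hol R.cT (δ := c.η) (by rw [R.η_eq]; exact R.sym) R.real R.g_real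
      c.η_pos R.η_eq.ge (Y := cjP ⁻¹' (R.h ⁻¹' Z)) ?_ ha hb ?_ ?_
    · intro n s h0 h1
      show R.h (cjP (R.g^[n] (R.cT.γ s))) ∈ Z
      have hs := mem_strip_of_up c.η_pos h0 h1
      have h2 : cjP (R.g^[n] (R.cT.γ s)) = R.g^[n] (cjP (R.cT.γ s)) :=
        (iterate_semi R.g_real n (R.cT.γ s)).symm
      rw [h2, ← R.sym s hs, ← iterate_semi R.semi, R.h_γ _ (conj_mem_strip hs)]
      refine iterate_mem hfZ n _ (hγ _ ?_ ?_)
      · rw [Complex.conj_im]; linarith
      · rw [Complex.conj_im]; linarith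
    · rw [hcl.closure_eq, ha']
      show R.h (cjP (cjP q)) ∉ Z
      rw [cjP_cjP]; exact hqZ
    · rw [hcl.closure_eq, hb']
      show R.h (cjP (cjP p)) ∉ Z
      rw [cjP_cjP]; exact hpZ
  exact stable_transfer_one hfc hhc R.semi c R.cT c.η_pos R.h_γ hst

/-- a nonempty open set minus a finite set -/
theorem exists_generic {A E : Set P} (hA : IsOpen A) (hne : A.Nonempty) (hE : E.Finite) :
    ∃ w ∈ A, w ∉ E := by
  obtain ⟨p, hp⟩ := hne
  have h1 := Count.eventually_notMem_finite hE p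
  have h2 : ∀ᶠ x in 𝓝[≠] p, x ∈ A := nhdsWithin_le_nhds (hA.mem_nhds hp)
  obtain ⟨w, hw1, hw2⟩ := (h2.and h1).exists
  exact ⟨w, hw1, hw2⟩

theorem not_mem_closure {f : P → P} (hf : ∀ p, HolAt f p) (hn : ∃ x y, f x ≠ f y) {A B : Set P}
    (hA : IsOpen A) (hB : IsOpen B)
    (h : ∀ w ∉ critVal f, w ∈ B → (f ⁻¹' {w} ∩ A).ncard = 0) : ∀ p ∈ A, f p ∉ closure B := by
  intro p hp hcl
  have h1 : f '' A ∈ 𝓝 (f p) := by
    rw [← Count.map_nhds' hf hn rfl]
    exact image_mem_map (hA.mem_nhds hp)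
  rw [mem_closure_iff] at hcl
  obtain ⟨q, hq, hqB⟩ := hcl (interior (f '' A)) isOpen_interior (mem_interior_iff_mem_nhds.mpr h1)
  obtain ⟨w, ⟨hw1, hw2⟩, hw3⟩ := exists_generic (isOpen_interior.inter hB) ⟨q, hq, hqB⟩
    (Count.finite_critVal hf hn)
  obtain ⟨z, hz, hzw⟩ := interior_subset hw1
  have h2 := h w hw3 hw2
  rw [ncard_eq_zero ((Count.finite_fibre hf hn w).subset inter_subset_left)] at h2
  have : z ∈ f ⁻¹' {w} ∩ A := ⟨hzw, hz⟩
  rw [h2] at this
  exact this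

end Half'

open Half' in
theorem half_of_ratData [SimplyConnectedSpace P] {f : P → P} (hf : ∀ p, HolAt f p)
    (hn : ∃ x y, f x ≠ f y) (c : InvCurve f) (hns : ¬ c.Stable)
    (R : RatData f c) {A B : Set P} (hS : c.toLine.Sides A B) : Half f A B := by
  obtain ⟨H, H', hT⟩ := Line.exists_sides R.cT.toLine
  have hsymT : ∀ s ∈ strip R.cT.η, R.cT.γ ((starRingEnd ℂ) s) = cjP (R.cT.γ s) := by
    rw [R.η_eq]; exact R.sym
  have hupT : ∀ s ∈ strip R.cT.η, 0 < s.im → ∃ w : ℂ, 0 < w.im ∧ R.cT.γ s = (w : P) := by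
    rw [R.η_eq]; exact R.up
  obtain ⟨hHU, hHD⟩ := side_subset R.cT hsymT R.real hupT hT
  -- the involution
  obtain ⟨hsw1, hsw2, hsw3⟩ := hT.swap continuous_cjP cjP_cjP (fun s hs => (hsymT s hs).symm)
  -- nonconstancy
  have hng : ∃ x y, R.g x ≠ R.g y := curve_nonconst R.cT
  have hstr : ∀ x : ℝ, (x : ℂ) ∈ strip c.η := fun x => c.toLine.real_mem_strip x
  have hnh : ∃ x y, R.h x ≠ R.h y := by
    refine ⟨R.cT.γ (0 : ℝ), R.cT.γ ((1 / 2 : ℝ) : ℂ), ?_⟩
    rw [R.h_γ _ (hstr _), R.h_γ _ (hstr _)]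
    exact curve_ne c
  -- the counts
  obtain ⟨d, n, hnd, hd, hfA, hfB⟩ := exists_count hf hn c.toLine c.toLine hS hS c.F c.F_cont
    c.F_mono c.inv (curve_inj c)
  obtain ⟨m, M, hMm, hm, hhA, hhB⟩ := exists_count R.h_hol hnh R.cT.toLine c.toLine hT hS id
    continuous_id strictMono_id (fun x => R.h_γ x (hstr x)) (by
      intro x y hxy
      have h1 : R.h (R.cT.γ x) = R.h (R.cT.γ y) := hxy
      rw [R.h_γ _ (hstr _), R.h_γ _ (hstr _)] at h1
      obtain ⟨k, hk⟩ := c.inj _ (hstr x) _ (hstr y) h1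
      show R.cT.γ x = R.cT.γ y
      rw [hk]
      exact (R.cT.per_int k x).symm)
  obtain ⟨d', N, hNd, hd', hgA, hgB⟩ := exists_count R.g_hol hng R.cT.toLine R.cT.toLine hT hT
    R.cT.F R.cT.F_cont R.cT.F_mono R.cT.inv (curve_inj R.cT)
  have hcf := Count.finite_critVal hf hn
  have hch := Count.finite_critVal R.h_hol hnh
  have hcg := Count.finite_critVal R.g_hol hng
  have hff := Count.finite_fibre hf hn
  have hfh := Count.finite_fibre R.h_hol hnh
  have hfg := Count.finite_fibre R.g_hol hng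
  -- symmetry
  have e1 : N + 1 = d' - N := by
    have hcg' : (cjP ⁻¹' critVal R.g).Finite := hcg.preimage (by
      intro x _ y _ hxy
      rw [← cjP_cjP x, hxy, cjP_cjP])
    obtain ⟨w, hwH, hw⟩ := exists_generic hT.open_p hT.conn_p.nonempty (hcg.union hcg')
    have hw1 : w ∉ critVal R.g := fun h => hw (Or.inl h)
    have hw2 : cjP w ∉ critVal R.g := fun h => hw (Or.inr h)
    rw [← (hgA w hw1 hwH).1, ← (hgB (cjP w) hw2 (hsw1 w hwH)).2]
    refine ncard_congr (fun x _ => cjP x) ?_ ?_ ?_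
    · rintro x ⟨hx, hxH⟩
      refine ⟨?_, hsw1 x hxH⟩
      show R.g (cjP x) = cjP w
      rw [R.g_real]
      exact congrArg cjP hx
    · intro x y _ _ hxy
      rw [← cjP_cjP x, hxy, cjP_cjP]
    · rintro y ⟨hy, hyH⟩
      refine ⟨cjP y, ⟨?_, hsw2 y hyH⟩, cjP_cjP y⟩
      show R.g (cjP y) = w
      rw [R.g_real, show R.g y = cjP w from hy, cjP_cjP]
  -- preimages of points off the lines are off the lines
  have hoff_f : ∀ w, w ∉ c.toLine.ell → f ⁻¹' {w} ⊆ A ∪ B := by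
    intro w hw x hx
    rcases hS.cases x with h1 | h1 | ⟨t, ht⟩
    · exact Or.inl h1
    · exact Or.inr h1
    · exfalso
      apply hw
      have h2 : f x = w := hx
      rw [← h2, ← ht]
      exact ⟨c.F t, (c.inv t).symm⟩
  have hoff_h : ∀ w, w ∉ c.toLine.ell → R.h ⁻¹' {w} ⊆ H ∪ H' := by
    intro w hw x hx
    rcases hT.cases x with h1 | h1 | ⟨t, ht⟩
    · exact Or.inl h1
    · exact Or.inr h1
    · exfalso
      apply hw
      have h2 : R.h x = w := hx
      rw [← h2, ← ht]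
      exact ⟨t, (R.h_γ t (hstr t)).symm⟩
  -- the generic point
  obtain ⟨w, hwB, hw⟩ := exists_generic hS.open_m hS.conn_m.nonempty
    ((hcf.union (hch.image f)).union (hch.union (hcg.image R.h)))
  have hw1 : w ∉ critVal f := fun h => hw (Or.inl (Or.inl h))
  have hw2 : ∀ y ∈ f ⁻¹' {w}, y ∉ critVal R.h := fun y hy h => hw (Or.inl (Or.inr ⟨y, h, hy⟩))
  have hw3 : w ∉ critVal R.h := fun h => hw (Or.inr (Or.inl h))
  have hw4 : ∀ y ∈ R.h ⁻¹' {w}, y ∉ critVal R.g := fun y hy h => hw (Or.inr (Or.inr ⟨y, h, hy⟩))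
  have hwe : w ∉ c.toLine.ell := hS.not_mem_ell.mpr (Or.inr hwB)
  have hfun : (fun x => f (R.h x)) = fun x => R.h (R.g x) := funext R.semi
  have c1 := ncard_comp hff hfh H A B hS.disj w (hoff_f w hwe) (M + 1) M
    (fun y hy => (hhA y (hw2 y hy.1) hy.2).1) (fun y hy => (hhB y (hw2 y hy.1) hy.2).1)
  have c2 := ncard_comp hfh hfg H H H' hT.disj w (hoff_h w hwe) (N + 1) N
    (fun y hy => (hgA y (hw4 y hy.1) hy.2).1) (fun y hy => (hgB y (hw4 y hy.1) hy.2).1)
  have c3 := ncard_comp hff hfh univ A B hS.disj w (hoff_f w hwe) m m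
    (fun y hy => by rw [inter_univ]; exact hm y (hw2 y hy.1))
    (fun y hy => by rw [inter_univ]; exact hm y (hw2 y hy.1))
  have c4 := ncard_comp hfh hfg univ H H' hT.disj w (hoff_h w hwe) d' d'
    (fun y hy => by rw [inter_univ]; exact hd' y (hw4 y hy.1))
    (fun y hy => by rw [inter_univ]; exact hd' y (hw4 y hy.1))
  rw [hfun] at c1 c3
  rw [c1, (hfB w hw1 hwB).1, (hfB w hw1 hwB).2, (hhB w hw3 hwB).1, (hhB w hw3 hwB).2] at c2
  rw [c3, (hfB w hw1 hwB).1, (hfB w hw1 hwB).2, (hhB w hw3 hwB).1, (hhB w hw3 hwB).2] at c4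
  have e2 : n + (d - n) = d := by omega
  have e3 : M + (m - M) = m := by omega
  have e4 : d * m = m * d' := by
    rw [← add_mul, ← add_mul, e2, e3] at c4; exact c4
  have e5 : d = d' := by
    have hm0 : 0 < m := by omega
    rw [mul_comm d m] at e4
    exact Nat.eq_of_mul_eq_mul_left hm0 e4
  have e6 : n + d * M = M + m * N := by
    have h1 : n * (M + 1) + (d - n) * M = n + (n + (d - n)) * M := by ring
    have h2 : M * (N + 1) + (m - M) * N = M + (M + (m - M)) * N := by ring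
    rw [h1, h2, e2, e3] at c2
    exact c2
  have e7 : d = 2 * N + 1 := by omega
  have e8 : n + 2 * (N * M) = m * N := by
    rw [e7] at e6
    have : (2 * N + 1) * M = 2 * (N * M) + M := by ring
    rw [this] at e6
    omega
  have hfin : d = 2 * n + 1 → Half f A B := by
    intro hd2
    refine ⟨critVal f, d, hcf, fun w hw => ⟨hff w, hd w hw⟩, fun w hw => ⟨fun hA => ?_, fun hB => ?_⟩⟩
    · rw [(hfA w hw hA).1, (hfA w hw hA).2]; omega
    · rw [(hfB w hw hB).1, (hfB w hw hB).2]; omega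
  by_cases hN : N = 0
  · subst hN
    apply hfin
    omega
  have hN1 : 1 ≤ N := by omega
  have e9 : 2 * M ≤ m := by
    by_contra hlt
    push Not at hlt
    have h1 : m * N < 2 * M * N := Nat.mul_lt_mul_of_pos_right hlt hN1
    have h2 : 2 * M * N = 2 * (N * M) := by ring
    omega
  obtain ⟨r, hr⟩ := Nat.exists_eq_add_of_le e9
  have e10 : n = r * N := by
    have h1 : m * N = 2 * (N * M) + r * N := by rw [hr]; ring
    omega
  have e11 : r ≤ 2 := by
    by_contra hlt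
    push Not at hlt
    have h1 : 3 * N ≤ r * N := Nat.mul_le_mul_right N hlt
    omega
  have hcases : r = 0 ∨ r = 1 ∨ r = 2 := by omega
  -- existence of points
  have hBgen := exists_generic hS.open_m hS.conn_m.nonempty hch
  have hAgen := exists_generic hS.open_p hS.conn_p.nonempty hch
  rcases hcases with h0 | h0 | h0
  · -- m = 2 M
    exfalso
    apply hns
    have hn0 : n = 0 := by rw [e10, h0, zero_mul]
    have hM : 1 ≤ M := by omega
    have hcl := not_mem_closure hf hn hS.open_p hS.open_m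
      (fun w hw hwB => by rw [(hfB w hw hwB).1, hn0])
    obtain ⟨v, hvB, hv⟩ := hBgen
    obtain ⟨p, hp, hpH⟩ : (R.h ⁻¹' {v} ∩ H).Nonempty := by
      apply nonempty_of_ncard_ne_zero
      rw [(hhB v hv hvB).1]; omega
    obtain ⟨q, hq, hqH⟩ : (R.h ⁻¹' {v} ∩ H').Nonempty := by
      apply nonempty_of_ncard_ne_zero
      rw [(hhB v hv hvB).2]; omega
    refine stable_up hf c R (Z := Bᶜ) hS.open_m.isClosed_compl ?_ ?_ (hHU hpH) (hHD hqH) ?_ ?_
    · intro z hz
      rcases hS.cases z with h1 | h1 | ⟨t, ht⟩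
      · exact fun h2 => hcl z h1 (subset_closure h2)
      · exact absurd h1 hz
      · apply hS.ell_not_m
        rw [← ht]
        exact ⟨c.F t, (c.inv t).symm⟩
    · intro s h1 h2
      have hs := mem_strip_of_up c.η_pos h1 h2
      intro h3
      have h4 : c.toLine.γ s ∈ B := h3
      rw [hS.mem_m_iff hs] at h4
      linarith
    · intro h1
      apply h1
      rw [show R.h p = v from hp]; exact hvB
    · intro h1
      apply h1
      rw [show R.h q = v from hq]; exact hvB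
  · apply hfin
    rw [h0, one_mul] at e10
    omega
  · -- m = 2 M + 2
    exfalso
    apply hns
    have hcl := not_mem_closure hf hn hS.open_m hS.open_p
      (fun w hw hwA => by rw [(hfA w hw hwA).2, e10, h0]; omega)
    obtain ⟨v, hvA, hv⟩ := hAgen
    obtain ⟨p, hp, hpH⟩ : (R.h ⁻¹' {v} ∩ H).Nonempty := by
      apply nonempty_of_ncard_ne_zero
      rw [(hhA v hv hvA).1]; omega
    obtain ⟨q, hq, hqH⟩ : (R.h ⁻¹' {v} ∩ H').Nonempty := by
      apply nonempty_of_ncard_ne_zero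
      rw [(hhA v hv hvA).2]; omega
    refine stable_down hf c R (Z := Aᶜ) hS.open_p.isClosed_compl ?_ ?_ (hHU hpH) (hHD hqH) ?_ ?_
    · intro z hz
      rcases hS.cases z with h1 | h1 | ⟨t, ht⟩
      · exact absurd h1 hz
      · exact fun h2 => hcl z h1 (subset_closure h2)
      · apply hS.ell_not_p
        rw [← ht]
        exact ⟨c.F t, (c.inv t).symm⟩
    · intro s h1 h2
      have hs : s ∈ strip c.η := by
        show |s.im| < c.η
        rw [abs_of_nonpos h2]; linarith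
      intro h3
      have h4 : c.toLine.γ s ∈ A := h3
      rw [hS.mem_p_iff hs] at h4
      linarith
    · intro h1
      apply h1
      rw [show R.h p = v from hp]; exact hvA
    · intro h1
      apply h1
      rw [show R.h q = v from hq]; exact hvA

end Pool.Agent.Lib.MP_1f4a82_an
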