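import Pool.Agent.Lib.MP_1f4a82_an.MainDefs
import Pool.Agent.Lib.MP_1f4a82_an.Limits

/-!
A stable invariant analytic curve can be linearised.
-/

open Topology Filter Set

namespace Pool.Agent.Lib.MP_1f4a82_an

/-! ### General lemmas on strips -/

theorem convex_strip (δ : ℝ) : Convex ℝ (strip δ) := by
  have h : strip δ = {s : ℂ | -δ < s.im} ∩ {s : ℂ | s.im < δ} := by
    ext s
    simp only [strip, Set.mem_ofPred_eq, abs_lt, Set.mem_inter_iff]
  rw [h]
  exact (convex_halfSpace_im_gt _).inter (convex_halfSpace_im_lt _)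

theorem isPreconnected_strip (δ : ℝ) : IsPreconnected (strip δ) := (convex_strip δ).isPreconnected

theorem real_mem_strip' {δ : ℝ} (hδ : 0 < δ) (x : ℝ) : (x : ℂ) ∈ strip δ := by
  simpa [strip] using hδ

theorem add_real_mem_strip {δ : ℝ} {s : ℂ} (hs : s ∈ strip δ) (x : ℝ) : s + (x : ℂ) ∈ strip δ := by
  simpa [strip] using hs

theorem add_one_mem_strip {δ : ℝ} {s : ℂ} (hs : s ∈ strip δ) : s + 1 ∈ strip δ := by
  simpa [strip] using hs

theorem add_int_mem_strip {δ : ℝ} {s : ℂ} (hs : s ∈ strip δ) (k : ℤ) : s + (k : ℂ) ∈ strip δ := by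
  simpa [strip] using hs

theorem strip_mono {δ δ' : ℝ} (h : δ ≤ δ') : strip δ ⊆ strip δ' := fun _ hs =>
  lt_of_lt_of_le hs h

/-- Holomorphic logarithms on convex open sets. -/
theorem exists_log_of_convex {S : Set ℂ} (hS : Convex ℝ S) (hSo : IsOpen S) {e : ℂ → ℂ}
    (he : DifferentiableOn ℂ e S) (hne : ∀ z ∈ S, e z ≠ 0) :
    ∃ h : ℂ → ℂ, DifferentiableOn ℂ h S ∧ ∀ z ∈ S, Complex.exp (h z) = e z := by
  rcases S.eq_empty_or_nonempty with rfl | ⟨z₀, hz₀⟩
  · exact ⟨0, by simp, by simp⟩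
  have hd : DifferentiableOn ℂ (fun z => deriv e z / e z) S := (he.deriv hSo).div he hne
  obtain ⟨g, hg⟩ := hS.exists_forall_hasDerivWithinAt hd
  have hg' : ∀ z ∈ S, HasDerivAt g (deriv e z / e z) z := fun z hz =>
    (hg z hz).hasDerivAt (hSo.mem_nhds hz)
  have hq : ∀ z ∈ S, HasDerivAt (fun z => e z * Complex.exp (-(g z))) 0 z := by
    intro z hz
    have h1 : HasDerivAt e (deriv e z) z := (he.differentiableAt (hSo.mem_nhds hz)).hasDerivAt
    have h2 : HasDerivAt (fun z => Complex.exp (-(g z)))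
        (Complex.exp (-(g z)) * (-(deriv e z / e z))) z := (hg' z hz).neg.cexp
    have h3 := h1.mul h2
    have h4 : deriv e z * Complex.exp (-(g z)) +
        e z * (Complex.exp (-(g z)) * (-(deriv e z / e z))) = 0 := by
      have := hne z hz
      field_simp
      ring
    rw [h4] at h3
    exact h3
  have hconst : ∀ z ∈ S, e z * Complex.exp (-(g z)) = e z₀ * Complex.exp (-(g z₀)) := fun z hz =>
    hSo.is_const_of_deriv_eq_zero hS.isPreconnected
    (fun z hz => (hq z hz).differentiableAt.differentiableWithinAt)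
    (fun z hz => (hq z hz).deriv) hz hz₀
  set k : ℂ := e z₀ * Complex.exp (-(g z₀)) with hk
  have hk0 : k ≠ 0 := mul_ne_zero (hne z₀ hz₀) (Complex.exp_ne_zero _)
  refine ⟨fun z => g z + Complex.log k, ?_, ?_⟩
  · intro z hz
    exact ((hg' z hz).differentiableAt.add_const _).differentiableWithinAt
  · intro z hz
    have h1 : e z * Complex.exp (-(g z)) = k := hconst z hz
    simp only
    rw [Complex.exp_add, Complex.exp_log hk0, ← h1, Complex.exp_neg]
    field_simp

theorem eqOn_strip_of_real {δ : ℝ} (hδ : 0 < δ) {u v : ℂ → ℂ} (hu : DifferentiableOn ℂ u (strip δ))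
    (hv : DifferentiableOn ℂ v (strip δ)) (h : ∀ x : ℝ, u x = v x) : EqOn u v (strip δ) := by
  refine (hu.analyticOnNhd (isOpen_strip δ)).eqOn_of_preconnected_of_frequently_eq
    (hv.analyticOnNhd (isOpen_strip δ)) (isPreconnected_strip δ) (z₀ := ((0 : ℝ) : ℂ))
    (real_mem_strip' hδ 0) ?_
  have ht : Tendsto (fun x : ℝ => (x : ℂ)) (𝓝[≠] 0) (𝓝[≠] ((0 : ℝ) : ℂ)) := by
    refine tendsto_nhdsWithin_iff.mpr ⟨?_, ?_⟩
    · exact (Complex.continuous_ofReal.tendsto 0).mono_left nhdsWithin_le_nhds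
    · filter_upwards [self_mem_nhdsWithin] with x hx
      simpa using hx
  exact ht.frequently (Frequently.of_forall h)

/-- If `D` is holomorphic on a closed ball with `|Im D| ≤ B` then its derivative at the centre
is bounded. -/
theorem norm_deriv_le_of_im {D : ℂ → ℂ} {z : ℂ} {r B : ℝ} (hr : 0 < r)
    (hD : DifferentiableOn ℂ D (Metric.closedBall z r))
    (hB : ∀ w ∈ Metric.closedBall z r, |(D w).im| ≤ B) :
    ‖deriv D z‖ ≤ Real.exp B * Real.exp B / r := by
  have hz : z ∈ Metric.closedBall z r := Metric.mem_closedBall_self hr.le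
  have hnorm : ∀ w, ‖Complex.exp (Complex.I * D w)‖ = Real.exp (-(D w).im) := by
    intro w
    rw [Complex.norm_exp]
    congr 1
    simp
  have hDz : DifferentiableAt ℂ D z := hD.differentiableAt (Metric.closedBall_mem_nhds z hr)
  have h1 : HasDerivAt (fun w => Complex.exp (Complex.I * D w))
      (Complex.exp (Complex.I * D z) * (Complex.I * deriv D z)) z :=
    (hDz.hasDerivAt.const_mul Complex.I).cexp
  have h2 : ‖deriv (fun w => Complex.exp (Complex.I * D w)) z‖ ≤ Real.exp B / r := by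
    refine Complex.norm_deriv_le_of_forall_mem_sphere_norm_le hr ?_ ?_
    · have : DifferentiableOn ℂ (fun w => Complex.exp (Complex.I * D w)) (Metric.closedBall z r) :=
        (hD.const_mul _).cexp
      exact this.diffContOnCl_ball le_rfl
    · intro w hw
      rw [hnorm]
      apply Real.exp_le_exp.mpr
      have := hB w (Metric.sphere_subset_closedBall hw)
      have := neg_abs_le (D w).im
      linarith
  rw [h1.deriv, norm_mul, hnorm, norm_mul, Complex.norm_I, one_mul] at h2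
  have h3 : Real.exp (-B) ≤ Real.exp (-(D z).im) := by
    apply Real.exp_le_exp.mpr
    have := hB z hz
    have := le_abs_self (D z).im
    linarith
  have h4 : Real.exp (-B) * ‖deriv D z‖ ≤ Real.exp B / r :=
    (mul_le_mul_of_nonneg_right h3 (norm_nonneg _)).trans h2
  calc ‖deriv D z‖ = Real.exp B * (Real.exp (-B) * ‖deriv D z‖) := by
        rw [← mul_assoc, ← Real.exp_add]; simp
    _ ≤ Real.exp B * (Real.exp B / r) := mul_le_mul_of_nonneg_left h4 (Real.exp_pos _).le
    _ = Real.exp B * Real.exp B / r := by ring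

/-! ### The iterates in the coordinate of the curve -/

theorem holAt_iterate {f : P → P} (hf : ∀ p, HolAt f p) (n : ℕ) : ∀ p, HolAt f^[n] p := by
  induction n with
  | zero => intro p; exact holAt_id p
  | succ n ih =>
    intro p
    have h : (f^[n + 1] : P → P) = fun x => f^[n] (f x) := by
      funext x; rw [Function.iterate_succ_apply]
    rw [h]
    exact HolAt.comp (g := f^[n]) (f := f) (ih (f p)) (hf p)

theorem InvCurve.iterate {f : P → P} (c : InvCurve f) (n : ℕ) (x : ℝ) :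
    f^[n] (c.γ x) = c.γ (c.F^[n] x : ℝ) := by
  induction n with
  | zero => rfl
  | succ n ih => rw [Function.iterate_succ_apply', ih, c.inv, Function.iterate_succ_apply']

/-- The function `exp (2 π i κ)` near the curve, `κ` being the inverse of the parametrisation. -/
theorem InvCurve.exists_exp {f : P → P} (c : InvCurve f) : ∃ E : P → ℂ,
    (∀ s ∈ strip c.toLine.rad, E (c.γ s) = Complex.exp (2 * Real.pi * Complex.I * s)) ∧
    (∀ s ∈ strip c.toLine.rad, HolAt E (c.γ s)) := by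
  classical
  set L := c.toLine with hL
  have hex : ∀ p : P, ∃ z : ℂ, ∀ s ∈ strip L.rad, c.γ s = p →
      z = Complex.exp (2 * Real.pi * Complex.I * s) := by
    intro p
    by_cases h : ∃ s ∈ strip L.rad, c.γ s = p
    · obtain ⟨s, hs, hsp⟩ := h
      refine ⟨Complex.exp (2 * Real.pi * Complex.I * s), ?_⟩
      intro s' hs' hs'p
      obtain ⟨k, hk⟩ := c.inj s (strip_mono L.rad_le hs) s' (strip_mono L.rad_le hs')
        (hsp.trans hs'p.symm)
      rw [hk, mul_add, Complex.exp_add]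
      have : Complex.exp (2 * Real.pi * Complex.I * (k : ℂ)) = 1 := by
        rw [Complex.exp_eq_one_iff]
        exact ⟨k, by ring⟩
      rw [this, mul_one]
    · refine ⟨0, fun s hs hsp => absurd ⟨s, hs, hsp⟩ h⟩
  choose E hE using hex
  have hE1 : ∀ s ∈ strip L.rad, E (c.γ s) = Complex.exp (2 * Real.pi * Complex.I * s) :=
    fun s hs => hE _ s hs rfl
  refine ⟨E, hE1, ?_⟩
  intro s hs
  have hball : s ∈ Metric.ball ((s.re : ℝ) : ℂ) L.rad := by
    rw [Metric.mem_ball, dist_eq_norm]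
    have : s - (s.re : ℂ) = (s.im : ℂ) * Complex.I := by
      apply Complex.ext <;> simp
    rw [this, norm_mul, Complex.norm_I, mul_one, Complex.norm_real]
    exact hs
  obtain ⟨g, hg1, hg2⟩ := L.exists_inverse s.re
  have h1 : HolAt (fun p => Complex.exp (2 * Real.pi * Complex.I * g p)) (c.γ s) := by
    apply HolAt.cexp
    apply HolAt.mul (holAt_const _ _)
    exact hg2 s hball
  refine h1.congr ?_
  have hopen : IsOpen (L.γ '' Metric.ball ((s.re : ℝ) : ℂ) L.rad) :=
    L.isOpen_image s.re Metric.isOpen_ball subset_rfl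
  filter_upwards [hopen.mem_nhds ⟨s, hball, rfl⟩] with p hp
  obtain ⟨t, ht, rfl⟩ := hp
  rw [hg1 t ht]
  exact (hE1 t (ball_subset_strip le_rfl ht)).symm

theorem InvCurve.isOpen_image_strip {f : P → P} (c : InvCurve f) :
    IsOpen (c.γ '' strip c.toLine.rad) := by
  rw [isOpen_iff_mem_nhds]
  rintro _ ⟨s, hs, rfl⟩
  have hball : s ∈ Metric.ball ((s.re : ℝ) : ℂ) c.toLine.rad := by
    rw [Metric.mem_ball, dist_eq_norm]
    have : s - (s.re : ℂ) = (s.im : ℂ) * Complex.I := by
      apply Complex.ext <;> simp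
    rw [this, norm_mul, Complex.norm_I, mul_one, Complex.norm_real]
    exact hs
  have hopen : IsOpen (c.toLine.γ '' Metric.ball ((s.re : ℝ) : ℂ) c.toLine.rad) :=
    c.toLine.isOpen_image s.re Metric.isOpen_ball subset_rfl
  refine Filter.mem_of_superset (hopen.mem_nhds ⟨s, hball, rfl⟩) ?_
  rintro _ ⟨t, ht, rfl⟩
  exact ⟨t, ball_subset_strip le_rfl ht, rfl⟩

theorem iterate_F_cont {f : P → P} (c : InvCurve f) (n : ℕ) : Continuous (c.F^[n]) :=
  c.F_cont.iterate n

/-- Lifts of the iterates to the coordinate of the curve. -/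
theorem InvCurve.exists_lift {f : P → P} (hf : ∀ p, HolAt f p) (c : InvCurve f) (hst : c.Stable) :
    ∃ δ > 0, δ ≤ c.toLine.rad ∧ ∃ Φ : ℕ → ℂ → ℂ,
      (∀ n, DifferentiableOn ℂ (Φ n) (strip δ)) ∧
      (∀ n, ∀ s ∈ strip δ, Φ n s ∈ strip c.toLine.rad) ∧
      (∀ n, ∀ s ∈ strip δ, c.γ (Φ n s) = f^[n] (c.γ s)) ∧
      ∀ n (x : ℝ), Φ n x = ((c.F^[n] x : ℝ) : ℂ) := by
  obtain ⟨E, hE1, hE2⟩ := c.exists_exp
  have hrad := c.toLine.rad_pos
  obtain ⟨δ₀, hδ₀, -, hδ₀'⟩ := hst (c.γ '' strip c.toLine.rad) c.isOpen_image_strip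
    (fun x => ⟨x, real_mem_strip' hrad x, rfl⟩)
  set δ : ℝ := min δ₀ c.toLine.rad with hδ
  have hδpos : 0 < δ := lt_min hδ₀ hrad
  have hδr : δ ≤ c.toLine.rad := min_le_right _ _
  refine ⟨δ, hδpos, hδr, ?_⟩
  have hO : ∀ n, ∀ s ∈ strip δ, ∃ t ∈ strip c.toLine.rad, c.γ t = f^[n] (c.γ s) := fun n s hs =>
    hδ₀' n s (strip_mono (min_le_left _ _) hs)
  have key : ∀ n, ∃ φ : ℂ → ℂ, DifferentiableOn ℂ φ (strip δ) ∧
      (∀ s ∈ strip δ, φ s ∈ strip c.toLine.rad) ∧
      (∀ s ∈ strip δ, c.γ (φ s) = f^[n] (c.γ s)) ∧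
      ∀ x : ℝ, φ x = ((c.F^[n] x : ℝ) : ℂ) := by
    intro n
    have he : DifferentiableOn ℂ (fun s => E (f^[n] (c.γ s))) (strip δ) := by
      intro s hs
      apply DifferentiableAt.differentiableWithinAt
      apply AnalyticAt.differentiableAt
      rw [← holAt_iff_analyticAt]
      refine HolAt.comp (g := E) (f := fun s => f^[n] (c.γ s)) ?_ ?_
      · obtain ⟨t, ht, hts⟩ := hO n s hs
        simp only [← hts]
        exact hE2 t ht
      · exact HolAt.comp (g := f^[n]) (f := c.γ) (holAt_iterate hf n _)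
          (c.hol s (strip_mono (hδr.trans c.toLine.rad_le) hs))
    have hne : ∀ s ∈ strip δ, E (f^[n] (c.γ s)) ≠ 0 := by
      intro s hs
      obtain ⟨t, ht, hts⟩ := hO n s hs
      rw [← hts, hE1 t ht]
      exact Complex.exp_ne_zero _
    obtain ⟨h, hh1, hh2⟩ := exists_log_of_convex (convex_strip δ) (isOpen_strip δ) he hne
    have h2pi : (2 * Real.pi * Complex.I : ℂ) ≠ 0 := Complex.two_pi_I_ne_zero
    have hφ : ∀ s ∈ strip δ, ∀ t ∈ strip c.toLine.rad, c.γ t = f^[n] (c.γ s) →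
        ∃ k : ℤ, h s / (2 * Real.pi * Complex.I) = t + k := by
      intro s hs t ht hts
      have h1 := hh2 s hs
      rw [← hts, hE1 t ht, Complex.exp_eq_exp_iff_exists_int] at h1
      obtain ⟨k, hk⟩ := h1
      refine ⟨k, ?_⟩
      rw [hk]
      field_simp
    -- integer shift on the real line
    have hreal : ∀ x : ℝ, ∃ k : ℤ,
        h x / (2 * Real.pi * Complex.I) = ((c.F^[n] x : ℝ) : ℂ) + k := by
      intro x
      exact hφ x (real_mem_strip' hδpos x) _ (real_mem_strip' hrad _) (c.iterate n x).symm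
    choose k hk using hreal
    have hcont : Continuous fun x : ℝ =>
        h x / (2 * Real.pi * Complex.I) - ((c.F^[n] x : ℝ) : ℂ) := by
      refine Continuous.sub ?_ (Complex.continuous_ofReal.comp (iterate_F_cont c n))
      refine Continuous.div_const ?_ _
      rw [continuous_iff_continuousAt]
      intro x
      have h1 : ContinuousAt h (x : ℂ) :=
        (hh1.differentiableAt ((isOpen_strip δ).mem_nhds (real_mem_strip' hδpos x))).continuousAt
      exact ContinuousAt.comp' (g := h) h1 Complex.continuous_ofReal.continuousAt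
    have hloc : IsLocallyConstant k := by
      rw [IsLocallyConstant.iff_eventually_eq]
      intro x
      filter_upwards [(hcont.continuousAt (x := x)).eventually (Metric.ball_mem_nhds _ one_pos)]
        with y hy
      rw [hk x, hk y, add_sub_cancel_left, add_sub_cancel_left,
        Complex.dist_eq] at hy
      have h2 : ‖((k y - k x : ℤ) : ℂ)‖ < 1 := by push_cast; exact hy
      rw [Complex.norm_intCast] at h2
      have h3 : |k y - k x| < 1 := by exact_mod_cast h2
      have h4 : k y - k x = 0 := Int.abs_lt_one_iff.mp h3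
      omega
    have hconst : ∀ x : ℝ, k x = k 0 := fun x => hloc.apply_eq_of_preconnectedSpace x 0
    refine ⟨fun s => h s / (2 * Real.pi * Complex.I) - k 0, ?_, ?_, ?_, ?_⟩
    · exact (hh1.div_const _).sub_const _
    · intro s hs
      obtain ⟨t, ht, hts⟩ := hO n s hs
      obtain ⟨j, hj⟩ := hφ s hs t ht hts
      simp only [hj]
      have : t + (j : ℂ) - (k 0 : ℂ) = t + ((j - k 0 : ℤ) : ℂ) := by push_cast; ring
      rw [this]
      exact add_int_mem_strip ht _
    · intro s hs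
      obtain ⟨t, ht, hts⟩ := hO n s hs
      obtain ⟨j, hj⟩ := hφ s hs t ht hts
      simp only [hj]
      have : t + (j : ℂ) - (k 0 : ℂ) = t + ((j - k 0 : ℤ) : ℂ) := by push_cast; ring
      rw [this, c.per_int]
      exact hts
    · intro x
      simp only
      rw [hk x, hconst x]
      ring
  choose Φ h1 h2 h3 h4 using key
  exact ⟨Φ, h1, h2, h3, h4⟩

/-! ### The translation number -/

/-- The lift as an element of Mathlib's monoid. -/
noncomputable def toLift {F : ℝ → ℝ} (hFm : StrictMono F) (hF1 : ∀ x, F (x + 1) = F x + 1) :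
    CircleDeg1Lift := ⟨⟨F, hFm.monotone⟩, hF1⟩

theorem abs_iterate_sub_le {F : ℝ → ℝ} (hFm : StrictMono F) (hF1 : ∀ x, F (x + 1) = F x + 1)
    (n : ℕ) (x : ℝ) :
    |F^[n] x - x - n * CircleDeg1Lift.translationNumber (toLift hFm hF1)| ≤ 2 := by
  set f := toLift hFm hF1 with hf
  have hfn : ∀ y, (f ^ n) y = F^[n] y := by
    intro y
    rw [CircleDeg1Lift.coe_pow]
    rfl
  have h1 := f.dist_pow_map_zero_mul_translationNumber_le n
  rw [Real.dist_eq, abs_le] at h1
  have h2 := (f ^ n).map_fract_sub_fract_eq x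
  rw [hfn x] at h2
  have h3 : (f ^ n) 0 ≤ (f ^ n) (Int.fract x) := (f ^ n).monotone (Int.fract_nonneg x)
  have h4 : (f ^ n) (Int.fract x) ≤ (f ^ n) 0 + 1 := by
    have h5 := (f ^ n).monotone (Int.fract_lt_one x).le
    have h6 := (f ^ n).map_add_one 0
    rw [zero_add] at h6
    rw [h6] at h5
    exact h5
  have h7 := Int.fract_nonneg x
  have h8 := Int.fract_lt_one x
  rw [abs_le]
  constructor <;> linarith [h1.1, h1.2]

theorem irrational_translationNumber {F : ℝ → ℝ} (hFc : Continuous F) (hFm : StrictMono F)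
    (hF1 : ∀ x, F (x + 1) = F x + 1)
    (hnp : ∀ n : ℕ, 1 ≤ n → ∀ x : ℝ, ∀ k : ℤ, F^[n] x ≠ x + k) :
    Irrational (CircleDeg1Lift.translationNumber (toLift hFm hF1)) := by
  rintro ⟨q, hq⟩
  have h1 := (CircleDeg1Lift.translationNumber_eq_rat_iff (toLift hFm hF1) hFc (m := q.num)
    (n := q.den) q.den_pos).mp (by
      rw [← hq]
      exact (Rat.cast_def q))
  obtain ⟨x, hx⟩ := h1
  rw [CircleDeg1Lift.coe_pow] at hx
  exact hnp q.den q.den_pos x q.num hx

/-! ### The semiconjugacy -/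

theorem exists_semiconj {F : ℝ → ℝ} (hFc : Continuous F) (hFm : StrictMono F)
    (hF1 : ∀ x, F (x + 1) = F x + 1)
    (hnp : ∀ n : ℕ, 1 ≤ n → ∀ x : ℝ, ∀ k : ℤ, F^[n] x ≠ x + k) {δ R : ℝ} (hδ : 0 < δ)
    {Φ : ℕ → ℂ → ℂ} (h1 : ∀ n, DifferentiableOn ℂ (Φ n) (strip δ))
    (h2 : ∀ n, ∀ s ∈ strip δ, Φ n s ∈ strip R)
    (h4 : ∀ n (x : ℝ), Φ n x = ((F^[n] x : ℝ) : ℂ)) :
    ∃ ρ : ℝ, Irrational ρ ∧ ∃ C : ℝ, 0 ≤ C ∧
      (∀ s ∈ strip (δ / 2), |(Φ 1 s).im| ≤ (1 + C) * |s.im|) ∧
      ∃ H : ℂ → ℂ, DifferentiableOn ℂ H (strip (δ / 2)) ∧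
        (∀ s ∈ strip (δ / 2), ‖H s - s‖ ≤ C) ∧
        (∀ s ∈ strip (δ / 2), H (s + 1) = H s + 1) ∧
        (∀ x : ℝ, (H x).im = 0) ∧
        (∀ x y : ℝ, x ≤ y → (H x).re ≤ (H y).re) ∧
        ∀ s ∈ strip (δ / 2), (1 + C) * |s.im| < δ / 2 → H (Φ 1 s) = H s + ρ := by
  set ρ : ℝ := CircleDeg1Lift.translationNumber (toLift hFm hF1) with hρ
  refine ⟨ρ, irrational_translationNumber hFc hFm hF1 hnp, ?_⟩
  have hδ2 : 0 < δ / 2 := by positivity
  have hsub : strip (δ / 2) ⊆ strip δ := strip_mono (by linarith)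
  set D : ℕ → ℂ → ℂ := fun n s => Φ n s - s - n * ρ with hD
  have hDd : ∀ n, DifferentiableOn ℂ (D n) (strip δ) := fun n =>
    ((h1 n).sub differentiableOn_id).sub_const _
  have hDreal : ∀ n (x : ℝ), D n x = ((F^[n] x - x - n * ρ : ℝ) : ℂ) := by
    intro n x
    simp only [hD, h4]
    push_cast
    ring
  have hDbr : ∀ n (x : ℝ), ‖D n x‖ ≤ 2 := by
    intro n x
    rw [hDreal, Complex.norm_real]
    exact abs_iterate_sub_le hFm hF1 n x
  set B : ℝ := R + δ with hB
  have hDim : ∀ n, ∀ s ∈ strip δ, |(D n s).im| ≤ B := by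
    intro n s hs
    have e1 : (D n s).im = (Φ n s).im - s.im := by simp [hD]
    rw [e1]
    have e2 : |(Φ n s).im| < R := h2 n s hs
    have e3 : |s.im| < δ := hs
    calc |(Φ n s).im - s.im| ≤ |(Φ n s).im| + |s.im| := abs_sub _ _
      _ ≤ R + δ := by linarith
  have hcb : ∀ s ∈ strip (δ / 2), Metric.closedBall s (δ / 4) ⊆ strip δ := by
    intro s hs t ht
    rw [Metric.mem_closedBall, dist_eq_norm] at ht
    have e1 : |(t - s).im| ≤ ‖t - s‖ := Complex.abs_im_le_norm _
    have e2 : |s.im| < δ / 2 := hs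
    have e3 : |t.im| ≤ |(t - s).im| + |s.im| := by
      have : t.im = (t - s).im + s.im := by simp
      calc |t.im| = |(t - s).im + s.im| := by rw [← this]
        _ ≤ _ := abs_add_le _ _
    change |t.im| < δ
    linarith
  set C₁ : ℝ := Real.exp B * Real.exp B / (δ / 4) with hC₁
  have hC₁0 : 0 ≤ C₁ := by positivity
  have hder : ∀ n, ∀ s ∈ strip (δ / 2), ‖deriv (D n) s‖ ≤ C₁ := by
    intro n s hs
    exact norm_deriv_le_of_im (by positivity) ((hDd n).mono (hcb s hs))
      (fun w hw => hDim n w (hcb s hs hw))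
  have hlip : ∀ n, ∀ s ∈ strip (δ / 2), ∀ t ∈ strip (δ / 2), ‖D n s - D n t‖ ≤ C₁ * ‖s - t‖ := by
    intro n s hs t ht
    refine Convex.norm_image_sub_le_of_norm_deriv_le ?_ (hder n) (convex_strip (δ / 2)) ht hs
    intro x hx
    exact (hDd n).differentiableAt ((isOpen_strip δ).mem_nhds (hsub hx))
  have hre : ∀ s : ℂ, ‖s - (s.re : ℂ)‖ = |s.im| := by
    intro s
    have : s - (s.re : ℂ) = (s.im : ℂ) * Complex.I := by
      apply Complex.ext <;> simp
    rw [this, norm_mul, Complex.norm_I, mul_one, Complex.norm_real, Real.norm_eq_abs]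
  have hlip' : ∀ n, ∀ s ∈ strip (δ / 2), ‖D n s - D n (s.re : ℂ)‖ ≤ C₁ * |s.im| := by
    intro n s hs
    rw [← hre s]
    exact hlip n s hs _ (real_mem_strip' hδ2 _)
  set C₂ : ℝ := C₁ * (δ / 2) + 2 with hC₂
  have hC₂0 : 0 ≤ C₂ := by positivity
  have hDb : ∀ n, ∀ s ∈ strip (δ / 2), ‖D n s‖ ≤ C₂ := by
    intro n s hs
    have e1 := hlip' n s hs
    have e2 := hDbr n s.re
    have e3 : |s.im| < δ / 2 := hs
    calc ‖D n s‖ = ‖(D n s - D n (s.re : ℂ)) + D n (s.re : ℂ)‖ := by ring_nf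
      _ ≤ ‖D n s - D n (s.re : ℂ)‖ + ‖D n (s.re : ℂ)‖ := norm_add_le _ _
      _ ≤ C₁ * |s.im| + 2 := add_le_add e1 e2
      _ ≤ C₁ * (δ / 2) + 2 := by gcongr
  have hΦ1 : ∀ s ∈ strip (δ / 2), |(Φ 1 s).im| ≤ (1 + (C₁ + C₂)) * |s.im| := by
    intro s hs
    have e1 := hlip' 1 s hs
    have e2 : (Φ 1 s).im = s.im + (D 1 s - D 1 (s.re : ℂ)).im := by
      rw [Complex.sub_im, hDreal, Complex.ofReal_im]
      simp [hD]
    rw [e2]
    calc |s.im + (D 1 s - D 1 (s.re : ℂ)).im| ≤ |s.im| + |(D 1 s - D 1 (s.re : ℂ)).im| :=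
          abs_add_le _ _
      _ ≤ |s.im| + ‖D 1 s - D 1 (s.re : ℂ)‖ := by gcongr; exact Complex.abs_im_le_norm _
      _ ≤ |s.im| + C₁ * |s.im| := by gcongr
      _ ≤ (1 + (C₁ + C₂)) * |s.im| := by nlinarith [abs_nonneg s.im]
  refine ⟨C₁ + C₂, by positivity, hΦ1, ?_⟩
  -- the averages
  set K : ℕ → ℂ → ℂ := fun N s => (N : ℂ)⁻¹ * ∑ n ∈ Finset.range N, D n s with hK
  have hKb : ∀ N, ∀ s ∈ strip (δ / 2), ‖K N s‖ ≤ C₂ := by
    intro N s hs
    rcases Nat.eq_zero_or_pos N with rfl | hN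
    · simpa [hK] using hC₂0
    have hN' : (0 : ℝ) < N := by exact_mod_cast hN
    have e1 : ‖∑ n ∈ Finset.range N, D n s‖ ≤ N * C₂ := by
      calc ‖∑ n ∈ Finset.range N, D n s‖ ≤ ∑ n ∈ Finset.range N, ‖D n s‖ := norm_sum_le _ _
        _ ≤ ∑ n ∈ Finset.range N, C₂ := Finset.sum_le_sum fun n _ => hDb n s hs
        _ = N * C₂ := by simp
    simp only [hK]
    rw [norm_mul, norm_inv, Complex.norm_natCast]
    calc (N : ℝ)⁻¹ * ‖∑ n ∈ Finset.range N, D n s‖ ≤ (N : ℝ)⁻¹ * (N * C₂) := by gcongr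
      _ = C₂ := by field_simp
  have hKd : ∀ N, DifferentiableOn ℂ (K N) (strip (δ / 2)) := by
    intro N
    apply DifferentiableOn.const_mul
    apply DifferentiableOn.fun_sum
    intro n _
    exact (hDd n).mono hsub
  set W : Ultrafilter ℕ := hyperfilter ℕ with hW
  have hWtop : (W : Filter ℕ) ≤ atTop := Nat.hyperfilter_le_atTop
  have hlim : ∀ s : ℂ, ∃ k : ℂ, s ∈ strip (δ / 2) → Tendsto (fun N => K N s) W (𝓝 k) := by
    intro s
    by_cases hs : s ∈ strip (δ / 2)
    · obtain ⟨k, -, hk⟩ := (isCompact_closedBall (0 : ℂ) C₂).ultrafilter_le_nhds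
        (W.map (fun N => K N s)) (by
          rw [Filter.le_principal_iff, Ultrafilter.mem_coe, Ultrafilter.mem_map]
          refine Filter.mem_of_superset Filter.univ_mem ?_
          intro N _
          simpa using hKb N s hs)
      exact ⟨k, fun _ => hk⟩
    · exact ⟨0, fun h => absurd h hs⟩
  choose k hk using hlim
  have hkd : DifferentiableOn ℂ k (strip (δ / 2)) :=
    (tendstoLocallyUniformlyOn_of_bounded (l := (W : Filter ℕ)) (isOpen_strip (δ / 2))
      (Eventually.of_forall hKd) (Eventually.of_forall hKb) (fun s hs => hk s hs)).2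
  have hkb : ∀ s ∈ strip (δ / 2), ‖k s‖ ≤ C₂ := by
    intro s hs
    exact le_of_tendsto (hk s hs).norm (Eventually.of_forall fun N => hKb N s hs)
  refine ⟨fun s => s + k s, differentiableOn_id.add hkd, ?_, ?_, ?_, ?_, ?_⟩
  · intro s hs
    simp only [add_sub_cancel_left]
    exact (hkb s hs).trans (by linarith)
  · intro s hs
    have e1 : ∀ n, D n (s + 1) = D n s := by
      intro n
      have hu : DifferentiableOn ℂ (fun s => D n (s + 1)) (strip δ) := by
        refine (hDd n).comp (differentiableOn_id.add_const _) ?_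
        intro t ht
        exact add_one_mem_strip ht
      refine eqOn_strip_of_real hδ hu (hDd n) ?_ (hsub hs)
      intro x
      have e2 : (x : ℂ) + 1 = ((x + 1 : ℝ) : ℂ) := by push_cast; ring
      have e3 : F^[n] (x + 1) = F^[n] x + 1 := by
        have := (toLift hFm hF1 ^ n).map_add_one x
        rw [CircleDeg1Lift.coe_pow] at this
        exact this
      rw [e2, hDreal, hDreal, e3]
      push_cast
      ring
    have e2 : ∀ N, K N (s + 1) = K N s := by
      intro N
      simp only [hK, e1]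
    have e3 : k (s + 1) = k s := by
      refine tendsto_nhds_unique (hk (s + 1) (add_one_mem_strip hs)) ?_
      simpa only [e2] using hk s hs
    simp only [e3]
    ring
  · intro x
    have e1 : ∀ N, (K N (x : ℂ)).im = 0 := by
      intro N
      simp only [hK, hDreal]
      have : (N : ℂ)⁻¹ * ∑ n ∈ Finset.range N, ((F^[n] x - x - n * ρ : ℝ) : ℂ) =
        (((N : ℝ)⁻¹ * ∑ n ∈ Finset.range N, (F^[n] x - x - n * ρ) : ℝ) : ℂ) := by
        push_cast; ring
      rw [this, Complex.ofReal_im]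
    have e2 : Tendsto (fun N => (K N (x : ℂ)).im) W (𝓝 (k x).im) :=
      (Complex.continuous_im.tendsto _).comp (hk x (real_mem_strip' hδ2 x))
    simp only [e1] at e2
    have e3 := tendsto_nhds_unique e2 tendsto_const_nhds
    simp [e3]
  · intro x y hxy
    have e2 : ∀ z : ℝ, Tendsto (fun N => (K N (z : ℂ)).re) W (𝓝 (k z).re) := fun z =>
      (Complex.continuous_re.tendsto _).comp (hk z (real_mem_strip' hδ2 z))
    have e1 : ∀ᶠ N : ℕ in (W : Filter ℕ), x + (K N (x : ℂ)).re ≤ y + (K N (y : ℂ)).re := by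
      have : ∀ᶠ N : ℕ in (W : Filter ℕ), 1 ≤ N := hWtop (eventually_ge_atTop 1)
      filter_upwards [this] with N hN
      have hN' : (0 : ℝ) < N := by exact_mod_cast hN
      have e4 : ∀ z : ℝ, (K N (z : ℂ)).re =
          (N : ℝ)⁻¹ * ∑ n ∈ Finset.range N, (F^[n] z - z - n * ρ) := by
        intro z
        simp only [hK, hDreal]
        have : (N : ℂ)⁻¹ * ∑ n ∈ Finset.range N, ((F^[n] z - z - n * ρ : ℝ) : ℂ) =
          (((N : ℝ)⁻¹ * ∑ n ∈ Finset.range N, (F^[n] z - z - n * ρ) : ℝ) : ℂ) := by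
          push_cast; ring
        rw [this, Complex.ofReal_re]
      have e5 : ∀ z : ℝ, z + (K N (z : ℂ)).re =
          (N : ℝ)⁻¹ * ∑ n ∈ Finset.range N, (F^[n] z - n * ρ) := by
        intro z
        rw [e4]
        have : ∑ n ∈ Finset.range N, (F^[n] z - z - n * ρ) =
            ∑ n ∈ Finset.range N, (F^[n] z - n * ρ) - N * z := by
          rw [eq_sub_iff_add_eq]
          have e6 : (N : ℝ) * z = ∑ n ∈ Finset.range N, z := by simp
          rw [e6, ← Finset.sum_add_distrib]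
          refine Finset.sum_congr rfl fun n _ => by ring
        rw [this]
        generalize ∑ n ∈ Finset.range N, (F^[n] z - n * ρ) = S
        field_simp
        ring
      rw [e5, e5]
      refine mul_le_mul_of_nonneg_left ?_ (by positivity)
      refine Finset.sum_le_sum fun n _ => ?_
      have := (hFm.monotone.iterate n) hxy
      linarith
    have e3 := le_of_tendsto_of_tendsto ((e2 x).const_add x) ((e2 y).const_add y) e1
    simpa using e3
  · intro s hs hsm
    have hC0 : 0 < 1 + (C₁ + C₂) := by positivity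
    set δ₂ : ℝ := min (δ / 2) (δ / 2 / (1 + (C₁ + C₂))) with hδ₂
    have hδ₂0 : 0 < δ₂ := lt_min hδ2 (by positivity)
    have hs2 : s ∈ strip δ₂ := by
      change |s.im| < δ₂
      refine lt_min (show |s.im| < δ / 2 from hs) ?_
      rw [lt_div_iff₀ hC0]
      linarith
    have hmaps : ∀ t ∈ strip δ₂, Φ 1 t ∈ strip (δ / 2) := by
      intro t ht
      have e1 : |t.im| < δ / 2 := lt_of_lt_of_le ht (min_le_left _ _)
      have e2 : |t.im| < δ / 2 / (1 + (C₁ + C₂)) := lt_of_lt_of_le ht (min_le_right _ _)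
      rw [lt_div_iff₀ hC0] at e2
      have e3 := hΦ1 t e1
      change |(Φ 1 t).im| < δ / 2
      linarith
    have hsub2 : strip δ₂ ⊆ strip δ := (strip_mono (min_le_left _ _)).trans hsub
    have hcomp : ∀ n, Φ (n + 1) s = Φ n (Φ 1 s) := by
      intro n
      refine eqOn_strip_of_real hδ₂0 ((h1 (n + 1)).mono hsub2)
        (v := fun t => Φ n (Φ 1 t)) ?_ ?_ hs2
      · exact (h1 n).comp ((h1 1).mono hsub2) fun t ht => hsub (hmaps t ht)
      · intro x
        simp only [h4]
        rw [Function.iterate_one, Function.iterate_succ_apply]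
    have hDs : ∀ n : ℕ, D n (Φ 1 s) = D (n + 1) s - D 1 s := by
      intro n
      simp only [hD]
      rw [hcomp n]
      push_cast
      ring
    have hKs : ∀ N : ℕ, 1 ≤ N → K N (Φ 1 s) = K N s - D 1 s + (N : ℂ)⁻¹ * (D N s - D 0 s) := by
      intro N hN
      have hN' : (N : ℂ) ≠ 0 := by
        have : N ≠ 0 := by omega
        exact_mod_cast this
      simp only [hK, hDs]
      rw [Finset.sum_sub_distrib]
      have e1 : ∑ n ∈ Finset.range N, D (n + 1) s =
          ∑ n ∈ Finset.range N, D n s + D N s - D 0 s := by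
        rw [← Finset.sum_range_succ, Finset.sum_range_succ' (fun n => D n s) N]
        ring
      rw [e1]
      simp only [Finset.sum_const, Finset.card_range, nsmul_eq_mul]
      field_simp
      ring
    have hsmall : Tendsto (fun N : ℕ => (N : ℂ)⁻¹ * (D N s - D 0 s)) W (𝓝 0) := by
      have e1 : Tendsto (fun N : ℕ => (N : ℝ)⁻¹ * (2 * C₂)) W (𝓝 (0 * (2 * C₂))) :=
        ((tendsto_inv_atTop_nhds_zero_nat (𝕜 := ℝ)).mono_left hWtop).mul_const _
      rw [zero_mul] at e1
      refine squeeze_zero_norm (fun N => ?_) e1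
      rw [norm_mul, norm_inv, Complex.norm_natCast]
      refine mul_le_mul_of_nonneg_left ?_ (by positivity)
      calc ‖D N s - D 0 s‖ ≤ ‖D N s‖ + ‖D 0 s‖ := norm_sub_le _ _
        _ ≤ C₂ + C₂ := add_le_add (hDb N s hs) (hDb 0 s hs)
        _ = 2 * C₂ := by ring
    have hk1 : Tendsto (fun N => K N (Φ 1 s)) W (𝓝 (k s - D 1 s + 0)) := by
      refine Tendsto.congr' ?_ (((hk s hs).sub_const (D 1 s)).add hsmall)
      have : ∀ᶠ N : ℕ in (W : Filter ℕ), 1 ≤ N := hWtop (eventually_ge_atTop 1)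
      filter_upwards [this] with N hN
      exact (hKs N hN).symm
    have hk2 := tendsto_nhds_unique (hk (Φ 1 s) (hmaps s hs2)) hk1
    simp only
    rw [hk2]
    simp only [hD]
    push_cast
    ring

/-! ### Inverting the semiconjugacy -/

section Inverse

variable {H φ : ℂ → ℂ} {F : ℝ → ℝ} {a C ρ : ℝ}

theorem H_add_int (h3 : ∀ s ∈ strip a, H (s + 1) = H s + 1) (k : ℤ) :
    ∀ s ∈ strip a, H (s + k) = H s + k := by
  induction k using Int.induction_on with
  | zero => intro s _; simp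
  | succ i ih =>
    intro s hs
    have e1 : s + (((i : ℤ) + 1 : ℤ) : ℂ) = (s + ((i : ℤ) : ℂ)) + 1 := by push_cast; ring
    rw [e1, h3 _ (add_int_mem_strip hs i), ih s hs]
    push_cast; ring
  | pred i ih =>
    intro s hs
    have e1 : s + ((-(i : ℤ) : ℤ) : ℂ) = (s + ((-(i : ℤ) - 1 : ℤ) : ℂ)) + 1 := by push_cast; ring
    have e2 := ih s hs
    rw [e1, h3 _ (add_int_mem_strip hs _)] at e2
    have e3 : H (s + ((-(i : ℤ) - 1 : ℤ) : ℂ)) = H s + ((-(i : ℤ) : ℤ) : ℂ) - 1 := by
      rw [← e2]; ring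
    rw [e3]; push_cast; ring

/-- `H` is not constant near any point of the strip. -/
theorem H_not_const (ha : 0 < a) (h1 : DifferentiableOn ℂ H (strip a))
    (h3 : ∀ s ∈ strip a, H (s + 1) = H s + 1) {z : ℂ} (hz : z ∈ strip a) {c : ℂ}
    (h : ∃ᶠ w in 𝓝[≠] z, H w = c) : False := by
  have e1 : EqOn H (fun _ => c) (strip a) :=
    (h1.analyticOnNhd (isOpen_strip a)).eqOn_of_preconnected_of_frequently_eq
      ((differentiableOn_const c).analyticOnNhd (isOpen_strip a)) (isPreconnected_strip a) hz h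
  have h0 : (0 : ℂ) ∈ strip a := by simpa [strip] using ha
  have e2 := h3 0 h0
  rw [e1 h0, e1 (add_one_mem_strip h0)] at e2
  simp at e2

theorem H_strictMono (ha : 0 < a) (h1 : DifferentiableOn ℂ H (strip a))
    (h3 : ∀ s ∈ strip a, H (s + 1) = H s + 1) (h5 : ∀ x : ℝ, (H x).im = 0)
    (h6 : ∀ x y : ℝ, x ≤ y → (H x).re ≤ (H y).re) : StrictMono fun x : ℝ => (H x).re := by
  intro x y hxy
  refine lt_of_le_of_ne (h6 x y hxy.le) ?_
  intro heq
  have heq' : (H x).re = (H y).re := heq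
  refine H_not_const ha h1 h3 (real_mem_strip' ha x) (c := H x) ?_
  have ht : Tendsto (fun t : ℝ => (t : ℂ)) (𝓝[>] x) (𝓝[≠] (x : ℂ)) := by
    refine tendsto_nhdsWithin_iff.mpr ⟨?_, ?_⟩
    · exact (Complex.continuous_ofReal.tendsto x).mono_left nhdsWithin_le_nhds
    · filter_upwards [self_mem_nhdsWithin] with t ht
      have : t ≠ x := ne_of_gt ht
      simpa using this
  refine ht.frequently (Eventually.frequently ?_)
  filter_upwards [Ioo_mem_nhdsGT hxy] with t ht
  apply Complex.ext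
  · have e1 := h6 x t ht.1.le
    have e2 := h6 t y ht.2.le
    linarith
  · rw [h5, h5]

theorem H_deriv_ne (ha : 0 < a) (h1 : DifferentiableOn ℂ H (strip a))
    (h3 : ∀ s ∈ strip a, H (s + 1) = H s + 1)
    (hFs : Function.Surjective F)
    (hnp : ∀ n : ℕ, 1 ≤ n → ∀ x : ℝ, ∀ k : ℤ, F^[n] x ≠ x + k)
    (hφ : ∀ x : ℝ, φ x = F x) (hφd : ∀ x : ℝ, DifferentiableAt ℂ φ x)
    (hsemi : ∀ x : ℝ, ∀ᶠ s in 𝓝 (x : ℂ), H (φ s) = H s + ρ) (x : ℝ) : deriv H x ≠ 0 := by
  intro hx
  have hHd : ∀ y : ℝ, DifferentiableAt ℂ H y := fun y =>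
    h1.differentiableAt ((isOpen_strip a).mem_nhds (real_mem_strip' ha y))
  choose G hG using hFs
  set X : ℕ → ℝ := fun j => G^[j] x with hX
  have hXs : ∀ j, F (X (j + 1)) = X j := by
    intro j
    simp only [hX, Function.iterate_succ_apply', hG]
  have hXd : ∀ j, deriv H (X j) = 0 := by
    intro j
    induction j with
    | zero => exact hx
    | succ j ih =>
      have e1 : HasDerivAt (fun s => H (φ s)) (deriv H (φ (X (j + 1))) * deriv φ (X (j + 1)))
          ((X (j + 1) : ℝ) : ℂ) := by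
        have e3 : HasDerivAt H (deriv H (φ (X (j + 1)))) (φ (X (j + 1))) := by
          rw [hφ]; exact (hHd _).hasDerivAt
        exact HasDerivAt.comp _ e3 (hφd _).hasDerivAt
      have e2 : HasDerivAt (fun s => H s + ρ) (deriv H (X (j + 1))) ((X (j + 1) : ℝ) : ℂ) :=
        (hHd _).hasDerivAt.add_const _
      have e3 : HasDerivAt (fun s => H (φ s)) (deriv H (X (j + 1))) ((X (j + 1) : ℝ) : ℂ) :=
        e2.congr_of_eventuallyEq (hsemi _)
      have e4 := e1.unique e3
      rw [← e4, hφ, hXs, ih, zero_mul]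
  have hper : ∀ (k : ℤ) (y : ℝ), deriv H ((y + k : ℝ) : ℂ) = deriv H y := by
    intro k y
    have e1 : (fun s => H (s + k)) =ᶠ[𝓝 (y : ℂ)] fun s => H s + k := by
      filter_upwards [(isOpen_strip a).mem_nhds (real_mem_strip' ha y)] with s hs
      exact H_add_int h3 k s hs
    have e2 : HasDerivAt (fun s => H (s + k)) (deriv H y) (y : ℂ) :=
      ((hHd y).hasDerivAt.add_const _).congr_of_eventuallyEq e1
    have e3 : HasDerivAt (fun s => H (s + k)) (deriv H ((y : ℂ) + k)) (y : ℂ) := by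
      have e4 : HasDerivAt H (deriv H ((y : ℂ) + k)) ((y : ℂ) + k) := by
        have := (hHd (y + k)).hasDerivAt
        push_cast at this
        exact this
      exact e4.comp_add_const _ _
    have e5 := e3.unique e2
    push_cast
    exact e5
  have hFX : ∀ i n, F^[n] (X (i + n)) = X i := by
    intro i n
    induction n with
    | zero => rfl
    | succ n ih =>
      rw [Function.iterate_succ_apply, ← add_assoc, hXs, ih]
  have hinj : Function.Injective fun j => ((Int.fract (X j) : ℝ) : ℂ) := by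
    have key : ∀ i n, 1 ≤ n → Int.fract (X i) ≠ Int.fract (X (i + n)) := by
      intro i n hn h
      rw [Int.fract_eq_fract] at h
      obtain ⟨z, hz⟩ := h
      refine hnp n hn (X (i + n)) z ?_
      rw [hFX i n]
      linarith
    intro i j hij
    have hij' : Int.fract (X i) = Int.fract (X j) := Complex.ofReal_injective hij
    rcases lt_trichotomy i j with h | h | h
    · exfalso
      refine key i (j - i) (by omega) ?_
      rw [show i + (j - i) = j by omega]
      exact hij'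
    · exact h
    · exfalso
      refine key j (i - j) (by omega) ?_
      rw [show j + (i - j) = i by omega]
      exact hij'.symm
  have hinf : (range fun j => ((Int.fract (X j) : ℝ) : ℂ)).Infinite :=
    infinite_range_of_injective hinj
  have hcpt : IsCompact ((fun t : ℝ => (t : ℂ)) '' Icc (0 : ℝ) 1) :=
    isCompact_Icc.image Complex.continuous_ofReal
  obtain ⟨z, hz, hacc⟩ := hinf.exists_accPt_of_subset_isCompact hcpt (by
    rintro _ ⟨j, rfl⟩
    exact ⟨_, ⟨Int.fract_nonneg _, (Int.fract_lt_one _).le⟩, rfl⟩)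
  obtain ⟨t, -, rfl⟩ := hz
  rw [accPt_iff_frequently_nhdsNE] at hacc
  have hdz : ∃ᶠ w in 𝓝[≠] ((t : ℝ) : ℂ), deriv H w = 0 := by
    refine hacc.mono ?_
    rintro _ ⟨j, rfl⟩
    have := hper (-⌊X j⌋) (X j)
    rw [hXd] at this
    rw [← this]
    congr 1
    change ((Int.fract (X j) : ℝ) : ℂ) = _
    rw [← Int.self_sub_floor]
    push_cast
    ring
  have hd1 : DifferentiableOn ℂ (deriv H) (strip a) := h1.deriv (isOpen_strip a)
  have e1 : EqOn (deriv H) (fun _ => (0 : ℂ)) (strip a) :=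
    (hd1.analyticOnNhd (isOpen_strip a)).eqOn_of_preconnected_of_frequently_eq
      ((differentiableOn_const 0).analyticOnNhd (isOpen_strip a)) (isPreconnected_strip a)
      (real_mem_strip' ha t) hdz
  have h0 : (0 : ℂ) ∈ strip a := by simpa [strip] using ha
  have e2 : H (0 + 1) = H 0 := (isOpen_strip a).is_const_of_deriv_eq_zero
    (isPreconnected_strip a) h1 e1 (add_one_mem_strip h0) h0
  rw [h3 0 h0] at e2
  simp at e2

theorem norm_sub_re (s : ℂ) : ‖s - (s.re : ℂ)‖ = |s.im| := by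
  have : s - (s.re : ℂ) = (s.im : ℂ) * Complex.I := by
    apply Complex.ext <;> simp
  rw [this, norm_mul, Complex.norm_I, mul_one, Complex.norm_real, Real.norm_eq_abs]

/-- `H` is injective on a thin strip. -/
theorem H_injOn_strip (ha : 0 < a) (h1 : DifferentiableOn ℂ H (strip a))
    (h2 : ∀ s ∈ strip a, ‖H s - s‖ ≤ C)
    (h3 : ∀ s ∈ strip a, H (s + 1) = H s + 1)
    (hmono : StrictMono fun x : ℝ => (H x).re) (hder : ∀ x : ℝ, deriv H x ≠ 0) :
    ∃ δ > 0, δ ≤ a ∧ InjOn H (strip δ) := by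
  have hC : 0 ≤ C := (norm_nonneg _).trans (h2 0 (by simpa [strip] using ha))
  set R : ℝ := 2 * C + 2 with hR
  have hcpt : IsCompact ((fun t : ℝ => (t : ℂ)) '' Icc (-R) R) :=
    isCompact_Icc.image Complex.continuous_ofReal
  have han : ∀ x : ℝ, AnalyticAt ℂ H x := fun x =>
    h1.analyticAt ((isOpen_strip a).mem_nhds (real_mem_strip' ha x))
  obtain ⟨U, hUo, hKU, hUi⟩ := Set.InjOn.exists_isOpen_superset (f := H)
    (s := (fun t : ℝ => (t : ℂ)) '' Icc (-R) R) (by
      rintro _ ⟨x, -, rfl⟩ _ ⟨y, -, rfl⟩ h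
      have : (H x).re = (H y).re := congrArg Complex.re h
      have := hmono.injective this
      rw [this]) hcpt (by
      rintro _ ⟨x, -, rfl⟩
      exact (han x).continuousAt) (by
      rintro _ ⟨x, -, rfl⟩
      have h4 := ((han x).hasStrictDerivAt).hasStrictFDerivAt_equiv (hder x)
      refine ⟨(h4.toOpenPartialHomeomorph H).source, ?_, ?_⟩
      · exact (h4.toOpenPartialHomeomorph H).open_source.mem_nhds
          h4.mem_toOpenPartialHomeomorph_source
      · have := (h4.toOpenPartialHomeomorph H).injOn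
        simpa using this)
  obtain ⟨δ, hδ, hth⟩ := hcpt.exists_thickening_subset_open hUo hKU
  refine ⟨min δ a, lt_min hδ ha, min_le_right _ _, ?_⟩
  intro s hs s' hs' hss
  have hsa : s ∈ strip a := strip_mono (min_le_right _ _) hs
  have hsa' : s' ∈ strip a := strip_mono (min_le_right _ _) hs'
  have hdist : ‖s - s'‖ ≤ 2 * C := by
    have e1 : s - s' = (H s' - s') - (H s - s) := by rw [hss]; ring
    rw [e1]
    calc ‖(H s' - s') - (H s - s)‖ ≤ ‖H s' - s'‖ + ‖H s - s‖ := norm_sub_le _ _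
      _ ≤ C + C := add_le_add (h2 s' hsa') (h2 s hsa)
      _ = 2 * C := by ring
  have hmem : ∀ t : ℂ, t ∈ strip (min δ a) → -R ≤ t.re → t.re ≤ R → t ∈ U := by
    intro t ht hl hu
    apply hth
    rw [Metric.mem_thickening_iff]
    refine ⟨(t.re : ℂ), ⟨t.re, ⟨hl, hu⟩, rfl⟩, ?_⟩
    rw [dist_eq_norm, norm_sub_re]
    exact lt_of_lt_of_le ht (min_le_left _ _)
  set k : ℤ := ⌊s.re⌋ with hk
  have hre : |s.re - s'.re| ≤ 2 * C := by
    have : s.re - s'.re = (s - s').re := by simp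
    rw [this]
    exact (Complex.abs_re_le_norm _).trans hdist
  rw [abs_le] at hre
  have hf1 := Int.floor_le s.re
  have hf2 := Int.lt_floor_add_one s.re
  have m1 : s + ((-k : ℤ) : ℂ) ∈ U := by
    refine hmem _ (add_int_mem_strip hs _) ?_ ?_
    · have : (s + ((-k : ℤ) : ℂ)).re = s.re - k := by simp [sub_eq_add_neg]
      rw [this]; linarith
    · have : (s + ((-k : ℤ) : ℂ)).re = s.re - k := by simp [sub_eq_add_neg]
      rw [this]; linarith
  have m2 : s' + ((-k : ℤ) : ℂ) ∈ U := by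
    refine hmem _ (add_int_mem_strip hs' _) ?_ ?_
    · have : (s' + ((-k : ℤ) : ℂ)).re = s'.re - k := by simp [sub_eq_add_neg]
      rw [this]; linarith
    · have : (s' + ((-k : ℤ) : ℂ)).re = s'.re - k := by simp [sub_eq_add_neg]
      rw [this]; linarith
  have h5 := hUi m1 m2 (by rw [H_add_int h3 _ s hsa, H_add_int h3 _ s' hsa', hss])
  exact add_right_cancel h5

/-- The real line is contained in the image of the real line. -/
theorem H_surj (ha : 0 < a) (h1 : DifferentiableOn ℂ H (strip a))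
    (h2 : ∀ s ∈ strip a, ‖H s - s‖ ≤ C)
    (h5 : ∀ x : ℝ, (H x).im = 0) (y : ℝ) : ∃ x : ℝ, H x = y := by
  have hcont : Continuous fun x : ℝ => (H x).re := by
    rw [continuous_iff_continuousAt]
    intro x
    have e1 : ContinuousAt H (x : ℂ) :=
      (h1.differentiableAt ((isOpen_strip a).mem_nhds (real_mem_strip' ha x))).continuousAt
    exact Complex.continuous_re.continuousAt.comp'
      (ContinuousAt.comp' (g := H) e1 Complex.continuous_ofReal.continuousAt)
  have hb : ∀ x : ℝ, |(H x).re - x| ≤ C := by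
    intro x
    have e1 : (H x).re - x = (H x - x).re := by simp
    rw [e1]
    exact (Complex.abs_re_le_norm _).trans (h2 _ (real_mem_strip' ha x))
  have hC : 0 ≤ C := (abs_nonneg _).trans (hb 0)
  have hle : y - C ≤ y + C := by linarith
  have hl := abs_le.mp (hb (y - C))
  have hu := abs_le.mp (hb (y + C))
  obtain ⟨x, -, hx⟩ := intermediate_value_Icc hle hcont.continuousOn
    (show y ∈ Icc ((H ((y - C : ℝ) : ℂ)).re) ((H ((y + C : ℝ) : ℂ)).re) from
      ⟨by linarith [hl.2], by linarith [hu.1]⟩)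
  refine ⟨x, Complex.ext ?_ ?_⟩
  · simpa using hx
  · rw [h5, Complex.ofReal_im]

/-- The inverse of `H`. -/
theorem exists_H_inverse (ha : 0 < a) (h1 : DifferentiableOn ℂ H (strip a))
    (h2 : ∀ s ∈ strip a, ‖H s - s‖ ≤ C)
    (h3 : ∀ s ∈ strip a, H (s + 1) = H s + 1) (h5 : ∀ x : ℝ, (H x).im = 0)
    {δ : ℝ} (hδ : 0 < δ) (hδa : δ ≤ a) (hinj : InjOn H (strip δ)) :
    ∃ ε > 0, ∃ K : ℂ → ℂ, (∀ s ∈ strip ε, K s ∈ strip δ) ∧ (∀ s ∈ strip ε, H (K s) = s) ∧
      (∀ t ∈ strip δ, K (H t) = t) ∧ (∀ s ∈ strip ε, HolAt K s) := by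
  classical
  have hhol : ∀ s ∈ strip a, HolAt H s := fun s hs =>
    holAt_iff_analyticAt.mpr (h1.analyticAt ((isOpen_strip a).mem_nhds hs))
  have hsub : strip δ ⊆ strip a := strip_mono hδa
  have hopen : IsOpen (H '' strip δ) :=
    isOpen_image_of_injOn (isOpen_strip δ) (fun s hs => hhol s (hsub hs)) hinj (isOpen_strip δ)
      subset_rfl
  have hcpt : IsCompact ((fun t : ℝ => (t : ℂ)) '' Icc 0 1) :=
    isCompact_Icc.image Complex.continuous_ofReal
  have hKU : (fun t : ℝ => (t : ℂ)) '' Icc 0 1 ⊆ H '' strip δ := by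
    rintro _ ⟨y, -, rfl⟩
    obtain ⟨x, hx⟩ := H_surj ha h1 h2 h5 y
    exact ⟨x, real_mem_strip' hδ x, hx⟩
  obtain ⟨ε, hε, hth⟩ := hcpt.exists_thickening_subset_open hopen hKU
  have himg : ∀ s ∈ strip ε, ∃ t ∈ strip δ, H t = s := by
    intro s hs
    set k : ℤ := ⌊s.re⌋ with hk
    have hf1 := Int.floor_le s.re
    have hf2 := Int.lt_floor_add_one s.re
    have hre : (s + ((-k : ℤ) : ℂ)).re = s.re - k := by simp [sub_eq_add_neg]
    have hm : s + ((-k : ℤ) : ℂ) ∈ H '' strip δ := by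
      apply hth
      rw [Metric.mem_thickening_iff]
      refine ⟨((s + ((-k : ℤ) : ℂ)).re : ℂ), ⟨(s + ((-k : ℤ) : ℂ)).re, ⟨?_, ?_⟩, rfl⟩, ?_⟩
      · rw [hre]; linarith
      · rw [hre]; linarith
      · rw [dist_eq_norm, norm_sub_re]
        exact add_int_mem_strip hs _
    obtain ⟨t, ht, hts⟩ := hm
    refine ⟨t + k, add_int_mem_strip ht k, ?_⟩
    rw [H_add_int h3 k t (hsub ht), hts]
    push_cast
    ring
  set K : ℂ → ℂ := Function.invFunOn H (strip δ) with hK
  have hKH : ∀ t ∈ strip δ, K (H t) = t := fun t ht => hinj.leftInvOn_invFunOn ht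
  refine ⟨ε, hε, K, ?_, ?_, hKH, ?_⟩
  · intro s hs
    obtain ⟨t, ht, rfl⟩ := himg s hs
    rw [hKH t ht]; exact ht
  · intro s hs
    obtain ⟨t, ht, rfl⟩ := himg s hs
    rw [hKH t ht]
  · intro s hs
    obtain ⟨t, ht, rfl⟩ := himg s hs
    exact holAt_leftInverse (isOpen_strip δ) (fun s hs => hhol s (hsub hs)) hKH ht

end Inverse

theorem exists_linearization {f : P → P} (hf : ∀ p, HolAt f p) (c : InvCurve f) (hst : c.Stable) :
    ∃ L : LinCurve f, (range fun x : ℝ => L.G x) = range fun x : ℝ => c.γ x := by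
  classical
  obtain ⟨δ, hδ, hδr, Φ, hΦ1, hΦ2, hΦ3, hΦ4⟩ := c.exists_lift hf hst
  obtain ⟨ρ, hρ, C, hC, hlip, H, hH1, hH2, hH3, hH5, hH6, hH7⟩ :=
    exists_semiconj c.F_cont c.F_mono c.F_per c.noper hδ hΦ1 hΦ2 hΦ4
  set a : ℝ := δ / 2 with ha'
  have ha : 0 < a := by positivity
  have haδ : a ≤ δ := by linarith
  have hC1 : 0 < 1 + C := by linarith
  have hFs : Function.Surjective c.F := by
    have := (CircleDeg1Lift.continuous_iff_surjective (toLift c.F_mono c.F_per)).mp c.F_cont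
    exact this
  have hmono := H_strictMono ha hH1 hH3 hH5 hH6
  have hder := H_deriv_ne (φ := Φ 1) (ρ := ρ) ha hH1 hH3 hFs c.noper
    (fun x => by rw [hΦ4, Function.iterate_one])
    (fun x => (hΦ1 1).differentiableAt ((isOpen_strip δ).mem_nhds (real_mem_strip' hδ x)))
    (fun x => by
      have e1 : ∀ᶠ s : ℂ in 𝓝 (x : ℂ), s ∈ strip (a / (1 + C)) :=
        (isOpen_strip _).mem_nhds (real_mem_strip' (by positivity) x)
      have e2 : ∀ᶠ s : ℂ in 𝓝 (x : ℂ), s ∈ strip a :=
        (isOpen_strip _).mem_nhds (real_mem_strip' ha x)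
      filter_upwards [e1, e2] with s hs1 hs2
      refine hH7 s hs2 ?_
      have hs1' : |s.im| < a / (1 + C) := hs1
      rw [lt_div_iff₀ hC1] at hs1'
      linarith)
  obtain ⟨δ₃, hδ₃, hδ₃a, hinj₃⟩ := H_injOn_strip ha hH1 hH2 hH3 hmono hder
  set δ₄ : ℝ := min δ₃ (δ₃ / (1 + C)) with hδ₄
  have hδ₄0 : 0 < δ₄ := lt_min hδ₃ (by positivity)
  have hδ₄3 : δ₄ ≤ δ₃ := min_le_left _ _
  have hδ₄a : δ₄ ≤ a := hδ₄3.trans hδ₃a
  obtain ⟨ε, hε, K, hK1, hK2, hK3, hK4⟩ := exists_H_inverse ha hH1 hH2 hH3 hH5 hδ₄0 hδ₄a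
    (hinj₃.mono (strip_mono hδ₄3))
  have hsmall : ∀ t ∈ strip δ₄, (1 + C) * |t.im| < δ₃ := by
    intro t ht
    have e1 : |t.im| < δ₃ / (1 + C) := lt_of_lt_of_le ht (min_le_right _ _)
    rw [lt_div_iff₀ hC1] at e1
    linarith
  have hΦm : ∀ t ∈ strip δ₄, Φ 1 t ∈ strip δ₃ := by
    intro t ht
    exact lt_of_le_of_lt (hlip t (strip_mono hδ₄a ht)) (hsmall t ht)
  have hKint : ∀ (k : ℤ), ∀ s ∈ strip ε, K (s + k) = K s + k := by
    intro k s hs
    have e1 : H (K s + k) = s + k := by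
      rw [H_add_int hH3 k _ (strip_mono hδ₄a (hK1 s hs)), hK2 s hs]
    rw [← e1]
    exact hK3 _ (add_int_mem_strip (hK1 s hs) k)
  have hKρ : ∀ s ∈ strip ε, K (s + ρ) = Φ 1 (K s) := by
    intro s hs
    have hs' : s + (ρ : ℂ) ∈ strip ε := add_real_mem_strip hs ρ
    have e1 : H (Φ 1 (K s)) = s + ρ := by
      rw [hH7 (K s) (strip_mono hδ₄a (hK1 s hs)) (lt_of_lt_of_le (hsmall _ (hK1 s hs)) hδ₃a),
        hK2 s hs]
    have e2 : H (K (s + ρ)) = s + ρ := hK2 _ hs'
    exact hinj₃ (strip_mono hδ₄3 (hK1 _ hs')) (hΦm _ (hK1 s hs)) (e2.trans e1.symm)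
  have hKreal : ∀ y : ℝ, ∃ x : ℝ, K y = x ∧ H x = y := by
    intro y
    obtain ⟨x, hx⟩ := H_surj ha hH1 hH2 hH5 y
    exact ⟨x, by rw [← hx]; exact hK3 _ (real_mem_strip' hδ₄0 x), hx⟩
  have hδη : δ₄ ≤ c.η := hδ₄a.trans (haδ.trans (hδr.trans c.toLine.rad_le))
  set G : ℂ → P := fun s => if s ∈ strip ε then c.γ (K s) else c.γ 0 with hG
  have hG1 : ∀ s ∈ strip ε, G s = c.γ (K s) := fun s hs => by simp only [hG, if_pos hs]
  refine ⟨{ G := G, ε := ε, ρ := ρ, ε_pos := hε, hol := ?_, per := ?_, inj := ?_, irr := hρ,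
            semi := ?_ }, ?_⟩
  · intro s hs
    have e1 : HolAt (fun s => c.γ (K s)) s :=
      HolAt.comp (g := c.γ) (f := K) (c.hol _ (strip_mono hδη (hK1 s hs))) (hK4 s hs)
    refine e1.congr ?_
    filter_upwards [(isOpen_strip ε).mem_nhds hs] with t ht
    exact (hG1 t ht).symm
  · intro s
    by_cases hs : s ∈ strip ε
    · rw [hG1 s hs, hG1 _ (add_one_mem_strip hs)]
      have e1 := hKint 1 s hs
      rw [Int.cast_one] at e1
      rw [e1, c.per]
    · have hs' : s + 1 ∉ strip ε := by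
        intro h
        apply hs
        have := add_int_mem_strip h (-1)
        simpa using this
      simp only [hG, if_neg hs, if_neg hs']
  · intro s hs s' hs' h
    rw [hG1 s hs, hG1 s' hs'] at h
    obtain ⟨k, hk⟩ := c.inj _ (strip_mono hδη (hK1 s hs)) _ (strip_mono hδη (hK1 s' hs')) h
    refine ⟨k, ?_⟩
    rw [← hK2 s' hs', hk, H_add_int hH3 k _ (strip_mono hδ₄a (hK1 s hs)), hK2 s hs]
  · intro s hs
    rw [hG1 s hs, hG1 _ (add_real_mem_strip hs ρ), hKρ s hs]
    have e1 := hΦ3 1 (K s) (strip_mono (hδ₄a.trans haδ) (hK1 s hs))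
    rw [Function.iterate_one] at e1
    exact e1.symm
  · apply subset_antisymm
    · rintro _ ⟨y, rfl⟩
      obtain ⟨x, hx, -⟩ := hKreal y
      refine ⟨x, ?_⟩
      change c.γ x = G y
      rw [hG1 _ (real_mem_strip' hε y), hx]
    · rintro _ ⟨x, rfl⟩
      refine ⟨(H x).re, ?_⟩
      change G _ = c.γ x
      have e1 : (((H x).re : ℝ) : ℂ) = H x := by
        apply Complex.ext
        · simp
        · rw [Complex.ofReal_im, hH5]
      rw [e1, hG1 _ (by rw [← e1]; exact real_mem_strip' hε _), hK3 _ (real_mem_strip' hδ₄0 x)]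

end Pool.Agent.Lib.MP_1f4a82_an
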