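import Pool.Agent.Lib.MP_1f4a82_an.CoverDefs

/-!
Definitions used in the final statement: analytic Jordan curves, Fatou set, linearizers of rotation
domains; and linearised invariant curves.
-/

open Topology Filter Set

namespace Pool.Agent.Lib.MP_1f4a82_an

/-- The curve `γ : ℝ → P` is real-analytic with nonzero velocity at `t`, in one of the two
coordinates `z`, `1/z` of the sphere. -/
def RegAt (γ : ℝ → P) (t : ℝ) : Prop :=
  ∃ u : ℝ → ℂ, AnalyticAt ℝ u t ∧ deriv u t ≠ 0 ∧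
    ((∀ᶠ s in 𝓝 t, γ s = (u s : P)) ∨ ∀ᶠ s in 𝓝 t, γ s = invP (u s : P))

/-- `C` is an analytic Jordan curve in the Riemann sphere. -/
def IsAnalyticJordanCurve (C : Set P) : Prop :=
  ∃ γ : ℝ → P, (∀ t, γ (t + 1) = γ t) ∧ (∀ t t', γ t = γ t' → ∃ k : ℤ, t' = t + k) ∧
    (∀ t, RegAt γ t) ∧ C = range γ

/-- `f` is on `C` topologically conjugate to an irrational rotation. -/
def IrrationalRotationOn (f : P → P) (C : Set P) : Prop :=
  ∃ (α : ℝ) (h : C ≃ₜ Circle), Irrational α ∧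
    ∀ z w : C, f z = w → h w = Circle.exp (2 * Real.pi * α) * h z

/-- The Fatou set of `f`: the points having a neighbourhood on which the iterates of `f` are
equicontinuous (with respect to the unique uniform structure of the compact space `P`, whose
entourages are the neighbourhoods of the diagonal). -/
def FatouSet (f : P → P) : Set P :=
  {z | ∃ W ∈ 𝓝 z, ∀ x ∈ W, ∀ D : Set (P × P), IsOpen D → (∀ p, (p, p) ∈ D) →
    ∀ᶠ y in 𝓝 x, ∀ n : ℕ, (f^[n] x, f^[n] y) ∈ D}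

/-- `U` is a rotation domain of `f` (a Siegel disk or a Herman ring) with linearizer `φ` and
rotation number `α`. -/
structure IsLinearizer (f : P → P) (U : Set P) (φ : P → ℂ) (α : ℝ) : Prop where
  comp : ∃ z ∈ FatouSet f, U = connectedComponentIn (FatouSet f) z
  image : f '' U = U
  hol : ∀ z ∈ U, HolAt φ z
  inj : InjOn φ U
  conj : ∀ z ∈ U, φ (f z) = Complex.exp (2 * Real.pi * Complex.I * α) * φ z
  irr : Irrational α
  range : (∃ R : ℝ, 0 < R ∧ φ '' U = {w | ‖w‖ < R}) ∨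
    ∃ r R : ℝ, 0 < r ∧ r < R ∧ φ '' U = {w | r < ‖w‖ ∧ ‖w‖ < R}

/-- A linearised invariant curve. -/
structure LinCurve (f : P → P) where
  G : ℂ → P
  ε : ℝ
  ρ : ℝ
  ε_pos : 0 < ε
  hol : ∀ s ∈ strip ε, HolAt G s
  per : ∀ s, G (s + 1) = G s
  inj : ∀ s ∈ strip ε, ∀ s' ∈ strip ε, G s = G s' → ∃ k : ℤ, s' = s + k
  irr : Irrational ρ
  semi : ∀ s ∈ strip ε, f (G s) = G (s + ρ)

/-- The properties of the component `U` of the Fatou set containing a linearised invariant curve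
which are used to extend the linearization to `U`. -/
structure GoodDomain (f : P → P) (L : LinCurve f) (U : Set P) : Prop where
  isOpen : IsOpen U
  conn : IsPreconnected U
  mem : ∀ s ∈ strip L.ε, L.G s ∈ U
  image : f '' U = U
  inj : InjOn f U
  ne_univ : U ≠ univ
  recur : ∃ 𝒰 : Filter ℕ, 𝒰.NeBot ∧ 𝒰 ≤ atTop ∧
    ∀ z ∈ U, Tendsto (fun n => f^[n] z) 𝒰 (𝓝 z)
  cpt : ∀ z ∈ U, ∃ N ∈ 𝓝 z, ∃ K : Set P, IsCompact K ∧ K ⊆ U ∧ ∀ n : ℕ, ∀ y ∈ N, f^[n] y ∈ K

end Pool.Agent.Lib.MP_1f4a82_an
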