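import Pool.Agent.Lib.MP_1f4a82_an.MainDefs

/-!
Maximal extension of the linearization of an invariant curve in a good domain.
-/

open Topology Filter Set

namespace Pool.Agent.Lib.MP_1f4a82_an

namespace MaximalExt

/-! ### Density of `ℕ ρ + ℤ` -/

theorem exists_small {ρ : ℝ} (hρ : Irrational ρ) {δ : ℝ} (hδ : 0 < δ) :
    ∃ n : ℕ, ∃ l : ℤ, (n : ℝ) * ρ + l ≠ 0 ∧ |(n : ℝ) * ρ + l| < δ := by
  obtain ⟨N, hN⟩ := exists_nat_one_div_lt hδ
  obtain ⟨k, hk0, -, hk⟩ := Real.exists_nat_abs_mul_sub_round_le ρ (Nat.succ_pos N)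
  refine ⟨k, -round ((k : ℝ) * ρ), ?_, ?_⟩
  · push_cast
    rw [← sub_eq_add_neg]
    exact ((hρ.natCast_mul hk0.ne').sub_intCast _).ne_zero
  · push_cast
    rw [← sub_eq_add_neg]
    refine hk.trans_lt (lt_of_le_of_lt ?_ hN)
    push_cast
    apply one_div_le_one_div_of_le (by positivity)
    linarith

theorem exists_dense {ρ : ℝ} (hρ : Irrational ρ) {δ : ℝ} (hδ : 0 < δ) (t : ℝ) :
    ∃ n : ℕ, ∃ l : ℤ, |t - ((n : ℝ) * ρ + l)| < δ := by
  obtain ⟨n, l, h0, h1⟩ := exists_small hρ hδ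
  set θ : ℝ := (n : ℝ) * ρ + l with hθ
  rcases lt_or_gt_of_ne h0 with h | h
  · -- θ < 0
    have h2 : 0 ≤ ((⌈t⌉ : ℝ) - t) / (-θ) := div_nonneg (by linarith [Int.le_ceil t]) (by linarith)
    set i : ℕ := ⌊((⌈t⌉ : ℝ) - t) / (-θ)⌋₊ with hi
    have h3 := Nat.floor_le h2
    have h4 := Nat.lt_floor_add_one (((⌈t⌉ : ℝ) - t) / (-θ))
    rw [← hi] at h3 h4
    rw [le_div_iff₀ (by linarith)] at h3
    rw [div_lt_iff₀ (by linarith)] at h4
    refine ⟨i * n, i * l + ⌈t⌉, ?_⟩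
    have h5 : t - (((i * n : ℕ) : ℝ) * ρ + ((i * l + ⌈t⌉ : ℤ) : ℝ)) = t - ⌈t⌉ - i * θ := by
      rw [hθ]; push_cast; ring
    rw [h5, abs_lt]
    rw [abs_of_neg h] at h1
    constructor <;> nlinarith
  · have h2 : 0 ≤ (t - (⌊t⌋ : ℝ)) / θ := div_nonneg (by linarith [Int.floor_le t]) (by linarith)
    set i : ℕ := ⌊(t - (⌊t⌋ : ℝ)) / θ⌋₊ with hi
    have h3 := Nat.floor_le h2
    have h4 := Nat.lt_floor_add_one ((t - (⌊t⌋ : ℝ)) / θ)
    rw [← hi] at h3 h4
    rw [le_div_iff₀ (by linarith)] at h3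
    rw [div_lt_iff₀ (by linarith)] at h4
    refine ⟨i * n, i * l + ⌊t⌋, ?_⟩
    have h5 : t - (((i * n : ℕ) : ℝ) * ρ + ((i * l + ⌊t⌋ : ℤ) : ℝ)) = t - ⌊t⌋ - i * θ := by
      rw [hθ]; push_cast; ring
    rw [h5, abs_lt]
    rw [abs_of_pos h] at h1
    constructor <;> nlinarith

/-! ### Horizontal strips -/

/-- horizontal strip -/
def SS (a b : EReal) : Set ℂ := {s | a < ((s.im : ℝ) : EReal) ∧ ((s.im : ℝ) : EReal) < b}

theorem isOpen_SS (a b : EReal) : IsOpen (SS a b) := by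
  have h1 : Continuous fun s : ℂ => ((s.im : ℝ) : EReal) :=
    continuous_coe_real_ereal.comp Complex.continuous_im
  exact (isOpen_lt continuous_const h1).inter (isOpen_lt h1 continuous_const)

theorem convex_SS (a b : EReal) : Convex ℝ (SS a b) := by
  have h1 : ({y : ℝ | a < (y : EReal) ∧ (y : EReal) < b}).OrdConnected := by
    refine ⟨fun x hx y hy z hz => ⟨lt_of_lt_of_le hx.1 ?_, lt_of_le_of_lt ?_ hy.2⟩⟩
    · exact EReal.coe_le_coe_iff.mpr hz.1
    · exact EReal.coe_le_coe_iff.mpr hz.2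
  exact h1.convex.linear_preimage Complex.imLm

theorem SS_inter (a b a' b' : EReal) : SS a b ∩ SS a' b' = SS (max a a') (min b b') := by
  ext s
  simp only [SS, mem_inter_iff, mem_ofPred_eq, max_lt_iff, lt_min_iff]
  tauto

theorem mem_SS_add {a b : EReal} {s : ℂ} (t : ℝ) : s + t ∈ SS a b ↔ s ∈ SS a b := by
  simp [SS]

theorem strip_subset_SS {ε : ℝ} {a b : EReal} (ha : a ≤ ((-ε : ℝ) : EReal))
    (hb : ((ε : ℝ) : EReal) ≤ b) : strip ε ⊆ SS a b := by
  intro s hs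
  have h1 := abs_lt.mp (show |s.im| < ε from hs)
  exact ⟨lt_of_le_of_lt ha (EReal.coe_lt_coe_iff.mpr h1.1),
    lt_of_lt_of_le (EReal.coe_lt_coe_iff.mpr h1.2) hb⟩

theorem zero_mem_strip {ε : ℝ} (h : 0 < ε) (x : ℝ) : (x : ℂ) ∈ strip ε := by
  simp [strip, h]

variable {f : P → P} {L : LinCurve f} {U : Set P}

/-- An extension of the linearization to a horizontal strip. -/
structure IsExt (L : LinCurve f) (U : Set P) (a b : EReal) (G : ℂ → P) : Prop where
  ha : a ≤ ((-L.ε : ℝ) : EReal)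
  hb : ((L.ε : ℝ) : EReal) ≤ b
  hol : ∀ s ∈ SS a b, HolAt G s
  mem : ∀ s ∈ SS a b, G s ∈ U
  eq : ∀ s ∈ strip L.ε, G s = L.G s

theorem IsExt.strip_sub {a b : EReal} {G : ℂ → P} (h : IsExt L U a b G) : strip L.ε ⊆ SS a b :=
  strip_subset_SS h.ha h.hb

theorem IsExt.lt {a b : EReal} {G : ℂ → P} (h : IsExt L U a b G) : a < b := by
  have h1 := h.strip_sub (zero_mem_strip L.ε_pos 0)
  exact h1.1.trans h1.2

theorem frequently_of_eventually_nhds {X : Type} [TopologicalSpace X] {p : X → Prop} {z : X}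
    [(𝓝[≠] z).NeBot] (h : ∀ᶠ s in 𝓝 z, p s) :
    ∃ᶠ s in 𝓝[≠] z, p s := (h.filter_mono nhdsWithin_le_nhds).frequently

theorem ext_unique {a b a' b' : EReal} {G G' : ℂ → P} (h : IsExt L U a b G)
    (h' : IsExt L U a' b' G') : ∀ s ∈ SS a b ∩ SS a' b', G s = G' s := by
  have h1 : IsPreconnected (SS a b ∩ SS a' b') :=
    ((convex_SS a b).inter (convex_SS a' b')).isPreconnected
  have h0 : (0 : ℂ) ∈ strip L.ε := by simpa using zero_mem_strip L.ε_pos 0
  refine HolAt.eqOn_of_preconnected (p := 0) h1 (fun s hs => h.hol s hs.1)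
    (fun s hs => h'.hol s hs.2) ⟨h.strip_sub h0, h'.strip_sub h0⟩ ?_
  apply frequently_of_eventually_nhds
  filter_upwards [(isOpen_strip L.ε).mem_nhds h0] with s hs
  rw [h.eq s hs, h'.eq s hs]

/-- The maximal extension. -/
theorem exists_max (hU : GoodDomain f L U) : ∃ (a b : EReal) (G : ℂ → P), IsExt L U a b G ∧
    (∀ s ∉ SS a b, G s = L.G 0) ∧
    ∀ (a' b' : EReal) (G' : ℂ → P), IsExt L U a' b' G' → a ≤ a' ∧ b' ≤ b := by
  classical
  set a : EReal := sInf {a | ∃ b G, IsExt L U a b G} with ha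
  set b : EReal := sSup {b | ∃ a G, IsExt L U a b G} with hb
  have hmax : ∀ (a' b' : EReal) (G' : ℂ → P), IsExt L U a' b' G' → a ≤ a' ∧ b' ≤ b :=
    fun a' b' G' h => ⟨sInf_le ⟨b', G', h⟩, le_sSup ⟨a', G', h⟩⟩
  have h0 : IsExt L U ((-L.ε : ℝ) : EReal) ((L.ε : ℝ) : EReal) L.G := by
    have hs : SS ((-L.ε : ℝ) : EReal) ((L.ε : ℝ) : EReal) ⊆ strip L.ε := by
      rintro s ⟨h1, h2⟩
      exact abs_lt.mpr ⟨EReal.coe_lt_coe_iff.mp h1, EReal.coe_lt_coe_iff.mp h2⟩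
    exact ⟨le_rfl, le_rfl, fun s h => L.hol s (hs h), fun s h => hU.mem s (hs h), fun s _ => rfl⟩
  -- every point of the strip is in some extension
  have hcov : ∀ s ∈ SS a b, ∃ a' b' G', IsExt L U a' b' G' ∧ s ∈ SS a' b' := by
    rintro s ⟨h1, h2⟩
    rcases le_or_gt 0 s.im with h | h
    · obtain ⟨b', ⟨a', G', hE⟩, hb'⟩ := lt_sSup_iff.mp h2
      refine ⟨a', b', G', hE, lt_of_le_of_lt hE.ha ?_, hb'⟩
      exact EReal.coe_lt_coe_iff.mpr (by linarith [L.ε_pos])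
    · obtain ⟨a', ⟨b', G', hE⟩, ha'⟩ := sInf_lt_iff.mp h1
      refine ⟨a', b', G', hE, ha', lt_of_lt_of_le ?_ hE.hb⟩
      exact EReal.coe_lt_coe_iff.mpr (by linarith [L.ε_pos])
  let G : ℂ → P := fun s => if h : ∃ a' b' G', IsExt L U a' b' G' ∧ s ∈ SS a' b' then
    h.choose_spec.choose_spec.choose s else L.G 0
  have hG : ∀ a' b' G', IsExt L U a' b' G' → ∀ s ∈ SS a' b', G s = G' s := by
    intro a' b' G' hE s hs
    have h : ∃ a' b' G', IsExt L U a' b' G' ∧ s ∈ SS a' b' := ⟨a', b', G', hE, hs⟩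
    have h1 : G s = h.choose_spec.choose_spec.choose s := dif_pos h
    rw [h1]
    have h2 := h.choose_spec.choose_spec.choose_spec
    exact ext_unique h2.1 hE s ⟨h2.2, hs⟩
  refine ⟨a, b, G, ⟨(hmax _ _ _ h0).1, (hmax _ _ _ h0).2, ?_, ?_, ?_⟩, ?_, hmax⟩
  · intro s hs
    obtain ⟨a', b', G', hE, hs'⟩ := hcov s hs
    refine (hE.hol s hs').congr ?_
    filter_upwards [(isOpen_SS a' b').mem_nhds hs'] with t ht
    exact (hG _ _ _ hE t ht).symm
  · intro s hs
    obtain ⟨a', b', G', hE, hs'⟩ := hcov s hs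
    rw [hG _ _ _ hE s hs']
    exact hE.mem s hs'
  · intro s hs
    rw [hG _ _ _ h0 s (h0.strip_sub hs)]
  · intro s hs
    apply dif_neg
    rintro ⟨a', b', G', hE, hs'⟩
    apply hs
    obtain ⟨h1, h2⟩ := hmax _ _ _ hE
    exact ⟨lt_of_le_of_lt h1 hs'.1, lt_of_lt_of_le hs'.2 h2⟩

/-! ### Properties of extensions -/

theorem holAt_translate {G : ℂ → P} {s t : ℂ} (h : HolAt G (s + t)) :
    HolAt (fun z => G (z + t)) s := by
  have h1 : HolAt (fun z : ℂ => z + t) s := by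
    rw [holAt_iff_analyticAt]; fun_prop
  exact HolAt.comp (g := G) (f := fun z : ℂ => z + t) h h1

theorem IsExt.per {a b : EReal} {G : ℂ → P} (h : IsExt L U a b G) :
    ∀ s ∈ SS a b, G (s + 1) = G s := by
  have h0 : (0 : ℂ) ∈ strip L.ε := by simpa using zero_mem_strip L.ε_pos 0
  have key : EqOn (fun s => G (s + 1)) G (SS a b) := by
    refine HolAt.eqOn_of_preconnected (p := 0) (convex_SS a b).isPreconnected
      (fun s hs => holAt_translate (h.hol _ ?_)) (fun s hs => h.hol s hs)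
      (h.strip_sub h0) ?_
    · simpa using (mem_SS_add (1 : ℝ)).mpr hs
    apply frequently_of_eventually_nhds
    filter_upwards [(isOpen_strip L.ε).mem_nhds h0] with s hs
    have hs' : s + 1 ∈ strip L.ε := by simpa [strip] using hs
    rw [h.eq s hs, h.eq _ hs', L.per]
  exact key

theorem IsExt.per_int {a b : EReal} {G : ℂ → P} (h : IsExt L U a b G) (j : ℤ) :
    ∀ s ∈ SS a b, G (s + j) = G s := by
  induction j using Int.induction_on with
  | zero => simp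
  | succ i ih =>
    intro s hs
    have h1 := h.per (s + (i : ℤ)) (by simpa using (mem_SS_add (i : ℝ)).mpr hs)
    rw [← ih s hs, ← h1]
    push_cast; congr 1; ring
  | pred i ih =>
    intro s hs
    have h2 : s + ((-(i : ℤ) - 1 : ℤ) : ℂ) ∈ SS a b := by
      have := (mem_SS_add (a := a) (b := b) (s := s) ((-(i : ℤ) - 1 : ℤ) : ℝ)).mpr hs
      simpa using this
    have h1 := h.per _ h2
    rw [← ih s hs, ← h1]
    push_cast; congr 1; ring

theorem IsExt.semi (hf : ∀ p, HolAt f p) {a b : EReal} {G : ℂ → P} (h : IsExt L U a b G) :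
    ∀ s ∈ SS a b, f (G s) = G (s + L.ρ) := by
  have h0 : (0 : ℂ) ∈ strip L.ε := by simpa using zero_mem_strip L.ε_pos 0
  have key : EqOn (fun s => f (G s)) (fun s => G (s + L.ρ)) (SS a b) := by
    refine HolAt.eqOn_of_preconnected (p := 0) (convex_SS a b).isPreconnected
      (fun s hs => (hf _).comp (h.hol s hs)) (fun s hs => holAt_translate (h.hol _ ?_))
      (h.strip_sub h0) ?_
    · exact (mem_SS_add L.ρ).mpr hs
    apply frequently_of_eventually_nhds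
    filter_upwards [(isOpen_strip L.ε).mem_nhds h0] with s hs
    have hs' : s + L.ρ ∈ strip L.ε := by simpa [strip] using hs
    rw [h.eq s hs, h.eq _ hs', L.semi s hs]
  exact key

theorem IsExt.semi_iter (hf : ∀ p, HolAt f p) {a b : EReal} {G : ℂ → P} (h : IsExt L U a b G)
    (n : ℕ) : ∀ s ∈ SS a b, f^[n] (G s) = G (s + n * L.ρ) := by
  induction n with
  | zero => simp
  | succ n ih =>
    intro s hs
    have h1 : s + n * L.ρ ∈ SS a b := by
      simpa using (mem_SS_add ((n : ℝ) * L.ρ)).mpr hs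
    rw [Function.iterate_succ_apply', ih s hs, h.semi hf _ h1]
    push_cast; congr 1; ring

/-! ### The eigenfunction -/

section Psi

variable {k : ℕ} {ψ : P → ℂ}

/-- the exponential -/
noncomputable def Ex (k : ℕ) (s : ℂ) : ℂ := Complex.exp (2 * Real.pi * Complex.I * k * s)

theorem analyticAt_Ex (k : ℕ) (s : ℂ) : AnalyticAt ℂ (Ex k) s := by
  unfold Ex
  fun_prop

theorem norm_Ex (k : ℕ) (s : ℂ) : ‖Ex k s‖ = Real.exp (-(2 * Real.pi * k * s.im)) := by
  rw [Ex, Complex.norm_exp]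
  congr 1
  have : (2 * Real.pi * Complex.I * k * s : ℂ) = ((2 * Real.pi * k : ℝ) : ℂ) * (Complex.I * s) := by
    push_cast; ring
  rw [this, Complex.re_ofReal_mul]
  simp

theorem Ex_ne_zero (k : ℕ) (s : ℂ) : Ex k s ≠ 0 := Complex.exp_ne_zero _

theorem Ex_eq_iff {k : ℕ} (hk : 1 ≤ k) {s s' : ℂ} (h : Ex k s = Ex k s') :
    ∃ j : ℤ, s' = s + (j : ℂ) / k := by
  obtain ⟨n, hn⟩ := Complex.exp_eq_exp_iff_exists_int.mp h
  refine ⟨-n, ?_⟩
  have hk' : (k : ℂ) ≠ 0 := by exact_mod_cast (by omega : k ≠ 0)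
  have hpi : (2 * Real.pi * Complex.I : ℂ) ≠ 0 := Complex.two_pi_I_ne_zero
  have h1 : (2 * Real.pi * Complex.I : ℂ) * (k * s - k * s' - n) = 0 := by
    linear_combination hn
  have h2 := (mul_eq_zero.mp h1).resolve_left hpi
  field_simp
  push_cast
  linear_combination -h2

theorem IsExt.psi {a b : EReal} {G : ℂ → P} (h : IsExt L U a b G) (hψ : ∀ z ∈ U, HolAt ψ z)
    (hψG : ∀ s ∈ strip L.ε, ψ (L.G s) = Ex k s) : ∀ s ∈ SS a b, ψ (G s) = Ex k s := by
  have h0 : (0 : ℂ) ∈ strip L.ε := by simpa using zero_mem_strip L.ε_pos 0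
  have key : EqOn (fun s => ψ (G s)) (Ex k) (SS a b) := by
    refine HolAt.eqOn_of_preconnected (p := 0) (convex_SS a b).isPreconnected
      (fun s hs => (hψ _ (h.mem s hs)).comp (h.hol s hs))
      (fun s hs => holAt_iff_analyticAt.mpr (analyticAt_Ex k s)) (h.strip_sub h0) ?_
    apply frequently_of_eventually_nhds
    filter_upwards [(isOpen_strip L.ε).mem_nhds h0] with s hs
    rw [h.eq s hs, hψG s hs]
  exact key

theorem IsExt.inj (hf : ∀ p, HolAt f p) {a b : EReal} {G : ℂ → P} (h : IsExt L U a b G)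
    (hψ : ∀ z ∈ U, HolAt ψ z) (hψG : ∀ s ∈ strip L.ε, ψ (L.G s) = Ex k s) (hk : 1 ≤ k) :
    ∀ s ∈ SS a b, ∀ s' ∈ SS a b, G s = G s' → ∃ j : ℤ, s' = s + j := by
  intro s hs s' hs' hG
  have h1 : Ex k s = Ex k s' := by
    rw [← h.psi hψ hψG s hs, ← h.psi hψ hψG s' hs', hG]
  obtain ⟨j, hj⟩ := Ex_eq_iff hk h1
  have hjr : ((j : ℂ) / k) = (((j : ℝ) / k : ℝ) : ℂ) := by push_cast; ring
  have key : EqOn G (fun z => G (z + (j : ℂ) / k)) (SS a b) := by
    refine HolAt.eqOn_of_preconnected (p := s) (convex_SS a b).isPreconnected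
      (fun z hz => h.hol z hz) (fun z hz => holAt_translate (h.hol _ ?_)) hs ?_
    · rw [hjr]; exact (mem_SS_add _).mpr hz
    -- accumulation
    rw [frequently_nhdsWithin_iff, Metric.nhds_basis_ball.frequently_iff]
    intro δ hδ
    obtain ⟨n, l, hn0, hnδ⟩ := exists_small L.irr hδ
    have hc : (((n : ℝ) * L.ρ + l : ℝ) : ℂ) = n * L.ρ + l := by push_cast; ring
    refine ⟨s + (((n : ℝ) * L.ρ + l : ℝ) : ℂ), ?_, ?_, ?_⟩
    · rw [Metric.mem_ball, dist_eq_norm, add_sub_cancel_left, Complex.norm_real,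
        Real.norm_eq_abs]
      exact hnδ
    · have e1 : G (s + (((n : ℝ) * L.ρ + l : ℝ) : ℂ)) = f^[n] (G s) := by
        rw [h.semi_iter hf n s hs, hc]
        have h2 : s + n * L.ρ ∈ SS a b := by simpa using (mem_SS_add ((n : ℝ) * L.ρ)).mpr hs
        rw [← add_assoc, h.per_int l _ h2]
      have e2 : G (s + (((n : ℝ) * L.ρ + l : ℝ) : ℂ) + (j : ℂ) / k) = f^[n] (G s') := by
        rw [h.semi_iter hf n s' hs', hc, hj]
        have h2 : s + (j : ℂ) / k + n * L.ρ ∈ SS a b := by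
          rw [← hj]; simpa using (mem_SS_add ((n : ℝ) * L.ρ)).mpr hs'
        rw [← h.per_int l _ h2]
        congr 1; ring
      rw [e1, e2, hG]
    · simp only [mem_compl_iff, mem_singleton_iff, add_eq_left]
      exact_mod_cast hn0
  have h0 : (0 : ℂ) ∈ strip L.ε := by simpa using zero_mem_strip L.ε_pos 0
  have h0' : (0 : ℂ) + (j : ℂ) / k ∈ strip L.ε := by
    rw [zero_add, hjr]; exact zero_mem_strip L.ε_pos _
  have h3 := key (h.strip_sub h0)
  beta_reduce at h3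
  rw [h.eq _ h0, h.eq _ h0'] at h3
  obtain ⟨m, hm⟩ := L.inj _ h0 _ h0' h3
  refine ⟨m, ?_⟩
  rw [hj]
  rw [zero_add, zero_add] at hm
  rw [hm]

/-! ### Local injectivity -/

/-- `ψ` is injective near `y`. -/
def LocInj (ψ : P → ℂ) (y : P) : Prop := ∃ W ∈ 𝓝 y, InjOn ψ W

theorem injOn_of_deriv_ne {g : ℂ → ℂ} {w : ℂ} (hg : AnalyticAt ℂ g w) (h : deriv g w ≠ 0) :
    ∃ W ∈ 𝓝 w, InjOn g W := by
  have h1 := (hg.hasStrictDerivAt).hasStrictFDerivAt_equiv h
  refine ⟨(h1.toOpenPartialHomeomorph g).source,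
    (h1.toOpenPartialHomeomorph g).open_source.mem_nhds h1.mem_toOpenPartialHomeomorph_source,
    ?_⟩
  exact (h1.toOpenPartialHomeomorph g).injOn

theorem locInj_punctured {y : P} (hψ : HolAt ψ y) (hc : ¬ ∀ᶠ z in 𝓝 y, ψ z = ψ y) :
    ∀ᶠ z in 𝓝[≠] y, LocInj ψ z := by
  obtain ⟨e, he, hy⟩ := RS.exists_chart y
  have hg : AnalyticAt ℂ (fun z => ψ (e.symm z)) (e y) := (holAt_iff_of_chart he hy).mp hψ
  set g : ℂ → ℂ := fun z => ψ (e.symm z) with hgdef
  rcases hg.deriv.eventually_eq_zero_or_eventually_ne_zero with h | h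
  · exfalso
    apply hc
    obtain ⟨r, hr, hball⟩ := Metric.mem_nhds_iff.mp (h.and hg.eventually_analyticAt)
    have hconst : ∀ z ∈ Metric.ball (e y) r, g z = g (e y) := by
      intro z hz
      refine Metric.isOpen_ball.is_const_of_deriv_eq_zero
        (convex_ball (e y) r).isPreconnected ?_ ?_ hz (Metric.mem_ball_self hr)
      · intro w hw
        exact (hball hw).2.differentiableAt.differentiableWithinAt
      · intro w hw
        exact (hball hw).1
    filter_upwards [e.continuousAt hy (Metric.ball_mem_nhds _ hr), e.open_source.mem_nhds hy]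
      with z hz hz'
    have h1 := hconst (e z) hz
    simp only [hgdef, e.left_inv hz', e.left_inv hy] at h1
    exact h1
  · filter_upwards [(tendsto_chart_ne hy).eventually h,
      nhdsWithin_le_nhds ((e.continuousAt hy).eventually hg.eventually_analyticAt),
      nhdsWithin_le_nhds (e.open_source.mem_nhds hy)] with z hz1 hz2 hz3
    obtain ⟨W, hW, hinj⟩ := injOn_of_deriv_ne hz2 hz1
    refine ⟨e ⁻¹' W ∩ e.source, inter_mem (e.continuousAt hz3 hW) (e.open_source.mem_nhds hz3), ?_⟩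
    rintro u ⟨hu, hu'⟩ v ⟨hv, hv'⟩ huv
    apply e.injOn hu' hv'
    apply hinj hu hv
    simp only [hgdef, e.left_inv hu', e.left_inv hv']
    exact huv

theorem iterate_mem (hU : GoodDomain f L U) {x : P} (hx : x ∈ U) (n : ℕ) : f^[n] x ∈ U := by
  induction n with
  | zero => exact hx
  | succ n ih =>
    rw [Function.iterate_succ_apply', ← hU.image]
    exact ⟨_, ih, rfl⟩

theorem holAt_iterate (hf : ∀ p, HolAt f p) (n : ℕ) (p : P) : HolAt (f^[n]) p := by
  induction n with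
  | zero => exact holAt_id p
  | succ n ih =>
    have : f^[n + 1] = fun x => f (f^[n] x) := by
      funext x; rw [Function.iterate_succ_apply']
    rw [this]
    exact (hf _).comp ih

theorem LocInj.pull (hf : ∀ p, HolAt f p) (hU : GoodDomain f L U) {c : ℂ}
    (hψf : ∀ z ∈ U, ψ (f z) = c * ψ z) {x : P} (hx : x ∈ U) (h : LocInj ψ (f x)) :
    LocInj ψ x := by
  obtain ⟨W, hW, hinj⟩ := h
  refine ⟨f ⁻¹' W ∩ U, inter_mem ((hf x).1 hW) (hU.isOpen.mem_nhds hx), ?_⟩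
  rintro u ⟨hu, hu'⟩ v ⟨hv, hv'⟩ huv
  apply hU.inj hu' hv'
  apply hinj hu hv
  rw [hψf u hu', hψf v hv', huv]

theorem LocInj.pull_iter (hf : ∀ p, HolAt f p) (hU : GoodDomain f L U) {c : ℂ}
    (hψf : ∀ z ∈ U, ψ (f z) = c * ψ z) (n : ℕ) {x : P} (hx : x ∈ U)
    (h : LocInj ψ (f^[n] x)) : LocInj ψ x := by
  induction n with
  | zero => exact h
  | succ n ih =>
    apply ih
    rw [Function.iterate_succ_apply'] at h
    exact LocInj.pull hf hU hψf (iterate_mem hU hx n) h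

theorem not_const (hU : GoodDomain f L U) (hk : 1 ≤ k) (hψ : ∀ z ∈ U, HolAt ψ z)
    (hψG : ∀ s ∈ strip L.ε, ψ (L.G s) = Ex k s) {x : P} (hx : x ∈ U) :
    ¬ ∀ᶠ z in 𝓝 x, ψ z = ψ x := by
  intro h
  have h1 : EqOn ψ (fun _ => ψ x) U :=
    HolAt.eqOn_of_preconnected hU.conn hψ (fun z _ => holAt_const _ z) hx
      (frequently_of_eventually_nhds h)
  have h2 := fun y : ℝ => h1 (hU.mem _ (zero_mem_strip L.ε_pos y))
  have h3 : Ex k (0 : ℝ) = Ex k ((1 / (2 * k) : ℝ)) := by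
    rw [← hψG _ (zero_mem_strip L.ε_pos 0), ← hψG _ (zero_mem_strip L.ε_pos _), h2, h2]
  have hk' : (k : ℂ) ≠ 0 := by exact_mod_cast (by omega : k ≠ 0)
  have h4 : Ex k ((1 / (2 * k) : ℝ)) = -1 := by
    rw [Ex]
    have : (2 * Real.pi * Complex.I * k * ((1 / (2 * k) : ℝ) : ℂ)) = Real.pi * Complex.I := by
      push_cast; field_simp
    rw [this, Complex.exp_pi_mul_I]
  have h5 : Ex k (0 : ℝ) = 1 := by simp [Ex]
  rw [h4, h5] at h3
  norm_num at h3

theorem psi_iter (hU : GoodDomain f L U) {c : ℂ}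
    (hψf : ∀ z ∈ U, ψ (f z) = c * ψ z) (n : ℕ) {x : P} (hx : x ∈ U) :
    ψ (f^[n] x) = c ^ n * ψ x := by
  induction n with
  | zero => simp
  | succ n ih =>
    rw [Function.iterate_succ_apply', hψf _ (iterate_mem hU hx n), ih]
    ring

theorem locInj_of_ne_zero (hf : ∀ p, HolAt f p) (hU : GoodDomain f L U) (hk : 1 ≤ k)
    (hψ : ∀ z ∈ U, HolAt ψ z)
    (hψf : ∀ z ∈ U, ψ (f z) = Complex.exp (2 * Real.pi * Complex.I * k * L.ρ) * ψ z)
    (hψG : ∀ s ∈ strip L.ε, ψ (L.G s) = Ex k s) {x : P} (hx : x ∈ U) (h0 : ψ x ≠ 0) :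
    LocInj ψ x := by
  obtain ⟨𝒰, hne, hle, hrec⟩ := hU.recur
  have h1 := hrec x hx
  have h2 : ∀ᶠ n in 𝒰, f^[n] x ≠ x := by
    have h3 : ∀ᶠ n in 𝒰, 1 ≤ n := hle (eventually_ge_atTop 1)
    filter_upwards [h3] with n hn hn'
    have h4 := psi_iter hU hψf n hx
    rw [hn'] at h4
    have h5 : Complex.exp (2 * Real.pi * Complex.I * k * L.ρ) ^ n = 1 := by
      apply mul_right_cancel₀ h0
      rw [one_mul]; exact h4.symm
    rw [← Complex.exp_nat_mul, Complex.exp_eq_one_iff] at h5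
    obtain ⟨m, hm⟩ := h5
    have hpi : (2 * Real.pi * Complex.I : ℂ) ≠ 0 := Complex.two_pi_I_ne_zero
    have h6 : (2 * Real.pi * Complex.I : ℂ) * ((n * k : ℕ) * L.ρ - m) = 0 := by
      push_cast; linear_combination hm
    have h7 := (mul_eq_zero.mp h6).resolve_left hpi
    have h8 : ((n * k : ℕ) : ℝ) * L.ρ - m = 0 := by exact_mod_cast h7
    exact ((L.irr.natCast_mul (by positivity : n * k ≠ 0)).sub_intCast m).ne_zero h8
  have h3 : Tendsto (fun n => f^[n] x) 𝒰 (𝓝[≠] x) :=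
    tendsto_nhdsWithin_iff.mpr ⟨h1, h2⟩
  have h4 := h3.eventually (locInj_punctured (hψ x hx) (not_const hU hk hψ hψG hx))
  obtain ⟨n, hn⟩ := h4.exists
  exact LocInj.pull_iter hf hU hψf n hx hn

/-- The local inverse of `ψ`. -/
theorem exists_local_inverse (hU : GoodDomain f L U) (hψ : ∀ z ∈ U, HolAt ψ z) {x : P}
    (hx : x ∈ U) (h : LocInj ψ x) :
    ∃ (N : Set P) (κ : ℂ → P), IsOpen N ∧ x ∈ N ∧ N ⊆ U ∧ IsOpen (ψ '' N) ∧
      (∀ y ∈ N, κ (ψ y) = y) ∧ ∀ y ∈ N, HolAt κ (ψ y) := by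
  obtain ⟨W, hW, hinj⟩ := h
  obtain ⟨W', hW'W, hW'o, hxW'⟩ := mem_nhds_iff.mp hW
  set N := W' ∩ U with hN
  have hNo : IsOpen N := hW'o.inter hU.isOpen
  have hNi : InjOn ψ N := fun u hu v hv huv => hinj (hW'W hu.1) (hW'W hv.1) huv
  have hinv : ∀ y ∈ N, Function.invFunOn ψ N (ψ y) = y := fun y hy => hNi.leftInvOn_invFunOn hy
  refine ⟨N, Function.invFunOn ψ N, hNo, ⟨hxW', hx⟩, inter_subset_right, ?_, hinv, ?_⟩
  · exact isOpen_image_of_injOn hNo (fun y hy => hψ y hy.2) hNi hNo subset_rfl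
  · intro y hy
    exact holAt_leftInverse hNo (fun y hy => hψ y hy.2) hinv hy

end Psi

/-! ### Gluing -/

theorem exists_near {a b : EReal} {c : ℝ} (hab : a < b) (ha : a ≤ c) (hb : c ≤ b) {δ : ℝ}
    (hδ : 0 < δ) : ∃ y : ℝ, |y - c| < δ ∧ a < y ∧ (y : EReal) < b := by
  rcases eq_or_lt_of_le ha with h | h
  · have h1 : (c : EReal) < min b ((c + δ : ℝ) : EReal) := by
      rw [lt_min_iff]
      exact ⟨by rw [← h]; exact hab, EReal.coe_lt_coe_iff.mpr (by linarith)⟩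
    obtain ⟨y, hy1, hy2⟩ := EReal.lt_iff_exists_real_btwn.mp h1
    rw [lt_min_iff] at hy2
    have h2 := EReal.coe_lt_coe_iff.mp hy1
    have h3 := EReal.coe_lt_coe_iff.mp hy2.2
    exact ⟨y, abs_lt.mpr ⟨by linarith, by linarith⟩, by rw [h]; exact hy1, hy2.1⟩
  · have h1 : max a ((c - δ : ℝ) : EReal) < (c : EReal) := by
      rw [max_lt_iff]
      exact ⟨h, EReal.coe_lt_coe_iff.mpr (by linarith)⟩
    obtain ⟨y, hy1, hy2⟩ := EReal.lt_iff_exists_real_btwn.mp h1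
    rw [max_lt_iff] at hy1
    have h2 := EReal.coe_lt_coe_iff.mp hy2
    have h3 := EReal.coe_lt_coe_iff.mp hy1.2
    exact ⟨y, abs_lt.mpr ⟨by linarith, by linarith⟩, hy1.1, lt_of_lt_of_le hy2 hb⟩

section Glue

variable {a b : EReal} {G : ℂ → P} {s₀ : ℂ} {r : ℝ} {g : ℂ → P}

/-- translates of the local extension -/
noncomputable def gg (f : P → P) (ρ : ℝ) (g : ℂ → P) (n : ℕ) (l : ℤ) (s : ℂ) : P :=
  f^[n] (g (s - (((n : ℝ) * ρ + l : ℝ) : ℂ)))

theorem sub_mem_ball {t : ℝ} {s : ℂ} (hs : s ∈ Metric.ball (s₀ + (t : ℂ)) r) :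
    s - (t : ℂ) ∈ Metric.ball s₀ r := by
  rw [Metric.mem_ball, dist_eq_norm] at hs ⊢
  convert hs using 2
  ring

theorem holAt_gg (hf : ∀ p, HolAt f p) (hg : ∀ s ∈ Metric.ball s₀ r, HolAt g s) (n : ℕ) (l : ℤ)
    {s : ℂ} (hs : s ∈ Metric.ball (s₀ + (((n : ℝ) * L.ρ + l : ℝ) : ℂ)) r) :
    HolAt (gg f L.ρ g n l) s := by
  have h1 : HolAt (fun z : ℂ => g (z - (((n : ℝ) * L.ρ + l : ℝ) : ℂ))) s := by
    have := holAt_translate (G := g) (s := s) (t := -(((n : ℝ) * L.ρ + l : ℝ) : ℂ))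
      (hg _ (by rw [← sub_eq_add_neg]; exact sub_mem_ball hs))
    simpa only [← sub_eq_add_neg] using this
  exact (holAt_iterate hf n _).comp h1

theorem gg_eq (hf : ∀ p, HolAt f p) (h : IsExt L U a b G)
    (hgG : ∀ s ∈ Metric.ball s₀ r ∩ SS a b, g s = G s) (n : ℕ) (l : ℤ)
    {s : ℂ} (hs : s ∈ Metric.ball (s₀ + (((n : ℝ) * L.ρ + l : ℝ) : ℂ)) r) (hs' : s ∈ SS a b) :
    gg f L.ρ g n l s = G s := by
  have h1 : s - (((n : ℝ) * L.ρ + l : ℝ) : ℂ) ∈ SS a b := by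
    have := (mem_SS_add (a := a) (b := b) (s := s) (-((n : ℝ) * L.ρ + l))).mpr hs'
    rw [Complex.ofReal_neg, ← sub_eq_add_neg] at this
    exact this
  rw [gg, hgG _ ⟨sub_mem_ball hs, h1⟩, h.semi_iter hf n _ h1]
  have h2 : s - (((n : ℝ) * L.ρ + l : ℝ) : ℂ) + n * L.ρ = s + ((-l : ℤ) : ℂ) := by
    push_cast; ring
  rw [h2, h.per_int _ _ hs']

theorem gg_agree (hf : ∀ p, HolAt f p) (h : IsExt L U a b G) (ha : a ≤ (s₀.im : ℝ))
    (hb : ((s₀.im : ℝ) : EReal) ≤ b) (hg : ∀ s ∈ Metric.ball s₀ r, HolAt g s)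
    (hgG : ∀ s ∈ Metric.ball s₀ r ∩ SS a b, g s = G s) (n : ℕ) (l : ℤ) (n' : ℕ) (l' : ℤ)
    {s : ℂ} (hs : s ∈ Metric.ball (s₀ + (((n : ℝ) * L.ρ + l : ℝ) : ℂ)) r)
    (hs' : s ∈ Metric.ball (s₀ + (((n' : ℝ) * L.ρ + l' : ℝ) : ℂ)) r) :
    gg f L.ρ g n l s = gg f L.ρ g n' l' s := by
  set t : ℝ := (n : ℝ) * L.ρ + l with ht
  set t' : ℝ := (n' : ℝ) * L.ρ + l' with ht'
  set O : Set ℂ := Metric.ball (s₀ + (t : ℂ)) r ∩ Metric.ball (s₀ + (t' : ℂ)) r with hO
  have hOc : IsPreconnected O := ((convex_ball _ _).inter (convex_ball _ _)).isPreconnected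
  have hOo : IsOpen O := Metric.isOpen_ball.inter Metric.isOpen_ball
  -- the midpoint of the centres
  have hd : |t - t'| < 2 * r := by
    have h1 : dist (s₀ + (t : ℂ)) (s₀ + (t' : ℂ)) < r + r := by
      calc dist (s₀ + (t : ℂ)) (s₀ + (t' : ℂ)) ≤ dist (s₀ + (t : ℂ)) s + dist s (s₀ + (t' : ℂ)) :=
            dist_triangle _ _ _
        _ < r + r := by
            rw [Metric.mem_ball] at hs hs'
            rw [dist_comm] at hs
            exact add_lt_add hs hs'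
    rw [dist_add_left, Complex.dist_eq, ← Complex.ofReal_sub, Complex.norm_real,
      Real.norm_eq_abs] at h1
    linarith
  have hm : s₀ + (((t + t') / 2 : ℝ) : ℂ) ∈ O := by
    constructor
    · rw [Metric.mem_ball, dist_add_left, Complex.dist_eq, ← Complex.ofReal_sub,
        Complex.norm_real, Real.norm_eq_abs]
      have : (t + t') / 2 - t = -((t - t') / 2) := by ring
      rw [this, abs_neg, abs_div, abs_two]
      linarith
    · rw [Metric.mem_ball, dist_add_left, Complex.dist_eq, ← Complex.ofReal_sub,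
        Complex.norm_real, Real.norm_eq_abs]
      have : (t + t') / 2 - t' = (t - t') / 2 := by ring
      rw [this, abs_div, abs_two]
      linarith
  obtain ⟨δ, hδ, hδO⟩ := Metric.isOpen_iff.mp hOo _ hm
  obtain ⟨y, hy, hya, hyb⟩ := exists_near h.lt ha hb hδ
  set s₁ : ℂ := s₀ + (((t + t') / 2 : ℝ) : ℂ) + (((y - s₀.im : ℝ)) : ℂ) * Complex.I with hs₁
  have hs₁O : s₁ ∈ O := by
    apply hδO
    rw [Metric.mem_ball, dist_eq_norm, hs₁, add_sub_cancel_left, norm_mul, Complex.norm_I,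
      mul_one, Complex.norm_real, Real.norm_eq_abs]
    exact hy
  have him : s₁.im = y := by
    simp [hs₁]
  have hs₁S : s₁ ∈ SS a b := by
    rw [SS, mem_ofPred_eq, him]; exact ⟨hya, hyb⟩
  have key : EqOn (gg f L.ρ g n l) (gg f L.ρ g n' l') O := by
    refine HolAt.eqOn_of_preconnected hOc (fun z hz => holAt_gg hf hg n l hz.1)
      (fun z hz => holAt_gg hf hg n' l' hz.2) hs₁O ?_
    apply frequently_of_eventually_nhds
    filter_upwards [hOo.mem_nhds hs₁O, (isOpen_SS a b).mem_nhds hs₁S] with z hz hz'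
    rw [gg_eq hf h hgG n l hz.1 hz', gg_eq hf h hgG n' l' hz.2 hz']
  exact key ⟨hs, hs'⟩

theorem glue (hf : ∀ p, HolAt f p) (hU : GoodDomain f L U) (h : IsExt L U a b G)
    (ha : a ≤ (s₀.im : ℝ)) (hb : ((s₀.im : ℝ) : EReal) ≤ b) (hr : 0 < r)
    (hg : ∀ s ∈ Metric.ball s₀ r, HolAt g s) (hgU : ∀ s ∈ Metric.ball s₀ r, g s ∈ U)
    (hgG : ∀ s ∈ Metric.ball s₀ r ∩ SS a b, g s = G s) :
    ∃ G', IsExt L U (min a ((s₀.im - r / 2 : ℝ) : EReal)) (max b ((s₀.im + r / 2 : ℝ) : EReal))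
      G' := by
  classical
  let G' : ℂ → P := fun s => if s ∈ SS a b then G s else
    if hs : ∃ (n : ℕ) (l : ℤ), s ∈ Metric.ball (s₀ + (((n : ℝ) * L.ρ + l : ℝ) : ℂ)) r then
      gg f L.ρ g hs.choose hs.choose_spec.choose s else G 0
  have hG1 : ∀ s ∈ SS a b, G' s = G s := fun s hs => if_pos hs
  have hG2 : ∀ (n : ℕ) (l : ℤ), ∀ s ∈ Metric.ball (s₀ + (((n : ℝ) * L.ρ + l : ℝ) : ℂ)) r,
      G' s = gg f L.ρ g n l s := by
    intro n l s hs
    by_cases h1 : s ∈ SS a b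
    · rw [hG1 s h1, gg_eq hf h hgG n l hs h1]
    · have hex : ∃ (n : ℕ) (l : ℤ), s ∈ Metric.ball (s₀ + (((n : ℝ) * L.ρ + l : ℝ) : ℂ)) r :=
        ⟨n, l, hs⟩
      have h2 : G' s = gg f L.ρ g hex.choose hex.choose_spec.choose s := by
        simp only [G', if_neg h1, dif_pos hex]
      rw [h2]
      exact gg_agree hf h ha hb hg hgG _ _ _ _ hex.choose_spec.choose_spec hs
  -- covering
  have hcov : ∀ s ∈ SS (min a ((s₀.im - r / 2 : ℝ) : EReal)) (max b ((s₀.im + r / 2 : ℝ) : EReal)),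
      s ∈ SS a b ∨ ∃ (n : ℕ) (l : ℤ), s ∈ Metric.ball (s₀ + (((n : ℝ) * L.ρ + l : ℝ) : ℂ)) r := by
    rintro s ⟨hs1, hs2⟩
    by_cases h1 : s ∈ SS a b
    · exact Or.inl h1
    · right
      have him : |s.im - s₀.im| < r / 2 := by
        have h3 : ((s₀.im - r / 2 : ℝ) : EReal) < ((s.im : ℝ) : EReal) := by
          rcases min_lt_iff.mp hs1 with h4 | h4
          · have h5 : b ≤ ((s.im : ℝ) : EReal) := by
              by_contra h6
              exact h1 ⟨h4, not_le.mp h6⟩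
            refine lt_of_lt_of_le ?_ (hb.trans h5)
            exact EReal.coe_lt_coe_iff.mpr (by linarith)
          · exact h4
        have h4 : ((s.im : ℝ) : EReal) < ((s₀.im + r / 2 : ℝ) : EReal) := by
          rcases lt_max_iff.mp hs2 with h4 | h4
          · have h5 : ((s.im : ℝ) : EReal) ≤ a := by
              by_contra h6
              exact h1 ⟨not_le.mp h6, h4⟩
            refine lt_of_le_of_lt (h5.trans ha) ?_
            exact EReal.coe_lt_coe_iff.mpr (by linarith)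
          · exact h4
        have h5 := EReal.coe_lt_coe_iff.mp h3
        have h6 := EReal.coe_lt_coe_iff.mp h4
        exact abs_lt.mpr ⟨by linarith, by linarith⟩
      obtain ⟨n, l, hnl⟩ := exists_dense L.irr (half_pos hr) (s.re - s₀.re)
      refine ⟨n, l, ?_⟩
      rw [Metric.mem_ball, dist_eq_norm]
      refine (Complex.norm_le_abs_re_add_abs_im _).trans_lt ?_
      have e1 : (s - (s₀ + (((n : ℝ) * L.ρ + l : ℝ) : ℂ))).re =
          s.re - s₀.re - ((n : ℝ) * L.ρ + l) := by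
        rw [Complex.sub_re, Complex.add_re, Complex.ofReal_re]; ring
      have e2 : (s - (s₀ + (((n : ℝ) * L.ρ + l : ℝ) : ℂ))).im = s.im - s₀.im := by
        rw [Complex.sub_im, Complex.add_im, Complex.ofReal_im]; ring
      rw [e1, e2]
      linarith
  refine ⟨G', (min_le_left _ _).trans h.ha, h.hb.trans (le_max_left _ _), ?_, ?_, ?_⟩
  · intro s hs
    rcases hcov s hs with h1 | ⟨n, l, h1⟩
    · refine (h.hol s h1).congr ?_
      filter_upwards [(isOpen_SS a b).mem_nhds h1] with z hz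
      exact (hG1 z hz).symm
    · refine (holAt_gg hf hg n l h1).congr ?_
      filter_upwards [Metric.isOpen_ball.mem_nhds h1] with z hz
      exact (hG2 n l z hz).symm
  · intro s hs
    rcases hcov s hs with h1 | ⟨n, l, h1⟩
    · rw [hG1 s h1]; exact h.mem s h1
    · rw [hG2 n l s h1]
      exact iterate_mem hU (hgU _ (sub_mem_ball h1)) n
  · intro s hs
    rw [hG1 s (h.strip_sub hs)]
    exact h.eq s hs

end Glue

/-! ### The closure of the image -/

section Closure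

variable {k : ℕ} {ψ : P → ℂ} {a b : EReal} {G : ℂ → P}

theorem image_eq (h : IsExt L U a b G) :
    G '' SS a b = G '' (SS a b ∩ {s | 0 ≤ s.re ∧ s.re ≤ 1}) := by
  apply subset_antisymm
  · rintro _ ⟨s, hs, rfl⟩
    have h1 : s + ((-⌊s.re⌋ : ℤ) : ℂ) ∈ SS a b := by
      have := (mem_SS_add (a := a) (b := b) (s := s) ((-⌊s.re⌋ : ℤ) : ℝ)).mpr hs
      simpa using this
    refine ⟨s + ((-⌊s.re⌋ : ℤ) : ℂ), ⟨h1, ?_⟩, h.per_int _ s hs⟩
    have e1 : (s + ((-⌊s.re⌋ : ℤ) : ℂ)).re = s.re - ⌊s.re⌋ := by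
      simp [sub_eq_add_neg]
    rw [mem_ofPred_eq, e1]
    constructor
    · linarith [Int.floor_le s.re]
    · linarith [Int.lt_floor_add_one s.re]
  · exact image_mono inter_subset_left

/-- An ultrafilter in the strip, along which `G` tends to a given point of the closure. -/
theorem exists_ultrafilter (h : IsExt L U a b G) {x : P} (hx : x ∈ closure (G '' SS a b)) :
    ∃ 𝒱 : Ultrafilter ℂ, Tendsto G 𝒱 (𝓝 x) ∧ SS a b ∈ 𝒱 ∧ {s : ℂ | 0 ≤ s.re ∧ s.re ≤ 1} ∈ 𝒱 := by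
  rw [image_eq h] at hx
  set S' := SS a b ∩ {s : ℂ | 0 ≤ s.re ∧ s.re ≤ 1} with hS'
  have h1 : (𝓝[G '' S'] x).NeBot := mem_closure_iff_nhdsWithin_neBot.mp hx
  have h2 : (comap G (𝓝[G '' S'] x) ⊓ 𝓟 S').NeBot :=
    Filter.comap_inf_principal_neBot_of_image_mem h1 self_mem_nhdsWithin
  have h3 : (Ultrafilter.of (comap G (𝓝[G '' S'] x) ⊓ 𝓟 S') : Filter ℂ) ≤
      comap G (𝓝[G '' S'] x) ⊓ 𝓟 S' := Ultrafilter.of_le _
  have h4 : S' ∈ Ultrafilter.of (comap G (𝓝[G '' S'] x) ⊓ 𝓟 S') :=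
    h3 (mem_inf_of_right (mem_principal_self S'))
  refine ⟨Ultrafilter.of (comap G (𝓝[G '' S'] x) ⊓ 𝓟 S'), ?_, ?_, ?_⟩
  · refine (tendsto_comap.mono_left (h3.trans inf_le_left)).mono_right nhdsWithin_le_nhds
  · exact mem_of_superset h4 inter_subset_left
  · exact mem_of_superset h4 inter_subset_right

theorem tendsto_Ex (h : IsExt L U a b G) (hψ : ∀ z ∈ U, HolAt ψ z)
    (hψG : ∀ s ∈ strip L.ε, ψ (L.G s) = Ex k s) {x : P} (hx : x ∈ U) {𝒱 : Filter ℂ}
    (h1 : Tendsto G 𝒱 (𝓝 x)) (h2 : SS a b ∈ 𝒱) : Tendsto (Ex k) 𝒱 (𝓝 (ψ x)) := by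
  refine ((hψ x hx).1.tendsto.comp h1).congr' ?_
  filter_upwards [h2] with s hs
  exact h.psi hψ hψG s hs

theorem mem_of_ne_zero (hf : ∀ p, HolAt f p) (hU : GoodDomain f L U) (hk : 1 ≤ k)
    (h : IsExt L U a b G)
    (hmax : ∀ (a' b' : EReal) (G' : ℂ → P), IsExt L U a' b' G' → a ≤ a' ∧ b' ≤ b)
    (hψ : ∀ z ∈ U, HolAt ψ z)
    (hψf : ∀ z ∈ U, ψ (f z) = Complex.exp (2 * Real.pi * Complex.I * k * L.ρ) * ψ z)
    (hψG : ∀ s ∈ strip L.ε, ψ (L.G s) = Ex k s) {x : P} (hx : x ∈ U)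
    (hxc : x ∈ closure (G '' SS a b)) (h0 : ψ x ≠ 0) : x ∈ G '' SS a b := by
  obtain ⟨𝒱, h1, h2, h3⟩ := exists_ultrafilter h hxc
  have h4 := tendsto_Ex h hψ hψG hx h1 h2
  have hkpos : (0 : ℝ) < k := by exact_mod_cast hk
  -- imaginary parts
  set y₀ : ℝ := -Real.log ‖ψ x‖ / (2 * Real.pi * k) with hy₀
  have h5 : Tendsto (fun s : ℂ => s.im) 𝒱 (𝓝 y₀) := by
    have h6 : Tendsto (fun s : ℂ => Real.log ‖Ex k s‖) 𝒱 (𝓝 (Real.log ‖ψ x‖)) :=
      h4.norm.log (norm_ne_zero_iff.mpr h0)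
    have h7 := (h6.neg).div_const (2 * Real.pi * k)
    refine h7.congr ?_
    intro s
    rw [norm_Ex, Real.log_exp]
    have := Real.pi_pos
    field_simp
  -- real parts
  obtain ⟨ξ, -, hξ⟩ : ∃ ξ ∈ Icc (0 : ℝ) 1, Tendsto (fun s : ℂ => s.re) 𝒱 (𝓝 ξ) := by
    have := (isCompact_Icc (a := (0 : ℝ)) (b := 1)).ultrafilter_le_nhds
      (𝒱.map fun s : ℂ => s.re) (by
        rw [le_principal_iff]
        exact mem_of_superset h3 fun s hs => hs)
    exact this
  set s₀ : ℂ := ξ + y₀ * Complex.I with hs₀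
  have him : s₀.im = y₀ := by simp [hs₀]
  have h6 : Tendsto (fun s : ℂ => s) 𝒱 (𝓝 s₀) := by
    have h7 : Tendsto (fun s : ℂ => (s.re : ℂ) + s.im * Complex.I) 𝒱 (𝓝 s₀) := by
      refine Tendsto.add ?_ (Tendsto.mul_const _ ?_)
      · exact (Complex.continuous_ofReal.tendsto ξ).comp hξ
      · exact (Complex.continuous_ofReal.tendsto y₀).comp h5
    refine h7.congr fun s => ?_
    exact Complex.re_add_im s
  have h5' : Tendsto (fun s : ℂ => ((s.im : ℝ) : EReal)) 𝒱 (𝓝 ((s₀.im : ℝ) : EReal)) := by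
    rw [him]
    exact (continuous_coe_real_ereal.tendsto y₀).comp h5
  have ha : a ≤ ((s₀.im : ℝ) : EReal) := by
    refine ge_of_tendsto h5' ?_
    filter_upwards [h2] with s hs using hs.1.le
  have hb : ((s₀.im : ℝ) : EReal) ≤ b := by
    refine le_of_tendsto h5' ?_
    filter_upwards [h2] with s hs using hs.2.le
  have hE : Ex k s₀ = ψ x :=
    tendsto_nhds_unique (((analyticAt_Ex k s₀).continuousAt.tendsto).comp h6) h4
  -- the local extension
  obtain ⟨N, κ, hNo, hxN, hNU, hNi, hκ, hκh⟩ :=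
    exists_local_inverse hU hψ hx (locInj_of_ne_zero hf hU hk hψ hψf hψG hx h0)
  have h7 : (Ex k) ⁻¹' (ψ '' N) ∈ 𝓝 s₀ := by
    apply (analyticAt_Ex k s₀).continuousAt
    rw [hE]
    exact hNi.mem_nhds ⟨x, hxN, rfl⟩
  obtain ⟨r, hr, hball⟩ := Metric.mem_nhds_iff.mp h7
  have hg : ∀ s ∈ Metric.ball s₀ r, HolAt (fun s => κ (Ex k s)) s := by
    intro s hs
    obtain ⟨y, hy, hys⟩ := hball hs
    refine HolAt.comp (g := κ) (f := Ex k) ?_ (holAt_iff_analyticAt.mpr (analyticAt_Ex k s))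
    rw [← hys]; exact hκh y hy
  have hgU : ∀ s ∈ Metric.ball s₀ r, κ (Ex k s) ∈ U := by
    intro s hs
    obtain ⟨y, hy, hys⟩ := hball hs
    rw [← hys, hκ y hy]
    exact hNU hy
  have hgG : ∀ s ∈ Metric.ball s₀ r ∩ SS a b, κ (Ex k s) = G s := by
    have h8 : ∀ᶠ s in (𝒱 : Filter ℂ), s ∈ Metric.ball s₀ r ∧ s ∈ SS a b ∧ G s ∈ N :=
      (h6.eventually_mem (Metric.ball_mem_nhds s₀ hr)).and
        (Filter.Eventually.and h2 (h1.eventually_mem (hNo.mem_nhds hxN)))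
    obtain ⟨s₁, hs₁, hs₁', hs₁N⟩ := h8.exists
    have hc : IsPreconnected (Metric.ball s₀ r ∩ SS a b) :=
      ((convex_ball _ _).inter (convex_SS a b)).isPreconnected
    refine HolAt.eqOn_of_preconnected hc (fun s hs => hg s hs.1) (fun s hs => h.hol s hs.2)
      ⟨hs₁, hs₁'⟩ ?_
    apply frequently_of_eventually_nhds
    filter_upwards [(h.hol s₁ hs₁').1 (hNo.mem_nhds hs₁N), (isOpen_SS a b).mem_nhds hs₁']
      with s hs hs'
    rw [← h.psi hψ hψG s hs', hκ _ hs]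
  obtain ⟨G', hG'⟩ := glue hf hU h ha hb hr hg hgU hgG
  obtain ⟨h8, h9⟩ := hmax _ _ _ hG'
  have hs₀S : s₀ ∈ SS a b := by
    constructor
    · refine lt_of_le_of_lt (h8.trans (min_le_right _ _)) ?_
      exact EReal.coe_lt_coe_iff.mpr (by linarith)
    · refine lt_of_lt_of_le ?_ ((le_max_right _ _).trans h9)
      exact EReal.coe_lt_coe_iff.mpr (by linarith)
  refine ⟨s₀, hs₀S, ?_⟩
  exact tendsto_nhds_unique ((h.hol s₀ hs₀S).1.tendsto.comp h6) h1

theorem tendsto_of_eq_zero (hU : GoodDomain f L U) (hk : 1 ≤ k)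
    (h : IsExt L U a b G) (hψ : ∀ z ∈ U, HolAt ψ z)
    (hψG : ∀ s ∈ strip L.ε, ψ (L.G s) = Ex k s) {x : P} (hx : x ∈ U)
    (hxc : x ∈ closure (G '' SS a b)) (h0 : ψ x = 0) :
    b = ⊤ ∧ Tendsto G (comap Complex.im atTop) (𝓝 x) := by
  obtain ⟨𝒱, h1, h2, h3⟩ := exists_ultrafilter h hxc
  have h4 := tendsto_Ex h hψ hψG hx h1 h2
  have hkpos : (0 : ℝ) < k := by exact_mod_cast hk
  have hc : (0 : ℝ) < 2 * Real.pi * k := by have := Real.pi_pos; positivity
  have h5 : Tendsto (fun s : ℂ => s.im) 𝒱 atTop := by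
    have h6 := h4.norm
    rw [h0, norm_zero] at h6
    simp_rw [norm_Ex] at h6
    rw [Real.tendsto_exp_comp_nhds_zero, tendsto_neg_atBot_iff] at h6
    exact (tendsto_const_mul_atTop_of_pos hc).mp h6
  have hb : b = ⊤ := by
    rw [EReal.eq_top_iff_forall_lt]
    intro Y
    have h6 : ∀ᶠ s in (𝒱 : Filter ℂ), Y < s.im ∧ s ∈ SS a b :=
      (h5.eventually_gt_atTop Y).and h2
    obtain ⟨s, hs, hs'⟩ := h6.exists
    exact (EReal.coe_lt_coe_iff.mpr hs).trans hs'.2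
  refine ⟨hb, ?_⟩
  -- a small disc
  rw [tendsto_def]
  intro W hW
  obtain ⟨e, he, hxe⟩ := RS.exists_chart x
  have hiso : ∀ᶠ z in 𝓝[≠] x, ψ z ≠ 0 := by
    rcases (hψ x hx).eventually_eq_or_ne (holAt_const (0 : ℂ) x) with h6 | h6
    · exact absurd (h6.mono fun z hz => by rw [hz, h0]) (not_const hU hk hψ hψG hx)
    · exact h6
  rw [eventually_nhdsWithin_iff] at hiso
  obtain ⟨r, hr, hr1, hr2, hr3, hr4⟩ := exists_disc
    (inter_mem (inter_mem hW (hU.isOpen.mem_nhds hx)) hiso) hxe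
  -- the circle
  have hKc : IsCompact (e.symm '' Metric.sphere (e x) r) := by
    refine (isCompact_sphere _ _).image_of_continuousOn ?_
    exact e.continuousOn_symm.mono (Metric.sphere_subset_closedBall.trans hr1)
  have hDc : IsCompact (e.symm '' Metric.closedBall (e x) r) := by
    refine (isCompact_closedBall _ _).image_of_continuousOn ?_
    exact e.continuousOn_symm.mono hr1
  have hKpos : ∀ z ∈ e.symm '' Metric.sphere (e x) r, 0 < ‖ψ z‖ := by
    rintro _ ⟨w, hw, rfl⟩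
    rw [norm_pos_iff]
    refine (hr2 ⟨w, Metric.sphere_subset_closedBall hw, rfl⟩).2 ?_
    intro h7
    have h8 : e.symm w = x := h7
    have h9 : w = e x := by
      rw [← h8, e.right_inv (hr1 (Metric.sphere_subset_closedBall hw))]
    rw [h9, Metric.mem_sphere, dist_self] at hw
    linarith
  have hKcont : ContinuousOn (fun z => ‖ψ z‖) (e.symm '' Metric.sphere (e x) r) := by
    intro z hz
    have h7 : z ∈ U := (hr2 (image_mono Metric.sphere_subset_closedBall hz)).1.2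
    exact (hψ z h7).1.norm.continuousWithinAt
  obtain ⟨μ, hμ, hμK⟩ : ∃ μ : ℝ, 0 < μ ∧ ∀ z ∈ e.symm '' Metric.sphere (e x) r, μ ≤ ‖ψ z‖ := by
    rcases (e.symm '' Metric.sphere (e x) r).eq_empty_or_nonempty with h7 | h7
    · exact ⟨1, one_pos, by rw [h7]; simp⟩
    · obtain ⟨z, hz, hmin⟩ := hKc.exists_isMinOn h7 hKcont
      exact ⟨‖ψ z‖, hKpos z hz, fun w hw => hmin hw⟩
  -- height
  have h7 : Tendsto (fun Y : ℝ => Real.exp (-(2 * Real.pi * k * Y))) atTop (𝓝 0) := by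
    rw [Real.tendsto_exp_comp_nhds_zero, tendsto_neg_atBot_iff]
    exact tendsto_id.const_mul_atTop hc
  obtain ⟨Y, hY1, hY2⟩ := ((h7.eventually (gt_mem_nhds hμ)).and (eventually_ge_atTop 0)).exists
  have hTS : {s : ℂ | Y < s.im} ⊆ SS a b := by
    intro s hs
    have h8 : (Y : ℝ) < s.im := hs
    refine ⟨lt_of_le_of_lt h.ha (EReal.coe_lt_coe_iff.mpr (by linarith [L.ε_pos])), ?_⟩
    rw [hb]; exact EReal.coe_lt_top _
  have hTc : IsPreconnected (G '' {s : ℂ | Y < s.im}) := by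
    refine (convex_halfSpace_im_gt Y).isPreconnected.image _ ?_
    intro s hs
    exact (h.hol s (hTS hs)).1.continuousWithinAt
  have hsub : G '' {s : ℂ | Y < s.im} ⊆ e.symm '' Metric.ball (e x) r := by
    refine hTc.subset_left_of_subset_union hr3 hDc.isClosed.isOpen_compl ?_ ?_ ?_
    · rw [disjoint_compl_right_iff_subset]
      exact image_mono Metric.ball_subset_closedBall
    · rintro _ ⟨s, hs, rfl⟩
      by_cases h8 : G s ∈ e.symm '' Metric.closedBall (e x) r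
      · left
        obtain ⟨w, hw, hws⟩ := h8
        refine ⟨w, ?_, hws⟩
        rcases lt_or_eq_of_le (Metric.mem_closedBall.mp hw) with h9 | h9
        · exact h9
        · exfalso
          have h10 := hμK (G s) ⟨w, h9, hws⟩
          rw [h.psi hψ hψG s (hTS hs), norm_Ex] at h10
          have h11 : Real.exp (-(2 * Real.pi * k * s.im)) ≤ Real.exp (-(2 * Real.pi * k * Y)) := by
            apply Real.exp_le_exp.mpr
            have : Y < s.im := hs
            nlinarith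
          linarith
      · exact Or.inr h8
    · have h8 : ∀ᶠ s in (𝒱 : Filter ℂ), Y < s.im ∧ G s ∈ e.symm '' Metric.ball (e x) r :=
        (h5.eventually_gt_atTop Y).and (h1 (hr3.mem_nhds hr4))
      obtain ⟨s, hs, hs'⟩ := h8.exists
      exact ⟨G s, ⟨s, hs, rfl⟩, hs'⟩
  rw [mem_comap]
  refine ⟨Ioi Y, Ioi_mem_atTop Y, fun s hs => ?_⟩
  have h8 := hsub ⟨s, hs, rfl⟩
  exact (hr2 (image_mono Metric.ball_subset_closedBall h8)).1.1

end Closure

end MaximalExt

open MaximalExt in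
theorem GoodDomain.exists_maximal {f : P → P} (hf : ∀ p, HolAt f p) {L : LinCurve f} {U : Set P}
    (hU : GoodDomain f L U) {k : ℕ} (hk : 1 ≤ k) {ψ : P → ℂ}
    (hψ : ∀ z ∈ U, HolAt ψ z)
    (hψf : ∀ z ∈ U, ψ (f z) = Complex.exp (2 * Real.pi * Complex.I * k * L.ρ) * ψ z)
    (hψG : ∀ s ∈ strip L.ε, ψ (L.G s) = Complex.exp (2 * Real.pi * Complex.I * k * s)) :
    ∃ (a b : EReal) (G : ℂ → P), a ≤ (-L.ε : ℝ) ∧ (L.ε : ℝ) ≤ b ∧
      (∀ s : ℂ, a < (s.im : ℝ) → (s.im : ℝ) < b → HolAt G s ∧ G s ∈ U ∧ f (G s) = G (s + L.ρ)) ∧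
      (∀ s, G (s + 1) = G s) ∧ (∀ s ∈ strip L.ε, G s = L.G s) ∧
      (∀ s s' : ℂ, a < (s.im : ℝ) → (s.im : ℝ) < b → a < (s'.im : ℝ) → (s'.im : ℝ) < b →
        G s = G s' → ∃ j : ℤ, s' = s + j) ∧
      (U = G '' {s : ℂ | a < (s.im : ℝ) ∧ (s.im : ℝ) < b} ∨
        (b = ⊤ ∧ ∃ x ∈ U, U = insert x (G '' {s : ℂ | a < (s.im : ℝ)}) ∧
          (∀ s : ℂ, a < (s.im : ℝ) → G s ≠ x) ∧
          Tendsto G (comap Complex.im atTop) (𝓝 x))) := by
  obtain ⟨a, b, G, h, hout, hmax⟩ := exists_max hU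
  have hψG' : ∀ s ∈ strip L.ε, ψ (L.G s) = Ex k s := hψG
  have hinj := h.inj hf hψ hψG' hk
  refine ⟨a, b, G, h.ha, h.hb, fun s h1 h2 => ⟨h.hol s ⟨h1, h2⟩, h.mem s ⟨h1, h2⟩,
    h.semi hf s ⟨h1, h2⟩⟩, ?_, h.eq, fun s s' h1 h2 h3 h4 h5 => hinj s ⟨h1, h2⟩ s' ⟨h3, h4⟩ h5, ?_⟩
  · intro s
    by_cases hs : s ∈ SS a b
    · exact h.per s hs
    · have hs' : s + 1 ∉ SS a b := by
        intro h1
        apply hs
        have := (mem_SS_add (a := a) (b := b) (s := s) (1 : ℝ)).mp (by simpa using h1)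
        exact this
      rw [hout s hs, hout _ hs']
  · -- the image is open
    have hAo : IsOpen (G '' SS a b) := by
      rw [isOpen_iff_mem_nhds]
      rintro _ ⟨s, hs, rfl⟩
      have h1 : InjOn G (Metric.ball s (1 / 2) ∩ SS a b) := by
        rintro u ⟨hu, hu'⟩ v ⟨hv, hv'⟩ huv
        obtain ⟨j, hj⟩ := hinj u hu' v hv' huv
        have h2 : dist u v < 1 := by
          have := dist_triangle_right u v s
          rw [Metric.mem_ball] at hu hv
          linarith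
        rw [hj, dist_self_add_right, Complex.norm_intCast] at h2
        have h3 : |j| < 1 := by exact_mod_cast h2
        have h4 : j = 0 := Int.abs_lt_one_iff.mp h3
        rw [hj, h4]; simp
      rw [← (h.hol s hs).map_nhds_of_injOn (inter_mem (Metric.ball_mem_nhds s (by norm_num))
        ((isOpen_SS a b).mem_nhds hs)) h1]
      exact image_mem_map ((isOpen_SS a b).mem_nhds hs)
    have h0 : (0 : ℂ) ∈ strip L.ε := by simpa using zero_mem_strip L.ε_pos 0
    have hAU : G '' SS a b ⊆ U := by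
      rintro _ ⟨s, hs, rfl⟩
      exact h.mem s hs
    by_cases hcl : closure (G '' SS a b) ∩ U ⊆ G '' SS a b
    · left
      apply subset_antisymm _ hAU
      exact hU.conn.subset_of_closure_inter_subset hAo
        ⟨G 0, h.mem 0 (h.strip_sub h0), 0, h.strip_sub h0, rfl⟩ hcl
    · right
      obtain ⟨x, ⟨hxc, hxU⟩, hxA⟩ := not_subset.mp hcl
      have hx0 : ψ x = 0 := by
        by_contra hne
        exact hxA (mem_of_ne_zero hf hU hk h hmax hψ hψf hψG' hxU hxc hne)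
      obtain ⟨hb, hlim⟩ := tendsto_of_eq_zero hU hk h hψ hψG' hxU hxc hx0
      have hSS : SS a b = {s : ℂ | a < (s.im : ℝ)} := by
        ext s
        simp [SS, hb]
      refine ⟨hb, x, hxU, ?_, ?_, hlim⟩
      · rw [← hSS]
        have hne : (comap Complex.im atTop : Filter ℂ).NeBot := by
          refine Filter.comap_neBot ?_
          intro t ht
          obtain ⟨y, hy⟩ := Filter.nonempty_of_mem ht
          exact ⟨⟨0, y⟩, hy⟩
        apply subset_antisymm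
        · have h1 : U \ {x} ⊆ G '' SS a b := by
            refine (isPreconnected_diff_singleton hU.isOpen hU.conn x).subset_of_closure_inter_subset
              hAo ⟨G 0, ⟨h.mem 0 (h.strip_sub h0), ?_⟩, 0, h.strip_sub h0, rfl⟩ ?_
            · intro h2
              apply hxA
              rw [← (show G 0 = x from h2)]
              exact ⟨0, h.strip_sub h0, rfl⟩
            · rintro z ⟨hzc, hzU, hzx⟩
              by_contra hzA
              have hz0 : ψ z = 0 := by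
                by_contra hne
                exact hzA (mem_of_ne_zero hf hU hk h hmax hψ hψf hψG' hzU hzc hne)
              have h2 := (tendsto_of_eq_zero hU hk h hψ hψG' hzU hzc hz0).2
              exact hzx (tendsto_nhds_unique h2 hlim)
          intro z hz
          by_cases hzx : z = x
          · exact Or.inl hzx
          · exact Or.inr (h1 ⟨hz, hzx⟩)
        · rintro z (rfl | hz)
          · exact hxU
          · exact hAU hz
      · intro s hs h1
        apply hxA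
        rw [← h1]
        exact ⟨s, by rw [hSS]; exact hs, rfl⟩

end Pool.Agent.Lib.MP_1f4a82_an
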