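import Pool.Agent.Lib.MP_1f4a82_an.Linear
import Pool.Agent.Lib.MP_1f4a82_an.Fatou
import Pool.Agent.Lib.MP_1f4a82_an.Eigen
import Pool.Agent.Lib.MP_1f4a82_an.Maximal
import Pool.Agent.Lib.MP_1f4a82_an.Ends

/-!
A stable invariant curve is a level curve of the linearizer of a rotation domain.
-/

open Topology Filter Set

namespace Pool.Agent.Lib.MP_1f4a82_an

/-- The curve with the reversed parametrisation. -/
noncomputable def LinCurve.reflect {f : P → P} (L : LinCurve f) : LinCurve f where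
  G := fun s => L.G (-s)
  ε := L.ε
  ρ := -L.ρ
  ε_pos := L.ε_pos
  hol := by
    intro s hs
    have h1 : HolAt (fun z : ℂ => -z) s := holAt_iff_analyticAt.mpr analyticAt_id.neg
    exact HolAt.comp (g := L.G) (L.hol (-s) (by simpa [strip] using hs)) h1
  per := by
    intro s
    have := L.per (-(s + 1))
    rw [← this]; congr 1; ring
  inj := by
    intro s hs s' hs' h
    obtain ⟨k, hk⟩ := L.inj (-s) (by simpa [strip] using hs) (-s') (by simpa [strip] using hs') h
    refine ⟨-k, ?_⟩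
    push_cast
    linear_combination -hk
  irr := L.irr.neg
  semi := by
    intro s hs
    rw [L.semi (-s) (by simpa [strip] using hs)]
    congr 1
    push_cast; ring

theorem LinCurve.exists_linearizer_of_pos {f : P → P} (hf : ∀ p, HolAt f p)
    (hni : ¬ Function.Injective f) (L : LinCurve f) {k : ℕ} (hk : 1 ≤ k) {ψ : P → ℂ}
    (hψ : ∀ z ∈ connectedComponentIn (FatouSet f) (L.G 0), HolAt ψ z)
    (hψf : ∀ z ∈ connectedComponentIn (FatouSet f) (L.G 0),
      ψ (f z) = Complex.exp (2 * Real.pi * Complex.I * k * L.ρ) * ψ z)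
    (hψG : ∀ s ∈ strip L.ε, ψ (L.G s) = Complex.exp (2 * Real.pi * Complex.I * k * s)) :
    ∃ (U : Set P) (φ : P → ℂ) (α : ℝ), IsLinearizer f U φ α ∧
      (range fun x : ℝ => L.G x) = {z | z ∈ U ∧ ‖φ z‖ = 1} := by
  have hU := L.goodDomain hf hni
  obtain ⟨a, b, G, ha, hb, h1, h2, h3, h4, h5⟩ := hU.exists_maximal hf hk hψ hψf hψG
  obtain ⟨φ, h6, h7⟩ := linearizer_of_maximal hf hni hU ha hb h1 h2 h3 h4 h5
  exact ⟨_, φ, _, h6, h7⟩

theorem LinCurve.exists_linearizer {f : P → P} (hf : ∀ p, HolAt f p)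
    (hni : ¬ Function.Injective f) (L : LinCurve f) :
    ∃ (U : Set P) (φ : P → ℂ) (α : ℝ), IsLinearizer f U φ α ∧
      (range fun x : ℝ => L.G x) = {z | z ∈ U ∧ ‖φ z‖ = 1} := by
  have hU := L.goodDomain hf hni
  obtain ⟨k, ψ, hk, hψ, hψf, hψG⟩ := hU.exists_eigenfunction hf
  rcases lt_or_gt_of_ne hk with hk | hk
  · -- negative `k`
    obtain ⟨m, hm⟩ := Int.eq_ofNat_of_zero_le (show 0 ≤ -k by omega)
    have hkm : (k : ℂ) = -(m : ℂ) := by
      have : k = -(m : ℤ) := by omega
      rw [this]; push_cast; ring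
    have hG0 : L.reflect.G 0 = L.G 0 := by
      change L.G (-0) = L.G 0
      rw [neg_zero]
    obtain ⟨U, φ, α, h1, h2⟩ := L.reflect.exists_linearizer_of_pos hf hni (k := m) (by omega)
      (ψ := ψ) (by rw [hG0]; exact hψ) (by
        rw [hG0]
        intro z hz
        rw [hψf z hz]
        congr 2
        change 2 * (Real.pi : ℂ) * Complex.I * k * L.ρ = 2 * Real.pi * Complex.I * m * ((-L.ρ : ℝ) : ℂ)
        rw [hkm]; push_cast; ring) (by
        intro s hs
        have hs' : s ∈ strip L.ε := hs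
        change ψ (L.G (-s)) = _
        rw [hψG (-s) (by simpa [strip] using hs')]
        congr 1
        rw [hkm]; ring)
    refine ⟨U, φ, α, h1, ?_⟩
    rw [← h2]
    ext z
    constructor
    · rintro ⟨x, rfl⟩
      refine ⟨-x, ?_⟩
      change L.G (-((-x : ℝ) : ℂ)) = L.G x
      push_cast; rw [neg_neg]
    · rintro ⟨x, rfl⟩
      refine ⟨-x, ?_⟩
      change L.G ((-x : ℝ) : ℂ) = L.G (-(x : ℂ))
      push_cast; rfl
  · obtain ⟨m, hm⟩ := Int.eq_ofNat_of_zero_le hk.le
    subst hm
    refine L.exists_linearizer_of_pos hf hni (k := m) (by omega) hψ ?_ ?_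
    · intro z hz
      rw [hψf z hz]; norm_cast
    · intro s hs
      rw [hψG s hs]; norm_cast

/-- A stable invariant curve is a level curve of the linearizer of a rotation domain. -/
theorem rotation_of_stable {f : P → P} (hf : ∀ p, HolAt f p) (hni : ¬ Function.Injective f)
    (c : InvCurve f) (hst : c.Stable) :
    ∃ (U : Set P) (φ : P → ℂ) (α : ℝ), IsLinearizer f U φ α ∧
      (range fun x : ℝ => c.γ x) = {z | z ∈ U ∧ ‖φ z‖ = 1} := by
  obtain ⟨L, hL⟩ := exists_linearization hf c hst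
  rw [← hL]
  exact L.exists_linearizer hf hni

end Pool.Agent.Lib.MP_1f4a82_an
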