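import Pool.Agent.Lib.MP_1f4a82_an.CoverDefs
import Pool.Agent.Lib.MP_1f4a82_an.Count

/-!
Construction of a second invariant curve of `g`, where `h` semiconjugates `g` to `f`.
-/

open Topology Filter Set

namespace Pool.Agent.Lib.MP_1f4a82_an

namespace SecondAux

theorem convex_strip' (η : ℝ) : Convex ℝ (strip η) := by
  have : strip η = (Complex.imLm : ℂ →ₗ[ℝ] ℝ) ⁻¹' (Metric.ball 0 η) := by
    ext s
    simp [strip]
  rw [this]
  exact (convex_ball 0 η).linear_preimage _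

/-- Uniqueness of lifts. -/
theorem lifts_unique {A Y Z : Type} [TopologicalSpace A] [PreconnectedSpace A]
    [TopologicalSpace Y] [T2Space Y] {h : Y → Z} {a b : A → Y} (ha : Continuous a)
    (hb : Continuous b) (hab : ∀ x, h (a x) = h (b x)) (hl : ∀ x, ∃ U ∈ 𝓝 (a x), InjOn h U)
    {x₀ : A} (h0 : a x₀ = b x₀) : ∀ x, a x = b x := by
  have hcl : IsClopen {x | a x = b x} := by
    refine ⟨isClosed_eq ha hb, ?_⟩
    rw [isOpen_iff_mem_nhds]
    intro x hx
    have hx' : a x = b x := hx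
    obtain ⟨U, hU, hi⟩ := hl x
    have h1 := ha.continuousAt.preimage_mem_nhds hU
    have h2 : b ⁻¹' U ∈ 𝓝 x := hb.continuousAt.preimage_mem_nhds (by rw [← hx']; exact hU)
    filter_upwards [h1, h2] with y hy1 hy2
    exact hi hy1 hy2 (hab y)
  have := hcl.eq_univ ⟨x₀, h0⟩
  intro x
  have hx : x ∈ {x | a x = b x} := by rw [this]; trivial
  exact hx

/-- `Γ` is a lift of `γ` through `h` over the strip of width `δ`. -/
def IsLift (h : P → P) (γ : ℂ → P) (δ : ℝ) (Γ : ℂ → P) : Prop :=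
  ContinuousOn Γ (strip δ) ∧ ∀ s ∈ strip δ, h (Γ s) = γ s

theorem real_mem {δ : ℝ} (hδ : 0 < δ) (x : ℝ) : (x : ℂ) ∈ strip δ := by
  simp [strip, hδ]

section

variable {h : P → P} {γ : ℂ → P} {δ : ℝ} {Γ Γ' : ℂ → P}

theorem IsLift.eqOn (hl : ∀ r, ∀ s ∈ strip δ, h r = γ s → ∃ U ∈ 𝓝 r, InjOn h U)
    (h1 : IsLift h γ δ Γ) (h2 : IsLift h γ δ Γ') {s₀ : ℂ} (hs₀ : s₀ ∈ strip δ)
    (h0 : Γ s₀ = Γ' s₀) : ∀ s ∈ strip δ, Γ s = Γ' s := by
  have : PreconnectedSpace (strip δ) :=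
    isPreconnected_iff_preconnectedSpace.1 (convex_strip' δ).isPreconnected
  have := lifts_unique (A := strip δ) (h := h) (a := fun s => Γ s) (b := fun s => Γ' s)
    (continuousOn_iff_continuous_domRestrict.1 h1.1) (continuousOn_iff_continuous_domRestrict.1 h2.1)
    (fun s => by rw [h1.2 s s.2, h2.2 s s.2]) (fun s => hl _ s s.2 (h1.2 s s.2))
    (x₀ := ⟨s₀, hs₀⟩) h0
  intro s hs
  exact this ⟨s, hs⟩

theorem isLocalHomeomorphOn_of_locInj (hh : ∀ p, HolAt h p) {S : Set P}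
    (hS : ∀ p ∈ S, ∃ U ∈ 𝓝 p, InjOn h U) : IsLocalHomeomorphOn h S := by
  rw [isLocalHomeomorphOn_iff_isOpenEmbedding_restrict]
  intro p hp
  obtain ⟨U, hU, hi⟩ := hS p hp
  obtain ⟨V, hVU, hV, hpV⟩ := mem_nhds_iff.1 hU
  have hi' : InjOn h V := hi.mono hVU
  refine ⟨V, hV.mem_nhds hpV, ?_⟩
  have hc : Continuous h := Count.continuous_of_hol hh
  refine IsOpenEmbedding.of_continuous_injective_isOpenMap (hc.comp continuous_subtype_val)
    (injOn_iff_injective.1 hi') ?_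
  intro W hW
  obtain ⟨W', hW', rfl⟩ := isOpen_induced_iff.1 hW
  have h1 : (V.domRestrict h) '' (Subtype.val ⁻¹' W') = h '' (W' ∩ V) := by
    ext y
    constructor
    · rintro ⟨x, hx, rfl⟩
      exact ⟨x, ⟨hx, x.2⟩, rfl⟩
    · rintro ⟨x, ⟨hx, hxV⟩, rfl⟩
      exact ⟨⟨x, hxV⟩, hx, rfl⟩
  rw [h1]
  exact isOpen_image_of_injOn hV (fun x _ => hh x) hi' (hW'.inter hV) inter_subset_right

theorem exists_lift (hh : ∀ p, HolAt h p)
    (hl : ∀ r, ∀ s ∈ strip δ, h r = γ s → ∃ U ∈ 𝓝 r, InjOn h U)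
    (hγ : ContinuousOn γ (strip δ)) {s₀ : ℂ} (hs₀ : s₀ ∈ strip δ) {r : P} (hr : h r = γ s₀) :
    ∃ Γ, IsLift h γ δ Γ ∧ Γ s₀ = r := by
  classical
  have : ContractibleSpace (strip δ) := (convex_strip' δ).contractibleSpace ⟨s₀, hs₀⟩
  have : LocallyPathConnectedSpace (strip δ) := (isOpen_strip δ).locallyPathConnectedSpace
  have cov : IsCoveringMapOn h (γ '' strip δ) := by
    apply IsCoveringMapOn.of_isLocalHomeomorphOn (Count.continuous_of_hol hh)
    apply isLocalHomeomorphOn_of_locInj hh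
    rintro p ⟨s, hs, hps⟩
    exact hl p s hs hps.symm
  obtain ⟨G, ⟨hG0, hG⟩, -⟩ := cov.existsUnique_continuousMap_lifts
    (⟨fun s : strip δ => γ s, continuousOn_iff_continuous_domRestrict.1 hγ⟩ : C(strip δ, P))
    (a₀ := ⟨s₀, hs₀⟩) (e₀ := r) hr (fun s => ⟨s, s.2, rfl⟩)
  refine ⟨fun s => if hs : s ∈ strip δ then G ⟨s, hs⟩ else r, ⟨?_, ?_⟩, ?_⟩
  · rw [continuousOn_iff_continuous_domRestrict]
    refine G.continuous.congr fun s => ?_
    simp
  · intro s hs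
    beta_reduce
    rw [dif_pos hs]
    exact congrFun hG ⟨s, hs⟩
  · beta_reduce
    rw [dif_pos hs₀]
    exact hG0

theorem IsLift.translate {k : ℂ} (hk : k.im = 0) (hγ : ∀ s, γ (s + k) = γ s)
    (h1 : IsLift h γ δ Γ) : IsLift h γ δ (fun s => Γ (s + k)) := by
  have hm : ∀ s ∈ strip δ, s + k ∈ strip δ := by
    intro s hs
    simpa [strip, hk] using hs
  refine ⟨?_, ?_⟩
  · exact h1.1.comp (by fun_prop) hm
  · intro s hs
    rw [h1.2 _ (hm s hs), hγ]

theorem IsLift.holAt (hh : ∀ p, HolAt h p)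
    (hl : ∀ r, ∀ s ∈ strip δ, h r = γ s → ∃ U ∈ 𝓝 r, InjOn h U)
    (hγ : ∀ s ∈ strip δ, HolAt γ s) (h1 : IsLift h γ δ Γ) {s : ℂ} (hs : s ∈ strip δ) :
    HolAt Γ s := by
  classical
  obtain ⟨U, hU, hi⟩ := hl _ s hs (h1.2 s hs)
  obtain ⟨V, hVU, hV, hsV⟩ := mem_nhds_iff.1 hU
  have hi' : InjOn h V := hi.mono hVU
  have hW : ∀ x ∈ V, Function.invFunOn h V (h x) = x := fun x hx =>
    hi'.leftInvOn_invFunOn hx
  have h2 := holAt_leftInverse hV (fun x _ => hh x) hW hsV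
  rw [h1.2 s hs] at h2
  have h3 := h2.comp (hγ s hs)
  refine h3.congr ?_
  have hc : ContinuousAt Γ s := (h1.1 s hs).continuousAt ((isOpen_strip δ).mem_nhds hs)
  filter_upwards [hc.preimage_mem_nhds (hV.mem_nhds hsV), (isOpen_strip δ).mem_nhds hs]
    with r hr hrs
  rw [← h1.2 r hrs, hW _ hr]

end

/-- Near the curve there are no critical values. -/
theorem exists_width {f h : P → P} (hh : ∀ p, HolAt h p) (hn : ∃ x y, h x ≠ h y)
    (c : InvCurve f) (hloc : ∀ (r : P) (x : ℝ), h r = c.γ x → ∃ U ∈ 𝓝 r, InjOn h U) :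
    ∃ δ, 0 < δ ∧ δ ≤ c.η ∧
      ∀ r, ∀ s ∈ strip δ, h r = c.γ s → ∃ U ∈ 𝓝 r, InjOn h U := by
  have hcv : IsClosed (critVal h) := (Count.finite_critVal hh hn).isClosed
  have hγc : ContinuousOn c.γ (strip c.η) := fun s hs =>
    (c.hol s hs).continuousAt.continuousWithinAt
  have hVo : IsOpen (strip c.η ∩ c.γ ⁻¹' (critVal h)ᶜ) :=
    hγc.isOpen_inter_preimage (isOpen_strip _) hcv.isOpen_compl
  have hK : IsCompact ((fun x : ℝ => (x : ℂ)) '' Icc 0 1) :=
    isCompact_Icc.image Complex.continuous_ofReal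
  have hKV : (fun x : ℝ => (x : ℂ)) '' Icc 0 1 ⊆ strip c.η ∩ c.γ ⁻¹' (critVal h)ᶜ := by
    rintro _ ⟨x, -, rfl⟩
    refine ⟨real_mem c.η_pos x, ?_⟩
    rintro ⟨p, hp, hc⟩
    exact hc (hloc p x hp)
  obtain ⟨δ, hδ, hsub⟩ := hK.exists_thickening_subset_open hVo hKV
  refine ⟨min δ c.η, lt_min hδ c.η_pos, min_le_right _ _, ?_⟩
  intro r s hs hr
  have hs1 : |s.im| < δ := lt_of_lt_of_le hs (min_le_left _ _)
  have h1 : s + ((-⌊s.re⌋ : ℤ) : ℂ) ∈ Metric.thickening δ ((fun x : ℝ => (x : ℂ)) '' Icc 0 1) := by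
    rw [Metric.mem_thickening_iff]
    refine ⟨((Int.fract s.re : ℝ) : ℂ), ⟨_, ⟨Int.fract_nonneg _, (Int.fract_lt_one _).le⟩, rfl⟩, ?_⟩
    rw [Complex.dist_eq]
    have : s + ((-⌊s.re⌋ : ℤ) : ℂ) - ((Int.fract s.re : ℝ) : ℂ) = (s.im : ℂ) * Complex.I := by
      apply Complex.ext
      · have := Int.self_sub_floor s.re
        simp only [Complex.add_re, Complex.sub_re, Complex.intCast_re, Complex.ofReal_re,
          Complex.mul_re, Complex.I_re, Complex.I_im, Complex.ofReal_im, Int.cast_neg,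
          Complex.neg_re]
        linarith
      · simp
    rw [this, norm_mul, Complex.norm_I, mul_one, Complex.norm_real]
    exact hs1
  have h2 := (hsub h1).2
  rw [mem_preimage, c.per_int] at h2
  exact Count.locInj h h2 r hr

theorem iterate_add_int {F : ℝ → ℝ} (hF : ∀ (k : ℤ) (x : ℝ), F (x + k) = F x + k) (n : ℕ) :
    ∀ (k : ℤ) (x : ℝ), F^[n] (x + k) = F^[n] x + k := by
  induction n with
  | zero => intro k x; rfl
  | succ n ih =>
    intro k x
    rw [Function.iterate_succ_apply, Function.iterate_succ_apply, hF, ih]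

/-- A self-map of a finite nonempty set has a periodic point. -/
theorem exists_periodic {Y : Type} {S : Set Y} (hS : S.Finite) {T : Y → Y} (hT : MapsTo T S S)
    {y₀ : Y} (hy₀ : y₀ ∈ S) : ∃ y ∈ S, ∃ p : ℕ, 1 ≤ p ∧ T^[p] y = y := by
  have hmem : ∀ n, T^[n] y₀ ∈ S := fun n => hT.iterate n hy₀
  obtain ⟨m, -, n, -, hmn, he⟩ := Set.Infinite.exists_ne_map_eq_of_mapsTo
    (s := (univ : Set ℕ)) (t := S) (f := fun n => T^[n] y₀) infinite_univ
    (fun n _ => hmem n) hS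
  rcases lt_or_gt_of_ne hmn with h | h
  · refine ⟨T^[m] y₀, hmem m, n - m, by omega, ?_⟩
    rw [← Function.iterate_add_apply, Nat.sub_add_cancel h.le]
    exact he.symm
  · refine ⟨T^[n] y₀, hmem n, m - n, by omega, ?_⟩
    rw [← Function.iterate_add_apply, Nat.sub_add_cancel h.le]
    exact he

end SecondAux

open SecondAux in
theorem exists_second_curve {f g h : P → P} (hf : ∀ p, HolAt f p) (hg : ∀ p, HolAt g p)
    (hh : ∀ p, HolAt h p) (hs : ∀ p, f (h p) = h (g p)) (c : InvCurve f) (cT : InvCurve g)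
    (hη : cT.η = c.η) (hF : cT.F = c.F) (hγ : ∀ s ∈ strip c.η, h (cT.γ s) = c.γ s)
    (hloc : ∀ (r : P) (x : ℝ), h r = c.γ x → ∃ U ∈ 𝓝 r, InjOn h U)
    (hinj : ∀ (r r' : P) (x x' : ℝ), h r = c.γ x → h r' = c.γ x' → g r = g r' → r = r')
    (hh2 : ¬ Function.Injective h) :
    ∃ (p e : ℕ) (cA : InvCurve (g^[p])) (δ : ℝ), 1 ≤ p ∧ 1 ≤ e ∧ 0 < δ ∧
      (∀ s ∈ strip δ, h (cA.γ s) = c.γ (e * s)) ∧ ∀ x y : ℝ, cA.γ x ≠ cT.γ y := by
  classical
  have h0η : (0 : ℂ) ∈ strip c.η := by simpa using real_mem c.η_pos 0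
  -- h is not constant
  have hn : ∃ x y, h x ≠ h y := by
    refine ⟨cT.γ 0, cT.γ ((1 / 2 : ℝ) : ℂ), ?_⟩
    rw [hγ _ h0η, hγ _ (real_mem c.η_pos _)]
    intro he
    obtain ⟨k, hk⟩ := c.inj _ h0η _ (real_mem c.η_pos _) he
    rw [zero_add] at hk
    have h1 : ((1 / 2 : ℝ) : ℝ) = (k : ℝ) := by exact_mod_cast hk
    have h2 : (2 * k : ℤ) = 1 := by
      have : (2 * k : ℝ) = 1 := by rw [← h1]; norm_num
      exact_mod_cast this
    omega
  obtain ⟨δ₀, hδ₀, hδη, hl⟩ := exists_width hh hn c hloc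
  have hsub : strip δ₀ ⊆ strip c.η := fun s hs => lt_of_lt_of_le hs hδη
  have hγhol : ∀ s ∈ strip δ₀, HolAt c.γ s := fun s hs => c.hol s (hsub hs)
  have hγc : ContinuousOn c.γ (strip δ₀) := fun s hs =>
    (hγhol s hs).continuousAt.continuousWithinAt
  have hr : ∀ x : ℝ, (x : ℂ) ∈ strip δ₀ := real_mem hδ₀
  have h0 : (0 : ℂ) ∈ strip δ₀ := by simpa using hr 0
  have hex : ∀ s ∈ strip δ₀, ∀ r, h r = c.γ s → ∃ Γ, IsLift h c.γ δ₀ Γ ∧ Γ s = r :=
    fun s hs r hr => exists_lift hh hl hγc hs hr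
  have huniq : ∀ Γ Γ', IsLift h c.γ δ₀ Γ → IsLift h c.γ δ₀ Γ' → ∀ s₀ ∈ strip δ₀,
      Γ s₀ = Γ' s₀ → ∀ s ∈ strip δ₀, Γ s = Γ' s := fun Γ Γ' h1 h2 s₀ hs₀ he =>
    h1.eqOn hl h2 hs₀ he
  -- the chosen lifts
  have hchoose : ∀ q : P, ∃ Γ : ℂ → P, h q = c.γ 0 → IsLift h c.γ δ₀ Γ ∧ Γ 0 = q := by
    intro q
    by_cases hq : h q = c.γ 0
    · obtain ⟨Γ, h1, h2⟩ := hex 0 h0 q hq
      exact ⟨Γ, fun _ => ⟨h1, h2⟩⟩
    · exact ⟨fun _ => q, fun h => absurd h hq⟩
  choose Γ hΓ using hchoose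
  have hcTlift : IsLift h c.γ δ₀ cT.γ := by
    refine ⟨fun s hs => (cT.hol s ?_).continuousAt.continuousWithinAt, fun s hs => hγ s (hsub hs)⟩
    rw [hη]; exact hsub hs
  -- the action
  have hact : ∀ q : P, ∃ q' : P, h q = c.γ 0 → h q' = c.γ 0 ∧
      ∀ x : ℝ, g (Γ q x) = Γ q' ((c.F x : ℝ) : ℂ) := by
    intro q
    by_cases hq : h q = c.γ 0
    swap
    · exact ⟨q, fun h => absurd h hq⟩
    obtain ⟨hΓq, hΓq0⟩ := hΓ q hq
    have hgx : ∀ x : ℝ, h (g (Γ q x)) = c.γ ((c.F x : ℝ) : ℂ) := by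
      intro x
      rw [← hs, hΓq.2 _ (hr x), c.inv]
    obtain ⟨G, hG, hG0⟩ := hex ((c.F 0 : ℝ) : ℂ) (hr _) (g (Γ q ((0 : ℝ) : ℂ))) (hgx 0)
    have hq' : h (G 0) = c.γ 0 := hG.2 0 h0
    obtain ⟨hΓq', hΓq0'⟩ := hΓ (G 0) hq'
    refine ⟨G 0, fun _ => ⟨hq', ?_⟩⟩
    have hGΓ := huniq _ _ hΓq' hG 0 h0 hΓq0'
    have hcr : ∀ {G' : ℂ → P}, IsLift h c.γ δ₀ G' → Continuous fun x : ℝ => G' (x : ℂ) :=
      fun {G'} h' => h'.1.comp_continuous Complex.continuous_ofReal hr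
    refine lifts_unique (A := ℝ) (h := h) (a := fun x : ℝ => g (Γ q x))
      (b := fun x : ℝ => Γ (G 0) ((c.F x : ℝ) : ℂ)) ?_ ?_ ?_ ?_ (x₀ := 0) ?_
    · exact (Count.continuous_of_hol hg).comp (hcr hΓq)
    · exact (hcr hΓq').comp c.F_cont
    · intro x
      rw [hgx x, hΓq'.2 _ (hr _)]
    · intro x
      exact hl _ _ (hr _) (hgx x)
    · rw [hGΓ _ (hr _), hG0]
  choose T hT using hact
  -- the fibre outside the curve of cT
  have hγ0 : h (cT.γ 0) = c.γ 0 := hγ 0 h0η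
  have hcTΓ : ∀ s ∈ strip δ₀, Γ (cT.γ 0) s = cT.γ s :=
    huniq _ _ (hΓ _ hγ0).1 hcTlift 0 h0 (hΓ _ hγ0).2
  let Q : Set P := {q | h q = c.γ 0 ∧ q ≠ cT.γ 0}
  have hQfin : Q.Finite := (Count.finite_fibre hh hn (c.γ 0)).subset fun q hq => hq.1
  have hTQ : MapsTo T Q Q := by
    rintro q ⟨hq, hne⟩
    obtain ⟨h1, h2⟩ := hT q hq
    refine ⟨h1, fun he => hne ?_⟩
    obtain ⟨hΓq, hΓq0⟩ := hΓ q hq
    have h3 := h2 0
    rw [he, hcTΓ _ (hr _), ← hF, ← cT.inv] at h3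
    have e0 : ((0 : ℝ) : ℂ) = 0 := Complex.ofReal_zero
    rw [e0, hΓq0] at h3
    exact hinj q (cT.γ 0) 0 0 (by rw [e0]; exact hq) (by rw [e0]; exact hγ0) h3
  obtain ⟨q₀, hq₀⟩ : ∃ q₀, q₀ ∈ Q := by
    by_contra hcon
    push Not at hcon
    obtain ⟨-, hfin, d, hd1, hle, heq⟩ := exists_degree hh hn
    have hcrit : c.γ 0 ∉ critVal h := by
      rintro ⟨p, hp, hc⟩
      exact hc (hl p 0 h0 hp)
    have hfib : h ⁻¹' {c.γ 0} ⊆ {cT.γ 0} := by
      intro q hq
      by_contra hne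
      exact hcon q ⟨hq, hne⟩
    have hd : d ≤ 1 := by
      rw [← heq _ hcrit, ← Set.ncard_singleton (cT.γ 0)]
      exact Set.ncard_le_ncard hfib (Set.finite_singleton _)
    apply hh2
    intro a b hab
    have h1 := (hle (h b)).trans hd
    rw [Set.ncard_le_one (hfin _)] at h1
    exact h1 a hab b rfl
  -- periodic point
  obtain ⟨q, hqQ, p, hp1, hpq⟩ := exists_periodic hQfin hTQ hq₀
  have hq : h q = c.γ 0 := hqQ.1
  obtain ⟨hΓq, hΓq0⟩ := hΓ q hq
  have hTn : ∀ n : ℕ, h (T^[n] q) = c.γ 0 ∧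
      ∀ x : ℝ, g^[n] (Γ q x) = Γ (T^[n] q) ((c.F^[n] x : ℝ) : ℂ) := by
    intro n
    induction n with
    | zero => exact ⟨hq, fun x => rfl⟩
    | succ n ih =>
      obtain ⟨h1, h2⟩ := ih
      obtain ⟨h3, h4⟩ := hT _ h1
      rw [Function.iterate_succ_apply']
      refine ⟨h3, fun x => ?_⟩
      rw [Function.iterate_succ_apply', Function.iterate_succ_apply', h2, h4]
  have hgp : ∀ x : ℝ, g^[p] (Γ q x) = Γ q ((c.F^[p] x : ℝ) : ℂ) := by
    intro x
    rw [(hTn p).2 x, hpq]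
  -- periods of the lift
  have htr : ∀ k : ℤ, IsLift h c.γ δ₀ (fun s => Γ q (s + k)) := fun k =>
    hΓq.translate (by simp) (fun s => c.per_int k s)
  have hmk : ∀ (k : ℤ) (s : ℂ), s ∈ strip δ₀ → s + k ∈ strip δ₀ := by
    intro k s hs
    simpa [strip] using hs
  let H : AddSubgroup ℤ :=
    { carrier := {k | ∀ s ∈ strip δ₀, Γ q (s + k) = Γ q s}
      add_mem' := by
        intro a b ha hb s hs
        have h1 := hb (s + a) (hmk a s hs)
        have h2 := ha s hs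
        rw [← h2, ← h1]
        push_cast
        rw [add_assoc]
      zero_mem' := by
        intro s hs
        simp
      neg_mem' := by
        intro a ha s hs
        have h1 := ha (s + ((-a : ℤ) : ℂ)) (hmk (-a) s hs)
        rw [← h1]
        congr 1
        push_cast
        ring }
  have hHmem : ∀ (k : ℤ), ∀ s ∈ strip δ₀, Γ q (s + k) = Γ q s → k ∈ H := by
    intro k s hs he
    exact huniq _ _ (htr k) hΓq s hs he
  obtain ⟨a, ha⟩ := Int.subgroup_cyclic H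
  rw [← AddSubgroup.zmultiples_eq_closure] at ha
  have hHa : ∀ k, k ∈ H ↔ a ∣ k := by
    intro k
    rw [ha, Int.mem_zmultiples_iff]
  have ha0 : a ≠ 0 := by
    rintro rfl
    obtain ⟨m, -, n, -, hmn, he⟩ := Set.Infinite.exists_ne_map_eq_of_mapsTo
      (s := (univ : Set ℕ)) (t := h ⁻¹' {c.γ 0}) (f := fun n : ℕ => Γ q ((n : ℝ) : ℂ))
      infinite_univ (fun n _ => by
        change h (Γ q _) = c.γ 0
        rw [hΓq.2 _ (hr _)]
        have := c.per_int n 0
        rw [zero_add] at this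
        rw [← this]
        simp) (Count.finite_fibre hh hn (c.γ 0))
    have h1 : ((n : ℤ) - m) ∈ H := by
      refine hHmem _ ((m : ℝ) : ℂ) (hr _) ?_
      change Γ q ((m : ℝ) : ℂ) = Γ q ((n : ℝ) : ℂ) at he
      rw [he]
      congr 1
      push_cast
      ring
    rw [hHa, zero_dvd_iff] at h1
    apply hmn
    omega
  let e : ℕ := a.natAbs
  have he1 : 1 ≤ e := Int.natAbs_pos.2 ha0
  have hepos : (0 : ℝ) < e := by exact_mod_cast he1
  have heC : (e : ℂ) ≠ 0 := by exact_mod_cast (by omega : e ≠ 0)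
  have hHe : ∀ k, k ∈ H ↔ (e : ℤ) ∣ k := by
    intro k
    rw [hHa, Int.natAbs_dvd]
  have heH : (e : ℤ) ∈ H := (hHe _).2 dvd_rfl
  -- the strip of the new curve
  have hη' : 0 < δ₀ / e := div_pos hδ₀ hepos
  have hstrip : ∀ s ∈ strip (δ₀ / e), (e : ℂ) * s ∈ strip δ₀ := by
    intro s hs
    have h1 : |s.im| < δ₀ / e := hs
    rw [lt_div_iff₀ hepos] at h1
    change |((e : ℂ) * s).im| < δ₀
    have h2 : ((e : ℂ) * s).im = e * s.im := by simp
    rw [h2, abs_mul, Nat.abs_cast, mul_comm]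
    exact h1
  let γA : ℂ → P := fun s => if s ∈ strip (δ₀ / e) then Γ q (e * s) else Γ q 0
  have hγA : ∀ s ∈ strip (δ₀ / e), γA s = Γ q (e * s) := fun s hs => if_pos hs
  have hcast : ∀ x : ℝ, (e : ℂ) * (x : ℂ) = ((e * x : ℝ) : ℂ) := fun x => by push_cast; rfl
  have hFp : ∀ n : ℕ, ∀ x : ℝ, (fun x : ℝ => c.F^[p] (e * x) / e)^[n] x =
      c.F^[p * n] (e * x) / e := by
    intro n
    induction n with
    | zero => intro x; simp; field_simp
    | succ n ih =>
      intro x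
      rw [Function.iterate_succ_apply', ih, Nat.mul_succ, add_comm, Function.iterate_add_apply]
      congr 2
      field_simp
  let cA : InvCurve (g^[p]) :=
    { γ := γA
      η := δ₀ / e
      η_pos := hη'
      hol := by
        intro s hs
        have h1 : HolAt (Γ q) (e * s) := hΓq.holAt hh hl hγhol (hstrip s hs)
        have h2 : HolAt (fun s : ℂ => (e : ℂ) * s) s := by
          rw [holAt_iff_analyticAt]
          fun_prop
        have h3 : HolAt (fun s : ℂ => Γ q (e * s)) s := h1.comp h2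
        refine h3.congr ?_
        filter_upwards [(isOpen_strip _).mem_nhds hs] with r hr
        exact (hγA r hr).symm
      per := by
        intro s
        have him : (s + 1 ∈ strip (δ₀ / e)) ↔ (s ∈ strip (δ₀ / e)) := by simp [strip]
        by_cases hs : s ∈ strip (δ₀ / e)
        · rw [hγA s hs, hγA (s + 1) (him.2 hs)]
          have := heH (e * s) (hstrip s hs)
          rw [← this]
          congr 1
          push_cast
          ring
        · change (if s + 1 ∈ strip (δ₀ / e) then _ else _) =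
            (if s ∈ strip (δ₀ / e) then _ else _)
          rw [if_neg hs, if_neg (fun h => hs (him.1 h))]
      inj := by
        intro s hs s' hs' hss
        rw [hγA s hs, hγA s' hs'] at hss
        have h1 := hstrip s hs
        have h2 := hstrip s' hs'
        have h3 : c.γ (e * s) = c.γ (e * s') := by
          rw [← hΓq.2 _ h1, ← hΓq.2 _ h2, hss]
        obtain ⟨k, hk⟩ := c.inj _ (hsub h1) _ (hsub h2) h3
        rw [hk] at hss
        obtain ⟨l, hl⟩ := (hHe k).1 (hHmem k _ h1 hss.symm)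
        refine ⟨l, ?_⟩
        apply mul_left_cancel₀ heC
        rw [hk, hl]
        push_cast
        ring
      F := fun x => c.F^[p] (e * x) / e
      F_cont := by
        have : Continuous (c.F^[p]) := c.F_cont.iterate p
        fun_prop
      F_mono := by
        intro x y hxy
        have h1 : StrictMono (c.F^[p]) := c.F_mono.iterate p
        have h2 : (e : ℝ) * x < e * y := by
          apply mul_lt_mul_of_pos_left hxy hepos
        exact div_lt_div_of_pos_right (h1 h2) hepos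
      F_per := by
        intro x
        have h1 : (e : ℝ) * (x + 1) = e * x + ((e : ℤ) : ℝ) := by push_cast; ring
        rw [h1, iterate_add_int c.F_per_int p]
        push_cast
        field_simp
      inv := by
        intro x
        rw [hγA _ (real_mem hη' x), hγA _ (real_mem hη' _), hcast, hgp]
        congr 1
        push_cast
        field_simp
      noper := by
        intro n hn1 x k hk
        rw [hFp] at hk
        have h1 : 1 ≤ p * n := Nat.one_le_iff_ne_zero.2 (by positivity)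
        apply c.noper (p * n) h1 (e * x) (k * e)
        have h2 : c.F^[p * n] (e * x) = (x + k) * e := by
          rw [← hk]
          field_simp
        rw [h2]
        push_cast
        ring }
  refine ⟨p, e, cA, δ₀ / e, hp1, he1, hη', ?_, ?_⟩
  · intro s hs
    change h (γA s) = _
    rw [hγA s hs, hΓq.2 _ (hstrip s hs)]
  · intro x y hxy
    change γA x = _ at hxy
    rw [hγA _ (real_mem hη' x), hcast] at hxy
    have h1 : c.γ ((e * x : ℝ) : ℂ) = c.γ y := by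
      rw [← hΓq.2 _ (hr _), hxy, hγ _ (real_mem c.η_pos y)]
    obtain ⟨k, hk⟩ := c.inj _ (real_mem c.η_pos _) _ (real_mem c.η_pos _) h1
    rw [hk, cT.per_int] at hxy
    have h2 := huniq _ _ hΓq hcTlift _ (hr _) hxy 0 h0
    rw [hΓq0] at h2
    exact hqQ.2 h2

end Pool.Agent.Lib.MP_1f4a82_an
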