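import Pool.Agent.Lib.MP_1f4a82_an.CoverDefs
import Pool.Agent.Lib.MP_1f4a82_an.Three

/-!
Two disjoint invariant curves with the half property: the real circle is stable.
-/

open Topology Filter Set

namespace Pool.Agent.Lib.MP_1f4a82_an

namespace TwoCurveAux

/-- Two sides of a closed set. -/
structure SD (T H H' : Set P) : Prop where
  oH : IsOpen H
  oH' : IsOpen H'
  cH : IsConnected H
  cH' : IsConnected H'
  disj : Disjoint H H'
  union : H ∪ H' = Tᶜ
  fH : frontier H = T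
  fH' : frontier H' = T

theorem SD.symm {T H H' : Set P} (h : SD T H H') : SD T H' H where
  oH := h.oH'
  oH' := h.oH
  cH := h.cH'
  cH' := h.cH
  disj := h.disj.symm
  union := by rw [union_comm]; exact h.union
  fH := h.fH'
  fH' := h.fH

theorem SD.of_sides {L : Line P} {A B : Set P} (h : L.Sides A B) : SD L.ell A B where
  oH := h.open_p
  oH' := h.open_m
  cH := h.conn_p
  cH' := h.conn_m
  disj := h.disj
  union := h.union
  fH := h.front_p
  fH' := h.front_m

theorem half_symm {f : P → P} {A B : Set P} (h : Half f A B) : Half f B A := by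
  obtain ⟨V, δ, hV, h1, h2⟩ := h
  exact ⟨V, δ, hV, h1, fun w hw => ⟨(h2 w hw).2, (h2 w hw).1⟩⟩

theorem SD.cases {T H H' : Set P} (h : SD T H H') (x : P) : x ∈ H ∨ x ∈ H' ∨ x ∈ T := by
  by_cases hx : x ∈ T
  · exact Or.inr (Or.inr hx)
  · have h1 : x ∈ Tᶜ := hx
    rw [← h.union] at h1
    rcases h1 with h1 | h1
    · exact Or.inl h1
    · exact Or.inr (Or.inl h1)

theorem SD.not_T {T H H' : Set P} (h : SD T H H') {x : P} (hx : x ∈ H) : x ∉ T := by
  have h1 : x ∈ H ∪ H' := Or.inl hx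
  rw [h.union] at h1
  exact h1

theorem SD.not_H' {T H H' : Set P} (h : SD T H H') {x : P} (hx : x ∈ H) : x ∉ H' :=
  disjoint_left.mp h.disj hx

/-- a connected set disjoint from `T` and meeting `H` is contained in `H` -/
theorem SD.sub {T H H' : Set P} (h : SD T H H') {C : Set P} (hC : IsPreconnected C)
    (hT : Disjoint C T) (hm : (C ∩ H).Nonempty) : C ⊆ H := by
  refine hC.subset_left_of_subset_union h.oH h.oH' h.disj ?_ hm
  rw [h.union]
  exact fun x hx hxT => disjoint_left.mp hT hx hxT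

theorem SD.sub_or {T H H' : Set P} (h : SD T H H') {C : Set P} (hC : IsPreconnected C)
    (hT : Disjoint C T) : C ⊆ H ∨ C ⊆ H' := by
  by_cases hm : (C ∩ H).Nonempty
  · exact Or.inl (h.sub hC hT hm)
  · right
    intro x hx
    rcases h.cases x with h1 | h1 | h1
    · exact absurd ⟨x, hx, h1⟩ hm
    · exact h1
    · exact absurd h1 (disjoint_left.mp hT hx)

/-- Counting. -/
theorem sub_of_ncard {S X Z : Set P} (hS : S.Finite) (hXZ : Disjoint X Z)
    (h : S.ncard ≤ (S ∩ X).ncard + (S ∩ Z).ncard) : S ⊆ X ∪ Z := by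
  have h1 : Disjoint (S ∩ X) (S ∩ Z) :=
    disjoint_of_subset inter_subset_right inter_subset_right hXZ
  have h2 := ncard_union_eq h1 (hS.inter_of_left X) (hS.inter_of_left Z)
  have h3 : (S ∩ X) ∪ (S ∩ Z) ⊆ S := union_subset inter_subset_left inter_subset_left
  have h4 := eq_of_subset_of_ncard_le h3 (by omega) hS
  rw [← h4]
  exact union_subset_union inter_subset_right inter_subset_right

theorem core {g : P → P} (hopen : ∀ p, map g (𝓝 p) = 𝓝 (g p)) {T E H H' D D' : Set P}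
    (h : SD T H H') (h' : SD E D D') (hEH : E ⊆ H) (hTD : T ⊆ D') (hT : T.Nonempty)
    (hE : E.Nonempty) (hH : Half g H H') (hH' : Half g D D') :
    D ⊆ H ∧ ∀ p ∈ H ∩ D', g p ∈ H ∩ D' := by
  have hDT : Disjoint D T := disjoint_of_subset_right hTD h'.disj
  have hH'E : Disjoint H' E := disjoint_of_subset_right hEH h.disj.symm
  have hDH : D ⊆ H := by
    refine h.sub h'.cH.isPreconnected hDT ?_
    obtain ⟨e, he⟩ := hE
    have h1 : e ∈ closure D := by
      have : e ∈ frontier D := by rw [h'.fH]; exact he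
      exact frontier_subset_closure this
    obtain ⟨x, hx, hx'⟩ := mem_closure_iff.mp h1 H h.oH (hEH he)
    exact ⟨x, hx', hx⟩
  have hH'D' : H' ⊆ D' := by
    refine h'.symm.sub h.cH'.isPreconnected hH'E ?_
    obtain ⟨t, ht⟩ := hT
    have h1 : t ∈ closure H' := by
      have : t ∈ frontier H' := by rw [h.fH']; exact ht
      exact frontier_subset_closure this
    obtain ⟨x, hx, hx'⟩ := mem_closure_iff.mp h1 D' h'.oH' (hTD ht)
    exact ⟨x, hx', hx⟩
  have hH'D : Disjoint H' D := disjoint_of_subset_right hDH h.disj.symm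
  obtain ⟨V₁, δ₁, hV₁, a₁, b₁⟩ := hH
  obtain ⟨V₂, δ₂, hV₂, a₂, b₂⟩ := hH'
  -- generic points of `D` and `H'` have no preimage in `R`
  have gen : ∀ w, w ∉ V₁ → w ∉ V₂ → (w ∈ D ∨ w ∈ H') → g ⁻¹' {w} ⊆ H' ∪ D := by
    intro w hw1 hw2 hw
    have hδ : δ₁ = δ₂ := by rw [← (a₁ w hw1).2, ← (a₂ w hw2).2]
    refine sub_of_ncard (a₁ w hw1).1 hH'D ?_
    rw [(a₁ w hw1).2]
    rcases hw with hw | hw
    · have h1 := (b₁ w hw1).1 (hDH hw)
      have h2 := (b₂ w hw2).1 hw
      omega
    · have h1 := (b₁ w hw1).2 hw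
      have h2 := (b₂ w hw2).2 (hH'D' hw)
      omega
  have hRo : IsOpen (H ∩ D') := h.oH.inter h'.oH'
  -- a point of `R` is not mapped into `D` or `H'`
  have key : ∀ W : Set P, IsOpen W → (∀ w ∈ W, w ∈ D ∨ w ∈ H') → ∀ p ∈ H ∩ D', g p ∉ W := by
    intro W hW hWD p hp hgp
    have h1 : g '' (H ∩ D') ∩ W ∈ 𝓝 (g p) := by
      refine inter_mem ?_ (hW.mem_nhds hgp)
      rw [← hopen p]
      exact image_mem_map (hRo.mem_nhds hp)
    have h2 : (V₁ ∪ V₂)ᶜ ∈ 𝓝[≠] (g p) := by
      have h3 : ((V₁ ∪ V₂) \ {g p})ᶜ ∈ 𝓝 (g p) := by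
        apply IsOpen.mem_nhds
        · exact ((hV₁.union hV₂).subset sdiff_subset).isClosed.isOpen_compl
        · simp
      filter_upwards [nhdsWithin_le_nhds h3, self_mem_nhdsWithin] with x hx hx2 hx3
      exact hx ⟨hx3, hx2⟩
    obtain ⟨w, ⟨⟨q, hq, rfl⟩, hwW⟩, hw2⟩ := ((mem_nhdsWithin_of_mem_nhds h1 :
      g '' (H ∩ D') ∩ W ∈ 𝓝[≠] (g p)) |> fun h3 => (inter_mem h3 h2)) |> fun h4 =>
        (NeBot.nonempty_of_mem (neBot_nhdsNE (g p)) h4)
    rw [mem_compl_iff, mem_union, not_or] at hw2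
    have h5 := gen (g q) hw2.1 hw2.2 (hWD _ hwW) (show q ∈ g ⁻¹' {g q} from rfl)
    rcases h5 with h5 | h5
    · exact h.not_H' hq.1 h5
    · exact h'.not_H' h5 hq.2
  have keyF : ∀ W : Set P, IsOpen W → (∀ w ∈ W, w ∈ D ∨ w ∈ H') → ∀ p ∈ H ∩ D',
      g p ∉ closure W := by
    intro W hW hWD p hp hgp
    have h1 : g '' (H ∩ D') ∈ 𝓝 (g p) := by
      rw [← hopen p]
      exact image_mem_map (hRo.mem_nhds hp)
    obtain ⟨_, ⟨q, hq, rfl⟩, h2⟩ := mem_closure_iff_nhds.mp hgp _ h1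
    exact key W hW hWD q hq h2
  refine ⟨hDH, ?_⟩
  intro p hp
  have kD := keyF D h'.oH (fun w hw => Or.inl hw) p hp
  have kH := keyF H' h.oH' (fun w hw => Or.inr hw) p hp
  constructor
  · rcases h.cases (g p) with h1 | h1 | h1
    · exact h1
    · exact absurd (subset_closure h1) kH
    · rw [← h.fH'] at h1
      exact absurd (frontier_subset_closure h1) kH
  · rcases h'.cases (g p) with h1 | h1 | h1
    · exact absurd (subset_closure h1) kD
    · exact h1
    · rw [← h'.fH] at h1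
      exact absurd (frontier_subset_closure h1) kD

theorem open_of_curve {g : P → P} (hg : ∀ p, HolAt g p) (c : InvCurve g) :
    ∀ p, map g (𝓝 p) = 𝓝 (g p) := by
  intro p
  apply (hg p).map_nhds
  intro hc
  have h1 : g = fun _ => g p :=
    HolAt.eq_of_eventuallyEq hg (fun x => holAt_const (g p) x) (p := p) hc
  have h2 : g (c.γ (0 : ℝ)) = g (c.γ ((1 / 2 : ℝ) : ℂ)) := by
    have e1 := congrFun h1 (c.γ (0 : ℝ))
    have e2 := congrFun h1 (c.γ ((1 / 2 : ℝ) : ℂ))
    exact e1.trans e2.symm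
  rw [c.inv, c.inv] at h2
  obtain ⟨k, hk⟩ := c.inj _ (by simp [strip, c.η_pos]) _ (by simp [strip, c.η_pos]) h2
  have h3 : c.F (1 / 2) = c.F 0 + k := by exact_mod_cast hk
  have h4 : c.F 0 < c.F (1 / 2) := c.F_mono (by norm_num)
  have h5 : c.F (1 / 2) < c.F 0 + 1 := by
    rw [← c.F_per]
    exact c.F_mono (by norm_num)
  have h6 : (0 : ℝ) < k := by linarith
  have h7 : (k : ℝ) < 1 := by linarith
  have h8 : (0 : ℤ) < k := by exact_mod_cast h6
  have h9 : k < (1 : ℤ) := by exact_mod_cast h7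
  omega

theorem near {g : P → P} (c : InvCurve g) {D' : Set P} (hD' : IsOpen D')
    (hT : ∀ x : ℝ, c.γ x ∈ D') : ∃ δ > 0, δ ≤ c.η ∧ ∀ s ∈ strip δ, c.γ s ∈ D' := by
  have hcont : ContinuousOn c.γ (strip c.η) := fun s hs => (c.hol s hs).1.continuousWithinAt
  have hU := hcont.isOpen_inter_preimage (isOpen_strip c.η) hD'
  have hK : IsCompact ((fun x : ℝ => (x : ℂ)) '' Icc 0 1) :=
    isCompact_Icc.image Complex.continuous_ofReal
  obtain ⟨δ, hδ, hsub⟩ := hK.exists_thickening_subset_open hU (by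
    rintro _ ⟨x, -, rfl⟩
    exact ⟨by simp [strip, c.η_pos], hT x⟩)
  refine ⟨min δ c.η, lt_min hδ c.η_pos, min_le_right _ _, ?_⟩
  intro s hs
  have hs1 : |s.im| < δ := lt_of_lt_of_le hs (min_le_left _ _)
  have h1 : s - (⌊s.re⌋ : ℂ) ∈ Metric.thickening δ ((fun x : ℝ => (x : ℂ)) '' Icc 0 1) := by
    rw [Metric.mem_thickening_iff]
    refine ⟨((s.re - ⌊s.re⌋ : ℝ) : ℂ), ⟨s.re - ⌊s.re⌋, ⟨?_, ?_⟩, rfl⟩, ?_⟩
    · linarith [Int.floor_le s.re]
    · linarith [Int.lt_floor_add_one s.re]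
    · rw [dist_eq_norm]
      have h2 : s - (⌊s.re⌋ : ℂ) - ((s.re - ⌊s.re⌋ : ℝ) : ℂ) = (s.im : ℂ) * Complex.I := by
        apply Complex.ext <;> simp
      rw [h2, norm_mul, Complex.norm_I, mul_one, Complex.norm_real, Real.norm_eq_abs]
      exact hs1
  have h2 := (hsub h1).2
  have h3 := c.per_int ⌊s.re⌋ (s - (⌊s.re⌋ : ℂ))
  rw [sub_add_cancel] at h3
  rw [h3]
  exact h2

/-- The open upper half plane. -/
def Up : Set P := (fun z : ℂ => (z : P)) '' {z | 0 < z.im}

/-- The open lower half plane. -/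
def Lo : Set P := (fun z : ℂ => (z : P)) '' {z | z.im < 0}

theorem isOpen_Up : IsOpen Up :=
  OnePoint.isOpenEmbedding_coe.isOpenMap _ (isOpen_lt continuous_const Complex.continuous_im)

theorem isOpen_Lo : IsOpen Lo :=
  OnePoint.isOpenEmbedding_coe.isOpenMap _ (isOpen_lt Complex.continuous_im continuous_const)

theorem coe_mem_Up {z : ℂ} : (z : P) ∈ Up ↔ 0 < z.im := by
  constructor
  · rintro ⟨w, hw, h⟩
    have : w = z := OnePoint.coe_injective h
    rw [← this]; exact hw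
  · intro h; exact ⟨z, h, rfl⟩

theorem coe_mem_Lo {z : ℂ} : (z : P) ∈ Lo ↔ z.im < 0 := by
  constructor
  · rintro ⟨w, hw, h⟩
    have : w = z := OnePoint.coe_injective h
    rw [← this]; exact hw
  · intro h; exact ⟨z, h, rfl⟩

theorem disj_UL : Disjoint Up Lo := by
  rw [disjoint_left]
  rintro _ ⟨z, hz, rfl⟩ h
  rw [coe_mem_Lo] at h
  have : 0 < z.im := hz
  linarith

theorem union_UL : Up ∪ Lo = {p : P | cjP p = p}ᶜ := by
  ext p
  induction p using OnePoint.rec with
  | infty =>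
    simp only [mem_union, mem_compl_iff, mem_ofPred_eq, cjP_infty, not_true_eq_false, iff_false,
      not_or]
    constructor
    · rintro ⟨z, -, h⟩
      exact OnePoint.coe_ne_infty z h
    · rintro ⟨z, -, h⟩
      exact OnePoint.coe_ne_infty z h
  | coe z =>
    rw [mem_union, coe_mem_Up, coe_mem_Lo, mem_compl_iff, mem_ofPred_eq, cjP_coe]
    have h1 : (((starRingEnd ℂ) z : ℂ) : P) = (z : P) ↔ z.im = 0 := by
      rw [OnePoint.coe_eq_coe, Complex.conj_eq_iff_im]
    rw [h1]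
    constructor
    · rintro (h | h)
      · exact h.ne'
      · exact h.ne
    · intro h
      rcases lt_or_gt_of_ne h with h2 | h2
      · exact Or.inr h2
      · exact Or.inl h2

theorem Lo_eq {p : P} (hp : p ∈ Lo) : cjP p ∈ Up := by
  obtain ⟨z, hz, rfl⟩ := hp
  rw [cjP_coe, coe_mem_Up]
  simpa using hz

theorem Up_eq {p : P} (hp : p ∈ Up) : cjP p ∈ Lo := by
  obtain ⟨z, hz, rfl⟩ := hp
  rw [cjP_coe, coe_mem_Lo]
  simpa using hz

theorem iter_inv {g : P → P} {R : Set P} (h : ∀ p ∈ R, g p ∈ R) (n : ℕ) :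
    ∀ p ∈ R, g^[n] p ∈ R := by
  induction n with
  | zero => intro p hp; exact hp
  | succ n ih =>
    intro p hp
    rw [Function.iterate_succ_apply]
    exact ih _ (h p hp)

theorem iter_cj {g : P → P} (hgr : ∀ p, g (cjP p) = cjP (g p)) (n : ℕ) (p : P) :
    g^[n] (cjP p) = cjP (g^[n] p) := by
  induction n generalizing p with
  | zero => rfl
  | succ n ih => rw [Function.iterate_succ_apply, hgr, ih, Function.iterate_succ_apply]

theorem not_closure {W Y : Set P} (hW : IsOpen W) (h : ∀ y ∈ Y, y ∉ W) {a : P} (ha : a ∈ W) :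
    a ∉ closure Y := by
  intro hc
  obtain ⟨y, hy, hy2⟩ := mem_closure_iff.mp hc W hW ha
  exact h y hy2 hy

theorem sides_half {g : P → P} (c : InvCurve g)
    (hsym : ∀ s ∈ strip c.η, c.γ ((starRingEnd ℂ) s) = cjP (c.γ s))
    (hreal : (range fun x : ℝ => c.γ x) = {p | cjP p = p})
    (hup : ∀ s ∈ strip c.η, 0 < s.im → ∃ w : ℂ, 0 < w.im ∧ c.γ s = (w : P))
    {A B : Set P} (hS : c.toLine.Sides A B) : A ⊆ Up ∧ B ⊆ Lo := by
  have hell : c.toLine.ell = {p | cjP p = p} := hreal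
  have hη := c.η_pos
  set s : ℂ := ((c.η / 2 : ℝ) : ℂ) * Complex.I with hs
  have hsim : s.im = c.η / 2 := by simp [hs]
  have hs1 : s ∈ strip c.η := by
    change |s.im| < c.η
    rw [hsim, abs_of_pos (by linarith)]
    linarith
  obtain ⟨w, hw, hw2⟩ := hup s hs1 (by rw [hsim]; linarith)
  have hA : c.γ s ∈ A := hS.up s hs1 (by rw [hsim]; linarith)
  have hs2 : (starRingEnd ℂ) s ∈ strip c.η := conj_mem_strip hs1
  have hB : c.γ ((starRingEnd ℂ) s) ∈ B := hS.down _ hs2 (by
    rw [Complex.conj_im, hsim]; linarith)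
  have hu : A ∪ B = Up ∪ Lo := by rw [hS.union, hell, union_UL]
  constructor
  · refine hS.conn_p.isPreconnected.subset_left_of_subset_union isOpen_Up isOpen_Lo disj_UL ?_ ?_
    · rw [← hu]; exact subset_union_left
    · refine ⟨c.γ s, hA, ?_⟩
      rw [hw2, coe_mem_Up]; exact hw
  · refine hS.conn_m.isPreconnected.subset_left_of_subset_union isOpen_Lo isOpen_Up disj_UL.symm
      ?_ ?_
    · rw [union_comm Lo Up, ← hu]; exact subset_union_right
    · refine ⟨c.γ ((starRingEnd ℂ) s), hB, ?_⟩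
      rw [hsym s hs1, hw2]
      exact Up_eq (coe_mem_Up.mpr hw)

end TwoCurveAux

open TwoCurveAux in
theorem stable_of_two_curves {g : P → P} (hg : ∀ p, HolAt g p) (c c' : InvCurve g)
    (hsym : ∀ s ∈ strip c.η, c.γ ((starRingEnd ℂ) s) = cjP (c.γ s)) (hreal : (range fun x : ℝ => c.γ x) = {p | cjP p = p})
    (hup : ∀ s ∈ strip c.η, 0 < s.im → ∃ w : ℂ, 0 < w.im ∧ c.γ s = (w : P))
    (hgr : ∀ p, g (cjP p) = cjP (g p)) {A B A' B' : Set P} (hS : c.toLine.Sides A B)
    (hS' : c'.toLine.Sides A' B') (hH : Half g A B) (hH' : Half g A' B') (hdisj : ∀ x y : ℝ, c.γ x ≠ c'.γ y) : c.Stable := by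
  have hopen := open_of_curve hg c
  have hell : c.toLine.ell = {p | cjP p = p} := hreal
  obtain ⟨hAU, hBL⟩ := sides_half c hsym hreal hup hS
  have hSD := SD.of_sides hS
  have hSD' := SD.of_sides hS'
  -- connectedness of the curves
  have hconn : ∀ c : InvCurve g, IsPreconnected c.toLine.ell := by
    intro c
    apply isPreconnected_range
    rw [continuous_iff_continuousAt]
    intro x
    have h2 : HolAt c.γ (x : ℂ) := c.hol _ (by simp [strip, c.η_pos])
    exact ContinuousAt.comp' (g := c.γ) h2.continuousAt Complex.continuous_ofReal.continuousAt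
  have hne : ∀ c : InvCurve g, c.toLine.ell.Nonempty := fun c => range_nonempty _
  have hd : Disjoint c'.toLine.ell c.toLine.ell := by
    rw [disjoint_left]
    rintro _ ⟨y, rfl⟩ ⟨x, hx⟩
    exact hdisj x y hx
  have hTinv : ∀ p ∈ c.toLine.ell, g p ∈ c.toLine.ell := by
    rintro _ ⟨x, rfl⟩
    exact ⟨c.F x, (c.inv x).symm⟩
  -- reduction
  suffices main : ∀ D D' : Set P, SD c'.toLine.ell D D' → c.toLine.ell ⊆ D' → Half g D D' →
      c.Stable by
    rcases hSD'.sub_or (hconn c) hd.symm with h1 | h1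
    · exact main B' A' hSD'.symm h1 (half_symm hH')
    · exact main A' B' hSD' h1 hH'
  intro D D' hDD hTD hHD
  obtain ⟨δ, hδ, hδη, hδD⟩ := near c hDD.oH' (fun x => hTD ⟨x, rfl⟩)
  obtain ⟨q, hq⟩ := hDD.cH.nonempty
  rcases hSD.sub_or (hconn c') hd with hE | hE
  · -- `E` in the upper half plane
    obtain ⟨hDA, hinv⟩ := core hopen hSD hDD hE hTD (hne c) (hne c') hH hHD
    have hYinv : ∀ p ∈ (A ∩ D') ∪ c.toLine.ell, g p ∈ (A ∩ D') ∪ c.toLine.ell := by
      rintro p (hp | hp)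
      · exact Or.inl (hinv p hp)
      · exact Or.inr (hTinv p hp)
    obtain ⟨a, ha, hqa⟩ := hAU (hDA hq)
    refine stable_of_avoid hg c hsym hreal hgr hδ hδη (Y := (A ∩ D') ∪ c.toLine.ell)
      (a := a) (b := -Complex.I) ?_ ha (by simp) ?_ ?_
    · intro n s hs0 hs1
      apply iter_inv hYinv
      have hs2 : s ∈ strip δ := by
        change |s.im| < δ
        rw [abs_of_nonneg hs0]; exact hs1
      have hs3 : s ∈ strip c.η := lt_of_lt_of_le hs2 hδη
      rcases eq_or_lt_of_le hs0 with h0 | h0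
      · exact Or.inr ((c.toLine.mem_ell_iff hs3).mpr h0.symm)
      · exact Or.inl ⟨hS.up s hs3 h0, hδD s hs2⟩
    · refine not_closure hDD.oH ?_ (by rw [← hqa] at hq; exact hq)
      rintro y (hy | hy) hyD
      · exact hDD.not_H' hyD hy.2
      · exact hDD.not_H' hyD (hTD hy)
    · refine not_closure isOpen_Lo ?_ (coe_mem_Lo.mpr (by simp))
      rintro y (hy | hy) hyL
      · exact disjoint_left.mp disj_UL (hAU hy.1) hyL
      · have h1 : y ∈ {p : P | cjP p = p}ᶜ := by rw [← union_UL]; exact Or.inr hyL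
        rw [hell] at hy
        exact h1 hy
  · -- `E` in the lower half plane
    obtain ⟨hDB, hinv⟩ := core hopen hSD.symm hDD hE hTD (hne c) (hne c') (half_symm hH) hHD
    have hYinv : ∀ p ∈ (B ∩ D') ∪ c.toLine.ell, g p ∈ (B ∩ D') ∪ c.toLine.ell := by
      rintro p (hp | hp)
      · exact Or.inl (hinv p hp)
      · exact Or.inr (hTinv p hp)
    obtain ⟨b0, hb0, hqb⟩ := hBL (hDB hq)
    refine stable_of_avoid hg c hsym hreal hgr hδ hδη (Y := cjP ⁻¹' ((B ∩ D') ∪ c.toLine.ell))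
      (a := (starRingEnd ℂ) b0) (b := -Complex.I) ?_ (by simpa using hb0) (by simp) ?_ ?_
    · intro n s hs0 hs1
      have hs2 : s ∈ strip δ := by
        change |s.im| < δ
        rw [abs_of_nonneg hs0]; exact hs1
      have hs3 : s ∈ strip c.η := lt_of_lt_of_le hs2 hδη
      change cjP (g^[n] (c.γ s)) ∈ (B ∩ D') ∪ c.toLine.ell
      rw [← iter_cj hgr, ← hsym s hs3]
      apply iter_inv hYinv
      rcases eq_or_lt_of_le hs0 with h0 | h0
      · refine Or.inr ((c.toLine.mem_ell_iff (conj_mem_strip hs3)).mpr ?_)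
        rw [Complex.conj_im, ← h0, neg_zero]
      · refine Or.inl ⟨hS.down _ (conj_mem_strip hs3) ?_, hδD _ (conj_mem_strip hs2)⟩
        rw [Complex.conj_im]; linarith
    · refine not_closure (hDD.oH.preimage continuous_cjP) ?_ ?_
      · intro y hy hyD
        rcases hy with hy | hy
        · exact hDD.not_H' hyD hy.2
        · exact hDD.not_H' hyD (hTD hy)
      · change cjP (((starRingEnd ℂ) b0 : ℂ) : P) ∈ D
        rw [cjP_coe, Complex.conj_conj]
        rw [← hqb] at hq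
        exact hq
    · refine not_closure (isOpen_Up.preimage continuous_cjP) ?_ ?_
      · intro y hy hyL
        rcases hy with hy | hy
        · exact disjoint_left.mp disj_UL hyL (hBL hy.1)
        · have h1 : cjP y ∈ {p : P | cjP p = p}ᶜ := by rw [← union_UL]; exact Or.inl hyL
          rw [hell] at hy
          exact h1 hy
      · change cjP ((-Complex.I : ℂ) : P) ∈ Up
        rw [cjP_coe, coe_mem_Up]
        simp

end Pool.Agent.Lib.MP_1f4a82_an
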