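import Pool.Agent.Lib.MP_1f4a82_an.Types
import Pool.Agent.Lib.MP_1f4a82_an.Three
import Pool.Agent.Lib.MP_1f4a82_an.HalfLemma
import Pool.Agent.Lib.MP_1f4a82_an.TwoCurve
import Pool.Agent.Lib.MP_1f4a82_an.Fibre
import Pool.Agent.Lib.MP_1f4a82_an.Second
import Pool.Agent.Lib.MP_1f4a82_an.Count
import Pool.Agent.Lib.MP_1f4a82_an.Generic

/-!
An invariant curve which is not stable is a round circle.
-/

open Topology Filter Set

namespace Pool.Agent.Lib.MP_1f4a82_an

namespace RoundAux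

theorem F_iterate_per {f : P → P} (c : InvCurve f) (p : ℕ) (x : ℝ) :
    c.F^[p] (x + 1) = c.F^[p] x + 1 := by
  induction p generalizing x with
  | zero => rfl
  | succ n ih => rw [Function.iterate_succ_apply, c.F_per, ih, ← Function.iterate_succ_apply]

theorem iterate_inv {f : P → P} (c : InvCurve f) (p : ℕ) (x : ℝ) :
    f^[p] (c.γ x) = c.γ ((c.F^[p] x : ℝ) : ℂ) := by
  induction p generalizing x with
  | zero => rfl
  | succ n ih => rw [Function.iterate_succ_apply, c.inv, ih, ← Function.iterate_succ_apply]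

/-- The curve, as an invariant curve of an iterate. -/
noncomputable def iter {g : P → P} (c : InvCurve g) (p : ℕ) (hp : 1 ≤ p) : InvCurve (g^[p]) where
  γ := c.γ
  η := c.η
  η_pos := c.η_pos
  hol := c.hol
  per := c.per
  inj := c.inj
  F := c.F^[p]
  F_cont := c.F_cont.iterate p
  F_mono := c.F_mono.iterate p
  F_per := F_iterate_per c p
  inv := iterate_inv c p
  noper := by
    intro n hn x k
    rw [← Function.iterate_mul]
    exact c.noper (p * n) (Nat.one_le_iff_ne_zero.mpr (Nat.mul_ne_zero (by omega) (by omega))) x k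

theorem F_surj {f : P → P} (c : InvCurve f) : Function.Surjective c.F := by
  intro y
  have h1 : ∃ k : ℤ, c.F 0 + k ≤ y := by
    refine ⟨⌊y - c.F 0⌋, ?_⟩
    linarith [Int.floor_le (y - c.F 0)]
  have h2 : ∃ k : ℤ, y ≤ c.F 0 + k := by
    refine ⟨⌈y - c.F 0⌉, ?_⟩
    linarith [Int.le_ceil (y - c.F 0)]
  obtain ⟨k, hk⟩ := h1
  obtain ⟨l, hl⟩ := h2
  rw [← c.F_per_int] at hk hl
  exact mem_range_of_exists_le_of_exists_ge c.F_cont ⟨_, hk⟩ ⟨_, hl⟩

theorem real_mem {f : P → P} (c : InvCurve f) (x : ℝ) : (x : ℂ) ∈ strip c.η := by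
  simp [strip, c.η_pos]

theorem γ_eq {f : P → P} (c : InvCurve f) {x y : ℝ} (h : c.γ x = c.γ y) :
    ∃ k : ℤ, y = x + k := by
  obtain ⟨k, hk⟩ := c.inj x (real_mem c x) y (real_mem c y) h
  exact ⟨k, by exact_mod_cast hk⟩

theorem γ_F_eq {f : P → P} (c : InvCurve f) {x y : ℝ} (h : c.γ (c.F x) = c.γ (c.F y)) :
    c.γ x = c.γ y := by
  obtain ⟨k, hk⟩ := γ_eq c h
  rw [← c.F_per_int] at hk
  have h1 := c.F_mono.injective hk
  rw [h1]
  push_cast
  exact (c.per_int k x).symm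

theorem nonconst {f : P → P} (c : InvCurve f) : ∃ x y, f x ≠ f y := by
  refine ⟨c.γ ((0 : ℝ) : ℂ), c.γ ((1 / 2 : ℝ) : ℂ), ?_⟩
  rw [c.inv, c.inv]
  intro h
  have h1 := γ_F_eq c h
  obtain ⟨k, hk⟩ := γ_eq c h1
  have h2 : ((2 * k : ℤ) : ℝ) = 1 := by push_cast; linarith
  have h3 : 2 * k = 1 := by exact_mod_cast h2
  omega

theorem hol_iterate {g : P → P} (hg : ∀ p, HolAt g p) (n : ℕ) (x : P) : HolAt (g^[n]) x := by
  induction n generalizing x with
  | zero => exact holAt_id x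
  | succ n ih =>
    have : (g^[n + 1]) = fun x => g^[n] (g x) := by
      funext y; rw [Function.iterate_succ_apply]
    rw [this]
    exact (ih (g x)).comp (hg x)

theorem encard_le {g : P → P} (hg : ∀ p, HolAt g p) (hn : ∃ x y, g x ≠ g y) :
    ∃ d : ℕ, ∀ w, (g ⁻¹' {w}).encard ≤ d := by
  obtain ⟨-, hfin, d, -, hle, -⟩ := exists_degree hg hn
  refine ⟨d, fun w => ?_⟩
  rw [← (hfin w).cast_ncard_eq]
  exact_mod_cast hle w

end RoundAux

open RoundAux

/-- An invariant curve which is not stable is the image of the real circle under a Möbius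
transformation. -/
theorem round_of_not_stable {f : P → P} (hf : ∀ p, HolAt f p) (c : InvCurve f)
    (hns : ¬ c.Stable) :
    ∃ h : P → P, (∀ p, HolAt h p) ∧ Function.Injective h ∧
      (range fun x : ℝ => c.γ x) = h '' {p | cjP p = p} := by
  have hfn := nonconst c
  obtain ⟨d, hd⟩ := encard_le hf hfn
  obtain ⟨⟨R⟩, hSC⟩ := types hf hd c hns
  have hγr : ∀ x : ℝ, R.h (R.cT.γ x) = c.γ x := fun x => R.h_γ _ (real_mem c x)
  by_cases hinj : Function.Injective R.h
  · refine ⟨R.h, R.h_hol, hinj, ?_⟩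
    rw [← R.real, ← range_comp]
    congr 1
    funext x
    exact (hγr x).symm
  exfalso
  have hgn := nonconst R.cT
  have hhn : ∃ x y, R.h x ≠ R.h y := by
    refine ⟨R.cT.γ ((0 : ℝ) : ℂ), R.cT.γ ((1 / 2 : ℝ) : ℂ), ?_⟩
    rw [hγr, hγr]
    intro h
    obtain ⟨k, hk⟩ := γ_eq c h
    have h2 : ((2 * k : ℤ) : ℝ) = 1 := by push_cast; linarith
    have h3 : 2 * k = 1 := by exact_mod_cast h2
    omega
  -- a good real value
  obtain ⟨hcrit, -⟩ := exists_degree R.g_hol hgn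
  obtain ⟨t₀, ht₀⟩ : ∃ t : ℝ, ((t : ℂ) : P) ∉ critVal R.g ∪ {R.g OnePoint.infty} := by
    have hi : Function.Injective fun t : ℝ => ((t : ℂ) : P) := fun a b h =>
      Complex.ofReal_injective (OnePoint.coe_injective h)
    have hfin := (hcrit.union (finite_singleton (R.g OnePoint.infty))).preimage
      (f := fun t : ℝ => ((t : ℂ) : P)) hi.injOn
    obtain ⟨t, ht⟩ := hfin.infinite_compl.nonempty
    exact ⟨t, ht⟩
  have ht1 : ((t₀ : ℂ) : P) ∉ critVal R.g := fun h => ht₀ (Or.inl h)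
  have hinf : R.g OnePoint.infty ≠ ((t₀ : ℂ) : P) := fun h => ht₀ (Or.inr h.symm)
  have hreg : ∀ z, R.g z = ((t₀ : ℂ) : P) → ∃ U ∈ 𝓝 z, InjOn R.g U := by
    intro z hz
    by_contra h
    exact ht1 ⟨z, hz, h⟩
  have hreal : ∀ p, cjP p = p → ∃ x : ℝ, R.cT.γ x = p := by
    intro p hp
    have : p ∈ range fun x : ℝ => R.cT.γ x := by rw [R.real]; exact hp
    exact this
  have hreal' : ∀ x : ℝ, cjP (R.cT.γ x) = R.cT.γ x := by
    intro x
    have : R.cT.γ x ∈ {p | cjP p = p} := by rw [← R.real]; exact ⟨x, rfl⟩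
    exact this
  have hroot : ∃! x : P, cjP x = x ∧ R.g x = ((t₀ : ℂ) : P) := by
    obtain ⟨y, hy⟩ := hreal ((t₀ : ℂ) : P) (by rw [cjP_coe, Complex.conj_ofReal])
    obtain ⟨x, hx⟩ := F_surj R.cT y
    refine ⟨R.cT.γ x, ⟨hreal' x, by rw [R.cT.inv, hx, hy]⟩, ?_⟩
    rintro p ⟨hp, hgp⟩
    obtain ⟨x', rfl⟩ := hreal p hp
    rw [R.cT.inv] at hgp
    apply γ_F_eq R.cT
    rw [hgp, hx, hy]
  have hgen := generic_injective R.h_hol R.g_hol R.g_real t₀ hroot hinf hreg R.gen
  obtain ⟨hloc, hfi⟩ := fibre_injective hf R.g_hol R.h_hol hfn hgn hhn R.semi c hgen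
  obtain ⟨p, e, cA, δ, hp, he, hδ, hrel, hdisj⟩ := exists_second_curve hf R.g_hol R.h_hol R.semi c
    R.cT R.η_eq R.F_eq R.h_γ hloc hfi hinj
  have hfc : Continuous f := continuous_iff_continuousAt.mpr fun x => (hf x).continuousAt
  have hhc : Continuous R.h := continuous_iff_continuousAt.mpr fun x => (R.h_hol x).continuousAt
  have hAns : ¬ cA.Stable := fun h => hns (stable_transfer hfc hhc R.semi c hp cA he hδ hrel h)
  set cT' : InvCurve (R.g^[p]) := iter R.cT p hp with hcT'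
  have hTns : ¬ cT'.Stable := by
    intro h
    refine hns (stable_transfer hfc hhc R.semi c hp cT' (e := 1) le_rfl c.η_pos ?_ h)
    intro s hs
    rw [Nat.cast_one, one_mul]
    exact R.h_γ s hs
  have hgp : ∀ x, HolAt (R.g^[p]) x := hol_iterate R.g_hol p
  have hgpn := nonconst cT'
  obtain ⟨d', hd'⟩ := encard_le hgp hgpn
  obtain ⟨⟨RA⟩, -⟩ := types hgp hd' cA hAns
  obtain ⟨⟨RT⟩, -⟩ := types hgp hd' cT' hTns
  obtain ⟨A, B, hAB⟩ := cT'.toLine.exists_sides
  obtain ⟨A', B', hAB'⟩ := cA.toLine.exists_sides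
  have hH := half_of_ratData hgp hgpn cT' hTns RT hAB
  have hH' := half_of_ratData hgp hgpn cA hAns RA hAB'
  apply hTns
  refine stable_of_two_curves hgp cT' cA ?_ ?_ ?_ ?_ hAB hAB' hH hH' ?_
  · intro s hs
    exact R.sym s (by rw [← R.η_eq]; exact hs)
  · exact R.real
  · intro s hs
    exact R.up s (by rw [← R.η_eq]; exact hs)
  · intro q
    have hsemi : Function.Semiconj cjP R.g R.g := fun x => (R.g_real x).symm
    exact ((hsemi.iterate_right p) q).symm
  · intro x y h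
    exact hdisj y x h.symm

end Pool.Agent.Lib.MP_1f4a82_an
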