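import Pool.Agent.Lib.MP_1f4a82_an.Rat

/-!
The image of the extended real line under a Möbius transformation is a round circle.
-/

open Topology Filter Set

namespace Pool.Agent.Lib.MP_1f4a82_an

/-- A round circle in the Riemann sphere: a Euclidean circle, or a line together with `∞`. -/
def IsRoundCircle (C : Set P) : Prop :=
  (∃ (a : ℂ) (r : ℝ), 0 < r ∧ C = (fun z : ℂ => (z : P)) '' {z | ‖z - a‖ = r}) ∨
    ∃ a v : ℂ, v ≠ 0 ∧
      C = insert OnePoint.infty ((fun z : ℂ => (z : P)) '' {z | ∃ t : ℝ, z = a + t * v})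

namespace RoundCircleAux

theorem real_cases {p : P} : cjP p = p ↔ p = OnePoint.infty ∨ ∃ t : ℝ, p = ((t : ℂ) : P) := by
  constructor
  · intro h
    induction p using OnePoint.rec with
    | infty => exact Or.inl rfl
    | coe z =>
      right
      rw [cjP_coe] at h
      exact ⟨z.re, by rw [Complex.conj_eq_iff_re.mp (OnePoint.coe_injective h)]⟩
  · rintro (rfl | ⟨t, rfl⟩)
    · rfl
    · rw [cjP_coe, Complex.conj_ofReal]

/-- The circle `{1/(t+e)} ∪ {0}`. -/
theorem inv_circle {e : ℂ} (he : e.im ≠ 0) (w : ℂ) :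
    (w = 0 ∨ ∃ t : ℝ, w = ((t : ℂ) + e)⁻¹) ↔
      ‖w + Complex.I / (2 * e.im)‖ = 1 / (2 * |e.im|) := by
  have hnorm : ∀ w : ℂ, ‖w + Complex.I / (2 * e.im)‖ = 1 / (2 * |e.im|) ↔
      w.re ^ 2 + w.im ^ 2 + w.im / e.im = 0 := by
    intro w
    have h0 : (0 : ℝ) ≤ 1 / (2 * |e.im|) := by positivity
    rw [← abs_of_nonneg (norm_nonneg _), ← abs_of_nonneg h0, ← sq_eq_sq_iff_abs_eq_abs,
      ← Complex.normSq_eq_norm_sq, Complex.normSq_apply]
    have h1 : (w + Complex.I / (2 * (e.im : ℂ))).re = w.re := by
      have : Complex.I / (2 * (e.im : ℂ)) = ((1 / (2 * e.im) : ℝ) : ℂ) * Complex.I := by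
        push_cast; ring
      rw [this, Complex.add_re, Complex.re_ofReal_mul, Complex.I_re, mul_zero, add_zero]
    have h2 : (w + Complex.I / (2 * (e.im : ℂ))).im = w.im + 1 / (2 * e.im) := by
      have : Complex.I / (2 * (e.im : ℂ)) = ((1 / (2 * e.im) : ℝ) : ℂ) * Complex.I := by
        push_cast; ring
      rw [this, Complex.add_im, Complex.im_ofReal_mul, Complex.I_im, mul_one]
    rw [h1, h2]
    have h3 : (1 / (2 * |e.im|)) ^ 2 = (1 / (2 * e.im)) ^ 2 := by
      rw [div_pow, div_pow, mul_pow, mul_pow, sq_abs]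
    rw [h3]
    constructor
    · intro h
      have : w.re * w.re + (w.im + 1 / (2 * e.im)) * (w.im + 1 / (2 * e.im)) =
          w.re ^ 2 + w.im ^ 2 + w.im / e.im + (1 / (2 * e.im)) ^ 2 := by
        field_simp; ring
      rw [this] at h
      linarith
    · intro h
      have : w.re * w.re + (w.im + 1 / (2 * e.im)) * (w.im + 1 / (2 * e.im)) =
          w.re ^ 2 + w.im ^ 2 + w.im / e.im + (1 / (2 * e.im)) ^ 2 := by
        field_simp; ring
      rw [this, h, zero_add]
  rw [hnorm]
  constructor
  · rintro (rfl | ⟨t, rfl⟩)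
    · simp
    · rw [Complex.inv_re, Complex.inv_im]
      have hN : Complex.normSq ((t : ℂ) + e) ≠ 0 := by
        rw [Ne, Complex.normSq_eq_zero]
        intro h
        apply he
        have := congrArg Complex.im h
        simpa using this
      have h1 : ((t : ℂ) + e).re ^ 2 + ((t : ℂ) + e).im ^ 2 = Complex.normSq ((t : ℂ) + e) := by
        rw [Complex.normSq_apply]; ring
      have h2 : ((t : ℂ) + e).im = e.im := by simp
      have h3 : (((t : ℂ) + e).re / Complex.normSq ((t : ℂ) + e)) ^ 2 +
          (-((t : ℂ) + e).im / Complex.normSq ((t : ℂ) + e)) ^ 2 =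
          (Complex.normSq ((t : ℂ) + e))⁻¹ := by
        rw [div_pow, div_pow, neg_sq, ← add_div, h1]
        field_simp
      rw [h3, h2]
      field_simp
      ring
  · intro h
    by_cases hw : w = 0
    · exact Or.inl hw
    · right
      refine ⟨(w⁻¹ - e).re, ?_⟩
      have hN : Complex.normSq w ≠ 0 := by rwa [Ne, Complex.normSq_eq_zero]
      have h1 : Complex.normSq w = w.re ^ 2 + w.im ^ 2 := by rw [Complex.normSq_apply]; ring
      have h2 : (w⁻¹ - e).im = 0 := by
        rw [Complex.sub_im, Complex.inv_im]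
        have h3 : w.im = -(e.im * Complex.normSq w) := by
          rw [h1]
          field_simp at h
          linarith
        rw [h3]
        field_simp
        ring
      have h3 : (((w⁻¹ - e).re : ℝ) : ℂ) = w⁻¹ - e := by
        apply Complex.ext
        · simp
        · simp [h2]
      rw [h3]
      rw [sub_add_cancel, inv_inv]

end RoundCircleAux

open RoundCircleAux

theorem isRoundCircle_of_moebius {h : P → P} (hh : ∀ p, HolAt h p) (hi : Function.Injective h) :
    IsRoundCircle (h '' {p | cjP p = p}) := by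
  obtain ⟨a, b, c, d, had, rfl⟩ := exists_moebius hh hi
  have hval : ∀ z : ℂ, ratMap (Polynomial.C a * Polynomial.X + Polynomial.C b)
      (Polynomial.C c * Polynomial.X + Polynomial.C d) (z : P) =
      if c * z + d = 0 then OnePoint.infty else (((a * z + b) / (c * z + d) : ℂ) : P) := by
    intro z
    rw [rat_ratMap_coe]
    simp
  by_cases hc : c = 0
  · -- affine maps
    subst hc
    have ha : a ≠ 0 := by rintro rfl; apply had; ring
    have hd : d ≠ 0 := by rintro rfl; apply had; ring
    right
    refine ⟨b / d, a / d, div_ne_zero ha hd, ?_⟩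
    have hinf : ratMap (Polynomial.C a * Polynomial.X + Polynomial.C b)
        (Polynomial.C 0 * Polynomial.X + Polynomial.C d) OnePoint.infty = OnePoint.infty := by
      rw [rat_ratMap_infty, if_pos]
      rw [Polynomial.natDegree_linear ha]
      simp
    have hfin : ∀ t : ℂ, ratMap (Polynomial.C a * Polynomial.X + Polynomial.C b)
        (Polynomial.C 0 * Polynomial.X + Polynomial.C d) (t : P) =
        ((b / d + t * (a / d) : ℂ) : P) := by
      intro t
      rw [hval, if_neg (by simpa using hd)]
      congr 1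
      rw [zero_mul, zero_add]
      field_simp
      ring
    ext p
    constructor
    · rintro ⟨q, hq, rfl⟩
      rcases real_cases.mp hq with rfl | ⟨t, rfl⟩
      · exact Or.inl hinf
      · exact Or.inr ⟨_, ⟨t, rfl⟩, (hfin t).symm⟩
    · rintro (rfl | ⟨_, ⟨t, rfl⟩, rfl⟩)
      · exact ⟨OnePoint.infty, real_cases.mpr (Or.inl rfl), hinf⟩
      · exact ⟨((t : ℂ) : P), real_cases.mpr (Or.inr ⟨t, rfl⟩), hfin t⟩
  · -- not affine
    set e : ℂ := d / c with he
    set D : ℂ := (b * c - a * d) / c ^ 2 with hD
    have hD0 : D ≠ 0 := by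
      rw [hD]
      refine div_ne_zero ?_ (pow_ne_zero _ hc)
      intro h; apply had; linear_combination -h
    have hinf : ratMap (Polynomial.C a * Polynomial.X + Polynomial.C b)
        (Polynomial.C c * Polynomial.X + Polynomial.C d) OnePoint.infty = ((a / c : ℂ) : P) := by
      rw [rat_ratMap_infty, if_neg]
      · rw [Polynomial.natDegree_linear hc]
        simp
      · rw [Polynomial.natDegree_linear hc]
        have := Polynomial.natDegree_linear_le (a := a) (b := b)
        omega
    have hpole : ∀ z : ℂ, c * z + d = 0 ↔ z + e = 0 := by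
      intro z
      have : c * z + d = c * (z + e) := by rw [he]; field_simp
      rw [this, mul_eq_zero]
      simp [hc]
    have hfin : ∀ z : ℂ, z + e ≠ 0 → ratMap (Polynomial.C a * Polynomial.X + Polynomial.C b)
        (Polynomial.C c * Polynomial.X + Polynomial.C d) (z : P) =
        ((a / c + D * (z + e)⁻¹ : ℂ) : P) := by
      intro z hz
      rw [hval, if_neg (by rwa [hpole])]
      congr 1
      have h1 : c * z + d = c * (z + e) := by rw [he]; field_simp
      rw [h1, hD]
      field_simp
      rw [he]
      field_simp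
      ring
    have hpv : ∀ z : ℂ, z + e = 0 → ratMap (Polynomial.C a * Polynomial.X + Polynomial.C b)
        (Polynomial.C c * Polynomial.X + Polynomial.C d) (z : P) = OnePoint.infty := by
      intro z hz
      rw [hval, if_pos (by rwa [hpole])]
    by_cases hei : e.im = 0
    · -- a line
      right
      refine ⟨a / c, D, hD0, ?_⟩
      have hereal : e = (e.re : ℂ) := by
        apply Complex.ext <;> simp [hei]
      ext p
      constructor
      · rintro ⟨q, hq, rfl⟩
        rcases real_cases.mp hq with rfl | ⟨t, rfl⟩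
        · right
          refine ⟨a / c, ⟨0, by simp⟩, hinf.symm⟩
        · by_cases ht : (t : ℂ) + e = 0
          · exact Or.inl (hpv _ ht)
          · right
            refine ⟨a / c + D * ((t : ℂ) + e)⁻¹, ⟨(t + e.re)⁻¹, ?_⟩, (hfin _ ht).symm⟩
            have : ((t : ℂ) + e)⁻¹ = (((t + e.re)⁻¹ : ℝ) : ℂ) := by
              rw [hereal]; push_cast; simp
            rw [this]; ring
      · rintro (rfl | ⟨_, ⟨t, rfl⟩, rfl⟩)
        · refine ⟨((-e.re : ℝ) : ℂ), real_cases.mpr (Or.inr ⟨_, rfl⟩), ?_⟩
          apply hpv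
          rw [hereal]; push_cast; simp
        · by_cases ht : t = 0
          · refine ⟨OnePoint.infty, real_cases.mpr (Or.inl rfl), ?_⟩
            rw [hinf, ht]
            simp
          · refine ⟨((t⁻¹ - e.re : ℝ) : ℂ), real_cases.mpr (Or.inr ⟨_, rfl⟩), ?_⟩
            have h1 : ((t⁻¹ - e.re : ℝ) : ℂ) + e = ((t⁻¹ : ℝ) : ℂ) := by
              rw [hereal]; push_cast; simp
            have ht' : (t : ℂ) ≠ 0 := by exact_mod_cast ht
            rw [hfin _ (by rw [h1]; push_cast; exact inv_ne_zero ht'), h1]
            congr 1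
            push_cast
            rw [inv_inv]; ring
    · -- a circle
      left
      refine ⟨a / c - D * (Complex.I / (2 * e.im)), ‖D‖ * (1 / (2 * |e.im|)), ?_, ?_⟩
      · have : 0 < ‖D‖ := norm_pos_iff.mpr hD0
        positivity
      have hne : ∀ t : ℝ, (t : ℂ) + e ≠ 0 := by
        intro t h
        apply hei
        have := congrArg Complex.im h
        simpa using this
      have hDn : ‖D‖ ≠ 0 := norm_ne_zero_iff.mpr hD0
      have key : ∀ z : ℂ, ‖z - (a / c - D * (Complex.I / (2 * e.im)))‖ =
          ‖D‖ * (1 / (2 * |e.im|)) ↔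
          (z = a / c ∨ ∃ t : ℝ, z = a / c + D * ((t : ℂ) + e)⁻¹) := by
        intro z
        have h1 : z - (a / c - D * (Complex.I / (2 * e.im))) =
            D * ((z - a / c) / D + Complex.I / (2 * e.im)) := by
          rw [mul_add, mul_div_cancel₀ _ hD0]; ring
        rw [h1, norm_mul, mul_right_inj' hDn, ← inv_circle hei]
        constructor
        · rintro (h | ⟨t, h⟩)
          · left
            rw [div_eq_zero_iff] at h
            rcases h with h | h
            · exact sub_eq_zero.mp h
            · exact absurd h hD0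
          · right
            refine ⟨t, ?_⟩
            rw [← h, mul_div_cancel₀ _ hD0]; ring
        · rintro (h | ⟨t, h⟩)
          · left; rw [h, sub_self, zero_div]
          · right
            refine ⟨t, ?_⟩
            rw [h]; field_simp; ring
      ext p
      constructor
      · rintro ⟨q, hq, rfl⟩
        rcases real_cases.mp hq with rfl | ⟨t, rfl⟩
        · exact ⟨a / c, (key _).mpr (Or.inl rfl), hinf.symm⟩
        · exact ⟨_, (key _).mpr (Or.inr ⟨t, rfl⟩), (hfin _ (hne t)).symm⟩
      · rintro ⟨z, hz, rfl⟩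
        rcases (key z).mp hz with rfl | ⟨t, rfl⟩
        · exact ⟨OnePoint.infty, real_cases.mpr (Or.inl rfl), hinf⟩
        · exact ⟨((t : ℂ) : P), real_cases.mpr (Or.inr ⟨t, rfl⟩), hfin _ (hne t)⟩

end Pool.Agent.Lib.MP_1f4a82_an
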