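import Pool.Agent.Lib.MP_1f4a82_an.MainDefs

/-!
From an analytic Jordan curve carrying an irrational rotation to an `InvCurve`.
-/

open Topology Filter Set

namespace Pool.Agent.Lib.MP_1f4a82_an

namespace SetupAux

/-- Complexification of a real-analytic function of a real variable. -/
theorem exists_complexification {u : ℝ → ℂ} {t : ℝ} (hu : AnalyticAt ℝ u t) :
    ∃ U : ℂ → ℂ, AnalyticAt ℂ U (t : ℂ) ∧ ∀ᶠ s in 𝓝 t, U ((s : ℝ) : ℂ) = u s := by
  obtain ⟨p, hp⟩ := hu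
  rw [hasFPowerSeriesAt_iff] at hp
  set a : ℕ → ℂ := fun n => p.coeff n with ha
  have h1 : ∃ r : ℝ, 0 < r ∧ ∀ x : ℝ, |x| < r → HasSum (fun n => x ^ n • a n) (u (t + x)) := by
    obtain ⟨r, hr, h2⟩ := Metric.eventually_nhds_iff.1 hp
    refine ⟨r, hr, fun x hx => ?_⟩
    exact h2 (by simpa [Real.dist_eq] using hx)
  obtain ⟨r, hr, h2⟩ := h1
  have h3 : ∀ w : ℂ, ‖w‖ < r / 2 → Summable fun n => w ^ n • a n := by
    intro w hw
    have h4 := (h2 (r / 2) (by rw [abs_of_pos (by positivity)]; linarith)).summable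
    have h5 := h4.tendsto_atTop_zero.norm.bddAbove_range
    obtain ⟨C, hC⟩ := h5
    have h6 : ∀ n, ‖a n‖ * (r / 2) ^ n ≤ C := by
      intro n
      have := hC ⟨n, rfl⟩
      simpa [norm_smul, abs_of_pos hr, mul_comm] using this
    have h7 : ‖w‖ / (r / 2) < 1 := by
      rw [div_lt_one (by positivity)]
      exact hw
    refine Summable.of_norm_bounded (g := fun n => C * (‖w‖ / (r / 2)) ^ n)
      ((summable_geometric_of_lt_one (by positivity) h7).mul_left C) ?_
    intro n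
    rw [norm_smul, norm_pow, div_pow]
    have h8 : (0 : ℝ) < (r / 2) ^ n := by positivity
    have h9 : ‖w‖ ^ n * ‖a n‖ = (‖a n‖ * (r / 2) ^ n) * (‖w‖ ^ n / (r / 2) ^ n) := by
      field_simp
    rw [h9]
    exact mul_le_mul_of_nonneg_right (h6 n) (by positivity)
  refine ⟨fun w => ∑' n, (w - t) ^ n • a n, ?_, ?_⟩
  · refine ⟨FormalMultilinearSeries.ofScalars ℂ a, ?_⟩
    rw [hasFPowerSeriesAt_iff]
    have h4 : ∀ᶠ w : ℂ in 𝓝 0, ‖w‖ < r / 2 := by
      have : Metric.ball (0 : ℂ) (r / 2) ∈ 𝓝 (0 : ℂ) := Metric.ball_mem_nhds _ (by positivity)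
      filter_upwards [this] with w hw
      simpa using hw
    filter_upwards [h4] with w hw
    simp only [FormalMultilinearSeries.coeff_ofScalars, add_sub_cancel_left]
    exact (h3 w hw).hasSum
  · have h4 : ∀ᶠ s : ℝ in 𝓝 t, |s - t| < r / 2 := by
      have : Metric.ball t (r / 2) ∈ 𝓝 t := Metric.ball_mem_nhds _ (by positivity)
      filter_upwards [this] with s hs
      simpa [Real.dist_eq] using hs
    filter_upwards [h4] with s hs
    have h5 := h2 (s - t) (by linarith)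
    rw [add_sub_cancel] at h5
    rw [← h5.tsum_eq]
    refine tsum_congr fun n => ?_
    rw [← Complex.ofReal_sub, ← Complex.ofReal_pow, Complex.coe_smul]

/-- A local complexification of the curve. -/
theorem exists_local {γ : ℝ → P} {t : ℝ} (h : RegAt γ t) :
    ∃ (G : ℂ → P) (r : ℝ), 0 < r ∧ (∀ s ∈ Metric.ball (t : ℂ) r, HolAt G s) ∧
      InjOn G (Metric.ball (t : ℂ) r) ∧ ∀ x : ℝ, (x : ℂ) ∈ Metric.ball (t : ℂ) r → G x = γ x := by
  obtain ⟨u, hu, hd, hγ⟩ := h
  obtain ⟨U, hU, hUu⟩ := exists_complexification hu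
  have h1 : deriv U t ≠ 0 := by
    have h2 : HasDerivAt (fun y : ℝ => U y) (deriv U t) t :=
      hU.differentiableAt.hasDerivAt.comp_ofReal
    have h3 : deriv u t = deriv U t := by
      rw [← h2.deriv]
      exact (Filter.EventuallyEq.deriv_eq hUu).symm
    rwa [← h3]
  obtain ⟨V, hV, hVi⟩ : ∃ V ∈ 𝓝 (t : ℂ), InjOn U V := by
    have h2 := hU.hasStrictDerivAt.hasStrictFDerivAt_equiv h1
    exact ⟨_, (h2.toOpenPartialHomeomorph U).open_source.mem_nhds
      h2.mem_toOpenPartialHomeomorph_source, (h2.toOpenPartialHomeomorph U).injOn⟩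
  have h2 : ∀ᶠ s in 𝓝 (t : ℂ), AnalyticAt ℂ U s := hU.eventually_analyticAt
  have key : ∃ G : ℂ → P, (∀ s, AnalyticAt ℂ U s → HolAt G s) ∧ InjOn G V ∧
      ∀ᶠ x : ℝ in 𝓝 t, G x = γ x := by
    rcases hγ with hγ | hγ
    · refine ⟨fun s => (U s : P), fun s hs => ?_, ?_, ?_⟩
      · exact (holAt_iff_analyticAt.2 hs).coe
      · intro x hx y hy hxy
        exact hVi hx hy (OnePoint.coe_injective hxy)
      · filter_upwards [hUu, hγ] with x hx hx'
        rw [hx, hx']
    · refine ⟨fun s => invP (U s : P), fun s hs => ?_, ?_, ?_⟩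
      · exact (holAt_invP _).comp (holAt_iff_analyticAt.2 hs).coe
      · intro x hx y hy hxy
        have h3 : invP (invP (U x : P)) = invP (invP (U y : P)) := congrArg invP hxy
        rw [invP_invP, invP_invP] at h3
        exact hVi hx hy (OnePoint.coe_injective h3)
      · filter_upwards [hUu, hγ] with x hx hx'
        rw [hx, hx']
  obtain ⟨G, hG1, hG2, hG3⟩ := key
  obtain ⟨r1, hr1, hV1⟩ := Metric.mem_nhds_iff.1 hV
  obtain ⟨r2, hr2, h4⟩ := Metric.eventually_nhds_iff.1 h2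
  obtain ⟨r3, hr3, h5⟩ := Metric.eventually_nhds_iff.1 hG3
  refine ⟨G, min r1 (min r2 r3), lt_min hr1 (lt_min hr2 hr3), ?_, ?_, ?_⟩
  · intro s hs
    apply hG1
    apply h4
    exact lt_of_lt_of_le hs ((min_le_right _ _).trans (min_le_left _ _))
  · exact hG2.mono (fun s hs => hV1 (Metric.ball_subset_ball (min_le_left _ _) hs))
  · intro x hx
    apply h5
    have h6 : dist (x : ℂ) (t : ℂ) < r3 :=
      lt_of_lt_of_le hx ((min_le_right _ _).trans (min_le_right _ _))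
    rwa [Complex.dist_of_im_eq (by simp)] at h6

/-- Gluing of the local complexifications. -/
theorem exists_glue {γ : ℝ → P} (h : ∀ t, RegAt γ t) :
    ∃ (V : Set ℂ) (G : ℂ → P), IsOpen V ∧ (∀ x : ℝ, (x : ℂ) ∈ V) ∧ (∀ s ∈ V, HolAt G s) ∧
      (∀ x : ℝ, G x = γ x) ∧ ∀ x : ℝ, ∃ N ∈ 𝓝 (x : ℂ), InjOn G N := by
  classical
  choose g r hr hol hinj heq using fun t => exists_local (h t)
  have agree : ∀ (t t' : ℝ) (s : ℂ), s ∈ Metric.ball (t : ℂ) (r t) →
      s ∈ Metric.ball (t' : ℂ) (r t') → g t s = g t' s := by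
    intro t t' s hs hs'
    have hre : ∀ τ : ℝ, s ∈ Metric.ball (τ : ℂ) (r τ) → ((s.re : ℝ) : ℂ) ∈
        Metric.ball (τ : ℂ) (r τ) := by
      intro τ hτ
      rw [Metric.mem_ball] at hτ ⊢
      refine lt_of_le_of_lt ?_ hτ
      rw [dist_eq_norm, dist_eq_norm, ← Complex.ofReal_sub, Complex.norm_real, Real.norm_eq_abs]
      have := Complex.abs_re_le_norm (s - τ)
      simpa using this
    have hc : IsPreconnected (Metric.ball (t : ℂ) (r t) ∩ Metric.ball (t' : ℂ) (r t')) :=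
      ((convex_ball _ _).inter (convex_ball _ _)).isPreconnected
    refine HolAt.eqOn_of_preconnected hc (fun x hx => hol t x hx.1) (fun x hx => hol t' x hx.2)
      (p := ((s.re : ℝ) : ℂ)) ⟨hre t hs, hre t' hs'⟩ ?_ ⟨hs, hs'⟩
    have h1 : Tendsto (fun x : ℝ => (x : ℂ)) (𝓝[≠] s.re) (𝓝[≠] ((s.re : ℝ) : ℂ)) := by
      refine tendsto_nhdsWithin_iff.2 ⟨(Complex.continuous_ofReal.tendsto _).mono_left
        nhdsWithin_le_nhds, ?_⟩
      filter_upwards [self_mem_nhdsWithin] with x hx hx'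
      exact hx (Complex.ofReal_injective hx')
    refine h1.frequently ?_
    refine Filter.Eventually.frequently ?_
    have h2 : ∀ᶠ x : ℝ in 𝓝 s.re, (x : ℂ) ∈ Metric.ball (t : ℂ) (r t) ∩
        Metric.ball (t' : ℂ) (r t') :=
      Complex.continuous_ofReal.continuousAt.eventually_mem
        ((Metric.isOpen_ball.inter Metric.isOpen_ball).mem_nhds ⟨hre t hs, hre t' hs'⟩)
    filter_upwards [nhdsWithin_le_nhds h2] with x hx
    rw [heq t x hx.1, heq t' x hx.2]
  refine ⟨⋃ t : ℝ, Metric.ball (t : ℂ) (r t),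
    fun s => if hs : ∃ t : ℝ, s ∈ Metric.ball (t : ℂ) (r t) then g hs.choose s else g 0 s,
    isOpen_iUnion fun t => Metric.isOpen_ball,
    fun x => mem_iUnion.2 ⟨x, Metric.mem_ball_self (hr x)⟩, ?_, ?_, ?_⟩
  all_goals
    have hG : ∀ t : ℝ, ∀ s ∈ Metric.ball (t : ℂ) (r t),
        (fun s => if hs : ∃ t : ℝ, s ∈ Metric.ball (t : ℂ) (r t) then g hs.choose s else g 0 s) s =
          g t s := by
      intro t s hs
      have hex : ∃ t : ℝ, s ∈ Metric.ball (t : ℂ) (r t) := ⟨t, hs⟩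
      simp only [hex, dif_pos]
      exact agree _ _ _ hex.choose_spec hs
  · intro s hs
    obtain ⟨t, ht⟩ := mem_iUnion.1 hs
    refine (hol t s ht).congr ?_
    filter_upwards [Metric.isOpen_ball.mem_nhds ht] with s' hs'
    exact (hG t s' hs').symm
  · intro x
    rw [hG x x (Metric.mem_ball_self (hr x)), heq x x (Metric.mem_ball_self (hr x))]
  · intro x
    refine ⟨Metric.ball (x : ℂ) (r x), Metric.ball_mem_nhds _ (hr x), ?_⟩
    intro s hs s' hs' hss
    rw [hG x s hs, hG x s' hs'] at hss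
    exact hinj x hs hs' hss

/-- The complexified curve on a strip. -/
theorem exists_strip {γ : ℝ → P} (hper : ∀ t, γ (t + 1) = γ t) (h : ∀ t, RegAt γ t) :
    ∃ (η : ℝ) (Γ : ℂ → P), 0 < η ∧ (∀ s ∈ strip η, HolAt Γ s) ∧ (∀ s, Γ (s + 1) = Γ s) ∧
      (∀ x : ℝ, Γ x = γ x) ∧ ∀ x : ℝ, ∃ N ∈ 𝓝 (x : ℂ), InjOn Γ N := by
  obtain ⟨V, G, hV, hxV, hol, hG, hloc⟩ := exists_glue h
  have hK : IsCompact ((fun x : ℝ => (x : ℂ)) '' Icc (-1) 2) :=
    isCompact_Icc.image Complex.continuous_ofReal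
  obtain ⟨δ, hδ, hδV⟩ := hK.exists_thickening_subset_open hV (by
    rintro _ ⟨x, -, rfl⟩
    exact hxV x)
  have hmem : ∀ s : ℂ, -1 ≤ s.re → s.re ≤ 2 → |s.im| < δ → s ∈ V := by
    intro s h1 h2 h3
    apply hδV
    rw [Metric.mem_thickening_iff]
    refine ⟨((s.re : ℝ) : ℂ), ⟨s.re, ⟨h1, h2⟩, rfl⟩, ?_⟩
    rw [Complex.dist_of_re_eq (by simp)]
    simpa [Real.dist_eq] using h3
  have hS : IsPreconnected (Ioo (-1 : ℝ) 1 ×ℂ Ioo (-δ) δ) :=
    (((convex_Ioo (-1 : ℝ) 1).linear_preimage Complex.reLm).inter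
      ((convex_Ioo (-δ) δ).linear_preimage Complex.imLm)).isPreconnected
  have hGper : ∀ s : ℂ, -1 < s.re → s.re < 1 → |s.im| < δ → G (s + 1) = G s := by
    intro s h1 h2 h3
    have hp : (0 : ℂ) ∈ Ioo (-1 : ℝ) 1 ×ℂ Ioo (-δ) δ := by
      simp [Complex.mem_reProdIm, hδ]
    refine HolAt.eqOn_of_preconnected (f := fun s => G (s + 1)) (g := G) hS ?_ ?_ hp ?_ ?_
    · intro x hx
      obtain ⟨h4, h5⟩ := Complex.mem_reProdIm.1 hx
      have h6 : HolAt G (x + 1) := hol _ (hmem _ (by simp; linarith [h4.1])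
        (by simp; linarith [h4.2]) (by simpa [abs_lt] using h5))
      exact h6.comp (f := fun s : ℂ => s + 1)
        (holAt_iff_analyticAt.2 (analyticAt_id.add analyticAt_const))
    · intro x hx
      obtain ⟨h4, h5⟩ := Complex.mem_reProdIm.1 hx
      exact hol _ (hmem _ (by linarith [h4.1]) (by linarith [h4.2])
        (by simpa [abs_lt] using h5))
    · have h4 : Tendsto (fun x : ℝ => (x : ℂ)) (𝓝[≠] 0) (𝓝[≠] (0 : ℂ)) := by
        refine tendsto_nhdsWithin_iff.2 ⟨?_, ?_⟩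
        · have := (Complex.continuous_ofReal.tendsto 0).mono_left
            (nhdsWithin_le_nhds (s := {(0 : ℝ)}ᶜ))
          simpa using this
        · filter_upwards [self_mem_nhdsWithin] with x hx hx'
          exact hx (by simpa using hx')
      refine h4.frequently (Filter.Eventually.frequently (Eventually.of_forall fun x => ?_))
      rw [hG x, ← hper x, ← hG (x + 1)]
      push_cast
      rfl
    · rw [Complex.mem_reProdIm]
      exact ⟨⟨h1, h2⟩, abs_lt.1 h3⟩
  have hnear : ∀ s₀ : ℂ, |s₀.im| < δ →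
      (fun s : ℂ => G (s - ⌊s.re⌋)) =ᶠ[𝓝 s₀] fun s => G (s - ⌊s₀.re⌋) := by
    intro s₀ h3
    set n := ⌊s₀.re⌋ with hn
    have h4 : ∀ᶠ s in 𝓝 s₀, (n : ℝ) - 1 < s.re := by
      apply Complex.continuous_re.continuousAt.eventually_const_lt
      have := Int.floor_le s₀.re
      linarith
    have h5 : ∀ᶠ s in 𝓝 s₀, s.re < (n : ℝ) + 1 := by
      apply Complex.continuous_re.continuousAt.eventually_lt_const
      exact Int.lt_floor_add_one s₀.re
    have h6 : ∀ᶠ s in 𝓝 s₀, |s.im| < δ := by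
      apply (Complex.continuous_im.abs.continuousAt).eventually_lt_const
      exact h3
    filter_upwards [h4, h5, h6] with s h4 h5 h6
    by_cases h7 : (n : ℝ) ≤ s.re
    · have h8 : ⌊s.re⌋ = n := Int.floor_eq_iff.2 ⟨h7, h5⟩
      rw [h8]
    · push Not at h7
      have h8 : ⌊s.re⌋ = n - 1 := Int.floor_eq_iff.2 ⟨by push_cast; linarith, by
        push_cast; linarith⟩
      rw [h8]
      have h9 := hGper (s - n) (by simp; linarith) (by simp; linarith) (by simpa using h6)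
      rw [← h9]
      congr 1
      push_cast
      ring
  refine ⟨δ, fun s => G (s - ⌊s.re⌋), hδ, ?_, ?_, ?_, ?_⟩
  · intro s hs
    refine HolAt.congr ?_ (hnear s hs).symm
    have h1 : HolAt G (s - ⌊s.re⌋) := by
      apply hol
      apply hmem
      · simp only [Complex.sub_re, Complex.intCast_re]
        have := Int.floor_le s.re
        linarith
      · simp only [Complex.sub_re, Complex.intCast_re]
        have := Int.lt_floor_add_one s.re
        linarith
      · have h9 : |s.im| < δ := hs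
        simpa using h9
    exact h1.comp (f := fun s' : ℂ => s' - ⌊s.re⌋)
      (holAt_iff_analyticAt.2 (analyticAt_id.sub analyticAt_const))
  · intro s
    beta_reduce
    have : ⌊(s + 1).re⌋ = ⌊s.re⌋ + 1 := by
      simp
    rw [this]
    congr 1
    push_cast
    ring
  · intro x
    beta_reduce
    rw [Complex.ofReal_re]
    have h1 : (x : ℂ) - (⌊x⌋ : ℂ) = ((x - ⌊x⌋ : ℝ) : ℂ) := by push_cast; rfl
    rw [h1, hG]
    have hp : Function.Periodic γ 1 := hper
    have := hp.sub_int_mul_eq ⌊x⌋ (x := x)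
    rwa [mul_one] at this
  · intro x
    obtain ⟨N, hN, hNi⟩ := hloc (x - ⌊x⌋)
    have h1 := hnear (x : ℂ) (by simpa using hδ)
    rw [Complex.ofReal_re] at h1
    have h2 : ∀ᶠ s in 𝓝 (x : ℂ), s - (⌊x⌋ : ℂ) ∈ N := by
      have h3 : ContinuousAt (fun s : ℂ => s - (⌊x⌋ : ℂ)) (x : ℂ) := by fun_prop
      apply h3.eventually_mem
      have h4 : (x : ℂ) - (⌊x⌋ : ℂ) = ((x - ⌊x⌋ : ℝ) : ℂ) := by push_cast; rfl
      rwa [h4]
    refine ⟨_, h1.and h2, ?_⟩
    rintro s ⟨hs1, hs2⟩ s' ⟨hs1', hs2'⟩ hss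
    beta_reduce at hss hs1 hs1'
    rw [hs1, hs1'] at hss
    have := hNi hs2 hs2' hss
    linear_combination this

/-- Injectivity modulo the period on a smaller strip. -/
theorem exists_inj_strip {γ : ℝ → P} (hinj : ∀ t t', γ t = γ t' → ∃ k : ℤ, t' = t + k)
    {η : ℝ} {Γ : ℂ → P} (hη : 0 < η) (hol : ∀ s ∈ strip η, HolAt Γ s)
    (hper : ∀ s, Γ (s + 1) = Γ s) (hΓ : ∀ x : ℝ, Γ x = γ x)
    (hloc : ∀ x : ℝ, ∃ N ∈ 𝓝 (x : ℂ), InjOn Γ N) :
    ∃ η' : ℝ, 0 < η' ∧ η' ≤ η ∧ ∀ s ∈ strip η', ∀ s' ∈ strip η', Γ s = Γ s' →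
      ∃ k : ℤ, s' = s + k := by
  have hp : Function.Periodic Γ 1 := hper
  have hsub : ∀ (s : ℂ) (k : ℤ), Γ (s - k) = Γ s := by
    intro s k
    have := hp.sub_int_mul_eq k (x := s)
    rwa [mul_one] at this
  have hK : IsCompact (((fun x : ℝ => (x : ℂ)) '' Icc 0 1) ×ˢ
      ((fun x : ℝ => (x : ℂ)) '' Icc 0 1)) :=
    (isCompact_Icc.image Complex.continuous_ofReal).prod
      (isCompact_Icc.image Complex.continuous_ofReal)
  have hW : IsOpen {q : ℂ × ℂ | ∀ᶠ q' : ℂ × ℂ in 𝓝 q, Γ q'.1 = Γ q'.2 →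
      ∃ k : ℤ, q'.2 = q'.1 + (k : ℂ)} :=
    isOpen_setOfPred_eventually_nhds
  obtain ⟨δ, hδ, hδW⟩ := hK.exists_thickening_subset_open hW (by
    rintro ⟨_, _⟩ ⟨⟨x, -, rfl⟩, ⟨x', -, rfl⟩⟩
    have hmem : ∀ x : ℝ, (x : ℂ) ∈ strip η := fun x => by simp [strip, hη]
    have c1 : ContinuousAt (fun q : ℂ × ℂ => Γ q.1) ((x : ℂ), (x' : ℂ)) :=
      ContinuousAt.comp' (g := Γ) (hol _ (hmem x)).continuousAt continuousAt_fst
    have c2 : ContinuousAt (fun q : ℂ × ℂ => Γ q.2) ((x : ℂ), (x' : ℂ)) :=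
      ContinuousAt.comp' (g := Γ) (hol _ (hmem x')).continuousAt continuousAt_snd
    by_cases hxx : Γ x = Γ x'
    · rw [hΓ, hΓ] at hxx
      obtain ⟨k, hk⟩ := hinj _ _ hxx
      obtain ⟨N, hN, hNi⟩ := hloc x
      have e1 : ∀ᶠ q : ℂ × ℂ in 𝓝 ((x : ℂ), (x' : ℂ)), q.1 ∈ N :=
        continuousAt_fst.eventually_mem hN
      have e2 : ∀ᶠ q : ℂ × ℂ in 𝓝 ((x : ℂ), (x' : ℂ)), q.2 - (k : ℂ) ∈ N := by
        have c3 : ContinuousAt (fun q : ℂ × ℂ => q.2 - (k : ℂ)) ((x : ℂ), (x' : ℂ)) := by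
          fun_prop
        apply c3.eventually_mem
        have : ((x' : ℂ) - (k : ℂ)) = x := by
          rw [hk]
          push_cast
          ring
        change N ∈ 𝓝 ((x' : ℂ) - (k : ℂ))
        rwa [this]
      filter_upwards [e1, e2] with q h1 h2 h3
      refine ⟨k, ?_⟩
      rw [← hsub q.2 k] at h3
      have := hNi h1 h2 h3
      rw [this]
      ring
    · have h5 : ∀ᶠ q : ℂ × ℂ in 𝓝 ((x : ℂ), (x' : ℂ)), (Γ q.1, Γ q.2) ∈ (diagonal P)ᶜ :=
        (c1.prodMk c2).eventually_mem (isClosed_diagonal.isOpen_compl.mem_nhds hxx)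
      filter_upwards [h5] with q hq h3
      exact absurd h3 hq)
  refine ⟨min η δ, lt_min hη hδ, min_le_left _ _, ?_⟩
  intro s hs s' hs' hss
  have h1 : |s.im| < δ := lt_of_lt_of_le hs (min_le_right _ _)
  have h2 : |s'.im| < δ := lt_of_lt_of_le hs' (min_le_right _ _)
  have h3 : ((s - ⌊s.re⌋, s' - ⌊s'.re⌋) : ℂ × ℂ) ∈ Metric.thickening δ
      (((fun x : ℝ => (x : ℂ)) '' Icc 0 1) ×ˢ ((fun x : ℝ => (x : ℂ)) '' Icc 0 1)) := by
    rw [Metric.mem_thickening_iff]
    have key : ∀ s : ℂ, |s.im| < δ → ((Int.fract s.re : ℝ) : ℂ) ∈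
        (fun x : ℝ => (x : ℂ)) '' Icc 0 1 ∧ dist (s - ⌊s.re⌋) ((Int.fract s.re : ℝ) : ℂ) < δ := by
      intro s hs
      refine ⟨⟨_, ⟨Int.fract_nonneg _, (Int.fract_lt_one _).le⟩, rfl⟩, ?_⟩
      rw [Complex.dist_of_re_eq]
      · simpa [Real.dist_eq] using hs
      · simp [Int.self_sub_floor]
    refine ⟨(((Int.fract s.re : ℝ) : ℂ), ((Int.fract s'.re : ℝ) : ℂ)),
      ⟨(key s h1).1, (key s' h2).1⟩, ?_⟩
    rw [Prod.dist_eq]
    exact max_lt (key s h1).2 (key s' h2).2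
  have h4 := (hδW h3).self_of_nhds
  obtain ⟨k, hk⟩ := h4 (by
    change Γ (s - ⌊s.re⌋) = Γ (s' - ⌊s'.re⌋)
    rw [hsub, hsub, hss])
  change s' - ⌊s'.re⌋ = s - ⌊s.re⌋ + k at hk
  refine ⟨k + ⌊s'.re⌋ - ⌊s.re⌋, ?_⟩
  push_cast
  linear_combination hk

/-- A continuous function which is injective on `[0, 1)` does not satisfy `H 0 = H 1`. -/
theorem not_loop {H : ℝ → ℝ} (hH : Continuous H)
    (hinj : ∀ x ∈ Ico (0 : ℝ) 1, ∀ y ∈ Ico (0 : ℝ) 1, H x = H y → x = y) : H 0 ≠ H 1 := by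
  intro h01
  have hne : H 0 ≠ H (1 / 2) := by
    intro h
    have := hinj 0 (by norm_num) (1 / 2) (by norm_num) h
    norm_num at this
  obtain ⟨x, hx, hxc⟩ : ∃ x ∈ Ioo (0 : ℝ) (1 / 2), H x = (H 0 + H (1 / 2)) / 2 := by
    rcases lt_or_gt_of_ne hne with h | h
    · have := intermediate_value_Ioo (by norm_num : (0 : ℝ) ≤ 1 / 2) hH.continuousOn
      exact this ⟨by linarith, by linarith⟩
    · have := intermediate_value_Ioo' (by norm_num : (0 : ℝ) ≤ 1 / 2) hH.continuousOn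
      exact this ⟨by linarith, by linarith⟩
  obtain ⟨y, hy, hyc⟩ : ∃ y ∈ Ioo (1 / 2 : ℝ) 1, H y = (H 0 + H (1 / 2)) / 2 := by
    rcases lt_or_gt_of_ne hne with h | h
    · have := intermediate_value_Ioo' (by norm_num : (1 / 2 : ℝ) ≤ 1) hH.continuousOn
      exact this ⟨by linarith, by linarith⟩
    · have := intermediate_value_Ioo (by norm_num : (1 / 2 : ℝ) ≤ 1) hH.continuousOn
      exact this ⟨by linarith, by linarith⟩
  have := hinj x ⟨hx.1.le, by linarith [hx.2]⟩ y ⟨by linarith [hy.1], hy.2⟩ (hxc.trans hyc.symm)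
  linarith [hx.2, hy.1]

/-- The dynamics on the curve in the coordinate `γ`. -/
theorem exists_dyn {f : P → P} {C : Set P} {γ : ℝ → P} (hγc : Continuous γ)
    (hper : ∀ t, γ (t + 1) = γ t) (hinj : ∀ t t', γ t = γ t' → ∃ k : ℤ, t' = t + k)
    (hC : C = range γ) (hfC : f '' C = C) (hrot : IrrationalRotationOn f C) :
    ∃ F : ℝ → ℝ, Continuous F ∧ StrictMono F ∧ (∀ x, F (x + 1) = F x + 1) ∧
      (∀ x : ℝ, f (γ x) = γ (F x)) ∧ ∀ n : ℕ, 1 ≤ n → ∀ x : ℝ, ∀ k : ℤ, F^[n] x ≠ x + k := by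
  obtain ⟨α, h, hα, hconj⟩ := hrot
  have hmem : ∀ x, γ x ∈ C := fun x => hC ▸ mem_range_self x
  let g : C(ℝ, Circle) := ⟨fun x => h ⟨γ x, hmem x⟩, h.continuous.comp (hγc.subtype_mk hmem)⟩
  have hg : ∀ x, g x = h ⟨γ x, hmem x⟩ := fun x => rfl
  obtain ⟨e₀, he₀⟩ : ∃ e₀ : ℝ, Circle.exp e₀ = g 0 := Circle.exp_surjective (g 0)
  obtain ⟨H, ⟨-, hH2⟩, -⟩ := Circle.isCoveringMap_exp.existsUnique_continuousMap_lifts g 0 e₀ he₀
  have hH : ∀ x, Circle.exp (H x) = g x := fun x => congrFun hH2 x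
  have hHc : Continuous H := H.continuous
  have hgper : ∀ x, g (x + 1) = g x := by
    intro x
    rw [hg, hg]
    congr 1
    exact Subtype.ext (hper x)
  have hpi : (0 : ℝ) < 2 * Real.pi := by positivity
  obtain ⟨m, hm0⟩ : ∃ m : ℤ, H 1 = H 0 + m * (2 * Real.pi) := by
    rw [← Circle.exp_eq_exp, hH, hH]
    have := hgper 0
    rwa [zero_add] at this
  have hm1 : ∀ x, H (x + 1) = H x + m * (2 * Real.pi) := by
    have h1 := Circle.isCoveringMap_exp.eq_of_comp_eq (g₁ := fun x => H (x + 1))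
      (g₂ := fun x => H x + m * (2 * Real.pi)) (by fun_prop) (by fun_prop) (by
        funext x
        change Circle.exp (H (x + 1)) = Circle.exp (H x + m * (2 * Real.pi))
        have h2 : Circle.exp (H x + m * (2 * Real.pi)) = Circle.exp (H x) :=
          Circle.exp_eq_exp.2 ⟨m, rfl⟩
        rw [h2, hH, hH, hgper]) 0 (by
        rw [zero_add, hm0])
    exact fun x => congrFun h1 x
  have hmk : ∀ (k : ℤ) (x : ℝ), H (x + k) = H x + k * m * (2 * Real.pi) := by
    intro k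
    induction k using Int.induction_on with
    | zero => simp
    | succ i ih =>
      intro x
      have h1 := hm1 (x + (i : ℤ))
      rw [ih] at h1
      push_cast at h1 ⊢
      rw [← add_assoc, h1]
      ring
    | pred i ih =>
      intro x
      have h1 := hm1 (x + ((-(i : ℤ) - 1 : ℤ) : ℝ))
      have h2 : x + ((-(i : ℤ) - 1 : ℤ) : ℝ) + 1 = x + ((-(i : ℤ) : ℤ) : ℝ) := by
        push_cast
        ring
      rw [h2, ih] at h1
      push_cast at h1 ⊢
      linarith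
  have hgi : ∀ x y, H x = H y → ∃ k : ℤ, y = x + k := by
    intro x y hxy
    have h1 : g x = g y := by rw [← hH, ← hH, hxy]
    have h2 := h.injective h1
    exact hinj x y (congrArg Subtype.val h2)
  have hm : m ≠ 0 := by
    intro hm
    have h1 := not_loop hHc (by
      intro x hx y hy hxy
      obtain ⟨k, hk⟩ := hgi x y hxy
      have h2 : (k : ℝ) < 1 := by linarith [hx.1, hy.2]
      have h3 : (-1 : ℝ) < k := by linarith [hx.2, hy.1]
      have h4 : k = 0 := by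
        have h5 : k < 1 := by exact_mod_cast h2
        have h6 : -1 < k := by exact_mod_cast h3
        omega
      rw [h4] at hk
      simpa using hk.symm)
    apply h1
    rw [hm0, hm]
    simp
  have hHi : Function.Injective H := by
    intro x y hxy
    obtain ⟨k, hk⟩ := hgi x y hxy
    rw [hk, hmk] at hxy
    have h1 : (k : ℝ) * m * (2 * Real.pi) = 0 := by linarith
    have h2 : (k : ℝ) = 0 := by
      rcases mul_eq_zero.1 h1 with h3 | h3
      · rcases mul_eq_zero.1 h3 with h4 | h4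
        · exact h4
        · exact absurd (by exact_mod_cast h4) hm
      · exact absurd h3 hpi.ne'
    rw [hk, h2, add_zero]
  have hHs : Function.Surjective H := by
    intro y
    have h0 : (m : ℝ) * (2 * Real.pi) ≠ 0 := mul_ne_zero (by exact_mod_cast hm) hpi.ne'
    obtain ⟨n, hn⟩ := exists_nat_gt (|y - H 0| / |(m : ℝ) * (2 * Real.pi)|)
    rw [div_lt_iff₀ (abs_pos.2 h0)] at hn
    have h1 := hmk n 0
    have h2 := hmk (-n) 0
    rw [zero_add] at h1 h2
    have h3 : |y - H 0| < |(n : ℝ) * m * (2 * Real.pi)| := by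
      rw [mul_assoc, abs_mul, Nat.abs_cast]
      exact hn
    push_cast at h1 h2
    rcases le_or_gt 0 ((n : ℝ) * m * (2 * Real.pi)) with h4 | h4
    · rw [abs_of_nonneg h4, abs_lt] at h3
      exact mem_range_of_exists_le_of_exists_ge hHc ⟨_, by rw [h2]; linarith [h3.1]⟩
        ⟨_, by rw [h1]; linarith [h3.2]⟩
    · rw [abs_of_neg h4, abs_lt] at h3
      exact mem_range_of_exists_le_of_exists_ge hHc ⟨_, by rw [h1]; linarith [h3.1]⟩
        ⟨_, by rw [h2]; linarith [h3.2]⟩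
  choose F hF using fun x : ℝ => hHs (H x + 2 * Real.pi * α)
  have hFmono : StrictMono F := by
    rcases hHc.strictMono_of_inj hHi with hmo | hmo
    · intro x y hxy
      rw [← hmo.lt_iff_lt, hF, hF]
      linarith [hmo hxy]
    · intro x y hxy
      rw [← hmo.lt_iff_gt, hF, hF]
      linarith [hmo hxy]
  have hFs : Function.Surjective F := by
    intro z
    obtain ⟨x, hx⟩ := hHs (H z - 2 * Real.pi * α)
    refine ⟨x, hHi ?_⟩
    rw [hF, hx]
    ring
  have hFiter : ∀ (n : ℕ) (x : ℝ), H (F^[n] x) = H x + n * (2 * Real.pi * α) := by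
    intro n
    induction n with
    | zero => intro x; simp
    | succ n ih =>
      intro x
      rw [Function.iterate_succ_apply', hF, ih]
      push_cast
      ring
  refine ⟨F, hFmono.monotone.continuous_of_surjective hFs, hFmono, ?_, ?_, ?_⟩
  · intro x
    apply hHi
    rw [hF, hm1, hm1, hF]
    ring
  · intro x
    have h1 : f (γ x) ∈ C := hfC ▸ mem_image_of_mem f (hmem x)
    have h2 := hconj ⟨γ x, hmem x⟩ ⟨f (γ x), h1⟩ rfl
    rw [← hg, ← hH, ← Circle.exp_add] at h2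
    have h3 : 2 * Real.pi * α + H x = H (F x) := by rw [hF]; ring
    rw [h3, hH, hg] at h2
    exact congrArg Subtype.val (h.injective h2)
  · intro n hn x k hk
    have h1 := hFiter n x
    rw [hk, hmk] at h1
    have h2 : (n : ℝ) * α = k * m := by
      have h3 : (2 * Real.pi) * ((n : ℝ) * α - k * m) = 0 := by linarith
      have := (mul_eq_zero.1 h3).resolve_left hpi.ne'
      linarith
    have h3 : α = ((k * m : ℤ) : ℚ) / (n : ℚ) := by
      have hn' : (n : ℝ) ≠ 0 := by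
        exact_mod_cast (by omega : n ≠ 0)
      push_cast
      field_simp
      linarith
    apply hα
    exact ⟨((k * m : ℤ) : ℚ) / (n : ℚ), by rw [h3]; push_cast; rfl⟩

end SetupAux

open SetupAux in
theorem exists_invCurve {f : P → P} (hf : ∀ p, HolAt f p) {C : Set P}
    (hC : IsAnalyticJordanCurve C) (hfC : f '' C = C) (hrot : IrrationalRotationOn f C) :
    ∃ c : InvCurve f, (range fun x : ℝ => c.γ x) = C := by
  obtain ⟨γ, hper, hinj, hreg, hCγ⟩ := hC
  obtain ⟨η, Γ, hη, hol, hΓper, hΓ, hloc⟩ := exists_strip hper hreg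
  obtain ⟨η', hη', hle, hΓinj⟩ := exists_inj_strip hinj hη hol hΓper hΓ hloc
  have hγc : Continuous γ := by
    have h1 : γ = fun x : ℝ => Γ x := by
      funext x
      exact (hΓ x).symm
    rw [h1, continuous_iff_continuousAt]
    intro x
    exact ContinuousAt.comp' (g := Γ) (hol (x : ℂ) (by simp [strip, hη])).continuousAt
      Complex.continuous_ofReal.continuousAt
  obtain ⟨F, hF1, hF2, hF3, hF4, hF5⟩ := exists_dyn hγc hper hinj hCγ hfC hrot
  refine ⟨{ γ := Γ, η := η', η_pos := hη', hol := fun s hs => hol s (lt_of_lt_of_le hs hle),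
            per := hΓper, inj := hΓinj, F := F, F_cont := hF1, F_mono := hF2, F_per := hF3,
            inv := fun x => by rw [hΓ, hΓ, hF4], noper := hF5 }, ?_⟩
  rw [hCγ]
  change (range fun x : ℝ => Γ x) = range γ
  congr 1
  funext x
  exact hΓ x

end Pool.Agent.Lib.MP_1f4a82_an
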