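import Pool.Agent.Lib.MP_1f4a82_an.Embed
import Pool.Agent.Lib.MP_1f4a82_an.Sides
import Pool.Agent.Lib.MP_1f4a82_an.Cover
import Pool.Agent.Lib.MP_1f4a82_an.CaseA
import Pool.Agent.Lib.MP_1f4a82_an.CaseB
import Pool.Agent.Lib.MP_1f4a82_an.CaseC

/-!
The type analysis: an invariant curve which is not stable comes from a real rational map.
-/

open Topology Filter Set

namespace Pool.Agent.Lib.MP_1f4a82_an

namespace TypesAux

theorem cjP_real {p : P} (h : cjP p = p) : p = OnePoint.infty ∨ ∃ t : ℝ, p = ((t : ℂ) : P) := by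
  induction p using OnePoint.rec with
  | infty => exact Or.inl rfl
  | coe z =>
    right
    rw [cjP_coe] at h
    have h1 : (starRingEnd ℂ) z = z := OnePoint.coe_injective h
    exact ⟨z.re, by rw [Complex.conj_eq_iff_re.mp h1]⟩

theorem valP_im_eq_zero {p : P} (hp : p ≠ OnePoint.infty) : (valP p).im = 0 ↔ cjP p = p := by
  induction p using OnePoint.rec with
  | infty => exact absurd rfl hp
  | coe z =>
    rw [cjP_coe, valP_coe]
    constructor
    · intro h; rw [Complex.conj_eq_iff_im.mpr h]
    · intro h; exact Complex.conj_eq_iff_im.mp (OnePoint.coe_injective h)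

end TypesAux

open TypesAux

/-- Two real points omitted by the embedding. -/
theorem stable_of_two_omitted {f : P → P} {c : InvCurve f} {d : ℕ} {X S : Type}
    [TopologicalSpace X] [RS X] [T2Space X] (D : CoverData f c d X S)
    (F : X → P) (hF : ∀ x, HolAt F x) (hre : ∀ x, cjP (F x) = F x ↔ x ∈ D.L.ell)
    {a : P} {b : ℝ} (hab : a ≠ ((b : ℂ) : P)) (ha : cjP a = a) (hFa : ∀ x, F x ≠ a)
    (hFb : ∀ x, F x ≠ ((b : ℂ) : P)) : c.Stable := by
  -- `G x = 1 / (F x - b)`
  set N : P → P := fun z => invP (affP 1 (-b) z) with hN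
  have hNhol : ∀ z, HolAt N z := fun z => (holAt_invP _).comp (holAt_affP one_ne_zero _ z)
  have hNinj : Function.Injective N := invP_injective.comp (affP_injective one_ne_zero _)
  have hNcj : ∀ z, N (cjP z) = cjP (N z) := by
    intro z
    induction z using OnePoint.rec with
    | infty => simp [hN, affP_infty]
    | coe z =>
      simp only [hN, cjP_coe, affP_coe]
      by_cases hz : 1 * z + -(b : ℂ) = 0
      · have hz' : 1 * (starRingEnd ℂ) z + -(b : ℂ) = 0 := by
          have := congrArg (starRingEnd ℂ) hz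
          simpa using this
        rw [hz, hz', invP_zero, cjP_infty]
      · have hz' : 1 * (starRingEnd ℂ) z + -(b : ℂ) ≠ 0 := by
          intro h; apply hz
          have := congrArg (starRingEnd ℂ) h
          simpa using this
        rw [invP_coe hz, invP_coe hz', cjP_coe, map_inv₀, map_add, map_mul, map_one, map_neg,
          Complex.conj_ofReal]
  have hNb : N ((b : ℂ) : P) = OnePoint.infty := by
    simp [hN, affP_coe]
  have hNa : N a ≠ OnePoint.infty := by
    intro h; exact hab (hNinj (h.trans hNb.symm))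
  set a' : ℂ := valP (N a) with ha'
  have haN : N a = (a' : P) := (coe_valP hNa).symm
  have ha're : a'.im = 0 := by
    rw [ha', valP_im_eq_zero hNa, ← hNcj, ha]
  have hfin : ∀ x, N (F x) ≠ OnePoint.infty := by
    intro x h; exact hFb x (hNinj (h.trans hNb.symm))
  -- the nonvanishing function
  set w : X → ℂ := fun x => valP (N (F x)) - a' with hw
  have hwhol : ∀ x, HolAt w x := fun x =>
    (((hNhol _).comp (hF x)).valP (hfin x)).sub (holAt_const a' x)
  have hw0 : ∀ x, w x ≠ 0 := by
    intro x h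
    apply hFa x
    apply hNinj
    rw [haN, ← coe_valP (hfin x), sub_eq_zero.mp h]
  have hwim : ∀ x, (w x).im = 0 ↔ x ∈ D.L.ell := by
    intro x
    rw [hw]
    simp only [Complex.sub_im, ha're, sub_zero]
    rw [valP_im_eq_zero (hfin x), ← hNcj, ← hre x]
    exact ⟨fun h => hNinj h, fun h => by rw [h]⟩
  have hwc : ∀ x, ContinuousAt w x := fun x => (hwhol x).continuousAt
  -- constant sign on the line
  have hsign : (∀ x ∈ D.L.ell, 0 < (w x).re) ∨ ∀ x ∈ D.L.ell, (w x).re < 0 := by
    have hre0 : ∀ x ∈ D.L.ell, (w x).re ≠ 0 := fun x hx h =>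
      hw0 x (Complex.ext (by simpa using h) (by simpa using (hwim x).mpr hx))
    have hconn : IsPreconnected D.L.ell := by
      have h1 : D.L.ell = (fun x : ℝ => D.L.γ (x : ℂ)) '' univ := by
        rw [image_univ]; rfl
      rw [h1]
      apply isPreconnected_univ.image
      rw [continuousOn_univ, continuous_iff_continuousAt]
      intro x
      exact ContinuousAt.comp' (g := D.L.γ) (D.L.hol _ (D.L.real_mem_strip x)).continuousAt
        Complex.continuous_ofReal.continuousAt
    have h2 : IsPreconnected ((fun x => (w x).re) '' D.L.ell) := by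
      apply hconn.image
      intro x _
      exact (Complex.continuous_re.continuousAt.comp (hwc x)).continuousWithinAt
    by_contra hc
    push Not at hc
    obtain ⟨⟨x, hx, hx1⟩, y, hy, hy1⟩ := hc
    have h3 := h2.ordConnected.out (mem_image_of_mem _ hx) (mem_image_of_mem _ hy)
    have h4 : (0 : ℝ) ∈ Icc ((fun x => (w x).re) x) ((fun x => (w x).re) y) := ⟨hx1, hy1⟩
    obtain ⟨z, hz, hz0⟩ := h3 h4
    exact hre0 z hz hz0
  -- choose the sign
  obtain ⟨v, hvhol, hvim, hvre⟩ : ∃ v : X → ℂ, (∀ x, HolAt v x) ∧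
      (∀ x, (v x).im = 0 ↔ x ∈ D.L.ell) ∧ ∀ x ∈ D.L.ell, 0 < (v x).re := by
    rcases hsign with h | h
    · exact ⟨w, hwhol, hwim, h⟩
    · refine ⟨fun x => - w x, fun x => (hwhol x).neg, fun x => ?_, fun x hx => ?_⟩
      · rw [Complex.neg_im, neg_eq_zero]; exact hwim x
      · rw [Complex.neg_re]; linarith [h x hx]
  have hvslit : ∀ x, v x ∈ Complex.slitPlane := by
    intro x
    rw [Complex.mem_slitPlane_iff]
    by_cases hx : x ∈ D.L.ell
    · exact Or.inl (hvre x hx)
    · exact Or.inr fun h => hx ((hvim x).mp h)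
  refine D.stable_of_bounded (fun x => Complex.log (v x)) (fun x => (hvhol x).clog (hvslit x))
    (M := Real.pi) (fun x => ?_) (fun x => ?_)
  · rw [Complex.log_im]; exact Complex.abs_arg_le_pi _
  · rw [Complex.log_im, Complex.arg_eq_zero_iff, ← hvim x]
    constructor
    · exact fun h => h.2
    · intro h; exact ⟨(hvre x ((hvim x).mp h)).le, h⟩

/-- Exactly one real point omitted. -/
theorem stable_of_one_omitted {f : P → P} {c : InvCurve f} {d : ℕ} {X S : Type}
    [TopologicalSpace X] [RS X] [T2Space X] (D : CoverData f c d X S)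
    (F : X → P) (hF : ∀ x, HolAt F x) (hinj : Function.Injective F)
    (hre : ∀ x, cjP (F x) = F x ↔ x ∈ D.L.ell) (hsym : ∀ x, F (D.τ x) = cjP (F x))
    {a : P} (ha : cjP a = a) (hr : ∀ p, p ≠ a ↔ ∃ x, F x = p) : c.Stable := by
  -- move `a` to infinity
  obtain ⟨N, hNhol, hNinj, hNsurj, hNcj, hNa⟩ : ∃ N : P → P, (∀ z, HolAt N z) ∧
      Function.Injective N ∧ Function.Surjective N ∧ (∀ z, N (cjP z) = cjP (N z)) ∧
      N a = OnePoint.infty := by
    rcases cjP_real ha with h | ⟨b, h⟩
    · exact ⟨fun z => z, fun z => holAt_id z, fun _ _ h => h, fun z => ⟨z, rfl⟩,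
        fun z => rfl, h⟩
    · refine ⟨fun z => invP (affP 1 (-b) z),
        fun z => (holAt_invP _).comp (holAt_affP one_ne_zero _ z),
        invP_injective.comp (affP_injective one_ne_zero _), ?_, ?_, ?_⟩
      · intro z
        refine ⟨affP 1 b (invP z), ?_⟩
        have h1 : ∀ y : P, affP 1 (-b) (affP 1 b y) = y := by
          intro y
          induction y using OnePoint.rec with
          | infty => simp [affP_infty]
          | coe y => simp [affP_coe]
        beta_reduce
        rw [h1, invP_invP]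
      · intro z
        induction z using OnePoint.rec with
        | infty => simp [affP_infty]
        | coe z =>
          simp only [cjP_coe, affP_coe]
          by_cases hz : 1 * z + -(b : ℂ) = 0
          · have hz' : 1 * (starRingEnd ℂ) z + -(b : ℂ) = 0 := by
              have := congrArg (starRingEnd ℂ) hz
              simpa using this
            rw [hz, hz', invP_zero, cjP_infty]
          · have hz' : 1 * (starRingEnd ℂ) z + -(b : ℂ) ≠ 0 := by
              intro h; apply hz
              have := congrArg (starRingEnd ℂ) h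
              simpa using this
            rw [invP_coe hz, invP_coe hz', cjP_coe, map_inv₀, map_add, map_mul, map_one, map_neg,
              Complex.conj_ofReal]
      · rw [h]; simp [affP_coe]
  have hfin : ∀ x, N (F x) ≠ OnePoint.infty := by
    intro x h
    exact (hr (F x)).mpr ⟨x, rfl⟩ (hNinj (h.trans hNa.symm))
  refine D.stable_of_plane (fun x => valP (N (F x)))
    (fun x => ((hNhol _).comp (hF x)).valP (hfin x)) ⟨?_, ?_⟩ (fun x => ?_)
    (fun x => ?_)
  · intro x y h
    apply hinj; apply hNinj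
    rw [← coe_valP (hfin x), ← coe_valP (hfin y)]
    exact congrArg _ h
  · intro z
    obtain ⟨p, hp⟩ := hNsurj (z : P)
    have hpa : p ≠ a := by
      rintro rfl
      rw [hNa] at hp
      exact OnePoint.infty_ne_coe z hp
    obtain ⟨x, hx⟩ := (hr p).mp hpa
    refine ⟨x, ?_⟩
    beta_reduce
    rw [hx, hp, valP_coe]
  · rw [valP_im_eq_zero (hfin x), ← hNcj, ← hre x]
    exact ⟨fun h => hNinj h, fun h => by rw [h]⟩
  · rw [hsym, hNcj, valP_cjP]

/-- The type analysis. -/
theorem types {f : P → P} (hf : ∀ p, HolAt f p) {d : ℕ} (hd : ∀ w, (f ⁻¹' {w}).encard ≤ d)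
    (c : InvCurve f) (hns : ¬ c.Stable) : Nonempty (RatData f c) ∧ SimplyConnectedSpace P := by
  obtain ⟨X, S, _, _, hT2, hSC, ⟨D⟩⟩ := exists_cover f hf d hd c
  obtain ⟨Xp, Xm, hS⟩ := D.L.exists_sides
  have hτγ : ∀ s ∈ strip D.L.η, D.τ (D.L.γ s) = D.L.γ ((starRingEnd ℂ) s) := by
    rw [D.L_η]; exact D.τ_γ
  obtain ⟨F, hF, hFi, hFτ, hFp, hFs⟩ := exists_embedding D.L D.τ_anti D.τ_τ hτγ hS
  have hτc : Continuous D.τ := continuous_iff_continuousAt.mpr fun x => (D.τ_anti x).continuousAt
  obtain ⟨hpm, hmp, hfix⟩ := hS.swap hτc D.τ_τ hτγ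
  have hFpc : ∀ x ∈ Xp, cjP (F x) ≠ F x := by
    intro x hx h
    have h1 := hFp x hx
    rw [← valP_im_eq_zero h1.1] at h
    linarith [h1.2]
  have hre : ∀ x, cjP (F x) = F x ↔ x ∈ D.L.ell := by
    intro x
    constructor
    · intro h
      rcases hS.cases x with h1 | h1 | h1
      · exact absurd h (hFpc x h1)
      · exfalso
        apply hFpc _ (hmp x h1)
        rw [hFτ, cjP_cjP, h]
      · exact h1
    · intro h
      rw [← hFτ, hfix x h]
  have hsurj : ∀ p, cjP p ≠ p → ∃ x, F x = p := by
    intro p hp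
    have hpi : p ≠ OnePoint.infty := by rintro rfl; exact hp rfl
    have hpi' : cjP p ≠ OnePoint.infty := fun h => hpi (cjP_eq_infty.mp h)
    have him : (valP p).im ≠ 0 := fun h => hp ((valP_im_eq_zero hpi).mp h)
    rcases lt_or_gt_of_ne him with h | h
    · obtain ⟨x, -, hx⟩ := hFs (valP (cjP p)) (by rw [valP_cjP, Complex.conj_im]; linarith)
      refine ⟨D.τ x, ?_⟩
      rw [hFτ, hx, coe_valP hpi', cjP_cjP]
    · obtain ⟨x, -, hx⟩ := hFs (valP p) h
      exact ⟨x, by rw [hx, coe_valP hpi]⟩
  by_cases hall : ∀ p, ∃ x, F x = p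
  · refine D.rational_of_sphere F hF ⟨hFi, hall⟩ hre hFτ ?_
    intro s hs hs0
    have h1 := hFp _ (hS.up s (by rw [D.L_η]; exact hs) hs0)
    exact ⟨valP (F (D.L.γ s)), h1.2, (coe_valP h1.1).symm⟩
  · exfalso
    push Not at hall
    obtain ⟨a, ha⟩ := hall
    have har : cjP a = a := by
      by_contra h
      obtain ⟨x, hx⟩ := hsurj a h
      exact ha x hx
    by_cases hone : ∀ p, p ≠ a → ∃ x, F x = p
    · exact hns (stable_of_one_omitted D F hF hFi hre hFτ har
        (fun p => ⟨hone p, fun ⟨x, hx⟩ h => ha x (hx.trans h)⟩))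
    · push Not at hone
      obtain ⟨b, hba, hb⟩ := hone
      have hbr : cjP b = b := by
        by_contra h
        obtain ⟨x, hx⟩ := hsurj b h
        exact hb x hx
      rcases cjP_real hbr with h1 | ⟨t, ht⟩
      · rcases cjP_real har with h2 | ⟨t, ht⟩
        · exact hba (h1.trans h2.symm)
        · subst ht
          exact hns (stable_of_two_omitted D F hF hre hba hbr hb ha)
      · subst ht
        exact hns (stable_of_two_omitted D F hF hre hba.symm har ha hb)

end Pool.Agent.Lib.MP_1f4a82_an
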